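import Pool.Agent.SphLim.Quad

/-!
# Doubling the pair
-/

open MeasureTheory Filter Topology Metric
open scoped ENNReal Pointwise RealInnerProductSpace Real

namespace SphLim

variable {d : ℕ}

/-- The pair function. -/
noncomputable def Ep (h F : Eu (d + 1) → ℝ) (a y : Eu (d + 1)) (g : OG (d + 1)) : ℝ :=
  h (act g a) * F (act g y)

lemma measurable_Ep {h F : Eu (d + 1) → ℝ} (hm : Measurable h) (hFm : Measurable F)
    (a y : Eu (d + 1)) : Measurable (Ep h F a y) :=
  (hm.comp (measurable_act_left a)).mul (hFm.comp (measurable_act_left y))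

lemma abs_Ep_le {h F : Eu (d + 1) → ℝ} (hFb : ∀ y, |F y| ≤ 1) (a y : Eu (d + 1))
    (g : OG (d + 1)) : |Ep h F a y g| ≤ |h (act g a)| := by
  unfold Ep
  rw [abs_mul]
  exact mul_le_of_le_one_right (abs_nonneg _) (hFb _)

lemma measurable_mul_right_OG {n : ℕ} (X : OG n) : Measurable fun g : OG n => g * X :=
  (continuous_mul_const X).measurable

lemma integrable_bdd {f : OG (d + 1) → ℝ} (hf : Measurable f) {C : ℝ} (hC : ∀ g, |f g| ≤ C) :
    Integrable f (haar (d + 1)) :=
  Integrable.of_bound hf.aestronglyMeasurable C (Eventually.of_forall fun g => by simpa using hC g)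

lemma sum_ind1 (n : ℕ) : ∑ q : Fin n × Fin n, ∑ q' : Fin n × Fin n, (if q.1 = q'.1 then (1:ℝ) else 0) = (n:ℝ)^3 := by
  have h : ∀ q : Fin n × Fin n, ∑ q' : Fin n × Fin n, (if q.1 = q'.1 then (1:ℝ) else 0) = n := by
    intro q
    rw [Fintype.sum_prod_type]
    have : ∀ x : Fin n, ∑ _y : Fin n, (if q.1 = x then (1:ℝ) else 0) = if q.1 = x then (n:ℝ) else 0 := by
      intro x
      by_cases hx : q.1 = x
      · simp [hx]
      · simp [hx]
    simp only [this]
    simp
  simp only [h]
  simp
  ring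

lemma sum_ind2 (n : ℕ) : ∑ q : Fin n × Fin n, ∑ q' : Fin n × Fin n, (if q.2 = q'.2 then (1:ℝ) else 0) = (n:ℝ)^3 := by
  have h : ∀ q : Fin n × Fin n, ∑ q' : Fin n × Fin n, (if q.2 = q'.2 then (1:ℝ) else 0) = n := by
    intro q
    rw [Fintype.sum_prod_type]
    simp
  simp only [h]
  simp
  ring

lemma sum_ind3 (n : ℕ) (j : Fin n) : ∑ q : Fin n × Fin n, ∑ _q' : Fin n × Fin n, (if q.2 = j then (1:ℝ) else 0) = (n:ℝ)^3 := by
  rw [Finset.sum_comm]
  have h : ∀ q' : Fin n × Fin n, ∑ q : Fin n × Fin n, (if q.2 = j then (1:ℝ) else 0) = n := by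
    intro q
    rw [Fintype.sum_prod_type]
    simp
  simp only [h (j,j)]
  simp
  ring

lemma sum_ind4 (n : ℕ) (j : Fin n) : ∑ _q : Fin n × Fin n, ∑ q' : Fin n × Fin n, (if q'.2 = j then (1:ℝ) else 0) = (n:ℝ)^3 := by
  rw [Finset.sum_comm]
  exact sum_ind3 n j

lemma sum_ind_bound (n : ℕ) (j1 : Fin n) (e N1 : ℝ) :
    ∑ q : Fin n × Fin n, ∑ q' : Fin n × Fin n, (e + N1 * ((if q.1 = q'.1 then 1 else 0) +
      (if q.2 = q'.2 then 1 else 0) + (if q.2 = j1 then 1 else 0) +
      (if q'.2 = j1 then 1 else 0))) = (n : ℝ) ^ 4 * e + 4 * (n : ℝ) ^ 3 * N1 := by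
  have h0 : ∑ q : Fin n × Fin n, ∑ _q' : Fin n × Fin n, e = (n : ℝ) ^ 4 * e := by
    simp
    ring
  simp only [Finset.sum_add_distrib, ← Finset.mul_sum]
  rw [h0, sum_ind1, sum_ind2, sum_ind3, sum_ind4]
  ring

theorem block_bound {n : ℕ} (hn : 0 < n) {h F : Eu (d + 1) → ℝ} (hm : Measurable h)
    (hb : ∀ y, |h y| ≤ 1) (hFm : Measurable F) (hFb : ∀ y, |F y| ≤ 1) {a y : Eu (d + 1)}
    (ha : ‖a‖ = 1) (R : Fin n → OG (d + 1)) (N : Fin n → Fin n → OG (d + 1))
    (hNa : ∀ j k, act (N j k) (act (R j) a) = act (R j) a)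
    (hNy : ∀ j k, act (N j k) (act (R j) y) = act (R j) y) {N1 e δ : ℝ}
    (hN1 : ∫ x, |h x| ∂(sphMeas d) ≤ N1) (he : 0 ≤ e) (hδ : 0 < δ)
    (hgood : ∀ j1 k j k' j' : Fin n, k ≠ k' → j ≠ j' → j ≠ j1 → j' ≠ j1 →
      |∫ g, Ep h F a y (g * (N j1 k * R j)) * Ep h F a y (g * (N j1 k' * R j'))
        ∂(haar (d + 1))| ≤ e) :
    ∫ g, (∑ j, Ep h F a y (g * R j)) ^ 2 ∂(haar (d + 1)) ≤
      (n : ℝ) ^ 2 * (δ * N1 / 2 + (e + 4 * N1 / n) / (2 * δ)) := by
  set E := Ep h F a y with hE
  have hEm : Measurable E := measurable_Ep hm hFm a y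
  have hE1 : ∀ g, |E g| ≤ 1 := fun g => (abs_Ep_le hFb a y g).trans (hb _)
  have hn0 : (0 : ℝ) < n := by exact_mod_cast hn
  have hEX : ∀ X : OG (d + 1), Measurable fun g => E (g * X) := fun X =>
    hEm.comp (measurable_mul_right_OG X)
  have hN10 : 0 ≤ N1 := (integral_nonneg fun _ => abs_nonneg _).trans hN1
  have hhX : ∀ X : OG (d + 1), ∫ g, |h (act g (act X a))| ∂(haar (d + 1)) ≤ N1 := by
    intro X
    rw [integral_act (by rw [norm_act]; exact ha) hm.abs]
    exact hN1
  have hhi : ∀ X : OG (d + 1), Integrable (fun g => |h (act g (act X a))|) (haar (d + 1)) :=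
    fun X => integrable_bdd (hm.abs.comp (measurable_act_left _)) (C := 1)
      (fun g => by rw [abs_abs]; exact hb _)
  have hprod : ∀ X X' : OG (d + 1), Integrable (fun g => E (g * X) * E (g * X')) (haar (d + 1)) :=
    fun X X' => integrable_bdd ((hEX X).mul (hEX X')) (C := 1) (fun g => by
      rw [abs_mul]; exact mul_le_one₀ (hE1 _) (abs_nonneg _) (hE1 _))
  have hc1 : ∀ X X' : OG (d + 1), |∫ g, E (g * X) * E (g * X') ∂(haar (d + 1))| ≤ N1 := by
    intro X X'
    rw [← Real.norm_eq_abs]
    refine (norm_integral_le_integral_norm _).trans ?_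
    refine le_trans ?_ (hhX X)
    apply integral_mono_of_nonneg (Eventually.of_forall fun _ => norm_nonneg _) (hhi X)
    refine Eventually.of_forall fun g => ?_
    simp only [norm_mul, Real.norm_eq_abs]
    have h1 := abs_Ep_le (h := h) hFb a y (g * X)
    rw [act_mul] at h1
    calc |E (g * X)| * |E (g * X')| ≤ |h (act g (act X a))| * 1 :=
          mul_le_mul h1 (hE1 _) (abs_nonneg _) (abs_nonneg _)
      _ = _ := mul_one _
  set M : OG (d + 1) → ℝ := fun g => ∑ j, E (g * R j) with hM
  have hMm : Measurable M := Finset.measurable_sum _ fun j _ => hEX (R j)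
  have hMb : ∀ g, |M g| ≤ n := by
    intro g
    refine (Finset.abs_sum_le_sum_abs _ _).trans ?_
    calc ∑ j, |E (g * R j)| ≤ ∑ _j : Fin n, (1 : ℝ) := Finset.sum_le_sum fun j _ => hE1 _
      _ = n := by simp
  have hterm : ∀ j1 : Fin n, ∫ g, E (g * R j1) * M g ∂(haar (d + 1)) ≤
      n * (δ * N1 / 2 + (e + 4 * N1 / n) / (2 * δ)) := by
    intro j1
    set T : OG (d + 1) → ℝ := fun g => ∑ q : Fin n × Fin n, E (g * (N j1 q.1 * R q.2)) with hT
    have hTm : Measurable T := Finset.measurable_sum _ fun q _ => hEX _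
    have hTb : ∀ g, |T g| ≤ n * n := by
      intro g
      refine (Finset.abs_sum_le_sum_abs _ _).trans ?_
      calc ∑ q : Fin n × Fin n, |E (g * (N j1 q.1 * R q.2))| ≤ ∑ _q : Fin n × Fin n, (1 : ℝ) :=
            Finset.sum_le_sum fun q _ => hE1 _
        _ = n * n := by simp
    have hET : Integrable (fun g => E (g * R j1) * T g) (haar (d + 1)) :=
      integrable_bdd ((hEX _).mul hTm) (C := 1 * (n * n)) (fun g => by
        rw [abs_mul]; exact mul_le_mul (hE1 _) (hTb _) (abs_nonneg _) zero_le_one)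
    have h1 : (n : ℝ) * ∫ g, E (g * R j1) * M g ∂(haar (d + 1)) =
        ∫ g, E (g * R j1) * T g ∂(haar (d + 1)) := by
      have h2 : ∀ k : Fin n, ∫ g, E (g * R j1) * M g ∂(haar (d + 1)) =
          ∫ g, E (g * R j1) * (∑ j, E (g * (N j1 k * R j))) ∂(haar (d + 1)) := by
        intro k
        rw [← integral_haar_mul_right (f := fun g => E (g * R j1) * M g) (N j1 k)]
        congr 1
        ext g
        have e1 : E (g * N j1 k * R j1) = E (g * R j1) := by
          rw [hE]
          unfold Ep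
          rw [act_mul, act_mul, act_mul, act_mul, act_mul, act_mul, hNa, hNy]
        rw [e1, hM]
        simp only [mul_assoc]
      have h3 : ∑ k : Fin n, ∫ g, E (g * R j1) * M g ∂(haar (d + 1)) =
          ∑ k : Fin n, ∫ g, E (g * R j1) * (∑ j, E (g * (N j1 k * R j))) ∂(haar (d + 1)) :=
        Finset.sum_congr rfl fun k _ => h2 k
      rw [Finset.sum_const, Finset.card_univ, Fintype.card_fin, nsmul_eq_mul] at h3
      rw [h3, ← integral_finsetSum]
      · congr 1
        ext g
        rw [hT]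
        simp only
        rw [Fintype.sum_prod_type, Finset.mul_sum]
      · intro k _
        have hS : Measurable fun g => ∑ j, E (g * (N j1 k * R j)) :=
          Finset.measurable_sum _ fun j _ => hEX _
        refine integrable_bdd ((hEX _).mul hS) (C := 1 * n) (fun g => ?_)
        rw [abs_mul]
        apply mul_le_mul (hE1 _) _ (abs_nonneg _) zero_le_one
        refine (Finset.abs_sum_le_sum_abs _ _).trans ?_
        calc ∑ j, |E (g * (N j1 k * R j))| ≤ ∑ _j : Fin n, (1 : ℝ) :=
              Finset.sum_le_sum fun j _ => hE1 _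
          _ = n := by simp
    have hT2 : ∫ g, T g ^ 2 ∂(haar (d + 1)) ≤ (n : ℝ) ^ 4 * e + 4 * (n : ℝ) ^ 3 * N1 := by
      have h2 : ∫ g, T g ^ 2 ∂(haar (d + 1)) = ∑ q : Fin n × Fin n, ∑ q' : Fin n × Fin n,
          ∫ g, E (g * (N j1 q.1 * R q.2)) * E (g * (N j1 q'.1 * R q'.2)) ∂(haar (d + 1)) := by
        have e1 : ∀ g, T g ^ 2 = ∑ q : Fin n × Fin n, ∑ q' : Fin n × Fin n,
            E (g * (N j1 q.1 * R q.2)) * E (g * (N j1 q'.1 * R q'.2)) := by
          intro g
          rw [sq, hT]
          simp only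
          rw [Finset.sum_mul_sum]
        simp_rw [e1]
        rw [integral_finsetSum]
        · apply Finset.sum_congr rfl
          intro q _
          rw [integral_finsetSum]
          intro q' _
          exact hprod _ _
        · intro q _
          exact integrable_finsetSum _ fun q' _ => hprod _ _
      rw [h2, ← sum_ind_bound n j1 e N1]
      apply Finset.sum_le_sum
      intro q _
      apply Finset.sum_le_sum
      intro q' _
      refine (le_abs_self _).trans ?_
      by_cases hk : q.1 = q'.1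
      · refine (hc1 _ _).trans ?_
        rw [if_pos hk]
        have : (0 : ℝ) ≤ (if q.2 = q'.2 then 1 else 0) + (if q.2 = j1 then 1 else 0) +
            (if q'.2 = j1 then 1 else 0) := by positivity
        nlinarith
      · by_cases hj : q.2 = q'.2
        · refine (hc1 _ _).trans ?_
          rw [if_neg hk, if_pos hj]
          have : (0 : ℝ) ≤ (if q.2 = j1 then 1 else 0) +
            (if q'.2 = j1 then 1 else 0) := by positivity
          nlinarith
        · by_cases hj1 : q.2 = j1
          · refine (hc1 _ _).trans ?_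
            rw [if_neg hk, if_neg hj, if_pos hj1]
            have : (0 : ℝ) ≤ (if q'.2 = j1 then 1 else 0) := by positivity
            nlinarith
          · by_cases hj1' : q'.2 = j1
            · refine (hc1 _ _).trans ?_
              rw [if_neg hk, if_neg hj, if_neg hj1, if_pos hj1']
              nlinarith
            · refine (hgood j1 q.1 q.2 q'.1 q'.2 hk hj hj1 hj1').trans ?_
              rw [if_neg hk, if_neg hj, if_neg hj1, if_neg hj1']
              linarith
    have hT2i : Integrable (fun g => T g ^ 2) (haar (d + 1)) :=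
      integrable_bdd (hTm.pow_const 2) (C := (n * n) ^ 2) (fun g => by
        rw [abs_pow]; exact pow_le_pow_left₀ (abs_nonneg _) (hTb g) 2)
    have hn2 : (0 : ℝ) < δ * n ^ 2 := by positivity
    have h3 : ∫ g, E (g * R j1) * T g ∂(haar (d + 1)) ≤
        δ * n ^ 2 / 2 * N1 + ((n : ℝ) ^ 4 * e + 4 * (n : ℝ) ^ 3 * N1) / (2 * (δ * n ^ 2)) := by
      calc ∫ g, E (g * R j1) * T g ∂(haar (d + 1)) ≤
            ∫ g, (δ * n ^ 2 / 2 * |h (act g (act (R j1) a))| + T g ^ 2 / (2 * (δ * n ^ 2)))
              ∂(haar (d + 1)) := by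
            apply integral_mono hET (((hhi _).const_mul _).add (hT2i.div_const _))
            intro g
            change E (g * R j1) * T g ≤ δ * n ^ 2 / 2 * |h (act g (act (R j1) a))| +
              T g ^ 2 / (2 * (δ * n ^ 2))
            refine (le_abs_self _).trans ?_
            rw [abs_mul]
            have h4 : |T g| ≤ δ * n ^ 2 / 2 + |T g| ^ 2 / (2 * (δ * n ^ 2)) := by
              rw [← sub_nonneg]
              have h5 : δ * n ^ 2 / 2 + |T g| ^ 2 / (2 * (δ * n ^ 2)) - |T g| =
                  (δ * n ^ 2 - |T g|) ^ 2 / (2 * (δ * n ^ 2)) := by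
                field_simp
                ring
              rw [h5]
              positivity
            have h6 := abs_Ep_le (h := h) hFb a y (g * R j1)
            rw [act_mul] at h6
            rw [← sq_abs (T g)]
            calc |E (g * R j1)| * |T g| ≤ |h (act g (act (R j1) a))| *
                  (δ * n ^ 2 / 2 + |T g| ^ 2 / (2 * (δ * n ^ 2))) :=
                  mul_le_mul h6 h4 (abs_nonneg _) (abs_nonneg _)
              _ = δ * n ^ 2 / 2 * |h (act g (act (R j1) a))| +
                  |h (act g (act (R j1) a))| * (|T g| ^ 2 / (2 * (δ * n ^ 2))) := by ring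
              _ ≤ δ * n ^ 2 / 2 * |h (act g (act (R j1) a))| +
                  1 * (|T g| ^ 2 / (2 * (δ * n ^ 2))) := by
                  gcongr
                  exact hb _
              _ = _ := by ring
        _ = δ * n ^ 2 / 2 * (∫ g, |h (act g (act (R j1) a))| ∂(haar (d + 1))) +
            (∫ g, T g ^ 2 ∂(haar (d + 1))) / (2 * (δ * n ^ 2)) := by
            rw [integral_add ((hhi _).const_mul _) (hT2i.div_const _), integral_const_mul,
              integral_div]
        _ ≤ _ := by
            have := hhX (R j1)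
            gcongr
    have h4 : (n : ℝ) * ∫ g, E (g * R j1) * M g ∂(haar (d + 1)) ≤
        n * (n * (δ * N1 / 2 + (e + 4 * N1 / n) / (2 * δ))) := by
      rw [h1]
      refine h3.trans (le_of_eq ?_)
      field_simp
    exact le_of_mul_le_mul_left h4 hn0
  have hsq : ∫ g, M g ^ 2 ∂(haar (d + 1)) = ∑ j1, ∫ g, E (g * R j1) * M g ∂(haar (d + 1)) := by
    rw [← integral_finsetSum]
    · congr 1
      ext g
      rw [sq]
      nth_rw 1 [hM]
      simp only
      rw [Finset.sum_mul]
    · intro j _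
      refine integrable_bdd ((hEX _).mul hMm) (C := 1 * n) (fun g => ?_)
      rw [abs_mul]
      exact mul_le_mul (hE1 _) (hMb _) (abs_nonneg _) zero_le_one
  rw [hsq]
  calc ∑ j1, ∫ g, E (g * R j1) * M g ∂(haar (d + 1)) ≤
        ∑ _j1 : Fin n, (n * (δ * N1 / 2 + (e + 4 * N1 / n) / (2 * δ))) :=
        Finset.sum_le_sum fun j1 _ => hterm j1
    _ = _ := by
        rw [Finset.sum_const, Finset.card_univ, Fintype.card_fin, nsmul_eq_mul]
        ring

end SphLim
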