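import Pool.Agent.SphLim.CapConv0

/-!
# Convergence of the cap averages
-/

open MeasureTheory Filter Topology Metric
open scoped ENNReal Pointwise RealInnerProductSpace Real

namespace SphLim

variable {d : ℕ}

lemma meas_kernel {n : ℕ} {φ : Eu d → Eu n} (hφ : Continuous φ) (r : ℝ) :
    Measurable fun p : Eu d × Eu d => (closedBall (φ p.1) r).indicator (1 : Eu n → ℝ) (φ p.2) := by
  set T : Set (Eu d × Eu d) := {p | dist (φ p.2) (φ p.1) ≤ r} with hT
  have hTm : MeasurableSet T :=
    (isClosed_le ((hφ.comp continuous_snd).dist (hφ.comp continuous_fst))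
      continuous_const).measurableSet
  have e : (fun p : Eu d × Eu d => (closedBall (φ p.1) r).indicator (1 : Eu n → ℝ) (φ p.2)) =
      T.indicator 1 := by
    ext p
    by_cases h : p ∈ T
    · rw [Set.indicator_of_mem h,
        Set.indicator_of_mem (show φ p.2 ∈ closedBall (φ p.1) r from h)]
      rfl
    · rw [Set.indicator_of_notMem h,
        Set.indicator_of_notMem (show φ p.2 ∉ closedBall (φ p.1) r from h)]
  rw [e]
  exact measurable_one.indicator hTm

lemma ind01 {X : Type*} (A : Set X) (x : X) :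
    0 ≤ A.indicator (1 : X → ℝ) x ∧ A.indicator (1 : X → ℝ) x ≤ 1 := by
  by_cases h : x ∈ A
  · rw [Set.indicator_of_mem h]; simp
  · rw [Set.indicator_of_notMem h]; simp

/-- The kernel at scale `t`. -/
noncomputable def Qk (s t : ℝ) (y z : Eu d) : ℝ :=
  (closedBall (ct t y) (s * t)).indicator 1 (ct t z)

lemma Qk01 (s t : ℝ) (y z : Eu d) : 0 ≤ Qk s t y z ∧ Qk s t y z ≤ 1 := ind01 _ _

lemma measurable_Qk2 (s t : ℝ) : Measurable fun p : Eu d × Eu d => Qk s t p.1 p.2 :=
  meas_kernel (continuous_ct t) _

lemma measurable_Qk (s t : ℝ) (y : Eu d) : Measurable (Qk s t y) := by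
  have h : Measurable ((closedBall (ct t y) (s * t)).indicator (1 : Eu (d + 1) → ℝ)) :=
    measurable_one.indicator isClosed_closedBall.measurableSet
  exact h.comp (continuous_ct t).measurable

/-- The rescaled cap integral. -/
noncomputable def Ik (R s t : ℝ) (w : Eu d → ℝ) (y : Eu d) : ℝ :=
  ∫ z in closedBall (0 : Eu d) R, wt t z * Qk s t y z * w z

/-- The limiting ball integral. -/
noncomputable def I0 (R s : ℝ) (w : Eu d → ℝ) (y : Eu d) : ℝ :=
  ∫ z in closedBall (0 : Eu d) R, (closedBall y s).indicator 1 z * w z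

instance cbFinite (R : ℝ) :
    IsFiniteMeasure ((volume : Measure (Eu d)).restrict (closedBall (0 : Eu d) R)) :=
  ⟨by rw [Measure.restrict_apply_univ]; exact vol_cb_lt_top _ _⟩

lemma kern01 (s t : ℝ) (y z : Eu d) : 0 ≤ wt t z * Qk s t y z ∧ wt t z * Qk s t y z ≤ 1 :=
  ⟨mul_nonneg (wt_pos t z).le (Qk01 s t y z).1,
    mul_le_one₀ (wt_le_one t z) (Qk01 s t y z).1 (Qk01 s t y z).2⟩

lemma measurable_kern (s t : ℝ) (y : Eu d) : Measurable fun z => wt t z * Qk s t y z :=
  (continuous_wt t).measurable.mul (measurable_Qk s t y)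

lemma Ik_tendsto {τ : ℕ → ℝ} (hτ0 : ∀ k, 0 < τ k) (hτ : Tendsto τ atTop (𝓝 0)) {R s : ℝ}
    (hs : 0 < s) {w : ℕ → Eu d → ℝ} (hwm : ∀ k, Measurable (w k)) (hw : ∀ k z, |w k z| ≤ 1)
    {w0 : Eu d → ℝ}
    (hweak : ∀ g : Eu d → ℝ, Measurable g → (∀ y, |g y| ≤ 1) →
      Tendsto (fun k => ∫ z in closedBall (0 : Eu d) R, g z * w k z) atTop
        (𝓝 (∫ z in closedBall (0 : Eu d) R, g z * w0 z))) (y : Eu d) :
    Tendsto (fun k => Ik R s (τ k) (w k) y) atTop (𝓝 (I0 R s w0 y)) := by
  set q0 : Eu d → ℝ := (closedBall y s).indicator 1 with hq0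
  have hq0m : Measurable q0 := measurable_one.indicator isClosed_closedBall.measurableSet
  have hq01 : ∀ z, 0 ≤ q0 z ∧ q0 z ≤ 1 := fun z => ind01 _ _
  have hq0a : ∀ z, |q0 z| ≤ 1 := by
    intro z
    rw [abs_of_nonneg (hq01 z).1]
    exact (hq01 z).2
  have hdf : ∀ k z, |wt (τ k) z * Qk s (τ k) y z - q0 z| ≤ 1 := by
    intro k z
    have e1 := kern01 s (τ k) y z
    have e2 := hq01 z
    rw [abs_le]
    constructor <;> linarith [e1.1, e1.2, e2.1, e2.2]
  have h1 : Tendsto (fun k => ∫ z in closedBall (0 : Eu d) R,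
      (wt (τ k) z * Qk s (τ k) y z - q0 z) * w k z) atTop
      (𝓝 (∫ _z in closedBall (0 : Eu d) R, (0 : ℝ))) := by
    apply tendsto_integral_of_dominated_convergence (fun _ => (1 : ℝ))
    · intro k
      exact (((measurable_kern s (τ k) y).sub hq0m).mul (hwm k)).aestronglyMeasurable
    · exact integrable_const _
    · intro k
      refine Eventually.of_forall fun z => ?_
      rw [norm_mul, Real.norm_eq_abs, Real.norm_eq_abs]
      exact mul_le_one₀ (hdf k z) (abs_nonneg _) (hw k z)
    · have hsph : ∀ᵐ z ∂(volume : Measure (Eu d)), z ∉ sphere y s := by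
        have h9 := Measure.addHaar_sphere_of_ne_zero (volume : Measure (Eu d)) y hs.ne'
        rw [measure_eq_zero_iff_ae_notMem] at h9
        exact h9
      filter_upwards [ae_restrict_of_ae hsph] with z hz
      have hne : ‖z - y‖ ≠ s := by
        intro h
        apply hz
        rw [mem_sphere, dist_eq_norm]
        exact h
      have hev := ind_tendsto hτ0 hτ hne
      have hwt : Tendsto (fun k => wt (τ k) z) atTop (𝓝 1) := (tendsto_wt z).comp hτ
      have h2 : Tendsto (fun k => wt (τ k) z * Qk s (τ k) y z) atTop (𝓝 (1 * q0 z)) := by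
        apply hwt.mul
        refine tendsto_const_nhds.congr' ?_
        filter_upwards [hev] with k hk
        exact hk.symm
      have h3 : Tendsto (fun k => wt (τ k) z * Qk s (τ k) y z - q0 z) atTop (𝓝 0) := by
        have := h2.sub_const (q0 z)
        rwa [one_mul, sub_self] at this
      rw [Metric.tendsto_atTop] at h3 ⊢
      intro e he
      obtain ⟨N, hN⟩ := h3 e he
      refine ⟨N, fun k hk => ?_⟩
      have h4 := hN k hk
      rw [Real.dist_eq, sub_zero] at h4 ⊢
      rw [abs_mul]
      calc |wt (τ k) z * Qk s (τ k) y z - q0 z| * |w k z|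
          ≤ |wt (τ k) z * Qk s (τ k) y z - q0 z| * 1 := by gcongr; exact hw k z
        _ < e := by rw [mul_one]; exact h4
  rw [integral_zero] at h1
  have h2 := hweak q0 hq0m hq0a
  have hdec : ∀ k, Ik R s (τ k) (w k) y = (∫ z in closedBall (0 : Eu d) R,
      (wt (τ k) z * Qk s (τ k) y z - q0 z) * w k z) +
      ∫ z in closedBall (0 : Eu d) R, q0 z * w k z := by
    intro k
    unfold Ik
    rw [← integral_add]
    · congr 1
      ext z
      ring
    · refine Integrable.of_bound (C := 1)
        (((measurable_kern s (τ k) y).sub hq0m).mul (hwm k)).aestronglyMeasurable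
        (Eventually.of_forall fun z => ?_)
      rw [norm_mul, Real.norm_eq_abs, Real.norm_eq_abs]
      exact mul_le_one₀ (hdf k z) (abs_nonneg _) (hw k z)
    · refine Integrable.of_bound (C := 1) (hq0m.mul (hwm k)).aestronglyMeasurable
        (Eventually.of_forall fun z => ?_)
      rw [norm_mul, Real.norm_eq_abs, Real.norm_eq_abs]
      exact mul_le_one₀ (hq0a z) (abs_nonneg _) (hw k z)
  have h3 := h1.add h2
  rw [zero_add] at h3
  unfold I0
  rw [← hq0]
  exact h3.congr fun k => (hdec k).symm

lemma abs_Ik_le {R s t : ℝ} {w : Eu d → ℝ} (hw : ∀ z, |w z| ≤ 1) (y : Eu d) :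
    |Ik R s t w y| ≤ (volume : Measure (Eu d)).real (closedBall 0 R) := by
  unfold Ik
  have h1 := norm_setIntegral_le_of_norm_le_const (μ := (volume : Measure (Eu d)))
    (s := closedBall (0 : Eu d) R)
    (f := fun z => wt t z * Qk s t y z * w z) (C := 1) (vol_cb_lt_top _ _) (fun z _ => by
      rw [norm_mul, Real.norm_of_nonneg (kern01 s t y z).1, Real.norm_eq_abs]
      exact mul_le_one₀ (kern01 s t y z).2 (abs_nonneg _) (hw z))
  rw [one_mul, Real.norm_eq_abs] at h1
  exact h1

lemma measurable_Ik (R s t : ℝ) {w : Eu d → ℝ} (hwm : Measurable w) :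
    Measurable (Ik R s t w) := by
  unfold Ik
  have h1 : Measurable fun p : Eu d × Eu d => wt t p.2 * Qk s t p.1 p.2 * w p.2 :=
    (((continuous_wt t).measurable.comp measurable_snd).mul (measurable_Qk2 s t)).mul
      (hwm.comp measurable_snd)
  exact (h1.stronglyMeasurable.integral_prod_right').measurable

lemma Ik_supp {R s t : ℝ} (ht : 0 < t) (hk : (R + s) * t ≤ 1) {w : Eu d → ℝ} {y : Eu d}
    (hy : y ∉ closedBall (0 : Eu d) (2 * (R + s))) : Ik R s t w y = 0 := by
  unfold Ik
  rw [setIntegral_congr_fun (g := fun _ => (0 : ℝ)) isClosed_closedBall.measurableSet]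
  · simp
  · intro z hz
    have hQ0 : Qk s t y z = 0 := by
      unfold Qk
      apply Set.indicator_of_notMem
      intro hmem
      apply hy
      have h2 : ‖ct t z - ct t y‖ ≤ s * t := by rwa [← dist_eq_norm]
      have h3 : ‖ct t z - nP d‖ ≤ t * R := by
        refine (norm_ct_sub _ _).trans ?_
        rw [abs_of_pos ht]
        have : ‖z‖ ≤ R := by
          rw [mem_closedBall, dist_zero_right] at hz
          exact hz
        gcongr
      have h4 : ‖ct t y - nP d‖ ≤ (R + s) * t := by
        have e : ct t y - nP d = (ct t z - nP d) - (ct t z - ct t y) := by abel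
        rw [e]
        refine (norm_sub_le _ _).trans ?_
        linarith
      have h5 := (pj_est (norm_ct _ y) ht hk h4).1
      rw [pj_ct ht] at h5
      rw [mem_closedBall, dist_zero_right]
      exact h5
    simp only
    rw [hQ0]
    ring

lemma J_tendsto {τ : ℕ → ℝ} (hτ0 : ∀ k, 0 < τ k) (hτ : Tendsto τ atTop (𝓝 0)) {R s : ℝ}
    (hR : 0 ≤ R) (hs : 0 < s) {w : ℕ → Eu d → ℝ} (hwm : ∀ k, Measurable (w k))
    (hw : ∀ k z, |w k z| ≤ 1) {w0 : Eu d → ℝ}
    (hweak : ∀ g : Eu d → ℝ, Measurable g → (∀ y, |g y| ≤ 1) →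
      Tendsto (fun k => ∫ z in closedBall (0 : Eu d) R, g z * w k z) atTop
        (𝓝 (∫ z in closedBall (0 : Eu d) R, g z * w0 z))) :
    Tendsto (fun k => ∫ y, wt (τ k) y * |Ik R s (τ k) (w k) y|) atTop
      (𝓝 (∫ y, |I0 R s w0 y|)) := by
  set B2 : Set (Eu d) := closedBall 0 (2 * (R + s)) with hB2
  have hB2m : MeasurableSet B2 := isClosed_closedBall.measurableSet
  set V1 : ℝ := (volume : Measure (Eu d)).real (closedBall 0 R) with hV1
  apply tendsto_integral_filter_of_dominated_convergence (B2.indicator fun _ => V1)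
  · refine Eventually.of_forall fun k => ?_
    exact ((continuous_wt _).measurable.mul (measurable_Ik R s _ (hwm k)).abs).aestronglyMeasurable
  · have h1 : ∀ᶠ k in atTop, τ k < 1 / (R + s) := hτ.eventually_lt_const (by positivity)
    filter_upwards [h1] with k hk
    have hk' : (R + s) * τ k ≤ 1 := by
      rw [lt_div_iff₀ (by positivity)] at hk
      linarith
    refine Eventually.of_forall fun y => ?_
    rw [norm_mul, Real.norm_of_nonneg (wt_pos _ _).le, Real.norm_eq_abs, abs_abs]
    by_cases hy : y ∈ B2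
    · rw [Set.indicator_of_mem hy]
      calc wt (τ k) y * |Ik R s (τ k) (w k) y| ≤ 1 * V1 :=
            mul_le_mul (wt_le_one _ _) (abs_Ik_le (hw k) y) (abs_nonneg _) zero_le_one
        _ = V1 := one_mul _
    · rw [Set.indicator_of_notMem hy, Ik_supp (hτ0 k) hk' hy]
      simp
  · exact (integrable_indicator_iff hB2m).2 (integrableOn_const (vol_cb_lt_top _ _).ne)
  · refine Eventually.of_forall fun y => ?_
    have hwt : Tendsto (fun k => wt (τ k) y) atTop (𝓝 1) := (tendsto_wt y).comp hτ
    have := hwt.mul ((Ik_tendsto hτ0 hτ hs hwm hw hweak y).abs)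
    rwa [one_mul] at this

lemma ind_symm (s : ℝ) (z : Eu d) : (fun y : Eu d => (closedBall y s).indicator (1 : Eu d → ℝ) z) =
    (closedBall z s).indicator 1 := by
  ext y
  by_cases h : dist z y ≤ s
  · rw [Set.indicator_of_mem (show z ∈ closedBall y s from h),
      Set.indicator_of_mem (show y ∈ closedBall z s from by
        rw [mem_closedBall, dist_comm]; exact h)]
    rfl
  · rw [Set.indicator_of_notMem (show z ∉ closedBall y s from h),
      Set.indicator_of_notMem (show y ∉ closedBall z s from by
        rw [mem_closedBall, dist_comm]; exact h)]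

lemma int_ind (s : ℝ) (z : Eu d) : ∫ y : Eu d, (closedBall y s).indicator (1 : Eu d → ℝ) z =
    (volume : Measure (Eu d)).real (closedBall 0 s) := by
  rw [ind_symm, integral_indicator_one isClosed_closedBall.measurableSet]
  unfold Measure.real
  rw [Measure.addHaar_closedBall_center]

lemma I0_bound {R s : ℝ} {w : Eu d → ℝ} (hwm : Measurable w) (hw : ∀ z, |w z| ≤ 1) :
    ∫ y, |I0 R s w y| ≤ (volume : Measure (Eu d)).real (closedBall 0 s) *
      ∫ y in closedBall (0 : Eu d) R, |w y| := by
  have hm2 : Measurable fun p : Eu d × Eu d => (closedBall p.1 s).indicator (1 : Eu d → ℝ) p.2 :=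
    meas_kernel continuous_id s
  have hK : Integrable (fun p : Eu d × Eu d => (closedBall p.1 s).indicator (1 : Eu d → ℝ) p.2 *
      |w p.2|) ((volume : Measure (Eu d)).prod (volume.restrict (closedBall 0 R))) := by
    have hmm : Measurable fun p : Eu d × Eu d =>
        (closedBall p.1 s).indicator (1 : Eu d → ℝ) p.2 * |w p.2| :=
      hm2.mul (hwm.abs.comp measurable_snd)
    rw [integrable_prod_iff' hmm.aestronglyMeasurable]
    constructor
    · refine Eventually.of_forall fun z => ?_
      have h5 : Integrable (fun y : Eu d => (closedBall y s).indicator (1 : Eu d → ℝ) z) := by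
        rw [ind_symm s z]
        exact integrable_ind isClosed_closedBall.measurableSet (vol_cb_lt_top _ _)
      have h6 := h5.mul_const |w z|
      exact h6
    · have e : ∀ z : Eu d, ∫ y, ‖(closedBall y s).indicator (1 : Eu d → ℝ) z * |w z|‖ =
          (volume : Measure (Eu d)).real (closedBall 0 s) * |w z| := by
        intro z
        have e1 : ∀ y, ‖(closedBall y s).indicator (1 : Eu d → ℝ) z * |w z|‖ =
            (closedBall y s).indicator (1 : Eu d → ℝ) z * |w z| := by
          intro y
          rw [Real.norm_of_nonneg]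
          exact mul_nonneg (ind01 _ _).1 (abs_nonneg _)
        simp_rw [e1]
        rw [integral_mul_const, int_ind]
      simp only
      simp_rw [e]
      apply Integrable.const_mul
      exact Integrable.of_bound (C := 1) hwm.abs.aestronglyMeasurable
        (Eventually.of_forall fun z => by simpa using hw z)
  have h1 : ∀ y, |I0 R s w y| ≤
      ∫ z in closedBall (0 : Eu d) R, (closedBall y s).indicator 1 z * |w z| := by
    intro y
    unfold I0
    rw [← Real.norm_eq_abs]
    refine (norm_integral_le_integral_norm _).trans (le_of_eq ?_)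
    congr 1
    ext z
    rw [norm_mul, Real.norm_eq_abs, Real.norm_eq_abs, abs_of_nonneg (ind01 _ _).1]
  have h2 : ∫ y, |I0 R s w y| ≤
      ∫ y, ∫ z in closedBall (0 : Eu d) R, (closedBall y s).indicator 1 z * |w z| := by
    apply integral_mono_of_nonneg (Eventually.of_forall fun _ => abs_nonneg _)
    · exact hK.integral_prod_left
    · exact Eventually.of_forall h1
  refine h2.trans (le_of_eq ?_)
  rw [integral_integral_swap hK, ← integral_const_mul]
  congr 1
  ext z
  rw [integral_mul_const, int_ind]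

end SphLim
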