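import Pool.Agent.SphLim.Defs

/-!
# Weak limits of functions with values in the unit interval
-/

open MeasureTheory Filter Topology Metric
open scoped ENNReal Pointwise RealInnerProductSpace Real

namespace SphLim

theorem exists_weak_limit {X : Type*} [MeasurableSpace X] [MeasurableSpace.CountablyGenerated X]
    (ν : Measure X) [IsFiniteMeasure ν] (u : ℕ → X → ℝ)
    (hum : ∀ k, Measurable (u k)) (hu : ∀ k y, 0 ≤ u k y ∧ u k y ≤ 1) :
    ∃ φ : ℕ → ℕ, StrictMono φ ∧ ∃ f : X → ℝ, Measurable f ∧ (∀ y, 0 ≤ f y ∧ f y ≤ 1) ∧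
      ∀ g : X → ℝ, Measurable g → ∀ C : ℝ, (∀ y, |g y| ≤ C) →
        Tendsto (fun k => ∫ y, u (φ k) y * g y ∂ν) atTop (𝓝 (∫ y, f y * g y ∂ν)) := by
  have hfact : Fact ((1 : ℝ≥0∞) ≤ 2) := ⟨by norm_num⟩
  have hfact2 : Fact ((2 : ℝ≥0∞) ≠ ∞) := ⟨by norm_num⟩
  have hmem : ∀ g : X → ℝ, Measurable g → ∀ C : ℝ, (∀ y, |g y| ≤ C) → MemLp g 2 ν := by
    intro g hg C hC
    exact MemLp.of_bound hg.aestronglyMeasurable C
      (Eventually.of_forall fun y => by simpa using hC y)
  have hu1 : ∀ k y, |u k y| ≤ 1 := by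
    intro k y
    rw [abs_of_nonneg (hu k y).1]
    exact (hu k y).2
  have hum2 : ∀ k, MemLp (u k) 2 ν := fun k => hmem (u k) (hum k) 1 (hu1 k)
  let U : ℕ → Lp ℝ 2 ν := fun k => (hum2 k).toLp (u k)
  have hinner : ∀ (F : Lp ℝ 2 ν) (g : X → ℝ) (hg : MemLp g 2 ν),
      ⟪F, hg.toLp g⟫ = ∫ y, F y * g y ∂ν := by
    intro F g hg
    rw [L2.inner_def]
    apply integral_congr_ae
    filter_upwards [hg.coeFn_toLp] with y hy
    rw [hy]
    simp [mul_comm]
  have hinnerU : ∀ (k : ℕ) (g : X → ℝ) (hg : MemLp g 2 ν),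
      ⟪U k, hg.toLp g⟫ = ∫ y, u k y * g y ∂ν := by
    intro k g hg
    rw [hinner]
    apply integral_congr_ae
    filter_upwards [(hum2 k).coeFn_toLp] with y hy
    rw [hy]
  have hUn : ∀ k, ‖U k‖ ≤ 1 + ν.real Set.univ := by
    intro k
    have h1 : ‖U k‖ ^ 2 = ∫ y, u k y * u k y ∂ν := by
      rw [← real_inner_self_eq_norm_sq]
      exact hinnerU k (u k) (hum2 k)
    have h2 : ∫ y, u k y * u k y ∂ν ≤ ν.real Set.univ := by
      have h3 := norm_integral_le_of_norm_le_const (μ := ν) (f := fun y => u k y * u k y) (C := 1)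
        (Eventually.of_forall fun y => by
          rw [norm_mul, Real.norm_eq_abs]
          exact mul_le_one₀ (hu1 k y) (abs_nonneg _) (hu1 k y))
      rw [Real.norm_eq_abs, one_mul] at h3
      exact (le_abs_self _).trans h3
    have h3 : 0 ≤ ν.real Set.univ := measureReal_nonneg
    have h4 : 0 ≤ ‖U k‖ := norm_nonneg _
    nlinarith
  let ξ : ℕ → WeakDual ℝ (Lp ℝ 2 ν) := fun k =>
    StrongDual.toWeakDual (InnerProductSpace.toDual ℝ (Lp ℝ 2 ν) (U k))
  have hcpt := WeakDual.isSeqCompact_closedBall (𝕜 := ℝ) (E := Lp ℝ 2 ν)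
    (0 : StrongDual ℝ (Lp ℝ 2 ν)) (1 + ν.real Set.univ)
  obtain ⟨a, -, φ, hφ, ha⟩ := hcpt (x := ξ) (by
    intro k
    change InnerProductSpace.toDual ℝ (Lp ℝ 2 ν) (U k) ∈ closedBall 0 (1 + ν.real Set.univ)
    rw [mem_closedBall, dist_zero_right, LinearIsometryEquiv.norm_map]
    exact hUn k)
  set F : Lp ℝ 2 ν := (InnerProductSpace.toDual ℝ (Lp ℝ 2 ν)).symm (WeakDual.toStrongDual a)
    with hF
  have haF : ∀ G : Lp ℝ 2 ν, a G = ⟪F, G⟫ := by
    intro G
    rw [hF, InnerProductSpace.toDual_symm_apply]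
    rfl
  have hlim : ∀ g : X → ℝ, Measurable g → ∀ C : ℝ, (∀ y, |g y| ≤ C) →
      Tendsto (fun k => ∫ y, u (φ k) y * g y ∂ν) atTop (𝓝 (∫ y, F y * g y ∂ν)) := by
    intro g hg C hC
    have hgm := hmem g hg C hC
    have h1 : Tendsto (fun k => (ξ (φ k)) (hgm.toLp g)) atTop (𝓝 (a (hgm.toLp g))) :=
      ((WeakDual.eval_continuous (hgm.toLp g)).tendsto a).comp ha
    rw [haF, hinner] at h1
    refine h1.congr fun k => ?_
    exact hinnerU (φ k) g hgm
  have hFm : Measurable (F : X → ℝ) := (Lp.stronglyMeasurable F).measurable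
  have hFi : Integrable (F : X → ℝ) ν := (Lp.memLp F).integrable (by norm_num)
  have hset : ∀ E : Set X, MeasurableSet E → 0 ≤ ∫ y in E, F y ∂ν ∧
      ∫ y in E, F y ∂ν ≤ ν.real E := by
    intro E hE
    have h1 := hlim (E.indicator 1) (measurable_one.indicator hE) 1 (by
      intro y
      by_cases hy : y ∈ E
      · simp [hy]
      · simp [hy])
    have h2 : ∀ w : X → ℝ, ∫ y, w y * E.indicator 1 y ∂ν = ∫ y in E, w y ∂ν := by
      intro w
      rw [← integral_indicator hE]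
      congr 1
      ext y
      by_cases hy : y ∈ E
      · simp [hy]
      · simp [hy]
    simp_rw [h2] at h1
    constructor
    · refine ge_of_tendsto h1 (Eventually.of_forall fun k => ?_)
      exact integral_nonneg fun y => (hu _ y).1
    · refine le_of_tendsto h1 (Eventually.of_forall fun k => ?_)
      have h3 := norm_setIntegral_le_of_norm_le_const (μ := ν) (s := E) (f := u (φ k)) (C := 1)
        (measure_lt_top _ _) (fun y _ => by simpa using hu1 (φ k) y)
      rw [Real.norm_eq_abs, one_mul] at h3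
      exact (le_abs_self _).trans h3
  have hF0 : 0 ≤ᵐ[ν] (F : X → ℝ) :=
    ae_nonneg_of_forall_setIntegral_nonneg hFi (fun E hE _ => (hset E hE).1)
  have hF1 : 0 ≤ᵐ[ν] fun y => 1 - F y := by
    apply ae_nonneg_of_forall_setIntegral_nonneg ((integrable_const 1).sub hFi)
    intro E hE _
    have h5 : ∫ y in E, (1 - F y) ∂ν = ν.real E - ∫ y in E, F y ∂ν := by
      rw [integral_sub (integrable_const 1).integrableOn hFi.integrableOn, setIntegral_const,
        smul_eq_mul, mul_one]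
    change 0 ≤ ∫ y in E, (1 - F y) ∂ν
    rw [h5]
    linarith [(hset E hE).2]
  refine ⟨φ, hφ, fun y => max 0 (min 1 (F y)), ?_, ?_, ?_⟩
  · exact measurable_const.max (measurable_const.min hFm)
  · intro y
    exact ⟨le_max_left _ _, max_le zero_le_one (min_le_left _ _)⟩
  · intro g hg C hC
    have h1 : ∫ y, max 0 (min 1 (F y)) * g y ∂ν = ∫ y, F y * g y ∂ν := by
      apply integral_congr_ae
      filter_upwards [hF0, hF1] with y hy0 hy1
      have h2 : (0 : ℝ) ≤ F y := hy0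
      have h3 : (0 : ℝ) ≤ 1 - F y := hy1
      rw [min_eq_right (by linarith), max_eq_right h2]
    rw [h1]
    exact hlim g hg C hC

end SphLim
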