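import Pool.Agent.SphLim.Repl
import Pool.Agent.SphLim.WeakLim

/-!
# Convergence of the cap averages: preparations
-/

open MeasureTheory Filter Topology Metric
open scoped ENNReal Pointwise RealInnerProductSpace Real

namespace SphLim

variable {d : ℕ}

lemma norm_ct_sub_emb (t : ℝ) (y : Eu d) : ‖ct t y - emb 1 (t • y)‖ ≤ t ^ 2 * ‖y‖ ^ 2 / 2 := by
  have h1 : ct t y - emb 1 (t • y) = ((nn (t • y))⁻¹ - 1) • emb 1 (t • y) := by
    unfold ct
    rw [pt_eq, sub_smul, one_smul]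
  have h2 := nn_sq (t • y)
  rw [norm_smul, mul_pow, Real.norm_eq_abs, sq_abs] at h2
  have h3 := one_le_nn (t • y)
  have h4 := nn_pos (t • y)
  have h5 : (nn (t • y))⁻¹ ≤ 1 := inv_le_one_of_one_le₀ h3
  rw [h1, norm_smul, Real.norm_eq_abs, abs_sub_comm, abs_of_nonneg (by linarith)]
  have h6 : (1 - (nn (t • y))⁻¹) * ‖emb 1 (t • y)‖ = nn (t • y) - 1 := by
    change (1 - (nn (t • y))⁻¹) * nn (t • y) = nn (t • y) - 1
    rw [sub_mul, inv_mul_cancel₀ h4.ne', one_mul]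
  rw [h6]
  nlinarith

lemma norm_ct_sub_ct {t : ℝ} (ht : 0 ≤ t) (y z : Eu d) :
    |‖ct t z - ct t y‖ - t * ‖z - y‖| ≤ t ^ 2 * (‖y‖ ^ 2 + ‖z‖ ^ 2) / 2 := by
  have h1 : t * ‖z - y‖ = ‖emb 1 (t • z) - emb 1 (t • y)‖ := by
    rw [← emb_sub, sub_self, norm_emb_zero, ← smul_sub, norm_smul, Real.norm_of_nonneg ht]
  rw [h1]
  refine (abs_norm_sub_norm_le _ _).trans ?_
  have e : ct t z - ct t y - (emb 1 (t • z) - emb 1 (t • y)) =
      (ct t z - emb 1 (t • z)) - (ct t y - emb 1 (t • y)) := by abel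
  rw [e]
  refine (norm_sub_le _ _).trans ?_
  have h2 := norm_ct_sub_emb t z
  have h3 := norm_ct_sub_emb t y
  linarith

lemma ind_tendsto {τ : ℕ → ℝ} (hτ0 : ∀ k, 0 < τ k) (hτ : Tendsto τ atTop (𝓝 0)) {s : ℝ}
    {y z : Eu d} (hne : ‖z - y‖ ≠ s) :
    ∀ᶠ k in atTop, (closedBall (ct (τ k) y) (s * τ k)).indicator (1 : Eu (d + 1) → ℝ)
      (ct (τ k) z) = (closedBall y s).indicator 1 z := by
  set c : ℝ := (‖y‖ ^ 2 + ‖z‖ ^ 2) / 2 + 1 with hc
  have hcpos : 0 < c := by positivity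
  have hgap : 0 < |‖z - y‖ - s| := abs_pos.2 (sub_ne_zero.2 hne)
  have h1 : ∀ᶠ k in atTop, τ k < |‖z - y‖ - s| / c := hτ.eventually_lt_const (by positivity)
  filter_upwards [h1] with k hk
  have ht := hτ0 k
  have h2 := norm_ct_sub_ct ht.le y z
  have h3 : τ k * c < |‖z - y‖ - s| := by rwa [lt_div_iff₀ hcpos] at hk
  have h4 : τ k ^ 2 * (‖y‖ ^ 2 + ‖z‖ ^ 2) / 2 ≤ τ k * (τ k * c) := by
    rw [hc]
    nlinarith [sq_nonneg (τ k)]
  have h5 : τ k * (τ k * c) < τ k * |‖z - y‖ - s| := by gcongr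
  have h6 := abs_le.1 (h2.trans h4)
  rcases lt_or_gt_of_ne hne with hlt | hgt
  · have hm : z ∈ closedBall y s := by
      rw [mem_closedBall, dist_eq_norm]
      exact hlt.le
    have hm2 : ct (τ k) z ∈ closedBall (ct (τ k) y) (s * τ k) := by
      rw [mem_closedBall, dist_eq_norm]
      rw [abs_of_neg (by linarith)] at h5
      nlinarith [h6.2]
    rw [Set.indicator_of_mem hm, Set.indicator_of_mem hm2]
    rfl
  · have hm : z ∉ closedBall y s := by
      rw [mem_closedBall, dist_eq_norm, not_le]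
      exact hgt
    have hm2 : ct (τ k) z ∉ closedBall (ct (τ k) y) (s * τ k) := by
      rw [mem_closedBall, dist_eq_norm, not_le]
      rw [abs_of_pos (by linarith)] at h5
      nlinarith [h6.1]
    rw [Set.indicator_of_notMem hm, Set.indicator_of_notMem hm2]

/-- The upper region at scale `t`. -/
def Vr (d : ℕ) (t R : ℝ) : Set (Eu (d + 1)) := {x | 0 < x 0 ∧ ‖pj t x‖ ≤ R}

lemma measurableSet_Vr (t R : ℝ) : MeasurableSet (Vr d t R) :=
  measurableSet_upper.inter (measurableSet_le (measurable_pj t).norm measurable_const)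

lemma ct_mem_Vr {t : ℝ} (ht : 0 < t) (R : ℝ) (z : Eu d) :
    ct t z ∈ Vr d t R ↔ z ∈ closedBall (0 : Eu d) R := by
  unfold Vr
  rw [Set.mem_ofPred_eq, pj_ct ht, mem_closedBall, dist_zero_right]
  exact ⟨fun h => h.2, fun h => ⟨ct_zero_pos t z, h⟩⟩

lemma Vr_norm {t R : ℝ} (ht : 0 < t) {x : Eu (d + 1)} (hx : ‖x‖ = 1) (hxV : x ∈ Vr d t R) :
    ‖x - nP d‖ ≤ t * R := by
  have h1 := ct_pj ht hx hxV.1
  rw [← h1]
  refine (norm_ct_sub t _).trans ?_
  rw [abs_of_pos ht]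
  have := hxV.2
  gcongr

end SphLim
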