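import Pool.Agent.SphLim.CapConv

/-!
# Convergence of the cap averages: conclusion
-/

open MeasureTheory Filter Topology Metric
open scoped ENNReal Pointwise RealInnerProductSpace Real

namespace SphLim

variable {d : ℕ}

lemma capInt_ct {t R s : ℝ} (ht : 0 < t) {h : Eu (d + 1) → ℝ} (hhm : Measurable h)
    {w : Eu d → ℝ}
    (hhct : ∀ z, h (ct t z) = (closedBall (0 : Eu d) R).indicator 1 z * w z)
    (hh0 : ∀ x : Eu (d + 1), x 0 ≤ 0 → h x = 0) (y : Eu d) :
    capInt h (s * t) (ct t y) = cc d * t ^ d * Ik R s t w y := by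
  unfold capInt
  rw [← integral_indicator isClosed_closedBall.measurableSet]
  rw [integral_chart ht (hhm.indicator isClosed_closedBall.measurableSet)]
  · unfold Ik
    rw [← integral_indicator isClosed_closedBall.measurableSet]
    congr 2
    ext z
    by_cases hz : z ∈ closedBall (0 : Eu d) R
    · rw [Set.indicator_of_mem hz]
      by_cases hz2 : ct t z ∈ closedBall (ct t y) (s * t)
      · rw [Set.indicator_of_mem hz2, hhct, Set.indicator_of_mem hz]
        unfold Qk
        rw [Set.indicator_of_mem hz2]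
        simp
      · rw [Set.indicator_of_notMem hz2]
        unfold Qk
        rw [Set.indicator_of_notMem hz2]
        simp
    · rw [Set.indicator_of_notMem hz]
      by_cases hz2 : ct t z ∈ closedBall (ct t y) (s * t)
      · rw [Set.indicator_of_mem hz2, hhct, Set.indicator_of_notMem hz]
        simp
      · rw [Set.indicator_of_notMem hz2]
        simp
  · intro z hz
    by_cases hz2 : z ∈ closedBall (ct t y) (s * t)
    · rw [Set.indicator_of_mem hz2, hh0 z hz]
    · rw [Set.indicator_of_notMem hz2]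

lemma capAvg_le_Ik {t R s : ℝ} (ht : 0 < t) (hR : 0 ≤ R) (hs : 0 < s)
    (hk2 : (R + s + 1) * t < 1) {h : Eu (d + 1) → ℝ} (hhm : Measurable h)
    (hh1 : ∀ x, |h x| ≤ 1) (hhV : ∀ x, x ∉ Vr d t R → h x = 0) {w : Eu d → ℝ}
    (hhct : ∀ z, h (ct t z) = (closedBall (0 : Eu d) R).indicator 1 z * w z) :
    ∫ x, |capAvg h (s * t) x| ∂(sphMeas d) ≤
      (cc d * (1 / 2) ^ (d + 1) * (volume : Measure (Eu d)).real (closedBall 0 s) * t ^ d)⁻¹ *
      ((cc d * t ^ d) ^ 2 * ∫ y, wt t y * |Ik R s t w y|) := by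
  have hcc := cc_pos d
  have hst : s * t < 1 := by nlinarith
  have hh0 : ∀ x : Eu (d + 1), x 0 ≤ 0 → h x = 0 := fun x hx =>
    hhV x (fun h' => absurd h'.1 (not_lt.2 hx))
  set W : Set (Eu (d + 1)) := {x | 0 < x 0} with hW
  have hcapz : ∀ x : Eu (d + 1), ‖x‖ = 1 → x 0 ≤ 0 → capInt h (s * t) x = 0 := by
    intro x hx hx0
    unfold capInt
    apply integral_eq_zero_of_ae
    filter_upwards [ae_restrict_mem isClosed_closedBall.measurableSet,
      ae_restrict_of_ae (sphMeas_ae_norm (d := d))] with z hz hz1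
    by_contra hne
    have hzV : z ∈ Vr d t R := by
      by_contra hzV
      exact hne (hhV z hzV)
    have h1 := Vr_norm ht hz1 hzV
    have h2 : x ∈ closedBall (nP d) ((R + s) * t) := by
      rw [mem_closedBall, dist_eq_norm]
      have e : x - nP d = (z - nP d) - (z - x) := by abel
      rw [e]
      refine (norm_sub_le _ _).trans ?_
      have h3 : ‖z - x‖ ≤ s * t := by rwa [← dist_eq_norm]
      linarith
    have h3 := height_pos_of_mem (by nlinarith) h2
    linarith
  have htd : 0 < t ^ d := by positivity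
  set Vs : ℝ := (volume : Measure (Eu d)).real (closedBall 0 s) with hVs
  have hVs0 : 0 < Vs := vol_cb_pos _ hs
  set m : ℝ := cc d * (1 / 2) ^ (d + 1) * Vs * t ^ d with hm
  have hm0 : 0 < m := by positivity
  have hcap : ∀ x : Eu (d + 1), ‖x‖ = 1 → m ≤ (sphMeas d).real (closedBall x (s * t)) :=
    fun x hx => le_cap ht hst hx
  have hcapm : Measurable (capInt h (s * t)) := measurable_capInt hhm _
  have h1 : ∫ x, |capAvg h (s * t) x| ∂(sphMeas d) ≤
      ∫ x, m⁻¹ * |W.indicator (capInt h (s * t)) x| ∂(sphMeas d) := by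
    apply integral_mono_of_nonneg (Eventually.of_forall fun _ => abs_nonneg _)
    · apply Integrable.const_mul
      refine Integrable.of_bound (C := 1) (hcapm.indicator measurableSet_upper).abs.aestronglyMeasurable
        (Eventually.of_forall fun x => ?_)
      rw [Real.norm_eq_abs, abs_abs]
      by_cases hx : x ∈ W
      · rw [Set.indicator_of_mem hx]
        exact (abs_capInt_le hh1 _ _).trans measureReal_le_one
      · rw [Set.indicator_of_notMem hx, abs_zero]
        exact zero_le_one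
    · filter_upwards [sphMeas_ae_norm (d := d)] with x hx
      by_cases hxW : x ∈ W
      · rw [Set.indicator_of_mem hxW]
        unfold capAvg
        rw [abs_mul, abs_inv, abs_of_nonneg measureReal_nonneg]
        gcongr
        exact hcap x hx
      · rw [Set.indicator_of_notMem hxW]
        unfold capAvg
        rw [hcapz x hx (not_lt.1 hxW)]
        simp
  refine h1.trans (le_of_eq ?_)
  rw [integral_const_mul]
  congr 1
  have hz : ∀ x : Eu (d + 1), x 0 ≤ 0 → |W.indicator (capInt h (s * t)) x| = 0 := by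
    intro x hx
    rw [Set.indicator_of_notMem (show x ∉ W from not_lt.2 hx), abs_zero]
  rw [integral_chart ht (hcapm.indicator measurableSet_upper).abs hz]
  have e : ∀ y, wt t y * |W.indicator (capInt h (s * t)) (ct t y)| =
      cc d * t ^ d * (wt t y * |Ik R s t w y|) := by
    intro y
    rw [Set.indicator_of_mem (show ct t y ∈ W from ct_zero_pos _ _),
      capInt_ct ht hhm hhct hh0, abs_mul, abs_of_pos (by positivity : 0 < cc d * t ^ d)]
    ring
  refine Eq.trans (congrArg (fun q : ℝ => cc d * t ^ d * q)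
    (integral_congr_ae (Eventually.of_forall e))) ?_
  rw [integral_const_mul]
  ring

theorem capAvg_conv {τ : ℕ → ℝ} (hτ0 : ∀ k, 0 < τ k) (hτ : Tendsto τ atTop (𝓝 0))
    {U : ℕ → Eu (d + 1) → ℝ} (hUm : ∀ k, Measurable (U k)) (hU : ∀ k x, 0 ≤ U k x ∧ U k x ≤ 1)
    {R0 R1 : ℝ} (hR : R1 ≤ R0) (hR1 : 0 ≤ R1) {f : Eu d → ℝ} (hfm : Measurable f)
    (hf : ∀ y, 0 ≤ f y ∧ f y ≤ 1)
    (hweak : ∀ g : Eu d → ℝ, Measurable g → ∀ C : ℝ, (∀ y, |g y| ≤ C) →
      Tendsto (fun k => ∫ y, U k (ct (τ k) y) * g y ∂(volume.restrict (closedBall 0 R0))) atTop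
        (𝓝 (∫ y, f y * g y ∂(volume.restrict (closedBall 0 R0)))))
    {F : Eu d → ℝ} (hFm : Measurable F) (hF : ∀ y, 0 ≤ F y ∧ F y ≤ 1) {s : ℝ} (hs : 0 < s)
    {ε : ℝ} (hε : 0 < ε) :
    ∀ᶠ k in atTop, ∫ x, |capAvg ((Vr d (τ k) R1).indicator (U k - fun x => F (pj (τ k) x)))
        (s * τ k) x| ∂(sphMeas d) ≤
      (cc d * 2 ^ (d + 1) * (∫ y in closedBall (0 : Eu d) R1, |f y - F y|) + ε) * (τ k) ^ d := by
  have hB1m : MeasurableSet (closedBall (0 : Eu d) R1) := isClosed_closedBall.measurableSet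
  set Vs : ℝ := (volume : Measure (Eu d)).real (closedBall 0 s) with hVs
  have hVs0 : 0 < Vs := vol_cb_pos _ hs
  have hcc := cc_pos d
  set w : ℕ → Eu d → ℝ := fun k y => U k (ct (τ k) y) - F y with hw
  have hUctm : ∀ k, Measurable fun y : Eu d => U k (ct (τ k) y) := fun k =>
    (hUm k).comp (continuous_ct _).measurable
  have hwm : ∀ k, Measurable (w k) := fun k => (hUctm k).sub hFm
  have hw1 : ∀ k z, |w k z| ≤ 1 := by
    intro k z
    rw [hw]
    simp only
    rw [abs_le]
    constructor <;> linarith [(hU k (ct (τ k) z)).1, (hU k (ct (τ k) z)).2, (hF z).1, (hF z).2]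
  set w0 : Eu d → ℝ := fun y => f y - F y with hw0
  have hw0m : Measurable w0 := hfm.sub hFm
  have hw01 : ∀ z, |w0 z| ≤ 1 := by
    intro z
    rw [hw0]
    simp only
    rw [abs_le]
    constructor <;> linarith [(hf z).1, (hf z).2, (hF z).1, (hF z).2]
  have hwk : ∀ g : Eu d → ℝ, Measurable g → (∀ y, |g y| ≤ 1) →
      Tendsto (fun k => ∫ z in closedBall (0 : Eu d) R1, g z * w k z) atTop
        (𝓝 (∫ z in closedBall (0 : Eu d) R1, g z * w0 z)) := by
    intro g hg hg1
    have h1 := hweak ((closedBall (0 : Eu d) R1).indicator g) (hg.indicator hB1m) 1 (by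
      intro z
      by_cases hz : z ∈ closedBall (0 : Eu d) R1
      · rw [Set.indicator_of_mem hz]
        exact hg1 z
      · rw [Set.indicator_of_notMem hz, abs_zero]
        exact zero_le_one)
    have h2 : ∀ q : Eu d → ℝ,
        ∫ z, q z * (closedBall (0 : Eu d) R1).indicator g z ∂(volume.restrict (closedBall 0 R0)) =
        ∫ z in closedBall (0 : Eu d) R1, q z * g z := by
      intro q
      have e : (fun z => q z * (closedBall (0 : Eu d) R1).indicator g z) =
          (closedBall (0 : Eu d) R1).indicator (fun z => q z * g z) := by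
        ext z
        by_cases hz : z ∈ closedBall (0 : Eu d) R1
        · rw [Set.indicator_of_mem hz, Set.indicator_of_mem hz]
        · rw [Set.indicator_of_notMem hz, Set.indicator_of_notMem hz, mul_zero]
      rw [e, integral_indicator hB1m, Measure.restrict_restrict hB1m,
        Set.inter_eq_left.2 (closedBall_subset_closedBall hR)]
    simp_rw [h2] at h1
    have hi : ∀ q : Eu d → ℝ, Measurable q → (∀ z, 0 ≤ q z ∧ q z ≤ 1) →
        Integrable (fun z => q z * g z) (volume.restrict (closedBall (0 : Eu d) R1)) := by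
      intro q hq hq1
      refine Integrable.of_bound (C := 1) (hq.mul hg).aestronglyMeasurable
        (Eventually.of_forall fun z => ?_)
      rw [norm_mul, Real.norm_of_nonneg (hq1 z).1, Real.norm_eq_abs]
      exact mul_le_one₀ (hq1 z).2 (abs_nonneg _) (hg1 z)
    have h3 : ∀ k, ∫ z in closedBall (0 : Eu d) R1, g z * w k z =
        (∫ z in closedBall (0 : Eu d) R1, U k (ct (τ k) z) * g z) -
        ∫ z in closedBall (0 : Eu d) R1, F z * g z := by
      intro k
      rw [← integral_sub (hi _ (hUctm k) (fun z => hU k _)) (hi F hFm hF)]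
      congr 1
      ext z
      rw [hw]
      ring
    have h4 : ∫ z in closedBall (0 : Eu d) R1, g z * w0 z =
        (∫ z in closedBall (0 : Eu d) R1, f z * g z) -
        ∫ z in closedBall (0 : Eu d) R1, F z * g z := by
      rw [← integral_sub (hi f hfm hf) (hi F hFm hF)]
      congr 1
      ext z
      rw [hw0]
      ring
    simp_rw [h3]
    rw [h4]
    exact h1.sub_const _
  have hJ := J_tendsto hτ0 hτ hR1 hs hwm hw1 hwk
  have hJ0 := I0_bound (R := R1) (s := s) hw0m hw01
  rw [← hVs] at hJ0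
  have hw0e : ∀ y, |w0 y| = |f y - F y| := fun y => rfl
  simp_rw [hw0e] at hJ0
  set L1 : ℝ := ∫ y in closedBall (0 : Eu d) R1, |f y - F y| with hL1
  set ε' : ℝ := ε * Vs / (cc d * 2 ^ (d + 1)) with hε'
  have hε'0 : 0 < ε' := by positivity
  have hJe : ∀ᶠ k in atTop, ∫ y, wt (τ k) y * |Ik R1 s (τ k) (w k) y| < Vs * L1 + ε' :=
    hJ.eventually_lt_const (by linarith)
  have hτ1 : ∀ᶠ k in atTop, τ k < 1 / (R1 + s + 1) := hτ.eventually_lt_const (by positivity)
  filter_upwards [hJe, hτ1] with k hk hk1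
  have ht := hτ0 k
  have hk2 : (R1 + s + 1) * τ k < 1 := by
    rw [lt_div_iff₀ (by positivity)] at hk1
    linarith
  have htd : 0 < (τ k) ^ d := by positivity
  set h : Eu (d + 1) → ℝ := (Vr d (τ k) R1).indicator (U k - fun x => F (pj (τ k) x)) with hh
  have hhm : Measurable h :=
    ((hUm k).sub (hFm.comp (measurable_pj _))).indicator (measurableSet_Vr _ _)
  have hh1 : ∀ x, |h x| ≤ 1 := by
    intro x
    rw [hh]
    by_cases hz : x ∈ Vr d (τ k) R1
    · rw [Set.indicator_of_mem hz, Pi.sub_apply, abs_le]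
      constructor <;> linarith [(hU k x).1, (hU k x).2, (hF (pj (τ k) x)).1,
        (hF (pj (τ k) x)).2]
    · rw [Set.indicator_of_notMem hz, abs_zero]
      exact zero_le_one
  have hhV : ∀ x, x ∉ Vr d (τ k) R1 → h x = 0 := fun x hx => by
    rw [hh, Set.indicator_of_notMem hx]
  have hhct : ∀ z, h (ct (τ k) z) = (closedBall (0 : Eu d) R1).indicator 1 z * w k z := by
    intro z
    by_cases hz : z ∈ closedBall (0 : Eu d) R1
    · rw [hh, Set.indicator_of_mem ((ct_mem_Vr ht R1 z).2 hz), Set.indicator_of_mem hz,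
        Pi.sub_apply, pj_ct ht]
      simp [hw]
    · rw [hh, Set.indicator_of_notMem (fun h' => hz ((ct_mem_Vr ht R1 z).1 h')),
        Set.indicator_of_notMem hz, zero_mul]
  refine (capAvg_le_Ik ht hR1 hs hk2 hhm hh1 hhV hhct).trans ?_
  rw [← hVs]
  have h3 : (cc d * (1 / 2) ^ (d + 1) * Vs * (τ k) ^ d)⁻¹ *
      ((cc d * (τ k) ^ d) ^ 2 * ∫ y, wt (τ k) y * |Ik R1 s (τ k) (w k) y|) ≤
      (cc d * (1 / 2) ^ (d + 1) * Vs * (τ k) ^ d)⁻¹ *
      ((cc d * (τ k) ^ d) ^ 2 * (Vs * L1 + ε')) := by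
    gcongr
  refine h3.trans (le_of_eq ?_)
  rw [hε']
  have hp : (1 / 2 : ℝ) ^ (d + 1) = (2 ^ (d + 1))⁻¹ := by
    rw [one_div, inv_pow]
  rw [hp]
  field_simp

end SphLim
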