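import Pool.Agent.SphLim.Est

/-!
# Measure of caps and of small neighbourhoods in the orthogonal group
-/

open MeasureTheory Filter Topology Metric
open scoped ENNReal Pointwise RealInnerProductSpace Real

namespace SphLim

variable {d : ℕ}

lemma capMeas_eq {x y : Eu (d + 1)} (hx : ‖x‖ = 1) (hy : ‖y‖ = 1) (s : ℝ) :
    (sphMeas d).real (closedBall x s) = (sphMeas d).real (closedBall y s) := by
  obtain ⟨g, hg⟩ := exists_act_unit hy hx
  rw [← hg, capMeas_act]

lemma height_pos_of_mem {x : Eu (d + 1)} {r : ℝ} (hr : r < 1) (hx : x ∈ closedBall (nP d) r) :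
    0 < x 0 := by
  have h1 : ‖x - nP d‖ ≤ r := by rwa [← dist_eq_norm]
  have h2 : |⟪nP d, x - nP d⟫| ≤ ‖nP d‖ * ‖x - nP d‖ := abs_real_inner_le_norm _ _
  rw [inner_sub_right, inner_nP, real_inner_self_eq_norm_sq, norm_nP] at h2
  have := (abs_le.1 h2).1
  linarith

lemma integrable_ind {n : ℕ} {B : Set (Eu n)} (hB : MeasurableSet B) (hB' : volume B < ∞) :
    Integrable (B.indicator (1 : Eu n → ℝ)) := by
  rw [integrable_indicator_iff hB]
  exact integrableOn_const hB'.ne

lemma vol_cb_lt_top {n : ℕ} (y : Eu n) (s : ℝ) : volume (closedBall y s) < ∞ :=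
  measure_closedBall_lt_top

lemma vol_cb_pos {n : ℕ} (y : Eu n) {s : ℝ} (hs : 0 < s) :
    0 < (volume : Measure (Eu n)).real (closedBall y s) :=
  ENNReal.toReal_pos (measure_closedBall_pos _ _ hs).ne' (vol_cb_lt_top y s).ne

lemma cap_le {s t : ℝ} (ht : 0 < t) (hst : s * t < 1) {x : Eu (d + 1)}
    (hx : ‖x‖ = 1) :
    (sphMeas d).real (closedBall x (s * t)) ≤
      cc d * (volume : Measure (Eu d)).real (closedBall 0 (2 * s)) * t ^ d := by
  rw [capMeas_eq hx norm_nP, real_chart ht isClosed_closedBall.measurableSet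
    (fun x hx => height_pos_of_mem hst hx)]
  have h1 : ∫ y : Eu d, wt t y * (closedBall (nP d) (s * t)).indicator 1 (ct t y) ≤
      ∫ y : Eu d, (closedBall (0 : Eu d) (2 * s)).indicator 1 y := by
    apply integral_mono_of_nonneg
    · refine Eventually.of_forall fun y => ?_
      exact mul_nonneg (wt_pos t y).le (Set.indicator_nonneg (fun _ _ => zero_le_one) _)
    · exact integrable_ind isClosed_closedBall.measurableSet (vol_cb_lt_top _ _)
    · refine Eventually.of_forall fun y => ?_
      by_cases hy : ct t y ∈ closedBall (nP d) (s * t)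
      · have h2 : ‖ct t y - nP d‖ ≤ s * t := by
          rw [← dist_eq_norm]
          exact hy
        have h3 := (pj_est (norm_ct t y) ht hst.le h2).1
        rw [pj_ct ht] at h3
        have h4 : y ∈ closedBall (0 : Eu d) (2 * s) := by
          rw [mem_closedBall, dist_zero_right]
          exact h3
        simp only
        rw [Set.indicator_of_mem h4, Set.indicator_of_mem hy]
        simpa using wt_le_one t y
      · simp only
        rw [Set.indicator_of_notMem hy, mul_zero]
        exact Set.indicator_nonneg (fun _ _ => zero_le_one) _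
  rw [integral_indicator_one isClosed_closedBall.measurableSet] at h1
  have h2 : 0 ≤ cc d * t ^ d := by
    have := cc_pos d
    positivity
  calc cc d * t ^ d * ∫ y : Eu d, wt t y * (closedBall (nP d) (s * t)).indicator 1 (ct t y)
      ≤ cc d * t ^ d * (volume : Measure (Eu d)).real (closedBall 0 (2 * s)) :=
        mul_le_mul_of_nonneg_left h1 h2
    _ = _ := by ring

lemma wt_ge {t s : ℝ} (ht : 0 < t) (hst : s * t ≤ 1) {y : Eu d} (hy : ‖y‖ ≤ s) :
    (1 / 2 : ℝ) ^ (d + 1) ≤ wt t y := by
  unfold wt
  apply pow_le_pow_left₀ (by norm_num)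
  have h1 := nn_sq (t • y)
  rw [norm_smul, Real.norm_of_nonneg ht.le] at h1
  have h2 : t * ‖y‖ ≤ 1 := by
    calc t * ‖y‖ ≤ t * s := by gcongr
      _ ≤ 1 := by rw [mul_comm]; exact hst
  have h3 : 0 ≤ t * ‖y‖ := by positivity
  have h4 : nn (t • y) ≤ 2 := by
    have := nn_pos (t • y)
    nlinarith
  rw [one_div]
  exact inv_anti₀ (nn_pos _) h4

lemma le_cap {s t : ℝ} (ht : 0 < t) (hst : s * t < 1) {x : Eu (d + 1)}
    (hx : ‖x‖ = 1) :
    cc d * (1 / 2) ^ (d + 1) * (volume : Measure (Eu d)).real (closedBall 0 s) * t ^ d ≤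
      (sphMeas d).real (closedBall x (s * t)) := by
  rw [capMeas_eq hx norm_nP, real_chart ht isClosed_closedBall.measurableSet
    (fun x hx => height_pos_of_mem hst hx)]
  have h1 : ∫ y : Eu d, (1 / 2) ^ (d + 1) * (closedBall (0 : Eu d) s).indicator 1 y ≤
      ∫ y : Eu d, wt t y * (closedBall (nP d) (s * t)).indicator 1 (ct t y) := by
    apply integral_mono_of_nonneg
    · refine Eventually.of_forall fun y => ?_
      exact mul_nonneg (by positivity) (Set.indicator_nonneg (fun _ _ => zero_le_one) _)
    · have hs' : s * t ≤ 1 := hst.le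
      refine Integrable.mono' (integrable_ind (B := closedBall (0 : Eu d) (2 * s))
        isClosed_closedBall.measurableSet (vol_cb_lt_top _ _)) ?_
        (Eventually.of_forall fun y => ?_)
      · apply Measurable.aestronglyMeasurable
        exact (continuous_wt t).measurable.mul
          ((measurable_one.indicator isClosed_closedBall.measurableSet).comp
            (continuous_ct t).measurable)
      · have hnn : 0 ≤ wt t y * (closedBall (nP d) (s * t)).indicator (1 : Eu (d + 1) → ℝ)
            (ct t y) :=
          mul_nonneg (wt_pos t y).le (Set.indicator_nonneg (fun _ _ => zero_le_one) _)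
        rw [Real.norm_of_nonneg hnn]
        by_cases hy : ct t y ∈ closedBall (nP d) (s * t)
        · have h2 : ‖ct t y - nP d‖ ≤ s * t := by
            rw [← dist_eq_norm]
            exact hy
          have h3 := (pj_est (norm_ct t y) ht hst.le h2).1
          rw [pj_ct ht] at h3
          have h4 : y ∈ closedBall (0 : Eu d) (2 * s) := by
            rw [mem_closedBall, dist_zero_right]
            exact h3
          rw [Set.indicator_of_mem h4, Set.indicator_of_mem hy]
          simpa using wt_le_one t y
        · rw [Set.indicator_of_notMem hy, mul_zero]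
          exact Set.indicator_nonneg (fun _ _ => zero_le_one) _
    · refine Eventually.of_forall fun y => ?_
      by_cases hy : y ∈ closedBall (0 : Eu d) s
      · have h2 : ‖y‖ ≤ s := by
          rw [mem_closedBall, dist_zero_right] at hy
          exact hy
        have h3 : ct t y ∈ closedBall (nP d) (s * t) := by
          rw [mem_closedBall, dist_eq_norm]
          refine (norm_ct_sub t y).trans ?_
          rw [abs_of_pos ht, mul_comm]
          gcongr
        simp only
        rw [Set.indicator_of_mem hy, Set.indicator_of_mem h3]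
        simp only [Pi.one_apply, mul_one]
        exact wt_ge ht hst.le h2
      · simp only
        rw [Set.indicator_of_notMem hy, mul_zero]
        exact mul_nonneg (wt_pos t y).le (Set.indicator_nonneg (fun _ _ => zero_le_one) _)
  rw [integral_const_mul, integral_indicator_one isClosed_closedBall.measurableSet] at h1
  have h2 : 0 ≤ cc d * t ^ d := by
    have := cc_pos d
    positivity
  calc cc d * (1 / 2) ^ (d + 1) * (volume : Measure (Eu d)).real (closedBall 0 s) * t ^ d
      = cc d * t ^ d * ((1 / 2) ^ (d + 1) * (volume : Measure (Eu d)).real (closedBall 0 s)) := by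
        ring
    _ ≤ _ := mul_le_mul_of_nonneg_left h1 h2

/-- Lower bound of the Haar measure of the set of orthogonal maps close to the identity moving
the north pole very little. -/
lemma haar_small {α : ℝ} (hα : 0 < α) : ∃ c : ℝ, 0 < c ∧ ∀ t : ℝ, 0 < t → α * t < 1 →
    c * t ^ d ≤ (haar (d + 1)).real {u : OG (d + 1) | ‖act u (nP d) - nP d‖ ≤ α * t ∧
      ∀ x : Eu (d + 1), ‖act u x - x‖ ≤ α * ‖x‖} := by
  -- a neighbourhood of the identity
  set W : Set (OG (d + 1)) := {u | ‖(u : Eu (d + 1) →L[ℝ] Eu (d + 1)) - 1‖ < α / 2} with hW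
  have hWo : IsOpen W := by
    have : Continuous fun u : OG (d + 1) => ‖(u : Eu (d + 1) →L[ℝ] Eu (d + 1)) - 1‖ :=
      (continuous_subtype_val.sub continuous_const).norm
    exact isOpen_lt this continuous_const
  have hW1 : (1 : OG (d + 1)) ∈ W := by
    change ‖((1 : OG (d + 1)) : Eu (d + 1) →L[ℝ] Eu (d + 1)) - 1‖ < α / 2
    simp only [OneMemClass.coe_one, sub_self, norm_zero]
    positivity
  have hWx : ∀ u ∈ W, ∀ x : Eu (d + 1), ‖act u x - x‖ ≤ α / 2 * ‖x‖ := by
    intro u hu x
    have h1 : act u x - x = ((u : Eu (d + 1) →L[ℝ] Eu (d + 1)) - 1) x := rfl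
    rw [h1]
    refine (ContinuousLinearMap.le_opNorm _ _).trans ?_
    gcongr
    exact le_of_lt hu
  -- finitely many right translates cover
  obtain ⟨S, hS⟩ : ∃ S : Finset (OG (d + 1)), (Set.univ : Set (OG (d + 1))) ⊆
      ⋃ a ∈ S, (fun u => u * a⁻¹) ⁻¹' W := by
    apply isCompact_univ.elim_finite_subcover
    · intro a
      exact hWo.preimage (continuous_mul_const _)
    · intro u _
      rw [Set.mem_iUnion]
      refine ⟨u, ?_⟩
      rw [Set.mem_preimage, mul_inv_cancel]
      exact hW1
  have hSne : S.Nonempty := by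
    by_contra h
    rw [Finset.not_nonempty_iff_eq_empty] at h
    rw [h] at hS
    simpa using hS (Set.mem_univ 1)
  have hScard : 0 < (S.card : ℝ) := by
    exact_mod_cast hSne.card_pos
  set V0 : ℝ := cc d * (1 / 2) ^ (d + 1) *
    (volume : Measure (Eu d)).real (closedBall 0 (α / 2)) with hV0
  have hV0pos : 0 < V0 := by
    have h1 := cc_pos d
    have h2 := vol_cb_pos (0 : Eu d) (s := α / 2) (by positivity)
    positivity
  refine ⟨V0 / S.card, by positivity, fun t ht hαt => ?_⟩
  set U : Set (OG (d + 1)) := {u : OG (d + 1) | ‖act u (nP d) - nP d‖ ≤ α * t ∧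
      ∀ x : Eu (d + 1), ‖act u x - x‖ ≤ α * ‖x‖} with hU
  set G : Set (OG (d + 1)) := {u : OG (d + 1) | act u (nP d) ∈ closedBall (nP d) (α / 2 * t)}
    with hG
  have hGm : (haar (d + 1)).real G = (sphMeas d).real (closedBall (nP d) (α / 2 * t)) := by
    unfold Measure.real
    rw [hG, haar_act_mem norm_nP isClosed_closedBall.measurableSet]
  have hGlow : V0 * t ^ d ≤ (haar (d + 1)).real G := by
    rw [hGm]
    exact le_cap ht (by nlinarith) norm_nP
  -- each piece
  have hpiece : ∀ a : OG (d + 1), (haar (d + 1)).real (G ∩ (fun u => u * a⁻¹) ⁻¹' W) ≤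
      (haar (d + 1)).real U := by
    intro a
    by_cases hne : (G ∩ (fun u => u * a⁻¹) ⁻¹' W).Nonempty
    · obtain ⟨g, hgG, hgW⟩ := hne
      have hsub : G ∩ (fun u => u * a⁻¹) ⁻¹' W ⊆ (fun u => u * g⁻¹) ⁻¹' U := by
        rintro u ⟨huG, huW⟩
        rw [Set.mem_preimage, hU, Set.mem_ofPred_eq]
        have hg1 : ‖act g⁻¹ (nP d) - nP d‖ ≤ α / 2 * t := by
          have e : ‖act g⁻¹ (nP d) - nP d‖ = ‖act g (nP d) - nP d‖ := by
            calc ‖act g⁻¹ (nP d) - nP d‖ = ‖act g (act g⁻¹ (nP d) - nP d)‖ := (norm_act _ _).symm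
              _ = ‖nP d - act g (nP d)‖ := by rw [act_sub, act_act_inv]
              _ = _ := norm_sub_rev _ _
          rw [e, ← dist_eq_norm]
          exact hgG
        constructor
        · rw [act_mul]
          have e : act u (act g⁻¹ (nP d)) - nP d = act u (act g⁻¹ (nP d) - nP d) +
              (act u (nP d) - nP d) := by
            rw [act_sub]; abel
          rw [e]
          refine (norm_add_le _ _).trans ?_
          rw [norm_act]
          have hu1 : ‖act u (nP d) - nP d‖ ≤ α / 2 * t := by
            rw [← dist_eq_norm]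
            exact huG
          linarith
        · intro x
          have e1 : u * g⁻¹ = (u * a⁻¹) * (g * a⁻¹)⁻¹ := by
            group
          rw [e1, act_mul]
          set y := act (g * a⁻¹)⁻¹ x with hy
          have hyx : act (g * a⁻¹) y = x := by rw [hy, act_act_inv]
          have hyn : ‖y‖ = ‖x‖ := by rw [hy, norm_act]
          have h1 := hWx _ huW y
          have h2 := hWx _ hgW y
          have h2' : ‖y - x‖ ≤ α / 2 * ‖y‖ := by
            rw [norm_sub_rev]
            have : act (g * a⁻¹) y - y = x - y := by rw [hyx]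
            rw [← this]
            exact h2
          have e2 : act (u * a⁻¹) y - x = (act (u * a⁻¹) y - y) + (y - x) := by abel
          rw [e2]
          refine (norm_add_le _ _).trans ?_
          rw [hyn] at h1 h2'
          linarith
      calc (haar (d + 1)).real (G ∩ (fun u => u * a⁻¹) ⁻¹' W)
          ≤ (haar (d + 1)).real ((fun u => u * g⁻¹) ⁻¹' U) :=
            measureReal_mono hsub (measure_ne_top _ _)
        _ = (haar (d + 1)).real U := by
            unfold Measure.real
            rw [measure_preimage_mul_right]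
    · rw [Set.not_nonempty_iff_eq_empty.1 hne]
      simp
  have hcover : G ⊆ ⋃ a ∈ S, (G ∩ (fun u => u * a⁻¹) ⁻¹' W) := by
    intro u hu
    have := hS (Set.mem_univ u)
    simp only [Set.mem_iUnion] at this ⊢
    obtain ⟨a, ha, hau⟩ := this
    exact ⟨a, ha, hu, hau⟩
  have hsum : (haar (d + 1)).real G ≤ S.card * (haar (d + 1)).real U := by
    calc (haar (d + 1)).real G ≤ (haar (d + 1)).real (⋃ a ∈ S, (G ∩ (fun u => u * a⁻¹) ⁻¹' W)) :=
          measureReal_mono hcover (measure_ne_top _ _)
      _ ≤ ∑ a ∈ S, (haar (d + 1)).real (G ∩ (fun u => u * a⁻¹) ⁻¹' W) :=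
          measureReal_biUnion_finset_le _ _
      _ ≤ ∑ _a ∈ S, (haar (d + 1)).real U := Finset.sum_le_sum fun a _ => hpiece a
      _ = S.card * (haar (d + 1)).real U := by rw [Finset.sum_const, nsmul_eq_mul]
  rw [div_mul_eq_mul_div, div_le_iff₀ hScard]
  linarith [mul_comm (S.card : ℝ) ((haar (d + 1)).real U)]

end SphLim
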