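import Pool.Agent.SphLim.TTS2

/-!
# Gnomonic chart of the upper half sphere
-/

open MeasureTheory Filter Topology Metric
open scoped ENNReal Pointwise RealInnerProductSpace Real

namespace SphLim

variable {d : ℕ}

/-- The point with height `τ` and horizontal part `y`. -/
noncomputable def emb (τ : ℝ) (y : Eu d) : Eu (d + 1) :=
  WithLp.toLp 2 (Fin.cons τ (fun i => y i) : Fin (d + 1) → ℝ)

lemma emb_zero_apply (τ : ℝ) (y : Eu d) : emb τ y 0 = τ := rfl

lemma emb_succ_apply (τ : ℝ) (y : Eu d) (i : Fin d) : emb τ y i.succ = y i := rfl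

lemma emb_add (τ τ' : ℝ) (y y' : Eu d) : emb (τ + τ') (y + y') = emb τ y + emb τ' y' := by
  ext i
  refine Fin.cases ?_ (fun j => ?_) i
  · simp [emb_zero_apply]
  · simp [emb_succ_apply]

lemma emb_smul (c τ : ℝ) (y : Eu d) : emb (c * τ) (c • y) = c • emb τ y := by
  ext i
  refine Fin.cases ?_ (fun j => ?_) i
  · simp [emb_zero_apply]
  · simp [emb_succ_apply]

lemma emb_sub (τ τ' : ℝ) (y y' : Eu d) : emb (τ - τ') (y - y') = emb τ y - emb τ' y' := by
  ext i
  refine Fin.cases ?_ (fun j => ?_) i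
  · simp [emb_zero_apply]
  · simp [emb_succ_apply]

lemma inner_emb (τ τ' : ℝ) (y y' : Eu d) : ⟪emb τ y, emb τ' y'⟫ = τ * τ' + ⟪y, y'⟫ := by
  rw [PiLp.inner_apply, PiLp.inner_apply, Fin.sum_univ_succ]
  simp only [emb_zero_apply, emb_succ_apply]
  simp [mul_comm]

lemma norm_emb_sq (τ : ℝ) (y : Eu d) : ‖emb τ y‖ ^ 2 = τ ^ 2 + ‖y‖ ^ 2 := by
  rw [← real_inner_self_eq_norm_sq, inner_emb, real_inner_self_eq_norm_sq]
  ring

lemma continuous_emb : Continuous fun p : ℝ × Eu d => emb p.1 p.2 := by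
  unfold emb
  refine (PiLp.continuous_toLp 2 _).comp (continuous_pi fun i => ?_)
  refine Fin.cases ?_ (fun j => ?_) i
  · simpa using continuous_fst
  · simp only [Fin.cons_succ]
    fun_prop

lemma emb_preserving : MeasurePreserving (fun p : ℝ × Eu d => emb p.1 p.2)
    ((volume : Measure ℝ).prod (volume : Measure (Eu d))) volume := by
  have h1 : MeasurePreserving (MeasurableEquiv.toLp 2 (Fin d → ℝ)).symm
    (volume : Measure (Eu d)) volume := EuclideanSpace.volume_preserving_symm_measurableEquiv_toLp _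
  have h2 : MeasurePreserving (Prod.map (id : ℝ → ℝ) (MeasurableEquiv.toLp 2 (Fin d → ℝ)).symm)
      ((volume : Measure ℝ).prod (volume : Measure (Eu d)))
      ((volume : Measure ℝ).prod (volume : Measure (Fin d → ℝ))) :=
    (MeasurePreserving.id _).prod h1
  have h3 := (volume_preserving_piFinSuccAbove (fun _ : Fin (d + 1) => ℝ) 0).symm
  have h4 := (EuclideanSpace.volume_preserving_symm_measurableEquiv_toLp (Fin (d + 1))).symm
  have h5 := h4.comp (h3.comp h2)
  have hf : (fun p : ℝ × Eu d => emb p.1 p.2) =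
      (MeasurableEquiv.toLp 2 (Fin (d + 1) → ℝ)).symm.symm ∘
      (MeasurableEquiv.piFinSuccAbove (fun _ : Fin (d + 1) => ℝ) 0).symm ∘
      Prod.map id (MeasurableEquiv.toLp 2 (Fin d → ℝ)).symm := by
    funext p
    ext i
    refine Fin.cases ?_ (fun j => ?_) i
    · simp [emb_zero_apply, MeasurableEquiv.piFinSuccAbove]
    · simp [emb_succ_apply, MeasurableEquiv.piFinSuccAbove]
  rw [hf]
  exact h5

/-- The norm of `(1, y)`. -/
noncomputable def nn (y : Eu d) : ℝ := ‖emb 1 y‖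

lemma nn_sq (y : Eu d) : nn y ^ 2 = 1 + ‖y‖ ^ 2 := by
  unfold nn
  rw [norm_emb_sq]
  ring

lemma one_le_nn (y : Eu d) : 1 ≤ nn y := by
  have h1 := nn_sq y
  have h2 : 0 ≤ nn y := norm_nonneg _
  nlinarith [sq_nonneg ‖y‖]

lemma nn_pos (y : Eu d) : 0 < nn y := lt_of_lt_of_le one_pos (one_le_nn y)

lemma continuous_emb_one : Continuous fun y : Eu d => emb 1 y :=
  continuous_emb.comp (continuous_const.prodMk continuous_id)

lemma continuous_nn : Continuous (nn : Eu d → ℝ) := continuous_emb_one.norm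

/-- The chart. -/
noncomputable def pt (y : Eu d) : Eu (d + 1) := nrm (emb 1 y)

lemma pt_eq (y : Eu d) : pt y = (nn y)⁻¹ • emb 1 y := rfl

lemma continuous_pt : Continuous (pt : Eu d → Eu (d + 1)) := by
  have : (pt : Eu d → Eu (d + 1)) = fun y => (nn y)⁻¹ • emb 1 y := rfl
  rw [this]
  exact (continuous_nn.inv₀ (fun y => (nn_pos y).ne')).smul continuous_emb_one

lemma norm_pt (y : Eu d) : ‖pt y‖ = 1 := by
  rw [pt_eq, norm_smul, norm_inv, Real.norm_of_nonneg (nn_pos y).le]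
  exact inv_mul_cancel₀ (nn_pos y).ne'

lemma pt_zero_pos (y : Eu d) : 0 < pt y 0 := by
  rw [pt_eq, PiLp.smul_apply, emb_zero_apply, smul_eq_mul, mul_one]
  exact inv_pos.2 (nn_pos y)

lemma nrm_smul {n : ℕ} {τ : ℝ} (hτ : 0 < τ) (x : Eu n) : nrm (τ • x) = nrm x := by
  unfold nrm
  rw [norm_smul, Real.norm_of_nonneg hτ.le, smul_smul, mul_inv, mul_assoc, mul_comm ‖x‖⁻¹ τ,
    ← mul_assoc, inv_mul_cancel₀ hτ.ne', one_mul]

lemma lintegral_scale {n : ℕ} {τ : ℝ} (hτ : 0 < τ) {H : Eu n → ℝ≥0∞} (hH : Measurable H) :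
    ∫⁻ y, H y = ENNReal.ofReal (τ ^ n) * ∫⁻ y, H (τ • y) := by
  have h1 := Measure.map_addHaar_smul (volume : Measure (Eu n)) hτ.ne'
  have h2 : ∫⁻ y, H (τ • y) = ∫⁻ y, H y ∂(Measure.map (τ • ·) (volume : Measure (Eu n))) := by
    rw [lintegral_map hH (measurable_const_smul τ)]
  rw [h2, h1, lintegral_smul_measure, smul_eq_mul, ← mul_assoc]
  have hp : 0 < τ ^ n := by positivity
  rw [finrank_euclideanSpace, Fintype.card_fin, abs_of_pos (inv_pos.2 hp),
    ← ENNReal.ofReal_mul hp.le, mul_inv_cancel₀ hp.ne', ENNReal.ofReal_one, one_mul]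

lemma lintegral_pow_Ioo (n : ℕ) {a : ℝ} (ha : 0 ≤ a) :
    ∫⁻ τ in Set.Ioo 0 a, ENNReal.ofReal (τ ^ n) = ENNReal.ofReal (a ^ (n + 1) / (n + 1)) := by
  rw [Measure.restrict_congr_set Ioo_ae_eq_Ioc, ← ofReal_integral_eq_lintegral_ofReal,
    ← intervalIntegral.integral_of_le ha]
  · simp
  · exact (intervalIntegral.intervalIntegrable_pow n).1
  · filter_upwards [ae_restrict_mem measurableSet_Ioc] with y hy
    exact pow_nonneg hy.1.le _

/-- The constant of the chart. -/
noncomputable def c0 (d : ℕ) : ℝ≥0∞ :=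
  (volume (ball (0 : Eu (d + 1)) 1))⁻¹ * ENNReal.ofReal (1 / ((d : ℝ) + 1))

lemma c0_ne_top (d : ℕ) : c0 d ≠ ∞ := by
  unfold c0
  exact ENNReal.mul_ne_top (ENNReal.inv_ne_top.2 (vol_ball_ne_zero _)) ENNReal.ofReal_ne_top

lemma c0_ne_zero (d : ℕ) : c0 d ≠ 0 := by
  unfold c0
  refine mul_ne_zero (ENNReal.inv_ne_zero.2 (vol_ball_ne_top _)) ?_
  have : 0 < 1 / ((d : ℝ) + 1) := by positivity
  simpa using this

lemma lintegral_sphMeas_chart {F : Eu (d + 1) → ℝ≥0∞} (hF : Measurable F)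
    (hF0 : ∀ x, x 0 ≤ 0 → F x = 0) :
    ∫⁻ x, F x ∂(sphMeas d) =
      c0 d * ∫⁻ y : Eu d, F (pt y) * ENNReal.ofReal ((nn y)⁻¹ ^ (d + 1)) := by
  set B : Set (Eu (d + 1)) := ball 0 1 with hB
  set G : Eu (d + 1) → ℝ≥0∞ := B.indicator (fun x => F (nrm x)) with hG
  have hGm : Measurable G := (hF.comp measurable_nrm).indicator measurableSet_ball
  have h1 : ∫⁻ x, F x ∂(sphMeas d) = (volume B)⁻¹ * ∫⁻ x, G x := by
    unfold sphMeas ballMeas
    rw [lintegral_map hF measurable_nrm, lintegral_smul_measure, smul_eq_mul, hG,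
      lintegral_indicator measurableSet_ball]
  have h2 : ∫⁻ x, G x = ∫⁻ τ : ℝ, ∫⁻ y : Eu d, G (emb τ y) := by
    rw [← (emb_preserving (d := d)).lintegral_comp hGm]
    rw [lintegral_prod]
    exact (hGm.comp continuous_emb.measurable).aemeasurable
  have h3 : ∀ τ : ℝ, ∫⁻ y : Eu d, G (emb τ y) =
      ∫⁻ y : Eu d, (Set.Ioo 0 (nn y)⁻¹).indicator (fun τ => ENNReal.ofReal (τ ^ d)) τ
        * F (pt y) := by
    intro τ
    by_cases hτ : 0 < τ
    · have hm : Measurable fun y : Eu d => G (emb τ y) :=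
        hGm.comp (continuous_emb.comp (continuous_const.prodMk continuous_id)).measurable
      rw [lintegral_scale hτ hm, ← lintegral_const_mul']
      · congr 1
        ext y
        have e1 : emb τ (τ • y) = τ • emb 1 y := by
          rw [← emb_smul, mul_one]
        rw [e1, hG]
        by_cases hy : τ < (nn y)⁻¹
        · have hmem : τ • emb 1 y ∈ B := by
            rw [hB, mem_ball, dist_zero_right, norm_smul, Real.norm_of_nonneg hτ.le]
            have := (lt_inv_comm₀ hτ (nn_pos y)).1 hy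
            calc τ * nn y < (nn y)⁻¹ * nn y := by
                  apply mul_lt_mul_of_pos_right hy (nn_pos y)
              _ = 1 := inv_mul_cancel₀ (nn_pos y).ne'
          rw [Set.indicator_of_mem hmem, Set.indicator_of_mem (show τ ∈ Set.Ioo 0 (nn y)⁻¹ from
            ⟨hτ, hy⟩), nrm_smul hτ]
          rfl
        · have hmem : τ • emb 1 y ∉ B := by
            rw [hB, mem_ball, dist_zero_right, norm_smul, Real.norm_of_nonneg hτ.le, not_lt]
            push Not at hy
            calc (1 : ℝ) = (nn y)⁻¹ * nn y := (inv_mul_cancel₀ (nn_pos y).ne').symm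
              _ ≤ τ * nn y := by
                  apply mul_le_mul_of_nonneg_right hy (nn_pos y).le
          rw [Set.indicator_of_notMem hmem, Set.indicator_of_notMem (show τ ∉ Set.Ioo 0 (nn y)⁻¹
            from fun h => hy h.2)]
          simp
      · exact ENNReal.ofReal_ne_top
    · have e1 : ∀ y : Eu d, G (emb τ y) = 0 := by
        intro y
        rw [hG]
        by_cases hmem : emb τ y ∈ B
        · rw [Set.indicator_of_mem hmem]
          apply hF0
          unfold nrm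
          rw [PiLp.smul_apply, emb_zero_apply, smul_eq_mul]
          push Not at hτ
          exact mul_nonpos_of_nonneg_of_nonpos (inv_nonneg.2 (norm_nonneg _)) hτ
        · rw [Set.indicator_of_notMem hmem]
      have e2 : ∀ y : Eu d, (Set.Ioo 0 (nn y)⁻¹).indicator (fun τ => ENNReal.ofReal (τ ^ d)) τ
          = 0 := fun y => Set.indicator_of_notMem (fun h => hτ h.1) _
      simp_rw [e1, e2]
      simp
  have hjm : Measurable fun p : ℝ × Eu d =>
      (Set.Ioo 0 (nn p.2)⁻¹).indicator (fun τ => ENNReal.ofReal (τ ^ d)) p.1 := by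
    have e : (fun p : ℝ × Eu d =>
        (Set.Ioo 0 (nn p.2)⁻¹).indicator (fun τ => ENNReal.ofReal (τ ^ d)) p.1) =
        {p : ℝ × Eu d | 0 < p.1 ∧ p.1 < (nn p.2)⁻¹}.indicator
          (fun p => ENNReal.ofReal (p.1 ^ d)) := by
      ext p
      by_cases hp : 0 < p.1 ∧ p.1 < (nn p.2)⁻¹
      · rw [Set.indicator_of_mem (show p.1 ∈ Set.Ioo 0 (nn p.2)⁻¹ from hp),
          Set.indicator_of_mem (show p ∈ {p : ℝ × Eu d | 0 < p.1 ∧ p.1 < (nn p.2)⁻¹} from hp)]
      · rw [Set.indicator_of_notMem (show p.1 ∉ Set.Ioo 0 (nn p.2)⁻¹ from hp),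
          Set.indicator_of_notMem (show p ∉ {p : ℝ × Eu d | 0 < p.1 ∧ p.1 < (nn p.2)⁻¹} from hp)]
    rw [e]
    apply Measurable.indicator
    · exact (ENNReal.measurable_ofReal).comp (measurable_fst.pow_const d)
    · apply MeasurableSet.inter
      · exact measurableSet_lt measurable_const measurable_fst
      · exact measurableSet_lt measurable_fst (continuous_nn.measurable.comp measurable_snd).inv
  have hFm : Measurable fun p : ℝ × Eu d => F (pt p.2) :=
    hF.comp (continuous_pt.measurable.comp measurable_snd)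
  have hprod : Measurable (Function.uncurry fun (τ : ℝ) (y : Eu d) =>
      (Set.Ioo 0 (nn y)⁻¹).indicator (fun τ => ENNReal.ofReal (τ ^ d)) τ * F (pt y)) :=
    hjm.mul hFm
  have hslice : ∀ y : Eu d, Measurable fun τ : ℝ =>
      (Set.Ioo 0 (nn y)⁻¹).indicator (fun τ => ENNReal.ofReal (τ ^ d)) τ := by
    intro y
    apply Measurable.indicator _ measurableSet_Ioo
    exact ENNReal.measurable_ofReal.comp (measurable_id.pow_const d)
  have h4 : ∀ y : Eu d, ∫⁻ τ : ℝ, (Set.Ioo 0 (nn y)⁻¹).indicator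
        (fun τ => ENNReal.ofReal (τ ^ d)) τ * F (pt y) =
        ENNReal.ofReal (1 / ((d : ℝ) + 1)) * (F (pt y) * ENNReal.ofReal ((nn y)⁻¹ ^ (d + 1))) := by
    intro y
    rw [lintegral_mul_const _ (hslice y), lintegral_indicator measurableSet_Ioo,
      lintegral_pow_Ioo d (inv_nonneg.2 (nn_pos y).le)]
    have : (nn y)⁻¹ ^ (d + 1) / ((d : ℝ) + 1) = 1 / ((d : ℝ) + 1) * (nn y)⁻¹ ^ (d + 1) := by
      ring
    rw [this, ENNReal.ofReal_mul (by positivity)]
    ring
  calc ∫⁻ x, F x ∂(sphMeas d) = (volume B)⁻¹ * ∫⁻ τ : ℝ, ∫⁻ y : Eu d,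
        (Set.Ioo 0 (nn y)⁻¹).indicator (fun τ => ENNReal.ofReal (τ ^ d)) τ * F (pt y) := by
        rw [h1, h2, lintegral_congr h3]
    _ = (volume B)⁻¹ * ∫⁻ y : Eu d, ∫⁻ τ : ℝ,
        (Set.Ioo 0 (nn y)⁻¹).indicator (fun τ => ENNReal.ofReal (τ ^ d)) τ * F (pt y) := by
        rw [lintegral_lintegral_swap hprod.aemeasurable]
    _ = (volume B)⁻¹ * (ENNReal.ofReal (1 / ((d : ℝ) + 1)) *
        ∫⁻ y : Eu d, (F (pt y) * ENNReal.ofReal ((nn y)⁻¹ ^ (d + 1)))) := by
        rw [lintegral_congr h4, lintegral_const_mul' _ _ ENNReal.ofReal_ne_top]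
    _ = _ := by
        rw [← mul_assoc]
        rfl

end SphLim
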