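import Pool.Agent.SphLim.Chart

/-!
# Scaled gnomonic chart
-/

open MeasureTheory Filter Topology Metric
open scoped ENNReal Pointwise RealInnerProductSpace Real

namespace SphLim

variable {d : ℕ}

/-- The density of the sphere in the chart at scale `t`. -/
noncomputable def wt (t : ℝ) (y : Eu d) : ℝ := ((nn (t • y))⁻¹) ^ (d + 1)

lemma wt_pos (t : ℝ) (y : Eu d) : 0 < wt t y := by
  unfold wt
  have := nn_pos (t • y)
  positivity

lemma wt_le_one (t : ℝ) (y : Eu d) : wt t y ≤ 1 := by
  unfold wt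
  exact pow_le_one₀ (inv_nonneg.2 (nn_pos _).le) (inv_le_one_of_one_le₀ (one_le_nn _))

lemma continuous_wt (t : ℝ) : Continuous (wt t : Eu d → ℝ) := by
  unfold wt
  have h1 : Continuous fun y : Eu d => nn (t • y) := continuous_nn.comp (continuous_const_smul t)
  exact (h1.inv₀ (fun y => (nn_pos _).ne')).pow _

lemma tendsto_wt (y : Eu d) : Tendsto (fun t : ℝ => wt t y) (𝓝 0) (𝓝 1) := by
  have h1 : Continuous fun t : ℝ => wt t y := by
    unfold wt
    have h1 : Continuous fun t : ℝ => nn (t • y) :=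
      continuous_nn.comp (continuous_id.smul continuous_const)
    exact (h1.inv₀ (fun y => (nn_pos _).ne')).pow _
  have h2 := h1.tendsto 0
  have h3 : wt (0 : ℝ) y = 1 := by
    unfold wt
    rw [zero_smul]
    have : nn (0 : Eu d) = 1 := by
      have h := nn_sq (0 : Eu d)
      rw [norm_zero] at h
      have h0 := nn_pos (0 : Eu d)
      nlinarith
    rw [this]
    simp
  rwa [h3] at h2

/-- The constant of the chart. -/
noncomputable def cc (d : ℕ) : ℝ := (c0 d).toReal

lemma cc_pos (d : ℕ) : 0 < cc d := ENNReal.toReal_pos (c0_ne_zero d) (c0_ne_top d)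

/-- The chart at scale `t`. -/
noncomputable def ct (t : ℝ) (y : Eu d) : Eu (d + 1) := pt (t • y)

lemma continuous_ct (t : ℝ) : Continuous (ct t : Eu d → Eu (d + 1)) :=
  continuous_pt.comp (continuous_const_smul t)

lemma norm_ct (t : ℝ) (y : Eu d) : ‖ct t y‖ = 1 := norm_pt _

lemma ct_zero_pos (t : ℝ) (y : Eu d) : 0 < ct t y 0 := pt_zero_pos _

lemma lintegral_chart {t : ℝ} (ht : 0 < t) {F : Eu (d + 1) → ℝ≥0∞} (hF : Measurable F)
    (hF0 : ∀ x, x 0 ≤ 0 → F x = 0) :
    ∫⁻ x, F x ∂(sphMeas d) =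
      ∫⁻ y : Eu d, ENNReal.ofReal (cc d * t ^ d * wt t y) * F (ct t y) := by
  rw [lintegral_sphMeas_chart hF hF0]
  have hm : Measurable fun y : Eu d => F (pt y) * ENNReal.ofReal ((nn y)⁻¹ ^ (d + 1)) := by
    apply (hF.comp continuous_pt.measurable).mul
    exact ENNReal.measurable_ofReal.comp ((continuous_nn.measurable.inv).pow_const _)
  rw [lintegral_scale ht hm]
  rw [← lintegral_const_mul' _ _ ENNReal.ofReal_ne_top, ← lintegral_const_mul' _ _ (c0_ne_top d)]
  apply lintegral_congr
  intro y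
  unfold cc wt ct
  have h1 : (0 : ℝ) ≤ (c0 d).toReal := ENNReal.toReal_nonneg
  have h2 : (0 : ℝ) ≤ t ^ d := by positivity
  rw [ENNReal.ofReal_mul (mul_nonneg h1 h2), ENNReal.ofReal_mul h1,
    ENNReal.ofReal_toReal (c0_ne_top d)]
  ring

lemma continuous_dens (t : ℝ) : Continuous fun y : Eu d => cc d * t ^ d * wt t y :=
  continuous_const.mul (continuous_wt t)

lemma measurableSet_upper : MeasurableSet {x : Eu (d + 1) | 0 < x 0} := by
  have : Continuous fun x : Eu (d + 1) => x 0 := by fun_prop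
  exact (isOpen_lt continuous_const this).measurableSet

lemma restrict_eq_map {t : ℝ} (ht : 0 < t) :
    (sphMeas d).restrict {x | 0 < x 0} = Measure.map (ct t)
      ((volume : Measure (Eu d)).withDensity
        (fun y => ENNReal.ofReal (cc d * t ^ d * wt t y))) := by
  ext A hA
  rw [Measure.restrict_apply hA, Measure.map_apply (continuous_ct t).measurable hA,
    withDensity_apply _ ((continuous_ct t).measurable hA),
    ← lintegral_indicator_one (hA.inter measurableSet_upper)]
  rw [lintegral_chart ht (measurable_one.indicator (hA.inter measurableSet_upper)),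
    ← lintegral_indicator ((continuous_ct t).measurable hA)]
  · apply lintegral_congr
    intro y
    by_cases hy : ct t y ∈ A
    · rw [Set.indicator_of_mem (show ct t y ∈ A ∩ {x | 0 < x 0} from ⟨hy, ct_zero_pos t y⟩),
        Set.indicator_of_mem (show y ∈ ct t ⁻¹' A from hy)]
      simp
    · rw [Set.indicator_of_notMem (show ct t y ∉ A ∩ {x | 0 < x 0} from fun h => hy h.1),
        Set.indicator_of_notMem (show y ∉ ct t ⁻¹' A from hy)]
      simp
  · intro x hx
    apply Set.indicator_of_notMem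
    rintro ⟨-, h⟩
    exact absurd h (not_lt.2 hx)

lemma integral_chart {t : ℝ} (ht : 0 < t) {H : Eu (d + 1) → ℝ} (hH : Measurable H)
    (hH0 : ∀ x, x 0 ≤ 0 → H x = 0) :
    ∫ x, H x ∂(sphMeas d) = cc d * t ^ d * ∫ y : Eu d, wt t y * H (ct t y) := by
  have h1 : ∫ x, H x ∂(sphMeas d) = ∫ x in {x | 0 < x 0}, H x ∂(sphMeas d) := by
    rw [← integral_indicator measurableSet_upper]
    congr 1
    ext x
    by_cases hx : 0 < x 0
    · rw [Set.indicator_of_mem (show x ∈ {x : Eu (d + 1) | 0 < x 0} from hx)]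
    · rw [Set.indicator_of_notMem (show x ∉ {x : Eu (d + 1) | 0 < x 0} from hx),
        hH0 x (not_lt.1 hx)]
  rw [h1, restrict_eq_map ht, integral_map (continuous_ct t).measurable.aemeasurable
    hH.aestronglyMeasurable]
  have hdm : Measurable fun y : Eu d => (cc d * t ^ d * wt t y).toNNReal :=
    (continuous_dens t).measurable.real_toNNReal
  have h2 := integral_withDensity_eq_integral_smul (μ := (volume : Measure (Eu d))) hdm
    (fun y => H (ct t y))
  have h3 : ((volume : Measure (Eu d)).withDensity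
        (fun y => ENNReal.ofReal (cc d * t ^ d * wt t y))) =
      ((volume : Measure (Eu d)).withDensity
        (fun y => (((cc d * t ^ d * wt t y).toNNReal : NNReal) : ℝ≥0∞))) := rfl
  rw [h3, h2, ← integral_const_mul]
  congr 1
  ext y
  have h4 : 0 ≤ cc d * t ^ d * wt t y := by
    have := cc_pos d
    have := wt_pos t y
    positivity
  rw [NNReal.smul_def, Real.coe_toNNReal _ h4, smul_eq_mul]
  ring

/-- The measure of a set in the upper half sphere. -/
lemma real_chart {t : ℝ} (ht : 0 < t) {A : Set (Eu (d + 1))} (hA : MeasurableSet A)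
    (hA0 : ∀ x ∈ A, 0 < x 0) :
    (sphMeas d).real A = cc d * t ^ d * ∫ y : Eu d, wt t y * A.indicator 1 (ct t y) := by
  rw [← integral_indicator_one hA, integral_chart ht (measurable_one.indicator hA)]
  intro x hx
  apply Set.indicator_of_notMem
  intro h
  exact absurd (hA0 x h) (not_lt.2 hx)

/-- The north pole. -/
noncomputable def nP (d : ℕ) : Eu (d + 1) := emb 1 0

lemma norm_nP : ‖nP d‖ = 1 := by
  have h := norm_emb_sq 1 (0 : Eu d)
  rw [norm_zero] at h
  have h0 : 0 ≤ ‖nP d‖ := norm_nonneg _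
  unfold nP at *
  nlinarith

lemma inner_nP (x : Eu (d + 1)) : ⟪nP d, x⟫ = x 0 := by
  rw [PiLp.inner_apply, Fin.sum_univ_succ]
  unfold nP
  simp only [emb_zero_apply, emb_succ_apply]
  simp

/-- The horizontal part of a vector. -/
noncomputable def hor (x : Eu (d + 1)) : Eu d := WithLp.toLp 2 (fun i : Fin d => x i.succ)

lemma hor_apply (x : Eu (d + 1)) (i : Fin d) : hor x i = x i.succ := rfl

lemma emb_hor (x : Eu (d + 1)) : emb (x 0) (hor x) = x := by
  ext i
  refine Fin.cases ?_ (fun j => ?_) i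
  · rfl
  · rfl

lemma hor_emb (τ : ℝ) (y : Eu d) : hor (emb τ y) = y := by
  ext i
  rfl

lemma continuous_hor : Continuous (hor : Eu (d + 1) → Eu d) := by
  unfold hor
  refine (PiLp.continuous_toLp 2 _).comp (continuous_pi fun i => ?_)
  fun_prop

lemma hor_sub (x y : Eu (d + 1)) : hor (x - y) = hor x - hor y := by
  ext i
  rfl

lemma hor_smul (c : ℝ) (x : Eu (d + 1)) : hor (c • x) = c • hor x := by
  ext i
  rfl

lemma norm_hor_le (x : Eu (d + 1)) : ‖hor x‖ ≤ ‖x‖ := by
  have h := norm_emb_sq (x 0) (hor x)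
  rw [emb_hor] at h
  have h1 : ‖hor x‖ ^ 2 ≤ ‖x‖ ^ 2 := by nlinarith [sq_nonneg (x 0)]
  exact (pow_le_pow_iff_left₀ (norm_nonneg _) (norm_nonneg _) two_ne_zero).1 h1

/-- The inverse of the chart at scale `t`. -/
noncomputable def pj (t : ℝ) (x : Eu (d + 1)) : Eu d := (t * x 0)⁻¹ • hor x

lemma measurable_pj (t : ℝ) : Measurable (pj t : Eu (d + 1) → Eu d) := by
  unfold pj
  have h1 : Measurable fun x : Eu (d + 1) => x 0 := by
    have : Continuous fun x : Eu (d + 1) => x 0 := by fun_prop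
    exact this.measurable
  exact ((h1.const_mul t).inv).smul continuous_hor.measurable

lemma pj_ct {t : ℝ} (ht : 0 < t) (y : Eu d) : pj t (ct t y) = y := by
  unfold pj ct
  rw [pt_eq, PiLp.smul_apply, emb_zero_apply, hor_smul, hor_emb, smul_eq_mul, mul_one, smul_smul,
    smul_smul]
  have h1 := (nn_pos (t • y)).ne'
  have : (t * (nn (t • y))⁻¹)⁻¹ * ((nn (t • y))⁻¹ * t) = 1 := by
    field_simp
  rw [mul_assoc, this, one_smul]

lemma ct_pj {t : ℝ} (ht : 0 < t) {x : Eu (d + 1)} (hx : ‖x‖ = 1) (hx0 : 0 < x 0) :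
    ct t (pj t x) = x := by
  unfold ct pt
  have h1 : emb 1 (t • pj t x) = (x 0)⁻¹ • x := by
    unfold pj
    rw [smul_smul]
    have : t * (t * x 0)⁻¹ = (x 0)⁻¹ := by field_simp
    rw [this]
    calc emb 1 ((x 0)⁻¹ • hor x) = emb ((x 0)⁻¹ * x 0) ((x 0)⁻¹ • hor x) := by
          rw [inv_mul_cancel₀ hx0.ne']
      _ = (x 0)⁻¹ • emb (x 0) (hor x) := emb_smul _ _ _
      _ = (x 0)⁻¹ • x := by rw [emb_hor]
  rw [h1, nrm_smul (inv_pos.2 hx0)]
  unfold nrm
  rw [hx, inv_one, one_smul]

end SphLim
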