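import Pool.Agent.SphLim.KeyTerm

/-!
# The circles of the configuration and the base copy
-/

open MeasureTheory Filter Topology Metric
open scoped ENNReal Pointwise RealInnerProductSpace Real

namespace SphLim

variable {d : ℕ} {ι : Type*}

lemma exists_circle {v : ι → Eu (d + 1)} {J : Finset ι} (hJ : J.card + 1 ≤ d) {i : ι}
    (hvi : ‖v i‖ = 1) {r0 : ℝ}
    (hdist : ∀ z ∈ Submodule.span ℝ (v '' (J : Set ι)), r0 ≤ ‖v i - z‖) :
    ∃ (a e f : Eu (d + 1)) (r : ℝ), r0 ≤ r ∧ ⟪a, e⟫ = 0 ∧ ⟪a, f⟫ = 0 ∧ ⟪e, f⟫ = 0 ∧ ‖e‖ = r ∧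
      ‖f‖ = r ∧ ‖a‖ ^ 2 + r ^ 2 = 1 ∧ v i = a + e ∧ ∀ j ∈ J, ⟪e, v j⟫ = 0 ∧ ⟪f, v j⟫ = 0 := by
  classical
  set K : Submodule ℝ (Eu (d + 1)) := Submodule.span ℝ (v '' (J : Set ι)) with hK
  set a : Eu (d + 1) := K.starProjection (v i) with ha
  set e : Eu (d + 1) := v i - a with he
  have haK : a ∈ K := Submodule.starProjection_apply_mem _ _
  have heK : ∀ z ∈ K, ⟪e, z⟫ = 0 := by
    intro z hz
    exact Submodule.starProjection_inner_eq_zero (K := K) (v i) z hz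
  have hr : r0 ≤ ‖e‖ := hdist a haK
  have hfin : Module.finrank ℝ K ≤ J.card := by
    have h1 : v '' (J : Set ι) = ((J.image v : Finset (Eu (d + 1))) : Set (Eu (d + 1))) := by
      simp
    rw [hK, h1]
    exact (finrank_span_finset_le_card _).trans Finset.card_image_le
  set L : Submodule ℝ (Eu (d + 1)) := K ⊔ Submodule.span ℝ {e} with hL
  have hLfin : Module.finrank ℝ L ≤ d := by
    have h1 := Submodule.finrank_add_le_finrank_add_finrank K (Submodule.span ℝ {e})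
    have h2 : Module.finrank ℝ (Submodule.span ℝ ({e} : Set (Eu (d + 1)))) ≤ 1 :=
      finrank_span_le_card _ |>.trans (by simp)
    rw [← hL] at h1
    omega
  have hLperp : 0 < Module.finrank ℝ Lᗮ := by
    have h1 := Submodule.finrank_add_finrank_orthogonal L
    rw [finrank_euclideanSpace, Fintype.card_fin] at h1
    omega
  have : Nontrivial Lᗮ := Module.finrank_pos_iff.1 hLperp
  obtain ⟨⟨w, hw⟩, hw0⟩ := exists_ne (0 : Lᗮ)
  have hwne : w ≠ 0 := fun h => hw0 (by simpa using h)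
  have hwn : 0 < ‖w‖ := norm_pos_iff.2 hwne
  have hwL : ∀ z ∈ L, ⟪w, z⟫ = 0 := by
    intro z hz
    rw [real_inner_comm]
    exact (Submodule.mem_orthogonal L w).1 hw z hz
  set f : Eu (d + 1) := (‖e‖ * ‖w‖⁻¹) • w with hf
  have hfL : ∀ z ∈ L, ⟪f, z⟫ = 0 := by
    intro z hz
    rw [hf, inner_smul_left, hwL z hz, mul_zero]
  have hKL : K ≤ L := le_sup_left
  have heL : e ∈ L := (le_sup_right : Submodule.span ℝ {e} ≤ L) (Submodule.mem_span_singleton_self e)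
  refine ⟨a, e, f, ‖e‖, hr, ?_, ?_, ?_, rfl, ?_, ?_, ?_, ?_⟩
  · rw [real_inner_comm]; exact heK a haK
  · rw [real_inner_comm]; exact hfL a (hKL haK)
  · rw [real_inner_comm]; exact hfL e heL
  · rw [hf, norm_smul, norm_mul, norm_inv, norm_norm, norm_norm, mul_assoc,
      inv_mul_cancel₀ hwn.ne', mul_one]
  · have h1 : v i = a + e := by rw [he]; abel
    have h2 : ‖v i‖ ^ 2 = ‖a‖ ^ 2 + 2 * ⟪a, e⟫ + ‖e‖ ^ 2 := by rw [h1, norm_add_sq_real]
    rw [hvi, real_inner_comm, heK a haK] at h2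
    linarith
  · rw [he]; abel
  · intro j hj
    have hvj : v j ∈ K := Submodule.subset_span ⟨j, hj, rfl⟩
    exact ⟨heK _ hvj, hfL _ (hKL hvj)⟩

/-- Height of the base copy. -/
noncomputable def hgt (ρ t : ℝ) : ℝ := Real.sqrt (1 - t ^ 2 * ρ ^ 2)

/-- Base copy of a point of norm `ρ` at scale `t`. -/
noncomputable def bw (ρ t : ℝ) (x : Eu d) : Eu (d + 1) := emb (hgt ρ t) (t • x)

lemma hgt_sq {ρ t : ℝ} (h : t * ρ ≤ 1) (h0 : 0 ≤ t * ρ) : hgt ρ t ^ 2 = 1 - t ^ 2 * ρ ^ 2 := by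
  unfold hgt
  rw [Real.sq_sqrt]
  nlinarith

lemma hgt_nonneg (ρ t : ℝ) : 0 ≤ hgt ρ t := Real.sqrt_nonneg _

lemma hgt_le_one (ρ t : ℝ) : hgt ρ t ≤ 1 := by
  unfold hgt
  apply Real.sqrt_le_one.2
  nlinarith [mul_nonneg (sq_nonneg t) (sq_nonneg ρ)]

lemma hgt_ge {ρ t : ℝ} (h : t * ρ ≤ 1) (h0 : 0 ≤ t * ρ) : 1 - t * ρ ≤ hgt ρ t := by
  have h1 := hgt_sq h h0
  have h2 := hgt_nonneg ρ t
  by_contra hlt
  push Not at hlt
  have h3 : hgt ρ t ^ 2 < (1 - t * ρ) ^ 2 := by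
    apply pow_lt_pow_left₀ hlt h2 two_ne_zero
  nlinarith

lemma norm_bw {ρ t : ℝ} (h : t * ρ ≤ 1) (h0 : 0 ≤ t * ρ) {x : Eu d} (hx : ‖x‖ = ρ) :
    ‖bw ρ t x‖ = 1 := by
  have h1 := norm_emb_sq (hgt ρ t) (t • x)
  rw [hgt_sq h h0, norm_smul, hx, mul_pow, Real.norm_eq_abs, sq_abs] at h1
  have h2 : 0 ≤ ‖bw ρ t x‖ := norm_nonneg _
  unfold bw at *
  nlinarith

lemma bw_sub (ρ t : ℝ) (x y : Eu d) : bw ρ t x - bw ρ t y = t • emb 0 (x - y) := by
  unfold bw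
  rw [← emb_sub, sub_self, ← smul_sub, ← emb_smul, mul_zero]

lemma norm_emb_zero (y : Eu d) : ‖emb 0 y‖ = ‖y‖ := by
  have h := norm_emb_sq 0 y
  have h2 : ‖emb 0 y‖ ^ 2 = ‖y‖ ^ 2 := by rw [h]; ring
  exact (pow_left_inj₀ (norm_nonneg _) (norm_nonneg _) two_ne_zero).1 h2

lemma norm_bw_sub {t : ℝ} (ht : 0 ≤ t) (ρ : ℝ) (x y : Eu d) :
    ‖bw ρ t x - bw ρ t y‖ = t * ‖x - y‖ := by
  rw [bw_sub, norm_smul, Real.norm_of_nonneg ht, norm_emb_zero]

lemma bw_eq (ρ t : ℝ) (x : Eu d) : bw ρ t x = hgt ρ t • nP d + t • emb 0 x := by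
  unfold bw nP
  rw [← emb_smul, ← emb_smul, ← emb_add, mul_one, mul_zero, add_zero, smul_zero, zero_add]

lemma norm_bw_sub_nP {ρ t : ℝ} (h : t * ρ ≤ 1) (h0 : 0 ≤ t * ρ) (ht : 0 ≤ t) {x : Eu d}
    (hx : ‖x‖ = ρ) : ‖bw ρ t x - nP d‖ ≤ 2 * (t * ρ) := by
  rw [bw_eq]
  have e : hgt ρ t • nP d + t • emb 0 x - nP d = (hgt ρ t - 1) • nP d + t • emb 0 x := by
    rw [sub_smul, one_smul]; abel
  rw [e]
  refine (norm_add_le _ _).trans ?_
  rw [norm_smul, norm_smul, norm_nP, norm_emb_zero, hx, Real.norm_of_nonneg ht, mul_one,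
    Real.norm_eq_abs, abs_sub_comm, abs_of_nonneg (by linarith [hgt_le_one ρ t])]
  linarith [hgt_ge h h0]

lemma hor_bw (ρ t : ℝ) (x : Eu d) : hor (bw ρ t x) = t • x := hor_emb _ _

/-- Movement of the base copy under an orthogonal map. -/
lemma act_bw_sub {α ρ t : ℝ} (ht : 0 ≤ t) (u : OG (d + 1))
    (h1 : ‖act u (nP d) - nP d‖ ≤ α * t) (h2 : ∀ x : Eu (d + 1), ‖act u x - x‖ ≤ α * ‖x‖)
    {x : Eu d} (hx : ‖x‖ = ρ) : ‖act u (bw ρ t x) - bw ρ t x‖ ≤ α * (1 + ρ) * t := by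
  rw [bw_eq, act_add, act_smul, act_smul]
  have e : hgt ρ t • act u (nP d) + t • act u (emb 0 x) - (hgt ρ t • nP d + t • emb 0 x) =
      hgt ρ t • (act u (nP d) - nP d) + t • (act u (emb 0 x) - emb 0 x) := by
    rw [smul_sub, smul_sub]; abel
  rw [e]
  refine (norm_add_le _ _).trans ?_
  rw [norm_smul, norm_smul, Real.norm_of_nonneg ht, Real.norm_of_nonneg (hgt_nonneg ρ t)]
  have h3 := h2 (emb 0 x)
  rw [norm_emb_zero, hx] at h3
  have h4 : hgt ρ t * ‖act u (nP d) - nP d‖ ≤ 1 * (α * t) := by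
    apply mul_le_mul (hgt_le_one ρ t) h1 (norm_nonneg _) zero_le_one
  have h5 : t * ‖act u (emb 0 x) - emb 0 x‖ ≤ t * (α * ρ) := by gcongr
  calc _ ≤ 1 * (α * t) + t * (α * ρ) := add_le_add h4 h5
    _ = α * (1 + ρ) * t := by ring

lemma exists_coeff {E : Type*} [AddCommGroup E] [Module ℝ E] {v : ι → E} {J : Finset ι} {z : E}
    (hz : z ∈ Submodule.span ℝ (v '' (J : Set ι))) : ∃ α : ι → ℝ, ∑ j ∈ J, α j • v j = z := by
  classical
  rw [Submodule.mem_span_image_finset_iff_exists_fun] at hz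
  obtain ⟨c, hc⟩ := hz
  refine ⟨fun l => if h : l ∈ J then c ⟨l, h⟩ else 0, ?_⟩
  rw [← hc, ← Finset.sum_coe_sort J]
  apply Finset.sum_congr rfl
  intro j _
  simp

/-- Distance from the span, at height one. -/
lemma exists_dist_lower {x : ι → Eu d} (hx : AffineIndependent ℝ x) {J : Finset ι} {i : ι}
    (hi : i ∉ J) : ∃ c : ℝ, 0 < c ∧ ∀ α : ι → ℝ,
      c ≤ ‖emb 1 (x i) - ∑ j ∈ J, α j • emb 1 (x j)‖ := by
  classical
  set K : Submodule ℝ (Eu (d + 1)) := Submodule.span ℝ ((fun j => emb 1 (x j)) '' (J : Set ι))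
    with hK
  have hnot : emb 1 (x i) ∉ (K : Set (Eu (d + 1))) := by
    intro hmem
    rw [SetLike.mem_coe, hK] at hmem
    obtain ⟨α, hα⟩ := exists_coeff hmem
    have h0 : ∑ j ∈ J, α j = 1 := by
      have := congrArg (fun v : Eu (d + 1) => v 0) hα
      simp only [WithLp.ofLp_sum, Finset.sum_apply, PiLp.smul_apply, emb_zero_apply, smul_eq_mul,
        mul_one] at this
      exact this
    have h1 : ∑ j ∈ J, α j • x j = x i := by
      ext k
      have := congrArg (fun v : Eu (d + 1) => v k.succ) hα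
      simp only [WithLp.ofLp_sum, Finset.sum_apply, PiLp.smul_apply, emb_succ_apply,
        smul_eq_mul] at this
      simp only [WithLp.ofLp_sum, Finset.sum_apply, PiLp.smul_apply, smul_eq_mul]
      exact this
    set w : ι → ℝ := fun l => if l = i then 1 else - α l with hw
    have h2 := (affineIndependent_iff.1 hx) (insert i J) w (by
      rw [Finset.sum_insert hi]
      have : ∑ l ∈ J, w l = ∑ l ∈ J, - α l := by
        apply Finset.sum_congr rfl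
        intro l hl
        have hne : l ≠ i := fun h => hi (h ▸ hl)
        rw [hw]
        simp [hne]
      rw [this, Finset.sum_neg_distrib, h0]
      simp) (by
      rw [Finset.sum_insert hi]
      have : ∑ l ∈ J, w l • x l = ∑ l ∈ J, - (α l • x l) := by
        apply Finset.sum_congr rfl
        intro l hl
        have hne : l ≠ i := fun h => hi (h ▸ hl)
        rw [hw]
        simp [hne]
      rw [this, Finset.sum_neg_distrib, h1]
      simp [w]) i (Finset.mem_insert_self _ _)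
    simp [w] at h2
  have hclosed : IsClosed (K : Set (Eu (d + 1))) := K.closed_of_finiteDimensional
  have hne : (K : Set (Eu (d + 1))).Nonempty := ⟨0, K.zero_mem⟩
  refine ⟨infDist (emb 1 (x i)) K, (hclosed.notMem_iff_infDist_pos hne).1 hnot, fun α => ?_⟩
  rw [← dist_eq_norm]
  apply infDist_le_dist_of_mem
  exact Submodule.sum_mem _ fun j hj => Submodule.smul_mem _ _ (Submodule.subset_span ⟨j, hj, rfl⟩)

lemma dist_span_bw {x : ι → Eu d} {J : Finset ι} {i : ι} {c : ℝ}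
    (hc : ∀ α : ι → ℝ, c ≤ ‖emb 1 (x i) - ∑ j ∈ J, α j • emb 1 (x j)‖) {ρ t : ℝ} (ht : 0 ≤ t)
    (htρ : t ≤ hgt ρ t) : ∀ z ∈ Submodule.span ℝ ((fun l => bw ρ t (x l)) '' (J : Set ι)),
      c * t ≤ ‖bw ρ t (x i) - z‖ := by
  classical
  intro z hz
  obtain ⟨α, rfl⟩ := exists_coeff hz
  set q : Eu (d + 1) := emb 1 (x i) - ∑ j ∈ J, α j • emb 1 (x j) with hq
  have e : bw ρ t (x i) - ∑ j ∈ J, α j • bw ρ t (x j) = emb (hgt ρ t * q 0) (t • hor q) := by
    ext k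
    refine Fin.cases ?_ (fun k => ?_) k
    · rw [emb_zero_apply, hq]
      simp only [bw, PiLp.sub_apply, WithLp.ofLp_sum, Finset.sum_apply, PiLp.smul_apply,
        emb_zero_apply, smul_eq_mul, mul_one]
      rw [mul_sub, mul_one, Finset.mul_sum]
      congr 1
      apply Finset.sum_congr rfl
      intro j _
      ring
    · rw [emb_succ_apply, PiLp.smul_apply, hor_apply, hq]
      simp only [bw, PiLp.sub_apply, WithLp.ofLp_sum, Finset.sum_apply, PiLp.smul_apply,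
        emb_succ_apply, smul_eq_mul]
      rw [mul_sub, Finset.mul_sum]
      congr 1
      apply Finset.sum_congr rfl
      intro j _
      ring
  rw [e]
  have h1 : ‖emb (hgt ρ t * q 0) (t • hor q)‖ ^ 2 = (hgt ρ t * q 0) ^ 2 + (t * ‖hor q‖) ^ 2 := by
    rw [norm_emb_sq, norm_smul, Real.norm_of_nonneg ht]
  have h2 : ‖q‖ ^ 2 = q 0 ^ 2 + ‖hor q‖ ^ 2 := by
    have := norm_emb_sq (q 0) (hor q)
    rwa [emb_hor] at this
  have h3 : (t * ‖q‖) ^ 2 ≤ ‖emb (hgt ρ t * q 0) (t • hor q)‖ ^ 2 := by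
    rw [h1, mul_pow, h2, mul_add, mul_pow, mul_pow]
    have h4 : t ^ 2 ≤ hgt ρ t ^ 2 := pow_le_pow_left₀ ht htρ 2
    nlinarith [sq_nonneg (q 0)]
  have h4 : t * ‖q‖ ≤ ‖emb (hgt ρ t * q 0) (t • hor q)‖ :=
    (pow_le_pow_iff_left₀ (by positivity) (norm_nonneg _) two_ne_zero).1 h3
  refine le_trans ?_ h4
  rw [mul_comm]
  gcongr
  exact hc α

end SphLim
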