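import Pool.Agent.SphLim.Group

/-!
# Correlations on the sphere
-/

open MeasureTheory Filter Topology Metric
open scoped ENNReal Pointwise RealInnerProductSpace

namespace SphLim

variable {d : ℕ}

lemma exists_act_unit {n : ℕ} {v w : Eu n} (hv : ‖v‖ = 1) (hw : ‖w‖ = 1) :
    ∃ g : OG n, act g v = w := by
  obtain ⟨g, hg⟩ := exists_act_eq (fun _ : Unit => v) (fun _ : Unit => w) (by
    intro _ _
    rw [real_inner_self_eq_norm_sq, real_inner_self_eq_norm_sq, hv, hw])
  exact ⟨g, hg ()⟩

lemma measurable_act_left {n : ℕ} (x : Eu n) : Measurable fun g : OG n => act g x :=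
  (continuous_act_left x).measurable

lemma sphMeas_ae_norm : ∀ᵐ x ∂(sphMeas d), ‖x‖ = 1 := by
  have h := sphMeas_compl_sphere (d := d)
  rw [← mem_ae_iff] at h
  filter_upwards [h] with x hx
  rwa [mem_sphere_iff_norm, sub_zero] at hx

theorem map_act {v : Eu (d + 1)} (hv : ‖v‖ = 1) :
    (haar (d + 1)).map (fun g => act g v) = sphMeas d := by
  ext A hA
  rw [Measure.map_apply (measurable_act_left v) hA]
  have hconst : ∀ w : Eu (d + 1), ‖w‖ = 1 →
      haar (d + 1) ((fun g => act g w) ⁻¹' A) = haar (d + 1) ((fun g => act g v) ⁻¹' A) := by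
    intro w hw
    obtain ⟨h, hh⟩ := exists_act_unit hv hw
    have e : (fun g => act g w) ⁻¹' A = (fun g => g * h) ⁻¹' ((fun g => act g v) ⁻¹' A) := by
      ext g
      simp only [Set.mem_preimage]
      rw [act_mul, hh]
    rw [e, measure_preimage_mul_right]
  have h1 : ∫⁻ w, haar (d + 1) ((fun g => act g w) ⁻¹' A) ∂(sphMeas d) =
      haar (d + 1) ((fun g => act g v) ⁻¹' A) := by
    rw [lintegral_congr_ae (g := fun _ => haar (d + 1) ((fun g => act g v) ⁻¹' A))]
    · rw [lintegral_const, measure_univ, mul_one]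
    · filter_upwards [sphMeas_ae_norm (d := d)] with w hw
      exact hconst w hw
  rw [← h1]
  have hm : Measurable (Function.uncurry fun (w : Eu (d + 1)) (g : OG (d + 1)) =>
      A.indicator (1 : Eu (d + 1) → ℝ≥0∞) (act g w)) :=
    (measurable_one.indicator hA).comp (measurable_act.comp measurable_swap)
  have h2 : ∀ w : Eu (d + 1), haar (d + 1) ((fun g => act g w) ⁻¹' A) =
      ∫⁻ g, A.indicator (1 : Eu (d + 1) → ℝ≥0∞) (act g w) ∂(haar (d + 1)) := by
    intro w
    have e : (fun g => A.indicator (1 : Eu (d + 1) → ℝ≥0∞) (act g w)) =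
        ((fun g => act g w) ⁻¹' A).indicator 1 := rfl
    rw [e, lintegral_indicator_one ((measurable_act_left w) hA)]
  have h3 : ∀ g : OG (d + 1), ∫⁻ w, A.indicator (1 : Eu (d + 1) → ℝ≥0∞) (act g w) ∂(sphMeas d) =
      sphMeas d A := by
    intro g
    have e : (fun w => A.indicator (1 : Eu (d + 1) → ℝ≥0∞) (act g w)) =
        ((toLIE g) ⁻¹' A).indicator 1 := rfl
    rw [e, lintegral_indicator_one ((toLIE g).continuous.measurable hA),
      (sphMeas_preserving (toLIE g)).measure_preimage hA.nullMeasurableSet]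
  simp_rw [h2]
  rw [lintegral_lintegral_swap hm.aemeasurable]
  simp_rw [h3]
  rw [lintegral_const, measure_univ, mul_one]

lemma integral_act {v : Eu (d + 1)} (hv : ‖v‖ = 1) {f : Eu (d + 1) → ℝ} (hf : Measurable f) :
    ∫ g, f (act g v) ∂(haar (d + 1)) = ∫ x, f x ∂(sphMeas d) := by
  rw [← map_act hv, integral_map (measurable_act_left v).aemeasurable
    hf.aestronglyMeasurable]

lemma haar_act_mem {v : Eu (d + 1)} (hv : ‖v‖ = 1) {A : Set (Eu (d + 1))}
    (hA : MeasurableSet A) : haar (d + 1) {g | act g v ∈ A} = sphMeas d A := by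
  rw [← map_act hv, Measure.map_apply (measurable_act_left v) hA]
  rfl

lemma cap_pos {x : Eu (d + 1)} (hx : ‖x‖ = 1) {s : ℝ} (hs : 0 < s) :
    0 < sphMeas d (closedBall x s) := by
  rw [← haar_act_mem hx isClosed_closedBall.measurableSet]
  have ho : IsOpen {g : OG (d + 1) | act g x ∈ ball x s} :=
    isOpen_ball.preimage (continuous_act_left x)
  have hne : {g : OG (d + 1) | act g x ∈ ball x s}.Nonempty :=
    ⟨1, by simpa [act_one] using hs⟩
  refine lt_of_lt_of_le (ho.measure_pos (haar (d + 1)) hne) (measure_mono ?_)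
  intro g hg
  exact ball_subset_closedBall hg

/-- Correlation. -/
noncomputable def corr (h : Eu (d + 1) → ℝ) (v w : Eu (d + 1)) : ℝ :=
  ∫ g, h (act g v) * h (act g w) ∂(haar (d + 1))

lemma corr_eq (h : Eu (d + 1) → ℝ) {v w v' w' : Eu (d + 1)} (hv : ‖v‖ = 1) (hw : ‖w‖ = 1)
    (hv' : ‖v'‖ = 1) (hw' : ‖w'‖ = 1) (hi : ⟪v, w⟫ = ⟪v', w'⟫) : corr h v w = corr h v' w' := by
  obtain ⟨k, hk⟩ := exists_act_eq (fun b : Bool => cond b v w) (fun b : Bool => cond b v' w') (by
    intro i j
    cases i <;> cases j <;>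
      simp [hv, hw, hv', hw', hi, real_inner_comm v w,
        real_inner_comm v' w'])
  have h1 : act k v = v' := hk true
  have h2 : act k w = w' := hk false
  unfold corr
  rw [← integral_haar_mul_right k]
  simp_rw [act_mul, h1, h2]

lemma abs_corr_le {h : Eu (d + 1) → ℝ} (hm : Measurable h) (hb : ∀ x, |h x| ≤ 1)
    {v : Eu (d + 1)} (w : Eu (d + 1)) (hv : ‖v‖ = 1) :
    |corr h v w| ≤ ∫ x, |h x| ∂(sphMeas d) := by
  unfold corr
  rw [← integral_act hv (f := fun x => |h x|) hm.abs]
  rw [← Real.norm_eq_abs]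
  refine (norm_integral_le_integral_norm _).trans ?_
  apply integral_mono_of_nonneg (Eventually.of_forall fun _ => norm_nonneg _)
  · refine Integrable.of_bound ((hm.abs.comp (measurable_act_left v)).aestronglyMeasurable) 1
      (Eventually.of_forall fun g => ?_)
    simpa using hb _
  · refine Eventually.of_forall fun g => ?_
    simp only [norm_mul, Real.norm_eq_abs]
    calc |h (act g v)| * |h (act g w)| ≤ |h (act g v)| * 1 := by
          gcongr
          exact hb _
      _ = _ := mul_one _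

lemma exists_orthonormal_pair (hd : 1 ≤ d) : ∃ v w : Eu (d + 1), ‖v‖ = 1 ∧ ‖w‖ = 1 ∧ ⟪v, w⟫ = 0 := by
  obtain ⟨k, rfl⟩ : ∃ k, d = k + 1 := ⟨d - 1, by omega⟩
  refine ⟨EuclideanSpace.single 0 1, EuclideanSpace.single 1 1, by simp, by simp, ?_⟩
  simp [EuclideanSpace.inner_single_left]

/-- The correlation is a measurable function of the inner product. -/
lemma exists_corr_fun (hd : 1 ≤ d) {h : Eu (d + 1) → ℝ} (hm : Measurable h)
    (hb : ∀ x, |h x| ≤ 1) :
    ∃ Γ : ℝ → ℝ, Measurable Γ ∧ (∀ c, |Γ c| ≤ ∫ x, |h x| ∂(sphMeas d)) ∧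
      ∀ v w : Eu (d + 1), ‖v‖ = 1 → ‖w‖ = 1 → corr h v w = Γ ⟪v, w⟫ := by
  obtain ⟨v0, w0, hv0, hw0, hvw0⟩ := exists_orthonormal_pair hd
  refine ⟨fun c => corr h v0 (c • v0 + Real.sqrt (1 - c ^ 2) • w0), ?_, ?_, ?_⟩
  · unfold corr
    have h1 : Measurable fun p : ℝ × OG (d + 1) =>
        h (act p.2 v0) * h (act p.2 (p.1 • v0 + Real.sqrt (1 - p.1 ^ 2) • w0)) := by
      apply Measurable.mul
      · exact hm.comp ((measurable_act_left v0).comp measurable_snd)
      · apply hm.comp
        have hc : Measurable fun p : ℝ × OG (d + 1) =>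
            (p.2, p.1 • v0 + Real.sqrt (1 - p.1 ^ 2) • w0) := by
          refine measurable_snd.prodMk ?_
          have : Continuous fun c : ℝ => c • v0 + Real.sqrt (1 - c ^ 2) • w0 := by fun_prop
          exact this.measurable.comp measurable_fst
        exact measurable_act.comp hc
    exact (h1.stronglyMeasurable.integral_prod_right').measurable
  · intro c
    exact abs_corr_le hm hb _ hv0
  · intro v w hv hw
    set c := ⟪v, w⟫ with hc
    have hc1 : |c| ≤ 1 := by
      have := abs_real_inner_le_norm v w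
      rwa [hv, hw, one_mul] at this
    have hc2 : c ^ 2 ≤ 1 := by
      rw [← sq_abs]
      exact pow_le_one₀ (abs_nonneg _) hc1
    refine corr_eq h hv hw hv0 ?_ ?_
    · have h3 : ‖c • v0 + Real.sqrt (1 - c ^ 2) • w0‖ ^ 2 = 1 := by
        rw [norm_add_sq_real, norm_smul, norm_smul, hv0, hw0, inner_smul_left, inner_smul_right,
          hvw0]
        simp only [mul_one, Real.norm_eq_abs, sq_abs, mul_zero, add_zero]
        rw [Real.sq_sqrt (by linarith)]
        ring
      have h4 : (0 : ℝ) ≤ ‖c • v0 + Real.sqrt (1 - c ^ 2) • w0‖ := norm_nonneg _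
      nlinarith
    · rw [inner_add_right, inner_smul_right, inner_smul_right, hvw0, real_inner_self_eq_norm_sq,
        hv0]
      simp [hc]

end SphLim
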