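import Mathlib

/-!
# Small-scale limit of spherical independence densities (MP_1d8c1e_co): definitions
-/

open MeasureTheory Filter Topology Metric

namespace SphLim

/-- Euclidean space of dimension `n`. -/
abbrev Eu (n : ℕ) : Type := EuclideanSpace ℝ (Fin n)

/-- `P` and `Q` are congruent: some isometry of the ambient space maps `P` onto `Q`. -/
def Congr {n : ℕ} (P Q : Set (Eu n)) : Prop := ∃ g : Eu n ≃ᵢ Eu n, g '' P = Q

/-- `A` avoids `P`: no subset of `A` is congruent to `P`. -/
def Avoids {n : ℕ} (A P : Set (Eu n)) : Prop := ∀ Q : Set (Eu n), Q ⊆ A → ¬ Congr P Q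

/-- The cube `[-T,T]^n`. -/
def cube (n : ℕ) (T : ℝ) : Set (Eu n) := {x | ∀ i, |x i| ≤ T}

/-- Upper density of a subset of `ℝ^n`. -/
noncomputable def upperDensity {n : ℕ} (A : Set (Eu n)) : ℝ :=
  limsup (fun T : ℝ => (volume (A ∩ cube n T)).toReal / (2 * T) ^ n) atTop

/-- Euclidean independence density. -/
noncomputable def mEuc (d : ℕ) (P : Set (Eu d)) : ℝ :=
  sSup {s : ℝ | ∃ A : Set (Eu d), MeasurableSet A ∧ Avoids A P ∧ s = upperDensity A}

/-- The rotation-invariant probability of a subset of the unit sphere of `ℝ^(d+1)`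
(normalised surface measure). -/
noncomputable def sphProb (d : ℕ) (A : Set (Eu (d + 1))) : ℝ :=
  ((volume : Measure (Eu (d + 1))).toSphere ((↑) ⁻¹' A) /
    (volume : Measure (Eu (d + 1))).toSphere Set.univ).toReal

/-- Spherical independence density. -/
noncomputable def mSph (d : ℕ) (P : Set (Eu (d + 1))) : ℝ :=
  sSup {s : ℝ | ∃ A : Set (Eu (d + 1)), A ⊆ sphere (0 : Eu (d + 1)) 1 ∧ MeasurableSet A ∧
    Avoids A P ∧ s = sphProb d A}

end SphLim
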