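import Pool.Agent.SphLim.Geo

/-!
# Estimates at scale `t`
-/

open MeasureTheory Filter Topology Metric
open scoped ENNReal Pointwise RealInnerProductSpace Real

namespace SphLim

variable {d : ℕ}

lemma inner_unit {n : ℕ} {x y : Eu n} (hx : ‖x‖ = 1) (hy : ‖y‖ = 1) :
    ⟪x, y⟫ = 1 - ‖x - y‖ ^ 2 / 2 := by
  rw [norm_sub_sq_real, hx, hy]
  ring

lemma height_eq {x : Eu (d + 1)} (hx : ‖x‖ = 1) : x 0 = 1 - ‖x - nP d‖ ^ 2 / 2 := by
  rw [← inner_nP x, real_inner_comm, inner_unit hx norm_nP]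

lemma hor_nP : hor (nP d) = 0 := hor_emb _ _

lemma norm_hor_le' (x : Eu (d + 1)) : ‖hor x‖ ≤ ‖x - nP d‖ := by
  have h := norm_hor_le (x - nP d)
  rwa [hor_sub, hor_nP, sub_zero] at h

lemma height_ge {x : Eu (d + 1)} (hx : ‖x‖ = 1) {M t : ℝ} (hM : M * t ≤ 1)
    (h : ‖x - nP d‖ ≤ M * t) : 1 / 2 ≤ x 0 := by
  rw [height_eq hx]
  have h0 : 0 ≤ ‖x - nP d‖ := norm_nonneg _
  have : ‖x - nP d‖ ≤ 1 := h.trans hM
  nlinarith

lemma pj_est {x : Eu (d + 1)} (hx : ‖x‖ = 1) {M t : ℝ} (ht : 0 < t) (hM : M * t ≤ 1)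
    (h : ‖x - nP d‖ ≤ M * t) :
    ‖pj t x‖ ≤ 2 * M ∧ ‖pj t x - t⁻¹ • hor x‖ ≤ M ^ 3 * t ^ 2 := by
  have hx0 := height_ge hx hM h
  have hx0' : 0 < x 0 := by linarith
  have hn0 : 0 ≤ ‖x - nP d‖ := norm_nonneg _
  have hM0 : 0 ≤ M := by
    by_contra hneg
    push Not at hneg
    have := mul_neg_of_neg_of_pos hneg ht
    linarith
  have hh : ‖hor x‖ ≤ M * t := (norm_hor_le' x).trans h
  constructor
  · unfold pj
    rw [norm_smul, norm_inv, Real.norm_of_nonneg (by positivity), inv_mul_le_iff₀ (by positivity)]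
    have h1 : M * t ≤ t * x 0 * (2 * M) := by
      have : 0 ≤ M * t := by positivity
      nlinarith
    linarith
  · unfold pj
    rw [← sub_smul, norm_smul]
    have e1 : (t * x 0)⁻¹ - t⁻¹ = t⁻¹ * ((1 - x 0) / x 0) := by
      field_simp
    rw [e1, norm_mul, norm_inv, Real.norm_of_nonneg ht.le]
    have h2 : 1 - x 0 = ‖x - nP d‖ ^ 2 / 2 := by
      rw [height_eq hx]; ring
    have h3 : ‖(1 - x 0) / x 0‖ ≤ (M * t) ^ 2 := by
      rw [h2, Real.norm_of_nonneg (by positivity), div_le_iff₀ hx0']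
      have h4 : ‖x - nP d‖ ^ 2 ≤ (M * t) ^ 2 := pow_le_pow_left₀ hn0 h 2
      nlinarith [sq_nonneg (M * t)]
    calc t⁻¹ * ‖(1 - x 0) / x 0‖ * ‖hor x‖ ≤ t⁻¹ * (M * t) ^ 2 * (M * t) := by gcongr
      _ = M ^ 3 * t ^ 2 := by field_simp

lemma norm_ct_sub (t : ℝ) (y : Eu d) : ‖ct t y - nP d‖ ≤ |t| * ‖y‖ := by
  have h1 : ‖ct t y - nP d‖ ^ 2 = 2 - 2 * (nn (t • y))⁻¹ := by
    rw [norm_sub_sq_real, norm_ct, norm_nP, real_inner_comm, inner_nP]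
    have : ct t y 0 = (nn (t • y))⁻¹ := by
      unfold ct
      rw [pt_eq, PiLp.smul_apply, emb_zero_apply, smul_eq_mul, mul_one]
    rw [this]
    ring
  have h2 := nn_sq (t • y)
  rw [norm_smul, Real.norm_eq_abs] at h2
  have h3 := one_le_nn (t • y)
  have h4 : 2 - 2 * (nn (t • y))⁻¹ ≤ nn (t • y) ^ 2 - 1 := by
    have h5 : 0 < nn (t • y) := nn_pos _
    have h6 : (nn (t • y))⁻¹ * nn (t • y) = 1 := inv_mul_cancel₀ h5.ne'
    have h7 : 0 < (nn (t • y))⁻¹ := inv_pos.2 h5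
    nlinarith [sq_nonneg (nn (t • y) - 1), mul_nonneg (sub_nonneg.2 h3) h7.le]
  have h5 : ‖ct t y - nP d‖ ^ 2 ≤ (|t| * ‖y‖) ^ 2 := by
    rw [h1]
    linarith
  exact (pow_le_pow_iff_left₀ (norm_nonneg _) (by positivity) two_ne_zero).1 h5

lemma nt_est {c x : Eu (d + 1)} (hc : ‖c‖ = 1) (hx : ‖x‖ = 1) (hc0 : 0 < c 0) :
    ‖nt c x - x - (c - nP d)‖ ≤ 4 * (‖c - nP d‖ + ‖x - nP d‖) ^ 2 := by
  set A := ‖c - nP d‖ with hA
  set B := ‖x - nP d‖ with hB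
  have hA0 : 0 ≤ A := norm_nonneg _
  have hB0 : 0 ≤ B := norm_nonneg _
  set D := ‖c - x‖ with hD
  have hD0 : 0 ≤ D := norm_nonneg _
  have hD1 : D ≤ A + B := by
    have e : c - x = (c - nP d) - (x - nP d) := by abel
    rw [hD, e]
    exact norm_sub_le _ _
  have h1 : x 0 = 1 - B ^ 2 / 2 := height_eq hx
  have h2 : c 0 = 1 - A ^ 2 / 2 := height_eq hc
  have h3 : ⟪c, x⟫ = 1 - D ^ 2 / 2 := inner_unit hc hx
  set α := (x 0 + ⟪c, x⟫) / (1 + c 0) with hα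
  have hpos : 0 < 1 + c 0 := by linarith
  have hone : 1 ≤ 1 + c 0 := by linarith
  have e1 : nt c x - x - (c - nP d) = (1 - α) • nP d + (2 * x 0 - 1 - α) • c := by
    unfold nt
    rw [← hα, sub_smul, sub_smul, sub_smul, one_smul, one_smul, smul_add]
    abel
  have hα1 : |1 - α| ≤ A ^ 2 / 2 + B ^ 2 / 2 + D ^ 2 / 2 := by
    have e2 : 1 - α = (B ^ 2 / 2 + D ^ 2 / 2 - A ^ 2 / 2) / (1 + c 0) := by
      rw [hα, eq_div_iff hpos.ne', sub_mul, div_mul_cancel₀ _ hpos.ne', h1, h2, h3]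
      ring
    rw [e2, abs_div, abs_of_pos hpos]
    refine (div_le_self (abs_nonneg _) hone).trans ?_
    rw [abs_le]
    constructor <;> nlinarith [sq_nonneg A, sq_nonneg B, sq_nonneg D]
  have hα2 : |2 * x 0 - 1 - α| ≤ A ^ 2 / 2 + 3 * (B ^ 2 / 2) + D ^ 2 / 2 := by
    have e3 : 2 * x 0 - 1 - α = (1 - α) - B ^ 2 := by rw [h1]; ring
    rw [e3]
    have := abs_sub (1 - α) (B ^ 2)
    rw [abs_of_nonneg (sq_nonneg B)] at this
    linarith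
  rw [e1]
  refine (norm_add_le _ _).trans ?_
  rw [norm_smul, norm_smul, norm_nP, hc, mul_one, mul_one, Real.norm_eq_abs, Real.norm_eq_abs]
  nlinarith [mul_nonneg hA0 hB0, sq_nonneg (A + B), sq_nonneg D]

lemma pj_nt_est {t M : ℝ} (ht : 0 < t) (hM0 : 0 ≤ M) (hMt : 8 * M * t ≤ 1) {y : Eu d}
    (hy : ‖y‖ ≤ M) {x : Eu (d + 1)} (hx : ‖x‖ = 1) (hxM : ‖x - nP d‖ ≤ M * t) :
    ‖nt (ct t y) x - nP d‖ ≤ 4 * M * t ∧
      ‖pj t (nt (ct t y) x) - (y + pj t x)‖ ≤ 100 * M ^ 2 * t := by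
  set c := ct t y with hc
  have hc1 : ‖c‖ = 1 := norm_ct _ _
  have hc0 : 0 < c 0 := ct_zero_pos _ _
  have hcM : ‖c - nP d‖ ≤ M * t := by
    refine (norm_ct_sub t y).trans ?_
    rw [abs_of_pos ht]
    nlinarith
  set z := nt c x with hz
  have hz1 : ‖z‖ = 1 := by
    obtain ⟨g, hg⟩ := exists_nt hc1 hc0
    rw [hz, ← hg x, norm_act, hx]
  have hest := nt_est hc1 hx hc0
  rw [← hz] at hest
  have hsum : ‖c - nP d‖ + ‖x - nP d‖ ≤ 2 * (M * t) := by linarith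
  have hsum0 : 0 ≤ ‖c - nP d‖ + ‖x - nP d‖ := by positivity
  have hMt0 : 0 ≤ M * t := by positivity
  have hest2 : ‖z - x - (c - nP d)‖ ≤ 16 * (M * t) ^ 2 := by
    refine hest.trans ?_
    have := pow_le_pow_left₀ hsum0 hsum 2
    nlinarith
  have hz2 : ‖z - nP d‖ ≤ 4 * M * t := by
    have e : z - nP d = (z - x - (c - nP d)) + (x - nP d) + (c - nP d) := by abel
    rw [e]
    refine (norm_add₃_le).trans ?_
    nlinarith
  refine ⟨hz2, ?_⟩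
  have h1 := (pj_est hz1 ht (by linarith) hz2).2
  have h2 := (pj_est hx ht (by nlinarith) hxM).2
  have h3 := (pj_est hc1 ht (by nlinarith) hcM).2
  rw [hc, pj_ct ht] at h3
  have e : pj t z - (y + pj t x) = (pj t z - t⁻¹ • hor z) - (pj t x - t⁻¹ • hor x) -
      (y - t⁻¹ • hor c) + t⁻¹ • hor (z - x - (c - nP d)) := by
    rw [hor_sub, hor_sub, hor_sub, hor_nP, sub_zero, smul_sub, smul_sub]
    abel
  rw [e]
  have h4 : ‖t⁻¹ • hor (z - x - (c - nP d))‖ ≤ 16 * M ^ 2 * t := by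
    rw [norm_smul, norm_inv, Real.norm_of_nonneg ht.le]
    calc t⁻¹ * ‖hor (z - x - (c - nP d))‖ ≤ t⁻¹ * (16 * (M * t) ^ 2) := by
          gcongr
          exact (norm_hor_le _).trans hest2
      _ = 16 * M ^ 2 * t := by field_simp
  refine (norm_add_le _ _).trans ?_
  have h5 := norm_sub_le ((pj t z - t⁻¹ • hor z) - (pj t x - t⁻¹ • hor x)) (y - t⁻¹ • hor c)
  have h6 := norm_sub_le (pj t z - t⁻¹ • hor z) (pj t x - t⁻¹ • hor x)
  have h7 : (4 * M) ^ 3 * t ^ 2 ≤ 8 * M ^ 2 * t := by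
    have : (4 * M) ^ 3 * t ^ 2 = 8 * M ^ 2 * t * (8 * M * t) := by ring
    rw [this]
    have h8 : 0 ≤ 8 * M ^ 2 * t := by positivity
    nlinarith
  have h9 : M ^ 3 * t ^ 2 ≤ M ^ 2 * t := by
    have : M ^ 3 * t ^ 2 = M ^ 2 * t * (M * t) := by ring
    rw [this]
    have h8 : 0 ≤ M ^ 2 * t := by positivity
    nlinarith
  rw [← hc] at h3
  have h10 : 0 ≤ M ^ 2 * t := by positivity
  linarith

end SphLim
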