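import Pool.Agent.SphLim.Geo2

/-!
# The frame attached to a pair of points of the configuration
-/

open MeasureTheory Filter Topology Metric
open scoped ENNReal Pointwise RealInnerProductSpace Real

namespace SphLim

variable {d : ℕ} {ι : Type*}

/-- A unit vector orthogonal to at most `d` given vectors. -/
lemma exists_unit_orth {T : Finset (Eu (d + 1))} (hT : T.card ≤ d) :
    ∃ w : Eu (d + 1), ‖w‖ = 1 ∧ ∀ z ∈ T, ⟪w, z⟫ = 0 := by
  set L : Submodule ℝ (Eu (d + 1)) := Submodule.span ℝ (T : Set (Eu (d + 1))) with hL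
  have hLfin : Module.finrank ℝ L ≤ d := (finrank_span_finset_le_card T).trans hT
  have hLperp : 0 < Module.finrank ℝ Lᗮ := by
    have h1 := Submodule.finrank_add_finrank_orthogonal L
    rw [finrank_euclideanSpace, Fintype.card_fin] at h1
    omega
  have : Nontrivial Lᗮ := Module.finrank_pos_iff.1 hLperp
  obtain ⟨⟨w, hw⟩, hw0⟩ := exists_ne (0 : Lᗮ)
  have hwne : w ≠ 0 := fun h => hw0 (by simpa using h)
  have hwn : 0 < ‖w‖ := norm_pos_iff.2 hwne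
  refine ⟨‖w‖⁻¹ • w, by rw [norm_smul, norm_inv, norm_norm, inv_mul_cancel₀ hwn.ne'], ?_⟩
  intro z hz
  rw [inner_smul_left, real_inner_comm, (Submodule.mem_orthogonal L w).1 hw z
    (Submodule.subset_span hz), mul_zero]

/-- The normalised component orthogonal to a subspace. -/
lemma exists_unit_comp (K : Submodule ℝ (Eu (d + 1))) {a : Eu (d + 1)} {r0 : ℝ} (hr0 : 0 < r0)
    (hdist : ∀ z ∈ K, r0 ≤ ‖a - z‖) : ∃ (e : Eu (d + 1)) (p : ℝ), r0 ≤ p ∧ ‖e‖ = 1 ∧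
      ⟪e, a⟫ = p ∧ (∀ z ∈ K, ⟪e, z⟫ = 0) ∧ ∃ z0 ∈ K, e = p⁻¹ • (a - z0) := by
  set b : Eu (d + 1) := K.starProjection a with hb
  have hbK : b ∈ K := Submodule.starProjection_apply_mem _ _
  have hK : ∀ z ∈ K, ⟪a - b, z⟫ = 0 := by
    intro z hz
    exact Submodule.starProjection_inner_eq_zero (K := K) a z hz
  have hr := hdist b hbK
  have hp : 0 < ‖a - b‖ := lt_of_lt_of_le hr0 hr
  refine ⟨‖a - b‖⁻¹ • (a - b), ‖a - b‖, hr, ?_, ?_, ?_, b, hbK, rfl⟩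
  · rw [norm_smul, norm_inv, norm_norm, inv_mul_cancel₀ hp.ne']
  · rw [inner_smul_left]
    have h1 : ⟪a - b, a⟫ = ‖a - b‖ ^ 2 := by
      have h2 : ⟪a - b, a⟫ = ⟪a - b, a - b⟫ + ⟪a - b, b⟫ := by
        rw [← inner_add_right]; congr 1; abel
      rw [h2, hK b hbK, real_inner_self_eq_norm_sq, add_zero]
    rw [h1]
    simp only [conj_trivial]
    field_simp
  · intro z hz
    rw [inner_smul_left, hK z hz, mul_zero]

theorem exists_frame [DecidableEq ι] (hd : 4 ≤ d) {v : ι → Eu (d + 1)} {S : Finset ι} {i m j0 : ι}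
    (hi : ‖v i‖ = 1) (hm : ‖v m‖ = 1) (hj0 : j0 ∈ S) {r0 : ℝ} (hr0 : 0 < r0)
    (hda : ∀ z ∈ Submodule.span ℝ (v '' ((insert m S : Finset ι) : Set ι)), r0 ≤ ‖v i - z‖)
    (hdy : ∀ z ∈ Submodule.span ℝ (v '' (S : Set ι)), r0 ≤ ‖v m - z‖)
    (hDa : ‖v i - v j0‖ ≤ 1 / 8) (hDy : ‖v m - v j0‖ ≤ 1 / 8) :
    ∃ (e0 e1 e2 w : Eu (d + 1)) (A B p q g : ℝ), ‖e0‖ = 1 ∧ ‖e1‖ = 1 ∧ ‖e2‖ = 1 ∧ ‖w‖ = 1 ∧
      ⟪e0, e1⟫ = 0 ∧ ⟪e0, e2⟫ = 0 ∧ ⟪e1, e2⟫ = 0 ∧ ⟪w, e0⟫ = 0 ∧ ⟪w, e1⟫ = 0 ∧ ⟪w, e2⟫ = 0 ∧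
      v i = A • e0 + p • e1 + q • e2 ∧ ⟪e0, v m⟫ = B ∧ ⟪e1, v m⟫ = 0 ∧ ⟪e2, v m⟫ = g ∧
      ⟪w, v m⟫ = 0 ∧ r0 ≤ p ∧ 0 < g ∧ g ≤ 1 / 2 ∧ 1 / 2 ≤ B ∧
      ∀ j ∈ S, ⟪e1, v j⟫ = 0 ∧ ⟪e2, v j⟫ = 0 := by
  set K2 : Submodule ℝ (Eu (d + 1)) :=
    Submodule.span ℝ (v '' ((insert m S : Finset ι) : Set ι)) with hK2
  set K1 : Submodule ℝ (Eu (d + 1)) := Submodule.span ℝ (v '' (S : Set ι)) with hK1
  obtain ⟨e1, p, hp, he1, he1a, he1K, -⟩ := exists_unit_comp K2 hr0 hda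
  obtain ⟨e2, g, hg, he2, he2y, he2K, z0, hz0, he2z⟩ := exists_unit_comp K1 hr0 hdy
  have hp0 : 0 < p := lt_of_lt_of_le hr0 hp
  have hg0 : 0 < g := lt_of_lt_of_le hr0 hg
  have hK12 : K1 ≤ K2 := by
    rw [hK1, hK2]
    apply Submodule.span_mono
    apply Set.image_mono
    intro x hx
    exact Finset.mem_coe.2 (Finset.mem_insert_of_mem hx)
  have hmK2 : v m ∈ K2 := Submodule.subset_span ⟨m, by simp, rfl⟩
  have hjK1 : ∀ j ∈ S, v j ∈ K1 := fun j hj => Submodule.subset_span ⟨j, hj, rfl⟩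
  have he2K2 : e2 ∈ K2 := by
    rw [he2z]
    exact K2.smul_mem _ (K2.sub_mem hmK2 (hK12 hz0))
  have h12 : ⟪e1, e2⟫ = 0 := he1K _ he2K2
  have h21 : ⟪e2, e1⟫ = 0 := by rw [real_inner_comm]; exact h12
  have h11 : ⟪e1, e1⟫ = 1 := by rw [real_inner_self_eq_norm_sq, he1]; norm_num
  have h22 : ⟪e2, e2⟫ = 1 := by rw [real_inner_self_eq_norm_sq, he2]; norm_num
  set q : ℝ := ⟪e2, v i⟫ with hq
  set aS : Eu (d + 1) := v i - p • e1 - q • e2 with haS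
  have hpb : |p| ≤ 1 / 8 := by
    have h3 : p = ⟪e1, v i - v j0⟫ := by
      rw [inner_sub_right, he1a, he1K _ (hK12 (hjK1 j0 hj0)), sub_zero]
    rw [h3]
    refine (abs_real_inner_le_norm _ _).trans ?_
    rw [he1, one_mul]
    exact hDa
  have hqb : |q| ≤ 1 / 8 := by
    have h3 : q = ⟪e2, v i - v j0⟫ := by
      rw [inner_sub_right, ← hq, he2K _ (hjK1 j0 hj0), sub_zero]
    rw [h3]
    refine (abs_real_inner_le_norm _ _).trans ?_
    rw [he2, one_mul]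
    exact hDa
  have hgb : |g| ≤ 1 / 8 := by
    have h3 : g = ⟪e2, v m - v j0⟫ := by
      rw [inner_sub_right, he2y, he2K _ (hjK1 j0 hj0), sub_zero]
    rw [h3]
    refine (abs_real_inner_le_norm _ _).trans ?_
    rw [he2, one_mul]
    exact hDy
  have hae1 : ⟪v i, e1⟫ = p := by rw [real_inner_comm]; exact he1a
  have hae2 : ⟪v i, e2⟫ = q := by rw [real_inner_comm]
  have haa : ⟪v i, v i⟫ = 1 := by rw [real_inner_self_eq_norm_sq, hi]; norm_num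
  have hAsq : ‖aS‖ ^ 2 = 1 - p ^ 2 - q ^ 2 := by
    rw [← real_inner_self_eq_norm_sq, haS]
    simp only [inner_sub_left, inner_sub_right, inner_smul_left, inner_smul_right, h11, h22, h12,
      h21, hae1, hae2, haa, he1a, ← hq, conj_trivial]
    ring
  have hp2 : p ^ 2 ≤ 1 / 64 := by
    rw [← sq_abs]
    nlinarith [abs_nonneg p]
  have hq2 : q ^ 2 ≤ 1 / 64 := by
    rw [← sq_abs]
    nlinarith [abs_nonneg q]
  have hA0 : 0 < ‖aS‖ := by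
    refine lt_of_le_of_ne (norm_nonneg _) (fun h => ?_)
    rw [← h] at hAsq
    nlinarith
  have hA1 : ‖aS‖ ≤ 1 := by
    have h3 : ‖aS‖ ^ 2 ≤ 1 ^ 2 := by rw [hAsq]; nlinarith [sq_nonneg p, sq_nonneg q]
    exact (pow_le_pow_iff_left₀ (norm_nonneg _) zero_le_one two_ne_zero).1 h3
  set A : ℝ := ‖aS‖ with hA
  have haS1 : ⟪aS, e1⟫ = 0 := by
    rw [haS]
    simp only [inner_sub_left, inner_smul_left, h11, h21, hae1, conj_trivial]
    ring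
  have haS2 : ⟪aS, e2⟫ = 0 := by
    rw [haS]
    simp only [inner_sub_left, inner_smul_left, h22, h12, hae2, conj_trivial]
    ring
  obtain ⟨w, hw, hwT⟩ := exists_unit_orth (d := d) (T := {e1, e2, v i, v m}) (by
    refine le_trans ?_ hd
    exact Finset.card_le_four)
  have hwe1 : ⟪w, e1⟫ = 0 := hwT _ (by simp)
  have hwe2 : ⟪w, e2⟫ = 0 := hwT _ (by simp)
  have hwa : ⟪w, v i⟫ = 0 := hwT _ (by simp)
  have hwy : ⟪w, v m⟫ = 0 := hwT _ (by simp)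
  have hwaS : ⟪w, aS⟫ = 0 := by
    rw [haS]
    simp only [inner_sub_right, inner_smul_right, hwa, hwe1, hwe2]
    ring
  refine ⟨A⁻¹ • aS, e1, e2, w, A, ⟪A⁻¹ • aS, v m⟫, p, q, g, ?_, he1, he2, hw, ?_, ?_, h12, ?_,
    hwe1, hwe2, ?_, rfl, he1K _ hmK2, he2y, hwy, hp, hg0, ?_, ?_, ?_⟩
  · rw [norm_smul, norm_inv, Real.norm_of_nonneg hA0.le, ← hA, inv_mul_cancel₀ hA0.ne']
  · rw [inner_smul_left, haS1, mul_zero]
  · rw [inner_smul_left, haS2, mul_zero]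
  · rw [inner_smul_right, hwaS, mul_zero]
  · rw [smul_smul, mul_inv_cancel₀ hA0.ne', one_smul, haS]
    abel
  · linarith [le_abs_self g]
  · rw [inner_smul_left]
    simp only [conj_trivial]
    have h3 : ⟪aS, v m⟫ = ⟪v i, v m⟫ - q * g := by
      rw [haS]
      simp only [inner_sub_left, inner_smul_left, conj_trivial, he1K _ hmK2, he2y]
      ring
    have h4 : ‖v i - v m‖ ≤ 1 / 4 := by
      have e : v i - v m = (v i - v j0) - (v m - v j0) := by abel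
      rw [e]
      refine (norm_sub_le _ _).trans ?_
      linarith
    have h5 : ⟪v i, v m⟫ = 1 - ‖v i - v m‖ ^ 2 / 2 := inner_unit hi hm
    have h6 : ‖v i - v m‖ ^ 2 ≤ 1 / 16 := by nlinarith [norm_nonneg (v i - v m)]
    have h7 : q * g ≤ 1 / 64 := by
      refine (le_abs_self _).trans ?_
      rw [abs_mul]
      nlinarith [abs_nonneg q, abs_nonneg g]
    have h8 : 1 / 2 ≤ ⟪aS, v m⟫ := by
      rw [h3, h5]
      linarith
    refine h8.trans ?_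
    have h9 : 1 ≤ A⁻¹ := (one_le_inv₀ hA0).2 hA1
    nlinarith
  · intro j hj
    exact ⟨he1K _ (hK12 (hjK1 j hj)), he2K _ (hjK1 j hj)⟩

end SphLim
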