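import Pool.Agent.SphLim.Chart2

/-!
# Explicit orthogonal maps: near-translations and plane rotations
-/

open MeasureTheory Filter Topology Metric
open scoped ENNReal Pointwise RealInnerProductSpace Real

namespace SphLim

variable {d : ℕ}

/-- A linear map preserving norms is given by an element of the orthogonal group. -/
lemma exists_act_linear {n : ℕ} (T : Eu n →ₗ[ℝ] Eu n) (hT : ∀ x, ‖T x‖ = ‖x‖) :
    ∃ g : OG n, ∀ x, act g x = T x := by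
  let L : Eu n →ₗᵢ[ℝ] Eu n := ⟨T, hT⟩
  let E : Eu n ≃ₗᵢ[ℝ] Eu n := L.toLinearIsometryEquiv rfl
  refine ⟨Unitary.linearIsometryEquiv.symm E, fun x => ?_⟩
  rfl

/-- The near-translation taking the north pole to `c`. -/
noncomputable def nt (c v : Eu (d + 1)) : Eu (d + 1) :=
  v - ((v 0 + ⟪c, v⟫) / (1 + c 0)) • (nP d + c) + (2 * v 0) • c

lemma exists_nt {c : Eu (d + 1)} (hc : ‖c‖ = 1) (hc0 : 0 < c 0) :
    ∃ g : OG (d + 1), ∀ v, act g v = nt c v := by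
  have hadd : ∀ x y : Eu (d + 1), nt c (x + y) = nt c x + nt c y := by
    intro x y
    unfold nt
    rw [inner_add_right, PiLp.add_apply]
    have e : (x 0 + y 0 + (⟪c, x⟫ + ⟪c, y⟫)) / (1 + c 0) =
        (x 0 + ⟪c, x⟫) / (1 + c 0) + (y 0 + ⟪c, y⟫) / (1 + c 0) := by ring
    rw [e, add_smul, mul_add, add_smul]
    abel
  have hsmul : ∀ (a : ℝ) (x : Eu (d + 1)), nt c (a • x) = a • nt c x := by
    intro a x
    unfold nt
    rw [inner_smul_right, PiLp.smul_apply, smul_eq_mul]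
    have e : (a * x 0 + a * ⟪c, x⟫) / (1 + c 0) = a * ((x 0 + ⟪c, x⟫) / (1 + c 0)) := by ring
    have e3 : 2 * (a * x 0) = a * (2 * x 0) := by ring
    rw [e, e3, mul_smul, mul_smul, smul_add a, smul_sub a]
  let T : Eu (d + 1) →ₗ[ℝ] Eu (d + 1) :=
    { toFun := nt c
      map_add' := hadd
      map_smul' := hsmul }
  obtain ⟨g, hg⟩ := exists_act_linear T (by
    intro v
    have hnc : ⟪nP d, c⟫ = c 0 := inner_nP c
    have hnv : ⟪nP d, v⟫ = v 0 := inner_nP v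
    have hn1 : ‖nP d‖ = 1 := norm_nP
    have h1 : ‖nt c v‖ ^ 2 = ‖v‖ ^ 2 := by
      unfold nt
      set α := (v 0 + ⟪c, v⟫) / (1 + c 0) with hα
      have hα' : α * (1 + c 0) = v 0 + ⟪c, v⟫ := by
        rw [hα]
        field_simp
      rw [← real_inner_self_eq_norm_sq, ← real_inner_self_eq_norm_sq]
      simp only [inner_add_left, inner_add_right, inner_sub_left, inner_sub_right,
        inner_smul_left, inner_smul_right, real_inner_self_eq_norm_sq, hn1, hc, hnc, hnv,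
        real_inner_comm (nP d) c, real_inner_comm (nP d) v, real_inner_comm c v, conj_trivial]
      have hcv : ⟪c, v⟫ = α * (1 + c 0) - v 0 := by linarith
      rw [hcv]
      ring
    exact (pow_left_inj₀ (norm_nonneg _) (norm_nonneg _) two_ne_zero).1 h1)
  exact ⟨g, hg⟩

/-- The rotation in the plane of the orthogonal vectors `e, f` of length `r`. -/
noncomputable def rot (e f : Eu (d + 1)) (r θ : ℝ) (x : Eu (d + 1)) : Eu (d + 1) :=
  x + (((Real.cos θ - 1) * ⟪e, x⟫ - Real.sin θ * ⟪f, x⟫) / r ^ 2) • e +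
    ((Real.sin θ * ⟪e, x⟫ + (Real.cos θ - 1) * ⟪f, x⟫) / r ^ 2) • f

lemma rot_sub (e f : Eu (d + 1)) (r θ : ℝ) (x y : Eu (d + 1)) :
    rot e f r θ (x - y) = rot e f r θ x - rot e f r θ y := by
  unfold rot
  rw [inner_sub_right, inner_sub_right]
  have e1 : ((Real.cos θ - 1) * (⟪e, x⟫ - ⟪e, y⟫) - Real.sin θ * (⟪f, x⟫ - ⟪f, y⟫)) / r ^ 2 =
      ((Real.cos θ - 1) * ⟪e, x⟫ - Real.sin θ * ⟪f, x⟫) / r ^ 2 -
      ((Real.cos θ - 1) * ⟪e, y⟫ - Real.sin θ * ⟪f, y⟫) / r ^ 2 := by ring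
  have e2 : (Real.sin θ * (⟪e, x⟫ - ⟪e, y⟫) + (Real.cos θ - 1) * (⟪f, x⟫ - ⟪f, y⟫)) / r ^ 2 =
      (Real.sin θ * ⟪e, x⟫ + (Real.cos θ - 1) * ⟪f, x⟫) / r ^ 2 -
      (Real.sin θ * ⟪e, y⟫ + (Real.cos θ - 1) * ⟪f, y⟫) / r ^ 2 := by ring
  rw [e1, e2, sub_smul, sub_smul]
  abel

lemma rot_fix {e f x : Eu (d + 1)} (he : ⟪e, x⟫ = 0) (hf : ⟪f, x⟫ = 0) (r θ : ℝ) :
    rot e f r θ x = x := by
  unfold rot
  rw [he, hf]
  simp

lemma rot_circ {a e f : Eu (d + 1)} {r : ℝ} (hr : 0 < r) (hae : ⟪a, e⟫ = 0) (haf : ⟪a, f⟫ = 0)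
    (hef : ⟪e, f⟫ = 0) (he : ‖e‖ = r) (θ : ℝ) :
    rot e f r θ (a + e) = circ a e f θ := by
  unfold rot circ
  have h1 : ⟪e, a + e⟫ = r ^ 2 := by
    rw [inner_add_right, real_inner_comm a e, hae, real_inner_self_eq_norm_sq, he, zero_add]
  have h2 : ⟪f, a + e⟫ = 0 := by
    rw [inner_add_right, real_inner_comm a f, haf, real_inner_comm e f, hef, add_zero]
  rw [h1, h2, mul_zero, sub_zero, mul_zero, add_zero]
  have hr2 : r ^ 2 ≠ 0 := by positivity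
  rw [mul_div_assoc, div_self hr2, mul_one, mul_div_assoc, div_self hr2, mul_one, sub_smul,
    one_smul]
  abel

lemma norm_rot_sub_sq {e f : Eu (d + 1)} {r : ℝ} (hr : 0 < r) (hef : ⟪e, f⟫ = 0) (he : ‖e‖ = r)
    (hf : ‖f‖ = r) (θ : ℝ) (x : Eu (d + 1)) :
    ‖rot e f r θ x - x‖ ^ 2 = 2 * (1 - Real.cos θ) * ((⟪e, x⟫ ^ 2 + ⟪f, x⟫ ^ 2) / r ^ 2) := by
  unfold rot
  set p := ⟪e, x⟫
  set q := ⟪f, x⟫
  have hr2 : r ^ 2 ≠ 0 := by positivity
  have e1 : x + (((Real.cos θ - 1) * p - Real.sin θ * q) / r ^ 2) • e +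
    ((Real.sin θ * p + (Real.cos θ - 1) * q) / r ^ 2) • f - x =
    (((Real.cos θ - 1) * p - Real.sin θ * q) / r ^ 2) • e +
    ((Real.sin θ * p + (Real.cos θ - 1) * q) / r ^ 2) • f := by abel
  rw [e1, norm_add_sq_real, norm_smul, norm_smul, inner_smul_left, inner_smul_right, hef, he, hf]
  simp only [mul_zero, add_zero, Real.norm_eq_abs, mul_pow, sq_abs, conj_trivial]
  have hs := Real.sin_sq_add_cos_sq θ
  field_simp
  have hs2 : Real.sin θ ^ 2 = 1 - Real.cos θ ^ 2 := by linarith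
  ring_nf
  rw [hs2]
  ring

lemma exists_rot {e f : Eu (d + 1)} {r : ℝ} (hr : 0 < r) (hef : ⟪e, f⟫ = 0) (he : ‖e‖ = r)
    (hf : ‖f‖ = r) (θ : ℝ) : ∃ g : OG (d + 1), ∀ v, act g v = rot e f r θ v := by
  have hadd : ∀ x y : Eu (d + 1), rot e f r θ (x + y) = rot e f r θ x + rot e f r θ y := by
    intro x y
    unfold rot
    rw [inner_add_right, inner_add_right]
    have e1 : ((Real.cos θ - 1) * (⟪e, x⟫ + ⟪e, y⟫) - Real.sin θ * (⟪f, x⟫ + ⟪f, y⟫)) / r ^ 2 =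
        ((Real.cos θ - 1) * ⟪e, x⟫ - Real.sin θ * ⟪f, x⟫) / r ^ 2 +
        ((Real.cos θ - 1) * ⟪e, y⟫ - Real.sin θ * ⟪f, y⟫) / r ^ 2 := by ring
    have e2 : (Real.sin θ * (⟪e, x⟫ + ⟪e, y⟫) + (Real.cos θ - 1) * (⟪f, x⟫ + ⟪f, y⟫)) / r ^ 2 =
        (Real.sin θ * ⟪e, x⟫ + (Real.cos θ - 1) * ⟪f, x⟫) / r ^ 2 +
        (Real.sin θ * ⟪e, y⟫ + (Real.cos θ - 1) * ⟪f, y⟫) / r ^ 2 := by ring
    rw [e1, e2, add_smul, add_smul]
    abel
  have hsmul : ∀ (a : ℝ) (x : Eu (d + 1)), rot e f r θ (a • x) = a • rot e f r θ x := by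
    intro a x
    unfold rot
    rw [inner_smul_right, inner_smul_right]
    have e1 : ((Real.cos θ - 1) * (a * ⟪e, x⟫) - Real.sin θ * (a * ⟪f, x⟫)) / r ^ 2 =
        a * (((Real.cos θ - 1) * ⟪e, x⟫ - Real.sin θ * ⟪f, x⟫) / r ^ 2) := by ring
    have e2 : (Real.sin θ * (a * ⟪e, x⟫) + (Real.cos θ - 1) * (a * ⟪f, x⟫)) / r ^ 2 =
        a * ((Real.sin θ * ⟪e, x⟫ + (Real.cos θ - 1) * ⟪f, x⟫) / r ^ 2) := by ring
    rw [e1, e2, smul_add, smul_add, smul_smul, smul_smul]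
  let T : Eu (d + 1) →ₗ[ℝ] Eu (d + 1) :=
    { toFun := rot e f r θ
      map_add' := hadd
      map_smul' := hsmul }
  obtain ⟨g, hg⟩ := exists_act_linear T (by
    intro x
    have hr2 : r ^ 2 ≠ 0 := by positivity
    have h1 : ‖rot e f r θ x‖ ^ 2 = ‖x‖ ^ 2 := by
      have h2 := norm_rot_sub_sq hr hef he hf θ x
      have h3 : ‖rot e f r θ x‖ ^ 2 = ‖x‖ ^ 2 + 2 * ⟪x, rot e f r θ x - x⟫ +
          ‖rot e f r θ x - x‖ ^ 2 := by
        have : rot e f r θ x = x + (rot e f r θ x - x) := by abel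
        conv_lhs => rw [this]
        rw [norm_add_sq_real]
      rw [h3, h2]
      have h4 : ⟪x, rot e f r θ x - x⟫ =
          -(1 - Real.cos θ) * ((⟪e, x⟫ ^ 2 + ⟪f, x⟫ ^ 2) / r ^ 2) := by
        unfold rot
        have e1 : x + (((Real.cos θ - 1) * ⟪e, x⟫ - Real.sin θ * ⟪f, x⟫) / r ^ 2) • e +
          ((Real.sin θ * ⟪e, x⟫ + (Real.cos θ - 1) * ⟪f, x⟫) / r ^ 2) • f - x =
          (((Real.cos θ - 1) * ⟪e, x⟫ - Real.sin θ * ⟪f, x⟫) / r ^ 2) • e +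
          ((Real.sin θ * ⟪e, x⟫ + (Real.cos θ - 1) * ⟪f, x⟫) / r ^ 2) • f := by abel
        rw [e1, inner_add_right, inner_smul_right, inner_smul_right, real_inner_comm e x,
          real_inner_comm f x]
        field_simp
        ring
      rw [h4]
      ring
    exact (pow_left_inj₀ (norm_nonneg _) (norm_nonneg _) two_ne_zero).1 h1)
  exact ⟨g, hg⟩

lemma norm_rot_sub_le {e f : Eu (d + 1)} {r : ℝ} (hr : 0 < r) (hef : ⟪e, f⟫ = 0) (he : ‖e‖ = r)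
    (hf : ‖f‖ = r) (θ : ℝ) (x : Eu (d + 1)) :
    ‖rot e f r θ x - x‖ ≤ |θ| * ‖x‖ := by
  have h1 := norm_rot_sub_sq hr hef he hf θ x
  have hr2 : 0 < r ^ 2 := by positivity
  have hbess : (⟪e, x⟫ ^ 2 + ⟪f, x⟫ ^ 2) / r ^ 2 ≤ ‖x‖ ^ 2 := by
    rw [div_le_iff₀ hr2]
    set p := ⟪e, x⟫
    set q := ⟪f, x⟫
    have h0 : 0 ≤ ‖(r ^ 2) • x - p • e - q • f‖ ^ 2 := by positivity
    have h2 : ‖(r ^ 2) • x - p • e - q • f‖ ^ 2 =
        r ^ 2 * (r ^ 2 * ‖x‖ ^ 2 - (p ^ 2 + q ^ 2)) := by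
      rw [← real_inner_self_eq_norm_sq]
      have hpx : ⟪e, x⟫ = p := rfl
      have hqx : ⟪f, x⟫ = q := rfl
      have hpx' : ⟪x, e⟫ = p := by rw [real_inner_comm]
      have hqx' : ⟪x, f⟫ = q := by rw [real_inner_comm]
      have hfe : ⟪f, e⟫ = 0 := by rw [real_inner_comm]; exact hef
      simp only [inner_sub_left, inner_sub_right,
        inner_smul_left, inner_smul_right, real_inner_self_eq_norm_sq, he, hf, hef, hfe, hpx,
        hqx, hpx', hqx', conj_trivial]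
      ring
    rw [h2] at h0
    have h3 : 0 ≤ r ^ 2 * ‖x‖ ^ 2 - (p ^ 2 + q ^ 2) := by
      by_contra hneg
      push Not at hneg
      have := mul_neg_of_pos_of_neg hr2 hneg
      linarith
    linarith
  have hcos : 1 - Real.cos θ ≤ θ ^ 2 / 2 := by
    have := Real.one_sub_sq_div_two_le_cos (x := θ)
    linarith
  have hcos0 : 0 ≤ 1 - Real.cos θ := by linarith [Real.cos_le_one θ]
  have h2 : ‖rot e f r θ x - x‖ ^ 2 ≤ (|θ| * ‖x‖) ^ 2 := by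
    rw [h1, mul_pow, sq_abs]
    calc 2 * (1 - Real.cos θ) * ((⟪e, x⟫ ^ 2 + ⟪f, x⟫ ^ 2) / r ^ 2)
        ≤ 2 * (θ ^ 2 / 2) * ‖x‖ ^ 2 := by
          apply mul_le_mul (by linarith) hbess (by positivity) (by positivity)
      _ = θ ^ 2 * ‖x‖ ^ 2 := by ring
  exact (pow_le_pow_iff_left₀ (norm_nonneg _) (by positivity) two_ne_zero).1 h2

lemma continuous_rot (e f : Eu (d + 1)) (r : ℝ) (x : Eu (d + 1)) :
    Continuous fun θ : ℝ => rot e f r θ x := by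
  unfold rot
  fun_prop

end SphLim
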