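import Pool.Agent.SphLim.Circle

/-!
# Geometry of the doubled pair: four vectors in general position
-/

open MeasureTheory Filter Topology Metric
open scoped ENNReal Pointwise RealInnerProductSpace Real

namespace SphLim

variable {d : ℕ}

lemma inner_rot (e f z x : Eu (d + 1)) (r θ : ℝ) : ⟪z, rot e f r θ x⟫ = ⟪z, x⟫ +
    ((Real.cos θ - 1) * ⟪e, x⟫ - Real.sin θ * ⟪f, x⟫) / r ^ 2 * ⟪z, e⟫ +
    (Real.sin θ * ⟪e, x⟫ + (Real.cos θ - 1) * ⟪f, x⟫) / r ^ 2 * ⟪z, f⟫ := by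
  unfold rot
  rw [inner_add_right, inner_add_right, inner_smul_right, inner_smul_right]

/-- Composition of rotations in the same plane. -/
lemma rot_rot {e f : Eu (d + 1)} (he : ‖e‖ = 1) (hf : ‖f‖ = 1) (hef : ⟪e, f⟫ = 0) (θ θ' : ℝ)
    (x : Eu (d + 1)) : rot e f 1 θ (rot e f 1 θ' x) = rot e f 1 (θ + θ') x := by
  have hfe : ⟪f, e⟫ = 0 := by rw [real_inner_comm]; exact hef
  have hee : ⟪e, e⟫ = 1 := by rw [real_inner_self_eq_norm_sq, he]; norm_num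
  have hff : ⟪f, f⟫ = 1 := by rw [real_inner_self_eq_norm_sq, hf]; norm_num
  have h1 : ⟪e, rot e f 1 θ' x⟫ = Real.cos θ' * ⟪e, x⟫ - Real.sin θ' * ⟪f, x⟫ := by
    rw [inner_rot, hee, hef]; ring
  have h2 : ⟪f, rot e f 1 θ' x⟫ = Real.sin θ' * ⟪e, x⟫ + Real.cos θ' * ⟪f, x⟫ := by
    rw [inner_rot, hff, hfe]; ring
  conv_lhs => unfold rot
  change rot e f 1 θ' x + (((Real.cos θ - 1) * ⟪e, rot e f 1 θ' x⟫ -
    Real.sin θ * ⟪f, rot e f 1 θ' x⟫) / 1 ^ 2) • e +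
    ((Real.sin θ * ⟪e, rot e f 1 θ' x⟫ + (Real.cos θ - 1) * ⟪f, rot e f 1 θ' x⟫) / 1 ^ 2) • f = _
  rw [h1, h2]
  unfold rot
  rw [Real.cos_add, Real.sin_add]
  have e1 : x + (((Real.cos θ' - 1) * ⟪e, x⟫ - Real.sin θ' * ⟪f, x⟫) / 1 ^ 2) • e +
      ((Real.sin θ' * ⟪e, x⟫ + (Real.cos θ' - 1) * ⟪f, x⟫) / 1 ^ 2) • f +
      (((Real.cos θ - 1) * (Real.cos θ' * ⟪e, x⟫ - Real.sin θ' * ⟪f, x⟫) -
        Real.sin θ * (Real.sin θ' * ⟪e, x⟫ + Real.cos θ' * ⟪f, x⟫)) / 1 ^ 2) • e +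
      ((Real.sin θ * (Real.cos θ' * ⟪e, x⟫ - Real.sin θ' * ⟪f, x⟫) +
        (Real.cos θ - 1) * (Real.sin θ' * ⟪e, x⟫ + Real.cos θ' * ⟪f, x⟫)) / 1 ^ 2) • f =
      x + ((((Real.cos θ' - 1) * ⟪e, x⟫ - Real.sin θ' * ⟪f, x⟫) / 1 ^ 2) +
      (((Real.cos θ - 1) * (Real.cos θ' * ⟪e, x⟫ - Real.sin θ' * ⟪f, x⟫) -
        Real.sin θ * (Real.sin θ' * ⟪e, x⟫ + Real.cos θ' * ⟪f, x⟫)) / 1 ^ 2)) • e +
      (((Real.sin θ' * ⟪e, x⟫ + (Real.cos θ' - 1) * ⟪f, x⟫) / 1 ^ 2) +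
      ((Real.sin θ * (Real.cos θ' * ⟪e, x⟫ - Real.sin θ' * ⟪f, x⟫) +
        (Real.cos θ - 1) * (Real.sin θ' * ⟪e, x⟫ + Real.cos θ' * ⟪f, x⟫)) / 1 ^ 2)) • f := by
    rw [add_smul, add_smul]
    abel
  rw [e1]
  congr 2
  · congr 1
    ring_nf
  · ring_nf

lemma rot_zero (e f : Eu (d + 1)) (r : ℝ) (x : Eu (d + 1)) : rot e f r 0 x = x := by
  unfold rot
  simp

/-- Trigonometric factor. -/
noncomputable def Tf (φ φ' : ℝ) : ℝ :=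
  Real.sin φ * (1 - Real.cos (φ - φ')) - Real.sin (φ - φ') * (1 - Real.cos φ)

lemma Tf_eq (φ φ' : ℝ) : Tf φ φ' =
    -(4 * Real.sin (φ / 2) * Real.sin ((φ - φ') / 2) * Real.sin (φ' / 2)) := by
  unfold Tf
  set x := φ / 2 with hx
  set z := (φ - φ') / 2 with hz
  have e1 : φ = 2 * x := by rw [hx]; ring
  have e2 : φ - φ' = 2 * z := by rw [hz]; ring
  have e3 : φ' / 2 = x - z := by rw [hx, hz]; ring
  rw [e2, e1, e3, Real.sin_two_mul, Real.sin_two_mul, Real.cos_two_mul, Real.cos_two_mul,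
    Real.sin_sub]
  have h1 := Real.sin_sq_add_cos_sq x
  have h2 := Real.sin_sq_add_cos_sq z
  have h3 : Real.cos x ^ 2 = 1 - Real.sin x ^ 2 := by linarith
  have h4 : Real.cos z ^ 2 = 1 - Real.sin z ^ 2 := by linarith
  rw [h3, h4]
  ring

/-- The functional vanishing on three of the four vectors. -/
lemma functional_dist {τ ω ν' Y X0 X1 X2 : Eu (d + 1)} {u3 S C : ℝ} (hτ : ‖τ‖ = 1)
    (hω : ‖ω‖ = 1) (hτω : ⟪τ, ω⟫ = 0) (hωY : ⟪ω, Y⟫ = 0) (hω0 : ⟪ω, X0⟫ = 0)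
    (hω1 : ⟪ω, X1⟫ = 0) (hω2 : ⟪ω, X2⟫ = 0) (hων : ⟪ω, ν'⟫ = 0) (h1 : ⟪ν', X1⟫ = 0)
    (h2 : ⟪ν', X2⟫ = 0) {ψ : ℝ}
    (hu3 : Real.sin ψ * u3 = Real.cos ψ * ⟪ν', Y⟫ + (1 - Real.cos ψ) * (⟪τ, Y⟫ * ⟪ν', τ⟫))
    (hS : S = ⟪τ, Y⟫ * ⟪ν', X0⟫ - ⟪ν', Y⟫ * ⟪τ, X0⟫)
    (hC : |⟪τ, Y⟫| * ‖ν'‖ + |⟪ν', Y⟫| + |u3| ≤ C) (c1 c2 c3 : ℝ) :
    |S| ≤ C * ‖X0 - (c1 • Y + c2 • rot τ ω 1 ψ X1 + c3 • rot τ ω 1 ψ X2)‖ := by
  set u : Eu (d + 1) := ⟪τ, Y⟫ • ν' - ⟪ν', Y⟫ • τ + u3 • ω with hu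
  have hττ : ⟪τ, τ⟫ = 1 := by rw [real_inner_self_eq_norm_sq, hτ]; norm_num
  have hωω : ⟪ω, ω⟫ = 1 := by rw [real_inner_self_eq_norm_sq, hω]; norm_num
  have hωτ : ⟪ω, τ⟫ = 0 := by rw [real_inner_comm]; exact hτω
  have hνω : ⟪ν', ω⟫ = 0 := by rw [real_inner_comm]; exact hων
  have huz : ∀ z : Eu (d + 1), ⟪u, z⟫ = ⟪τ, Y⟫ * ⟪ν', z⟫ - ⟪ν', Y⟫ * ⟪τ, z⟫ + u3 * ⟪ω, z⟫ := by
    intro z
    rw [hu, inner_add_left, inner_sub_left, inner_smul_left, inner_smul_left, inner_smul_left]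
    simp
  have huY : ⟪u, Y⟫ = 0 := by rw [huz, hωY]; ring
  have hu0 : ⟪u, X0⟫ = S := by rw [huz, hω0, hS]; ring
  have huX : ∀ X : Eu (d + 1), ⟪ω, X⟫ = 0 → ⟪ν', X⟫ = 0 → ⟪u, rot τ ω 1 ψ X⟫ = 0 := by
    intro X hX1 hX2
    rw [inner_rot, huz X, huz τ, huz ω, hX1, hX2, hττ, hωω, hωτ, hτω, hνω]
    linear_combination ⟪τ, X⟫ * hu3
  have hfin : ⟪u, X0 - (c1 • Y + c2 • rot τ ω 1 ψ X1 + c3 • rot τ ω 1 ψ X2)⟫ = S := by
    rw [inner_sub_right, inner_add_right, inner_add_right, inner_smul_right, inner_smul_right,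
      inner_smul_right, huY, huX X1 hω1 h1, huX X2 hω2 h2, hu0]
    ring
  have hun : ‖u‖ ≤ C := by
    refine le_trans ?_ hC
    rw [hu]
    refine (norm_add_le _ _).trans ?_
    refine (add_le_add_left (norm_sub_le _ _) _).trans ?_
    rw [norm_smul, norm_smul, norm_smul, hτ, hω, mul_one, mul_one, Real.norm_eq_abs,
      Real.norm_eq_abs, Real.norm_eq_abs]
  rw [← hfin]
  refine (abs_real_inner_le_norm _ _).trans ?_
  gcongr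

theorem quad_dist {e0 e1 e2 w a y : Eu (d + 1)} {A B p q g : ℝ} (h0 : ‖e0‖ = 1)
    (h1 : ‖e1‖ = 1) (h2 : ‖e2‖ = 1) (hw : ‖w‖ = 1) (h01 : ⟪e0, e1⟫ = 0) (h02 : ⟪e0, e2⟫ = 0)
    (h12 : ⟪e1, e2⟫ = 0) (h0w : ⟪w, e0⟫ = 0) (h1w : ⟪w, e1⟫ = 0) (h2w : ⟪w, e2⟫ = 0)
    (ha : a = A • e0 + p • e1 + q • e2) (hy0 : ⟪e0, y⟫ = B) (hy1 : ⟪e1, y⟫ = 0)
    (hy2 : ⟪e2, y⟫ = g) (hyw : ⟪w, y⟫ = 0) (hp : 0 < p) (hg : 0 < g) (hg1 : g ≤ 1 / 2)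
    (hB : 1 / 2 ≤ B) :
    ∃ τ : Eu (d + 1), ‖τ‖ = 1 ∧ ⟪τ, w⟫ = 0 ∧ ⟪τ, a⟫ = 0 ∧ ⟪τ, y⟫ = 0 ∧ ⟪w, a⟫ = 0 ∧
      ∀ φ φ' ψ : ℝ, Real.sin ψ ≠ 0 → ∀ c1 c2 c3 : ℝ,
      |Tf φ φ'| * |Real.sin ψ| * p / 30 ≤ ‖rot e1 e2 1 φ a - (c1 • rot e1 e2 1 φ y +
        c2 • rot τ w 1 ψ (rot e1 e2 1 φ' a) + c3 • rot τ w 1 ψ (rot e1 e2 1 φ' y))‖ := by
  have h00 : ⟪e0, e0⟫ = 1 := by rw [real_inner_self_eq_norm_sq, h0]; norm_num
  have h11 : ⟪e1, e1⟫ = 1 := by rw [real_inner_self_eq_norm_sq, h1]; norm_num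
  have h22 : ⟪e2, e2⟫ = 1 := by rw [real_inner_self_eq_norm_sq, h2]; norm_num
  have h10 : ⟪e1, e0⟫ = 0 := by rw [real_inner_comm]; exact h01
  have h20 : ⟪e2, e0⟫ = 0 := by rw [real_inner_comm]; exact h02
  have h21 : ⟪e2, e1⟫ = 0 := by rw [real_inner_comm]; exact h12
  have hw0 : ⟪e0, w⟫ = 0 := by rw [real_inner_comm]; exact h0w
  have hw1 : ⟪e1, w⟫ = 0 := by rw [real_inner_comm]; exact h1w
  have hw2 : ⟪e2, w⟫ = 0 := by rw [real_inner_comm]; exact h2w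
  have ha0 : ⟪e0, a⟫ = A := by
    rw [ha]; simp only [inner_add_right, inner_smul_right, h00, h01, h02]; ring
  have ha1 : ⟪e1, a⟫ = p := by
    rw [ha]; simp only [inner_add_right, inner_smul_right, h10, h11, h12]; ring
  have ha2 : ⟪e2, a⟫ = q := by
    rw [ha]; simp only [inner_add_right, inner_smul_right, h20, h21, h22]; ring
  have haw : ⟪w, a⟫ = 0 := by
    rw [ha]; simp only [inner_add_right, inner_smul_right, h0w, h1w, h2w]; ring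
  set n0 : ℝ := p * g with hn0
  set n1 : ℝ := q * B - A * g with hn1
  set n2 : ℝ := -(p * B) with hn2
  set ν : Eu (d + 1) := n0 • e0 + n1 • e1 + n2 • e2 with hν
  have hνz : ∀ z : Eu (d + 1), ⟪ν, z⟫ = n0 * ⟪e0, z⟫ + n1 * ⟪e1, z⟫ + n2 * ⟪e2, z⟫ := by
    intro z
    rw [hν, inner_add_left, inner_add_left, inner_smul_left, inner_smul_left, inner_smul_left]
    simp
  have hνν : ‖ν‖ ^ 2 = n0 ^ 2 + n1 ^ 2 + n2 ^ 2 := by
    rw [← real_inner_self_eq_norm_sq, hνz]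
    have e0ν : ⟪e0, ν⟫ = n0 := by
      rw [hν]; simp only [inner_add_right, inner_smul_right, h00, h01, h02]; ring
    have e1ν : ⟪e1, ν⟫ = n1 := by
      rw [hν]; simp only [inner_add_right, inner_smul_right, h10, h11, h12]; ring
    have e2ν : ⟪e2, ν⟫ = n2 := by
      rw [hν]; simp only [inner_add_right, inner_smul_right, h20, h21, h22]; ring
    rw [e0ν, e1ν, e2ν]; ring
  have hpB : p / 2 ≤ p * B := by nlinarith
  have hn2ne : 0 < n2 ^ 2 := by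
    rw [hn2, neg_sq]
    have : 0 < p * B := by linarith
    positivity
  set N : ℝ := ‖ν‖ with hN
  have hN0 : 0 < N := by
    have h3 : 0 < N ^ 2 := by rw [hνν]; nlinarith [sq_nonneg n0, sq_nonneg n1]
    refine lt_of_le_of_ne (norm_nonneg _) (fun h => ?_)
    rw [← h] at h3
    norm_num at h3
  have hνa : ⟪ν, a⟫ = 0 := by
    rw [hνz, ha0, ha1, ha2, hn0, hn1, hn2]; ring
  have hνy : ⟪ν, y⟫ = 0 := by
    rw [hνz, hy0, hy1, hy2, hn0, hn1, hn2]; ring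
  have hνw : ⟪ν, w⟫ = 0 := by
    rw [hνz, hw0, hw1, hw2]; ring
  have hτz : ∀ z : Eu (d + 1), ⟪N⁻¹ • ν, z⟫ = N⁻¹ * ⟪ν, z⟫ := by
    intro z
    rw [inner_smul_left]
    simp
  have hτn : ‖N⁻¹ • ν‖ = 1 := by
    rw [norm_smul, norm_inv, Real.norm_of_nonneg hN0.le, ← hN, inv_mul_cancel₀ hN0.ne']
  refine ⟨N⁻¹ • ν, hτn, by rw [hτz, hνw, mul_zero], by rw [hτz, hνa, mul_zero],
    by rw [hτz, hνy, mul_zero], haw, ?_⟩
  intro φ φ' ψ hψ c1 c2 c3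
  have hrr : ∀ (θ : ℝ) (x z : Eu (d + 1)), ⟪rot e1 e2 1 θ x, rot e1 e2 1 θ z⟫ = ⟪x, z⟫ := by
    intro θ x z
    obtain ⟨G, hG⟩ := exists_rot (d := d) one_pos h12 h1 h2 θ
    rw [← hG, ← hG, inner_act]
  have hnr : ∀ (θ : ℝ) (x : Eu (d + 1)), ‖rot e1 e2 1 θ x‖ = ‖x‖ := by
    intro θ x
    obtain ⟨G, hG⟩ := exists_rot (d := d) one_pos h12 h1 h2 θ
    rw [← hG, norm_act]
  have hsplit : ∀ x : Eu (d + 1), rot e1 e2 1 φ x = rot e1 e2 1 φ' (rot e1 e2 1 (φ - φ') x) := by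
    intro x
    rw [rot_rot h1 h2 h12]
    congr 1
    ring
  have hYθ : ∀ θ : ℝ, ⟪ν, rot e1 e2 1 θ y⟫ = -(n1 * g * Real.sin θ) -
      n2 * g * (1 - Real.cos θ) := by
    intro θ
    rw [hνz, inner_rot, inner_rot, inner_rot, hy0, hy1, hy2, h01, h02, h11, h12, h21, h22, hn0,
      hn1, hn2]
    ring
  have hAθ : ∀ θ : ℝ, ⟪ν, rot e1 e2 1 θ a⟫ = (n2 * p - n1 * q) * Real.sin θ -
      (n1 * p + n2 * q) * (1 - Real.cos θ) := by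
    intro θ
    have h9 : n0 * A + n1 * p + n2 * q = 0 := by
      rw [hνz, ha0, ha1, ha2] at hνa
      exact hνa
    rw [hνz, inner_rot, inner_rot, inner_rot, ha0, ha1, ha2, h01, h02, h11, h12, h21, h22]
    linear_combination h9
  set ν' : Eu (d + 1) := rot e1 e2 1 φ' ν with hν'
  have hν'n : ‖ν'‖ = N := by rw [hν', hnr]
  have hν'r : ∀ x : Eu (d + 1), ⟪ν', rot e1 e2 1 φ x⟫ = ⟪ν, rot e1 e2 1 (φ - φ') x⟫ := by
    intro x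
    rw [hsplit x, hν', hrr]
  have hwr : ∀ (θ : ℝ) (x : Eu (d + 1)), ⟪w, x⟫ = 0 → ⟪w, rot e1 e2 1 θ x⟫ = 0 := by
    intro θ x hx
    rw [inner_rot, hx, h1w, h2w]
    ring
  have hwν : ⟪w, ν⟫ = 0 := by rw [real_inner_comm]; exact hνw
  have hn1N : |n1| ≤ N := by
    apply abs_le_of_sq_le_sq _ hN0.le
    rw [hνν]; nlinarith [sq_nonneg n0, sq_nonneg n2]
  have hn2N : |n2| ≤ N := by
    apply abs_le_of_sq_le_sq _ hN0.le
    rw [hνν]; nlinarith [sq_nonneg n0, sq_nonneg n1]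
  have hYb : ∀ θ : ℝ, |⟪ν, rot e1 e2 1 θ y⟫| ≤ 3 * g * N := by
    intro θ
    rw [hYθ]
    have k1 : |n1 * g * Real.sin θ| ≤ g * N := by
      rw [abs_mul, abs_mul, abs_of_pos hg]
      have := Real.abs_sin_le_one θ
      calc |n1| * g * |Real.sin θ| ≤ N * g * 1 := by gcongr
        _ = g * N := by ring
    have k2 : |n2 * g * (1 - Real.cos θ)| ≤ 2 * (g * N) := by
      rw [abs_mul, abs_mul, abs_of_pos hg]
      have h3 : |1 - Real.cos θ| ≤ 2 := by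
        rw [abs_le]
        constructor <;> linarith [Real.cos_le_one θ, Real.neg_one_le_cos θ]
      calc |n2| * g * |1 - Real.cos θ| ≤ N * g * 2 := by gcongr
        _ = 2 * (g * N) := by ring
    have k3 := abs_sub (-(n1 * g * Real.sin θ)) (n2 * g * (1 - Real.cos θ))
    rw [abs_neg] at k3
    linarith
  have hτY : |⟪N⁻¹ • ν, rot e1 e2 1 φ y⟫| ≤ 3 * g := by
    rw [hτz, abs_mul, abs_of_pos (inv_pos.2 hN0), inv_mul_le_iff₀ hN0]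
    linarith [hYb φ]
  have hν'Y : |⟪ν', rot e1 e2 1 φ y⟫| ≤ 3 * g * N := by
    rw [hν'r]
    exact hYb _
  have hsin0 : 0 < |Real.sin ψ| := abs_pos.2 hψ
  have hsin1 : |Real.sin ψ| ≤ 1 := Real.abs_sin_le_one ψ
  set u3 : ℝ := (Real.cos ψ * ⟪ν', rot e1 e2 1 φ y⟫ + (1 - Real.cos ψ) *
    (⟪N⁻¹ • ν, rot e1 e2 1 φ y⟫ * ⟪ν', N⁻¹ • ν⟫)) / Real.sin ψ with hu3
  have hgN : 0 < g * N := by positivity
  have hu3b : |u3| ≤ 9 * g * N / |Real.sin ψ| := by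
    rw [hu3, abs_div]
    apply div_le_div_of_nonneg_right _ hsin0.le
    refine (abs_add_le _ _).trans ?_
    rw [abs_mul, abs_mul, abs_mul]
    have k1 : |⟪ν', N⁻¹ • ν⟫| ≤ N := by
      have := abs_real_inner_le_norm ν' (N⁻¹ • ν)
      rw [hν'n, hτn, mul_one] at this
      exact this
    have k2 : |1 - Real.cos ψ| ≤ 2 := by
      rw [abs_le]
      constructor <;> linarith [Real.cos_le_one ψ, Real.neg_one_le_cos ψ]
    have k3 := Real.abs_cos_le_one ψ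
    have k4 : |Real.cos ψ| * |⟪ν', rot e1 e2 1 φ y⟫| ≤ 1 * (3 * g * N) := by
      apply mul_le_mul k3 hν'Y (abs_nonneg _) zero_le_one
    have k5 : |⟪N⁻¹ • ν, rot e1 e2 1 φ y⟫| * |⟪ν', N⁻¹ • ν⟫| ≤ (3 * g) * N := by
      apply mul_le_mul hτY k1 (abs_nonneg _) (by positivity)
    have k6 : |1 - Real.cos ψ| * (|⟪N⁻¹ • ν, rot e1 e2 1 φ y⟫| * |⟪ν', N⁻¹ • ν⟫|) ≤
        2 * ((3 * g) * N) := by
      apply mul_le_mul k2 k5 (by positivity) (by norm_num)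
    linarith
  have hfd := functional_dist (τ := N⁻¹ • ν) (ω := w) (ν' := ν') (Y := rot e1 e2 1 φ y)
    (X0 := rot e1 e2 1 φ a) (X1 := rot e1 e2 1 φ' a) (X2 := rot e1 e2 1 φ' y) (u3 := u3)
    (S := N⁻¹ * (Tf φ φ' * (g * p * (n1 ^ 2 + n2 ^ 2)))) (C := 15 * (g * N) / |Real.sin ψ|)
    hτn hw (by rw [hτz, hνw, mul_zero]) (hwr _ _ hyw) (hwr _ _ haw) (hwr _ _ haw) (hwr _ _ hyw)
    (hwr _ _ hwν) (by rw [hν', hrr, hνa]) (by rw [hν', hrr, hνy]) (ψ := ψ)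
    (by rw [hu3, mul_div_cancel₀ _ hψ]) (by
      rw [hτz, hτz, hν'r, hν'r, hYθ, hYθ, hAθ, hAθ]
      unfold Tf
      ring) (by
      have k1 : |⟪N⁻¹ • ν, rot e1 e2 1 φ y⟫| * ‖ν'‖ ≤ 3 * (g * N) := by
        rw [hν'n]
        nlinarith
      have k2 : 3 * (g * N) ≤ 3 * (g * N) / |Real.sin ψ| := by
        rw [le_div_iff₀ hsin0]
        nlinarith
      have k3 : 15 * (g * N) / |Real.sin ψ| = 3 * (g * N) / |Real.sin ψ| +
          3 * (g * N) / |Real.sin ψ| + 9 * g * N / |Real.sin ψ| := by ring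
      rw [k3]
      linarith) c1 c2 c3
  set D : ℝ := ‖rot e1 e2 1 φ a - (c1 • rot e1 e2 1 φ y +
        c2 • rot (N⁻¹ • ν) w 1 ψ (rot e1 e2 1 φ' a) +
        c3 • rot (N⁻¹ • ν) w 1 ψ (rot e1 e2 1 φ' y))‖ with hD
  have hD0 : 0 ≤ D := norm_nonneg _
  set M : ℝ := n1 ^ 2 + n2 ^ 2 with hM
  have hM0 : 0 < M := by nlinarith [sq_nonneg n1]
  rw [abs_mul, abs_mul, abs_of_pos (inv_pos.2 hN0), abs_of_pos (show 0 < g * p * M by positivity)]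
    at hfd
  have hNM : N ^ 2 ≤ 2 * M := by
    rw [hνν, hM]
    have h3 : n0 ^ 2 ≤ n2 ^ 2 := by
      rw [hn0, hn2, neg_sq]
      apply pow_le_pow_left₀ (by positivity)
      nlinarith
    nlinarith [sq_nonneg n1]
  rw [inv_mul_le_iff₀ hN0] at hfd
  have h5 : |Tf φ φ'| * (g * p * M) * |Real.sin ψ| ≤ N * (15 * (g * N)) * D := by
    have h6 : N * (15 * (g * N) / |Real.sin ψ| * D) * |Real.sin ψ| = N * (15 * (g * N)) * D := by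
      field_simp
    rw [← h6]
    exact mul_le_mul_of_nonneg_right hfd hsin0.le
  have h7 : |Tf φ φ'| * (g * p * M) * |Real.sin ψ| ≤ g * M * (30 * D) := by
    refine h5.trans ?_
    have : N * (15 * (g * N)) * D = N ^ 2 * (15 * g * D) := by ring
    rw [this]
    calc N ^ 2 * (15 * g * D) ≤ 2 * M * (15 * g * D) := by gcongr
      _ = g * M * (30 * D) := by ring
  have h8 : g * M * (|Tf φ φ'| * |Real.sin ψ| * p) ≤ g * M * (30 * D) := by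
    calc _ = |Tf φ φ'| * (g * p * M) * |Real.sin ψ| := by ring
      _ ≤ _ := h7
  have h9 := le_of_mul_le_mul_left h8 (by positivity)
  linarith

end SphLim
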