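import Pool.Agent.SphLim.LowerMain

/-!
# The orthogonal group, its Haar measure and its action on the sphere
-/

open MeasureTheory Filter Topology Metric
open scoped ENNReal Pointwise RealInnerProductSpace

namespace SphLim

/-- The orthogonal group of `ℝ^n`. -/
abbrev OG (n : ℕ) : Type := unitary (Eu n →L[ℝ] Eu n)

/-- The action on `ℝ^n`. -/
noncomputable def act {n : ℕ} (g : OG n) (x : Eu n) : Eu n := (g : Eu n →L[ℝ] Eu n) x

variable {n : ℕ}

lemma act_add (g : OG n) (x y : Eu n) : act g (x + y) = act g x + act g y := map_add _ _ _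
lemma act_sub (g : OG n) (x y : Eu n) : act g (x - y) = act g x - act g y := map_sub _ _ _
lemma act_smul (g : OG n) (c : ℝ) (x : Eu n) : act g (c • x) = c • act g x := map_smul _ _ _
lemma act_zero (g : OG n) : act g 0 = 0 := map_zero _
lemma act_mul (g h : OG n) (x : Eu n) : act (g * h) x = act g (act h x) := rfl
lemma act_one (x : Eu n) : act 1 x = x := rfl

lemma inner_act (g : OG n) (x y : Eu n) : ⟪act g x, act g y⟫ = ⟪x, y⟫ := by
  have := (Unitary.linearIsometryEquiv g).inner_map_map x y
  exact this

lemma norm_act (g : OG n) (x : Eu n) : ‖act g x‖ = ‖x‖ := by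
  have := (Unitary.linearIsometryEquiv g).norm_map x
  exact this

lemma dist_act (g : OG n) (x y : Eu n) : dist (act g x) (act g y) = dist x y := by
  rw [dist_eq_norm, dist_eq_norm, ← act_sub, norm_act]

lemma act_inv_act (g : OG n) (x : Eu n) : act g⁻¹ (act g x) = x := by
  rw [← act_mul, inv_mul_cancel, act_one]

lemma act_act_inv (g : OG n) (x : Eu n) : act g (act g⁻¹ x) = x := by
  rw [← act_mul, mul_inv_cancel, act_one]

lemma continuous_act : Continuous fun p : OG n × Eu n => act p.1 p.2 := by
  unfold act
  exact (continuous_subtype_val.comp continuous_fst).clm_apply continuous_snd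

lemma continuous_act_left (x : Eu n) : Continuous fun g : OG n => act g x :=
  continuous_act.comp (continuous_id.prodMk continuous_const)

lemma continuous_act_right (g : OG n) : Continuous fun x : Eu n => act g x :=
  continuous_act.comp (continuous_const.prodMk continuous_id)

lemma measurable_act : Measurable fun p : OG n × Eu n => act p.1 p.2 :=
  continuous_act.measurable

/-- The linear isometry given by an element of the orthogonal group. -/
noncomputable def toLIE (g : OG n) : Eu n ≃ₗᵢ[ℝ] Eu n := Unitary.linearIsometryEquiv g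

lemma toLIE_apply (g : OG n) (x : Eu n) : toLIE g x = act g x := rfl

instance instContinuousStarEu (n : ℕ) : ContinuousStar (Eu n →L[ℝ] Eu n) :=
  ⟨(ContinuousLinearMap.adjoint (𝕜 := ℝ) (E := Eu n) (F := Eu n)).continuous⟩

instance : CompactSpace (OG n) := by
  apply isCompact_iff_compactSpace.1
  apply Metric.isCompact_of_isClosed_isBounded
  · exact isClosed_unitary
  · rw [Metric.isBounded_iff_subset_closedBall 0]
    refine ⟨1, ?_⟩
    intro g hg
    rw [mem_closedBall, dist_zero_right]
    apply ContinuousLinearMap.opNorm_le_bound _ zero_le_one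
    intro x
    have := norm_act (⟨g, hg⟩ : OG n) x
    rw [one_mul]
    exact this.le

/-- Haar probability measure. -/
noncomputable def haar (n : ℕ) : Measure (OG n) := Measure.haarMeasure ⊤

instance : (haar n).IsHaarMeasure := by unfold haar; infer_instance

instance : IsProbabilityMeasure (haar n) := ⟨by
  unfold haar
  have := Measure.haarMeasure_self (K₀ := (⊤ : TopologicalSpace.PositiveCompacts (OG n)))
  simpa using this⟩

instance : (haar n).IsMulRightInvariant := ⟨fun g => by
  have hm : Measurable (fun x : OG n => x * g) := (continuous_mul_const g).measurable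
  have h2 : IsProbabilityMeasure (Measure.map (· * g) (haar n)) :=
    Measure.isProbabilityMeasure_map hm.aemeasurable
  exact Measure.isHaarMeasure_eq_of_isProbabilityMeasure _ _⟩

lemma integral_haar_mul_right {f : OG n → ℝ} (h : OG n) :
    ∫ g, f (g * h) ∂(haar n) = ∫ g, f g ∂(haar n) := integral_mul_right_eq_self f h

lemma integral_haar_mul_left {f : OG n → ℝ} (h : OG n) :
    ∫ g, f (h * g) ∂(haar n) = ∫ g, f g ∂(haar n) := integral_mul_left_eq_self f h

/-- Families with the same inner products are related by an orthogonal transformation. -/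
theorem exists_act_eq {ι : Type*} [Fintype ι] (v w : ι → Eu n)
    (h : ∀ i j, ⟪v i, v j⟫ = ⟪w i, w j⟫) : ∃ g : OG n, ∀ i, act g (v i) = w i := by
  have hnorm : ∀ i, ‖v i‖ = ‖w i‖ := by
    intro i
    have h1 := h i i
    rw [real_inner_self_eq_norm_sq, real_inner_self_eq_norm_sq] at h1
    exact (pow_left_inj₀ (norm_nonneg _) (norm_nonneg _) two_ne_zero).1 h1
  have hd : ∀ i j, dist (v i) (v j) = dist (w i) (w j) := by
    intro i j
    have h1 : dist (v i) (v j) ^ 2 = dist (w i) (w j) ^ 2 := by
      rw [dist_eq_norm, dist_eq_norm, norm_sub_sq_real, norm_sub_sq_real, h i j, hnorm i, hnorm j]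
    exact (pow_left_inj₀ dist_nonneg dist_nonneg two_ne_zero).1 h1
  let v' : Option ι → Eu n := fun o => o.elim 0 v
  let w' : Option ι → Eu n := fun o => o.elim 0 w
  obtain ⟨g, hg⟩ := exists_isometry_of_dist_eq v' w' (by
    intro i j
    cases i with
    | none =>
      cases j with
      | none => simp [v', w']
      | some j => simp [v', w', hnorm]
    | some i =>
      cases j with
      | none => simp [v', w', hnorm]
      | some j => simpa [v', w'] using hd i j)
  have hg0 : g 0 = 0 := by simpa [v', w'] using hg none
  let L := g.toRealLinearIsometryEquivOfMapZero hg0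
  refine ⟨Unitary.linearIsometryEquiv.symm L, fun i => ?_⟩
  have h1 : act (Unitary.linearIsometryEquiv.symm L) (v i) = L (v i) := rfl
  rw [h1]
  have h2 : L (v i) = g (v i) := rfl
  rw [h2]
  simpa [v', w'] using hg (some i)

end SphLim
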