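import Pool.Agent.SphLim.CapMeas

/-!
# The key estimate for one telescoping term
-/

open MeasureTheory Filter Topology Metric
open scoped ENNReal Pointwise RealInnerProductSpace Real

namespace SphLim

variable {d : ℕ} {ι : Type*} [Fintype ι]

/-- One factor of the localising weight. -/
noncomputable def psf (p : Eu (d + 1)) (lam : ℝ) (y : Eu (d + 1)) : ℝ :=
  max 0 (1 - ‖y - p‖ / lam)

lemma psf_nonneg (p : Eu (d + 1)) (lam : ℝ) (y : Eu (d + 1)) : 0 ≤ psf p lam y := le_max_left _ _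

lemma psf_le_one (p : Eu (d + 1)) {lam : ℝ} (hl : 0 < lam) (y : Eu (d + 1)) :
    psf p lam y ≤ 1 := by
  unfold psf
  apply max_le zero_le_one
  have : 0 ≤ ‖y - p‖ / lam := by positivity
  linarith

lemma continuous_psf (p : Eu (d + 1)) (lam : ℝ) : Continuous (psf p lam) := by
  unfold psf
  exact continuous_const.max (continuous_const.sub ((continuous_id.sub continuous_const).norm.div_const
    _))

lemma psf_supp {p : Eu (d + 1)} {lam : ℝ} (hl : 0 < lam) {y : Eu (d + 1)}
    (h : psf p lam y ≠ 0) : ‖y - p‖ ≤ lam := by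
  by_contra hlt
  push Not at hlt
  apply h
  unfold psf
  apply max_eq_left
  have h2 : 1 ≤ ‖y - p‖ / lam := by
    rw [le_div_iff₀ hl]
    linarith
  linarith

lemma psf_lip {p : Eu (d + 1)} {lam : ℝ} (hl : 0 < lam) (y z : Eu (d + 1)) :
    |psf p lam y - psf p lam z| ≤ ‖y - z‖ / lam := by
  have key : ∀ x y : ℝ, |max 0 x - max 0 y| ≤ |x - y| := by
    intro x y
    have h1 := abs_max_sub_max_le_abs x y 0
    rwa [max_comm x, max_comm y] at h1
  unfold psf
  refine (key _ _).trans ?_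
  have e : (1 - ‖y - p‖ / lam) - (1 - ‖z - p‖ / lam) = (‖z - p‖ - ‖y - p‖) / lam := by
    ring
  rw [e, abs_div, abs_of_pos hl]
  gcongr
  refine (abs_norm_sub_norm_le _ _).trans ?_
  have e2 : z - p - (y - p) = -(y - z) := by abel
  rw [e2, norm_neg]

omit [Fintype ι] in
lemma abs_prod_sub_prod_le (s : Finset ι) {a b : ι → ℝ} (ha : ∀ l, 0 ≤ a l ∧ a l ≤ 1)
    (hb : ∀ l, 0 ≤ b l ∧ b l ≤ 1) : |∏ l ∈ s, a l - ∏ l ∈ s, b l| ≤ ∑ l ∈ s, |a l - b l| := by
  classical
  induction s using Finset.induction_on with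
  | empty => simp
  | insert i s hi ih =>
    rw [Finset.prod_insert hi, Finset.prod_insert hi, Finset.sum_insert hi]
    have e : a i * ∏ l ∈ s, a l - b i * ∏ l ∈ s, b l =
        (a i - b i) * ∏ l ∈ s, a l + b i * (∏ l ∈ s, a l - ∏ l ∈ s, b l) := by ring
    rw [e]
    have h1 : 0 ≤ ∏ l ∈ s, a l := Finset.prod_nonneg fun l _ => (ha l).1
    have h2 : ∏ l ∈ s, a l ≤ 1 := Finset.prod_le_one (fun l _ => (ha l).1) fun l _ => (ha l).2
    calc _ ≤ |(a i - b i) * ∏ l ∈ s, a l| + |b i * (∏ l ∈ s, a l - ∏ l ∈ s, b l)| :=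
          abs_add_le _ _
      _ = |a i - b i| * ∏ l ∈ s, a l + b i * |∏ l ∈ s, a l - ∏ l ∈ s, b l| := by
          rw [abs_mul, abs_mul, abs_of_nonneg h1, abs_of_nonneg (hb i).1]
      _ ≤ |a i - b i| * 1 + 1 * |∏ l ∈ s, a l - ∏ l ∈ s, b l| := by
          have := (hb i).2
          gcongr
      _ ≤ _ := by
          rw [mul_one, one_mul]
          gcongr

/-- The localising weight. -/
noncomputable def Psi (v p : ι → Eu (d + 1)) (lam : ℝ) (g : OG (d + 1)) : ℝ :=
  ∏ l, psf (p l) lam (act g (v l))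

lemma Psi_nonneg (v p : ι → Eu (d + 1)) (lam : ℝ) (g : OG (d + 1)) : 0 ≤ Psi v p lam g :=
  Finset.prod_nonneg fun _ _ => psf_nonneg _ _ _

lemma Psi_le_one (v p : ι → Eu (d + 1)) {lam : ℝ} (hl : 0 < lam) (g : OG (d + 1)) :
    Psi v p lam g ≤ 1 :=
  Finset.prod_le_one (fun _ _ => psf_nonneg _ _ _) fun _ _ => psf_le_one _ hl _

lemma continuous_Psi (v p : ι → Eu (d + 1)) (lam : ℝ) : Continuous (Psi v p lam) := by
  unfold Psi
  exact continuous_finsetProd _ fun l _ => (continuous_psf _ _).comp (continuous_act_left (v l))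

lemma Psi_supp {v p : ι → Eu (d + 1)} {lam : ℝ} (hl : 0 < lam) {g : OG (d + 1)}
    (h : Psi v p lam g ≠ 0) (l : ι) : ‖act g (v l) - p l‖ ≤ lam := by
  refine psf_supp hl fun h0 => h ?_
  exact Finset.prod_eq_zero (Finset.mem_univ l) h0

lemma Psi_lip {v p : ι → Eu (d + 1)} {lam : ℝ} (hl : 0 < lam) {R : OG (d + 1)} {D : ℝ}
    (hD : ∀ l, ‖act R (v l) - v l‖ ≤ D) (g : OG (d + 1)) :
    |Psi v p lam (g * R) - Psi v p lam g| ≤ Fintype.card ι * D / lam := by
  unfold Psi
  refine (abs_prod_sub_prod_le _ (fun l => ⟨psf_nonneg _ _ _, psf_le_one _ hl _⟩)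
    (fun l => ⟨psf_nonneg _ _ _, psf_le_one _ hl _⟩)).trans ?_
  calc ∑ l, |psf (p l) lam (act (g * R) (v l)) - psf (p l) lam (act g (v l))| ≤
        ∑ _l : ι, D / lam := by
        apply Finset.sum_le_sum
        intro l _
        refine (psf_lip hl _ _).trans ?_
        gcongr
        rw [act_mul, ← act_sub, norm_act]
        exact hD l
    _ = Fintype.card ι * D / lam := by
        rw [Finset.sum_const, nsmul_eq_mul, Finset.card_univ]
        ring

theorem key_term (hd : 1 ≤ d) {h : Eu (d + 1) → ℝ} (hm : Measurable h) (hb : ∀ x, |h x| ≤ 1)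
    {a e f : Eu (d + 1)} {r : ℝ} (hr : 0 < r) (hae : ⟪a, e⟫ = 0) (haf : ⟪a, f⟫ = 0)
    (hef : ⟪e, f⟫ = 0) (he : ‖e‖ = r) (hf : ‖f‖ = r) (ha : ‖a‖ ^ 2 + r ^ 2 = 1)
    {v p : ι → Eu (d + 1)} (hv : ∀ l, ‖v l‖ = 1) {i j0 : ι} {J : Finset ι} (hj0 : j0 ∈ J)
    (hi : v i = a + e) (hperp : ∀ j ∈ J, ⟪e, v j⟫ = 0 ∧ ⟪f, v j⟫ = 0)
    {H : OG (d + 1) → ℝ} (hHm : Measurable H) (hHb : ∀ g, |H g| ≤ 1)
    (hHinv : ∀ g R : OG (d + 1), (∀ j ∈ J, act R (v j) = v j) → H (g * R) = H g)
    {D lam : ℝ} (hD : ∀ l, ‖v l - v j0‖ ≤ D) (hl : 0 < lam)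
    {η s s0 ε : ℝ} (hη : 0 < η) (hs : 0 < s) (hsr : s / r + s ^ 2 / (2 * r ^ 2) ≤ s0)
    (hT : ∀ Φ : ℝ → ℝ, Measurable Φ → (∀ x, |Φ x| ≤ 1) →
      ∀ α β γ : ℝ, |α| ≤ s0 → |β - 1| ≤ s0 → |γ| ≤ s0 →
      |∫ x, Φ (Real.cos x) ∂(Qeta η) -
        ∫ x, Φ (α + β * Real.cos x + γ * Real.sin x) ∂(Qeta η)| ≤ ε)
    {δ : ℝ} (hδ : 0 < δ) :
    |∫ g, Psi v p lam g * H g * h (act g (v i)) ∂(haar (d + 1))| ≤
      (Fintype.card ι * D * η / lam) * (sphMeas d).real (closedBall (p j0) lam) +
      δ / 2 * (sphMeas d).real (closedBall (p j0) lam) +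
      (ε * (∫ x, |h x| ∂(sphMeas d)) / η ^ 2 + ∫ x, |capAvg h s x| ∂(sphMeas d)) / (2 * δ) := by
  set m0 := (sphMeas d).real (closedBall (p j0) lam) with hm0
  set N1 := ∫ x, |h x| ∂(sphMeas d) with hN1
  set C1 := ∫ x, |capAvg h s x| ∂(sphMeas d) with hC1
  set I := ∫ g, Psi v p lam g * H g * h (act g (v i)) ∂(haar (d + 1)) with hI
  have hD0 : 0 ≤ D := (norm_nonneg _).trans (hD j0)
  choose R hR using fun θ => exists_rot (d := d) hr hef he hf θ
  have hRi : ∀ θ, act (R θ) (v i) = circ a e f θ := by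
    intro θ
    rw [hR, hi, rot_circ hr hae haf hef he]
  have hRj : ∀ θ, ∀ j ∈ J, act (R θ) (v j) = v j := by
    intro θ j hj
    rw [hR, rot_fix (hperp j hj).1 (hperp j hj).2]
  have hRl : ∀ θ l, ‖act (R θ) (v l) - v l‖ ≤ |θ| * D := by
    intro θ l
    have e1 : act (R θ) (v l) - v l = act (R θ) (v l - v j0) - (v l - v j0) := by
      rw [act_sub, hRj θ j0 hj0]
      abel
    rw [e1, hR]
    refine (norm_rot_sub_le hr hef he hf θ _).trans ?_
    gcongr
    exact hD l
  set DD : Set (OG (d + 1)) := {g | act g (v j0) ∈ closedBall (p j0) lam} with hDD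
  have hDDm : MeasurableSet DD := (measurable_act_left (v j0)) isClosed_closedBall.measurableSet
  have hDDv : (haar (d + 1)).real DD = m0 := by
    rw [hm0]
    unfold Measure.real
    rw [hDD, haar_act_mem (hv j0) isClosed_closedBall.measurableSet]
  have hsupp : ∀ g, g ∉ DD → Psi v p lam g = 0 := by
    intro g hg
    by_contra h0
    apply hg
    rw [hDD]
    change act g (v j0) ∈ closedBall (p j0) lam
    rw [mem_closedBall, dist_eq_norm]
    exact Psi_supp hl h0 j0
  have hDDR : ∀ g θ, g * R θ ∈ DD ↔ g ∈ DD := by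
    intro g θ
    change act (g * R θ) (v j0) ∈ closedBall (p j0) lam ↔ act g (v j0) ∈ closedBall (p j0) lam
    rw [act_mul, hRj θ j0 hj0]
  -- joint measurability
  set Ψ2 : OG (d + 1) × ℝ → ℝ := fun q =>
    ∏ l, psf (p l) lam (act q.1 (rot e f r q.2 (v l))) with hΨ2
  have hΨ2c : Continuous Ψ2 := by
    rw [hΨ2]
    refine continuous_finsetProd _ fun l _ => (continuous_psf _ _).comp ?_
    exact continuous_act.comp (continuous_fst.prodMk ((continuous_rot e f r (v l)).comp
      continuous_snd))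
  have hΨ2R : ∀ g θ, Psi v p lam (g * R θ) = Ψ2 (g, θ) := by
    intro g θ
    unfold Psi
    rw [hΨ2]
    simp only [act_mul, hR]
  have hcm : Measurable fun q : OG (d + 1) × ℝ => h (act q.1 (circ a e f q.2)) :=
    hm.comp (measurable_act.comp (measurable_fst.prodMk ((continuous_circ a e f).measurable.comp
      measurable_snd)))
  have hHm1 : Measurable fun q : OG (d + 1) × ℝ => H q.1 := hHm.comp measurable_fst
  have hPm1 : Measurable fun q : OG (d + 1) × ℝ => Psi v p lam q.1 :=
    (continuous_Psi v p lam).measurable.comp measurable_fst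
  -- invariance
  have hinv : ∀ θ, I = ∫ g, Ψ2 (g, θ) * H g * h (act g (circ a e f θ)) ∂(haar (d + 1)) := by
    intro θ
    rw [hI, ← integral_haar_mul_right (R θ)]
    congr 1
    ext g
    rw [hΨ2R, hHinv g (R θ) (hRj θ), act_mul, hRi]
  set K1 : OG (d + 1) × ℝ → ℝ := fun q => Psi v p lam q.1 * H q.1 * h (act q.1 (circ a e f q.2))
    with hK1
  set K2 : OG (d + 1) × ℝ → ℝ := fun q =>
    (Ψ2 q - Psi v p lam q.1) * H q.1 * h (act q.1 (circ a e f q.2)) with hK2
  have hK1m : Measurable K1 := (hPm1.mul hHm1).mul hcm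
  have hK2m : Measurable K2 := ((hΨ2c.measurable.sub hPm1).mul hHm1).mul hcm
  have hP1 : ∀ g, |Psi v p lam g| ≤ 1 := by
    intro g
    rw [abs_of_nonneg (Psi_nonneg _ _ _ _)]
    exact Psi_le_one v p hl g
  have hK1b : ∀ q, |K1 q| ≤ 1 := by
    intro q
    rw [hK1]
    simp only [abs_mul]
    exact mul_le_one₀ (mul_le_one₀ (hP1 _) (abs_nonneg _) (hHb _)) (abs_nonneg _) (hb _)
  set κ : ℝ := Fintype.card ι * D * η / lam with hκ
  have hκ0 : 0 ≤ κ := by positivity
  have hdiff : ∀ g θ, θ ∈ Set.Icc 0 η → |Ψ2 (g, θ) - Psi v p lam g| ≤ DD.indicator (fun _ => κ) g := by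
    intro g θ hθ
    by_cases hg : g ∈ DD
    · rw [Set.indicator_of_mem hg, ← hΨ2R]
      refine (Psi_lip hl (hRl θ) g).trans ?_
      rw [hκ, abs_of_nonneg hθ.1]
      have h9 : (Fintype.card ι : ℝ) * (θ * D) ≤ Fintype.card ι * D * η := by
        calc (Fintype.card ι : ℝ) * (θ * D) = Fintype.card ι * D * θ := by ring
          _ ≤ Fintype.card ι * D * η := by
            apply mul_le_mul_of_nonneg_left hθ.2
            positivity
      exact div_le_div_of_nonneg_right h9 hl.le
    · rw [Set.indicator_of_notMem hg, ← hΨ2R, hsupp g hg,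
        hsupp (g * R θ) (fun h' => hg ((hDDR g θ).1 h'))]
      simp
  have hK2b : ∀ g θ, θ ∈ Set.Icc 0 η → |K2 (g, θ)| ≤ DD.indicator (fun _ => κ) g := by
    intro g θ hθ
    rw [hK2]
    simp only [abs_mul]
    calc |Ψ2 (g, θ) - Psi v p lam g| * |H g| * |h (act g (circ a e f θ))|
        ≤ DD.indicator (fun _ => κ) g * 1 * 1 := by
          have h0 : 0 ≤ DD.indicator (fun _ => κ) g := (abs_nonneg _).trans (hdiff g θ hθ)
          apply mul_le_mul _ (hb _) (abs_nonneg _) (by positivity)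
          exact mul_le_mul (hdiff g θ hθ) (hHb _) (abs_nonneg _) h0
      _ = _ := by ring
  have hΨ21 : ∀ q, |Ψ2 q| ≤ 1 := by
    rintro ⟨g, θ⟩
    rw [← hΨ2R]
    exact hP1 _
  have hintg : ∀ {F : OG (d + 1) → ℝ}, Measurable F → (∀ g, |F g| ≤ 2) →
      Integrable F (haar (d + 1)) := by
    intro F hF hF2
    exact Integrable.of_bound hF.aestronglyMeasurable 2
      (Eventually.of_forall fun g => by simpa using hF2 g)
  have hK2b2 : ∀ q, |K2 q| ≤ 2 := by
    rintro ⟨g, θ⟩
    rw [hK2]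
    simp only [abs_mul]
    calc |Ψ2 (g, θ) - Psi v p lam g| * |H g| * |h (act g (circ a e f θ))| ≤ 2 * 1 * 1 := by
          apply mul_le_mul _ (hb _) (abs_nonneg _) (by positivity)
          apply mul_le_mul _ (hHb _) (abs_nonneg _) (by positivity)
          have h1 := abs_sub (Ψ2 (g, θ)) (Psi v p lam g)
          have h2 := hΨ21 (g, θ)
          have h3 := hP1 g
          linarith
      _ = 2 := by ring
  have hK1i : ∀ θ, Integrable (fun g => K1 (g, θ)) (haar (d + 1)) := fun θ =>
    hintg (hK1m.comp (measurable_id.prodMk measurable_const)) (fun g => (hK1b _).trans (by norm_num))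
  have hK2i : ∀ θ, Integrable (fun g => K2 (g, θ)) (haar (d + 1)) := fun θ =>
    hintg (hK2m.comp (measurable_id.prodMk measurable_const)) (fun g => hK2b2 _)
  have hsplit : ∀ θ, I = (∫ g, K1 (g, θ) ∂(haar (d + 1))) + ∫ g, K2 (g, θ) ∂(haar (d + 1)) := by
    intro θ
    rw [← integral_add (hK1i θ) (hK2i θ), hinv θ]
    congr 1
    ext g
    rw [hK1, hK2]
    simp only
    ring
  -- integrate over θ
  have hμθ : (volume.restrict (Set.Icc 0 η)).real Set.univ = η := by
    rw [Measure.real, Measure.restrict_apply_univ, Real.volume_Icc, sub_zero,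
      ENNReal.toReal_ofReal hη.le]
  have hsw1 : Integrable (fun θ => ∫ g, K1 (g, θ) ∂(haar (d + 1)))
      (volume.restrict (Set.Icc 0 η)) := by
    refine Integrable.of_bound (C := 1) ?_ (Eventually.of_forall fun θ => ?_)
    · exact (hK1m.stronglyMeasurable.integral_prod_left').aestronglyMeasurable
    · refine (norm_integral_le_of_norm_le_const (C := 1) (Eventually.of_forall fun g => ?_)).trans ?_
      · simpa using hK1b (g, θ)
      · simp
  have hsw2 : Integrable (fun θ => ∫ g, K2 (g, θ) ∂(haar (d + 1)))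
      (volume.restrict (Set.Icc 0 η)) := by
    refine Integrable.of_bound (C := 2) ?_ (Eventually.of_forall fun θ => ?_)
    · exact (hK2m.stronglyMeasurable.integral_prod_left').aestronglyMeasurable
    · refine (norm_integral_le_of_norm_le_const (C := 2) (Eventually.of_forall fun g => ?_)).trans ?_
      · simpa using hK2b2 (g, θ)
      · simp
  have htot : η * I = (∫ θ in Set.Icc 0 η, ∫ g, K1 (g, θ) ∂(haar (d + 1))) +
      ∫ θ in Set.Icc 0 η, ∫ g, K2 (g, θ) ∂(haar (d + 1)) := by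
    rw [← integral_add hsw1 hsw2]
    rw [integral_congr_ae (g := fun _ => I) (Eventually.of_forall fun θ => (hsplit θ).symm)]
    rw [integral_const, hμθ, smul_eq_mul]
  -- second part
  have hA2 : |∫ θ in Set.Icc 0 η, ∫ g, K2 (g, θ) ∂(haar (d + 1))| ≤ η * (κ * m0) := by
    have h1 : ∀ᵐ θ ∂(volume.restrict (Set.Icc (0 : ℝ) η)),
        ‖∫ g, K2 (g, θ) ∂(haar (d + 1))‖ ≤ κ * m0 := by
      filter_upwards [ae_restrict_mem measurableSet_Icc] with θ hθ
      refine (norm_integral_le_integral_norm _).trans ?_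
      calc ∫ g, ‖K2 (g, θ)‖ ∂(haar (d + 1)) ≤ ∫ g, DD.indicator (fun _ => κ) g ∂(haar (d + 1)) := by
            apply integral_mono_of_nonneg (Eventually.of_forall fun _ => norm_nonneg _)
            · exact (integrable_const κ).indicator hDDm
            · exact Eventually.of_forall fun g => by simpa using hK2b g θ hθ
        _ = κ * m0 := by
            rw [integral_indicator_const _ hDDm, hDDv, smul_eq_mul, mul_comm]
    have h2 := norm_integral_le_of_norm_le_const h1
    rw [hμθ, Real.norm_eq_abs] at h2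
    linarith
  -- first part
  set Y : OG (d + 1) → ℝ := fun g => ∫ θ in Set.Icc 0 η, h (act g (circ a e f θ)) with hY
  have hYm : Measurable Y := (hcm.stronglyMeasurable.integral_prod_right').measurable
  have hYb : ∀ g, |Y g| ≤ η := by
    intro g
    have h1 := norm_integral_le_of_norm_le_const (μ := volume.restrict (Set.Icc 0 η))
      (f := fun θ => h (act g (circ a e f θ))) (C := 1)
      (Eventually.of_forall fun θ => by simpa using hb _)
    rw [hμθ, one_mul, Real.norm_eq_abs] at h1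
    exact h1
  have hA1 : |∫ θ in Set.Icc 0 η, ∫ g, K1 (g, θ) ∂(haar (d + 1))| ≤
      δ * η / 2 * m0 + (ε * N1 + η ^ 2 * C1) / (2 * (δ * η)) := by
    have h1 : ∫ θ in Set.Icc 0 η, ∫ g, K1 (g, θ) ∂(haar (d + 1)) =
        ∫ g, Psi v p lam g * H g * Y g ∂(haar (d + 1)) := by
      rw [integral_integral_swap]
      · congr 1
        ext g
        rw [hK1, hY]
        simp only
        rw [integral_const_mul]
      · refine Integrable.of_bound (C := 1) ?_ (Eventually.of_forall fun q => ?_)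
        · exact (hK1m.comp measurable_swap).aestronglyMeasurable
        · simpa [Function.uncurry] using hK1b (q.2, q.1)
    have h2 : ∀ g, |Psi v p lam g * H g * Y g| ≤
        DD.indicator (fun _ => δ * η / 2) g + Y g ^ 2 / (2 * (δ * η)) := by
      intro g
      have hδη : 0 < δ * η := by positivity
      by_cases hg : g ∈ DD
      · rw [Set.indicator_of_mem hg, abs_mul, abs_mul]
        have h3 : |Psi v p lam g| * |H g| * |Y g| ≤ |Y g| := by
          have : |Psi v p lam g| * |H g| ≤ 1 := mul_le_one₀ (hP1 g) (abs_nonneg _) (hHb g)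
          calc |Psi v p lam g| * |H g| * |Y g| ≤ 1 * |Y g| := by gcongr
            _ = |Y g| := one_mul _
        refine h3.trans ?_
        have h4 : Y g ^ 2 = |Y g| ^ 2 := (sq_abs _).symm
        rw [h4, ← sub_nonneg]
        have h5 : δ * η / 2 + |Y g| ^ 2 / (2 * (δ * η)) - |Y g| =
            (δ * η - |Y g|) ^ 2 / (2 * (δ * η)) := by
          field_simp
          ring
        rw [h5]
        positivity
      · rw [Set.indicator_of_notMem hg, hsupp g hg]
        simp only [zero_mul, abs_zero, zero_add]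
        positivity
    have hY2 : Integrable (fun g => Y g ^ 2) (haar (d + 1)) := by
      refine Integrable.of_bound (C := η ^ 2) (hYm.pow_const 2).aestronglyMeasurable
        (Eventually.of_forall fun g => ?_)
      rw [Real.norm_eq_abs, abs_pow]
      exact pow_le_pow_left₀ (abs_nonneg _) (hYb g) 2
    rw [h1, ← Real.norm_eq_abs]
    refine (norm_integral_le_integral_norm _).trans ?_
    calc ∫ g, ‖Psi v p lam g * H g * Y g‖ ∂(haar (d + 1))
        ≤ ∫ g, (DD.indicator (fun _ => δ * η / 2) g + Y g ^ 2 / (2 * (δ * η))) ∂(haar (d + 1)) := by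
          apply integral_mono_of_nonneg (Eventually.of_forall fun _ => norm_nonneg _)
          · exact ((integrable_const _).indicator hDDm).add (hY2.div_const _)
          · exact Eventually.of_forall fun g => by simpa using h2 g
      _ = δ * η / 2 * m0 + (∫ g, Y g ^ 2 ∂(haar (d + 1))) / (2 * (δ * η)) := by
          rw [integral_add ((integrable_const _).indicator hDDm) (hY2.div_const _),
            integral_indicator_const _ hDDm, hDDv, integral_div, smul_eq_mul, mul_comm m0]
      _ ≤ δ * η / 2 * m0 + (ε * N1 + η ^ 2 * C1) / (2 * (δ * η)) := by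
          have := tts hd hm hb hr hae haf hef he hf ha hη hs hsr hT
          gcongr
  have hfin : η * |I| ≤ η * (κ * m0 + δ / 2 * m0 + (ε * N1 / η ^ 2 + C1) / (2 * δ)) := by
    calc η * |I| = |η * I| := by rw [abs_mul, abs_of_pos hη]
      _ ≤ _ := by rw [htot]; exact abs_add_le _ _
      _ ≤ (δ * η / 2 * m0 + (ε * N1 + η ^ 2 * C1) / (2 * (δ * η))) + η * (κ * m0) :=
          add_le_add hA1 hA2
      _ = _ := by
          field_simp
          ring
  exact le_of_mul_le_mul_left hfin hη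

end SphLim
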