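import Pool.Agent.SphLim.Rigid

/-!
# Periodic extension of a compact set
-/

open MeasureTheory Filter Topology Metric
open scoped ENNReal Pointwise

namespace SphLim

/-- Robust avoidance for a compact set. -/
lemma exists_robust {n : ℕ} {ι : Type*} [Fintype ι] (p : ι → Eu n) {K : Set (Eu n)}
    (hK : IsCompact K)
    (h : ∀ q : ι → Eu n, (∀ i j, dist (p i) (p j) = dist (q i) (q j)) → ∃ i, q i ∉ K) :
    ∃ η : ℝ, 0 < η ∧ ∀ q : ι → Eu n,
      (∀ i j, |dist (q i) (q j) - dist (p i) (p j)| ≤ η) → ∃ i, q i ∉ K := by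
  by_contra hcon
  push Not at hcon
  have h1 : ∀ N : ℕ, ∃ q : ι → Eu n,
      (∀ i j, |dist (q i) (q j) - dist (p i) (p j)| ≤ 1 / ((N : ℝ) + 1)) ∧ ∀ i, q i ∈ K :=
    fun N => hcon _ (by positivity)
  choose q hq hqK using h1
  have hc : IsCompact (Set.pi Set.univ (fun _ : ι => K)) := isCompact_univ_pi (fun _ => hK)
  obtain ⟨a, ha, φ, hφ, hlim⟩ := hc.tendsto_subseq (x := q) (fun N i _ => hqK N i)
  obtain ⟨i, hi⟩ := h a (fun i j => by
    have hi : Tendsto (fun N => q (φ N) i) atTop (𝓝 (a i)) := (tendsto_pi_nhds.1 hlim) i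
    have hj : Tendsto (fun N => q (φ N) j) atTop (𝓝 (a j)) := (tendsto_pi_nhds.1 hlim) j
    have hd : Tendsto (fun N => dist (q (φ N) i) (q (φ N) j)) atTop (𝓝 (dist (a i) (a j))) :=
      hi.dist hj
    have h0 : Tendsto (fun N : ℕ => 1 / ((N : ℝ) + 1)) atTop (𝓝 0) :=
      tendsto_one_div_add_atTop_nhds_zero_nat
    have h0' : Tendsto (fun N : ℕ => 1 / (((φ N : ℕ) : ℝ) + 1)) atTop (𝓝 0) :=
      h0.comp hφ.tendsto_atTop
    have hz : Tendsto (fun N => dist (q (φ N) i) (q (φ N) j) - dist (p i) (p j)) atTop (𝓝 0) :=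
      squeeze_zero_norm (fun N => by simpa [Real.norm_eq_abs] using hq (φ N) i j) h0'
    have := hz.add_const (dist (p i) (p j))
    simp only [sub_add_cancel, zero_add] at this
    exact tendsto_nhds_unique this hd)
  exact hi (ha i (Set.mem_univ i))

/-- The basis `L e_i`. -/
noncomputable def scaledBasis (d : ℕ) (L : ℝ) (hL : L ≠ 0) : Module.Basis (Fin d) ℝ (Eu d) :=
  (EuclideanSpace.basisFun (Fin d) ℝ).toBasis.unitsSMul (fun _ => Units.mk0 L hL)

lemma scaledBasis_repr (d : ℕ) (L : ℝ) (hL : L ≠ 0) (y : Eu d) (i : Fin d) :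
    (scaledBasis d L hL).repr y i = L⁻¹ * y i := by
  unfold scaledBasis
  rw [Module.Basis.repr_unitsSMul]
  simp [Units.smul_def]

lemma fundamentalDomain_eq (d : ℕ) (L : ℝ) (hL : 0 < L) :
    ZSpan.fundamentalDomain (scaledBasis d L hL.ne') = {w : Eu d | ∀ i, w i ∈ Set.Ico (0 : ℝ) L} := by
  ext w
  simp only [ZSpan.mem_fundamentalDomain, scaledBasis_repr, Set.mem_Ico, Set.mem_ofPred_eq]
  refine forall_congr' fun i => ?_
  have h1 : (0 ≤ L⁻¹ * w i) ↔ 0 ≤ w i := by
    constructor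
    · intro h
      have := mul_nonneg hL.le h
      rwa [← mul_assoc, mul_inv_cancel₀ hL.ne', one_mul] at this
    · intro h; positivity
  have h2 : (L⁻¹ * w i < 1) ↔ w i < L := by
    rw [inv_mul_lt_iff₀ hL, mul_one]
  rw [h1, h2]

lemma volume_box (d : ℕ) (a b : ℝ) :
    volume {w : Eu d | ∀ i, w i ∈ Set.Ico a b} = ENNReal.ofReal (b - a) ^ d := by
  have h := (EuclideanSpace.volume_preserving_symm_measurableEquiv_toLp (Fin d)).symm
  have h2 : {w : Eu d | ∀ i, w i ∈ Set.Ico a b} =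
      (MeasurableEquiv.toLp 2 (Fin d → ℝ)).symm ⁻¹' (Set.pi Set.univ (fun _ => Set.Ico a b)) := by
    ext w
    simp
  rw [h2, (EuclideanSpace.volume_preserving_symm_measurableEquiv_toLp (Fin d)).measure_preimage
    (MeasurableSet.univ_pi (fun _ => measurableSet_Ico)).nullMeasurableSet, Real.volume_pi_Ico]
  simp

lemma exists_periodic {d : ℕ} {T D : ℝ} (hT : 0 ≤ T) (hD : 0 < D) {K : Set (Eu d)}
    (hK : MeasurableSet K) (hKT : K ⊆ cube d T) :
    ∃ E W : Set (Eu d), MeasurableSet E ∧ MeasurableSet W ∧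
      volume W = ENNReal.ofReal (2 * T + 2 * D) ^ d ∧
      (∀ y : Eu d, volume K ≤ volume {w | w ∈ W ∧ y + w ∈ E}) ∧
      (∀ (ι : Type) (q : ι → Eu d), (∀ i, q i ∈ E) → (∀ i j, dist (q i) (q j) < 2 * D) →
        ∃ v : Eu d, ∀ i, v + q i ∈ K) := by
  set L : ℝ := 2 * T + 2 * D with hLdef
  have hL : 0 < L := by positivity
  set b := scaledBasis d L hL.ne' with hb
  set Λ := Submodule.span ℤ (Set.range b) with hΛ
  have hΛc : Countable Λ := inferInstance
  -- separation
  have hsep : ∀ v : Eu d, v ∈ Λ → v ≠ 0 → ∃ i, L ≤ |v i| := by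
    intro v hv hv0
    rw [hΛ, b.mem_span_iff_repr_mem ℤ v] at hv
    have : ∃ i, v i ≠ 0 := by
      by_contra hcon
      push Not at hcon
      exact hv0 (by ext i; simpa using hcon i)
    obtain ⟨i, hi⟩ := this
    refine ⟨i, ?_⟩
    obtain ⟨m, hm⟩ := hv i
    rw [hb, scaledBasis_repr] at hm
    have h1 : v i = L * m := by
      have : L * (L⁻¹ * v i) = L * m := by rw [← hm]; simp
      rwa [← mul_assoc, mul_inv_cancel₀ hL.ne', one_mul] at this
    have hm0 : m ≠ 0 := by
      rintro rfl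
      exact hi (by rw [h1]; simp)
    rw [h1, abs_mul, abs_of_pos hL]
    have : (1 : ℝ) ≤ |(m : ℝ)| := by exact_mod_cast Int.one_le_abs hm0
    nlinarith
  have hsep' : ∀ v v' : Eu d, v ∈ Λ → v' ∈ Λ → ∀ y y' : Eu d, v + y ∈ K → v' + y' ∈ K →
      dist y y' < 2 * D → v = v' := by
    intro v v' hv hv' y y' hy hy' hd
    by_contra hne
    obtain ⟨i, hi⟩ := hsep (v - v') (Λ.sub_mem hv hv') (sub_ne_zero.2 hne)
    have h1 := hKT hy i
    have h2 := hKT hy' i
    have h3 : |y i - y' i| ≤ dist y y' := by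
      have := EuclideanSpace.norm_eq (y - y')
      rw [dist_eq_norm]
      have h4 := PiLp.norm_apply_le (y - y') i
      simpa [Real.norm_eq_abs] using h4
    simp only [PiLp.add_apply, PiLp.sub_apply] at h1 h2 hi
    have e : v i - v' i = (v i + y i) - (v' i + y' i) - (y i - y' i) := by ring
    have h5 : |v i - v' i| ≤ |v i + y i| + |v' i + y' i| + |y i - y' i| := by
      rw [e]
      calc |(v i + y i) - (v' i + y' i) - (y i - y' i)|
          ≤ |(v i + y i) - (v' i + y' i)| + |y i - y' i| := abs_sub _ _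
        _ ≤ |v i + y i| + |v' i + y' i| + |y i - y' i| := by
            have := abs_sub (v i + y i) (v' i + y' i)
            linarith
    linarith
  set E : Set (Eu d) := ⋃ v : Λ, (fun y => (v : Eu d) + y) ⁻¹' K with hE
  have hEm : MeasurableSet E :=
    MeasurableSet.iUnion fun v => (measurable_const_add (v : Eu d)) hK
  set W := ZSpan.fundamentalDomain b with hW
  have hWm : MeasurableSet W := ZSpan.fundamentalDomain_measurableSet b
  refine ⟨E, W, hEm, hWm, ?_, ?_, ?_⟩
  · rw [hW, hb, fundamentalDomain_eq d L hL, volume_box, sub_zero]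
  · intro y
    have hfd := ZSpan.isAddFundamentalDomain b (volume : Measure (Eu d))
    set t : Set (Eu d) := (fun x => y + x) ⁻¹' K with ht
    have htm : MeasurableSet t := (measurable_const_add y) hK
    have hvol : volume t = volume K := by
      rw [ht]
      exact measure_preimage_add volume y K
    have : VAddInvariantMeasure Λ (Eu d) volume :=
      ⟨fun c s _ => measure_preimage_add volume (c : Eu d) s⟩
    rw [← hvol, hfd.measure_eq_tsum t]
    have hdisj : Pairwise (Function.onFun Disjoint (fun g : Λ => (g +ᵥ t) ∩ W)) := by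
      intro g g' hgg'
      rw [Function.onFun, Set.disjoint_left]
      rintro x ⟨hx, -⟩ ⟨hx', -⟩
      apply hgg'
      rw [Set.mem_vadd_set_iff_neg_vadd_mem] at hx hx'
      have e1 : y + (-(g : Eu d) + x) ∈ K := hx
      have e2 : y + (-(g' : Eu d) + x) ∈ K := hx'
      have := hsep' (-(g : Eu d)) (-(g' : Eu d)) (Λ.neg_mem g.2) (Λ.neg_mem g'.2)
        (y + x) (y + x) (by convert e1 using 1; abel) (by convert e2 using 1; abel)
        (by rw [dist_self]; positivity)
      ext1
      exact neg_injective this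
    have hmeas : ∀ g : Λ, MeasurableSet ((g +ᵥ t) ∩ W) := fun g =>
      (htm.const_vadd g).inter hWm
    rw [← measure_iUnion hdisj hmeas]
    apply measure_mono
    rintro x hx
    obtain ⟨g, hg, hxW⟩ := Set.mem_iUnion.1 hx
    refine ⟨hxW, ?_⟩
    rw [Set.mem_vadd_set_iff_neg_vadd_mem] at hg
    have e1 : y + (-(g : Eu d) + x) ∈ K := hg
    refine Set.mem_iUnion.2 ⟨-g, ?_⟩
    change (-(g : Eu d)) + (y + x) ∈ K
    convert e1 using 1
    abel
  · intro ι q hq hd
    have h1 : ∀ i, ∃ v : Λ, (v : Eu d) + q i ∈ K := fun i => Set.mem_iUnion.1 (hq i)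
    choose v hv using h1
    rcases isEmpty_or_nonempty ι with hι | ⟨⟨i0⟩⟩
    · exact ⟨0, fun i => isEmptyElim i⟩
    · refine ⟨v i0, fun i => ?_⟩
      have := hsep' (v i) (v i0) (v i).2 (v i0).2 (q i) (q i0) (hv i) (hv i0) (hd i i0)
      rw [← this]
      exact hv i

end SphLim
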