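import Pool.Agent.SphLim.Patches

/-!
# The lower bound
-/

open MeasureTheory Filter Topology Metric
open scoped ENNReal Pointwise RealInnerProductSpace

namespace SphLim

variable {d : ℕ}

lemma sphProb_nonneg (A : Set (Eu (d + 1))) : 0 ≤ sphProb d A := ENNReal.toReal_nonneg

lemma sphProb_le_one {A : Set (Eu (d + 1))} (hA : MeasurableSet A) : sphProb d A ≤ 1 := by
  rw [sphProb_eq hA]
  exact ENNReal.toReal_le_of_le_ofReal zero_le_one (by simpa using prob_le_one)

lemma mSph_bdd (P : Set (Eu (d + 1))) : BddAbove {s : ℝ | ∃ A : Set (Eu (d + 1)),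
    A ⊆ sphere (0 : Eu (d + 1)) 1 ∧ MeasurableSet A ∧ Avoids A P ∧ s = sphProb d A} := by
  refine ⟨1, ?_⟩
  rintro s ⟨A, -, hA, -, rfl⟩
  exact sphProb_le_one hA

lemma mSph_nonneg (P : Set (Eu (d + 1))) : 0 ≤ mSph d P := by
  apply Real.sSup_nonneg
  rintro s ⟨A, -, -, -, rfl⟩
  exact sphProb_nonneg A

lemma le_mSph {A P : Set (Eu (d + 1))} (h1 : A ⊆ sphere (0 : Eu (d + 1)) 1)
    (h2 : MeasurableSet A) (h3 : Avoids A P) : sphProb d A ≤ mSph d P :=
  le_csSup (mSph_bdd P) ⟨A, h1, h2, h3, rfl⟩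

lemma cube_measurable (n : ℕ) (T : ℝ) : MeasurableSet (cube n T) := by
  have : cube n T = ⋂ i : Fin n, {x : Eu n | |x i| ≤ T} := by
    ext x
    simp [cube]
  rw [this]
  refine MeasurableSet.iInter fun i => ?_
  have hc : Continuous fun x : Eu n => |x i| := by fun_prop
  exact (isClosed_le hc continuous_const).measurableSet

lemma volume_cube (n : ℕ) {T : ℝ} (_hT : 0 ≤ T) :
    volume (cube n T) = ENNReal.ofReal (2 * T) ^ n := by
  have h2 : cube n T =
      (MeasurableEquiv.toLp 2 (Fin n → ℝ)).symm ⁻¹' (Set.pi Set.univ (fun _ => Set.Icc (-T) T)) := by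
    ext w
    simp [cube, abs_le, Pi.le_def, forall_and]
  rw [h2, (EuclideanSpace.volume_preserving_symm_measurableEquiv_toLp (Fin n)).measure_preimage
    (MeasurableSet.univ_pi (fun _ => measurableSet_Icc)).nullMeasurableSet, volume_pi_pi]
  simp only [Real.volume_Icc, sub_neg_eq_add, Finset.prod_const, Finset.card_univ,
    Fintype.card_fin]
  congr 2
  ring

lemma volume_inter_cube_le (n : ℕ) (A : Set (Eu n)) {T : ℝ} (hT : 0 ≤ T) :
    (volume (A ∩ cube n T)).toReal ≤ (2 * T) ^ n := by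
  apply ENNReal.toReal_le_of_le_ofReal (by positivity)
  rw [ENNReal.ofReal_pow (by positivity), ← volume_cube n hT]
  exact measure_mono Set.inter_subset_right

lemma frequently_density {n : ℕ} {A : Set (Eu n)} {b : ℝ} (hb : b < upperDensity A) :
    ∃ᶠ T : ℝ in atTop, b < (volume (A ∩ cube n T)).toReal / (2 * T) ^ n := by
  unfold upperDensity at hb
  refine frequently_lt_of_lt_limsup ?_ hb
  refine IsBoundedUnder.isCoboundedUnder_le ?_
  refine ⟨0, ?_⟩
  rw [eventually_map]
  filter_upwards [eventually_ge_atTop (0 : ℝ)] with T hT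
  positivity

lemma upperDensity_le {n : ℕ} {A : Set (Eu n)} {b : ℝ}
    (h : ∀ᶠ T : ℝ in atTop, (volume (A ∩ cube n T)).toReal / (2 * T) ^ n ≤ b) :
    upperDensity A ≤ b := by
  unfold upperDensity
  refine limsup_le_of_le ?_ h
  refine IsBoundedUnder.isCoboundedUnder_le ?_
  refine ⟨0, ?_⟩
  rw [eventually_map]
  filter_upwards [eventually_ge_atTop (0 : ℝ)] with T hT
  positivity

lemma upperDensity_le_one {n : ℕ} (A : Set (Eu n)) : upperDensity A ≤ 1 := by
  apply upperDensity_le
  filter_upwards [eventually_gt_atTop (0 : ℝ)] with T hT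
  rw [div_le_one (by positivity)]
  exact volume_inter_cube_le n A hT.le

lemma mEuc_bdd (P : Set (Eu d)) : BddAbove {s : ℝ | ∃ A : Set (Eu d),
    MeasurableSet A ∧ Avoids A P ∧ s = upperDensity A} := by
  refine ⟨1, ?_⟩
  rintro s ⟨A, -, -, rfl⟩
  exact upperDensity_le_one A

/-- A compact robust model of density close to the Euclidean independence density. -/
lemma exists_compact_model {ι : Type} [Fintype ι] (p : ι → Eu d) {A : Set (Eu d)}
    (hA : MeasurableSet A) (hav : Avoids A (Set.range p)) {a ε D : ℝ} (hε : 0 < ε) (hD : 0 < D)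
    (ha : a < upperDensity A) :
    ∃ (T : ℝ) (K : Set (Eu d)), 0 < T ∧ IsCompact K ∧ K ⊆ cube d T ∧
      (∀ q : ι → Eu d, (∀ i j, dist (p i) (p j) = dist (q i) (q j)) → ∃ i, q i ∉ K) ∧
      a - ε ≤ (volume K).toReal / (2 * T + 2 * D) ^ d := by
  have h1 := frequently_density ha
  have hr : Tendsto (fun T : ℝ => (2 * T / (2 * T + 2 * D)) ^ d) atTop (𝓝 1) := by
    have h2 : Tendsto (fun T : ℝ => 2 * T / (2 * T + 2 * D)) atTop (𝓝 1) := by
      have h3 : Tendsto (fun T : ℝ => 1 - 2 * D / (2 * T + 2 * D)) atTop (𝓝 (1 - 0)) := by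
        refine tendsto_const_nhds.sub ?_
        refine tendsto_const_nhds.div_atTop ?_
        exact tendsto_atTop_add_const_right _ _ (tendsto_id.const_mul_atTop (by norm_num))
      rw [sub_zero] at h3
      refine h3.congr' ?_
      filter_upwards [eventually_gt_atTop (0 : ℝ)] with T hT
      have : 2 * T + 2 * D ≠ 0 := by positivity
      field_simp
      ring
    simpa using h2.pow d
  have hr' : Tendsto (fun T : ℝ => (a - ε / 2) * (2 * T / (2 * T + 2 * D)) ^ d) atTop
      (𝓝 ((a - ε / 2) * 1)) := hr.const_mul _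
  have h2 : ∀ᶠ T : ℝ in atTop, a - ε < (a - ε / 2) * (2 * T / (2 * T + 2 * D)) ^ d :=
    hr'.eventually_const_lt (by linarith)
  obtain ⟨T, hT1, hT2, hT0⟩ := (h1.and_eventually (h2.and (eventually_gt_atTop 0))).exists
  have hfin : volume (A ∩ cube d T) ≠ ∞ := by
    refine ne_top_of_le_ne_top ?_ (measure_mono Set.inter_subset_right)
    rw [volume_cube d hT0.le]
    exact ENNReal.pow_ne_top ENNReal.ofReal_ne_top
  have hpos : 0 < ε / 2 * (2 * T) ^ d := by positivity
  obtain ⟨K, hKA, hKc, hKm⟩ := (hA.inter (cube_measurable d T)).exists_isCompact_lt_add hfin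
    (ε := ENNReal.ofReal (ε / 2 * (2 * T) ^ d)) (by simpa using hpos)
  refine ⟨T, K, hT0, hKc, fun x hx => (hKA hx).2, ?_, ?_⟩
  · intro q hq
    by_contra hcon
    push Not at hcon
    exact not_avoids_of_dist_eq p q rfl hq (fun i => (hKA (hcon i)).1) hav
  · have hKfin : volume K ≠ ∞ := hKc.measure_lt_top.ne
    have h3 : (volume (A ∩ cube d T)).toReal ≤ (volume K).toReal + ε / 2 * (2 * T) ^ d := by
      have h4 := ENNReal.toReal_mono (ENNReal.add_ne_top.2 ⟨hKfin, ENNReal.ofReal_ne_top⟩) hKm.le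
      rw [ENNReal.toReal_add hKfin ENNReal.ofReal_ne_top, ENNReal.toReal_ofReal hpos.le] at h4
      exact h4
    have h5 : a * (2 * T) ^ d < (volume (A ∩ cube d T)).toReal := by
      rwa [lt_div_iff₀ (by positivity)] at hT1
    have h6 : (a - ε / 2) * (2 * T) ^ d ≤ (volume K).toReal := by nlinarith
    have h7 : (a - ε / 2) * (2 * T / (2 * T + 2 * D)) ^ d ≤
        (volume K).toReal / (2 * T + 2 * D) ^ d := by
      rw [div_pow, ← mul_div_assoc]
      gcongr
    linarith

end SphLim
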