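import Pool.Agent.SphLim.Lower

/-!
# The lower bound: main theorem
-/

open MeasureTheory Filter Topology Metric
open scoped ENNReal Pointwise RealInnerProductSpace

namespace SphLim

variable {d : ℕ}

lemma exists_gap {X : Type*} [MetricSpace X] {s t : Set X} (hs : IsCompact s) (ht : IsCompact t)
    (hst : Disjoint s t) : ∃ r : ℝ, 0 < r ∧ ∀ x ∈ s, ∀ y ∈ t, r < dist x y := by
  obtain ⟨r, hr, h⟩ := Metric.exists_pos_forall_lt_edist hs ht.isClosed hst
  refine ⟨r, by exact_mod_cast hr, fun x hx y hy => ?_⟩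
  have := h x hx y hy
  rw [edist_dist, ENNReal.lt_ofReal_iff_toReal_lt (ENNReal.coe_ne_top)] at this
  simpa using this

theorem lower_bound {ι : Type} [Fintype ι] (p : ι → Eu d) (p' : ι → Eu (d + 1))
    (hpp : ∀ i j, dist (p' i) (p' j) = dist (p i) (p j)) {ε : ℝ} (hε : 0 < ε) :
    ∀ᶠ t in 𝓝[>] (0 : ℝ), mEuc d (Set.range p) - ε ≤ mSph d (t • Set.range p') := by
  -- trivial cases
  rcases Set.eq_empty_or_nonempty {s : ℝ | ∃ A : Set (Eu d),
    MeasurableSet A ∧ Avoids A (Set.range p) ∧ s = upperDensity A} with hemp | hne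
  · have : mEuc d (Set.range p) = 0 := by
      unfold mEuc
      rw [hemp, Real.sSup_empty]
    filter_upwards with t
    rw [this]
    linarith [mSph_nonneg (t • Set.range p')]
  have hlt : mEuc d (Set.range p) - ε / 4 < sSup {s : ℝ | ∃ A : Set (Eu d),
      MeasurableSet A ∧ Avoids A (Set.range p) ∧ s = upperDensity A} := by
    have : mEuc d (Set.range p) = sSup {s : ℝ | ∃ A : Set (Eu d),
      MeasurableSet A ∧ Avoids A (Set.range p) ∧ s = upperDensity A} := rfl
    rw [← this]
    linarith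
  obtain ⟨s, ⟨A, hAm, hAav, rfl⟩, hA⟩ := exists_lt_of_lt_csSup hne hlt
  rcases isEmpty_or_nonempty ι with hι | ⟨⟨i0⟩⟩
  · exfalso
    refine hAav ∅ (Set.empty_subset _) ⟨IsometryEquiv.refl _, ?_⟩
    rw [Set.range_eq_empty]
    simp
  -- the diameter
  set Δ : ℝ := ∑ i, ∑ j, dist (p i) (p j) with hΔ
  have hΔ' : ∀ i j, dist (p i) (p j) ≤ Δ := by
    intro i j
    calc dist (p i) (p j) ≤ ∑ j, dist (p i) (p j) :=
          Finset.single_le_sum (f := fun j => dist (p i) (p j)) (fun _ _ => dist_nonneg)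
            (Finset.mem_univ j)
      _ ≤ Δ := Finset.single_le_sum (f := fun i => ∑ j, dist (p i) (p j))
          (fun _ _ => Finset.sum_nonneg fun _ _ => dist_nonneg) (Finset.mem_univ i)
  have hΔ0 : 0 ≤ Δ := (dist_nonneg).trans (hΔ' i0 i0)
  set D : ℝ := Δ / 2 + 1 with hD
  have hD0 : 0 < D := by positivity
  obtain ⟨T, K, hT0, hKc, hKT, hKex, hKd⟩ := exists_compact_model p hAm hAav
    (a := mEuc d (Set.range p) - ε / 4) (ε := ε / 4) (D := D) (by positivity) hD0 hA
  obtain ⟨η, hη, hrob⟩ := exists_robust p hKc hKex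
  obtain ⟨E, W, hEm, hWm, hWv, hEW, hEsep⟩ :=
    exists_periodic hT0.le hD0 hKc.measurableSet hKT
  -- delta
  set δ : ℝ := min 1 (η / (Δ + 1)) with hδ
  have hδ0 : 0 < δ := lt_min one_pos (by positivity)
  have hδ1 : δ ≤ 1 := min_le_left _ _
  have hδΔ : δ * Δ ≤ η := by
    have h1 : δ ≤ η / (Δ + 1) := min_le_right _ _
    have h2 : δ * (Δ + 1) ≤ η := by rwa [le_div_iff₀ (by positivity)] at h1
    nlinarith
  obtain ⟨N, c, Kp, hc, hKpc, hKps, hKpd, hdisj, hKsum⟩ :=
    exists_patches d hδ0 (ε := ENNReal.ofReal (ε / 2)) (by simpa using hε)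
  -- gaps
  have hgap : ∀ᶠ t in 𝓝[>] (0 : ℝ), ∀ i j, i ≠ j → ∀ x ∈ Kp i, ∀ y ∈ Kp j, t * Δ < dist x y := by
    rw [eventually_all]
    intro i
    rw [eventually_all]
    intro j
    by_cases hij : i = j
    · filter_upwards with t h
      exact absurd hij h
    · obtain ⟨r, hr, hr'⟩ := exists_gap (hKpc i) (hKpc j) (hdisj hij)
      have h1 : Tendsto (fun t : ℝ => t * Δ) (𝓝[>] (0 : ℝ)) (𝓝 (0 * Δ)) :=
        (tendsto_id.mul_const Δ).mono_left nhdsWithin_le_nhds
      rw [zero_mul] at h1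
      filter_upwards [h1.eventually_lt_const hr] with t ht _ x hx y hy
      exact ht.trans (hr' x hx y hy)
  filter_upwards [hgap, self_mem_nhdsWithin] with t hgt ht0
  have ht0' : (0 : ℝ) < t := ht0
  -- the projections and translates
  choose Tj hTj using fun j => exists_proj (c j) (hc j)
  set V : ℝ≥0∞ := ENNReal.ofReal (2 * T + 2 * D) ^ d with hV
  have hV0 : V ≠ 0 := by
    rw [hV]
    have : 0 < 2 * T + 2 * D := by positivity
    simp [this]
  have hVt : V ≠ ∞ := ENNReal.pow_ne_top ENNReal.ofReal_ne_top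
  have htr : ∀ j, ∃ w : Eu d, volume K / V * sphMeas d (Kp j) ≤
      sphMeas d {x | x ∈ Kp j ∧ (t⁻¹ • Tj j x) + w ∈ E} := fun j =>
    exists_translate (Kp j) hEm hWm hWv hV0 hVt hEW
      (T := fun x => t⁻¹ • Tj j x) (((Tj j).continuous.const_smul t⁻¹).measurable)
  choose w hw using htr
  set B : Fin N → Set (Eu (d + 1)) := fun j => {x | x ∈ Kp j ∧ (t⁻¹ • Tj j x) + w j ∈ E} with hB
  have hBm : ∀ j, MeasurableSet (B j) := fun j =>
    (hKpc j).measurableSet.inter
      (((((Tj j).continuous.const_smul t⁻¹).add continuous_const).measurable) hEm)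
  have hBK : ∀ j, B j ⊆ Kp j := fun j x hx => hx.1
  set At : Set (Eu (d + 1)) := ⋃ j, B j with hAt
  have hAtm : MeasurableSet At := MeasurableSet.iUnion hBm
  have hAts : At ⊆ sphere (0 : Eu (d + 1)) 1 := by
    intro x hx
    obtain ⟨j, hj⟩ := Set.mem_iUnion.1 hx
    exact hKps j (hBK j hj)
  have hrange : t • Set.range p' = Set.range (fun i => t • p' i) := by
    ext x
    simp [Set.mem_smul_set]
  have hAtav : Avoids At (t • Set.range p') := by
    apply avoids_of_forall (fun i => t • p' i) hrange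
    intro q hq
    by_contra hcon
    push Not at hcon
    have hdq : ∀ i j, dist (q i) (q j) = t * dist (p i) (p j) := by
      intro i j
      rw [← hq i j, dist_smul₀, hpp i j, Real.norm_of_nonneg ht0'.le]
    obtain ⟨j, hj⟩ := Set.mem_iUnion.1 (hcon i0)
    have hall : ∀ i, q i ∈ B j := by
      intro i
      obtain ⟨k, hk⟩ := Set.mem_iUnion.1 (hcon i)
      by_cases hkj : k = j
      · rw [← hkj]; exact hk
      · exfalso
        have h1 := hgt k j hkj (q i) (hBK k hk) (q i0) (hBK j hj)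
        rw [hdq] at h1
        have h2 := hΔ' i i0
        nlinarith
    set y : ι → Eu d := fun i => (t⁻¹ • Tj j (q i)) + w j with hy
    have hyE : ∀ i, y i ∈ E := fun i => (hall i).2
    have hyd : ∀ i k, (1 - δ) * dist (p i) (p k) ≤ dist (y i) (y k) ∧
        dist (y i) (y k) ≤ dist (p i) (p k) := by
      intro i k
      have e1 : dist (y i) (y k) = t⁻¹ * ‖Tj j (q i - q k)‖ := by
        rw [hy, dist_eq_norm]
        simp only
        rw [add_sub_add_right_eq_sub, ← smul_sub, ← map_sub, norm_smul, norm_inv,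
          Real.norm_of_nonneg ht0'.le]
      have e2 : ‖q i - q k‖ = t * dist (p i) (p k) := by rw [← dist_eq_norm, hdq]
      have hsi : ‖q i‖ = 1 := by
        have := hKps j (hBK j (hall i)); rwa [mem_sphere_iff_norm, sub_zero] at this
      have hsk : ‖q k‖ = 1 := by
        have := hKps j (hBK j (hall k)); rwa [mem_sphere_iff_norm, sub_zero] at this
      have h3 := proj_almost_isometry (hTj j) hδ0.le hδ1 (u := q i - q k)
        (inner_sub_le hsi hsk (hKpd j _ (hBK j (hall i))) (hKpd j _ (hBK j (hall k))))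
      rw [e2] at h3
      rw [e1]
      have hti : 0 < t⁻¹ := inv_pos.2 ht0'
      have htt : t⁻¹ * t = 1 := inv_mul_cancel₀ ht0'.ne'
      constructor
      · calc (1 - δ) * dist (p i) (p k) = t⁻¹ * ((1 - δ) * (t * dist (p i) (p k))) := by
              rw [show t⁻¹ * ((1 - δ) * (t * dist (p i) (p k))) =
                (t⁻¹ * t) * ((1 - δ) * dist (p i) (p k)) by ring, htt, one_mul]
          _ ≤ t⁻¹ * ‖Tj j (q i - q k)‖ := by gcongr; exact h3.1
      · calc t⁻¹ * ‖Tj j (q i - q k)‖ ≤ t⁻¹ * (t * dist (p i) (p k)) := by gcongr; exact h3.2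
          _ = dist (p i) (p k) := by rw [← mul_assoc, htt, one_mul]
    obtain ⟨v, hv⟩ := hEsep ι y hyE (fun i k => by
      refine lt_of_le_of_lt (hyd i k).2 ?_
      have := hΔ' i k
      rw [hD]
      linarith)
    obtain ⟨i, hi⟩ := hrob (fun i => v + y i) (fun i k => by
      rw [dist_add_left, abs_le]
      have h1 := hyd i k
      have h2 := hΔ' i k
      constructor
      · nlinarith [h1.1, dist_nonneg (x := p i) (y := p k)]
      · linarith [h1.2])
    exact hi (hv i)
  have hmeas : volume K / V * ∑ j, sphMeas d (Kp j) ≤ sphMeas d At := by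
    rw [hAt, measure_iUnion _ hBm, tsum_fintype, Finset.mul_sum]
    · exact Finset.sum_le_sum fun j _ => hw j
    · intro i j hij
      exact Set.disjoint_of_subset (hBK i) (hBK j) (hdisj hij)
  -- conclusion
  refine le_trans ?_ (le_mSph hAts hAtm hAtav)
  rw [sphProb_eq hAtm]
  have h1 : (volume K / V * ∑ j, sphMeas d (Kp j)).toReal ≤ (sphMeas d At).toReal :=
    ENNReal.toReal_mono (measure_ne_top _ _) hmeas
  rw [ENNReal.toReal_mul, ENNReal.toReal_div] at h1
  have hVr : V.toReal = (2 * T + 2 * D) ^ d := by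
    rw [hV, ENNReal.toReal_pow, ENNReal.toReal_ofReal (by positivity)]
  rw [hVr] at h1
  set β : ℝ := (volume K).toReal / (2 * T + 2 * D) ^ d with hβ
  have hsumfin : ∑ j, sphMeas d (Kp j) ≠ ∞ :=
    ENNReal.sum_ne_top.2 fun j _ => measure_ne_top _ _
  have h2 : 1 - ε / 2 ≤ (∑ j, sphMeas d (Kp j)).toReal := by
    have h3 := ENNReal.toReal_mono (ENNReal.add_ne_top.2 ⟨hsumfin, ENNReal.ofReal_ne_top⟩) hKsum
    rw [ENNReal.toReal_add hsumfin ENNReal.ofReal_ne_top,
      ENNReal.toReal_ofReal (by positivity)] at h3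
    simp only [ENNReal.toReal_one] at h3
    linarith
  have hβ0 : 0 ≤ β := by positivity
  have hβ1 : β ≤ 1 := by
    rw [hβ, div_le_one (by positivity)]
    have h4 := volume_inter_cube_le d K hT0.le
    rw [Set.inter_eq_left.2 hKT] at h4
    refine h4.trans ?_
    gcongr
    linarith
  nlinarith

end SphLim
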