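import Pool.Agent.SphLim.CapConv2

/-!
# Ingredients of the local theorem
-/

open MeasureTheory Filter Topology Metric
open scoped ENNReal Pointwise RealInnerProductSpace Real

namespace SphLim

variable {d : ℕ} {ι : Type*} [Fintype ι]

omit [Fintype ι] in
lemma prod_lip (J : Finset ι) {X Y : ι → ℝ} (hX : ∀ l, 0 ≤ X l ∧ X l ≤ 1)
    (hY : ∀ l, 0 ≤ Y l ∧ Y l ≤ 1) :
    |∏ l ∈ J, X l - ∏ l ∈ J, Y l| ≤ ∑ l ∈ J, |X l - Y l| := by
  classical
  induction J using Finset.induction_on with
  | empty => simp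
  | insert i J hi ih =>
    rw [Finset.prod_insert hi, Finset.prod_insert hi, Finset.sum_insert hi]
    have e : X i * ∏ l ∈ J, X l - Y i * ∏ l ∈ J, Y l =
        (X i - Y i) * ∏ l ∈ J, X l + Y i * (∏ l ∈ J, X l - ∏ l ∈ J, Y l) := by ring
    rw [e]
    refine (abs_add_le _ _).trans ?_
    rw [abs_mul, abs_mul]
    have h1 := prod_mem_unit hX J
    apply add_le_add
    · rw [abs_of_nonneg h1.1]
      calc |X i - Y i| * ∏ l ∈ J, X l ≤ |X i - Y i| * 1 := by gcongr; exact h1.2
        _ = _ := mul_one _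
    · rw [abs_of_nonneg (hY i).1]
      calc Y i * |∏ l ∈ J, X l - ∏ l ∈ J, Y l| ≤ 1 * |∏ l ∈ J, X l - ∏ l ∈ J, Y l| := by
            gcongr; exact (hY i).2
        _ ≤ _ := by rw [one_mul]; exact ih

lemma Th_lip (a : Finset ι → ℝ) {X Y : ι → ℝ} (hX : ∀ l, 0 ≤ X l ∧ X l ≤ 1)
    (hY : ∀ l, 0 ≤ Y l ∧ Y l ≤ 1) : |Th a X - Th a Y| ≤ (∑ J, |a J|) * ∑ l, |X l - Y l| := by
  unfold Th
  rw [← Finset.sum_sub_distrib]
  refine (Finset.abs_sum_le_sum_abs _ _).trans ?_
  rw [Finset.sum_mul]
  apply Finset.sum_le_sum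
  intro J _
  rw [← mul_sub, abs_mul]
  apply mul_le_mul_of_nonneg_left _ (abs_nonneg _)
  refine (prod_lip J hX hY).trans ?_
  exact Finset.sum_le_sum_of_subset_of_nonneg (Finset.subset_univ _) fun _ _ _ => abs_nonneg _

lemma measurable_Th (a : Finset ι → ℝ) {X : Type*} [MeasurableSpace X] {w : ι → X → ℝ}
    (hw : ∀ l, Measurable (w l)) : Measurable fun y => Th a (fun l => w l y) := by
  unfold Th
  apply Finset.measurable_sum
  intro J _
  exact (Finset.measurable_prod J fun l _ => hw l).const_mul _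

lemma Th_abs_le (a : Finset ι → ℝ) {X : ι → ℝ} (hX : ∀ l, 0 ≤ X l ∧ X l ≤ 1) :
    |Th a X| ≤ ∑ J, |a J| := by
  unfold Th
  refine (Finset.abs_sum_le_sum_abs _ _).trans ?_
  apply Finset.sum_le_sum
  intro J _
  rw [abs_mul, abs_of_nonneg (prod_mem_unit hX J).1]
  calc |a J| * ∏ l ∈ J, X l ≤ |a J| * 1 := by gcongr; exact (prod_mem_unit hX J).2
    _ = _ := mul_one _

/-- Lebesgue points. -/
def LebPt (f : Eu d → ℝ) (x : Eu d) : Prop := ∀ θ > 0, ∃ κ0 > 0, ∀ κ : ℝ, 0 < κ → κ < κ0 →
  ∫ y in closedBall x (2 * κ), |f y - f x| ≤ θ * (volume : Measure (Eu d)).real (closedBall 0 κ)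

lemma vol_cb_two (x : Eu d) {κ : ℝ} (hκ : 0 ≤ κ) :
    (volume : Measure (Eu d)).real (closedBall x (2 * κ)) =
      2 ^ d * (volume : Measure (Eu d)).real (closedBall 0 κ) := by
  rw [Measure.addHaar_real_closedBall _ _ (by positivity), Measure.addHaar_real_closedBall _ _ hκ,
    finrank_euclideanSpace, Fintype.card_fin, mul_pow]
  ring

lemma ae_LebPt {f : Eu d → ℝ} (hfm : Measurable f) (hf : ∀ y, 0 ≤ f y ∧ f y ≤ 1) :
    ∀ᵐ x, LebPt f x := by
  have hloc : LocallyIntegrable f (volume : Measure (Eu d)) := by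
    intro x
    refine ⟨closedBall x 1, closedBall_mem_nhds _ one_pos, ?_⟩
    refine Measure.integrableOn_of_bounded (M := 1) (vol_cb_lt_top _ _).ne
      hfm.aestronglyMeasurable (Eventually.of_forall fun y => ?_)
    rw [Real.norm_of_nonneg (hf y).1]
    exact (hf y).2
  filter_upwards [IsUnifLocDoublingMeasure.ae_tendsto_average_norm_sub
    (μ := (volume : Measure (Eu d))) hloc 1] with x hx θ hθ
  have h1 := hx (ι := ℝ) (l := 𝓝[>] 0) (fun _ => x) (fun r => r) tendsto_id (by
    filter_upwards [self_mem_nhdsWithin] with r hr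
    rw [one_mul]
    exact mem_closedBall_self (le_of_lt hr))
  have h2 := h1.eventually_lt_const (show (0 : ℝ) < θ / 2 ^ d by positivity)
  rw [Filter.Eventually, mem_nhdsGT_iff_exists_Ioo_subset] at h2
  obtain ⟨r0, hr0, hsub⟩ := h2
  refine ⟨r0 / 2, half_pos hr0, fun κ hκ hκ0 => ?_⟩
  have h3 := hsub (show 2 * κ ∈ Set.Ioo 0 r0 from ⟨by positivity, by linarith⟩)
  rw [Set.mem_ofPred_eq, setAverage_eq, smul_eq_mul, vol_cb_two x hκ.le] at h3
  have hv := vol_cb_pos (0 : Eu d) hκ
  have h4 : (∫ y in closedBall x (2 * κ), ‖f y - f x‖) <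
      θ / 2 ^ d * (2 ^ d * (volume : Measure (Eu d)).real (closedBall 0 κ)) := by
    rw [inv_mul_lt_iff₀ (by positivity)] at h3
    linarith
  have h5 : θ / 2 ^ d * (2 ^ d * (volume : Measure (Eu d)).real (closedBall 0 κ)) =
      θ * (volume : Measure (Eu d)).real (closedBall 0 κ) := by
    field_simp
  rw [h5] at h4
  exact h4.le

/-- Lower bound of the mass of the weight. -/
lemma Psi_lower {x : ι → Eu d} {ρ : ℝ} (hρ : 0 < ρ) (hxρ : ∀ l, ‖x l‖ = ρ) {κ : ℝ}
    (hκ : 0 < κ) : ∃ c > 0, ∃ t0 > 0, ∀ t : ℝ, 0 < t → t < t0 →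
      c * t ^ d ≤ ∫ g, Psi (fun l => bw ρ t (x l)) (fun l => bw ρ t (x l)) (κ * t) g
        ∂(haar (d + 1)) := by
  set n : ℝ := (Fintype.card ι : ℝ) with hn
  have hn0 : 0 ≤ n := Nat.cast_nonneg _
  set α : ℝ := κ / (2 * (n + 1) * (1 + ρ)) with hα
  have hα0 : 0 < α := by positivity
  obtain ⟨c, hc, hcl⟩ := haar_small (d := d) hα0
  refine ⟨c / 2, by positivity, 1 / (α + 1), by positivity, fun t ht htt => ?_⟩
  have hαt : α * t < 1 := by
    rw [lt_div_iff₀ (by positivity)] at htt
    nlinarith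
  have h1 := hcl t ht hαt
  set Us : Set (OG (d + 1)) := {u : OG (d + 1) | ‖act u (nP d) - nP d‖ ≤ α * t ∧
      ∀ x : Eu (d + 1), ‖act u x - x‖ ≤ α * ‖x‖} with hUs
  set v : ι → Eu (d + 1) := fun l => bw ρ t (x l) with hv
  have hκt : 0 < κ * t := by positivity
  have hPsi : ∀ u ∈ Us, 1 / 2 ≤ Psi v v (κ * t) u := by
    intro u hu
    have h2 : ∑ l, ‖act u (v l) - v l‖ ≤ κ * t / 2 := by
      calc ∑ l, ‖act u (v l) - v l‖ ≤ ∑ _l : ι, α * (1 + ρ) * t := by
            apply Finset.sum_le_sum
            intro l _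
            exact act_bw_sub ht.le u hu.1 hu.2 (hxρ l)
        _ = n * (α * (1 + ρ) * t) := by rw [Finset.sum_const, nsmul_eq_mul, Finset.card_univ]
        _ ≤ (n + 1) * (α * (1 + ρ) * t) := by
            have : 0 ≤ α * (1 + ρ) * t := by positivity
            nlinarith
        _ = κ * t / 2 := by
            rw [hα]
            field_simp
    have h4 := abs_prod_sub_prod_le Finset.univ
      (a := fun l => psf (v l) (κ * t) (act u (v l))) (b := fun _ => 1)
      (fun l => ⟨psf_nonneg _ _ _, psf_le_one _ hκt _⟩) (fun l => ⟨zero_le_one, le_rfl⟩)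
    rw [Finset.prod_const_one] at h4
    have h5 : ∑ l, |psf (v l) (κ * t) (act u (v l)) - 1| ≤ 1 / 2 := by
      have h6 : ∀ l, |psf (v l) (κ * t) (act u (v l)) - 1| ≤ ‖act u (v l) - v l‖ / (κ * t) := by
        intro l
        have h7 : psf (v l) (κ * t) (v l) = 1 := by
          unfold psf
          simp
        have h8 := psf_lip (p := v l) hκt (act u (v l)) (v l)
        rwa [h7] at h8
      refine (Finset.sum_le_sum fun l _ => h6 l).trans ?_
      rw [← Finset.sum_div, div_le_iff₀ hκt]
      linarith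
    have h9 := (abs_le.1 (h4.trans h5)).1
    change 1 / 2 ≤ ∏ l, psf (v l) (κ * t) (act u (v l))
    linarith
  have hUsm : MeasurableSet Us := by
    have hcl1 : IsClosed {u : OG (d + 1) | ‖act u (nP d) - nP d‖ ≤ α * t} :=
      isClosed_le ((continuous_act_left _).sub continuous_const).norm continuous_const
    have hcl2 : IsClosed {u : OG (d + 1) | ∀ x : Eu (d + 1), ‖act u x - x‖ ≤ α * ‖x‖} := by
      rw [Set.ofPred_forall]
      exact isClosed_iInter fun x =>
        isClosed_le ((continuous_act_left _).sub continuous_const).norm continuous_const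
    exact (hcl1.inter hcl2).measurableSet
  have hPm : Measurable (Psi v v (κ * t)) := (continuous_Psi v v (κ * t)).measurable
  calc c / 2 * t ^ d ≤ (1 / 2) * (haar (d + 1)).real Us := by linarith
    _ = ∫ g, Us.indicator (fun _ => (1 / 2 : ℝ)) g ∂(haar (d + 1)) := by
        rw [integral_indicator_const _ hUsm, smul_eq_mul, mul_comm]
    _ ≤ ∫ g, Psi v v (κ * t) g ∂(haar (d + 1)) := by
        apply integral_mono_of_nonneg
        · exact Eventually.of_forall fun g =>
            Set.indicator_nonneg (fun _ _ => by norm_num) _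
        · refine Integrable.of_bound (C := 1) hPm.aestronglyMeasurable
            (Eventually.of_forall fun g => ?_)
          rw [Real.norm_of_nonneg (Psi_nonneg _ _ _ _)]
          exact Psi_le_one v v hκt g
        · refine Eventually.of_forall fun g => ?_
          by_cases hg : g ∈ Us
          · rw [Set.indicator_of_mem hg]
            exact hPsi g hg
          · rw [Set.indicator_of_notMem hg]
            exact Psi_nonneg _ _ _ _

/-- Continuous approximation with values in the unit interval. -/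
lemma exists_cont_approx {f : Eu d → ℝ} (hfm : Measurable f) (hf : ∀ y, 0 ≤ f y ∧ f y ≤ 1)
    (R : ℝ) {δ : ℝ} (hδ : 0 < δ) : ∃ F : Eu d → ℝ, UniformContinuous F ∧
      (∀ y, 0 ≤ F y ∧ F y ≤ 1) ∧ ∫ y in closedBall (0 : Eu d) R, |f y - F y| ≤ δ := by
  have hfi : Integrable f (volume.restrict (closedBall (0 : Eu d) R)) := by
    refine Integrable.of_bound (C := 1) hfm.aestronglyMeasurable
      (Eventually.of_forall fun y => ?_)
    rw [Real.norm_of_nonneg (hf y).1]
    exact (hf y).2
  obtain ⟨g, hgs, hg, hgc, hgi⟩ := hfi.exists_hasCompactSupport_integral_sub_le hδ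
  have hgu : UniformContinuous g := hgs.uniformContinuous_of_continuous hgc
  refine ⟨fun y => max 0 (min 1 (g y)), ?_, ?_, ?_⟩
  · rw [Metric.uniformContinuous_iff] at hgu ⊢
    intro ε hε
    obtain ⟨δ', hδ', h⟩ := hgu ε hε
    refine ⟨δ', hδ', fun {a b} hab => ?_⟩
    refine lt_of_le_of_lt ?_ (h hab)
    rw [Real.dist_eq, Real.dist_eq]
    have h1 := abs_max_sub_max_le_abs (min 1 (g a)) (min 1 (g b)) 0
    rw [max_comm, max_comm (min 1 (g b))] at h1
    refine h1.trans ?_
    rw [min_comm, min_comm 1 (g b)]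
    exact abs_min_sub_min_le_max _ _ _ _ |>.trans (by simp)
  · intro y
    exact ⟨le_max_left _ _, max_le zero_le_one (min_le_left _ _)⟩
  · refine le_trans ?_ hg
    have hgm : Measurable g := hgc.measurable
    apply integral_mono_of_nonneg (Eventually.of_forall fun _ => abs_nonneg _)
    · exact (hfi.sub hgi).norm
    · refine Eventually.of_forall fun y => ?_
      simp only [Real.norm_eq_abs]
      have h1 := hf y
      rcases le_total 0 (g y) with h2 | h2
      · rcases le_total 1 (g y) with h3 | h3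
        · rw [min_eq_left h3, max_eq_right zero_le_one, abs_sub_comm (f y) 1,
            abs_sub_comm (f y) (g y), abs_of_nonneg (by linarith), abs_of_nonneg (by linarith)]
          linarith
        · rw [min_eq_right h3, max_eq_right h2]
      · rw [min_eq_right (h2.trans zero_le_one), max_eq_left h2, abs_of_nonneg (by linarith),
          abs_of_nonneg (by linarith)]
        linarith

/-- The size of the localised difference. -/
lemma int_diff_le {t R : ℝ} (ht : 0 < t) {u F : Eu (d + 1) → ℝ} (hum : Measurable u)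
    (hFm : Measurable F) (hu : ∀ y, 0 ≤ u y ∧ u y ≤ 1) (hF : ∀ y, 0 ≤ F y ∧ F y ≤ 1) :
    ∫ y, |(Vr d t R).indicator (u - F) y| ∂(sphMeas d) ≤
      cc d * (volume : Measure (Eu d)).real (closedBall 0 R) * t ^ d := by
  have hm : Measurable fun y => |(Vr d t R).indicator (u - F) y| :=
    ((hum.sub hFm).indicator (measurableSet_Vr t R)).abs
  rw [integral_chart ht hm]
  · have h1 : ∫ y : Eu d, wt t y * |(Vr d t R).indicator (u - F) (ct t y)| ≤
        ∫ y : Eu d, (closedBall (0 : Eu d) R).indicator 1 y := by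
      apply integral_mono_of_nonneg
      · exact Eventually.of_forall fun y => mul_nonneg (wt_pos t y).le (abs_nonneg _)
      · exact integrable_ind isClosed_closedBall.measurableSet (vol_cb_lt_top _ _)
      · refine Eventually.of_forall fun y => ?_
        by_cases hy : y ∈ closedBall (0 : Eu d) R
        · simp only
          rw [Set.indicator_of_mem hy, Set.indicator_of_mem ((ct_mem_Vr ht R y).2 hy)]
          simp only [Pi.one_apply, Pi.sub_apply]
          apply mul_le_one₀ (wt_le_one t y) (abs_nonneg _)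
          rw [abs_le]
          constructor <;> linarith [(hu (ct t y)).1, (hu (ct t y)).2, (hF (ct t y)).1,
            (hF (ct t y)).2]
        · simp only
          rw [Set.indicator_of_notMem hy,
            Set.indicator_of_notMem (fun h => hy ((ct_mem_Vr ht R y).1 h)), abs_zero, mul_zero]
    rw [integral_indicator_one isClosed_closedBall.measurableSet] at h1
    have h2 : 0 ≤ cc d * t ^ d := by
      have := cc_pos d
      positivity
    calc _ ≤ cc d * t ^ d * (volume : Measure (Eu d)).real (closedBall 0 R) :=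
          mul_le_mul_of_nonneg_left h1 h2
      _ = _ := by ring
  · intro x hx
    rw [Set.indicator_of_notMem (fun h => absurd h.1 (not_lt.2 hx)), abs_zero]

end SphLim
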