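import Pool.Agent.SphLim.Main1

/-!
# The local theorem: averages over translations
-/

open MeasureTheory Filter Topology Metric
open scoped ENNReal Pointwise RealInnerProductSpace Real

namespace SphLim

variable {d : ℕ} {ι : Type*} [Fintype ι]

lemma setInt_translate (G : Eu d → ℝ) (b0 y : Eu d) (κ : ℝ) :
    ∫ b in closedBall b0 κ, G (b + y) = ∫ z in closedBall (b0 + y) κ, G z := by
  rw [← integral_indicator isClosed_closedBall.measurableSet,
    ← integral_indicator isClosed_closedBall.measurableSet,
    ← integral_add_right_eq_self (fun z => (closedBall (b0 + y) κ).indicator (fun z => G z) z) y]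
  congr 1
  ext b
  by_cases hb : b ∈ closedBall b0 κ
  · have hb2 : b + y ∈ closedBall (b0 + y) κ := by
      rw [mem_closedBall, dist_add_right]
      exact hb
    rw [Set.indicator_of_mem hb, Set.indicator_of_mem hb2]
  · have hb2 : b + y ∉ closedBall (b0 + y) κ := by
      rw [mem_closedBall, dist_add_right]
      exact hb
    rw [Set.indicator_of_notMem hb, Set.indicator_of_notMem hb2]

instance cbFinite2 (b : Eu d) (R : ℝ) :
    IsFiniteMeasure ((volume : Measure (Eu d)).restrict (closedBall b R)) :=
  ⟨by rw [Measure.restrict_apply_univ]; exact vol_cb_lt_top _ _⟩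

lemma diff01 {s t : ℝ} (hs : 0 ≤ s ∧ s ≤ 1) (ht : 0 ≤ t ∧ t ≤ 1) : |s - t| ≤ 1 := by
  rw [abs_le]
  constructor <;> linarith [hs.1, hs.2, ht.1, ht.2]

lemma inner_lower (a : Finset ι → ℝ) {F f : Eu d → ℝ} (hFm : Measurable F)
    (hF01 : ∀ y, 0 ≤ F y ∧ F y ≤ 1) (hfm : Measurable f) (hf01 : ∀ y, 0 ≤ f y ∧ f y ≤ 1)
    {b0 : Eu d} {x y : ι → Eu d} {κ θ : ℝ} {Z : Eu d → ι → Eu d}
    (hZm : ∀ l, Measurable fun b => Z b l) (hy : ∀ l, ‖y l - x l‖ ≤ κ)
    (hZ : ∀ b ∈ closedBall b0 κ, ∀ l, |F (Z b l) - F (b + y l)| ≤ θ)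
    (hL : ∀ l, ∫ z in closedBall (b0 + x l) (2 * κ), |f z - f (b0 + x l)| ≤
      θ * (volume : Measure (Eu d)).real (closedBall 0 κ))
    (hF : ∀ l, ∫ z in closedBall (b0 + x l) (2 * κ), |f z - F z| ≤
      θ * (volume : Measure (Eu d)).real (closedBall 0 κ)) :
    (volume : Measure (Eu d)).real (closedBall 0 κ) * (Th a (fun l => f (b0 + x l)) -
      3 * ((∑ J, |a J|) * Fintype.card ι * θ)) ≤
      ∫ b in closedBall b0 κ, Th a (fun l => F (Z b l)) := by
  set A : ℝ := ∑ J, |a J| with hA
  have hA0 : 0 ≤ A := Finset.sum_nonneg fun _ _ => abs_nonneg _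
  set VB : ℝ := (volume : Measure (Eu d)).real (closedBall 0 κ) with hVB
  have hVBb : (volume : Measure (Eu d)).real (closedBall b0 κ) = VB := by
    rw [hVB]
    unfold Measure.real
    rw [Measure.addHaar_closedBall_center]
  set T0 : ℝ := Th a (fun l => f (b0 + x l)) with hT0
  -- pointwise bound
  have hpt : ∀ b ∈ closedBall b0 κ, T0 - A * ∑ l, (θ + |F (b + y l) - f (b0 + x l)|) ≤
      Th a (fun l => F (Z b l)) := by
    intro b hb
    have h1 := Th_lip a (X := fun l => F (Z b l)) (Y := fun l => f (b0 + x l))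
      (fun l => hF01 _) (fun l => hf01 _)
    have h2 : ∑ l, |F (Z b l) - f (b0 + x l)| ≤ ∑ l, (θ + |F (b + y l) - f (b0 + x l)|) := by
      apply Finset.sum_le_sum
      intro l _
      have h3 := abs_sub_le (F (Z b l)) (F (b + y l)) (f (b0 + x l))
      linarith [hZ b hb l]
    have h4 := (abs_le.1 h1).1
    have h5 := mul_le_mul_of_nonneg_left h2 hA0
    rw [← hT0] at h4
    linarith
  have hGm : ∀ l, Measurable fun b : Eu d => |F (b + y l) - f (b0 + x l)| := by
    intro l
    exact ((hFm.comp (measurable_add_const (y l))).sub measurable_const).abs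
  have hGi : ∀ l, Integrable (fun b : Eu d => |F (b + y l) - f (b0 + x l)|)
      (volume.restrict (closedBall b0 κ)) := by
    intro l
    refine Integrable.of_bound (C := 1) (hGm l).aestronglyMeasurable
      (Eventually.of_forall fun b => ?_)
    rw [Real.norm_eq_abs, abs_abs]
    exact diff01 (hF01 _) (hf01 _)
  have hsi : ∀ l, Integrable (fun b : Eu d => θ + |F (b + y l) - f (b0 + x l)|)
      (volume.restrict (closedBall b0 κ)) := fun l => (integrable_const θ).add (hGi l)
  have hsum : Integrable (fun b : Eu d => ∑ l, (θ + |F (b + y l) - f (b0 + x l)|))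
      (volume.restrict (closedBall b0 κ)) := integrable_finsetSum _ fun l _ => hsi l
  have hsumA : Integrable (fun b : Eu d => A * ∑ l, (θ + |F (b + y l) - f (b0 + x l)|))
      (volume.restrict (closedBall b0 κ)) := hsum.const_mul A
  have hint1 : Integrable (fun b : Eu d => T0 - A * ∑ l, (θ + |F (b + y l) - f (b0 + x l)|))
      (volume.restrict (closedBall b0 κ)) := (integrable_const T0).sub hsumA
  have hint2 : Integrable (fun b : Eu d => Th a (fun l => F (Z b l)))
      (volume.restrict (closedBall b0 κ)) := by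
    refine Integrable.of_bound (C := A)
      (measurable_Th a fun l => hFm.comp (hZm l)).aestronglyMeasurable
      (Eventually.of_forall fun b => ?_)
    exact Th_abs_le a fun l => hF01 _
  have h1 : ∫ b in closedBall b0 κ, (T0 - A * ∑ l, (θ + |F (b + y l) - f (b0 + x l)|)) ≤
      ∫ b in closedBall b0 κ, Th a (fun l => F (Z b l)) := by
    apply setIntegral_mono_on hint1 hint2 isClosed_closedBall.measurableSet hpt
  refine le_trans ?_ h1
  rw [integral_sub (integrable_const T0) hsumA, integral_const_mul,
    integral_finsetSum _ (fun l _ => hsi l), setIntegral_const, smul_eq_mul, hVBb]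
  have h2 : ∀ l, ∫ b in closedBall b0 κ, (θ + |F (b + y l) - f (b0 + x l)|) ≤ 3 * (θ * VB) := by
    intro l
    rw [integral_add (integrable_const _) (hGi l), setIntegral_const, smul_eq_mul, hVBb,
      setInt_translate (fun z => |F z - f (b0 + x l)|)]
    have hsub : closedBall (b0 + y l) κ ⊆ closedBall (b0 + x l) (2 * κ) := by
      apply closedBall_subset_closedBall'
      rw [dist_add_left, dist_eq_norm]
      linarith [hy l]
    have hi1 : IntegrableOn (fun z => |F z - f (b0 + x l)|) (closedBall (b0 + x l) (2 * κ)) := by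
      refine Integrable.of_bound (C := 1) ((hFm.sub measurable_const).abs).aestronglyMeasurable
        (Eventually.of_forall fun b => ?_)
      rw [Real.norm_eq_abs, abs_abs]
      exact diff01 (hF01 _) (hf01 _)
    have h3 : ∫ z in closedBall (b0 + y l) κ, |F z - f (b0 + x l)| ≤
        ∫ z in closedBall (b0 + x l) (2 * κ), |F z - f (b0 + x l)| := by
      apply setIntegral_mono_set hi1 (Eventually.of_forall fun _ => abs_nonneg _)
      exact Eventually.of_forall hsub
    have hi2 : IntegrableOn (fun z => |f z - F z|) (closedBall (b0 + x l) (2 * κ)) := by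
      refine Integrable.of_bound (C := 1) ((hfm.sub hFm).abs).aestronglyMeasurable
        (Eventually.of_forall fun b => ?_)
      rw [Real.norm_eq_abs, abs_abs]
      exact diff01 (hf01 _) (hF01 _)
    have hi3 : IntegrableOn (fun z => |f z - f (b0 + x l)|) (closedBall (b0 + x l) (2 * κ)) := by
      refine Integrable.of_bound (C := 1) ((hfm.sub measurable_const).abs).aestronglyMeasurable
        (Eventually.of_forall fun b => ?_)
      rw [Real.norm_eq_abs, abs_abs]
      exact diff01 (hf01 _) (hf01 _)
    have h4 : ∫ z in closedBall (b0 + x l) (2 * κ), |F z - f (b0 + x l)| ≤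
        (∫ z in closedBall (b0 + x l) (2 * κ), |f z - F z|) +
        ∫ z in closedBall (b0 + x l) (2 * κ), |f z - f (b0 + x l)| := by
      rw [← integral_add hi2 hi3]
      apply integral_mono_of_nonneg (Eventually.of_forall fun _ => abs_nonneg _) (hi2.add hi3)
      refine Eventually.of_forall fun z => ?_
      have := abs_sub_le (F z) (f z) (f (b0 + x l))
      rw [abs_sub_comm (F z) (f z)] at this
      exact this
    have h5 := hL l
    have h6 := hF l
    linarith
  have h3 : ∑ l, ∫ b in closedBall b0 κ, (θ + |F (b + y l) - f (b0 + x l)|) ≤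
      Fintype.card ι * (3 * (θ * VB)) := by
    calc _ ≤ ∑ _l : ι, 3 * (θ * VB) := Finset.sum_le_sum fun l _ => h2 l
      _ = _ := by rw [Finset.sum_const, nsmul_eq_mul, Finset.card_univ]
  have h4 := mul_le_mul_of_nonneg_left h3 hA0
  have h5 : VB * (T0 - 3 * (A * Fintype.card ι * θ)) =
      VB * T0 - A * (Fintype.card ι * (3 * (θ * VB))) := by ring
  rw [h5]
  linarith

lemma measurable_nt : Measurable fun q : Eu (d + 1) × Eu (d + 1) => nt q.1 q.2 := by
  have h0 : Measurable fun v : Eu (d + 1) => v 0 := by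
    have : Continuous fun x : Eu (d + 1) => x 0 := by fun_prop
    exact this.measurable
  have h1 : Measurable fun q : Eu (d + 1) × Eu (d + 1) => q.2 0 := h0.comp measurable_snd
  have h2 : Measurable fun q : Eu (d + 1) × Eu (d + 1) => q.1 0 := h0.comp measurable_fst
  have h3 : Measurable fun q : Eu (d + 1) × Eu (d + 1) => ⟪q.1, q.2⟫ :=
    (continuous_fst.inner continuous_snd).measurable
  unfold nt
  have h4 : Measurable fun q : Eu (d + 1) × Eu (d + 1) => (q.2 0 + ⟪q.1, q.2⟫) / (1 + q.1 0) :=
    (h1.add h3).div (measurable_const.add h2)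
  have h5 : Measurable fun q : Eu (d + 1) × Eu (d + 1) => nP d + q.1 :=
    measurable_const.add measurable_fst
  exact (measurable_snd.sub (h4.smul h5)).add ((h1.const_mul 2).smul measurable_fst)

/-- Left invariance: moving the weight to the base copy. -/
lemma moved_weight {t : ℝ} (b : Eu d) (v : ι → Eu (d + 1)) (lam : ℝ)
    (Φ : (ι → Eu (d + 1)) → ℝ) :
    ∫ g, Psi v (fun l => nt (ct t b) (v l)) lam g * Φ (fun l => act g (v l)) ∂(haar (d + 1)) =
    ∫ u, Psi v v lam u * Φ (fun l => nt (ct t b) (act u (v l))) ∂(haar (d + 1)) := by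
  obtain ⟨G, hG⟩ := exists_nt (norm_ct t b) (ct_zero_pos t b)
  rw [← integral_haar_mul_left G]
  congr 1
  ext u
  congr 1
  · unfold Psi
    apply Finset.prod_congr rfl
    intro l _
    unfold psf
    congr 3
    rw [act_mul]
    change ‖act G (act u (v l)) - nt (ct t b) (v l)‖ = ‖act u (v l) - v l‖
    rw [← hG (v l), ← act_sub, norm_act]
  · congr 1
    ext1 l
    rw [act_mul, hG]

end SphLim
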