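import Pool.Agent.SphLim.Main2

/-!
# The local theorem
-/

open MeasureTheory Filter Topology Metric
open scoped ENNReal Pointwise RealInnerProductSpace Real

namespace SphLim

variable {d : ℕ} {ι : Type*} [Fintype ι]

/-- Everything at a single small scale. -/
lemma fixed_scale {x : ι → Eu d} {ρ : ℝ} (hρ : 0 < ρ) (hxρ : ∀ l, ‖x l‖ = ρ)
    (a : Finset ι → ℝ) {t : ℝ} (ht : 0 < t) {b0 : Eu d} {κ θ ε1 c : ℝ}
    (hκ : 0 < κ) (hκ1 : κ ≤ 1)
    (ht1 : 8 * (‖b0‖ + 2 * ρ + 2) * t ≤ 1)
    (ht2 : (‖b0‖ + 2 * ρ + 2) ^ 3 * t ^ 2 ≤ κ / 2)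
    {U : Eu (d + 1) → ℝ}
    (hneg : ∀ g : OG (d + 1), Th a (fun l => U (act g (bw ρ t (x l)))) ≤ 0)
    {F f : Eu d → ℝ} (hFm : Measurable F) (hF01 : ∀ y, 0 ≤ F y ∧ F y ≤ 1)
    (hFu : ∀ y z : Eu d, ‖y - z‖ ≤ 100 * (‖b0‖ + 2 * ρ + 2) ^ 2 * t → |F y - F z| ≤ θ)
    (hfm : Measurable f) (hf01 : ∀ y, 0 ≤ f y ∧ f y ≤ 1)
    (hL : ∀ l, ∫ z in closedBall (b0 + x l) (2 * κ), |f z - f (b0 + x l)| ≤
      θ * (volume : Measure (Eu d)).real (closedBall 0 κ))
    (hF : ∀ l, ∫ z in closedBall (b0 + x l) (2 * κ), |f z - F z| ≤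
      θ * (volume : Measure (Eu d)).real (closedBall 0 κ))
    (hrep : ∀ p : ι → Eu (d + 1), (∀ l, ‖p l‖ = 1) →
      (∀ g, Psi (fun l => bw ρ t (x l)) p (κ / 2 * t) g ≠ 0 → ∀ l, act g (bw ρ t (x l)) ∈
        Vr d t (8 * (‖b0‖ + 2 * ρ + 2) + 2)) →
      |∫ g, Psi (fun l => bw ρ t (x l)) p (κ / 2 * t) g *
          Th a (fun l => U (act g (bw ρ t (x l)))) ∂(haar (d + 1)) -
        ∫ g, Psi (fun l => bw ρ t (x l)) p (κ / 2 * t) g *
          Th a (fun l => F (pj t (act g (bw ρ t (x l))))) ∂(haar (d + 1))| ≤ ε1 * t ^ d)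
    (hPsi : c * t ^ d ≤ ∫ g, Psi (fun l => bw ρ t (x l)) (fun l => bw ρ t (x l)) (κ / 2 * t) g
        ∂(haar (d + 1)))
    (hpos : 0 ≤ Th a (fun l => f (b0 + x l)) - 3 * ((∑ J, |a J|) * Fintype.card ι * θ)) :
    c * (Th a (fun l => f (b0 + x l)) - 3 * ((∑ J, |a J|) * Fintype.card ι * θ)) ≤ ε1 := by
  set A : ℝ := ∑ J, |a J| with hA
  have hA0 : 0 ≤ A := Finset.sum_nonneg fun _ _ => abs_nonneg _
  set M : ℝ := ‖b0‖ + 2 * ρ + 2 with hM
  have hb00 : 0 ≤ ‖b0‖ := norm_nonneg _
  have hM2 : 2 ≤ M := by linarith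
  have hM0 : 0 ≤ M := by linarith
  set v : ι → Eu (d + 1) := fun l => bw ρ t (x l) with hv
  set VB : ℝ := (volume : Measure (Eu d)).real (closedBall 0 κ) with hVB
  have hVB0 : 0 < VB := vol_cb_pos _ hκ
  have hVBb : (volume : Measure (Eu d)).real (closedBall b0 κ) = VB := by
    rw [hVB]
    unfold Measure.real
    rw [Measure.addHaar_closedBall_center]
  have hMt : M * t ≤ 1 := by nlinarith
  have htρ : t * ρ ≤ 1 := by nlinarith
  have htρ0 : 0 ≤ t * ρ := by positivity
  have hvn : ∀ l, ‖v l‖ = 1 := fun l => norm_bw htρ htρ0 (hxρ l)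
  have hvN : ∀ l, ‖v l - nP d‖ ≤ 2 * (t * ρ) := fun l => norm_bw_sub_nP htρ htρ0 ht.le (hxρ l)
  have hκt : 0 < κ / 2 * t := by positivity
  have hPm : ∀ p, Measurable (Psi v p (κ / 2 * t)) := fun p => (continuous_Psi v p _).measurable
  -- step 1: the bound for each translation
  have hE : ∀ b ∈ closedBall b0 κ, ∫ u, Psi v v (κ / 2 * t) u *
      Th a (fun l => F (pj t (nt (ct t b) (act u (v l))))) ∂(haar (d + 1)) ≤ ε1 * t ^ d := by
    intro b hb
    have hbM : ‖b‖ ≤ M := by
      rw [mem_closedBall, dist_eq_norm] at hb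
      have : ‖b‖ ≤ ‖b0‖ + ‖b - b0‖ := by
        have e : b = b0 + (b - b0) := by abel
        conv_lhs => rw [e]
        exact norm_add_le _ _
      linarith
    obtain ⟨G, hG⟩ := exists_nt (norm_ct t b) (ct_zero_pos t b)
    set p : ι → Eu (d + 1) := fun l => nt (ct t b) (v l) with hp
    have hpn : ∀ l, ‖p l‖ = 1 := by
      intro l
      rw [hp]
      simp only
      rw [← hG, norm_act]
      exact hvn l
    have hpN : ∀ l, ‖p l - nP d‖ ≤ 4 * M * t := by
      intro l
      have h1 : ‖v l - nP d‖ ≤ M * t := by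
        refine (hvN l).trans ?_
        nlinarith
      exact (pj_nt_est ht hM0 ht1 hbM (hvn l) h1).1
    have hV : ∀ g, Psi v p (κ / 2 * t) g ≠ 0 → ∀ l, act g (v l) ∈ Vr d t (8 * M + 2) := by
      intro g hg l
      have h1 := Psi_supp hκt hg l
      have h2 : ‖act g (v l) - nP d‖ ≤ (4 * M + 1) * t := by
        have e : act g (v l) - nP d = (act g (v l) - p l) + (p l - nP d) := by abel
        rw [e]
        refine (norm_add_le _ _).trans ?_
        have h3 := hpN l
        nlinarith
      have h3 : ‖act g (v l)‖ = 1 := by rw [norm_act]; exact hvn l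
      have h4 : (4 * M + 1) * t ≤ 1 := by nlinarith
      have h5 := height_ge h3 h4 h2
      have h6 := (pj_est h3 ht h4 h2).1
      refine ⟨by linarith, ?_⟩
      linarith
    have h1 := hrep p hpn hV
    have h2 : ∫ g, Psi v p (κ / 2 * t) g * Th a (fun l => U (act g (v l))) ∂(haar (d + 1)) ≤ 0 := by
      apply integral_nonpos
      intro g
      exact mul_nonpos_of_nonneg_of_nonpos (Psi_nonneg _ _ _ _) (hneg g)
    have h3 := moved_weight (t := t) b v (κ / 2 * t) (fun w => Th a (fun l => F (pj t (w l))))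
    rw [← h3]
    have h4 := (abs_le.1 h1).1
    linarith
  -- step 2: measurability
  have hZm2 : Measurable fun q : Eu d × OG (d + 1) =>
      Th a (fun l => F (pj t (nt (ct t q.1) (act q.2 (v l))))) := by
    apply measurable_Th
    intro l
    apply hFm.comp
    apply (measurable_pj t).comp
    have h1 : Measurable fun q : Eu d × OG (d + 1) => (ct t q.1, act q.2 (v l)) :=
      ((continuous_ct t).measurable.comp measurable_fst).prodMk
        ((measurable_act_left (v l)).comp measurable_snd)
    exact measurable_nt.comp h1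
  set W : Eu d × OG (d + 1) → ℝ := fun q => Psi v v (κ / 2 * t) q.2 *
      Th a (fun l => F (pj t (nt (ct t q.1) (act q.2 (v l))))) with hW
  have hWm : Measurable W := ((hPm v).comp measurable_snd).mul hZm2
  have hWb : ∀ q, |W q| ≤ A := by
    intro q
    rw [hW]
    simp only
    rw [abs_mul, abs_of_nonneg (Psi_nonneg _ _ _ _)]
    calc Psi v v (κ / 2 * t) q.2 * |Th a (fun l => F (pj t (nt (ct t q.1) (act q.2 (v l)))))|
        ≤ 1 * A := mul_le_mul (Psi_le_one v v hκt _) (Th_abs_le a fun l => hF01 _)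
          (abs_nonneg _) zero_le_one
      _ = A := one_mul _
  have hWi : Integrable W ((volume.restrict (closedBall b0 κ)).prod (haar (d + 1))) :=
    Integrable.of_bound (C := A) hWm.aestronglyMeasurable
      (Eventually.of_forall fun q => by simpa using hWb q)
  -- step 3: integrate over the ball
  have h1 : ∫ b in closedBall b0 κ, ∫ u, W (b, u) ∂(haar (d + 1)) ≤ VB * (ε1 * t ^ d) := by
    have h2 : ∫ b in closedBall b0 κ, ∫ u, W (b, u) ∂(haar (d + 1)) ≤
        ∫ _b in closedBall b0 κ, ε1 * t ^ d := by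
      apply setIntegral_mono_on hWi.integral_prod_left (integrable_const _)
        isClosed_closedBall.measurableSet
      intro b hb
      exact hE b hb
    rw [setIntegral_const, smul_eq_mul, hVBb] at h2
    exact h2
  rw [integral_integral_swap hWi] at h1
  -- step 4: the inner integral
  set T1 : ℝ := Th a (fun l => f (b0 + x l)) - 3 * (A * Fintype.card ι * θ) with hT1
  have hin : ∀ u, Psi v v (κ / 2 * t) u * (VB * T1) ≤ ∫ b in closedBall b0 κ, W (b, u) := by
    intro u
    rw [hW]
    simp only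
    rw [integral_const_mul]
    by_cases hu : Psi v v (κ / 2 * t) u = 0
    · rw [hu, zero_mul, zero_mul]
    · apply mul_le_mul_of_nonneg_left _ (Psi_nonneg _ _ _ _)
      have hs := Psi_supp hκt hu
      have hun : ∀ l, ‖act u (v l)‖ = 1 := fun l => by rw [norm_act]; exact hvn l
      have huN : ∀ l, ‖act u (v l) - nP d‖ ≤ M * t := by
        intro l
        have e : act u (v l) - nP d = (act u (v l) - v l) + (v l - nP d) := by abel
        rw [e]
        refine (norm_add_le _ _).trans ?_
        have h3 := hs l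
        have h4 := hvN l
        nlinarith
      apply inner_lower a hFm hF01 hfm hf01 (y := fun l => pj t (act u (v l)))
        (Z := fun b l => pj t (nt (ct t b) (act u (v l))))
      · intro l
        apply (measurable_pj t).comp
        have h1 : Measurable fun b : Eu d => (ct t b, act u (v l)) :=
          (continuous_ct t).measurable.prodMk measurable_const
        exact measurable_nt.comp h1
      · intro l
        have h3 := (pj_est (hun l) ht hMt (huN l)).2
        have h4 : ‖t⁻¹ • hor (act u (v l)) - x l‖ ≤ κ / 2 := by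
          have e : t⁻¹ • hor (act u (v l)) - x l = t⁻¹ • hor (act u (v l) - v l) := by
            have e1 : hor (v l) = t • x l := hor_bw _ _ _
            rw [hor_sub, e1, smul_sub, smul_smul, inv_mul_cancel₀ ht.ne', one_smul]
          rw [e, norm_smul, norm_inv, Real.norm_of_nonneg ht.le, inv_mul_le_iff₀ ht]
          refine (norm_hor_le _).trans ?_
          have := hs l
          linarith
        have e : pj t (act u (v l)) - x l = (pj t (act u (v l)) - t⁻¹ • hor (act u (v l))) +
            (t⁻¹ • hor (act u (v l)) - x l) := by abel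
        rw [e]
        refine (norm_add_le _ _).trans ?_
        linarith
      · intro b hb l
        apply hFu
        have hbM : ‖b‖ ≤ M := by
          rw [mem_closedBall, dist_eq_norm] at hb
          have : ‖b‖ ≤ ‖b0‖ + ‖b - b0‖ := by
            have e : b = b0 + (b - b0) := by abel
            conv_lhs => rw [e]
            exact norm_add_le _ _
          linarith
        exact (pj_nt_est ht hM0 ht1 hbM (hun l) (huN l)).2
      · exact hL
      · exact hF
  have hmono : ∫ u, Psi v v (κ / 2 * t) u * (VB * T1) ∂(haar (d + 1)) ≤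
      ∫ u, (∫ b in closedBall b0 κ, W (b, u)) ∂(haar (d + 1)) := by
    apply integral_mono _ hWi.integral_prod_right hin
    apply Integrable.mul_const
    refine Integrable.of_bound (C := 1) (hPm v).aestronglyMeasurable
      (Eventually.of_forall fun g => ?_)
    rw [Real.norm_of_nonneg (Psi_nonneg _ _ _ _)]
    exact Psi_le_one v v hκt g
  rw [integral_mul_const] at hmono
  have htd : 0 < t ^ d := by positivity
  have h5 : c * t ^ d * (VB * T1) ≤ VB * (ε1 * t ^ d) := by
    have h6 : c * t ^ d * (VB * T1) ≤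
        (∫ u, Psi v v (κ / 2 * t) u ∂(haar (d + 1))) * (VB * T1) :=
      mul_le_mul_of_nonneg_right hPsi (by positivity)
    linarith
  have h7 : (VB * t ^ d) * (c * T1) ≤ (VB * t ^ d) * ε1 := by linarith
  exact le_of_mul_le_mul_left h7 (by positivity)

end SphLim
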