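import Pool.Agent.SphLim.Main3

/-!
# The local theorem: choice of the parameters
-/

open MeasureTheory Filter Topology Metric
open scoped ENNReal Pointwise RealInnerProductSpace Real

namespace SphLim

variable {d : ℕ} {ι : Type*} [Fintype ι]

theorem local_theorem (hd : 2 ≤ d) (hι : 2 ≤ Fintype.card ι) {x : ι → Eu d}
    (hx : AffineIndependent ℝ x) {ρ : ℝ} (hρ : 0 < ρ) (hxρ : ∀ l, ‖x l‖ = ρ)
    (a : Finset ι → ℝ) (ha : ∀ J, a J ≠ 0 → J.card ≤ d ∨ 3 ≤ d)
    {τ : ℕ → ℝ} (hτ0 : ∀ k, 0 < τ k) (hτ : Tendsto τ atTop (𝓝 0))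
    {U : ℕ → Eu (d + 1) → ℝ} (hUm : ∀ k, Measurable (U k)) (hU : ∀ k x, 0 ≤ U k x ∧ U k x ≤ 1)
    (hneg : ∀ k (g : OG (d + 1)), Th a (fun l => U k (act g (bw ρ (τ k) (x l)))) ≤ 0)
    {R0 : ℝ} {f : Eu d → ℝ} (hfm : Measurable f) (hf : ∀ y, 0 ≤ f y ∧ f y ≤ 1)
    (hweak : ∀ g : Eu d → ℝ, Measurable g → ∀ C : ℝ, (∀ y, |g y| ≤ C) →
      Tendsto (fun k => ∫ y, U k (ct (τ k) y) * g y ∂(volume.restrict (closedBall 0 R0))) atTop
        (𝓝 (∫ y, f y * g y ∂(volume.restrict (closedBall 0 R0)))))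
    {b0 : Eu d} (hb0 : 8 * (‖b0‖ + 2 * ρ + 2) + 2 ≤ R0)
    (hleb : ∀ l, LebPt f (b0 + x l)) : Th a (fun l => f (b0 + x l)) ≤ 0 := by
  by_contra hcon
  push Not at hcon
  set T0 : ℝ := Th a (fun l => f (b0 + x l)) with hT0
  set A : ℝ := ∑ J, |a J| with hA
  have hA0 : 0 ≤ A := Finset.sum_nonneg fun _ _ => abs_nonneg _
  set n : ℝ := (Fintype.card ι : ℝ) with hn
  have hn0 : 0 ≤ n := Nat.cast_nonneg _
  set θ : ℝ := T0 / (8 * (A * n + 1)) with hθ
  have hθ0 : 0 < θ := by positivity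
  have hAnθ : A * n * θ ≤ T0 / 8 := by
    rw [hθ, mul_div_assoc', div_le_div_iff₀ (by positivity) (by norm_num)]
    nlinarith
  have hb00 : 0 ≤ ‖b0‖ := norm_nonneg _
  set M : ℝ := ‖b0‖ + 2 * ρ + 2 with hM
  have hM2 : 2 ≤ M := by linarith
  have hM0 : 0 < M := by linarith
  set R1 : ℝ := 8 * M + 2 with hR1
  have hR10 : 0 ≤ R1 := by linarith
  -- the scale κ
  choose κ0 hκ0 hκ0' using fun l => hleb l θ hθ0
  obtain ⟨m, hm, hm'⟩ := exists_pos_lower κ0 hκ0
  set κ : ℝ := min 1 (m / 2) with hκ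
  have hκpos : 0 < κ := by positivity
  have hκ1 : κ ≤ 1 := min_le_left _ _
  have hκm : κ ≤ m / 2 := min_le_right _ _
  have hL : ∀ l, ∫ z in closedBall (b0 + x l) (2 * κ), |f z - f (b0 + x l)| ≤
      θ * (volume : Measure (Eu d)).real (closedBall 0 κ) := by
    intro l
    have := hm' l
    exact hκ0' l κ hκpos (by linarith)
  set VB : ℝ := (volume : Measure (Eu d)).real (closedBall 0 κ) with hVB
  have hVB0 : 0 < VB := vol_cb_pos _ hκpos
  obtain ⟨c, hc, t1, ht1, hPsi⟩ := Psi_lower (d := d) hρ hxρ (κ := κ / 2) (by positivity)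
  set C1 : ℝ := cc d * (volume : Measure (Eu d)).real (closedBall 0 R1) with hC1
  have hcc := cc_pos d
  have hC10 : 0 ≤ C1 := by positivity
  obtain ⟨S, δ1, t2, hS, hδ1, ht2, hrep⟩ := repl hd hι hx hρ hxρ (κ := κ / 2) (C1 := C1)
    (ε1 := c * T0 / 4) (by positivity) hC10 (by positivity) a ha
  set δ2 : ℝ := min (δ1 / (2 * (cc d * 2 ^ (d + 1)))) (θ * VB) with hδ2
  have hδ20 : 0 < δ2 := by positivity
  obtain ⟨F, hFuc, hF01, hFL⟩ := exists_cont_approx hfm hf R1 hδ20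
  have hFc : Continuous F := hFuc.continuous
  have hFm : Measurable F := hFc.measurable
  obtain ⟨δ3, hδ3, hFδ⟩ := Metric.uniformContinuous_iff.1 hFuc θ hθ0
  -- L1 bound on small balls
  have hFsmall : ∀ l, ∫ z in closedBall (b0 + x l) (2 * κ), |f z - F z| ≤ θ * VB := by
    intro l
    have hsub : closedBall (b0 + x l) (2 * κ) ⊆ closedBall (0 : Eu d) R1 := by
      apply closedBall_subset_closedBall'
      rw [dist_zero_right]
      have := norm_add_le b0 (x l)
      rw [hxρ l] at this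
      linarith
    have hi : IntegrableOn (fun z => |f z - F z|) (closedBall (0 : Eu d) R1) := by
      refine Integrable.of_bound (C := 1) ((hfm.sub hFm).abs).aestronglyMeasurable
        (Eventually.of_forall fun b => ?_)
      rw [Real.norm_eq_abs, abs_abs]
      exact diff01 (hf _) (hF01 _)
    calc ∫ z in closedBall (b0 + x l) (2 * κ), |f z - F z| ≤
          ∫ z in closedBall (0 : Eu d) R1, |f z - F z| := by
            apply setIntegral_mono_set hi (Eventually.of_forall fun _ => abs_nonneg _)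
            exact Eventually.of_forall hsub
      _ ≤ δ2 := hFL
      _ ≤ θ * VB := min_le_right _ _
  -- cap averages
  have hcap : ∀ᶠ k in atTop, ∀ q, ∫ y, |capAvg ((Vr d (τ k) R1).indicator
      (U k - fun x => F (pj (τ k) x))) (S q * τ k) y| ∂(sphMeas d) ≤ δ1 * (τ k) ^ d := by
    rw [eventually_all]
    intro q
    have h1 := capAvg_conv hτ0 hτ hUm hU hb0 hR10 hfm hf hweak hFm hF01 (hS q)
      (show 0 < δ1 / 2 by positivity)
    filter_upwards [h1] with k hk
    refine hk.trans ?_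
    have htd : 0 < (τ k) ^ d := by
      have := hτ0 k
      positivity
    apply mul_le_mul_of_nonneg_right _ htd.le
    have h2 : cc d * 2 ^ (d + 1) * ∫ y in closedBall (0 : Eu d) R1, |f y - F y| ≤
        cc d * 2 ^ (d + 1) * (δ1 / (2 * (cc d * 2 ^ (d + 1)))) := by
      apply mul_le_mul_of_nonneg_left _ (by positivity)
      exact hFL.trans (min_le_left _ _)
    have h3 : cc d * 2 ^ (d + 1) * (δ1 / (2 * (cc d * 2 ^ (d + 1)))) = δ1 / 2 := by
      field_simp
    rw [h3] at h2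
    linarith
  have hev : ∀ s > 0, ∀ᶠ k in atTop, τ k < s := fun s hs => hτ.eventually_lt_const hs
  obtain ⟨k, hkcap, hk1, hk2, hk3, hk4, hk5, hk6⟩ := (hcap.and ((hev t1 ht1).and ((hev t2 ht2).and
    ((hev (1 / (8 * M)) (by positivity)).and ((hev (κ / (2 * M ^ 3)) (by positivity)).and
    ((hev 1 one_pos).and (hev (δ3 / (100 * M ^ 2 + 1)) (by positivity)))))))).exists
  have ht := hτ0 k
  set t : ℝ := τ k with hteq
  have hA1 : 8 * M * t ≤ 1 := by
    rw [lt_div_iff₀ (by positivity)] at hk3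
    linarith
  have hA2 : M ^ 3 * t ^ 2 ≤ κ / 2 := by
    rw [lt_div_iff₀ (by positivity)] at hk4
    have h1 : 0 ≤ M ^ 3 * t := by positivity
    have h2 : M ^ 3 * t ^ 2 = (M ^ 3 * t) * t := by ring
    rw [h2]
    nlinarith
  have hA3 : ∀ y z : Eu d, ‖y - z‖ ≤ 100 * M ^ 2 * t → |F y - F z| ≤ θ := by
    intro y z hyz
    have h1 : dist y z < δ3 := by
      rw [dist_eq_norm]
      refine lt_of_le_of_lt hyz ?_
      rw [lt_div_iff₀ (by positivity)] at hk6
      nlinarith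
    have h2 := hFδ h1
    rw [Real.dist_eq] at h2
    exact h2.le
  have hwm : Measurable fun x : Eu (d + 1) => F (pj t x) := hFm.comp (measurable_pj t)
  have hfin := fixed_scale (c := c) (ε1 := c * T0 / 4) hρ hxρ a ht hκpos hκ1 hA1 hA2 (hneg k) hFm
    hF01 hA3 hfm hf hL hFsmall (by
      intro p hp hV
      exact hrep t ht hk2 (U k) (fun x => F (pj t x)) (Vr d t R1) p (hUm k) hwm
        (measurableSet_Vr _ _) (hU k) (fun y => hF01 _) hp hV
        (int_diff_le ht (hUm k) hwm (hU k) (fun y => hF01 _)) hkcap) (hPsi t ht hk1) (by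
      rw [← hT0, ← hA, ← hn]
      linarith)
  rw [← hT0, ← hA, ← hn] at hfin
  have h9 : c * (T0 - 3 * (A * n * θ)) ≥ c * (5 / 8 * T0) := by
    apply mul_le_mul_of_nonneg_left _ hc.le
    linarith
  have h10 : 0 < c * T0 := by positivity
  linarith

end SphLim
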