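import Pool.Agent.SphLim.Circle

/-!
# Asymptotic form of the key estimate
-/

open MeasureTheory Filter Topology Metric
open scoped ENNReal Pointwise RealInnerProductSpace Real

namespace SphLim

variable {d : ℕ} {ι : Type*} [Fintype ι]

omit [Fintype ι] in
lemma dist_le_of_norm {x : ι → Eu d} {ρ : ℝ} (hxρ : ∀ l, ‖x l‖ = ρ) (l m : ι) :
    ‖x l - x m‖ ≤ 2 * ρ := by
  refine (norm_sub_le _ _).trans ?_
  rw [hxρ, hxρ]
  linarith

theorem term_small (hd : 1 ≤ d) {x : ι → Eu d} (hx : AffineIndependent ℝ x) {ρ : ℝ}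
    (hρ : 0 < ρ) (hxρ : ∀ l, ‖x l‖ = ρ) {J : Finset ι} (hJd : J.card + 1 ≤ d) {j0 : ι}
    (hj0 : j0 ∈ J) {i : ι} (hi : i ∉ J) {κ C1 ε1 : ℝ} (hκ : 0 < κ) (hC1 : 0 ≤ C1)
    (hε1 : 0 < ε1) : ∃ s > 0, ∃ δ1 > 0, ∃ t0 > 0, ∀ t : ℝ, 0 < t → t < t0 →
      ∀ (h : Eu (d + 1) → ℝ) (p : ι → Eu (d + 1)) (H : OG (d + 1) → ℝ),
      Measurable h → (∀ y, |h y| ≤ 1) → (∀ l, ‖p l‖ = 1) → Measurable H → (∀ g, |H g| ≤ 1) →
      (∀ g R : OG (d + 1), (∀ j ∈ J, act R (bw ρ t (x j)) = bw ρ t (x j)) → H (g * R) = H g) →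
      ∫ y, |h y| ∂(sphMeas d) ≤ C1 * t ^ d →
      ∫ y, |capAvg h (s * t) y| ∂(sphMeas d) ≤ δ1 * t ^ d →
      |∫ g, Psi (fun l => bw ρ t (x l)) p (κ * t) g * H g *
        h (act g (bw ρ t (x i))) ∂(haar (d + 1))| ≤ ε1 * t ^ d := by
  obtain ⟨c, hc, hcα⟩ := exists_dist_lower hx hi
  set C0 : ℝ := cc d * (volume : Measure (Eu d)).real (closedBall 0 (2 * κ)) with hC0
  have hC0pos : 0 < C0 := mul_pos (cc_pos d) (vol_cb_pos _ (by positivity))
  set δ : ℝ := ε1 / (2 * C0) with hδ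
  have hδ0 : 0 < δ := by positivity
  set n : ℝ := (Fintype.card ι : ℝ) with hn
  have hn0 : 0 ≤ n := Nat.cast_nonneg _
  set η : ℝ := min 1 (ε1 * κ / (4 * (n * (2 * ρ) * C0 + 1))) with hη
  have hη0 : 0 < η := by positivity
  have hη1 : η ≤ 1 := min_le_left _ _
  have hηπ : η < π := lt_of_le_of_lt hη1 (by linarith [Real.pi_gt_three])
  have hη2 : n * (2 * ρ) * η / κ * C0 ≤ ε1 / 4 := by
    have h1 : η ≤ ε1 * κ / (4 * (n * (2 * ρ) * C0 + 1)) := min_le_right _ _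
    have h2 : 0 < 4 * (n * (2 * ρ) * C0 + 1) := by positivity
    rw [le_div_iff₀ h2] at h1
    rw [div_mul_eq_mul_div, div_le_iff₀ hκ]
    nlinarith
  set ε : ℝ := ε1 * η ^ 2 * (2 * δ) / (4 * (C1 + 1)) with hε
  have hε0 : 0 < ε := by positivity
  obtain ⟨s0, hs0, hT⟩ := tv_cos (Qeta_ac η) (Qeta_supp hηπ) hε0
  set s : ℝ := min c (s0 * c / 2) with hs
  have hspos : 0 < s := by positivity
  have hsc : s / c + s ^ 2 / (2 * c ^ 2) ≤ s0 := by
    have h1 : s ≤ c := min_le_left _ _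
    have h2 : s ≤ s0 * c / 2 := min_le_right _ _
    have h3 : s / c ≤ 1 := (div_le_one hc).2 h1
    have h4 : s / c ≤ s0 / 2 := by
      rw [div_le_iff₀ hc]
      linarith
    have h5 : s ^ 2 / (2 * c ^ 2) = (s / c) * (s / c) / 2 := by
      field_simp
    rw [h5]
    have h6 : 0 ≤ s / c := by positivity
    nlinarith
  refine ⟨s, hspos, ε1 * (2 * δ) / 4, by positivity, min (1 / (2 * (ρ + κ + 1))) (1 / 2),
    by positivity, ?_⟩
  intro t ht0 htt h p H hm hb hp hHm hHb hHinv hN1 hC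
  have ht1 : t < 1 / (2 * (ρ + κ + 1)) := lt_of_lt_of_le htt (min_le_left _ _)
  have ht2 : t < 1 / 2 := lt_of_lt_of_le htt (min_le_right _ _)
  have ht3 : t * (ρ + κ + 1) < 1 / 2 := by
    rw [lt_div_iff₀ (by positivity)] at ht1
    linarith
  have htρ : t * ρ < 1 / 2 := by nlinarith
  have htρ0 : 0 ≤ t * ρ := by positivity
  have htκ : κ * t < 1 := by nlinarith
  have hvn : ∀ l, ‖bw ρ t (x l)‖ = 1 := fun l => norm_bw (by linarith) htρ0 (hxρ l)
  have hth : t ≤ hgt ρ t := by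
    have := hgt_ge (ρ := ρ) (t := t) (by linarith) htρ0
    linarith
  have hspan := dist_span_bw (x := x) hcα ht0.le hth
  obtain ⟨a, e, f, r, hr, hae, haf, hef, he, hf, ha, hvi, hperp⟩ :=
    exists_circle (v := fun l => bw ρ t (x l)) hJd (hvn i) hspan
  have hct : 0 < c * t := by positivity
  have hr0 : 0 < r := lt_of_lt_of_le hct hr
  have hsr : (s * t) / r + (s * t) ^ 2 / (2 * r ^ 2) ≤ s0 := by
    refine le_trans ?_ hsc
    have h1 : s * t / r ≤ s / c := by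
      rw [div_le_div_iff₀ hr0 hc]
      nlinarith
    have h2 : (s * t) ^ 2 / (2 * r ^ 2) ≤ s ^ 2 / (2 * c ^ 2) := by
      rw [div_le_div_iff₀ (by positivity) (by positivity)]
      have h3 : (c * t) ^ 2 ≤ r ^ 2 := pow_le_pow_left₀ hct.le hr 2
      nlinarith [sq_nonneg s]
    linarith
  have hD : ∀ l, ‖bw ρ t (x l) - bw ρ t (x j0)‖ ≤ 2 * ρ * t := by
    intro l
    rw [norm_bw_sub ht0.le]
    have := dist_le_of_norm hxρ l j0
    nlinarith
  have hκt : 0 < κ * t := by positivity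
  have hst : 0 < s * t := by positivity
  have hkey := key_term hd hm hb hr0 hae haf hef he hf ha (v := fun l => bw ρ t (x l)) (p := p)
    hvn hj0 hvi hperp hHm hHb hHinv hD hκt hη0 hst hsr hT hδ0
  have hm0 : (sphMeas d).real (closedBall (p j0) (κ * t)) ≤ C0 * t ^ d :=
    cap_le ht0 htκ (hp j0)
  have hm00 : 0 ≤ (sphMeas d).real (closedBall (p j0) (κ * t)) := measureReal_nonneg
  have htd : 0 < t ^ d := by positivity
  refine hkey.trans ?_
  have h1 : (Fintype.card ι : ℝ) * (2 * ρ * t) * η / (κ * t) *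
      (sphMeas d).real (closedBall (p j0) (κ * t)) ≤ ε1 / 4 * t ^ d := by
    have e1 : (Fintype.card ι : ℝ) * (2 * ρ * t) * η / (κ * t) = n * (2 * ρ) * η / κ := by
      rw [hn]
      field_simp
    rw [e1]
    calc n * (2 * ρ) * η / κ * (sphMeas d).real (closedBall (p j0) (κ * t))
        ≤ n * (2 * ρ) * η / κ * (C0 * t ^ d) := by
          apply mul_le_mul_of_nonneg_left hm0
          positivity
      _ = (n * (2 * ρ) * η / κ * C0) * t ^ d := by ring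
      _ ≤ ε1 / 4 * t ^ d := by gcongr
  have h2 : δ / 2 * (sphMeas d).real (closedBall (p j0) (κ * t)) ≤ ε1 / 4 * t ^ d := by
    calc δ / 2 * (sphMeas d).real (closedBall (p j0) (κ * t)) ≤ δ / 2 * (C0 * t ^ d) := by
          gcongr
      _ = ε1 / 4 * t ^ d := by
          rw [hδ]
          field_simp
          ring
  have h3 : (ε * (∫ y, |h y| ∂(sphMeas d)) / η ^ 2 + ∫ y, |capAvg h (s * t) y| ∂(sphMeas d)) /
      (2 * δ) ≤ ε1 / 2 * t ^ d := by
    rw [div_le_iff₀ (by positivity)]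
    have h4 : ε * (∫ y, |h y| ∂(sphMeas d)) / η ^ 2 ≤ ε1 * (2 * δ) / 4 * t ^ d := by
      rw [div_le_iff₀ (by positivity)]
      have h5 : ε * (∫ y, |h y| ∂(sphMeas d)) ≤ ε * (C1 * t ^ d) := by gcongr
      have h6 : ε * C1 ≤ ε1 * (2 * δ) / 4 * η ^ 2 := by
        rw [hε]
        rw [div_mul_eq_mul_div, div_le_iff₀ (by positivity)]
        have h7 : 0 ≤ ε1 * η ^ 2 * (2 * δ) := by positivity
        nlinarith
      calc ε * (∫ y, |h y| ∂(sphMeas d)) ≤ ε * C1 * t ^ d := by linarith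
        _ ≤ ε1 * (2 * δ) / 4 * η ^ 2 * t ^ d := by gcongr
        _ = _ := by ring
    calc _ ≤ ε1 * (2 * δ) / 4 * t ^ d + ε1 * (2 * δ) / 4 * t ^ d := add_le_add h4 hC
      _ = _ := by ring
  linarith

end SphLim
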