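import Pool.Agent.SphLim.Word6

/-!
# Long words have a non-degenerate differential
-/

open MeasureTheory Set Filter Topology
open scoped RealInnerProductSpace

namespace SphLim

/-- The pattern `Y, X, X, Y, Y, X, X, Y, ...`. -/
def pat {A : Type*} (X Y : A) : ℕ → A
  | 0 => Y
  | 1 => X
  | 2 => X
  | 3 => Y
  | k + 4 => pat X Y k

lemma pat_shift {A : Type*} (X Y : A) : (fun k => pat X Y (k + 1 + 1 + 1 + 1)) = pat X Y := by
  funext k
  rfl

lemma pat_prop {A : Type*} {X Y : A} {p : A → Prop} (hX : p X) (hY : p Y) :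
    ∀ k, p (pat X Y k)
  | 0 => hY
  | 1 => hX
  | 2 => hX
  | 3 => hY
  | k + 4 => pat_prop hX hY k

section general

variable {A : Type*} [NormedRing A] [NormedAlgebra ℝ A]

/-- The angles of a block in front of a word. -/
def c4 {n : ℕ} (x0 x1 x2 x3 : ℝ) (w : Fin n → ℝ) : Fin (n + 1 + 1 + 1 + 1) → ℝ :=
  Fin.cons x0 (Fin.cons x1 (Fin.cons x2 (Fin.cons x3 w)))

lemma AJ_c4_0 (n : ℕ) (X Y : A) (x0 x1 x2 x3 : ℝ) (w : Fin n → ℝ) :
    AJ (n + 1 + 1 + 1 + 1) (pat X Y) (c4 x0 x1 x2 x3 w) 0 = Y := AJ_zero _ _ _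

lemma AJ_c4_1 (n : ℕ) (X Y : A) (x0 x1 x2 x3 : ℝ) (w : Fin n → ℝ) :
    AJ (n + 1 + 1 + 1 + 1) (pat X Y) (c4 x0 x1 x2 x3 w) (Fin.succ 0) =
      EE Y x0 * X * EE Y (-x0) := by
  rw [AJ_succ, AJ_zero]
  rfl

lemma AJ_c4_3 (n : ℕ) (X Y : A) (x0 x1 x2 x3 : ℝ) (w : Fin n → ℝ) :
    AJ (n + 1 + 1 + 1 + 1) (pat X Y) (c4 x0 x1 x2 x3 w) (Fin.succ (Fin.succ (Fin.succ 0))) =
      EE Y x0 * (EE X x1 * (EE X x2 * Y * EE X (-x2)) * EE X (-x1)) * EE Y (-x0) := by
  rw [AJ_succ, AJ_succ, AJ_succ, AJ_zero]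
  rfl

lemma AJ_c4_4 (n : ℕ) (X Y : A) (x0 x1 x2 x3 : ℝ) (w : Fin n → ℝ) (j : Fin n) :
    AJ (n + 1 + 1 + 1 + 1) (pat X Y) (c4 x0 x1 x2 x3 w) j.succ.succ.succ.succ =
      EE Y x0 * (EE X x1 * (EE X x2 * (EE Y x3 * AJ n (pat X Y) w j * EE Y (-x3)) *
        EE X (-x2)) * EE X (-x1)) * EE Y (-x0) := by
  rw [AJ_succ, AJ_succ, AJ_succ, AJ_succ]
  rfl

/-- The span of the logarithmic derivatives. -/
noncomputable def sp (n : ℕ) (X : ℕ → A) (z : Fin n → ℝ) : Submodule ℝ A :=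
  Submodule.span ℝ (Set.range (AJ n X z))

lemma sp_le_c4 (n : ℕ) (X Y : A) (w : Fin n → ℝ) :
    sp n (pat X Y) w ≤ sp (n + 1 + 1 + 1 + 1) (pat X Y) (c4 0 0 0 0 w) := by
  refine Submodule.span_le.2 ?_
  rintro _ ⟨j, rfl⟩
  have := AJ_c4_4 n X Y 0 0 0 0 w j
  simp only [neg_zero, EE_zero, one_mul, mul_one] at this
  rw [← this]
  exact Submodule.subset_span ⟨_, rfl⟩

/-- Conjugation as a linear equivalence. -/
noncomputable def cjE (g g' : A) (h : g * g' = 1) (h' : g' * g = 1) : A ≃ₗ[ℝ] A where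
  toFun Z := g' * Z * g
  invFun Z := g * Z * g'
  map_add' a b := by rw [mul_add, add_mul]
  map_smul' r a := by rw [mul_smul_comm, smul_mul_assoc]; rfl
  left_inv Z := by
    simp only
    rw [← mul_assoc, ← mul_assoc, h, one_mul, mul_assoc, h, mul_one]
  right_inv Z := by
    simp only
    rw [← mul_assoc, ← mul_assoc, h', one_mul, mul_assoc, h', mul_one]

lemma cjE_apply (g g' : A) (h : g * g' = 1) (h' : g' * g = 1) (Z : A) :
    cjE g g' h h' Z = g' * Z * g := rfl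

/-- Maximality of the rank forces the span to contain the generating set. -/
theorem max_mem [FiniteDimensional ℝ A] {X Y : A} (hX : X * X * X = -X) (hY : Y * Y * Y = -Y)
    {n : ℕ} {w : Fin n → ℝ}
    (hmax : ∀ z : Fin (n + 1 + 1 + 1 + 1) → ℝ, Module.finrank ℝ
      (sp (n + 1 + 1 + 1 + 1) (pat X Y) z) ≤ Module.finrank ℝ (sp n (pat X Y) w)) (a b : ℝ) :
    Y ∈ sp n (pat X Y) w ∧ EE Y a * X * EE Y (-a) ∈ sp n (pat X Y) w ∧
      EE Y a * (EE X b * Y * EE X (-b)) * EE Y (-a) ∈ sp n (pat X Y) w := by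
  set S := sp n (pat X Y) w with hS
  set z : Fin (n + 1 + 1 + 1 + 1) → ℝ := c4 0 0 (-b) (-a) w with hz
  set g : A := EE X (-b) * EE Y (-a) with hg
  set g' : A := EE Y a * EE X b with hg'
  have hgg : g * g' = 1 := by
    rw [hg, hg', mul_assoc, ← mul_assoc (EE Y (-a)), EE_neg_mul hY, one_mul, EE_neg_mul hX]
  have hgg' : g' * g = 1 := by
    rw [hg, hg', mul_assoc, ← mul_assoc (EE X b), EE_mul_neg hX, one_mul, EE_mul_neg hY]
  set T := sp (n + 1 + 1 + 1 + 1) (pat X Y) z with hT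
  set c := cjE g g' hgg hgg' with hc
  have hfr : Module.finrank ℝ (T.map (c : A →ₗ[ℝ] A)) = Module.finrank ℝ T :=
    LinearEquiv.finrank_map_eq c T
  have hXX : EE X b * X * EE X (-b) = X := by
    rw [EE_comm, mul_assoc, EE_mul_neg hX, mul_one]
  have hYY : EE Y a * Y * EE Y (-a) = Y := by
    rw [EE_comm, mul_assoc, EE_mul_neg hY, mul_one]
  have hbX : ∀ Z : A, EE X b * (EE X (-b) * Z * EE X b) * EE X (-b) = Z := by
    intro Z
    rw [← mul_assoc, ← mul_assoc, EE_mul_neg hX, one_mul, mul_assoc, EE_mul_neg hX, mul_one]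
  have haY : ∀ Z : A, EE Y a * (EE Y (-a) * Z * EE Y a) * EE Y (-a) = Z := by
    intro Z
    rw [← mul_assoc, ← mul_assoc, EE_mul_neg hY, one_mul, mul_assoc, EE_mul_neg hY, mul_one]
  have hle : S ≤ T.map (c : A →ₗ[ℝ] A) := by
    refine Submodule.span_le.2 ?_
    rintro _ ⟨j, rfl⟩
    refine ⟨AJ (n + 1 + 1 + 1 + 1) (pat X Y) z j.succ.succ.succ.succ,
      Submodule.subset_span ⟨_, rfl⟩, ?_⟩
    have h1 : AJ (n + 1 + 1 + 1 + 1) (pat X Y) z j.succ.succ.succ.succ =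
        EE X (-b) * (EE Y (-a) * AJ n (pat X Y) w j * EE Y a) * EE X b := by
      rw [hz, AJ_c4_4]
      simp only [neg_zero, EE_zero, one_mul, mul_one, neg_neg]
    rw [h1]
    show g' * (EE X (-b) * (EE Y (-a) * AJ n (pat X Y) w j * EE Y a) * EE X b) * g = _
    rw [hg, hg']
    have : EE Y a * EE X b * (EE X (-b) * (EE Y (-a) * AJ n (pat X Y) w j * EE Y a) * EE X b) *
        (EE X (-b) * EE Y (-a)) = EE Y a * (EE X b * (EE X (-b) * (EE Y (-a) *
          AJ n (pat X Y) w j * EE Y a) * EE X b) * EE X (-b)) * EE Y (-a) := by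
      simp only [mul_assoc]
    rw [this, hbX, haY]
  have heq : S = T.map (c : A →ₗ[ℝ] A) := by
    refine Submodule.eq_of_le_of_finrank_le hle ?_
    rw [hfr]
    exact hmax z
  have hmem : ∀ j, c (AJ (n + 1 + 1 + 1 + 1) (pat X Y) z j) ∈ S := by
    intro j
    rw [heq]
    exact ⟨_, Submodule.subset_span ⟨j, rfl⟩, rfl⟩
  refine ⟨?_, ?_, ?_⟩
  · have h3 := hmem (Fin.succ (Fin.succ (Fin.succ 0)))
    rw [hz, AJ_c4_3] at h3
    simp only [neg_zero, EE_zero, one_mul, mul_one, neg_neg] at h3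
    have : c (EE X (-b) * Y * EE X b) = Y := by
      show g' * (EE X (-b) * Y * EE X b) * g = Y
      rw [hg, hg']
      have : EE Y a * EE X b * (EE X (-b) * Y * EE X b) * (EE X (-b) * EE Y (-a)) =
          EE Y a * (EE X b * (EE X (-b) * Y * EE X b) * EE X (-b)) * EE Y (-a) := by
        simp only [mul_assoc]
      rw [this, hbX, hYY]
    rwa [this] at h3
  · have h3 := hmem (Fin.succ 0)
    rw [hz, AJ_c4_1] at h3
    simp only [neg_zero, EE_zero, one_mul, mul_one] at h3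
    have : c X = EE Y a * X * EE Y (-a) := by
      show g' * X * g = _
      rw [hg, hg']
      have : EE Y a * EE X b * X * (EE X (-b) * EE Y (-a)) =
          EE Y a * (EE X b * X * EE X (-b)) * EE Y (-a) := by
        simp only [mul_assoc]
      rw [this, hXX]
    rwa [this] at h3
  · have h3 := hmem 0
    rw [hz, AJ_c4_0] at h3
    have : c Y = EE Y a * (EE X b * Y * EE X (-b)) * EE Y (-a) := by
      show g' * Y * g = _
      rw [hg, hg']
      simp only [mul_assoc]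
    rwa [this] at h3

/-- A word of maximal rank among words of length divisible by four. -/
theorem exists_max_word [FiniteDimensional ℝ A] (X Y : A) : ∃ (N : ℕ) (w : Fin (4 * N) → ℝ),
    ∀ z : Fin (4 * N + 1 + 1 + 1 + 1) → ℝ, Module.finrank ℝ
      (sp (4 * N + 1 + 1 + 1 + 1) (pat X Y) z) ≤ Module.finrank ℝ (sp (4 * N) (pat X Y) w) := by
  set B : Set ℕ := {k | ∃ (N : ℕ) (w : Fin (4 * N) → ℝ),
    k = Module.finrank ℝ (sp (4 * N) (pat X Y) w)} with hB
  have hne : B.Nonempty := ⟨_, 0, fun _ => 0, rfl⟩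
  have hbd : BddAbove B := ⟨Module.finrank ℝ A, by
    rintro k ⟨N, w, rfl⟩
    exact Submodule.finrank_le _⟩
  obtain ⟨N, w, hNw⟩ := Nat.sSup_mem hne hbd
  refine ⟨N, w, fun z => ?_⟩
  rw [← hNw]
  exact le_csSup hbd ⟨N + 1, z, rfl⟩

end general

/-- The Gram determinant does not vanish if the span contains all rigid motions. -/
theorem DD_ne_zero {n : ℕ} {X : ℕ → A4} {z : Fin n → ℝ} (h2 : ∀ c, L2 c ∈ sp n X z)
    (h3 : ∀ m m', L3 m m' ∈ sp n X z) : DD ph n X z ≠ 0 := by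
  intro hD
  unfold DD at hD
  obtain ⟨v, hv0, hv⟩ := Matrix.exists_mulVec_eq_zero_iff.2 hD
  apply hv0
  have h4 : ∀ j, ∑ i, MM ph n X z i j * v i = 0 := by
    have h5 : ∑ j, (∑ i, MM ph n X z i j * v i) ^ 2 = 0 := by
      have h6 : dotProduct v ((GG ph n X z).mulVec v) = 0 := by rw [hv, dotProduct_zero]
      unfold GG at h6
      rw [← Matrix.mulVec_mulVec, Matrix.dotProduct_mulVec] at h6
      have h7 : Matrix.vecMul v (MM ph n X z) = (MM ph n X z).transpose.mulVec v := by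
        rw [Matrix.mulVec_transpose]
      rw [h7] at h6
      rw [← h6]
      simp only [dotProduct, Matrix.mulVec, Matrix.transpose_apply]
      refine Finset.sum_congr rfl fun j _ => ?_
      rw [sq]
    intro j
    have := (Finset.sum_eq_zero_iff_of_nonneg (fun j _ => sq_nonneg _)).1 h5 j (Finset.mem_univ j)
    exact pow_eq_zero_iff (two_ne_zero) |>.1 this
  -- the functional
  have hfun : ∀ Z ∈ sp n X z, ∑ i, ph Z i * v i = 0 := by
    intro Z hZ
    refine Submodule.span_induction (p := fun Z _ => ∑ i, ph Z i * v i = 0) ?_ ?_ ?_ ?_ hZ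
    · rintro _ ⟨j, rfl⟩
      exact h4 j
    · simp
    · intro x y _ _ hx hy
      rw [map_add]
      simp only [Pi.add_apply, add_mul, Finset.sum_add_distrib]
      rw [hx, hy, add_zero]
    · intro c x _ hx
      rw [map_smul]
      simp only [Pi.smul_apply, smul_eq_mul, mul_assoc, ← Finset.mul_sum]
      rw [hx, mul_zero]
  have c0 := hfun _ (h2 (e3 0))
  have c1 := hfun _ (h2 (e3 1))
  have c2 := hfun _ (h2 (e3 2))
  have r0 := hfun _ (h3 (e3 1) (e3 0))
  have r1 := hfun _ (h3 (e3 2) (e3 0))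
  have r2 := hfun _ (h3 (e3 2) (e3 1))
  simp only [ph_apply, L2_apply, L3_apply, Fin.sum_univ_succ, inner_e3] at c0 c1 c2 r0 r1 r2
  simp [e3] at c0 c1 c2 r0 r1 r2
  funext i
  fin_cases i
  · exact c0
  · exact c1
  · exact c2
  · exact r0
  · exact r1
  · exact r2

/-- All sufficiently long words have a non-degenerate differential somewhere. -/
theorem exists_word {X Y : A4} (hX : X * X * X = -X) (hY : Y * Y * Y = -Y)
    (hgen : ∀ S : Submodule ℝ A4, Y ∈ S → (∀ a, EE Y a * X * EE Y (-a) ∈ S) →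
      (∀ a c, EE Y a * (EE X c * Y * EE X (-c)) * EE Y (-a) ∈ S) →
      (∀ c, L2 c ∈ S) ∧ ∀ n n', L3 n n' ∈ S) :
    ∃ N0 : ℕ, ∀ N, N0 ≤ N → ∃ z, DD ph (4 * N) (pat X Y) z ≠ 0 := by
  obtain ⟨N0, w, hmax⟩ := exists_max_word X Y
  have h0 := hgen (sp (4 * N0) (pat X Y) w) (max_mem hX hY hmax 0 0).1
    (fun a => (max_mem hX hY hmax a 0).2.1) (fun a c => (max_mem hX hY hmax a c).2.2)
  refine ⟨N0, fun N hN => ?_⟩
  have hex : ∃ z, (∀ c, L2 c ∈ sp (4 * N) (pat X Y) z) ∧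
      ∀ n n', L3 n n' ∈ sp (4 * N) (pat X Y) z := by
    induction N, hN using Nat.le_induction with
    | base => exact ⟨w, h0⟩
    | succ N _ ih =>
      obtain ⟨z, hz1, hz2⟩ := ih
      refine ⟨c4 0 0 0 0 z, fun c => ?_, fun n n' => ?_⟩
      · exact sp_le_c4 (4 * N) X Y z (hz1 c)
      · exact sp_le_c4 (4 * N) X Y z (hz2 n n')
  obtain ⟨z, hz1, hz2⟩ := hex
  exact ⟨z, DD_ne_zero hz1 hz2⟩

end SphLim
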