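import Pool.Agent.SphLim.Block
import Pool.Agent.SphLim.Word7

/-!
# Averaging operators along one-parameter groups and their iterates
-/

open MeasureTheory Filter Topology Metric
open scoped ENNReal Pointwise RealInnerProductSpace Real

namespace SphLim

variable {n : ℕ}

/-- The (unnormalised) average along a curve of rotations. -/
noncomputable def Av (k : ℝ → OG n) (f : OG n → ℝ) (g : OG n) : ℝ :=
  ∫ θ in Set.Icc 0 (2 * π), f (g * k θ)

lemma measurable_mul_curve {k : ℝ → OG n} (hk : Continuous k) :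
    Measurable fun q : OG n × ℝ => q.1 * k q.2 :=
  (continuous_fst.mul (hk.comp continuous_snd)).measurable

lemma measurable_Av {k : ℝ → OG n} (hk : Continuous k) {f : OG n → ℝ} (hf : Measurable f) :
    Measurable (Av k f) :=
  ((hf.comp (measurable_mul_curve hk)).stronglyMeasurable.integral_prod_right').measurable

lemma Av_abs_le (k : ℝ → OG n) {f : OG n → ℝ} {C : ℝ} (hC : ∀ g, |f g| ≤ C) (g : OG n) :
    |Av k f g| ≤ 2 * π * C := by
  have h1 := norm_integral_le_of_norm_le_const (μ := volume.restrict (Set.Icc (0 : ℝ) (2 * π)))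
    (f := fun θ => f (g * k θ)) (C := C) (Eventually.of_forall fun θ => by simpa using hC _)
  rw [Real.norm_eq_abs, Measure.real, Measure.restrict_apply_univ, Real.volume_Icc, sub_zero,
    ENNReal.toReal_ofReal (by positivity)] at h1
  unfold Av
  linarith

/-- Measurable and bounded. -/
def BM (f : OG n → ℝ) : Prop := Measurable f ∧ ∃ C, ∀ g, |f g| ≤ C

lemma BM.integrable {f : OG n → ℝ} (hf : BM f) : Integrable f (haar n) := by
  obtain ⟨hm, C, hC⟩ := hf
  exact Integrable.of_bound hm.aestronglyMeasurable C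
    (Eventually.of_forall fun g => by simpa using hC g)

lemma BM.mul {f h : OG n → ℝ} (hf : BM f) (hh : BM h) : BM fun g => f g * h g := by
  obtain ⟨hm, C, hC⟩ := hf
  obtain ⟨hm', C', hC'⟩ := hh
  refine ⟨hm.mul hm', C * C', fun g => ?_⟩
  rw [abs_mul]
  exact mul_le_mul (hC g) (hC' g) (abs_nonneg _) ((abs_nonneg _).trans (hC g))

lemma BM.av {f : OG n → ℝ} (hf : BM f) {k : ℝ → OG n} (hk : Continuous k) : BM (Av k f) := by
  obtain ⟨hm, C, hC⟩ := hf
  exact ⟨measurable_Av hk hm, 2 * π * C, Av_abs_le k hC⟩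

lemma integral_reflect (φ : ℝ → ℝ) :
    ∫ θ in Set.Icc 0 (2 * π), φ (2 * π - θ) = ∫ θ in Set.Icc 0 (2 * π), φ θ := by
  have hpi : (0 : ℝ) ≤ 2 * π := by positivity
  rw [integral_Icc_eq_integral_Ioc, integral_Icc_eq_integral_Ioc,
    ← intervalIntegral.integral_of_le hpi, ← intervalIntegral.integral_of_le hpi,
    intervalIntegral.integral_comp_sub_left]
  simp

instance : IsFiniteMeasure (volume.restrict (Set.Icc (0 : ℝ) (2 * π))) :=
  ⟨by rw [Measure.restrict_apply_univ]; exact measure_Icc_lt_top⟩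

/-- Self-adjointness of the averages. -/
theorem Av_symm {k : ℝ → OG n} (hk : Continuous k) (hk2 : ∀ θ, k (2 * π - θ) = (k θ)⁻¹)
    {f h : OG n → ℝ} (hf : BM f) (hh : BM h) :
    ∫ g, f g * Av k h g ∂(haar n) = ∫ g, Av k f g * h g ∂(haar n) := by
  obtain ⟨hfm, C, hC⟩ := hf
  obtain ⟨hhm, C', hC'⟩ := hh
  have hm := measurable_mul_curve hk
  have h1 : ∫ g, f g * Av k h g ∂(haar n) =
      ∫ θ in Set.Icc 0 (2 * π), ∫ g, f g * h (g * k θ) ∂(haar n) := by
    rw [← integral_integral_swap]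
    · congr 1
      ext g
      unfold Av
      rw [integral_const_mul]
    · refine Integrable.of_bound (C := C * C') ?_ (Eventually.of_forall fun q => ?_)
      · exact ((hfm.comp measurable_fst).mul (hhm.comp hm)).aestronglyMeasurable
      · simp only [Function.uncurry, norm_mul, Real.norm_eq_abs]
        exact mul_le_mul (hC _) (hC' _) (abs_nonneg _) ((abs_nonneg _).trans (hC q.1))
  have h2 : ∀ θ, ∫ g, f g * h (g * k θ) ∂(haar n) = ∫ g, f (g * (k θ)⁻¹) * h g ∂(haar n) := by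
    intro θ
    rw [← integral_haar_mul_right (f := fun g => f (g * (k θ)⁻¹) * h g) (k θ)]
    congr 1
    ext g
    rw [mul_assoc, mul_inv_cancel, mul_one]
  have h3 : ∀ g, ∫ θ in Set.Icc 0 (2 * π), f (g * (k θ)⁻¹) * h g = Av k f g * h g := by
    intro g
    rw [integral_mul_const]
    congr 1
    unfold Av
    rw [← integral_reflect]
    congr 1
    ext θ
    rw [hk2, inv_inv]
  rw [h1]
  simp_rw [h2]
  rw [integral_integral_swap]
  · simp_rw [h3]
  · refine Integrable.of_bound (C := C * C') ?_ (Eventually.of_forall fun q => ?_)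
    · have : Measurable fun q : ℝ × OG n => q.2 * (k q.1)⁻¹ :=
        (continuous_snd.mul (hk.comp continuous_fst).inv).measurable
      exact ((hfm.comp this).mul (hhm.comp measurable_snd)).aestronglyMeasurable
    · simp only [Function.uncurry, norm_mul, Real.norm_eq_abs]
      exact mul_le_mul (hC _) (hC' _) (abs_nonneg _) ((abs_nonneg _).trans (hC q.2))

/-- Cauchy-Schwarz. -/
theorem cs_int {f h : OG n → ℝ} (hf : BM f) (hh : BM h) :
    (∫ g, f g * h g ∂(haar n)) ^ 2 ≤ (∫ g, f g * f g ∂(haar n)) * ∫ g, h g * h g ∂(haar n) := by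
  set a := ∫ g, f g * f g ∂(haar n) with ha
  set b := ∫ g, f g * h g ∂(haar n) with hb
  set c := ∫ g, h g * h g ∂(haar n) with hc
  have key : ∀ s : ℝ, 0 ≤ c * (s * s) + (-2 * b) * s + a := by
    intro s
    have h1 : ∫ g, (f g - s * h g) * (f g - s * h g) ∂(haar n) =
        c * (s * s) + (-2 * b) * s + a := by
      have e : ∀ g, (f g - s * h g) * (f g - s * h g) =
          f g * f g + (-2 * s) * (f g * h g) + (s * s) * (h g * h g) := fun g => by ring
      simp_rw [e]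
      have i1 := (hf.mul hf).integrable
      have i2 := (hf.mul hh).integrable
      have i3 := (hh.mul hh).integrable
      have i12 : Integrable (fun g => f g * f g + (-2 * s) * (f g * h g)) (haar n) :=
        i1.add (i2.const_mul _)
      rw [integral_add i12 (i3.const_mul _),
        integral_add i1 (i2.const_mul _), integral_const_mul, integral_const_mul]
      ring
    rw [← h1]
    exact integral_nonneg fun g => mul_self_nonneg _
  have h2 := discrim_le_zero key
  unfold discrim at h2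
  nlinarith

/-- Words in a group. -/
def Wd {G : Type*} [Group G] : (m : ℕ) → (ℕ → ℝ → G) → (Fin m → ℝ) → G
  | 0, _, _ => 1
  | m + 1, k, z => k 0 (z 0) * Wd m (fun j => k (j + 1)) (Fin.tail z)

lemma Wd_succ {G : Type*} [Group G] (m : ℕ) (k : ℕ → ℝ → G) (z : Fin (m + 1) → ℝ) :
    Wd (m + 1) k z = k 0 (z 0) * Wd m (fun j => k (j + 1)) (Fin.tail z) := rfl

lemma continuous_Wd : ∀ (m : ℕ) (k : ℕ → ℝ → OG n), (∀ j, Continuous (k j)) →
    Continuous (Wd m k)
  | 0, _, _ => continuous_const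
  | m + 1, k, hk => by
    have h1 := continuous_Wd m (fun j => k (j + 1)) fun j => hk (j + 1)
    have h2 : Continuous fun z : Fin (m + 1) → ℝ => Fin.tail z := by
      unfold Fin.tail
      fun_prop
    exact ((hk 0).comp (continuous_apply 0)).mul (h1.comp h2)

/-- Iterated averages. -/
noncomputable def IA : (m : ℕ) → (ℕ → ℝ → OG n) → (OG n → ℝ) → OG n → ℝ
  | 0, _, f => f
  | m + 1, k, f => Av (k 0) (IA m (fun j => k (j + 1)) f)

lemma Bx_succ_integral (m : ℕ) (φ : (Fin (m + 1) → ℝ) → ℝ) (hφm : Measurable φ) {C : ℝ}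
    (hφ : ∀ z, |φ z| ≤ C) :
    ∫ z in Bx (m + 1), φ z = ∫ θ in Set.Icc 0 (2 * π), ∫ w in Bx m, φ (Fin.cons θ w) := by
  have hmp := (volume_preserving_piFinSuccAbove (fun _ : Fin (m + 1) => ℝ) 0)
  have hmp' := hmp.symm
  have e1 : ∀ q : ℝ × (Fin m → ℝ), (MeasurableEquiv.piFinSuccAbove (fun _ : Fin (m + 1) => ℝ)
      0).symm q = Fin.cons q.1 q.2 := by
    intro q
    simp [MeasurableEquiv.piFinSuccAbove, Fin.insertNthEquiv]
  have hpre : (MeasurableEquiv.piFinSuccAbove (fun _ : Fin (m + 1) => ℝ) 0).symm ⁻¹' Bx (m + 1) =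
      Set.Icc 0 (2 * π) ×ˢ Bx m := by
    ext q
    simp only [Set.mem_preimage, e1, Bx, Set.mem_prod, Set.mem_Icc, Pi.le_def, Fin.forall_fin_succ,
      Fin.cons_zero, Fin.cons_succ, Pi.zero_apply]
    tauto
  have h1 := hmp'.setIntegral_preimage_emb
    (MeasurableEquiv.piFinSuccAbove (fun _ : Fin (m + 1) => ℝ) 0).symm.measurableEmbedding
    φ (Bx (m + 1))
  rw [← h1, hpre]
  have hcomp : IsCompact (Set.Icc (0 : ℝ) (2 * π) ×ˢ Bx m) := isCompact_Icc.prod (isCompact_Bx m)
  have : IsFiniteMeasure (((volume : Measure ℝ).prod (volume : Measure (Fin m → ℝ))).restrict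
      (Set.Icc (0 : ℝ) (2 * π) ×ˢ Bx m)) :=
    ⟨by rw [Measure.restrict_apply_univ]; exact hcomp.measure_lt_top⟩
  rw [Measure.volume_eq_prod, setIntegral_prod]
  · simp_rw [e1]
  · refine Integrable.of_bound (C := C) ?_ (Eventually.of_forall fun q => by simpa using hφ _)
    exact (hφm.comp (MeasurableEquiv.measurable _)).aestronglyMeasurable

theorem IA_eq : ∀ (m : ℕ) (k : ℕ → ℝ → OG n), (∀ j, Continuous (k j)) → ∀ f : OG n → ℝ, BM f →
    ∀ g, IA m k f g = ∫ z in Bx m, f (g * Wd m k z)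
  | 0, k, _, f, _, g => by
    have : (volume : Measure (Fin 0 → ℝ)).restrict (Bx 0) = Measure.dirac default := by
      have h1 : Bx 0 = Set.univ := by
        ext z
        simp [Bx, Pi.le_def]
      rw [h1, Measure.restrict_univ, Measure.volume_pi_eq_dirac default]
    rw [this]
    simp [IA, Wd]
  | m + 1, k, hk, f, hf, g => by
    obtain ⟨hfm, C, hC⟩ := hf
    have hW := continuous_Wd (m + 1) k hk
    rw [Bx_succ_integral m (fun z => f (g * Wd (m + 1) k z))
      (hfm.comp ((continuous_const.mul hW).measurable)) (C := C) (fun z => hC _)]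
    change Av (k 0) (IA m (fun j => k (j + 1)) f) g = _
    unfold Av
    congr 1
    ext θ
    have h2 := IA_eq m (fun j => k (j + 1)) (fun j => hk (j + 1)) f ⟨hfm, C, hC⟩ (g * k 0 θ)
    refine h2.trans ?_
    congr 1

/-- The symmetric block. -/
noncomputable def Dk (K L : ℝ → OG n) (f : OG n → ℝ) : OG n → ℝ :=
  Av K (Av L (Av L (Av K f)))

lemma BM.dk {f : OG n → ℝ} (hf : BM f) {K L : ℝ → OG n} (hK : Continuous K)
    (hL : Continuous L) : BM (Dk K L f) :=
  (((hf.av hK).av hL).av hL).av hK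

lemma BM.iter {f : OG n → ℝ} (hf : BM f) {K L : ℝ → OG n} (hK : Continuous K)
    (hL : Continuous L) : ∀ N : ℕ, BM ((Dk K L)^[N] f)
  | 0 => hf
  | N + 1 => by
    rw [Function.iterate_succ_apply']
    exact (BM.iter hf hK hL N).dk hK hL

lemma IA_pat (K L : ℝ → OG n) (f : OG n → ℝ) : ∀ N : ℕ,
    IA (4 * N) (pat L K) f = (Dk K L)^[N] f
  | 0 => rfl
  | N + 1 => by
    rw [Function.iterate_succ_apply', ← IA_pat K L f N]
    rfl

theorem Dk_symm {K L : ℝ → OG n} (hK : Continuous K) (hL : Continuous L)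
    (hK2 : ∀ θ, K (2 * π - θ) = (K θ)⁻¹) (hL2 : ∀ θ, L (2 * π - θ) = (L θ)⁻¹)
    {f h : OG n → ℝ} (hf : BM f) (hh : BM h) :
    ∫ g, f g * Dk K L h g ∂(haar n) = ∫ g, Dk K L f g * h g ∂(haar n) := by
  unfold Dk
  rw [Av_symm hK hK2 hf (((hh.av hK).av hL).av hL), Av_symm hL hL2 (hf.av hK) ((hh.av hK).av hL),
    Av_symm hL hL2 ((hf.av hK).av hL) (hh.av hK), Av_symm hK hK2 (((hf.av hK).av hL).av hL) hh]

theorem iter_symm {K L : ℝ → OG n} (hK : Continuous K) (hL : Continuous L)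
    (hK2 : ∀ θ, K (2 * π - θ) = (K θ)⁻¹) (hL2 : ∀ θ, L (2 * π - θ) = (L θ)⁻¹)
    {h : OG n → ℝ} (hh : BM h) : ∀ (N : ℕ) (f : OG n → ℝ), BM f →
    ∫ g, f g * (Dk K L)^[N] h g ∂(haar n) = ∫ g, (Dk K L)^[N] f g * h g ∂(haar n)
  | 0, _, _ => rfl
  | N + 1, f, hf => by
    rw [Function.iterate_succ_apply', Dk_symm hK hL hK2 hL2 hf (hh.iter hK hL N),
      iter_symm hK hL hK2 hL2 hh N _ (hf.dk hK hL), ← Function.iterate_succ_apply]

/-- The moments. -/
noncomputable def mo (K L : ℝ → OG n) (u : OG n → ℝ) (N : ℕ) : ℝ :=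
  ∫ g, u g * (Dk K L)^[N] u g ∂(haar n)

theorem mo_sq {K L : ℝ → OG n} (hK : Continuous K) (hL : Continuous L)
    (hK2 : ∀ θ, K (2 * π - θ) = (K θ)⁻¹) (hL2 : ∀ θ, L (2 * π - θ) = (L θ)⁻¹)
    {u : OG n → ℝ} (hu : BM u) (N : ℕ) : mo K L u N ^ 2 ≤ mo K L u 0 * mo K L u (N + N) := by
  have h1 := cs_int hu (hu.iter hK hL N)
  have h2 : mo K L u (N + N) = ∫ g, (Dk K L)^[N] u g * (Dk K L)^[N] u g ∂(haar n) := by
    unfold mo
    rw [Function.iterate_add_apply, iter_symm hK hL hK2 hL2 (hu.iter hK hL N) N u hu]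
  rw [h2]
  exact h1

theorem mo_pow {K L : ℝ → OG n} (hK : Continuous K) (hL : Continuous L)
    (hK2 : ∀ θ, K (2 * π - θ) = (K θ)⁻¹) (hL2 : ∀ θ, L (2 * π - θ) = (L θ)⁻¹)
    {u : OG n → ℝ} (hu : BM u) {B : ℝ} (h0 : mo K L u 0 ≤ B) (k : ℕ) :
    mo K L u 1 ^ 2 ^ k ≤ B ^ (2 ^ k - 1) * |mo K L u (2 ^ k)| := by
  have hB : 0 ≤ B := by
    refine le_trans ?_ h0
    exact integral_nonneg fun g => mul_self_nonneg (u g)
  induction k with
  | zero => simpa using le_abs_self _
  | succ k ih =>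
    have h1 := mo_sq hK hL hK2 hL2 hu (2 ^ k)
    have h2 : 2 ^ k + 2 ^ k = 2 ^ (k + 1) := by ring
    rw [h2] at h1
    have h3 : |mo K L u (2 ^ k)| ^ 2 ≤ B * |mo K L u (2 ^ (k + 1))| := by
      rw [sq_abs]
      refine h1.trans ?_
      have hmo0 : 0 ≤ mo K L u 0 := integral_nonneg fun g => mul_self_nonneg (u g)
      calc mo K L u 0 * mo K L u (2 ^ (k + 1)) ≤ mo K L u 0 * |mo K L u (2 ^ (k + 1))| :=
            mul_le_mul_of_nonneg_left (le_abs_self _) hmo0
        _ ≤ B * |mo K L u (2 ^ (k + 1))| := mul_le_mul_of_nonneg_right h0 (abs_nonneg _)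
    have hp : 1 ≤ 2 ^ k := Nat.one_le_two_pow
    have h4 : |mo K L u 1| ^ 2 ^ k ≤ B ^ (2 ^ k - 1) * |mo K L u (2 ^ k)| := by
      rcases Nat.eq_zero_or_pos k with rfl | hk
      · simp
      · rw [← abs_pow, abs_of_nonneg]
        · exact ih
        · have : Even (2 ^ k) := (Nat.even_pow.2 ⟨even_two, hk.ne'⟩)
          exact this.pow_nonneg _
    calc mo K L u 1 ^ 2 ^ (k + 1) ≤ (|mo K L u 1| ^ 2 ^ k) ^ 2 := by
          rw [← pow_mul, ← pow_succ]
          exact (le_abs_self _).trans (by rw [abs_pow])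
      _ ≤ (B ^ (2 ^ k - 1) * |mo K L u (2 ^ k)|) ^ 2 := by
          gcongr
      _ = B ^ (2 * (2 ^ k - 1)) * |mo K L u (2 ^ k)| ^ 2 := by
          rw [mul_pow, ← pow_mul]
          congr 2
          ring
      _ ≤ B ^ (2 * (2 ^ k - 1)) * (B * |mo K L u (2 ^ (k + 1))|) := by gcongr
      _ = B ^ (2 ^ (k + 1) - 1) * |mo K L u (2 ^ (k + 1))| := by
          have h5 : 2 ^ (k + 1) - 1 = 2 * (2 ^ k - 1) + 1 := by
            rw [pow_succ]
            omega
          rw [h5, pow_succ]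
          ring

end SphLim
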