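import Pool.Agent.SphLim.Block

/-!
# The localised term for a pair
-/

open MeasureTheory Filter Topology Metric
open scoped ENNReal Pointwise RealInnerProductSpace Real

namespace SphLim

variable {d : ℕ} {ι : Type*} [Fintype ι]

theorem psi_block {n : ℕ} (hn : 0 < n) {v p : ι → Eu (d + 1)} (hv : ∀ l, ‖v l‖ = 1)
    {S : Finset ι} {j0 : ι} (hj0 : j0 ∈ S) {lam : ℝ} (hl : 0 < lam) {H E : OG (d + 1) → ℝ}
    (hHm : Measurable H) (hHb : ∀ g, |H g| ≤ 1) (hEm : Measurable E) (hEb : ∀ g, |E g| ≤ 1)
    (hHinv : ∀ g R : OG (d + 1), (∀ j ∈ S, act R (v j) = v j) → H (g * R) = H g)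
    (R : Fin n → OG (d + 1)) (hRS : ∀ k, ∀ j ∈ S, act (R k) (v j) = v j) {B : ℝ}
    (hRB : ∀ k l, ‖act (R k) (v l) - v l‖ ≤ B) {δ : ℝ} (hδ : 0 < δ) :
    |∫ g, Psi v p lam g * H g * E g ∂(haar (d + 1))| ≤
      Fintype.card ι * B / lam * (sphMeas d).real (closedBall (p j0) lam) +
      δ / 2 * (sphMeas d).real (closedBall (p j0) lam) +
      (∫ g, (∑ k, E (g * R k)) ^ 2 ∂(haar (d + 1))) / (2 * (δ * n ^ 2)) := by
  set m0 := (sphMeas d).real (closedBall (p j0) lam) with hm0
  set I := ∫ g, Psi v p lam g * H g * E g ∂(haar (d + 1)) with hI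
  have hn0 : (0 : ℝ) < n := by exact_mod_cast hn
  have hB0 : 0 ≤ B := (norm_nonneg _).trans (hRB ⟨0, hn⟩ j0)
  set DD : Set (OG (d + 1)) := {g | act g (v j0) ∈ closedBall (p j0) lam} with hDD
  have hDDm : MeasurableSet DD := (measurable_act_left (v j0)) isClosed_closedBall.measurableSet
  have hDDv : (haar (d + 1)).real DD = m0 := by
    rw [hm0]
    unfold Measure.real
    rw [hDD, haar_act_mem (hv j0) isClosed_closedBall.measurableSet]
  have hsupp : ∀ g, g ∉ DD → Psi v p lam g = 0 := by
    intro g hg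
    by_contra h0
    apply hg
    rw [hDD]
    change act g (v j0) ∈ closedBall (p j0) lam
    rw [mem_closedBall, dist_eq_norm]
    exact Psi_supp hl h0 j0
  have hDDR : ∀ g k, g * R k ∈ DD ↔ g ∈ DD := by
    intro g k
    change act (g * R k) (v j0) ∈ closedBall (p j0) lam ↔ act g (v j0) ∈ closedBall (p j0) lam
    rw [act_mul, hRS k j0 hj0]
  have hPm : Measurable (Psi v p lam) := (continuous_Psi v p lam).measurable
  have hP1 : ∀ g, |Psi v p lam g| ≤ 1 := by
    intro g
    rw [abs_of_nonneg (Psi_nonneg _ _ _ _)]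
    exact Psi_le_one v p hl g
  set κ : ℝ := Fintype.card ι * B / lam with hκ
  have hκ0 : 0 ≤ κ := by positivity
  have hdiff : ∀ g k, |Psi v p lam (g * R k) - Psi v p lam g| ≤ DD.indicator (fun _ => κ) g := by
    intro g k
    by_cases hg : g ∈ DD
    · rw [Set.indicator_of_mem hg]
      exact Psi_lip hl (hRB k) g
    · rw [Set.indicator_of_notMem hg, hsupp g hg,
        hsupp (g * R k) (fun h' => hg ((hDDR g k).1 h'))]
      simp
  have hER : ∀ k, Measurable fun g => E (g * R k) := fun k =>
    hEm.comp (measurable_mul_right_OG _)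
  set M : OG (d + 1) → ℝ := fun g => ∑ k, E (g * R k) with hM
  have hMm : Measurable M := Finset.measurable_sum _ fun k _ => hER k
  have hMb : ∀ g, |M g| ≤ n := by
    intro g
    refine (Finset.abs_sum_le_sum_abs _ _).trans ?_
    calc ∑ k, |E (g * R k)| ≤ ∑ _k : Fin n, (1 : ℝ) := Finset.sum_le_sum fun k _ => hEb _
      _ = n := by simp
  have hA : ∀ k, Integrable (fun g => Psi v p lam g * H g * E (g * R k)) (haar (d + 1)) :=
    fun k => integrable_bdd ((hPm.mul hHm).mul (hER k)) (C := 1) (fun g => by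
      rw [abs_mul, abs_mul]
      exact mul_le_one₀ (mul_le_one₀ (hP1 g) (abs_nonneg _) (hHb g)) (abs_nonneg _) (hEb _))
  have hPR : ∀ k, Measurable fun g => Psi v p lam (g * R k) := fun k =>
    hPm.comp (measurable_mul_right_OG _)
  have hBk : ∀ k, Integrable (fun g => (Psi v p lam (g * R k) - Psi v p lam g) * H g *
      E (g * R k)) (haar (d + 1)) :=
    fun k => integrable_bdd ((((hPR k).sub hPm).mul hHm).mul (hER k)) (C := 2) (fun g => by
      rw [abs_mul, abs_mul]
      have h1 := abs_sub (Psi v p lam (g * R k)) (Psi v p lam g)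
      have h2 := hP1 g
      have h3 := hP1 (g * R k)
      calc |Psi v p lam (g * R k) - Psi v p lam g| * |H g| * |E (g * R k)| ≤ 2 * 1 * 1 := by
            apply mul_le_mul _ (hEb _) (abs_nonneg _) (by positivity)
            exact mul_le_mul (by linarith) (hHb _) (abs_nonneg _) (by positivity)
        _ = 2 := by norm_num)
  have hsplit : ∀ k, I = (∫ g, Psi v p lam g * H g * E (g * R k) ∂(haar (d + 1))) +
      ∫ g, (Psi v p lam (g * R k) - Psi v p lam g) * H g * E (g * R k) ∂(haar (d + 1)) := by
    intro k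
    rw [← integral_add (hA k) (hBk k), hI,
      ← integral_haar_mul_right (f := fun g => Psi v p lam g * H g * E g) (R k)]
    congr 1
    ext g
    rw [hHinv g (R k) (hRS k)]
    ring
  have herr : ∀ k, |∫ g, (Psi v p lam (g * R k) - Psi v p lam g) * H g * E (g * R k)
      ∂(haar (d + 1))| ≤ κ * m0 := by
    intro k
    rw [← Real.norm_eq_abs]
    refine (norm_integral_le_integral_norm _).trans ?_
    calc ∫ g, ‖(Psi v p lam (g * R k) - Psi v p lam g) * H g * E (g * R k)‖ ∂(haar (d + 1))
        ≤ ∫ g, DD.indicator (fun _ => κ) g ∂(haar (d + 1)) := by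
          apply integral_mono_of_nonneg (Eventually.of_forall fun _ => norm_nonneg _)
          · exact (integrable_const κ).indicator hDDm
          · refine Eventually.of_forall fun g => ?_
            simp only [norm_mul, Real.norm_eq_abs]
            have h0 : 0 ≤ DD.indicator (fun _ => κ) g := (abs_nonneg _).trans (hdiff g k)
            calc |Psi v p lam (g * R k) - Psi v p lam g| * |H g| * |E (g * R k)|
                ≤ DD.indicator (fun _ => κ) g * 1 * 1 := by
                  apply mul_le_mul _ (hEb _) (abs_nonneg _) (by positivity)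
                  exact mul_le_mul (hdiff g k) (hHb _) (abs_nonneg _) h0
              _ = _ := by ring
      _ = κ * m0 := by
          rw [integral_indicator_const _ hDDm, hDDv, smul_eq_mul, mul_comm]
  have hM2 : Integrable (fun g => M g ^ 2) (haar (d + 1)) :=
    integrable_bdd (hMm.pow_const 2) (C := (n : ℝ) ^ 2) (fun g => by
      rw [abs_pow]; exact pow_le_pow_left₀ (abs_nonneg _) (hMb g) 2)
  have hmain : |∫ g, Psi v p lam g * H g * M g ∂(haar (d + 1))| ≤
      δ * n / 2 * m0 + (∫ g, M g ^ 2 ∂(haar (d + 1))) / (2 * (δ * n)) := by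
    have h2 : ∀ g, |Psi v p lam g * H g * M g| ≤
        DD.indicator (fun _ => δ * n / 2) g + M g ^ 2 / (2 * (δ * n)) := by
      intro g
      have hδη : 0 < δ * n := by positivity
      by_cases hg : g ∈ DD
      · rw [Set.indicator_of_mem hg, abs_mul, abs_mul]
        have h3 : |Psi v p lam g| * |H g| * |M g| ≤ |M g| := by
          have : |Psi v p lam g| * |H g| ≤ 1 := mul_le_one₀ (hP1 g) (abs_nonneg _) (hHb g)
          calc |Psi v p lam g| * |H g| * |M g| ≤ 1 * |M g| := by gcongr
            _ = |M g| := one_mul _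
        refine h3.trans ?_
        have h4 : M g ^ 2 = |M g| ^ 2 := (sq_abs _).symm
        rw [h4, ← sub_nonneg]
        have h5 : δ * n / 2 + |M g| ^ 2 / (2 * (δ * n)) - |M g| =
            (δ * n - |M g|) ^ 2 / (2 * (δ * n)) := by
          field_simp
          ring
        rw [h5]
        positivity
      · rw [Set.indicator_of_notMem hg, hsupp g hg]
        simp only [zero_mul, abs_zero, zero_add]
        positivity
    rw [← Real.norm_eq_abs]
    refine (norm_integral_le_integral_norm _).trans ?_
    calc ∫ g, ‖Psi v p lam g * H g * M g‖ ∂(haar (d + 1))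
        ≤ ∫ g, (DD.indicator (fun _ => δ * n / 2) g + M g ^ 2 / (2 * (δ * n))) ∂(haar (d + 1)) := by
          apply integral_mono_of_nonneg (Eventually.of_forall fun _ => norm_nonneg _)
          · exact ((integrable_const _).indicator hDDm).add (hM2.div_const _)
          · exact Eventually.of_forall fun g => by simpa using h2 g
      _ = _ := by
          rw [integral_add ((integrable_const _).indicator hDDm) (hM2.div_const _),
            integral_indicator_const _ hDDm, hDDv, integral_div, smul_eq_mul, mul_comm m0]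
  have htot : (n : ℝ) * I = (∫ g, Psi v p lam g * H g * M g ∂(haar (d + 1))) +
      ∑ k, ∫ g, (Psi v p lam (g * R k) - Psi v p lam g) * H g * E (g * R k)
        ∂(haar (d + 1)) := by
    have h1 : ∑ _k : Fin n, I = (n : ℝ) * I := by
      rw [Finset.sum_const, Finset.card_univ, Fintype.card_fin, nsmul_eq_mul]
    rw [← h1, Finset.sum_congr rfl fun k _ => hsplit k, Finset.sum_add_distrib]
    congr 1
    rw [← integral_finsetSum _ fun k _ => hA k]
    congr 1
    ext g
    rw [hM]
    simp only
    rw [Finset.mul_sum]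
  have hsum : |∑ k, ∫ g, (Psi v p lam (g * R k) - Psi v p lam g) * H g * E (g * R k)
        ∂(haar (d + 1))| ≤ n * (κ * m0) := by
    refine (Finset.abs_sum_le_sum_abs _ _).trans ?_
    calc ∑ k, |∫ g, (Psi v p lam (g * R k) - Psi v p lam g) * H g * E (g * R k)
        ∂(haar (d + 1))| ≤ ∑ _k : Fin n, κ * m0 := Finset.sum_le_sum fun k _ => herr k
      _ = _ := by rw [Finset.sum_const, Finset.card_univ, Fintype.card_fin, nsmul_eq_mul]
  have hfin : (n : ℝ) * |I| ≤ n * (κ * m0 + δ / 2 * m0 +
      (∫ g, M g ^ 2 ∂(haar (d + 1))) / (2 * (δ * n ^ 2))) := by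
    calc (n : ℝ) * |I| = |(n : ℝ) * I| := by rw [abs_mul, abs_of_pos hn0]
      _ ≤ (δ * n / 2 * m0 + (∫ g, M g ^ 2 ∂(haar (d + 1))) / (2 * (δ * n))) +
          n * (κ * m0) := by
          rw [htot]
          exact (abs_add_le _ _).trans (add_le_add hmain hsum)
      _ = _ := by
          field_simp
          ring
  exact le_of_mul_le_mul_left hfin hn0

end SphLim
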