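import Pool.Agent.SphLim.Sphere

/-!
# Flat patches of the sphere
-/

open MeasureTheory Filter Topology Metric
open scoped ENNReal Pointwise RealInnerProductSpace

namespace SphLim

variable {d : ℕ}

lemma exists_proj (v : Eu (d + 1)) (hv : ‖v‖ = 1) : ∃ T : Eu (d + 1) →L[ℝ] Eu d,
    ∀ u, ‖T u‖ ^ 2 = ‖u‖ ^ 2 - ⟪v, u⟫ ^ 2 := by
  have hv0 : v ≠ 0 := by
    rintro rfl
    simp at hv
  have hfact : Fact (Module.finrank ℝ (Eu (d + 1)) = d + 1) := ⟨by simp⟩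
  set B := OrthonormalBasis.fromOrthogonalSpanSingleton (𝕜 := ℝ) d hv0 with hB
  refine ⟨(B.repr.toLinearIsometry.toContinuousLinearMap) ∘L
    (Submodule.orthogonalProjectionOnto (ℝ ∙ v)ᗮ), ?_⟩
  intro u
  have h1 := Submodule.norm_sq_eq_add_norm_sq_starProjection u (ℝ ∙ v)
  have h2 : ‖B.repr.toLinearIsometry.toContinuousLinearMap
      (Submodule.orthogonalProjectionOnto (ℝ ∙ v)ᗮ u)‖ = ‖(ℝ ∙ v)ᗮ.starProjection u‖ := by
    rw [Submodule.starProjection_apply]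
    exact B.repr.norm_map _
  rw [Submodule.starProjection_unit_singleton ℝ hv u] at h1
  have h3 : ‖(⟪v, u⟫ : ℝ) • v‖ ^ 2 = ⟪v, u⟫ ^ 2 := by
    rw [norm_smul, hv, mul_one, Real.norm_eq_abs, sq_abs]
  rw [h3] at h1
  rw [ContinuousLinearMap.comp_apply, h2]
  linarith

/-- Two points of the sphere near `v` are almost orthogonal to `v`. -/
lemma inner_sub_le {n : ℕ} {v x y : Eu n} {δ : ℝ} (hx : ‖x‖ = 1) (hy : ‖y‖ = 1)
    (hxv : dist x v ≤ δ) (hyv : dist y v ≤ δ) : |⟪v, x - y⟫| ≤ δ * ‖x - y‖ := by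
  have h0 : ⟪(1 / 2 : ℝ) • (x + y), x - y⟫ = 0 := by
    rw [inner_smul_left, inner_add_left, inner_sub_right, inner_sub_right,
      real_inner_self_eq_norm_sq, real_inner_self_eq_norm_sq, hx, hy, real_inner_comm x y]
    ring
  have h1 : ⟪v, x - y⟫ = ⟪v - (1 / 2 : ℝ) • (x + y), x - y⟫ := by
    rw [inner_sub_left, h0, sub_zero]
  rw [h1]
  refine (abs_real_inner_le_norm _ _).trans ?_
  apply mul_le_mul_of_nonneg_right _ (norm_nonneg _)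
  have h2 : v - (1 / 2 : ℝ) • (x + y) = (1 / 2 : ℝ) • ((v - x) + (v - y)) := by module
  rw [h2, norm_smul, Real.norm_of_nonneg (by norm_num : (0 : ℝ) ≤ 1 / 2)]
  have h3 : ‖(v - x) + (v - y)‖ ≤ δ + δ := by
    refine (norm_add_le _ _).trans ?_
    rw [← dist_eq_norm, ← dist_eq_norm, dist_comm v x, dist_comm v y]
    exact add_le_add hxv hyv
  linarith

lemma proj_almost_isometry {T : Eu (d + 1) →L[ℝ] Eu d} {v : Eu (d + 1)}
    (hT : ∀ u, ‖T u‖ ^ 2 = ‖u‖ ^ 2 - ⟪v, u⟫ ^ 2) {δ : ℝ} (hδ0 : 0 ≤ δ) (hδ1 : δ ≤ 1)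
    {u : Eu (d + 1)} (hu : |⟪v, u⟫| ≤ δ * ‖u‖) :
    (1 - δ) * ‖u‖ ≤ ‖T u‖ ∧ ‖T u‖ ≤ ‖u‖ := by
  have h := hT u
  have hn : 0 ≤ ‖u‖ := norm_nonneg u
  constructor
  · refine le_of_sq_le_sq ?_ (norm_nonneg _)
    rw [h]
    have h1 : ⟪v, u⟫ ^ 2 ≤ (δ * ‖u‖) ^ 2 := by
      rw [← sq_abs]
      exact pow_le_pow_left₀ (abs_nonneg _) hu 2
    nlinarith [mul_nonneg hδ0 (mul_nonneg (sub_nonneg.2 hδ1) (sq_nonneg ‖u‖))]
  · refine le_of_sq_le_sq ?_ hn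
    rw [h]
    nlinarith [sq_nonneg ⟪v, u⟫]

end SphLim
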