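import Pool.Agent.SphLim.Patch

/-!
# Finitely many small disjoint compact patches filling most of the sphere
-/

open MeasureTheory Filter Topology Metric
open scoped ENNReal Pointwise RealInnerProductSpace

namespace SphLim

variable {d : ℕ}

lemma exists_patches (d : ℕ) {δ : ℝ} (hδ : 0 < δ) {ε : ℝ≥0∞} (hε : ε ≠ 0) :
    ∃ (N : ℕ) (c : Fin N → Eu (d + 1)) (K : Fin N → Set (Eu (d + 1))),
      (∀ j, ‖c j‖ = 1) ∧ (∀ j, IsCompact (K j)) ∧ (∀ j, K j ⊆ sphere 0 1) ∧
      (∀ j, ∀ x ∈ K j, dist x (c j) ≤ δ) ∧ (Pairwise (Function.onFun Disjoint K)) ∧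
      1 ≤ (∑ j, sphMeas d (K j)) + ε := by
  obtain ⟨t, ht, htf, hcov⟩ :=
    (isCompact_sphere (0 : Eu (d + 1)) 1).finite_cover_balls hδ
  set N := htf.toFinset.card with hN
  let f : Fin N ≃ htf.toFinset := htf.toFinset.equivFin.symm
  let c : Fin N → Eu (d + 1) := fun j => (f j : Eu (d + 1))
  have hct : ∀ j, c j ∈ t := fun j => (htf.mem_toFinset).1 (f j).2
  have hc : ∀ j, ‖c j‖ = 1 := fun j => by
    have := ht (hct j)
    rwa [mem_sphere_iff_norm, sub_zero] at this
  let S : Fin N → Set (Eu (d + 1)) := fun j =>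
    (ball (c j) δ ∩ sphere 0 1) \ ⋃ i, ⋃ (_ : i < j), ball (c i) δ
  have hSm : ∀ j, MeasurableSet (S j) := fun j =>
    (measurableSet_ball.inter isClosed_sphere.measurableSet).diff
      (MeasurableSet.iUnion fun i => MeasurableSet.iUnion fun _ => measurableSet_ball)
  have hSd : Pairwise (Function.onFun Disjoint S) := by
    have hlt : ∀ i j, i < j → Disjoint (S i) (S j) := by
      intro i j hij
      rw [Set.disjoint_left]
      rintro x hx hx'
      exact hx'.2 (Set.mem_iUnion.2 ⟨i, Set.mem_iUnion.2 ⟨hij, hx.1.1⟩⟩)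
    intro i j hij
    rcases lt_or_gt_of_ne hij with h | h
    · exact hlt i j h
    · exact (hlt j i h).symm
  have hScov : sphere (0 : Eu (d + 1)) 1 ⊆ ⋃ j, S j := by
    intro x hx
    have hex : ∃ j, x ∈ ball (c j) δ := by
      obtain ⟨y, hy, hxy⟩ := Set.mem_iUnion₂.1 (hcov hx)
      refine ⟨f.symm ⟨y, (htf.mem_toFinset).2 hy⟩, ?_⟩
      simpa [c] using hxy
    classical
    obtain ⟨j, hj⟩ := hex
    have hne : (Finset.univ.filter (fun i : Fin N => x ∈ ball (c i) δ)).Nonempty :=
      ⟨j, by simpa using hj⟩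
    set j0 := (Finset.univ.filter (fun i : Fin N => x ∈ ball (c i) δ)).min' hne with hj0
    have hj0m := Finset.min'_mem _ hne
    rw [← hj0] at hj0m
    refine Set.mem_iUnion.2 ⟨j0, ⟨⟨(Finset.mem_filter.1 hj0m).2, hx⟩, ?_⟩⟩
    intro hcon
    obtain ⟨i, hi⟩ := Set.mem_iUnion.1 hcon
    obtain ⟨hij, hxi⟩ := Set.mem_iUnion.1 hi
    have := Finset.min'_le (Finset.univ.filter (fun i : Fin N => x ∈ ball (c i) δ)) i
      (by simpa using hxi)
    exact absurd hij (not_lt.2 this)
  have hKex : ∀ j, ∃ K ⊆ S j, IsCompact K ∧ sphMeas d (S j) < sphMeas d K + ε / N := by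
    intro j
    apply MeasurableSet.exists_isCompact_lt_add (hSm j) (measure_ne_top _ _)
    exact (ENNReal.div_pos hε (ENNReal.natCast_ne_top _)).ne'
  choose K hKS hKc hKm using hKex
  refine ⟨N, c, K, hc, hKc, fun j x hx => (hKS j hx).1.2, fun j x hx => ?_, ?_, ?_⟩
  · have := (hKS j hx).1.1
    exact (mem_ball.1 this).le
  · intro i j hij
    exact Set.disjoint_of_subset (hKS i) (hKS j) (hSd hij)
  · have h1 : sphMeas d (sphere (0 : Eu (d + 1)) 1) = 1 := by
      rw [prob_compl_eq_zero_iff isClosed_sphere.measurableSet |>.1 sphMeas_compl_sphere]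
    calc (1 : ℝ≥0∞) = sphMeas d (sphere (0 : Eu (d + 1)) 1) := h1.symm
      _ ≤ sphMeas d (⋃ j, S j) := measure_mono hScov
      _ ≤ ∑ j, sphMeas d (S j) := by
          refine (measure_iUnion_le S).trans ?_
          rw [tsum_fintype]
      _ ≤ ∑ j, (sphMeas d (K j) + ε / N) := Finset.sum_le_sum fun j _ => (hKm j).le
      _ = ∑ j, sphMeas d (K j) + N * (ε / N) := by
          rw [Finset.sum_add_distrib, Finset.sum_const, Finset.card_univ, Fintype.card_fin,
            nsmul_eq_mul]
      _ ≤ ∑ j, sphMeas d (K j) + ε := by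
          gcongr
          exact ENNReal.mul_div_le

/-- Averaging over the translates: the choice of the good translate in one patch. -/
lemma exists_translate (K : Set (Eu (d + 1))) {E W : Set (Eu d)}
    (hE : MeasurableSet E) (hW : MeasurableSet W) {V V0 : ℝ≥0∞} (hV : volume W = V)
    (hV0 : V ≠ 0) (hVt : V ≠ ∞)
    (h : ∀ y : Eu d, V0 ≤ volume {w | w ∈ W ∧ y + w ∈ E})
    {T : Eu (d + 1) → Eu d} (hT : Measurable T) :
    ∃ w : Eu d, V0 / V * sphMeas d K ≤ sphMeas d {x | x ∈ K ∧ T x + w ∈ E} := by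
  set F : Eu (d + 1) → Eu d → ℝ≥0∞ := fun x w => E.indicator 1 (T x + w) with hF
  have hFm : Measurable (Function.uncurry F) := by
    rw [hF]
    have h1 : Measurable (E.indicator (1 : Eu d → ℝ≥0∞)) := measurable_one.indicator hE
    exact h1.comp ((hT.comp measurable_fst).add measurable_snd)
  have hset : ∀ w, sphMeas d {x | x ∈ K ∧ T x + w ∈ E} = ∫⁻ x in K, F x w ∂(sphMeas d) := by
    intro w
    have hm : MeasurableSet {x | T x + w ∈ E} := (hT.add_const w) hE
    have e1 : (fun x => F x w) = {x | T x + w ∈ E}.indicator 1 := by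
      ext1 x
      classical
      simp only [hF]
      rw [Set.indicator_apply, Set.indicator_apply]
      rfl
    rw [e1, lintegral_indicator_one hm, Measure.restrict_apply hm]
    congr 1
    ext x
    simp [and_comm]
  have hset2 : ∀ x, ∫⁻ w in W, F x w = volume {w | w ∈ W ∧ T x + w ∈ E} := by
    intro x
    have hm : MeasurableSet {w | T x + w ∈ E} := (measurable_const_add (T x)) hE
    have e1 : (fun w => F x w) = {w | T x + w ∈ E}.indicator 1 := by
      ext1 w
      classical
      simp only [hF]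
      rw [Set.indicator_apply, Set.indicator_apply]
      rfl
    rw [e1, lintegral_indicator_one hm, Measure.restrict_apply hm]
    congr 1
    ext x
    simp [and_comm]
  have hswap : ∫⁻ w in W, ∫⁻ x in K, F x w ∂(sphMeas d) =
      ∫⁻ x in K, (∫⁻ w in W, F x w) ∂(sphMeas d) :=
    lintegral_lintegral_swap (f := fun w x => F x w) (hFm.comp measurable_swap).aemeasurable
  have hlow : V0 * sphMeas d K ≤ ∫⁻ w in W, ∫⁻ x in K, F x w ∂(sphMeas d) := by
    rw [hswap]
    calc V0 * sphMeas d K = ∫⁻ _ in K, V0 ∂(sphMeas d) := by rw [setLIntegral_const]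
      _ ≤ ∫⁻ x in K, (∫⁻ w in W, F x w) ∂(sphMeas d) := by
          apply lintegral_mono
          intro x
          simp only
          rw [hset2 x]
          exact h (T x)
  have hup : ∫⁻ w in W, ∫⁻ x in K, F x w ∂(sphMeas d) ≠ ∞ := by
    have : ∫⁻ w in W, ∫⁻ x in K, F x w ∂(sphMeas d) ≤ ∫⁻ _ in W, 1 := by
      apply lintegral_mono
      intro w
      simp only
      rw [← hset w]
      exact prob_le_one
    refine ne_top_of_le_ne_top ?_ this
    rw [setLIntegral_const, one_mul, hV]
    exact hVt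
  obtain ⟨w, -, hw⟩ := exists_setLAverage_le (μ := volume) (s := W)
    (f := fun w => ∫⁻ x in K, F x w ∂(sphMeas d)) (by rw [hV]; exact hV0)
    hW.nullMeasurableSet hup
  refine ⟨w, ?_⟩
  rw [hset w]
  refine le_trans ?_ hw
  rw [setLAverage_eq, hV, ENNReal.div_eq_inv_mul, ENNReal.div_eq_inv_mul, mul_assoc]
  gcongr

end SphLim
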