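import Pool.Agent.SphLim.Main4

/-!
# Lower bounds of the Euclidean independence density by periodic extension
-/

open MeasureTheory Filter Topology Metric
open scoped ENNReal Pointwise

namespace SphLim

/-- Periodic extension, with a bounded fundamental domain. -/
lemma exists_periodic' {d : ℕ} {T D : ℝ} (hT : 0 ≤ T) (hD : 0 < D) {K : Set (Eu d)}
    (hK : MeasurableSet K) (hKT : K ⊆ cube d T) :
    ∃ E W : Set (Eu d), MeasurableSet E ∧ MeasurableSet W ∧
      W ⊆ cube d (2 * T + 2 * D) ∧
      volume W = ENNReal.ofReal (2 * T + 2 * D) ^ d ∧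
      (∀ y : Eu d, volume K ≤ volume {w | w ∈ W ∧ y + w ∈ E}) ∧
      (∀ (ι : Type) (q : ι → Eu d), (∀ i, q i ∈ E) → (∀ i j, dist (q i) (q j) < 2 * D) →
        ∃ v : Eu d, ∀ i, v + q i ∈ K) := by
  set L : ℝ := 2 * T + 2 * D with hLdef
  have hL : 0 < L := by positivity
  set b := scaledBasis d L hL.ne' with hb
  set Λ := Submodule.span ℤ (Set.range b) with hΛ
  have hΛc : Countable Λ := inferInstance
  -- separation
  have hsep : ∀ v : Eu d, v ∈ Λ → v ≠ 0 → ∃ i, L ≤ |v i| := by
    intro v hv hv0
    rw [hΛ, b.mem_span_iff_repr_mem ℤ v] at hv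
    have : ∃ i, v i ≠ 0 := by
      by_contra hcon
      push Not at hcon
      exact hv0 (by ext i; simpa using hcon i)
    obtain ⟨i, hi⟩ := this
    refine ⟨i, ?_⟩
    obtain ⟨m, hm⟩ := hv i
    rw [hb, scaledBasis_repr] at hm
    have h1 : v i = L * m := by
      have : L * (L⁻¹ * v i) = L * m := by rw [← hm]; simp
      rwa [← mul_assoc, mul_inv_cancel₀ hL.ne', one_mul] at this
    have hm0 : m ≠ 0 := by
      rintro rfl
      exact hi (by rw [h1]; simp)
    rw [h1, abs_mul, abs_of_pos hL]
    have : (1 : ℝ) ≤ |(m : ℝ)| := by exact_mod_cast Int.one_le_abs hm0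
    nlinarith
  have hsep' : ∀ v v' : Eu d, v ∈ Λ → v' ∈ Λ → ∀ y y' : Eu d, v + y ∈ K → v' + y' ∈ K →
      dist y y' < 2 * D → v = v' := by
    intro v v' hv hv' y y' hy hy' hd
    by_contra hne
    obtain ⟨i, hi⟩ := hsep (v - v') (Λ.sub_mem hv hv') (sub_ne_zero.2 hne)
    have h1 := hKT hy i
    have h2 := hKT hy' i
    have h3 : |y i - y' i| ≤ dist y y' := by
      have := EuclideanSpace.norm_eq (y - y')
      rw [dist_eq_norm]
      have h4 := PiLp.norm_apply_le (y - y') i
      simpa [Real.norm_eq_abs] using h4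
    simp only [PiLp.add_apply, PiLp.sub_apply] at h1 h2 hi
    have e : v i - v' i = (v i + y i) - (v' i + y' i) - (y i - y' i) := by ring
    have h5 : |v i - v' i| ≤ |v i + y i| + |v' i + y' i| + |y i - y' i| := by
      rw [e]
      calc |(v i + y i) - (v' i + y' i) - (y i - y' i)|
          ≤ |(v i + y i) - (v' i + y' i)| + |y i - y' i| := abs_sub _ _
        _ ≤ |v i + y i| + |v' i + y' i| + |y i - y' i| := by
            have := abs_sub (v i + y i) (v' i + y' i)
            linarith
    linarith
  set E : Set (Eu d) := ⋃ v : Λ, (fun y => (v : Eu d) + y) ⁻¹' K with hE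
  have hEm : MeasurableSet E :=
    MeasurableSet.iUnion fun v => (measurable_const_add (v : Eu d)) hK
  set W := ZSpan.fundamentalDomain b with hW
  have hWm : MeasurableSet W := ZSpan.fundamentalDomain_measurableSet b
  refine ⟨E, W, hEm, hWm, ?_, ?_, ?_, ?_⟩
  · rw [hW, hb, fundamentalDomain_eq d L hL]
    intro w hw i
    have := hw i
    rw [abs_le]
    constructor <;> linarith [this.1, this.2]
  · rw [hW, hb, fundamentalDomain_eq d L hL, volume_box, sub_zero]
  · intro y
    have hfd := ZSpan.isAddFundamentalDomain b (volume : Measure (Eu d))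
    set t : Set (Eu d) := (fun x => y + x) ⁻¹' K with ht
    have htm : MeasurableSet t := (measurable_const_add y) hK
    have hvol : volume t = volume K := by
      rw [ht]
      exact measure_preimage_add volume y K
    have : VAddInvariantMeasure Λ (Eu d) volume :=
      ⟨fun c s _ => measure_preimage_add volume (c : Eu d) s⟩
    rw [← hvol, hfd.measure_eq_tsum t]
    have hdisj : Pairwise (Function.onFun Disjoint (fun g : Λ => (g +ᵥ t) ∩ W)) := by
      intro g g' hgg'
      rw [Function.onFun, Set.disjoint_left]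
      rintro x ⟨hx, -⟩ ⟨hx', -⟩
      apply hgg'
      rw [Set.mem_vadd_set_iff_neg_vadd_mem] at hx hx'
      have e1 : y + (-(g : Eu d) + x) ∈ K := hx
      have e2 : y + (-(g' : Eu d) + x) ∈ K := hx'
      have := hsep' (-(g : Eu d)) (-(g' : Eu d)) (Λ.neg_mem g.2) (Λ.neg_mem g'.2)
        (y + x) (y + x) (by convert e1 using 1; abel) (by convert e2 using 1; abel)
        (by rw [dist_self]; positivity)
      ext1
      exact neg_injective this
    have hmeas : ∀ g : Λ, MeasurableSet ((g +ᵥ t) ∩ W) := fun g =>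
      (htm.const_vadd g).inter hWm
    rw [← measure_iUnion hdisj hmeas]
    apply measure_mono
    rintro x hx
    obtain ⟨g, hg, hxW⟩ := Set.mem_iUnion.1 hx
    refine ⟨hxW, ?_⟩
    rw [Set.mem_vadd_set_iff_neg_vadd_mem] at hg
    have e1 : y + (-(g : Eu d) + x) ∈ K := hg
    refine Set.mem_iUnion.2 ⟨-g, ?_⟩
    change (-(g : Eu d)) + (y + x) ∈ K
    convert e1 using 1
    abel
  · intro ι q hq hd
    have h1 : ∀ i, ∃ v : Λ, (v : Eu d) + q i ∈ K := fun i => Set.mem_iUnion.1 (hq i)
    choose v hv using h1
    rcases isEmpty_or_nonempty ι with hι | ⟨⟨i0⟩⟩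
    · exact ⟨0, fun i => isEmptyElim i⟩
    · refine ⟨v i0, fun i => ?_⟩
      have := hsep' (v i) (v i0) (v i).2 (v i0).2 (q i) (q i0) (hv i) (hv i0) (hd i i0)
      rw [← this]
      exact hv i

variable {d : ℕ}

lemma density_bdd {n : ℕ} (A : Set (Eu n)) : IsBoundedUnder (· ≤ ·) atTop
    (fun T : ℝ => (volume (A ∩ cube n T)).toReal / (2 * T) ^ n) := by
  refine ⟨1, ?_⟩
  rw [eventually_map]
  filter_upwards [eventually_gt_atTop (0 : ℝ)] with T hT
  rw [div_le_one (by positivity)]
  exact volume_inter_cube_le n A hT.le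

/-- A measurable set in a cube without a copy of `p` gives a lower bound. -/
lemma mEuc_ge {ι : Type} [Fintype ι] (p : ι → Eu d) {T D : ℝ} (hT : 0 < T) (hD : 0 < D)
    (hdiam : ∀ i j, dist (p i) (p j) < 2 * D) {K : Set (Eu d)} (hK : MeasurableSet K)
    (hKT : K ⊆ cube d T)
    (hav : ∀ q : ι → Eu d, (∀ i j, dist (p i) (p j) = dist (q i) (q j)) → ∃ i, q i ∉ K) :
    (volume K).toReal / (2 * T + 2 * D) ^ d ≤ mEuc d (Set.range p) := by
  obtain ⟨E, W, hEm, hWm, hWc, hWv, hEK, hEq⟩ := exists_periodic' hT.le hD hK hKT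
  set L : ℝ := 2 * T + 2 * D with hL
  have hL0 : 0 < L := by positivity
  have hEav : Avoids E (Set.range p) := by
    apply avoids_of_forall p rfl
    intro q hq
    by_contra hcon
    push Not at hcon
    obtain ⟨v, hv⟩ := hEq ι q hcon (fun i j => by rw [← hq]; exact hdiam i j)
    obtain ⟨i, hi⟩ := hav (fun i => v + q i) (fun i j => by rw [dist_add_left]; exact hq i j)
    exact hi (hv i)
  refine le_trans ?_ (le_csSup (mEuc_bdd (Set.range p)) ⟨E, hEm, hEav, rfl⟩)
  have hKfin : volume K ≠ ∞ := by
    refine ne_top_of_le_ne_top ?_ (measure_mono hKT)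
    rw [volume_cube d hT.le]
    exact ENNReal.pow_ne_top ENNReal.ofReal_ne_top
  set b : ℝ := (volume K).toReal / L ^ d with hb
  have hb0 : 0 ≤ b := by positivity
  -- density at a given scale
  have hkey : ∀ T' : ℝ, 0 < T' → (2 * T') ^ d * b ≤ (volume (E ∩ cube d (T' + L))).toReal := by
    intro T' hT'
    set Q : Set (Eu d) := cube d T' with hQ
    have hQm : MeasurableSet Q := cube_measurable d T'
    set m : ℝ≥0∞ := volume (E ∩ cube d (T' + L)) with hm
    have hmfin : m ≠ ∞ := by
      refine ne_top_of_le_ne_top ?_ (measure_mono Set.inter_subset_right)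
      rw [volume_cube d (by positivity)]
      exact ENNReal.pow_ne_top ENNReal.ofReal_ne_top
    have hjm : Measurable fun q : Eu d × Eu d => E.indicator (1 : Eu d → ℝ≥0∞) (q.1 + q.2) :=
      (measurable_one.indicator hEm).comp (measurable_fst.add measurable_snd)
    have h1 : volume Q * volume K ≤ ∫⁻ y in Q, ∫⁻ w in W, E.indicator 1 (y + w) := by
      have h2 : ∀ y : Eu d, volume K ≤ ∫⁻ w in W, E.indicator 1 (y + w) := by
        intro y
        have e : ∫⁻ w in W, E.indicator 1 (y + w) = volume {w | w ∈ W ∧ y + w ∈ E} := by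
          have e1 : (fun w => E.indicator (1 : Eu d → ℝ≥0∞) (y + w)) =
              ((fun w => y + w) ⁻¹' E).indicator 1 := rfl
          rw [e1, lintegral_indicator_one ((measurable_const_add y) hEm),
            Measure.restrict_apply ((measurable_const_add y) hEm)]
          congr 1
          ext w
          exact and_comm
        rw [e]
        exact hEK y
      calc volume Q * volume K = ∫⁻ _y in Q, volume K := by
            rw [setLIntegral_const, mul_comm]
        _ ≤ _ := lintegral_mono fun y => h2 y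
    have h3 : ∫⁻ y in Q, ∫⁻ w in W, E.indicator 1 (y + w) ≤ volume W * m := by
      rw [lintegral_lintegral_swap hjm.aemeasurable]
      have h4 : ∀ w ∈ W, ∫⁻ y in Q, E.indicator 1 (y + w) ≤ m := by
        intro w hw
        have e1 : (fun y => E.indicator (1 : Eu d → ℝ≥0∞) (y + w)) =
            ((fun y => y + w) ⁻¹' E).indicator 1 := rfl
        rw [e1, lintegral_indicator_one ((measurable_add_const w) hEm),
          Measure.restrict_apply ((measurable_add_const w) hEm)]
        have hsub : (fun y => y + w) ⁻¹' E ∩ Q ⊆ (fun y => y + w) ⁻¹' (E ∩ cube d (T' + L)) := by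
          rintro y ⟨hy1, hy2⟩
          refine ⟨hy1, fun i => ?_⟩
          have h5 := hy2 i
          have h6 := hWc hw i
          have h7 := abs_add_le (y i) (w i)
          change |y i + w i| ≤ T' + L
          linarith
        refine (measure_mono hsub).trans ?_
        rw [measure_preimage_add_right]
      calc ∫⁻ w in W, ∫⁻ y in Q, E.indicator 1 (y + w) ≤ ∫⁻ _w in W, m := by
            apply setLIntegral_mono measurable_const
            intro w hw
            exact h4 w hw
        _ = volume W * m := by rw [setLIntegral_const, mul_comm]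
    have h5 := h1.trans h3
    rw [hQ, volume_cube d hT'.le, hWv] at h5
    have h6 := ENNReal.toReal_mono (ENNReal.mul_ne_top
      (ENNReal.pow_ne_top ENNReal.ofReal_ne_top) hmfin) h5
    rw [ENNReal.toReal_mul, ENNReal.toReal_mul, ENNReal.toReal_pow, ENNReal.toReal_pow,
      ENNReal.toReal_ofReal (by positivity), ENNReal.toReal_ofReal hL0.le] at h6
    rw [hb, mul_div_assoc', div_le_iff₀ (by positivity)]
    linarith
  -- limit
  have hr : Tendsto (fun T : ℝ => b * (2 * (T - L) / (2 * T)) ^ d) atTop (𝓝 (b * 1 ^ d)) := by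
    apply Tendsto.const_mul
    apply Tendsto.pow
    have h3 : Tendsto (fun T : ℝ => 1 - L / T) atTop (𝓝 (1 - 0)) :=
      tendsto_const_nhds.sub (tendsto_const_nhds.div_atTop tendsto_id)
    rw [sub_zero] at h3
    refine h3.congr' ?_
    filter_upwards [eventually_gt_atTop (0 : ℝ)] with T hT
    field_simp
  rw [one_pow, mul_one] at hr
  apply le_of_forall_lt
  intro b' hb'
  obtain ⟨b'', hb1, hb2⟩ := exists_between hb'
  refine lt_of_lt_of_le hb1 ?_
  unfold upperDensity
  apply le_limsup_of_frequently_le _ (density_bdd E)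
  apply Eventually.frequently
  filter_upwards [hr.eventually_const_lt hb2, eventually_gt_atTop L] with T hT1 hT2
  have hT0 : 0 < T := hL0.trans hT2
  refine hT1.le.trans ?_
  have h1 := hkey (T - L) (by linarith)
  rw [sub_add_cancel] at h1
  rw [div_pow, mul_div_assoc', div_le_div_iff_of_pos_right (by positivity)]
  linarith

end SphLim
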