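import Pool.Agent.SphLim.Word16

/-!
# Replacement of an indicator function by a continuous function in the counts
-/

open MeasureTheory Filter Topology Metric
open scoped ENNReal Pointwise RealInnerProductSpace Real

namespace SphLim

variable {d : ℕ} {ι : Type*} [Fintype ι]

/-- A multi-affine polynomial. -/
noncomputable def Th (a : Finset ι → ℝ) (X : ι → ℝ) : ℝ := ∑ J, a J * ∏ l ∈ J, X l

lemma exists_pos_lower {Q : Type*} [Finite Q] (f : Q → ℝ) (hf : ∀ q, 0 < f q) :
    ∃ m : ℝ, 0 < m ∧ ∀ q, m ≤ f q := by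
  classical
  cases isEmpty_or_nonempty Q with
  | inl h => exact ⟨1, one_pos, fun q => (h.false q).elim⟩
  | inr h =>
    obtain ⟨q0, hq0⟩ := Finite.exists_min f
    exact ⟨f q0, hf q0, hq0⟩

omit [Fintype ι] in
lemma prod_mem_unit {f : ι → ℝ} (hf : ∀ l, 0 ≤ f l ∧ f l ≤ 1) (J : Finset ι) :
    0 ≤ ∏ l ∈ J, f l ∧ ∏ l ∈ J, f l ≤ 1 :=
  ⟨Finset.prod_nonneg fun l _ => (hf l).1, Finset.prod_le_one (fun l _ => (hf l).1)
    fun l _ => (hf l).2⟩

omit [Fintype ι] in
lemma measurable_prod_act {u : Eu (d + 1) → ℝ} (hu : Measurable u) (v : ι → Eu (d + 1))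
    (J : Finset ι) : Measurable fun g : OG (d + 1) => ∏ l ∈ J, u (act g (v l)) :=
  Finset.measurable_prod J fun l _ => hu.comp (measurable_act_left (v l))

lemma mono_bound (hd : 2 ≤ d) (hι : 2 ≤ Fintype.card ι) {v p : ι → Eu (d + 1)} {lam K0 : ℝ}
    (hlam : 0 < lam) {u w : Eu (d + 1) → ℝ} {V : Set (Eu (d + 1))} (hum : Measurable u)
    (hwm : Measurable w) (hu : ∀ y, 0 ≤ u y ∧ u y ≤ 1) (hw : ∀ y, 0 ≤ w y ∧ w y ≤ 1)
    (hV : ∀ g, Psi v p lam g ≠ 0 → ∀ l, act g (v l) ∈ V)
    (hK : ∀ (i : ι) (J : Finset ι) (_ : J.Nonempty) (_ : i ∉ J) (_ : J.card + 1 ≤ d)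
      (H : OG (d + 1) → ℝ), Measurable H → (∀ g, |H g| ≤ 1) →
      (∀ g R : OG (d + 1), (∀ j ∈ J, act R (v j) = v j) → H (g * R) = H g) →
      |∫ g, Psi v p lam g * H g * V.indicator (u - w) (act g (v i)) ∂(haar (d + 1))| ≤ K0)
    (hK2 : 3 ≤ d → ∀ (i m : ι) (S : Finset ι), 2 ≤ S.card → m ∉ S → i ≠ m → i ∉ S →
      ∀ (F : Eu (d + 1) → ℝ) (H : OG (d + 1) → ℝ), Measurable F → (∀ y, |F y| ≤ 1) →
      Measurable H → (∀ g, |H g| ≤ 1) →
      (∀ g R : OG (d + 1), (∀ j ∈ S, act R (v j) = v j) → H (g * R) = H g) →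
      |∫ g, Psi v p lam g * H g * Ep (V.indicator (u - w)) F (v i) (v m) g
        ∂(haar (d + 1))| ≤ K0)
    (J2 : Finset ι) : ∀ J1 : Finset ι, Disjoint J1 J2 → (J1.card + J2.card ≤ d ∨ 3 ≤ d) →
      |∫ g, Psi v p lam g * ((∏ l ∈ J1, w (act g (v l))) * ∏ l ∈ J2, u (act g (v l)))
          ∂(haar (d + 1)) -
        ∫ g, Psi v p lam g * ((∏ l ∈ J1, w (act g (v l))) * ∏ l ∈ J2, w (act g (v l)))
          ∂(haar (d + 1))| ≤ J2.card * K0 := by
  classical
  have hPm : Measurable (Psi v p lam) := (continuous_Psi v p lam).measurable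
  have hP1 : ∀ g, |Psi v p lam g| ≤ 1 := by
    intro g
    rw [abs_of_nonneg (Psi_nonneg _ _ _ _)]
    exact Psi_le_one v p hlam g
  have hint : ∀ F : OG (d + 1) → ℝ, Measurable F → (∀ g, |F g| ≤ 1) →
      Integrable (fun g => Psi v p lam g * F g) (haar (d + 1)) := by
    intro F hF hF1
    refine Integrable.of_bound (C := 1) (hPm.mul hF).aestronglyMeasurable
      (Eventually.of_forall fun g => ?_)
    rw [Real.norm_eq_abs, abs_mul]
    exact mul_le_one₀ (hP1 g) (abs_nonneg _) (hF1 g)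
  have hab : ∀ (J1 J2 : Finset ι) (f1 f2 : Eu (d + 1) → ℝ), (∀ y, 0 ≤ f1 y ∧ f1 y ≤ 1) →
      (∀ y, 0 ≤ f2 y ∧ f2 y ≤ 1) → ∀ g : OG (d + 1),
      |(∏ l ∈ J1, f1 (act g (v l))) * ∏ l ∈ J2, f2 (act g (v l))| ≤ 1 := by
    intro J1 J2 f1 f2 h1 h2 g
    have e1 := prod_mem_unit (f := fun l => f1 (act g (v l))) (fun l => h1 _) J1
    have e2 := prod_mem_unit (f := fun l => f2 (act g (v l))) (fun l => h2 _) J2
    rw [abs_mul, abs_of_nonneg e1.1, abs_of_nonneg e2.1]
    exact mul_le_one₀ e1.2 e2.1 e2.2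
  induction J2 using Finset.induction_on with
  | empty =>
    intro J1 _ _
    simp
  | insert i J2 hi ih =>
    intro J1 hdis hcard
    rw [Finset.card_insert_of_notMem hi] at hcard
    have hiJ1 : i ∉ J1 := by
      intro h
      exact (Finset.disjoint_left.1 hdis h) (Finset.mem_insert_self _ _)
    have hdis2 : Disjoint J1 J2 :=
      Finset.disjoint_of_subset_right (Finset.subset_insert _ _) hdis
    have hdis3 : Disjoint (insert i J1) J2 := by
      rw [Finset.disjoint_insert_left]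
      exact ⟨hi, hdis2⟩
    have hih := ih (insert i J1) hdis3 (by rw [Finset.card_insert_of_notMem hiJ1]; omega)
    set H : OG (d + 1) → ℝ := fun g =>
      (∏ l ∈ J1, w (act g (v l))) * ∏ l ∈ J2, u (act g (v l)) with hH
    have hHm : Measurable H := (measurable_prod_act hwm v J1).mul (measurable_prod_act hum v J2)
    have hH1 : ∀ g, |H g| ≤ 1 := hab J1 J2 w u hw hu
    have hiU : i ∉ J1 ∪ J2 := by
      rw [Finset.mem_union, not_or]
      exact ⟨hiJ1, hi⟩
    have hterm : |∫ g, Psi v p lam g * H g * V.indicator (u - w) (act g (v i))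
        ∂(haar (d + 1))| ≤ K0 := by
      by_cases hcardU : (J1 ∪ J2).card + 1 ≤ d
      swap
      · have hU := Finset.card_union_le J1 J2
        have hd4 : 3 ≤ d := by omega
        have hne : (J1 ∪ J2).Nonempty := by
          rw [← Finset.card_pos]
          omega
        obtain ⟨m, hmU⟩ := hne
        have hSne : 2 ≤ ((J1 ∪ J2).erase m).card := by
          rw [Finset.card_erase_of_mem hmU]
          omega
        have hmS : m ∉ (J1 ∪ J2).erase m := Finset.notMem_erase _ _
        have him : i ≠ m := fun h => hiU (h ▸ hmU)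
        have hiS : i ∉ (J1 ∪ J2).erase m := fun h => hiU (Finset.mem_of_mem_erase h)
        by_cases hm1 : m ∈ J1
        · have hm2 : m ∉ J2 := fun h => Finset.disjoint_left.1 hdis2 hm1 h
          have h1 := hK2 hd4 i m _ hSne hmS him hiS w
            (fun g => (∏ l ∈ J1.erase m, w (act g (v l))) * ∏ l ∈ J2, u (act g (v l))) hwm
            (fun y => by rw [abs_of_nonneg (hw y).1]; exact (hw y).2)
            ((measurable_prod_act hwm v _).mul (measurable_prod_act hum v J2))
            (hab _ J2 w u hw hu) (by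
              intro g R hR
              congr 1
              · apply Finset.prod_congr rfl
                intro l hl
                rw [Finset.mem_erase] at hl
                rw [act_mul, hR l (Finset.mem_erase.2 ⟨hl.1, Finset.mem_union_left _ hl.2⟩)]
              · apply Finset.prod_congr rfl
                intro l hl
                rw [act_mul, hR l (Finset.mem_erase.2 ⟨fun h => hm2 (h ▸ hl),
                  Finset.mem_union_right _ hl⟩)])
          refine le_trans (le_of_eq ?_) h1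
          congr 2
          ext g
          rw [hH]
          unfold Ep
          simp only
          rw [← Finset.mul_prod_erase J1 (fun l => w (act g (v l))) hm1]
          ring
        · have hm2 : m ∈ J2 := (Finset.mem_union.1 hmU).resolve_left hm1
          have h1 := hK2 hd4 i m _ hSne hmS him hiS u
            (fun g => (∏ l ∈ J1, w (act g (v l))) * ∏ l ∈ J2.erase m, u (act g (v l))) hum
            (fun y => by rw [abs_of_nonneg (hu y).1]; exact (hu y).2)
            ((measurable_prod_act hwm v _).mul (measurable_prod_act hum v _))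
            (hab J1 _ w u hw hu) (by
              intro g R hR
              congr 1
              · apply Finset.prod_congr rfl
                intro l hl
                rw [act_mul, hR l (Finset.mem_erase.2 ⟨fun h => hm1 (h ▸ hl),
                  Finset.mem_union_left _ hl⟩)]
              · apply Finset.prod_congr rfl
                intro l hl
                rw [Finset.mem_erase] at hl
                rw [act_mul, hR l (Finset.mem_erase.2 ⟨hl.1, Finset.mem_union_right _ hl.2⟩)])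
          refine le_trans (le_of_eq ?_) h1
          congr 2
          ext g
          rw [hH]
          unfold Ep
          simp only
          rw [← Finset.mul_prod_erase J2 (fun l => u (act g (v l))) hm2]
          ring
      by_cases hne : (J1 ∪ J2).Nonempty
      · refine hK i (J1 ∪ J2) hne hiU hcardU H hHm hH1 ?_
        intro g R hR
        rw [hH]
        simp only
        congr 1
        · apply Finset.prod_congr rfl
          intro l hl
          rw [act_mul, hR l (Finset.mem_union_left _ hl)]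
        · apply Finset.prod_congr rfl
          intro l hl
          rw [act_mul, hR l (Finset.mem_union_right _ hl)]
      · rw [Finset.not_nonempty_iff_eq_empty, Finset.union_eq_empty] at hne
        obtain ⟨j0, hj0⟩ : ∃ j0 : ι, j0 ≠ i := by
          have : Nontrivial ι := Fintype.one_lt_card_iff_nontrivial.1 (by omega)
          exact exists_ne i
        refine hK i {j0} (Finset.singleton_nonempty _) ?_ ?_ H hHm hH1 ?_
        · rw [Finset.mem_singleton]
          exact fun h => hj0 h.symm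
        · rw [Finset.card_singleton]
          omega
        · intro g R _
          rw [hH]
          simp [hne.1, hne.2]
    -- decomposition
    have hA : Integrable (fun g => Psi v p lam g * ((∏ l ∈ J1, w (act g (v l))) *
        ∏ l ∈ insert i J2, u (act g (v l)))) (haar (d + 1)) :=
      hint _ ((measurable_prod_act hwm v J1).mul (measurable_prod_act hum v _))
        (hab _ _ _ _ hw hu)
    have hB : Integrable (fun g => Psi v p lam g * ((∏ l ∈ insert i J1, w (act g (v l))) *
        ∏ l ∈ J2, u (act g (v l)))) (haar (d + 1)) :=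
      hint _ ((measurable_prod_act hwm v _).mul (measurable_prod_act hum v _))
        (hab _ _ _ _ hw hu)
    have e1 : ∫ g, Psi v p lam g * ((∏ l ∈ J1, w (act g (v l))) *
          ∏ l ∈ insert i J2, u (act g (v l))) ∂(haar (d + 1)) -
        ∫ g, Psi v p lam g * ((∏ l ∈ insert i J1, w (act g (v l))) *
          ∏ l ∈ J2, u (act g (v l))) ∂(haar (d + 1)) =
        ∫ g, Psi v p lam g * H g * V.indicator (u - w) (act g (v i)) ∂(haar (d + 1)) := by
      rw [← integral_sub hA hB]
      congr 1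
      ext g
      rw [Finset.prod_insert hi, Finset.prod_insert hiJ1, hH]
      by_cases hg : Psi v p lam g = 0
      · simp [hg]
      · rw [Set.indicator_of_mem (hV g hg i), Pi.sub_apply]
        ring
    have e2 : ∀ g, (∏ l ∈ J1, w (act g (v l))) * ∏ l ∈ insert i J2, w (act g (v l)) =
        (∏ l ∈ insert i J1, w (act g (v l))) * ∏ l ∈ J2, w (act g (v l)) := by
      intro g
      rw [Finset.prod_insert hi, Finset.prod_insert hiJ1]
      ring
    simp_rw [e2]
    rw [Finset.card_insert_of_notMem hi]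
    push_cast
    have e3 := abs_sub_le
      (∫ g, Psi v p lam g * ((∏ l ∈ J1, w (act g (v l))) *
          ∏ l ∈ insert i J2, u (act g (v l))) ∂(haar (d + 1)))
      (∫ g, Psi v p lam g * ((∏ l ∈ insert i J1, w (act g (v l))) *
          ∏ l ∈ J2, u (act g (v l))) ∂(haar (d + 1)))
      (∫ g, Psi v p lam g * ((∏ l ∈ insert i J1, w (act g (v l))) *
          ∏ l ∈ J2, w (act g (v l))) ∂(haar (d + 1)))
    rw [e1] at e3
    linarith

theorem repl (hd : 2 ≤ d) (hι : 2 ≤ Fintype.card ι) {x : ι → Eu d}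
    (hx : AffineIndependent ℝ x) {ρ : ℝ} (hρ : 0 < ρ) (hxρ : ∀ l, ‖x l‖ = ρ) {κ C1 ε1 : ℝ}
    (hκ : 0 < κ) (hC1 : 0 ≤ C1) (hε1 : 0 < ε1) (a : Finset ι → ℝ)
    (ha : ∀ J, a J ≠ 0 → J.card ≤ d ∨ 3 ≤ d) :
    ∃ (S : (ι × Finset ι × ι) × Bool → ℝ) (δ1 t0 : ℝ), (∀ q, 0 < S q) ∧ 0 < δ1 ∧ 0 < t0 ∧
      ∀ t : ℝ, 0 < t → t < t0 → ∀ (u w : Eu (d + 1) → ℝ) (V : Set (Eu (d + 1)))
      (p : ι → Eu (d + 1)), Measurable u → Measurable w → MeasurableSet V →
      (∀ y, 0 ≤ u y ∧ u y ≤ 1) → (∀ y, 0 ≤ w y ∧ w y ≤ 1) → (∀ l, ‖p l‖ = 1) →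
      (∀ g, Psi (fun l => bw ρ t (x l)) p (κ * t) g ≠ 0 → ∀ l, act g (bw ρ t (x l)) ∈ V) →
      ∫ y, |V.indicator (u - w) y| ∂(sphMeas d) ≤ C1 * t ^ d →
      (∀ q, ∫ y, |capAvg (V.indicator (u - w)) (S q * t) y| ∂(sphMeas d) ≤ δ1 * t ^ d) →
      |∫ g, Psi (fun l => bw ρ t (x l)) p (κ * t) g *
          Th a (fun l => u (act g (bw ρ t (x l)))) ∂(haar (d + 1)) -
        ∫ g, Psi (fun l => bw ρ t (x l)) p (κ * t) g *
          Th a (fun l => w (act g (bw ρ t (x l)))) ∂(haar (d + 1))| ≤ ε1 * t ^ d := by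
  classical
  set A : ℝ := ∑ J, |a J| with hA
  have hA0 : 0 ≤ A := Finset.sum_nonneg fun _ _ => abs_nonneg _
  set ε2 : ℝ := ε1 / (A * Fintype.card ι + 1) with hε2
  have hε20 : 0 < ε2 := by positivity
  have hall : ∀ q : ι × Finset ι, ∃ r : ℝ × ℝ × ℝ, 0 < r.1 ∧ 0 < r.2.1 ∧ 0 < r.2.2 ∧
      (q.2.Nonempty → q.1 ∉ q.2 → q.2.card + 1 ≤ d → ∀ t : ℝ, 0 < t → t < r.2.2 →
      ∀ (h : Eu (d + 1) → ℝ) (p : ι → Eu (d + 1)) (H : OG (d + 1) → ℝ),
      Measurable h → (∀ y, |h y| ≤ 1) → (∀ l, ‖p l‖ = 1) → Measurable H → (∀ g, |H g| ≤ 1) →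
      (∀ g R : OG (d + 1), (∀ j ∈ q.2, act R (bw ρ t (x j)) = bw ρ t (x j)) →
        H (g * R) = H g) →
      ∫ y, |h y| ∂(sphMeas d) ≤ C1 * t ^ d →
      ∫ y, |capAvg h (r.1 * t) y| ∂(sphMeas d) ≤ r.2.1 * t ^ d →
      |∫ g, Psi (fun l => bw ρ t (x l)) p (κ * t) g * H g *
        h (act g (bw ρ t (x q.1))) ∂(haar (d + 1))| ≤ ε2 * t ^ d) := by
    rintro ⟨i, J⟩
    by_cases hcond : J.Nonempty ∧ i ∉ J ∧ J.card + 1 ≤ d
    · obtain ⟨⟨j0, hj0⟩, hi, hJd⟩ := hcond
      obtain ⟨s, hs, δ1, hδ1, t0, ht0, h⟩ := term_small (by omega : 1 ≤ d) hx hρ hxρ hJd hj0 hi hκ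
        hC1 hε20
      exact ⟨(s, δ1, t0), hs, hδ1, ht0, fun _ _ _ => h⟩
    · refine ⟨(1, 1, 1), one_pos, one_pos, one_pos, fun h1 h2 h3 => ?_⟩
      exact absurd ⟨h1, h2, h3⟩ hcond
  have hall2 : ∀ q : ι × Finset ι × ι, ∃ r : ℝ × ℝ × ℝ, 0 < r.1 ∧ 0 < r.2.1 ∧ 0 < r.2.2 ∧
      (3 ≤ d → 2 ≤ q.2.1.card → q.2.2 ∉ q.2.1 → q.1 ≠ q.2.2 → q.1 ∉ q.2.1 → ∀ t : ℝ, 0 < t →
      t < r.2.2 → ∀ (h F : Eu (d + 1) → ℝ) (p : ι → Eu (d + 1)) (H : OG (d + 1) → ℝ),
      Measurable h → (∀ y, |h y| ≤ 1) → Measurable F → (∀ y, |F y| ≤ 1) → (∀ l, ‖p l‖ = 1) →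
      Measurable H → (∀ g, |H g| ≤ 1) →
      (∀ g R : OG (d + 1), (∀ j ∈ q.2.1, act R (bw ρ t (x j)) = bw ρ t (x j)) →
        H (g * R) = H g) →
      ∫ y, |h y| ∂(sphMeas d) ≤ C1 * t ^ d →
      ∫ y, |capAvg h (r.1 * t) y| ∂(sphMeas d) ≤ r.2.1 * t ^ d →
      |∫ g, Psi (fun l => bw ρ t (x l)) p (κ * t) g * H g *
        Ep h F (bw ρ t (x q.1)) (bw ρ t (x q.2.2)) g ∂(haar (d + 1))| ≤ ε2 * t ^ d) := by
    rintro ⟨i, J, m⟩
    by_cases hcond : 3 ≤ d ∧ 2 ≤ J.card ∧ m ∉ J ∧ i ≠ m ∧ i ∉ J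
    · obtain ⟨hd3, hJ2, hm, him, hi⟩ := hcond
      have hi2 : i ∉ insert m J := by
        rw [Finset.mem_insert, not_or]
        exact ⟨him, hi⟩
      by_cases hd4 : 4 ≤ d
      · obtain ⟨j0, hj0⟩ : J.Nonempty := Finset.card_pos.1 (by omega)
        obtain ⟨s, hs, δ1, hδ1, t0, ht0, h⟩ := term_full hd4 hx hρ hxρ hj0 hm hi2 hκ
          hC1 hε20
        exact ⟨(s, δ1, t0), hs, hδ1, ht0, fun _ _ _ _ _ => h⟩
      · obtain rfl : d = 3 := by omega
        have hcardι : Fintype.card ι ≤ 4 := by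
          have h1 := hx.card_le_finrank_succ
          have h2 := Submodule.finrank_le (vectorSpan ℝ (Set.range x))
          rw [finrank_euclideanSpace, Fintype.card_fin] at h2
          omega
        have hc1 : (insert i (insert m J)).card = J.card + 2 := by
          rw [Finset.card_insert_of_notMem hi2, Finset.card_insert_of_notMem hm]
        have hc2 := Finset.card_le_univ (insert i (insert m J))
        have hJ2' : J.card = 2 := by omega
        have huniv : insert i (insert m J) = Finset.univ := by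
          rw [← Finset.card_eq_iff_eq_univ]
          omega
        obtain ⟨j0, j1, h01, rfl⟩ := Finset.card_eq_two.1 hJ2'
        simp only [Finset.mem_insert, Finset.mem_singleton, not_or] at hm hi
        have hall : ∀ l, l = i ∨ l = m ∨ l = j0 ∨ l = j1 := by
          intro l
          have hl := Finset.mem_univ l
          rw [← huniv] at hl
          simpa only [Finset.mem_insert, Finset.mem_singleton] using hl
        obtain ⟨s, hs, δ1, hδ1, t0, ht0, h⟩ := term_full3 hx hρ hxρ him hi.1 hi.2 hm.1 hm.2 h01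
          hall hκ hC1 hε20
        refine ⟨(s, δ1, t0), hs, hδ1, ht0, fun _ _ _ _ _ => ?_⟩
        intro t ht htt h' F p H hhm hhb hFm hFb hp hHm hHb hHinv hN1 hC
        refine h t ht htt h' F p H hhm hhb hFm hFb hp hHm hHb (fun g R hR0 hR1 => ?_) hN1 hC
        refine hHinv g R fun j hj => ?_
        simp only [Finset.mem_insert, Finset.mem_singleton] at hj
        rcases hj with rfl | rfl
        · exact hR0
        · exact hR1
    · refine ⟨(1, 1, 1), one_pos, one_pos, one_pos, fun h1 h2 h3 h4 h5 => ?_⟩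
      exact absurd ⟨h1, h2, h3, h4, h5⟩ hcond
  choose r hr1 hr2 hr3 hr using hall
  choose r' hr1' hr2' hr3' hr' using hall2
  obtain ⟨δa, hδa, hδa'⟩ := exists_pos_lower (fun q => (r q).2.1) hr2
  obtain ⟨ta, hta, hta'⟩ := exists_pos_lower (fun q => (r q).2.2) hr3
  obtain ⟨δb, hδb, hδb'⟩ := exists_pos_lower (fun q => (r' q).2.1) hr2'
  obtain ⟨tb, htb, htb'⟩ := exists_pos_lower (fun q => (r' q).2.2) hr3'
  refine ⟨fun q => if q.2 then (r (q.1.1, q.1.2.1)).1 else (r' q.1).1, min δa δb, min ta tb, ?_,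
    by positivity, by positivity, ?_⟩
  · rintro ⟨q, b⟩
    cases b
    · simpa using hr1' q
    · simpa using hr1 _
  intro t ht htt u w V p hum hwm hVm hu hw hp hV hN hC
  set v : ι → Eu (d + 1) := fun l => bw ρ t (x l) with hv
  have hκt : 0 < κ * t := by positivity
  have htd : 0 < t ^ d := by positivity
  set h : Eu (d + 1) → ℝ := V.indicator (u - w) with hh
  have hhm : Measurable h := (hum.sub hwm).indicator hVm
  have hh1 : ∀ y, |h y| ≤ 1 := by
    intro y
    rw [hh]
    by_cases hy : y ∈ V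
    · rw [Set.indicator_of_mem hy, Pi.sub_apply, abs_le]
      constructor <;> linarith [(hu y).1, (hu y).2, (hw y).1, (hw y).2]
    · rw [Set.indicator_of_notMem hy, abs_zero]
      exact zero_le_one
  have hK : ∀ (i : ι) (J : Finset ι) (_ : J.Nonempty) (_ : i ∉ J) (_ : J.card + 1 ≤ d)
      (H : OG (d + 1) → ℝ), Measurable H → (∀ g, |H g| ≤ 1) →
      (∀ g R : OG (d + 1), (∀ j ∈ J, act R (v j) = v j) → H (g * R) = H g) →
      |∫ g, Psi v p (κ * t) g * H g * V.indicator (u - w) (act g (v i)) ∂(haar (d + 1))| ≤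
        ε2 * t ^ d := by
    intro i J hJ hi hJd H hHm hH1 hHinv
    refine hr (i, J) hJ hi hJd t ht (lt_of_lt_of_le htt ((min_le_left _ _).trans (hta' (i, J))))
      h p H hhm hh1 hp hHm hH1 hHinv hN ?_
    have h9 := hC ((i, J, i), true)
    simp only [if_true] at h9
    refine h9.trans ?_
    exact mul_le_mul_of_nonneg_right ((min_le_left _ _).trans (hδa' (i, J))) htd.le
  have hK2 : 3 ≤ d → ∀ (i m : ι) (S : Finset ι), 2 ≤ S.card → m ∉ S → i ≠ m → i ∉ S →
      ∀ (F : Eu (d + 1) → ℝ) (H : OG (d + 1) → ℝ), Measurable F → (∀ y, |F y| ≤ 1) →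
      Measurable H → (∀ g, |H g| ≤ 1) →
      (∀ g R : OG (d + 1), (∀ j ∈ S, act R (v j) = v j) → H (g * R) = H g) →
      |∫ g, Psi v p (κ * t) g * H g * Ep (V.indicator (u - w)) F (v i) (v m) g
        ∂(haar (d + 1))| ≤ ε2 * t ^ d := by
    intro hd4 i m S hS hm him hi F H hFm hFb hHm hH1 hHinv
    refine hr' (i, S, m) hd4 hS hm him hi t ht
      (lt_of_lt_of_le htt ((min_le_right _ _).trans (htb' (i, S, m)))) h F p H hhm hh1 hFm hFb hp
      hHm hH1 hHinv hN ?_
    have h9 := hC ((i, S, m), false)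
    simp only [Bool.false_eq_true, if_false] at h9
    refine h9.trans ?_
    exact mul_le_mul_of_nonneg_right ((min_le_right _ _).trans (hδb' (i, S, m))) htd.le
  have hPm : Measurable (Psi v p (κ * t)) := (continuous_Psi v p (κ * t)).measurable
  have hP1 : ∀ g, |Psi v p (κ * t) g| ≤ 1 := by
    intro g
    rw [abs_of_nonneg (Psi_nonneg _ _ _ _)]
    exact Psi_le_one v p hκt g
  have hexp : ∀ f : Eu (d + 1) → ℝ, Measurable f → (∀ y, 0 ≤ f y ∧ f y ≤ 1) →
      ∫ g, Psi v p (κ * t) g * Th a (fun l => f (act g (v l))) ∂(haar (d + 1)) =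
      ∑ J, a J * ∫ g, Psi v p (κ * t) g * ∏ l ∈ J, f (act g (v l)) ∂(haar (d + 1)) := by
    intro f hfm hf
    have e : ∀ g, Psi v p (κ * t) g * Th a (fun l => f (act g (v l))) =
        ∑ J, a J * (Psi v p (κ * t) g * ∏ l ∈ J, f (act g (v l))) := by
      intro g
      unfold Th
      rw [Finset.mul_sum]
      apply Finset.sum_congr rfl
      intro J _
      ring
    simp_rw [e]
    rw [integral_finsetSum]
    · simp_rw [integral_const_mul]
    · intro J _
      apply Integrable.const_mul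
      refine Integrable.of_bound (C := 1) (hPm.mul (measurable_prod_act hfm v J)).aestronglyMeasurable
        (Eventually.of_forall fun g => ?_)
      have e1 := prod_mem_unit (f := fun l => f (act g (v l))) (fun l => hf _) J
      rw [Real.norm_eq_abs, abs_mul, abs_of_nonneg e1.1]
      exact mul_le_one₀ (hP1 g) e1.1 e1.2
  rw [hexp u hum hu, hexp w hwm hw, ← Finset.sum_sub_distrib]
  calc |∑ J, (a J * ∫ g, Psi v p (κ * t) g * ∏ l ∈ J, u (act g (v l)) ∂(haar (d + 1)) -
        a J * ∫ g, Psi v p (κ * t) g * ∏ l ∈ J, w (act g (v l)) ∂(haar (d + 1)))|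
      ≤ ∑ J, |a J| * (Fintype.card ι * (ε2 * t ^ d)) := by
        refine (Finset.abs_sum_le_sum_abs _ _).trans ?_
        apply Finset.sum_le_sum
        intro J _
        rw [← mul_sub, abs_mul]
        by_cases haJ : a J = 0
        · rw [haJ, abs_zero, zero_mul, zero_mul]
        · apply mul_le_mul_of_nonneg_left _ (abs_nonneg _)
          have h1 := mono_bound hd hι hκt hum hwm hu hw hV hK hK2 J ∅ (Finset.disjoint_empty_left _)
            (by rw [Finset.card_empty, zero_add]; exact ha J haJ)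
          simp only [Finset.prod_empty, one_mul] at h1
          refine h1.trans ?_
          apply mul_le_mul_of_nonneg_right _ (by positivity)
          exact_mod_cast Finset.card_le_univ J
    _ = A * Fintype.card ι * ε2 * t ^ d := by
        rw [← Finset.sum_mul, hA]
        ring
    _ ≤ ε1 * t ^ d := by
        apply mul_le_mul_of_nonneg_right _ htd.le
        have hpos : 0 < A * Fintype.card ι + 1 := by positivity
        rw [hε2, mul_div_assoc', div_le_iff₀ hpos]
        nlinarith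

end SphLim
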