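import Pool.Agent.SphLim.Defs

/-!
# Finite families with equal mutual distances are congruent
-/

open MeasureTheory Filter Topology Metric

namespace SphLim

variable {n : ℕ}

/-- The isometry exchanging `x` and `y` and fixing every point equidistant from both. -/
lemma exists_swap (x y : Eu n) : ∃ r : Eu n ≃ᵢ Eu n, r x = y ∧
    ∀ z : Eu n, dist z x = dist z y → r z = z := by
  set m : Eu n := (1 / 2 : ℝ) • (x + y) with hm
  set L := (ℝ ∙ ((x - m) - (y - m)))ᗮ.reflection with hL
  have hnorm : ‖x - m‖ = ‖y - m‖ := by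
    have h1 : x - m = -(y - m) := by
      rw [hm]
      module
    rw [h1, norm_neg]
  refine ⟨((IsometryEquiv.subRight m).trans L.toIsometryEquiv).trans (IsometryEquiv.addRight m),
    ?_, ?_⟩
  · simp only [IsometryEquiv.trans_apply, IsometryEquiv.subRight_apply,
      LinearIsometryEquiv.coe_toIsometryEquiv, IsometryEquiv.addRight_apply]
    rw [hL, Submodule.reflection_sub hnorm]
    abel
  · intro z hz
    simp only [IsometryEquiv.trans_apply, IsometryEquiv.subRight_apply,
      LinearIsometryEquiv.coe_toIsometryEquiv, IsometryEquiv.addRight_apply]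
    have hmem : z - m ∈ (ℝ ∙ ((x - m) - (y - m)))ᗮ := by
      rw [Submodule.mem_orthogonal_singleton_iff_inner_right]
      have h1 : (x - m) - (y - m) = (z - y) - (z - x) := by abel
      have h2 : z - m = (1 / 2 : ℝ) • ((z - y) + (z - x)) := by
        rw [hm]
        module
      rw [h1, h2, inner_smul_right, inner_sub_left, inner_add_right, inner_add_right,
        real_inner_self_eq_norm_sq, real_inner_self_eq_norm_sq, real_inner_comm (z - x) (z - y)]
      rw [dist_eq_norm, dist_eq_norm] at hz
      rw [hz]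
      ring
    rw [hL, Submodule.reflection_mem_subspace_eq_self hmem]
    abel

/-- Rigid extension. -/
theorem exists_isometry_of_dist_eq {ι : Type*} [Fintype ι] (p q : ι → Eu n)
    (h : ∀ i j, dist (p i) (p j) = dist (q i) (q j)) :
    ∃ g : Eu n ≃ᵢ Eu n, ∀ i, g (p i) = q i := by
  classical
  have key : ∀ s : Finset ι, ∃ g : Eu n ≃ᵢ Eu n, ∀ i ∈ s, g (p i) = q i := by
    intro s
    induction s using Finset.induction_on with
    | empty => exact ⟨IsometryEquiv.refl _, by simp⟩
    | insert a s _ ih =>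
      obtain ⟨g, hg⟩ := ih
      obtain ⟨r, hr, hr'⟩ := exists_swap (g (p a)) (q a)
      refine ⟨g.trans r, ?_⟩
      intro i hi
      rcases Finset.mem_insert.1 hi with rfl | hi
      · simpa using hr
      · rw [IsometryEquiv.trans_apply]
        rw [hg i hi]
        apply hr'
        rw [← h i a, ← hg i hi, g.dist_eq]
  obtain ⟨g, hg⟩ := key Finset.univ
  exact ⟨g, fun i => hg i (Finset.mem_univ i)⟩

/-- A set does not avoid `p '' univ` as soon as it contains a family with the same distances. -/
lemma not_avoids_of_dist_eq {ι : Type*} [Fintype ι] (p q : ι → Eu n) {A P : Set (Eu n)}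
    (hP : P = Set.range p) (h : ∀ i j, dist (p i) (p j) = dist (q i) (q j))
    (hq : ∀ i, q i ∈ A) : ¬ Avoids A P := by
  obtain ⟨g, hg⟩ := exists_isometry_of_dist_eq p q h
  intro hA
  refine hA (g '' P) ?_ ⟨g, rfl⟩
  rw [hP]
  rintro _ ⟨_, ⟨i, rfl⟩, rfl⟩
  rw [hg i]
  exact hq i

/-- Conversely. -/
lemma avoids_of_forall {ι : Type*} (p : ι → Eu n) {A P : Set (Eu n)}
    (hP : P = Set.range p)
    (h : ∀ q : ι → Eu n, (∀ i j, dist (p i) (p j) = dist (q i) (q j)) → ∃ i, q i ∉ A) :
    Avoids A P := by
  rintro Q hQ ⟨g, rfl⟩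
  obtain ⟨i, hi⟩ := h (fun i => g (p i)) (fun i j => by simp [g.dist_eq])
  apply hi
  apply hQ
  rw [hP]
  exact ⟨p i, ⟨i, rfl⟩, rfl⟩

end SphLim
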