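import Pool.Agent.SphLim.Lattice

/-!
# The rotation-invariant probability measure on the sphere
-/

open MeasureTheory Filter Topology Metric
open scoped ENNReal Pointwise

namespace SphLim

variable {d : ℕ}

/-- Radial projection. -/
noncomputable def nrm {n : ℕ} (x : Eu n) : Eu n := ‖x‖⁻¹ • x

lemma measurable_nrm {n : ℕ} : Measurable (nrm : Eu n → Eu n) := by
  unfold nrm
  exact (measurable_norm.inv).smul measurable_id

lemma norm_nrm {n : ℕ} {x : Eu n} (hx : x ≠ 0) : ‖nrm x‖ = 1 := by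
  unfold nrm
  rw [norm_smul, norm_inv, norm_norm, inv_mul_cancel₀ (norm_ne_zero_iff.2 hx)]

/-- Normalised Lebesgue measure of the unit ball. -/
noncomputable def ballMeas (n : ℕ) : Measure (Eu n) :=
  (volume (ball (0 : Eu n) 1))⁻¹ • (volume : Measure (Eu n)).restrict (ball (0 : Eu n) 1)

/-- The rotation-invariant probability measure on the unit sphere, as a measure on the ambient
space. -/
noncomputable def sphMeas (d : ℕ) : Measure (Eu (d + 1)) := (ballMeas (d + 1)).map nrm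

lemma vol_ball_ne_zero (n : ℕ) : volume (ball (0 : Eu n) 1) ≠ 0 :=
  (measure_ball_pos _ _ one_pos).ne'

lemma vol_ball_ne_top (n : ℕ) : volume (ball (0 : Eu n) 1) ≠ ∞ := measure_ball_lt_top.ne

instance (n : ℕ) : IsProbabilityMeasure (ballMeas n) := ⟨by
  unfold ballMeas
  rw [Measure.smul_apply, Measure.restrict_apply_univ, smul_eq_mul,
    ENNReal.inv_mul_cancel (vol_ball_ne_zero n) (vol_ball_ne_top n)]⟩

instance (d : ℕ) : IsProbabilityMeasure (sphMeas d) :=
  Measure.isProbabilityMeasure_map measurable_nrm.aemeasurable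

lemma sphMeas_apply {A : Set (Eu (d + 1))} (hA : MeasurableSet A) :
    sphMeas d A = (volume (ball (0 : Eu (d + 1)) 1))⁻¹ *
      volume (nrm ⁻¹' A ∩ ball (0 : Eu (d + 1)) 1) := by
  unfold sphMeas ballMeas
  rw [Measure.map_apply measurable_nrm hA, Measure.smul_apply,
    Measure.restrict_apply (measurable_nrm hA), smul_eq_mul]

lemma cone_eq (A : Set (Eu (d + 1))) :
    Set.Ioo (0 : ℝ) 1 • ((↑) '' ((↑) ⁻¹' A : Set (sphere (0 : Eu (d + 1)) 1)) : Set (Eu (d + 1)))
      = (nrm ⁻¹' A ∩ ball (0 : Eu (d + 1)) 1) \ {0} := by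
  ext x
  simp only [Set.mem_smul, Set.mem_image, Set.mem_preimage, Subtype.exists, mem_sphere_iff_norm,
    sub_zero, Set.mem_sdiff, Set.mem_inter_iff, mem_ball, dist_zero_right, Set.mem_singleton_iff]
  constructor
  · rintro ⟨r, ⟨hr0, hr1⟩, _, ⟨y, hy1, hyA, rfl⟩, rfl⟩
    have hy0 : y ≠ 0 := by
      rintro rfl
      simp at hy1
    have hn : nrm (r • y) = y := by
      unfold nrm
      rw [norm_smul, Real.norm_of_nonneg hr0.le, hy1, mul_one, smul_smul,
        inv_mul_cancel₀ hr0.ne', one_smul]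
    refine ⟨⟨by rw [hn]; exact hyA, ?_⟩, ?_⟩
    · rw [norm_smul, Real.norm_of_nonneg hr0.le, hy1, mul_one]; exact hr1
    · exact smul_ne_zero hr0.ne' hy0
  · rintro ⟨⟨hA, h1⟩, h0⟩
    refine ⟨‖x‖, ⟨norm_pos_iff.2 h0, h1⟩, nrm x, ⟨nrm x, norm_nrm h0, hA, rfl⟩, ?_⟩
    unfold nrm
    rw [smul_smul, mul_inv_cancel₀ (norm_ne_zero_iff.2 h0), one_smul]

lemma sphProb_eq {A : Set (Eu (d + 1))} (hA : MeasurableSet A) :
    sphProb d A = (sphMeas d A).toReal := by
  unfold sphProb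
  congr 1
  rw [Measure.toSphere_apply_univ, Measure.toSphere_apply' _ (measurable_subtype_coe hA), cone_eq,
    sphMeas_apply hA]
  rw [measure_sdiff_null (measure_singleton _)]
  have hd : ((Module.finrank ℝ (Eu (d + 1)) : ℕ) : ℝ≥0∞) ≠ 0 := by
    simp
  have hd' : ((Module.finrank ℝ (Eu (d + 1)) : ℕ) : ℝ≥0∞) ≠ ∞ := ENNReal.natCast_ne_top _
  rw [ENNReal.mul_div_mul_left _ _ hd hd', div_eq_mul_inv, mul_comm]

lemma sphMeas_compl_sphere : sphMeas d (sphere (0 : Eu (d + 1)) 1)ᶜ = 0 := by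
  rw [sphMeas_apply isClosed_sphere.measurableSet.compl]
  have : volume (nrm ⁻¹' (sphere (0 : Eu (d + 1)) 1)ᶜ ∩ ball (0 : Eu (d + 1)) 1) = 0 := by
    apply measure_mono_null (t := {0}) _ (measure_singleton _)
    rintro x ⟨hx, -⟩
    by_contra h0
    apply hx
    rw [mem_sphere_iff_norm, sub_zero]
    exact norm_nrm h0
  rw [this, mul_zero]

lemma nrm_linearIsometryEquiv {n : ℕ} (g : Eu n ≃ₗᵢ[ℝ] Eu n) (x : Eu n) :
    nrm (g x) = g (nrm x) := by
  unfold nrm
  rw [g.norm_map, map_smul]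

lemma ballMeas_map {n : ℕ} (g : Eu n ≃ₗᵢ[ℝ] Eu n) : (ballMeas n).map g = ballMeas n := by
  unfold ballMeas
  rw [Measure.map_smul]
  congr 1
  have h1 : MeasurePreserving g (volume.restrict (g ⁻¹' ball (0 : Eu n) 1))
      (volume.restrict (ball (0 : Eu n) 1)) :=
    (g.measurePreserving).restrict_preimage measurableSet_ball
  have h2 : g ⁻¹' ball (0 : Eu n) 1 = ball 0 1 := by
    ext x
    simp
  rw [h2] at h1
  exact h1.map_eq

lemma sphMeas_map (g : Eu (d + 1) ≃ₗᵢ[ℝ] Eu (d + 1)) : (sphMeas d).map g = sphMeas d := by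
  unfold sphMeas
  have hg : Measurable g := g.continuous.measurable
  rw [Measure.map_map hg measurable_nrm]
  have : (g ∘ nrm : Eu (d + 1) → Eu (d + 1)) = nrm ∘ g := by
    ext1 x
    simp [nrm_linearIsometryEquiv]
  rw [this, ← Measure.map_map measurable_nrm hg, ballMeas_map]

lemma sphMeas_preserving (g : Eu (d + 1) ≃ₗᵢ[ℝ] Eu (d + 1)) :
    MeasurePreserving g (sphMeas d) (sphMeas d) := ⟨g.continuous.measurable, sphMeas_map g⟩

end SphLim
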