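import Pool.Agent.SphLim.TV

/-!
# Total variation continuity of the law of an inner product under rotation
-/

open MeasureTheory Filter Topology Metric
open scoped ENNReal Real

namespace SphLim

/-- General total variation continuity for a measure absolutely continuous on the line. -/
lemma tv_affine {Q : Measure ℝ} [IsFiniteMeasure Q] (hQ : Q ≪ volume) {ε : ℝ} (hε : 0 < ε) :
    ∃ s : ℝ, 0 < s ∧ s ≤ 1 / 2 ∧ ∀ l b : ℝ, |l - 1| ≤ s → |b| ≤ s →
      ∀ Φ : ℝ → ℝ, Measurable Φ → (∀ x, |Φ x| ≤ 1) →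
      |∫ x, Φ x ∂Q - ∫ x, Φ (b + l * x) ∂Q| ≤ ε := by
  set q : ℝ → ℝ := fun x => (Q.rnDeriv volume x).toReal with hq
  have hqi : Integrable q := Measure.integrable_toReal_rnDeriv
  have hq0 : 0 ≤ ∫ x, |q x| := integral_nonneg fun _ => abs_nonneg _
  set C : ℝ := ∫ x, |q x| with hC
  have hrep : ∀ f : ℝ → ℝ, ∫ x, f x ∂Q = ∫ x, q x * f x := by
    intro f
    rw [← integral_rnDeriv_smul hQ]
    rfl
  obtain ⟨s, hs0, hs1, hs⟩ := integral_affine_close hqi (ε := ε / 4) (by positivity)
  refine ⟨min (s / 4) (min (1 / 4) (ε / (8 * (C + 1)))), by positivity,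
    (min_le_right _ _).trans ((min_le_left _ _).trans (by norm_num)), ?_⟩
  intro l b hl hb Φ hΦm hΦb
  have hm1 := min_le_left (s / 4) (min (1 / 4) (ε / (8 * (C + 1))))
  have hm2 := (min_le_right (s / 4) (min (1 / 4) (ε / (8 * (C + 1))))).trans (min_le_left _ _)
  have hm3 := (min_le_right (s / 4) (min (1 / 4) (ε / (8 * (C + 1))))).trans (min_le_right _ _)
  have hl2 : |l - 1| ≤ 1 / 4 := hl.trans hm2
  have hl0 : 3 / 4 ≤ l := by linarith [(abs_le.1 hl2).1]
  have hl5 : l ≤ 5 / 4 := by linarith [(abs_le.1 hl2).2]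
  have hlpos : 0 < l := by linarith
  have hlne : l ≠ 0 := by linarith
  -- the inverse map
  set l' : ℝ := l⁻¹ with hl'
  set b' : ℝ := -(b / l) with hb'
  have hl'1 : |l' - 1| ≤ s := by
    have e : l' - 1 = -((l - 1) / l) := by rw [hl']; field_simp; ring
    rw [e, abs_neg, abs_div, abs_of_pos hlpos, div_le_iff₀ hlpos]
    nlinarith [abs_nonneg (l - 1)]
  have hb'1 : |b'| ≤ s := by
    rw [hb', abs_neg, abs_div, abs_of_pos hlpos, div_le_iff₀ hlpos]
    nlinarith [abs_nonneg b]
  have hclose := hs l' b' hl'1 hb'1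
  have hcov : ∫ x, q x * Φ (b + l * x) = ∫ y, l' * (q (l' * y + b') * Φ y) := by
    have e1 := Measure.integral_comp_mul_left (fun y => q (l' * (y + b) + b') * Φ (y + b)) l
    have e2 : ∀ x, q (l' * (l * x + b) + b') * Φ (l * x + b) = q x * Φ (b + l * x) := by
      intro x
      have : l' * (l * x + b) + b' = x := by
        rw [hl', hb']; field_simp; ring
      rw [this, add_comm (l * x) b]
    simp_rw [e2] at e1
    rw [e1]
    have e3 : ∫ y, q (l' * (y + b) + b') * Φ (y + b) = ∫ y, q (l' * y + b') * Φ y :=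
      integral_add_right_eq_self (fun y => q (l' * y + b') * Φ y) b
    rw [e3, smul_eq_mul, integral_const_mul, abs_of_pos (by positivity : 0 < l⁻¹)]
  have hqi' : Integrable fun y => q (l' * y + b') :=
    ((hqi.comp_add_right b').comp_mul_left' (by positivity : l' ≠ 0))
  have hbd : ∀ f : ℝ → ℝ, Integrable f → Integrable fun y => f y * Φ y := by
    intro f hf
    exact hf.mul_bdd hΦm.aestronglyMeasurable
      (Eventually.of_forall fun y => by simpa using hΦb y)
  rw [hrep, hrep, hcov, ← integral_sub (hbd q hqi) ((hbd _ hqi').const_mul l')]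
  have hint1 : Integrable fun y => |q (l' * y + b') - q y| := (hqi'.sub hqi).abs
  have hint2 : Integrable fun y => |l' - 1| * |q (l' * y + b')| := hqi'.abs.const_mul _
  calc |∫ y, (q y * Φ y - l' * (q (l' * y + b') * Φ y))|
      ≤ ∫ y, (|q (l' * y + b') - q y| + |l' - 1| * |q (l' * y + b')|) := by
        rw [← Real.norm_eq_abs]
        refine (norm_integral_le_integral_norm _).trans ?_
        apply integral_mono_of_nonneg (Eventually.of_forall fun _ => norm_nonneg _)
          (hint1.add hint2)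
        refine Eventually.of_forall fun y => ?_
        simp only [Real.norm_eq_abs]
        have e : q y * Φ y - l' * (q (l' * y + b') * Φ y) =
            -((q (l' * y + b') - q y) + (l' - 1) * q (l' * y + b')) * Φ y := by ring
        rw [e, abs_mul, abs_neg]
        calc |q (l' * y + b') - q y + (l' - 1) * q (l' * y + b')| * |Φ y|
            ≤ |q (l' * y + b') - q y + (l' - 1) * q (l' * y + b')| * 1 :=
              mul_le_mul_of_nonneg_left (hΦb y) (abs_nonneg _)
          _ ≤ _ := by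
              rw [mul_one]
              simp only [Pi.add_apply]
              rw [← abs_mul]
              exact abs_add_le _ _
    _ = (∫ y, |q (l' * y + b') - q y|) + |l' - 1| * ∫ y, |q (l' * y + b')| := by
        rw [integral_add hint1 hint2, integral_const_mul]
    _ ≤ ε / 4 + ε / 4 := by
        apply add_le_add hclose
        have e1 : ∫ y, |q (l' * y + b')| = |l'⁻¹| * C := by
          have e2 := Measure.integral_comp_mul_left (fun y => |q (y + b')|) l'
          rw [e2, smul_eq_mul, hC]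
          congr 1
          exact integral_add_right_eq_self (fun y => |q y|) b'
        rw [e1, hl', inv_inv, abs_of_pos hlpos]
        have e3 : |l' - 1| * l ≤ ε / (8 * (C + 1)) := by
          have e : l' - 1 = -((l - 1) / l) := by rw [hl']; field_simp; ring
          rw [e, abs_neg, abs_div, abs_of_pos hlpos, div_mul_cancel₀ _ hlne]
          exact hl.trans hm3
        rw [← hl', ← mul_assoc]
        calc |l' - 1| * l * C ≤ ε / (8 * (C + 1)) * C := by gcongr
          _ ≤ ε / (8 * (C + 1)) * (C + 1) := by gcongr; linarith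
          _ = ε / 8 := by field_simp
          _ ≤ ε / 4 := by linarith
    _ ≤ ε := by linarith

lemma volume_cos_preimage {N : Set ℝ} (hN : volume N = 0) :
    volume (Real.cos ⁻¹' N ∩ Set.Ioo (-π) π) = 0 := by
  have h0 : volume (Real.arccos '' (N ∩ Set.Ioo (-1) 1)) = 0 := by
    apply addHaar_image_eq_zero_of_differentiableOn_of_addHaar_eq_zero
    · intro x hx
      apply DifferentiableAt.differentiableWithinAt
      rw [Real.differentiableAt_arccos]
      exact ⟨hx.2.1.ne', hx.2.2.ne⟩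
    · exact measure_mono_null Set.inter_subset_left hN
  have h1 : volume (Neg.neg ⁻¹' (Real.arccos '' (N ∩ Set.Ioo (-1) 1))) = 0 := by
    have := (Measure.measurePreserving_neg (volume : Measure ℝ)).quasiMeasurePreserving
    exact this.preimage_null h0
  have hsub : Real.cos ⁻¹' N ∩ Set.Ioo (-π) π ⊆
      (Real.arccos '' (N ∩ Set.Ioo (-1) 1)) ∪ (Neg.neg ⁻¹' (Real.arccos '' (N ∩ Set.Ioo (-1) 1)))
        ∪ {0} := by
    have key : ∀ x, 0 < x → x < π → Real.cos x ∈ N → x ∈ Real.arccos '' (N ∩ Set.Ioo (-1) 1) := by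
      intro x h0 hπ hx
      refine ⟨Real.cos x, ⟨hx, ?_, ?_⟩, Real.arccos_cos h0.le hπ.le⟩
      · have := Real.cos_lt_cos_of_nonneg_of_le_pi h0.le le_rfl hπ
        rwa [Real.cos_pi] at this
      · have := Real.cos_lt_cos_of_nonneg_of_le_pi le_rfl hπ.le h0
        rwa [Real.cos_zero] at this
    rintro x ⟨hx, hx1, hx2⟩
    rcases lt_trichotomy x 0 with h | h | h
    · left; right
      refine key (-x) (by linarith) (by linarith) ?_
      rw [Real.cos_neg]
      exact hx
    · right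
      simpa using h
    · left; left
      exact key x h hx2 hx
  refine measure_mono_null hsub ?_
  exact measure_union_null (measure_union_null h0 h1) (measure_singleton _)

lemma arctan_le_self' {x : ℝ} (hx : 0 ≤ x) : Real.arctan x ≤ x := by
  rcases hx.eq_or_lt with rfl | h
  · simp
  · have := Real.lt_tan (Real.arctan_pos.2 h) (Real.arctan_lt_pi_div_two x)
    rw [Real.tan_arctan] at this
    exact this.le

lemma abs_arctan_le (x : ℝ) : |Real.arctan x| ≤ |x| := by
  rcases le_total 0 x with h | h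
  · rw [abs_of_nonneg (Real.arctan_nonneg.2 h), abs_of_nonneg h]
    exact arctan_le_self' h
  · have h1 := arctan_le_self' (x := -x) (by linarith)
    have h2 : 0 ≤ Real.arctan (-x) := Real.arctan_nonneg.2 (by linarith)
    rw [Real.arctan_neg] at h1 h2
    rw [abs_of_nonpos (by linarith), abs_of_nonpos h]
    exact h1

/-- Total variation continuity of the law of `α + β cos φ + γ sin φ`. -/
lemma tv_cos {Q : Measure ℝ} [IsFiniteMeasure Q] (hQ : Q ≪ volume)
    (hsupp : Q (Set.Ioo (-π) π)ᶜ = 0) {ε : ℝ} (hε : 0 < ε) :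
    ∃ s : ℝ, 0 < s ∧ ∀ Φ : ℝ → ℝ, Measurable Φ → (∀ x, |Φ x| ≤ 1) →
      ∀ α β γ : ℝ, |α| ≤ s → |β - 1| ≤ s → |γ| ≤ s →
      |∫ x, Φ (Real.cos x) ∂Q - ∫ x, Φ (α + β * Real.cos x + γ * Real.sin x) ∂Q| ≤ ε := by
  set ν : Measure ℝ := Q.map Real.cos with hν
  have hνf : IsFiniteMeasure ν := Measure.isFiniteMeasure_map _ _
  have hνac : ν ≪ volume := by
    refine Measure.AbsolutelyContinuous.mk fun N hNm hN => ?_
    rw [hν, Measure.map_apply Real.measurable_cos hNm]
    have h1 : Q (Real.cos ⁻¹' N ∩ Set.Ioo (-π) π) = 0 := hQ (volume_cos_preimage hN)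
    have h2 : Real.cos ⁻¹' N ⊆ (Real.cos ⁻¹' N ∩ Set.Ioo (-π) π) ∪ (Set.Ioo (-π) π)ᶜ := by
      intro x hx
      by_cases h : x ∈ Set.Ioo (-π) π
      · left; exact ⟨hx, h⟩
      · right; exact h
    exact measure_mono_null h2 (measure_union_null h1 hsupp)
  obtain ⟨s1, hs1, -, h1⟩ := tv_affine hQ (ε := ε / 2) (by positivity)
  obtain ⟨s2, hs2, -, h2⟩ := tv_affine hνac (ε := ε / 2) (by positivity)
  refine ⟨min (1 / 4) (min (s1 / 4) (s2 / 4)), by positivity, ?_⟩
  intro Φ hΦm hΦb α β γ hα hβ hγ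
  set s := min (1 / 4) (min (s1 / 4) (s2 / 4)) with hs
  have e1 : s ≤ 1 / 4 := min_le_left _ _
  have e2 : s ≤ s1 / 4 := (min_le_right _ _).trans (min_le_left _ _)
  have e3 : s ≤ s2 / 4 := (min_le_right _ _).trans (min_le_right _ _)
  have hβ0 : 3 / 4 ≤ β := by linarith [(abs_le.1 (hβ.trans e1)).1]
  have hβpos : 0 < β := by linarith
  set x0 : ℝ := γ / β with hx0
  set δ : ℝ := Real.arctan x0 with hδ
  set ρ : ℝ := β * √(1 + x0 ^ 2) with hρ
  have hsq : 0 < √(1 + x0 ^ 2) := Real.sqrt_pos.2 (by positivity)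
  have hcos : ρ * Real.cos δ = β := by
    rw [hρ, hδ, Real.cos_arctan]; field_simp
  have hsin : ρ * Real.sin δ = γ := by
    rw [hρ, hδ, Real.sin_arctan, hx0]; field_simp
  have hform : ∀ x, α + β * Real.cos x + γ * Real.sin x = α + ρ * Real.cos (x - δ) := by
    intro x
    rw [Real.cos_sub, ← hcos, ← hsin]
    ring
  have hx0b : |x0| ≤ 4 / 3 * |γ| := by
    rw [hx0, abs_div, abs_of_pos hβpos, div_le_iff₀ hβpos]
    nlinarith [abs_nonneg γ]
  have hδb : |δ| ≤ s1 := by
    have e4 : |δ| ≤ |x0| := abs_arctan_le x0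
    linarith
  have hρ1 : |ρ - 1| ≤ s2 := by
    have e4 : 1 ≤ √(1 + x0 ^ 2) := Real.one_le_sqrt.2 (by nlinarith [sq_nonneg x0])
    have e5 : √(1 + x0 ^ 2) ≤ 1 + |x0| := by
      rw [Real.sqrt_le_left (by positivity)]
      nlinarith [sq_abs x0, abs_nonneg x0]
    have e6 : ρ - 1 = (β - 1) + β * (√(1 + x0 ^ 2) - 1) := by rw [hρ]; ring
    have hβ5 : β ≤ 5 / 4 := by linarith [(abs_le.1 (hβ.trans e1)).2]
    rw [e6]
    calc |(β - 1) + β * (√(1 + x0 ^ 2) - 1)| ≤ |β - 1| + |β * (√(1 + x0 ^ 2) - 1)| :=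
          abs_add_le _ _
      _ = |β - 1| + β * (√(1 + x0 ^ 2) - 1) := by
          rw [abs_of_nonneg (mul_nonneg hβpos.le (by linarith) : 0 ≤ β * (√(1 + x0 ^ 2) - 1))]
      _ ≤ |β - 1| + 5 / 4 * |x0| := by
          have : β * (√(1 + x0 ^ 2) - 1) ≤ 5 / 4 * |x0| := by
            apply mul_le_mul hβ5 (by linarith) (by linarith) (by norm_num)
          linarith
      _ ≤ s2 := by linarith [hx0b, hγ, hβ, abs_nonneg γ]
  simp_rw [hform]
  -- step 1: shift
  have hΦ2 : Measurable fun x => Φ (α + ρ * Real.cos x) := by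
    apply hΦm.comp
    fun_prop
  have hstep1 := h1 1 (-δ) (by simpa using hs1.le) (by rwa [abs_neg])
    (fun x => Φ (α + ρ * Real.cos x)) hΦ2 (fun x => hΦb _)
  have hstep2 := h2 ρ α hρ1 (by linarith) Φ hΦm hΦb
  have r1 : ∫ x, Φ x ∂ν = ∫ x, Φ (Real.cos x) ∂Q := by
    rw [hν, integral_map Real.measurable_cos.aemeasurable hΦm.aestronglyMeasurable]
  have r2 : ∫ x, Φ (α + ρ * x) ∂ν = ∫ x, Φ (α + ρ * Real.cos x) ∂Q := by
    have hm : Measurable fun x => Φ (α + ρ * x) := hΦm.comp (by fun_prop)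
    rw [hν, integral_map Real.measurable_cos.aemeasurable hm.aestronglyMeasurable]
  rw [r1, r2] at hstep2
  have r3 : ∀ x : ℝ, -δ + 1 * x = x - δ := fun x => by ring
  simp_rw [r3] at hstep1
  calc |∫ x, Φ (Real.cos x) ∂Q - ∫ x, Φ (α + ρ * Real.cos (x - δ)) ∂Q|
      = |(∫ x, Φ (Real.cos x) ∂Q - ∫ x, Φ (α + ρ * Real.cos x) ∂Q) +
          (∫ x, Φ (α + ρ * Real.cos x) ∂Q - ∫ x, Φ (α + ρ * Real.cos (x - δ)) ∂Q)| := by
        congr 1; ring
    _ ≤ ε / 2 + ε / 2 := (abs_add_le _ _).trans (add_le_add hstep2 hstep1)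
    _ = ε := by ring

end SphLim
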