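import Pool.Agent.SphLim.Corr
import Pool.Agent.SphLim.TV2

/-!
# The `T T*` estimate
-/

open MeasureTheory Filter Topology Metric
open scoped ENNReal Pointwise RealInnerProductSpace Real

namespace SphLim

variable {d : ℕ}

/-- Law of the difference of two independent angles, uniform on `[0, η]` (unnormalised). -/
noncomputable def Qeta (η : ℝ) : Measure ℝ :=
  ((volume.restrict (Set.Icc 0 η)).prod (volume.restrict (Set.Icc 0 η))).map
    (fun p : ℝ × ℝ => p.1 - p.2)

instance (η : ℝ) : IsFiniteMeasure (volume.restrict (Set.Icc 0 η)) :=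
  ⟨by rw [Measure.restrict_apply_univ]; exact measure_Icc_lt_top⟩

instance (η : ℝ) : IsFiniteMeasure (Qeta η) := by
  unfold Qeta
  exact Measure.isFiniteMeasure_map _ _

lemma measurable_sub_prod : Measurable (fun p : ℝ × ℝ => p.1 - p.2) :=
  measurable_fst.sub measurable_snd

lemma Qeta_ac (η : ℝ) : Qeta η ≪ volume := by
  refine Measure.AbsolutelyContinuous.mk fun N hNm hN => ?_
  unfold Qeta
  rw [Measure.map_apply measurable_sub_prod hNm,
    Measure.measure_prod_null (measurable_sub_prod hNm)]
  refine Eventually.of_forall fun x => ?_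
  have h1 : volume ((fun y : ℝ => x - y) ⁻¹' N) = 0 :=
    (Measure.measurePreserving_sub_left (volume : Measure ℝ) x).quasiMeasurePreserving.preimage_null
      hN
  exact le_antisymm ((Measure.restrict_apply_le _ _).trans h1.le) bot_le

lemma Qeta_supp {η : ℝ} (hη : η < π) : Qeta η (Set.Ioo (-π) π)ᶜ = 0 := by
  unfold Qeta
  rw [Measure.map_apply measurable_sub_prod measurableSet_Ioo.compl]
  rw [Measure.prod_restrict]
  have h1 : (fun p : ℝ × ℝ => p.1 - p.2) ⁻¹' (Set.Ioo (-π) π)ᶜ ∩
      (Set.Icc 0 η ×ˢ Set.Icc 0 η) = ∅ := by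
    ext p
    simp only [Set.mem_inter_iff, Set.mem_preimage, Set.mem_compl_iff, Set.mem_Ioo, Set.mem_prod,
      Set.mem_Icc, Set.mem_empty_iff_false, iff_false]
    rintro ⟨h1, ⟨h2, h3⟩, h4, h5⟩
    apply h1
    constructor <;> linarith
  rw [Measure.restrict_apply (measurable_sub_prod measurableSet_Ioo.compl), h1, measure_empty]

lemma Qeta_univ {η : ℝ} (hη : 0 ≤ η) : (Qeta η).real Set.univ = η ^ 2 := by
  unfold Qeta
  rw [Measure.real, Measure.map_apply measurable_sub_prod MeasurableSet.univ, Set.preimage_univ,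
    ← Set.univ_prod_univ, Measure.prod_prod, Measure.restrict_apply_univ, Real.volume_Icc, sub_zero,
    ENNReal.toReal_mul, ENNReal.toReal_ofReal hη]
  ring

/-- The integral over a cap. -/
noncomputable def capInt (h : Eu (d + 1) → ℝ) (s : ℝ) (x : Eu (d + 1)) : ℝ :=
  ∫ z in closedBall x s, h z ∂(sphMeas d)

/-- The average over a cap. -/
noncomputable def capAvg (h : Eu (d + 1) → ℝ) (s : ℝ) (x : Eu (d + 1)) : ℝ :=
  ((sphMeas d).real (closedBall x s))⁻¹ * capInt h s x

lemma measurable_capInt {h : Eu (d + 1) → ℝ} (hm : Measurable h) (s : ℝ) :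
    Measurable (capInt h s) := by
  have h1 : capInt h s = fun x => ∫ z, (closedBall x s).indicator h z ∂(sphMeas d) := by
    ext x
    unfold capInt
    rw [integral_indicator isClosed_closedBall.measurableSet]
  rw [h1]
  have h2 : Measurable fun p : Eu (d + 1) × Eu (d + 1) => (closedBall p.1 s).indicator h p.2 := by
    have e : (fun p : Eu (d + 1) × Eu (d + 1) => (closedBall p.1 s).indicator h p.2) =
        {p : Eu (d + 1) × Eu (d + 1) | dist p.2 p.1 ≤ s}.indicator (fun p => h p.2) := by
      ext p
      rfl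
    rw [e]
    apply (hm.comp measurable_snd).indicator
    exact (isClosed_le (continuous_snd.dist continuous_fst) continuous_const).measurableSet
  exact (h2.stronglyMeasurable.integral_prod_right').measurable

lemma measurable_capMeas (s : ℝ) :
    Measurable fun x : Eu (d + 1) => (sphMeas d).real (closedBall x s) := by
  have h1 := measurable_capInt (d := d) (h := fun _ => 1) measurable_const s
  have h2 : capInt (d := d) (fun _ => 1) s = fun x => (sphMeas d).real (closedBall x s) := by
    ext x
    unfold capInt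
    rw [setIntegral_const]
    simp
  rwa [h2] at h1

lemma measurable_capAvg {h : Eu (d + 1) → ℝ} (hm : Measurable h) (s : ℝ) :
    Measurable (capAvg h s) := by
  unfold capAvg
  exact (measurable_capMeas s).inv.mul (measurable_capInt hm s)

lemma cap_act (g : OG (d + 1)) (x : Eu (d + 1)) (s : ℝ) :
    (fun z => act g z) ⁻¹' closedBall (act g x) s = closedBall x s := by
  ext z
  simp [dist_act]

lemma capMeas_act (g : OG (d + 1)) (x : Eu (d + 1)) (s : ℝ) :
    (sphMeas d).real (closedBall (act g x) s) = (sphMeas d).real (closedBall x s) := by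
  have h1 := (sphMeas_preserving (toLIE g)).measure_preimage
    (isClosed_closedBall (x := act g x) (ε := s)).measurableSet.nullMeasurableSet
  have h2 : (toLIE g) ⁻¹' closedBall (act g x) s = closedBall x s := cap_act g x s
  rw [h2] at h1
  unfold Measure.real
  rw [h1]

lemma capInt_act {h : Eu (d + 1) → ℝ} (hm : Measurable h) (g : OG (d + 1)) (x : Eu (d + 1))
    (s : ℝ) : capInt h s (act g x) = ∫ z in closedBall x s, h (act g z) ∂(sphMeas d) := by
  unfold capInt
  have hmp := (sphMeas_preserving (toLIE g)).restrict_preimage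
    (isClosed_closedBall (x := act g x) (ε := s)).measurableSet
  have h2 : (toLIE g) ⁻¹' closedBall (act g x) s = closedBall x s := cap_act g x s
  rw [h2] at hmp
  rw [← hmp.map_eq, integral_map hmp.measurable.aemeasurable hm.aestronglyMeasurable]
  rfl

lemma abs_capInt_le {h : Eu (d + 1) → ℝ} (hb : ∀ x, |h x| ≤ 1) (s : ℝ) (x : Eu (d + 1)) :
    |capInt h s x| ≤ (sphMeas d).real (closedBall x s) := by
  unfold capInt
  have := norm_setIntegral_le_of_norm_le_const (μ := sphMeas d) (s := closedBall x s) (f := h)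
    (C := 1) (measure_lt_top _ _) (fun x _ => by simpa using hb x)
  rw [Real.norm_eq_abs] at this
  linarith

lemma abs_capAvg_le {h : Eu (d + 1) → ℝ} (hb : ∀ x, |h x| ≤ 1) (s : ℝ) (x : Eu (d + 1)) :
    |capAvg h s x| ≤ 1 := by
  unfold capAvg
  rw [abs_mul, abs_inv, abs_of_nonneg (measureReal_nonneg)]
  rcases (measureReal_nonneg (μ := sphMeas d) (s := closedBall x s)).eq_or_lt with h0 | h0
  · rw [← h0]; simp
  · rw [inv_mul_le_iff₀ h0, mul_one]
    exact abs_capInt_le hb s x

end SphLim
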