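import Pool.Agent.SphLim.TTS

/-!
# The `T T*` estimate: main lemma
-/

open MeasureTheory Filter Topology Metric
open scoped ENNReal Pointwise RealInnerProductSpace Real

namespace SphLim

variable {d : ℕ}

/-- The circle `a + cos θ e + sin θ f`. -/
noncomputable def circ (a e f : Eu (d + 1)) (θ : ℝ) : Eu (d + 1) :=
  a + Real.cos θ • e + Real.sin θ • f

lemma continuous_circ (a e f : Eu (d + 1)) : Continuous (circ a e f) := by
  unfold circ
  fun_prop

lemma circ_zero (a e f : Eu (d + 1)) : circ a e f 0 = a + e := by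
  unfold circ
  simp

lemma inner_circ {a e f : Eu (d + 1)} {r : ℝ} (hae : ⟪a, e⟫ = 0) (haf : ⟪a, f⟫ = 0)
    (hef : ⟪e, f⟫ = 0) (he : ‖e‖ = r) (hf : ‖f‖ = r) (ha : ‖a‖ ^ 2 + r ^ 2 = 1) (θ θ' : ℝ) :
    ⟪circ a e f θ, circ a e f θ'⟫ = 1 - r ^ 2 + r ^ 2 * Real.cos (θ - θ') := by
  unfold circ
  simp only [inner_add_left, inner_add_right, inner_smul_left, inner_smul_right,
    real_inner_self_eq_norm_sq, hae, haf, hef, he, hf, real_inner_comm a e, real_inner_comm a f,
    real_inner_comm e f, conj_trivial]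
  rw [Real.cos_sub]
  have : ‖a‖ ^ 2 = 1 - r ^ 2 := by linarith
  rw [this]
  ring_nf

lemma norm_circ {a e f : Eu (d + 1)} {r : ℝ} (hae : ⟪a, e⟫ = 0) (haf : ⟪a, f⟫ = 0)
    (hef : ⟪e, f⟫ = 0) (he : ‖e‖ = r) (hf : ‖f‖ = r) (ha : ‖a‖ ^ 2 + r ^ 2 = 1) (θ : ℝ) :
    ‖circ a e f θ‖ = 1 := by
  have h1 := inner_circ hae haf hef he hf ha θ θ
  rw [real_inner_self_eq_norm_sq, sub_self, Real.cos_zero] at h1
  have h2 : ‖circ a e f θ‖ ^ 2 = 1 := by linarith
  have h3 := norm_nonneg (circ a e f θ)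
  nlinarith

/-- Scaled form of the total variation hypothesis. -/
lemma tv_scale {Q : Measure ℝ} {ε s0 : ℝ}
    (hT : ∀ Φ : ℝ → ℝ, Measurable Φ → (∀ x, |Φ x| ≤ 1) →
      ∀ α β γ : ℝ, |α| ≤ s0 → |β - 1| ≤ s0 → |γ| ≤ s0 →
      |∫ x, Φ (Real.cos x) ∂Q - ∫ x, Φ (α + β * Real.cos x + γ * Real.sin x) ∂Q| ≤ ε)
    {N : ℝ} {Φ : ℝ → ℝ} (hΦm : Measurable Φ) (hΦ : ∀ x, |Φ x| ≤ N)
    {α β γ : ℝ} (hα : |α| ≤ s0) (hβ : |β - 1| ≤ s0) (hγ : |γ| ≤ s0) :
    |∫ x, Φ (Real.cos x) ∂Q - ∫ x, Φ (α + β * Real.cos x + γ * Real.sin x) ∂Q| ≤ ε * N := by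
  have hN : 0 ≤ N := (abs_nonneg _).trans (hΦ 0)
  rcases hN.eq_or_lt with h0 | h0
  · have hz : ∀ x, Φ x = 0 := by
      intro x
      have := hΦ x
      rw [← h0] at this
      exact abs_eq_zero.1 (le_antisymm this (abs_nonneg _))
    simp_rw [hz]
    rw [← h0]
    simp
  · have h1 := hT (fun x => Φ x / N) (hΦm.div_const N) (fun x => by
      rw [abs_div, abs_of_pos h0, div_le_one h0]
      exact hΦ x) α β γ hα hβ hγ
    rw [integral_div, integral_div, ← sub_div, abs_div, abs_of_pos h0, div_le_iff₀ h0] at h1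
    exact h1

lemma tts (hd : 1 ≤ d) {h : Eu (d + 1) → ℝ} (hm : Measurable h) (hb : ∀ x, |h x| ≤ 1)
    {a e f : Eu (d + 1)} {r : ℝ} (hr : 0 < r) (hae : ⟪a, e⟫ = 0) (haf : ⟪a, f⟫ = 0)
    (hef : ⟪e, f⟫ = 0) (he : ‖e‖ = r) (hf : ‖f‖ = r) (ha : ‖a‖ ^ 2 + r ^ 2 = 1)
    {η s s0 ε : ℝ} (hη : 0 < η) (hs : 0 < s) (hsr : s / r + s ^ 2 / (2 * r ^ 2) ≤ s0)
    (hT : ∀ Φ : ℝ → ℝ, Measurable Φ → (∀ x, |Φ x| ≤ 1) →
      ∀ α β γ : ℝ, |α| ≤ s0 → |β - 1| ≤ s0 → |γ| ≤ s0 →
      |∫ x, Φ (Real.cos x) ∂(Qeta η) -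
        ∫ x, Φ (α + β * Real.cos x + γ * Real.sin x) ∂(Qeta η)| ≤ ε) :
    ∫ g, (∫ θ in Set.Icc 0 η, h (act g (circ a e f θ))) ^ 2 ∂(haar (d + 1)) ≤
      ε * (∫ x, |h x| ∂(sphMeas d)) + η ^ 2 * ∫ x, |capAvg h s x| ∂(sphMeas d) := by
  set y := circ a e f with hy
  have hyn : ∀ θ, ‖y θ‖ = 1 := norm_circ hae haf hef he hf ha
  have hyc : Continuous y := continuous_circ a e f
  obtain ⟨Γ, hΓm, hΓb, hΓ⟩ := exists_corr_fun hd hm hb
  set N1 : ℝ := ∫ x, |h x| ∂(sphMeas d) with hN1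
  set μθ : Measure ℝ := volume.restrict (Set.Icc 0 η) with hμθ
  set Φ1 : ℝ → ℝ := fun x => Γ (1 - r ^ 2 + r ^ 2 * x) with hΦ1
  have hΦ1m : Measurable Φ1 := hΓm.comp (by fun_prop)
  have hΦ1b : ∀ x, |Φ1 x| ≤ N1 := fun x => hΓb _
  -- joint measurability
  have hjm : Measurable fun p : OG (d + 1) × ℝ => h (act p.1 (y p.2)) :=
    hm.comp (measurable_act.comp (measurable_fst.prodMk (hyc.measurable.comp measurable_snd)))
  -- step 1: expand the square
  have hsq : ∀ g : OG (d + 1), (∫ θ in Set.Icc 0 η, h (act g (y θ))) ^ 2 =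
      ∫ p : ℝ × ℝ, h (act g (y p.1)) * h (act g (y p.2)) ∂(μθ.prod μθ) := by
    intro g
    rw [integral_prod_mul (fun θ => h (act g (y θ))) (fun θ => h (act g (y θ))), sq]
  have hstep1 : ∫ g, (∫ θ in Set.Icc 0 η, h (act g (y θ))) ^ 2 ∂(haar (d + 1)) =
      ∫ p : ℝ × ℝ, corr h (y p.1) (y p.2) ∂(μθ.prod μθ) := by
    simp_rw [hsq]
    unfold corr
    rw [integral_integral_swap]
    refine Integrable.of_bound ?_ 1 (Eventually.of_forall fun q => ?_)
    · apply Measurable.aestronglyMeasurable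
      apply Measurable.mul
      · exact hjm.comp (measurable_fst.prodMk (measurable_fst.comp measurable_snd))
      · exact hjm.comp (measurable_fst.prodMk (measurable_snd.comp measurable_snd))
    · simp only [Function.uncurry, norm_mul, Real.norm_eq_abs]
      exact mul_le_one₀ (hb _) (abs_nonneg _) (hb _)
  have hstep2 : ∫ p : ℝ × ℝ, corr h (y p.1) (y p.2) ∂(μθ.prod μθ) =
      ∫ x, Φ1 (Real.cos x) ∂(Qeta η) := by
    have hcm : Measurable fun x => Φ1 (Real.cos x) := hΦ1m.comp Real.measurable_cos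
    unfold Qeta
    rw [integral_map (f := fun x => Φ1 (Real.cos x)) measurable_sub_prod.aemeasurable
      hcm.aestronglyMeasurable]
    congr 1
    ext p
    rw [hΓ _ _ (hyn _) (hyn _), hy, inner_circ hae haf hef he hf ha]
  rw [hstep1, hstep2]
  -- step 2: compare with the cap
  have hy0 : y 0 = a + e := circ_zero a e f
  have hcomp : ∀ z ∈ closedBall (y 0) s, ‖z‖ = 1 →
      ∫ x, Φ1 (Real.cos x) ∂(Qeta η) - ∫ x, corr h (y x) z ∂(Qeta η) ≤ ε * N1 := by
    intro z hz hz1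
    set ξ : Eu (d + 1) := z - y 0 with hξ
    have hξn : ‖ξ‖ ≤ s := by
      rw [hξ, ← dist_eq_norm]
      exact hz
    have hzξ : z = y 0 + ξ := by rw [hξ]; abel
    have hr2 : 0 < r ^ 2 := by positivity
    have he' : |⟪e, ξ⟫| ≤ r * s := by
      refine (abs_real_inner_le_norm _ _).trans ?_
      rw [he]
      gcongr
    have hf' : |⟪f, ξ⟫| ≤ r * s := by
      refine (abs_real_inner_le_norm _ _).trans ?_
      rw [hf]
      gcongr
    have hy0n : ‖y 0‖ = 1 := hyn 0
    have hyξ : ⟪y 0, ξ⟫ = -(‖ξ‖ ^ 2 / 2) := by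
      have h1 : ‖z‖ ^ 2 = ‖y 0‖ ^ 2 + 2 * ⟪y 0, ξ⟫ + ‖ξ‖ ^ 2 := by
        rw [hzξ, norm_add_sq_real]
      rw [hz1, hy0n] at h1
      linarith
    have haξ : ⟪a, ξ⟫ = -(‖ξ‖ ^ 2 / 2) - ⟪e, ξ⟫ := by
      rw [hy0, inner_add_left] at hyξ
      linarith
    have haξ' : |⟪a, ξ⟫| ≤ s ^ 2 / 2 + r * s := by
      rw [haξ]
      have h1 : ‖ξ‖ ^ 2 ≤ s ^ 2 := pow_le_pow_left₀ (norm_nonneg _) hξn 2
      have h2 := abs_sub (-(‖ξ‖ ^ 2 / 2)) ⟪e, ξ⟫
      rw [abs_neg, abs_of_nonneg (by positivity : (0 : ℝ) ≤ ‖ξ‖ ^ 2 / 2)] at h2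
      linarith
    have ha2 : ‖a‖ ^ 2 = 1 - r ^ 2 := by linarith
    have haz : ⟪a, z⟫ = 1 - r ^ 2 + ⟪a, ξ⟫ := by
      rw [hzξ, hy0, inner_add_right, inner_add_right, real_inner_self_eq_norm_sq, hae, ha2]
      ring
    have hez : ⟪e, z⟫ = r ^ 2 + ⟪e, ξ⟫ := by
      rw [hzξ, hy0, inner_add_right, inner_add_right, real_inner_self_eq_norm_sq, he,
        real_inner_comm a e, hae]
      ring
    have hfz : ⟪f, z⟫ = ⟪f, ξ⟫ := by
      rw [hzξ, hy0, inner_add_right, inner_add_right, real_inner_comm a f, haf,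
        real_inner_comm e f, hef]
      ring
    have hcorr : ∀ x, corr h (y x) z =
        Φ1 (⟪a, ξ⟫ / r ^ 2 + (1 + ⟪e, ξ⟫ / r ^ 2) * Real.cos x +
          (⟪f, ξ⟫ / r ^ 2) * Real.sin x) := by
      intro x
      rw [hΓ _ _ (hyn _) hz1, hΦ1]
      simp only
      congr 1
      rw [hy]
      unfold circ
      rw [inner_add_left, inner_add_left, inner_smul_left, inner_smul_left, haz, hez, hfz]
      simp only [conj_trivial]
      field_simp
      ring
    simp_rw [hcorr]
    have hsr0 : 0 ≤ s / r := by positivity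
    have hsr1 : 0 ≤ s ^ 2 / (2 * r ^ 2) := by positivity
    have hrs : r * s / r ^ 2 = s / r := by field_simp
    refine (le_abs_self _).trans (tv_scale hT hΦ1m hΦ1b ?_ ?_ ?_)
    · rw [abs_div, abs_of_pos hr2]
      calc |⟪a, ξ⟫| / r ^ 2 ≤ (s ^ 2 / 2 + r * s) / r ^ 2 := by gcongr
        _ = s / r + s ^ 2 / (2 * r ^ 2) := by field_simp; ring
        _ ≤ s0 := hsr
    · rw [add_sub_cancel_left, abs_div, abs_of_pos hr2]
      calc |⟪e, ξ⟫| / r ^ 2 ≤ r * s / r ^ 2 := by gcongr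
        _ ≤ s0 := by rw [hrs]; linarith
    · rw [abs_div, abs_of_pos hr2]
      calc |⟪f, ξ⟫| / r ^ 2 ≤ r * s / r ^ 2 := by gcongr
        _ ≤ s0 := by rw [hrs]; linarith
  -- step 3: average over the cap
  set cap : Set (Eu (d + 1)) := closedBall (y 0) s with hcap
  set c : ℝ := (sphMeas d).real cap with hc
  have hc0 : 0 < c := by
    rw [hc, Measure.real]
    exact ENNReal.toReal_pos (cap_pos (hyn 0) hs).ne' (measure_ne_top _ _)
  have hcorrm : Measurable fun p : Eu (d + 1) × ℝ => corr h (y p.2) p.1 := by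
    unfold corr
    have h1 : Measurable fun q : (Eu (d + 1) × ℝ) × OG (d + 1) =>
        h (act q.2 (y q.1.2)) * h (act q.2 q.1.1) := by
      apply Measurable.mul
      · exact hjm.comp (measurable_snd.prodMk (measurable_snd.comp measurable_fst))
      · exact hm.comp (measurable_act.comp
          (measurable_snd.prodMk (measurable_fst.comp measurable_fst)))
    exact (h1.stronglyMeasurable.integral_prod_right').measurable
  have hcorrb : ∀ x z, |corr h (y x) z| ≤ N1 := fun x z => abs_corr_le hm hb z (hyn x)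
  set I0 : ℝ := ∫ x, Φ1 (Real.cos x) ∂(Qeta η) with hI0
  have hinner : Measurable fun z => ∫ x, corr h (y x) z ∂(Qeta η) :=
    (hcorrm.stronglyMeasurable.integral_prod_right').measurable
  have hinnerb : ∀ z, |∫ x, corr h (y x) z ∂(Qeta η)| ≤ N1 * (Qeta η).real Set.univ := by
    intro z
    rw [← Real.norm_eq_abs]
    exact norm_integral_le_of_norm_le_const (Eventually.of_forall fun x => hcorrb x z)
  have hint : IntegrableOn (fun z => I0 - ∫ x, corr h (y x) z ∂(Qeta η)) cap (sphMeas d) := by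
    apply Integrable.sub (integrable_const _)
    exact Integrable.of_bound hinner.aestronglyMeasurable _
      (Eventually.of_forall fun z => by simpa using hinnerb z)
  have hA : ∫ z in cap, (I0 - ∫ x, corr h (y x) z ∂(Qeta η)) ∂(sphMeas d) ≤ ε * N1 * c := by
    have h1 : ∫ z in cap, (I0 - ∫ x, corr h (y x) z ∂(Qeta η)) ∂(sphMeas d) ≤
        ∫ _ in cap, ε * N1 ∂(sphMeas d) := by
      apply integral_mono_ae hint (integrable_const _)
      have h2 : ∀ᵐ z ∂((sphMeas d).restrict cap), z ∈ cap :=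
        ae_restrict_mem isClosed_closedBall.measurableSet
      filter_upwards [h2, ae_restrict_of_ae (sphMeas_ae_norm (d := d))] with z hz hz1
      exact hcomp z hz hz1
    rw [setIntegral_const, smul_eq_mul] at h1
    rw [mul_comm]
    exact h1
  have hB : ∫ z in cap, (I0 - ∫ x, corr h (y x) z ∂(Qeta η)) ∂(sphMeas d) =
      c * I0 - ∫ z in cap, ∫ x, corr h (y x) z ∂(Qeta η) ∂(sphMeas d) := by
    rw [integral_sub (integrable_const _)
      (Integrable.of_bound hinner.aestronglyMeasurable _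
      (Eventually.of_forall fun z => by simpa using hinnerb z)), setIntegral_const, smul_eq_mul]
  -- step 4: exchange the integrals
  have hC : ∫ z in cap, ∫ x, corr h (y x) z ∂(Qeta η) ∂(sphMeas d) ≤
      c * (η ^ 2 * ∫ x, |capAvg h s x| ∂(sphMeas d)) := by
    have h1 : ∫ z in cap, ∫ x, corr h (y x) z ∂(Qeta η) ∂(sphMeas d) =
        ∫ x, (∫ z in cap, corr h (y x) z ∂(sphMeas d)) ∂(Qeta η) := by
      rw [integral_integral_swap]
      exact Integrable.of_bound hcorrm.aestronglyMeasurable N1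
        (Eventually.of_forall fun p => by simpa [Function.uncurry] using hcorrb p.2 p.1)
    have h2 : ∀ x, ∫ z in cap, corr h (y x) z ∂(sphMeas d) =
        ∫ g, h (act g (y x)) * (c * capAvg h s (act g (y 0))) ∂(haar (d + 1)) := by
      intro x
      unfold corr
      rw [integral_integral_swap]
      · congr 1
        ext g
        rw [integral_const_mul]
        congr 1
        unfold capAvg
        rw [capMeas_act, capInt_act hm, ← hcap, ← hc, ← mul_assoc, mul_inv_cancel₀ hc0.ne',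
          one_mul]
      · refine Integrable.of_bound ?_ 1 (Eventually.of_forall fun q => ?_)
        · apply Measurable.aestronglyMeasurable
          apply Measurable.mul
          · exact hjm.comp (measurable_snd.prodMk measurable_const)
          · exact hm.comp (measurable_act.comp (measurable_snd.prodMk measurable_fst))
        · simp only [Function.uncurry, norm_mul, Real.norm_eq_abs]
          exact mul_le_one₀ (hb _) (abs_nonneg _) (hb _)
    have h3 : ∀ x, |∫ z in cap, corr h (y x) z ∂(sphMeas d)| ≤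
        c * ∫ x, |capAvg h s x| ∂(sphMeas d) := by
      intro x
      rw [h2 x, ← integral_act (hyn 0) (measurable_capAvg hm s).abs, ← integral_const_mul,
        ← Real.norm_eq_abs]
      refine (norm_integral_le_integral_norm _).trans ?_
      apply integral_mono_of_nonneg (Eventually.of_forall fun _ => norm_nonneg _)
      · refine Integrable.of_bound (C := c * 1) ?_ (Eventually.of_forall fun g => ?_)
        · exact (((measurable_capAvg hm s).abs.comp (measurable_act_left _)).const_mul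
            c).aestronglyMeasurable
        · rw [Real.norm_eq_abs, abs_mul, abs_of_pos hc0, abs_abs]
          exact mul_le_mul_of_nonneg_left (abs_capAvg_le hb s _) hc0.le
      · refine Eventually.of_forall fun g => ?_
        simp only [norm_mul, Real.norm_eq_abs, abs_of_pos hc0]
        calc |h (act g (y x))| * (c * |capAvg h s (act g (y 0))|)
            ≤ 1 * (c * |capAvg h s (act g (y 0))|) := by gcongr; exact hb _
          _ = _ := one_mul _
    rw [h1]
    refine (le_abs_self _).trans ?_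
    rw [← Real.norm_eq_abs]
    have h4 := norm_integral_le_of_norm_le_const (μ := Qeta η)
      (f := fun x => ∫ z in cap, corr h (y x) z ∂(sphMeas d))
      (C := c * ∫ x, |capAvg h s x| ∂(sphMeas d))
      (Eventually.of_forall fun x => by simpa using h3 x)
    rw [Qeta_univ hη.le] at h4
    refine h4.trans (le_of_eq ?_)
    ring
  have hD : c * I0 ≤ c * (ε * N1 + η ^ 2 * ∫ x, |capAvg h s x| ∂(sphMeas d)) := by
    rw [hB] at hA
    nlinarith
  exact le_of_mul_le_mul_left hD hc0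

end SphLim
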