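import Mathlib

/-!
# Total variation continuity for one-dimensional families
-/

open MeasureTheory Filter Topology Metric
open scoped ENNReal

namespace SphLim

/-- `L^1`-continuity under affine changes of variables close to the identity. -/
lemma integral_affine_close {p : ℝ → ℝ} (hp : Integrable p) {ε : ℝ} (hε : 0 < ε) :
    ∃ s : ℝ, 0 < s ∧ s ≤ 1 / 2 ∧ ∀ l b : ℝ, |l - 1| ≤ s → |b| ≤ s →
      ∫ x, |p (l * x + b) - p x| ≤ ε := by
  obtain ⟨g, hgs, hgp, hgc, hgi⟩ := hp.exists_hasCompactSupport_integral_sub_le
    (ε := ε / 8) (by positivity)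
  obtain ⟨M, hM⟩ := hgc.bounded_above_of_compact_support hgs
  obtain ⟨R, hR⟩ := (Metric.isBounded_iff_subset_closedBall (0 : ℝ)).1 hgs.isBounded
  have hgz : ∀ x, R < |x| → g x = 0 := by
    intro x hx
    by_contra hne
    have : x ∈ tsupport g := subset_tsupport g hne
    have := hR this
    rw [mem_closedBall, dist_zero_right, Real.norm_eq_abs] at this
    linarith
  have hlim : Tendsto (fun q : ℝ × ℝ => ∫ x, |g (q.1 * x + q.2) - g x|) (𝓝 ((1 : ℝ), (0 : ℝ)))
      (𝓝 (∫ _x : ℝ, (0 : ℝ))) := by
    apply tendsto_integral_filter_of_dominated_convergence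
      (bound := fun x => (Set.Icc (-(2 * |R| + 2)) (2 * |R| + 2)).indicator (fun _ => 2 * |M|) x)
    · refine Eventually.of_forall fun q => ?_
      have : Continuous fun x => |g (q.1 * x + q.2) - g x| := by fun_prop
      exact this.aestronglyMeasurable
    · have h1 : ∀ᶠ q : ℝ × ℝ in 𝓝 ((1 : ℝ), (0 : ℝ)), 1 / 2 < q.1 :=
        (continuous_fst.tendsto ((1 : ℝ), (0 : ℝ))).eventually_const_lt (by norm_num)
      have h2 : ∀ᶠ q : ℝ × ℝ in 𝓝 ((1 : ℝ), (0 : ℝ)), |q.2| < 1 := by
        have : Tendsto (fun q : ℝ × ℝ => |q.2|) (𝓝 ((1 : ℝ), (0 : ℝ))) (𝓝 |(0 : ℝ)|) :=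
          (continuous_snd.tendsto ((1 : ℝ), (0 : ℝ))).abs
        rw [abs_zero] at this
        exact this.eventually_lt_const one_pos
      filter_upwards [h1, h2] with q hq1 hq2
      refine Eventually.of_forall fun x => ?_
      by_cases hx : x ∈ Set.Icc (-(2 * |R| + 2)) (2 * |R| + 2)
      · rw [Set.indicator_of_mem hx]
        rw [Real.norm_eq_abs, abs_abs]
        have e1 := hM (q.1 * x + q.2)
        have e2 := hM x
        rw [Real.norm_eq_abs] at e1 e2
        have e3 := le_abs_self M
        calc |g (q.1 * x + q.2) - g x| ≤ |g (q.1 * x + q.2)| + |g x| := abs_sub _ _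
          _ ≤ 2 * |M| := by linarith
      · rw [Set.indicator_of_notMem hx]
        have hx' : 2 * |R| + 2 < |x| := by
          by_contra hcon
          push Not at hcon
          exact hx (abs_le.1 hcon)
        have hRR := le_abs_self R
        have e1 : g x = 0 := hgz x (by linarith [abs_nonneg R])
        have e2 : g (q.1 * x + q.2) = 0 := by
          apply hgz
          have e3 : |q.1 * x| - |q.2| ≤ |q.1 * x + q.2| := by
            have := abs_sub_abs_le_abs_sub (q.1 * x) (-q.2)
            rwa [abs_neg, sub_neg_eq_add] at this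
          rw [abs_mul, abs_of_pos (by linarith : 0 < q.1)] at e3
          have e4 : 1 / 2 * |x| ≤ q.1 * |x| :=
            mul_le_mul_of_nonneg_right hq1.le (abs_nonneg x)
          linarith
        rw [e1, e2]
        simp
    · exact (integrable_indicator_iff measurableSet_Icc).2
        (integrableOn_const (by simp) )
    · refine Eventually.of_forall fun x => ?_
      have : Continuous fun q : ℝ × ℝ => |g (q.1 * x + q.2) - g x| := by fun_prop
      have h := this.tendsto ((1 : ℝ), (0 : ℝ))
      simpa using h
  rw [integral_zero] at hlim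
  have hev := hlim.eventually_lt_const (show (0 : ℝ) < ε / 2 by positivity)
  rw [Metric.eventually_nhds_iff] at hev
  obtain ⟨r, hr, hball⟩ := hev
  refine ⟨min (r / 2) (1 / 2), by positivity, min_le_right _ _, ?_⟩
  intro l b hl hb
  have hl2 : |l - 1| ≤ 1 / 2 := hl.trans (min_le_right _ _)
  have hl0 : 1 / 2 ≤ l := by linarith [(abs_le.1 hl2).1]
  have h1 : ∫ x, |g (l * x + b) - g x| < ε / 2 := by
    apply hball (y := (l, b))
    rw [Prod.dist_eq, max_lt_iff]
    have := min_le_left (r / 2) (1 / 2)
    constructor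
    · rw [Real.dist_eq]; simp only; linarith
    · rw [Real.dist_eq, sub_zero]; simp only; linarith
  have hlne : l ≠ 0 := by linarith
  have hpl : Integrable fun x => p (l * x + b) :=
    ((hp.comp_add_right b).comp_mul_left' hlne)
  have hgl : Integrable fun x => g (l * x + b) :=
    ((hgi.comp_add_right b).comp_mul_left' hlne)
  have h2 : ∫ x, |p (l * x + b) - g (l * x + b)| ≤ ε / 4 := by
    have e1 := Measure.integral_comp_mul_left (fun y => |p (y + b) - g (y + b)|) l
    rw [e1]
    have e2 : ∫ y, |p (y + b) - g (y + b)| = ∫ y, |p y - g y| :=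
      integral_add_right_eq_self (fun y => |p y - g y|) b
    rw [e2, smul_eq_mul, abs_of_pos (by positivity : 0 < l⁻¹)]
    have e3 : l⁻¹ ≤ 2 := by
      rw [inv_le_comm₀ (by linarith) (by norm_num)]
      linarith
    have e4 : ∫ y, |p y - g y| ≤ ε / 8 := by simpa [Real.norm_eq_abs] using hgp
    have e5 : 0 ≤ ∫ y, |p y - g y| := integral_nonneg fun _ => abs_nonneg _
    nlinarith
  have h3 : ∫ x, |g x - p x| ≤ ε / 8 := by
    have : ∫ x, |g x - p x| = ∫ x, ‖p x - g x‖ := by
      congr 1
      ext x
      rw [abs_sub_comm, Real.norm_eq_abs]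
    rw [this]
    exact hgp
  have i1 : Integrable fun x => |p (l * x + b) - g (l * x + b)| := (hpl.sub hgl).abs
  have i2 : Integrable fun x => |g (l * x + b) - g x| := (hgl.sub hgi).abs
  have i3 : Integrable fun x => |g x - p x| := (hgi.sub hp).abs
  have i12 : Integrable fun x => |p (l * x + b) - g (l * x + b)| + |g (l * x + b) - g x| :=
    i1.add i2
  have i123 : Integrable fun x => |p (l * x + b) - g (l * x + b)| + |g (l * x + b) - g x| +
    |g x - p x| := i12.add i3
  have i0 : Integrable fun x => |p (l * x + b) - p x| := (hpl.sub hp).abs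
  calc ∫ x, |p (l * x + b) - p x|
      ≤ ∫ x, (|p (l * x + b) - g (l * x + b)| + |g (l * x + b) - g x| + |g x - p x|) := by
        apply integral_mono i0 i123
        intro x
        simp only
        calc |p (l * x + b) - p x|
            = |(p (l * x + b) - g (l * x + b)) + (g (l * x + b) - g x) + (g x - p x)| := by
              congr 1; ring
          _ ≤ |(p (l * x + b) - g (l * x + b)) + (g (l * x + b) - g x)| + |g x - p x| :=
              abs_add_le _ _
          _ ≤ _ := add_le_add (abs_add_le _ _) le_rfl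
    _ = (∫ x, |p (l * x + b) - g (l * x + b)|) + (∫ x, |g (l * x + b) - g x|) +
          ∫ x, |g x - p x| := by
        rw [integral_add i12 i3, integral_add i1 i2]
    _ ≤ ε := by linarith

end SphLim
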