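import Pool.Agent.SphLim.PairTerm
import Pool.Agent.SphLim.Mono

/-!
# Asymptotic form of the key estimate for full simplices
-/

open MeasureTheory Filter Topology Metric
open scoped ENNReal Pointwise RealInnerProductSpace Real

namespace SphLim

variable {d : ℕ} {ι : Type*}

lemma abs_sin_ge {x : ℝ} (hx : |x| ≤ 1) : |x| / 2 ≤ |Real.sin x| := by
  have hpi := Real.pi_lt_d2
  have h0 : 0 ≤ |x| := abs_nonneg _
  have h1 := Real.mul_le_sin h0 (by linarith [Real.pi_gt_three])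
  have h2 : |x| / 2 ≤ 2 / π * |x| := by
    have : (1 : ℝ) / 2 ≤ 2 / π := by
      rw [div_le_div_iff₀ (by norm_num) Real.pi_pos]
      linarith
    nlinarith
  have h3 : Real.sin |x| ≤ |Real.sin x| := by
    rcases abs_cases x with ⟨h, _⟩ | ⟨h, _⟩
    · rw [h]; exact le_abs_self _
    · rw [h, Real.sin_neg]; exact neg_le_abs _
  linarith

lemma Tf_lower {φ φ' β : ℝ} (hβ : 0 < β) (h1 : β ≤ |φ|) (h2 : |φ| ≤ 1) (h3 : β ≤ |φ'|)
    (h4 : |φ'| ≤ 1) (h5 : β ≤ |φ - φ'|) (h6 : |φ - φ'| ≤ 1) : β ^ 3 / 16 ≤ |Tf φ φ'| := by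
  rw [Tf_eq, abs_neg, abs_mul, abs_mul, abs_mul, abs_of_pos (show (0 : ℝ) < 4 by norm_num)]
  have key : ∀ x : ℝ, β ≤ |x| → |x| ≤ 1 → β / 4 ≤ |Real.sin (x / 2)| := by
    intro x hx1 hx2
    have e : |x / 2| = |x| / 2 := by rw [abs_div, abs_of_pos (show (0 : ℝ) < 2 by norm_num)]
    have := abs_sin_ge (x := x / 2) (by rw [e]; linarith)
    rw [e] at this
    linarith
  have k1 := key φ h1 h2
  have k2 := key (φ - φ') h5 h6
  have k3 := key φ' h3 h4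
  calc β ^ 3 / 16 = 4 * (β / 4) * (β / 4) * (β / 4) := by ring
    _ ≤ 4 * |Real.sin (φ / 2)| * |Real.sin ((φ - φ') / 2)| * |Real.sin (φ' / 2)| := by gcongr

/-- The distance bound for the doubled pair. -/
theorem doubled_dist {e1 e2 τ w a y : Eu (d + 1)} (h1 : ‖e1‖ = 1) (h2 : ‖e2‖ = 1)
    (h12 : ⟪e1, e2⟫ = 0) (hτ : ‖τ‖ = 1) (hw : ‖w‖ = 1) (hτw : ⟪τ, w⟫ = 0) {p : ℝ} (hp : 0 < p)
    (hq : ∀ φ φ' ψ : ℝ, Real.sin ψ ≠ 0 → ∀ c1 c2 c3 : ℝ,
      |Tf φ φ'| * |Real.sin ψ| * p / 30 ≤ ‖rot e1 e2 1 φ a - (c1 • rot e1 e2 1 φ y +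
        c2 • rot τ w 1 ψ (rot e1 e2 1 φ' a) + c3 • rot τ w 1 ψ (rot e1 e2 1 φ' y))‖)
    {RR NN : ℝ → OG (d + 1)} (hRR : ∀ θ x, act (RR θ) x = rot e1 e2 1 θ x)
    (hNN : ∀ ψ x, act (NN ψ) x = rot τ w 1 ψ x) {θ1 θ θ' ψ ψ' β γ : ℝ} (hβ : 0 < β)
    (hβ1 : β ≤ |θ - θ1|) (hβ2 : β ≤ |θ' - θ1|) (hβ3 : β ≤ |θ - θ'|) (ht1 : |θ - θ1| ≤ 1)
    (ht2 : |θ' - θ1| ≤ 1) (ht3 : |θ - θ'| ≤ 1) (hγ : 0 < γ) (hγ1 : γ ≤ |ψ' - ψ|)
    (hγ2 : |ψ' - ψ| ≤ 1) (c1 c2 c3 : ℝ) :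
    β ^ 3 * γ / 960 * p ≤ ‖act (RR θ1 * NN ψ * RR (-θ1) * RR θ) a -
      (c1 • act (RR θ1 * NN ψ * RR (-θ1) * RR θ) y +
       c2 • act (RR θ1 * NN ψ' * RR (-θ1) * RR θ') a +
       c3 • act (RR θ1 * NN ψ' * RR (-θ1) * RR θ') y)‖ := by
  have hA : ∀ x : Eu (d + 1), act (RR θ1 * NN ψ * RR (-θ1) * RR θ) x =
      act (RR θ1 * NN ψ) (rot e1 e2 1 (θ - θ1) x) := by
    intro x
    rw [act_mul, act_mul, hRR θ, hRR (-θ1), rot_rot h1 h2 h12]
    congr 2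
    ring
  have hB : ∀ x : Eu (d + 1), act (RR θ1 * NN ψ' * RR (-θ1) * RR θ') x =
      act (RR θ1 * NN ψ) (rot τ w 1 (ψ' - ψ) (rot e1 e2 1 (θ' - θ1) x)) := by
    intro x
    rw [act_mul, act_mul, hRR θ', hRR (-θ1), rot_rot h1 h2 h12, act_mul, act_mul, hNN ψ', hNN ψ,
      rot_rot hτ hw hτw]
    congr 2
    · ring
    · congr 1
      ring
  rw [hA, hA, hB, hB, ← act_smul, ← act_smul, ← act_smul, ← act_add, ← act_add, ← act_sub,
    norm_act]
  have hs : |ψ' - ψ| / 2 ≤ |Real.sin (ψ' - ψ)| := abs_sin_ge hγ2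
  have hs0 : Real.sin (ψ' - ψ) ≠ 0 := by
    have : 0 < |Real.sin (ψ' - ψ)| := by linarith
    exact abs_pos.1 this
  refine le_trans ?_ (hq (θ - θ1) (θ' - θ1) (ψ' - ψ) hs0 c1 c2 c3)
  have e3 : θ - θ1 - (θ' - θ1) = θ - θ' := by ring
  have hT := Tf_lower (φ := θ - θ1) (φ' := θ' - θ1) hβ hβ1 ht1 hβ2 ht2 (by rw [e3]; exact hβ3)
    (by rw [e3]; exact ht3)
  calc β ^ 3 * γ / 960 * p = β ^ 3 / 16 * (γ / 2) * p / 30 := by ring
    _ ≤ _ := by
      have : γ / 2 ≤ |Real.sin (ψ' - ψ)| := by linarith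
      gcongr

lemma fin_sub_ge {n : ℕ} (hn : 0 < n) {j k : Fin n} (hjk : j ≠ k) {β : ℝ} (hβ : 0 < β) :
    β / n ≤ |β * ((j : ℕ) : ℝ) / n - β * ((k : ℕ) : ℝ) / n| ∧
      |β * ((j : ℕ) : ℝ) / n - β * ((k : ℕ) : ℝ) / n| ≤ β := by
  have hn0 : (0 : ℝ) < n := by exact_mod_cast hn
  have e : β * ((j : ℕ) : ℝ) / n - β * ((k : ℕ) : ℝ) / n =
      β / n * (((j : ℕ) : ℝ) - ((k : ℕ) : ℝ)) := by ring
  rw [e, abs_mul, abs_of_pos (show 0 < β / n by positivity)]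
  have hj : ((j : ℕ) : ℝ) ≤ n := by exact_mod_cast j.2.le
  have hk : ((k : ℕ) : ℝ) ≤ n := by exact_mod_cast k.2.le
  have hj0 : (0 : ℝ) ≤ ((j : ℕ) : ℝ) := Nat.cast_nonneg _
  have hk0 : (0 : ℝ) ≤ ((k : ℕ) : ℝ) := Nat.cast_nonneg _
  constructor
  · have h1 : (1 : ℝ) ≤ |((j : ℕ) : ℝ) - ((k : ℕ) : ℝ)| := by
      have h2 : ((j : ℕ) : ℤ) ≠ ((k : ℕ) : ℤ) := by
        intro h
        exact hjk (Fin.ext (by exact_mod_cast h))
      have h3 : (1 : ℤ) ≤ |((j : ℕ) : ℤ) - ((k : ℕ) : ℤ)| := by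
        have := abs_pos.2 (sub_ne_zero.2 h2)
        omega
      exact_mod_cast h3
    have : 0 < β / n := by positivity
    nlinarith
  · have h1 : |((j : ℕ) : ℝ) - ((k : ℕ) : ℝ)| ≤ n := by
      rw [abs_le]
      constructor <;> linarith
    calc β / n * |((j : ℕ) : ℝ) - ((k : ℕ) : ℝ)| ≤ β / n * n := by gcongr
      _ = β := by field_simp

theorem term_full [Fintype ι] [DecidableEq ι] (hd : 4 ≤ d) {x : ι → Eu d}
    (hx : AffineIndependent ℝ x) {ρ : ℝ} (hρ : 0 < ρ) (hxρ : ∀ l, ‖x l‖ = ρ) {S : Finset ι}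
    {i m j0 : ι} (hj0 : j0 ∈ S) (hm : m ∉ S) (hi : i ∉ insert m S) {κ C1 ε1 : ℝ} (hκ : 0 < κ)
    (hC1 : 0 ≤ C1) (hε1 : 0 < ε1) : ∃ s > 0, ∃ δ1 > 0, ∃ t0 > 0, ∀ t : ℝ, 0 < t → t < t0 →
      ∀ (h F : Eu (d + 1) → ℝ) (p : ι → Eu (d + 1)) (H : OG (d + 1) → ℝ),
      Measurable h → (∀ y, |h y| ≤ 1) → Measurable F → (∀ y, |F y| ≤ 1) → (∀ l, ‖p l‖ = 1) →
      Measurable H → (∀ g, |H g| ≤ 1) →
      (∀ g R : OG (d + 1), (∀ j ∈ S, act R (bw ρ t (x j)) = bw ρ t (x j)) → H (g * R) = H g) →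
      ∫ y, |h y| ∂(sphMeas d) ≤ C1 * t ^ d →
      ∫ y, |capAvg h (s * t) y| ∂(sphMeas d) ≤ δ1 * t ^ d →
      |∫ g, Psi (fun l => bw ρ t (x l)) p (κ * t) g * H g *
        Ep h F (bw ρ t (x i)) (bw ρ t (x m)) g ∂(haar (d + 1))| ≤ ε1 * t ^ d := by
  obtain ⟨ca, hca, hcaα⟩ := exists_dist_lower hx hi
  obtain ⟨cb, hcb, hcbα⟩ := exists_dist_lower hx hm
  set c : ℝ := min ca cb with hc
  have hc0 : 0 < c := by positivity
  set C0 : ℝ := cc d * (volume : Measure (Eu d)).real (closedBall 0 (2 * κ)) with hC0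
  have hC0pos : 0 < C0 := mul_pos (cc_pos d) (vol_cb_pos _ (by positivity))
  set δ : ℝ := ε1 / (2 * C0) with hδ
  have hδ0 : 0 < δ := by positivity
  set N : ℝ := (Fintype.card ι : ℝ) with hN
  have hN0 : 0 ≤ N := Nat.cast_nonneg _
  set η : ℝ := min 1 (ε1 * κ / (4 * (N * (2 * ρ) * C0 + 1))) with hη
  have hη0 : 0 < η := by positivity
  have hη1 : η ≤ 1 := min_le_left _ _
  have hη2 : N * (2 * ρ) * η / κ * C0 ≤ ε1 / 4 := by
    have h1 : η ≤ ε1 * κ / (4 * (N * (2 * ρ) * C0 + 1)) := min_le_right _ _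
    have h2 : 0 < 4 * (N * (2 * ρ) * C0 + 1) := by positivity
    rw [le_div_iff₀ h2] at h1
    rw [div_mul_eq_mul_div, div_le_iff₀ hκ]
    nlinarith
  set δ' : ℝ := δ * ε1 / (2 * (C1 + 1)) with hδ'
  have hδ'0 : 0 < δ' := by positivity
  set n : ℕ := ⌈8 * C1 / (δ * δ' * ε1)⌉₊ + 1 with hn
  have hn1 : 0 < n := Nat.succ_pos _
  have hn0 : (0 : ℝ) < n := by exact_mod_cast hn1
  have hnC : 8 * C1 / (δ * δ' * ε1) ≤ n := by
    have h1 := Nat.le_ceil (8 * C1 / (δ * δ' * ε1))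
    rw [hn]
    push_cast
    linarith
  set e : ℝ := δ * δ' * ε1 / 2 with he
  have he0 : 0 < e := by positivity
  set cq : ℝ := (η / n) ^ 3 * (1 / n) / 960 * c with hcq
  have hcq0 : 0 < cq := by positivity
  obtain ⟨s, hs, δ1, hδ1, hquad⟩ := quad_small hd hcq0 hC1 he0
  refine ⟨s, hs, δ1, hδ1, 1 / (16 * (ρ + κ + 1)), by positivity, ?_⟩
  intro t ht htt h F p H hhm hhb hFm hFb hp hHm hHb hHinv hN1 hC
  have ht1 : t * (16 * (ρ + κ + 1)) < 1 := by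
    rw [lt_div_iff₀ (by positivity)] at htt
    exact htt
  have htρ0 : 0 < t * ρ := by positivity
  have htκ0 : 0 < t * κ := by positivity
  have htρ : t * ρ < 1 / 16 := by nlinarith
  have htκ : κ * t < 1 := by nlinarith
  have ht16 : t < 1 / 16 := by nlinarith
  set v : ι → Eu (d + 1) := fun l => bw ρ t (x l) with hv
  have hvn : ∀ l, ‖v l‖ = 1 := fun l => norm_bw (by linarith) htρ0.le (hxρ l)
  have hth : t ≤ hgt ρ t := by
    have := hgt_ge (ρ := ρ) (t := t) (by linarith) htρ0.le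
    linarith
  have hDv : ∀ l m', ‖v l - v m'‖ ≤ 2 * ρ * t := by
    intro l m'
    rw [hv]
    simp only
    rw [norm_bw_sub ht.le]
    have := dist_le_of_norm hxρ l m'
    nlinarith
  have hct : 0 < c * t := by positivity
  have hspa : ∀ z ∈ Submodule.span ℝ (v '' ((insert m S : Finset ι) : Set ι)),
      c * t ≤ ‖v i - z‖ := by
    intro z hz
    refine le_trans ?_ (dist_span_bw (x := x) hcaα ht.le hth z hz)
    exact mul_le_mul_of_nonneg_right (min_le_left _ _) ht.le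
  have hspb : ∀ z ∈ Submodule.span ℝ (v '' (S : Set ι)), c * t ≤ ‖v m - z‖ := by
    intro z hz
    refine le_trans ?_ (dist_span_bw (x := x) hcbα ht.le hth z hz)
    exact mul_le_mul_of_nonneg_right (min_le_right _ _) ht.le
  have hD8 : ∀ l m', ‖v l - v m'‖ ≤ 1 / 8 := fun l m' => (hDv l m').trans (by linarith)
  obtain ⟨e0, e1, e2, w, A, B, p', q, g, he0n, he1n, he2n, hwn, h01, h02, h12, hw0, hw1, hw2, hvi,
    hy0, hy1, hy2, hyw, hrp, hg, hg1, hB, hperp⟩ := exists_frame hd (v := v) (hvn i) (hvn m) hj0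
      hct hspa hspb (hD8 i j0) (hD8 m j0)
  have hp'0 : 0 < p' := lt_of_lt_of_le hct hrp
  obtain ⟨τ, hτn, hτw, hτa, hτy, hwa, hq⟩ := quad_dist he0n he1n he2n hwn h01 h02 h12 hw0 hw1 hw2
    hvi hy0 hy1 hy2 hyw hp'0 hg hg1 hB
  choose RR hRR using fun θ => exists_rot (d := d) one_pos h12 he1n he2n θ
  choose NN hNN using fun θ => exists_rot (d := d) one_pos hτw hτn hwn θ
  set θ : Fin n → ℝ := fun j => η * ((j : ℕ) : ℝ) / n with hθ
  set ψ : Fin n → ℝ := fun j => 1 * ((j : ℕ) : ℝ) / n with hψ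
  have hθ0 : ∀ j, 0 ≤ θ j := fun j => by rw [hθ]; positivity
  have hθη : ∀ j, θ j ≤ η := by
    intro j
    rw [hθ]
    simp only
    rw [div_le_iff₀ hn0]
    have : ((j : ℕ) : ℝ) ≤ n := by exact_mod_cast j.2.le
    gcongr
  set R : Fin n → OG (d + 1) := fun j => RR (θ j) with hR
  set Nn : Fin n → Fin n → OG (d + 1) := fun j k => RR (θ j) * NN (ψ k) * RR (-(θ j)) with hNn
  have hNfix : ∀ (z : Eu (d + 1)), ⟪τ, z⟫ = 0 → ⟪w, z⟫ = 0 → ∀ j k,
      act (Nn j k) (act (R j) z) = act (R j) z := by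
    intro z hz1 hz2 j k
    rw [hNn, hR]
    simp only
    rw [act_mul, act_mul, hRR (θ j) z, hRR (-(θ j)), rot_rot he1n he2n h12, neg_add_cancel,
      rot_zero, hNN, rot_fix hz1 hz2, hRR]
  have hRS : ∀ k, ∀ j ∈ S, act (R k) (v j) = v j := by
    intro k j hj
    rw [hR]
    simp only
    rw [hRR, rot_fix (hperp j hj).1 (hperp j hj).2]
  have hRB : ∀ k l, ‖act (R k) (v l) - v l‖ ≤ η * (2 * ρ * t) := by
    intro k l
    have e3 : act (R k) (v l) - v l = act (R k) (v l - v j0) - (v l - v j0) := by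
      rw [act_sub, hRS k j0 hj0]
      abel
    rw [e3, hR]
    simp only
    rw [hRR]
    refine (norm_rot_sub_le one_pos h12 he1n he2n _ _).trans ?_
    rw [abs_of_nonneg (hθ0 k)]
    exact mul_le_mul (hθη k) (hDv l j0) (norm_nonneg _) hη0.le
  have htd : 0 < t ^ d := by positivity
  have hblock := block_bound hn1 hhm hhb hFm hFb (a := v i) (y := v m) (hvn i) R Nn
    (hNfix (v i) hτa hwa) (hNfix (v m) hτy hyw) (N1 := C1 * t ^ d) (e := e * t ^ d) (δ := δ')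
    hN1 (by positivity) hδ'0 (by
      intro j1 k j k' j' hk hj hj1 hj1'
      have e4 : ∀ g, Ep h F (v i) (v m) (g * (Nn j1 k * R j)) * Ep h F (v i) (v m)
          (g * (Nn j1 k' * R j')) = h (act g (act (Nn j1 k * R j) (v i))) *
          F (act g (act (Nn j1 k * R j) (v m))) * (h (act g (act (Nn j1 k' * R j') (v i))) *
          F (act g (act (Nn j1 k' * R j') (v m)))) := by
        intro g
        unfold Ep
        rw [act_mul g, act_mul g, act_mul g, act_mul g]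
      simp_rw [e4]
      apply hquad t ht h F hhm hhb hFm hFb hN1 hC
      · rw [norm_act]; exact hvn i
      · rw [norm_act]; exact hvn i
      · intro c1 c2 c3
        have h1 := fin_sub_ge hn1 hj1 hη0
        have h2 := fin_sub_ge hn1 hj1' hη0
        have h3 := fin_sub_ge hn1 hj hη0
        have h4 := fin_sub_ge hn1 (Ne.symm hk) one_pos
        have h5 := doubled_dist (a := v i) (y := v m) he1n he2n h12 hτn hwn hτw hp'0 hq hRR hNN
          (θ1 := θ j1) (θ := θ j) (θ' := θ j') (ψ := ψ k) (ψ' := ψ k') (β := η / n)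
          (γ := 1 / n) (by positivity) h1.1 h2.1 h3.1 (h1.2.trans hη1) (h2.2.trans hη1)
          (h3.2.trans hη1) (by positivity) h4.1 h4.2 c1 c2 c3
        have h6 : cq * t ≤ (η / n) ^ 3 * (1 / n) / 960 * p' := by
          rw [hcq]
          calc (η / n) ^ 3 * (1 / n) / 960 * c * t = (η / n) ^ 3 * (1 / n) / 960 * (c * t) := by
                ring
            _ ≤ _ := by gcongr
        refine h6.trans ?_
        rw [hNn, hR]
        simp only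
        exact h5)
  have hps := psi_block hn1 (v := v) (p := p) hvn hj0 (lam := κ * t) (by positivity) hHm hHb
    (measurable_Ep hhm hFm (v i) (v m))
    (fun g => (abs_Ep_le hFb (v i) (v m) g).trans (hhb _)) hHinv R hRS hRB hδ0
  refine hps.trans ?_
  set m0 := (sphMeas d).real (closedBall (p j0) (κ * t)) with hm0
  have hm0' : m0 ≤ C0 * t ^ d := cap_le ht htκ (hp j0)
  have hm00 : 0 ≤ m0 := measureReal_nonneg
  have k1 : (Fintype.card ι : ℝ) * (η * (2 * ρ * t)) / (κ * t) * m0 ≤ ε1 / 4 * t ^ d := by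
    have e5 : (Fintype.card ι : ℝ) * (η * (2 * ρ * t)) / (κ * t) = N * (2 * ρ) * η / κ := by
      rw [hN]
      field_simp
    rw [e5]
    calc N * (2 * ρ) * η / κ * m0 ≤ N * (2 * ρ) * η / κ * (C0 * t ^ d) := by
          apply mul_le_mul_of_nonneg_left hm0'
          positivity
      _ = (N * (2 * ρ) * η / κ * C0) * t ^ d := by ring
      _ ≤ ε1 / 4 * t ^ d := by gcongr
  have k2 : δ / 2 * m0 ≤ ε1 / 4 * t ^ d := by
    calc δ / 2 * m0 ≤ δ / 2 * (C0 * t ^ d) := by gcongr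
      _ = ε1 / 4 * t ^ d := by
          rw [hδ]
          field_simp
          ring
  have k3 : (∫ g, (∑ k, Ep h F (v i) (v m) (g * R k)) ^ 2 ∂(haar (d + 1))) /
      (2 * (δ * n ^ 2)) ≤ 3 * ε1 / 8 * t ^ d := by
    rw [div_le_iff₀ (by positivity)]
    refine hblock.trans ?_
    have e6 : (n : ℝ) ^ 2 * (δ' * (C1 * t ^ d) / 2 + (e * t ^ d + 4 * (C1 * t ^ d) / n) /
        (2 * δ')) = (n : ℝ) ^ 2 * (δ' * C1 / 2 + e / (2 * δ') + 4 * C1 / n / (2 * δ')) *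
          t ^ d := by
      field_simp
      ring
    rw [e6]
    have e7 : 3 * ε1 / 8 * t ^ d * (2 * (δ * n ^ 2)) = (n : ℝ) ^ 2 * (3 * (ε1 * δ / 4)) *
        t ^ d := by ring
    rw [e7]
    apply mul_le_mul_of_nonneg_right _ htd.le
    apply mul_le_mul_of_nonneg_left _ (by positivity)
    have q1 : δ' * C1 / 2 ≤ ε1 * δ / 4 := by
      rw [hδ', div_mul_eq_mul_div, div_div, div_le_iff₀ (by positivity)]
      have : 0 < δ * ε1 := by positivity
      nlinarith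
    have q2 : e / (2 * δ') = ε1 * δ / 4 := by
      rw [he]
      field_simp
      norm_num
    have q3 : 4 * C1 / n / (2 * δ') ≤ ε1 * δ / 4 := by
      rw [div_le_iff₀ (by positivity)] at hnC
      rw [div_div, div_le_iff₀ (by positivity)]
      nlinarith
    linarith
  have htd' := htd.le
  nlinarith

end SphLim
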