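import Pool.Agent.SphLim.Periodic

/-!
# Patch selection and extraction of a weak limit
-/

open MeasureTheory Filter Topology Metric
open scoped ENNReal Pointwise RealInnerProductSpace Real

namespace SphLim

variable {d : ℕ}

lemma exists_patch {A V : Set (Eu (d + 1))} (hA : MeasurableSet A) (hV : MeasurableSet V) :
    ∃ h : OG (d + 1), (sphMeas d).real A * (sphMeas d).real V ≤
      (sphMeas d).real (V ∩ (fun x => act h x) ⁻¹' A) := by
  have hjm : Measurable fun p : OG (d + 1) × Eu (d + 1) =>
      V.indicator (1 : Eu (d + 1) → ℝ) p.2 * A.indicator (1 : Eu (d + 1) → ℝ) (act p.1 p.2) :=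
    ((measurable_one.indicator hV).comp measurable_snd).mul
      ((measurable_one.indicator hA).comp measurable_act)
  have hb : ∀ p : OG (d + 1) × Eu (d + 1), |V.indicator (1 : Eu (d + 1) → ℝ) p.2 *
      A.indicator (1 : Eu (d + 1) → ℝ) (act p.1 p.2)| ≤ 1 := by
    intro p
    have h1 := ind01 V p.2
    have h2 := ind01 A (act p.1 p.2)
    rw [abs_mul, abs_of_nonneg h1.1, abs_of_nonneg h2.1]
    exact mul_le_one₀ h1.2 h2.1 h2.2
  have hi : Integrable (fun p : OG (d + 1) × Eu (d + 1) =>
      V.indicator (1 : Eu (d + 1) → ℝ) p.2 * A.indicator (1 : Eu (d + 1) → ℝ) (act p.1 p.2))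
      ((haar (d + 1)).prod (sphMeas d)) :=
    Integrable.of_bound (C := 1) hjm.aestronglyMeasurable
      (Eventually.of_forall fun p => by simpa using hb p)
  have h1 : ∀ h : OG (d + 1), ∫ x, V.indicator (1 : Eu (d + 1) → ℝ) x *
      A.indicator (1 : Eu (d + 1) → ℝ) (act h x) ∂(sphMeas d) =
      (sphMeas d).real (V ∩ (fun x => act h x) ⁻¹' A) := by
    intro h
    have hpm : MeasurableSet ((fun x => act h x) ⁻¹' A) := (continuous_act_right h).measurable hA
    rw [← integral_indicator_one (hV.inter hpm)]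
    congr 1
    ext x
    by_cases hx : x ∈ V
    · by_cases hx2 : act h x ∈ A
      · rw [Set.indicator_of_mem hx, Set.indicator_of_mem hx2,
          Set.indicator_of_mem (show x ∈ V ∩ (fun x => act h x) ⁻¹' A from ⟨hx, hx2⟩)]
        simp
      · rw [Set.indicator_of_notMem hx2,
          Set.indicator_of_notMem (show x ∉ V ∩ (fun x => act h x) ⁻¹' A from fun q => hx2 q.2),
          mul_zero]
    · rw [Set.indicator_of_notMem hx,
        Set.indicator_of_notMem (show x ∉ V ∩ (fun x => act h x) ⁻¹' A from fun q => hx q.1),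
        zero_mul]
  obtain ⟨h, hh⟩ := exists_integral_le (μ := haar (d + 1))
    (f := fun h => (sphMeas d).real (V ∩ (fun x => act h x) ⁻¹' A)) (by
      have := hi.integral_prod_left
      simp_rw [h1] at this
      exact this)
  refine ⟨h, le_trans (le_of_eq ?_) hh⟩
  simp_rw [← h1]
  rw [integral_integral_swap hi]
  have h2 : ∀ᵐ x ∂(sphMeas d), ∫ h, V.indicator (1 : Eu (d + 1) → ℝ) x *
      A.indicator (1 : Eu (d + 1) → ℝ) (act h x) ∂(haar (d + 1)) =
      V.indicator 1 x * (sphMeas d).real A := by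
    filter_upwards [sphMeas_ae_norm (d := d)] with x hx
    rw [integral_const_mul, integral_act hx (measurable_one.indicator hA),
      integral_indicator_one hA]
  rw [integral_congr_ae h2, integral_mul_const, integral_indicator_one hV, mul_comm]

/-- The cubic patch. -/
def Pt (d : ℕ) (t R : ℝ) : Set (Eu (d + 1)) := {x | 0 < x 0 ∧ pj t x ∈ cube d R}

lemma measurableSet_Pt (t R : ℝ) : MeasurableSet (Pt d t R) :=
  measurableSet_upper.inter ((measurable_pj t) (cube_measurable d R))

lemma real_Pt {t : ℝ} (ht : 0 < t) (R : ℝ) {A : Set (Eu (d + 1))} (hA : MeasurableSet A) :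
    (sphMeas d).real (Pt d t R ∩ A) =
      cc d * t ^ d * ∫ y in cube d R, wt t y * A.indicator 1 (ct t y) := by
  rw [real_chart ht ((measurableSet_Pt t R).inter hA) (fun x hx => hx.1.1),
    ← integral_indicator (cube_measurable d R)]
  congr 2
  ext y
  by_cases hy : y ∈ cube d R
  · rw [Set.indicator_of_mem hy]
    have hP : ct t y ∈ Pt d t R := ⟨ct_zero_pos t y, by rw [pj_ct ht]; exact hy⟩
    by_cases hA2 : ct t y ∈ A
    · rw [Set.indicator_of_mem hA2, Set.indicator_of_mem (show ct t y ∈ Pt d t R ∩ A from ⟨hP, hA2⟩)]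
    · rw [Set.indicator_of_notMem hA2,
        Set.indicator_of_notMem (show ct t y ∉ Pt d t R ∩ A from fun q => hA2 q.2)]
  · rw [Set.indicator_of_notMem hy, Set.indicator_of_notMem, mul_zero]
    rintro ⟨⟨-, h⟩, -⟩
    rw [pj_ct ht] at h
    exact hy h

lemma norm_le_of_cube (hd : 1 ≤ d) {R : ℝ} {y : Eu d} (hy : y ∈ cube d R) :
    ‖y‖ ≤ d * R := by
  have hR : 0 ≤ R := (abs_nonneg _).trans (hy ⟨0, by omega⟩)
  have h1 : ‖y‖ ^ 2 ≤ (d * R) ^ 2 := by
    rw [EuclideanSpace.norm_sq_eq]
    calc ∑ i, ‖y i‖ ^ 2 ≤ ∑ _i : Fin d, R ^ 2 := by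
          apply Finset.sum_le_sum
          intro i _
          apply pow_le_pow_left₀ (norm_nonneg _)
          exact hy i
      _ = d * R ^ 2 := by rw [Finset.sum_const, nsmul_eq_mul, Finset.card_univ, Fintype.card_fin]
      _ ≤ (d * R) ^ 2 := by
          rw [mul_pow]
          have h2 : (1 : ℝ) ≤ d := by exact_mod_cast hd
          have h3 : (d : ℝ) ≤ (d : ℝ) ^ 2 := by nlinarith
          exact mul_le_mul_of_nonneg_right h3 (sq_nonneg R)
  exact (pow_le_pow_iff_left₀ (norm_nonneg _) (by positivity) two_ne_zero).1 h1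

lemma volReal_cube {R : ℝ} (hR : 0 ≤ R) : (volume : Measure (Eu d)).real (cube d R) = (2 * R) ^ d := by
  unfold Measure.real
  rw [volume_cube d hR, ENNReal.toReal_pow, ENNReal.toReal_ofReal (by positivity)]

theorem upper_core (hd : 2 ≤ d) {ι : Type*} [Fintype ι] (hι : 2 ≤ Fintype.card ι) {x : ι → Eu d}
    (hx : AffineIndependent ℝ x) {ρ : ℝ} (hρ : 0 < ρ) (hxρ : ∀ l, ‖x l‖ = ρ)
    {Q : Type*} (a : Q → Finset ι → ℝ) (ha : ∀ q J, a q J ≠ 0 → J.card ≤ d ∨ 3 ≤ d)
    {τ : ℕ → ℝ} (hτ0 : ∀ k, 0 < τ k) (hτ : Tendsto τ atTop (𝓝 0)) (hτρ : ∀ k, τ k * ρ ≤ 1)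
    {A : ℕ → Set (Eu (d + 1))} (hAm : ∀ k, MeasurableSet (A k)) {S' : ℝ}
    (hS : ∀ k, S' ≤ (sphMeas d).real (A k))
    (hneg : ∀ q k (w : ι → Eu (d + 1)), (∀ l, ‖w l‖ = 1) →
      (∀ l m, dist (w l) (w m) = τ k * dist (x l) (x m)) →
      Th (a q) (fun l => (A k).indicator 1 (w l)) ≤ 0) {R : ℝ} (hR : 0 < R) :
    ∃ f : Eu d → ℝ, Measurable f ∧ (∀ y, 0 ≤ f y ∧ f y ≤ 1) ∧
      S' * (2 * R) ^ d ≤ ∫ y in cube d R, f y ∧
      ∀ (q : Q) (y : ι → Eu d), (∀ l m, dist (y l) (y m) = dist (x l) (x m)) →
        (∀ l, y l ∈ cube d R) → (∀ l, LebPt f (y l)) → Th (a q) (fun l => f (y l)) ≤ 0 := by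
  have hcc := cc_pos d
  have hd1 : 1 ≤ d := by omega
  set R0 : ℝ := 8 * (d * R + 3 * ρ + 2) + 2 with hR0
  have hdR : 0 ≤ (d : ℝ) * R := by positivity
  have hcube : cube d R ⊆ closedBall (0 : Eu d) R0 := by
    intro y hy
    rw [mem_closedBall, dist_zero_right]
    have := norm_le_of_cube hd1 hy
    linarith
  have hcm : MeasurableSet (cube d R) := cube_measurable d R
  choose h hh using fun k => exists_patch (hAm k) (measurableSet_Pt (d := d) (τ k) R)
  set A' : ℕ → Set (Eu (d + 1)) := fun k => (fun x => act (h k) x) ⁻¹' A k with hA'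
  have hA'm : ∀ k, MeasurableSet (A' k) := fun k => (continuous_act_right (h k)).measurable (hAm k)
  set U : ℕ → Eu (d + 1) → ℝ := fun k => (A' k).indicator 1 with hU
  have hUm : ∀ k, Measurable (U k) := fun k => measurable_one.indicator (hA'm k)
  have hU01 : ∀ k x, 0 ≤ U k x ∧ U k x ≤ 1 := fun k x => ind01 _ _
  obtain ⟨φ, hφ, f, hfm, hf01, hweak⟩ := exists_weak_limit
    ((volume : Measure (Eu d)).restrict (closedBall 0 R0)) (fun k y => U k (ct (τ k) y))
    (fun k => (hUm k).comp (continuous_ct _).measurable) (fun k y => hU01 k _)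
  have hφt := hφ.tendsto_atTop
  refine ⟨f, hfm, hf01, ?_, ?_⟩
  · -- density
    have hcf : IsFiniteMeasure ((volume : Measure (Eu d)).restrict (cube d R)) := ⟨by
      rw [Measure.restrict_apply_univ, volume_cube d hR.le]
      exact ENNReal.pow_lt_top ENNReal.ofReal_lt_top⟩
    have h1 := hweak ((cube d R).indicator 1) (measurable_one.indicator hcm) 1 (by
      intro y
      rw [abs_of_nonneg (ind01 _ _).1]
      exact (ind01 _ _).2)
    have h2 : ∀ q : Eu d → ℝ,
        ∫ z, q z * (cube d R).indicator 1 z ∂(volume.restrict (closedBall 0 R0)) =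
        ∫ z in cube d R, q z := by
      intro q
      have e : (fun z => q z * (cube d R).indicator 1 z) = (cube d R).indicator q := by
        ext z
        by_cases hz : z ∈ cube d R
        · rw [Set.indicator_of_mem hz, Set.indicator_of_mem hz]
          simp
        · rw [Set.indicator_of_notMem hz, Set.indicator_of_notMem hz, mul_zero]
      rw [e, integral_indicator hcm, Measure.restrict_restrict hcm,
        Set.inter_eq_left.2 hcube]
    simp_rw [h2] at h1
    have h3 : Tendsto (fun k => S' * ∫ y in cube d R, wt (τ (φ k)) y) atTop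
        (𝓝 (S' * ∫ _y in cube d R, (1 : ℝ))) := by
      apply Tendsto.const_mul
      apply tendsto_integral_of_dominated_convergence (fun _ => (1 : ℝ))
      · intro k
        exact (continuous_wt _).measurable.aestronglyMeasurable
      · exact integrable_const _
      · intro k
        refine Eventually.of_forall fun y => ?_
        rw [Real.norm_of_nonneg (wt_pos _ _).le]
        exact wt_le_one _ _
      · refine Eventually.of_forall fun y => ?_
        exact (tendsto_wt y).comp (hτ.comp hφt)
    rw [setIntegral_const, smul_eq_mul, mul_one, volReal_cube hR.le] at h3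
    refine le_of_tendsto_of_tendsto h3 h1 (Eventually.of_forall fun k => ?_)
    have ht := hτ0 (φ k)
    have h4 := hh (φ k)
    have h5 : (sphMeas d).real (Pt d (τ (φ k)) R) =
        cc d * (τ (φ k)) ^ d * ∫ y in cube d R, wt (τ (φ k)) y := by
      have h6 := real_Pt (d := d) ht R (A := Set.univ) MeasurableSet.univ
      rw [Set.inter_univ] at h6
      rw [h6]
      congr 2
      ext y
      simp
    have h7 := real_Pt ht R (hA'm (φ k))
    have hpos : 0 < cc d * (τ (φ k)) ^ d := by positivity
    change (sphMeas d).real (A (φ k)) * (sphMeas d).real (Pt d (τ (φ k)) R) ≤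
      (sphMeas d).real (Pt d (τ (φ k)) R ∩ A' (φ k)) at h4
    rw [h7, h5] at h4
    have hw0 : 0 ≤ ∫ y in cube d R, wt (τ (φ k)) y := integral_nonneg fun y => (wt_pos _ _).le
    have h8 : (sphMeas d).real (A (φ k)) * ∫ y in cube d R, wt (τ (φ k)) y ≤
        ∫ y in cube d R, wt (τ (φ k)) y * (A' (φ k)).indicator 1 (ct (τ (φ k)) y) := by
      have h9 : (cc d * (τ (φ k)) ^ d) * ((sphMeas d).real (A (φ k)) *
          ∫ y in cube d R, wt (τ (φ k)) y) ≤ (cc d * (τ (φ k)) ^ d) *
          ∫ y in cube d R, wt (τ (φ k)) y * (A' (φ k)).indicator 1 (ct (τ (φ k)) y) := by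
        linarith
      exact le_of_mul_le_mul_left h9 hpos
    have h10 : ∫ y in cube d R, wt (τ (φ k)) y * (A' (φ k)).indicator 1 (ct (τ (φ k)) y) ≤
        ∫ y in cube d R, U (φ k) (ct (τ (φ k)) y) := by
      apply integral_mono_of_nonneg
      · exact Eventually.of_forall fun y => mul_nonneg (wt_pos _ _).le (ind01 _ _).1
      · refine Integrable.of_bound (C := 1)
          ((hUm (φ k)).comp (continuous_ct _).measurable).aestronglyMeasurable
          (Eventually.of_forall fun y => ?_)
        rw [Real.norm_of_nonneg (hU01 _ _).1]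
        exact (hU01 _ _).2
      · refine Eventually.of_forall fun y => ?_
        calc wt (τ (φ k)) y * (A' (φ k)).indicator 1 (ct (τ (φ k)) y)
            ≤ 1 * (A' (φ k)).indicator 1 (ct (τ (φ k)) y) :=
              mul_le_mul_of_nonneg_right (wt_le_one _ _) (ind01 _ _).1
          _ = _ := one_mul _
    have h11 : S' * ∫ y in cube d R, wt (τ (φ k)) y ≤
        (sphMeas d).real (A (φ k)) * ∫ y in cube d R, wt (τ (φ k)) y :=
      mul_le_mul_of_nonneg_right (hS _) hw0
    exact h11.trans (h8.trans h10)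
  · -- local statement
    intro q y hy hyc hleb
    obtain ⟨g, hg⟩ := exists_isometry_of_dist_eq x y (fun i j => (hy i j).symm)
    set b0 : Eu d := g 0 with hb0
    set x' : ι → Eu d := fun l => y l - b0 with hx'
    have hx'ρ : ∀ l, ‖x' l‖ = ρ := by
      intro l
      rw [hx']
      simp only
      rw [← hg l, hb0, ← dist_eq_norm, g.dist_eq, dist_zero_right, hxρ]
    have hyaff : AffineIndependent ℝ y := by
      have e : y = (g.toRealAffineIsometryEquiv.toAffineEquiv) ∘ x := by
        ext1 l
        rw [← hg l]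
        rfl
      rw [e]
      exact (AffineEquiv.affineIndependent_iff _).2 hx
    have hx'aff : AffineIndependent ℝ x' := by
      have e : x' = (AffineEquiv.constVAdd ℝ (Eu d) (-b0)) ∘ y := by
        ext1 l
        rw [hx']
        simp only [Function.comp_apply, AffineEquiv.constVAdd_apply, vadd_eq_add]
        abel
      rw [e]
      exact (AffineEquiv.affineIndependent_iff _).2 hyaff
    have hyx : ∀ l, b0 + x' l = y l := by
      intro l
      rw [hx']
      simp
    have hι0 : Nonempty ι := Fintype.card_pos_iff.1 (by omega)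
    obtain ⟨l0⟩ := hι0
    have hb0n : ‖b0‖ ≤ d * R + ρ := by
      have e : b0 = y l0 - x' l0 := by rw [hx']; simp
      rw [e]
      refine (norm_sub_le _ _).trans ?_
      rw [hx'ρ]
      linarith [norm_le_of_cube hd1 (hyc l0)]
    have hres := local_theorem hd hι hx'aff hρ hx'ρ (a q) (ha q) (τ := fun k => τ (φ k))
      (fun k => hτ0 _) (hτ.comp hφt) (U := fun k => U (φ k)) (fun k => hUm _)
      (fun k => hU01 _) (by
        intro k g'
        have ht := hτ0 (φ k)
        have h1 := hneg q (φ k) (fun l => act (h (φ k)) (act g' (bw ρ (τ (φ k)) (x' l)))) (by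
          intro l
          rw [norm_act, norm_act]
          exact norm_bw (hτρ _) (by positivity) (hx'ρ l)) (by
          intro l m
          have e : x' l - x' m = y l - y m := by
            rw [hx']
            exact sub_sub_sub_cancel_right _ _ _
          rw [dist_act, dist_act, dist_eq_norm, norm_bw_sub ht.le, ← hy l m,
            dist_eq_norm (y l), e])
        exact h1) (R0 := R0) hfm hf01 hweak (b0 := b0) (by
        rw [hR0]
        linarith) (by
        intro l
        rw [hyx]
        exact hleb l)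
    simp_rw [hyx] at hres
    exact hres

end SphLim
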