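import Pool.Agent.SphLim.Upper1

/-!
# The upper half for affinely independent configurations of at most `d` points
-/

open MeasureTheory Filter Topology Metric
open scoped ENNReal Pointwise RealInnerProductSpace Real

namespace SphLim

variable {d : ℕ}

lemma sphProb_eq_real {A : Set (Eu (d + 1))} (hA : MeasurableSet A) :
    sphProb d A = (sphMeas d).real A := sphProb_eq hA

lemma mEuc_nonneg (P : Set (Eu d)) : 0 ≤ mEuc d P := by
  apply Real.sSup_nonneg
  rintro s ⟨A, -, -, rfl⟩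
  unfold upperDensity
  apply le_limsup_of_frequently_le _ (density_bdd A)
  apply Eventually.frequently
  filter_upwards [eventually_ge_atTop (0 : ℝ)] with T hT
  positivity

/-- A sequence of scales along which the spherical density exceeds `s`. -/
lemma exists_seq_of_not_eventually {P : Set (Eu (d + 1))} {s ρ : ℝ} (hs : 0 ≤ s) (hρ : 0 < ρ)
    (h : ¬ ∀ᶠ t : ℝ in 𝓝[>] 0, mSph d (t • P) ≤ s) :
    ∃ (τ : ℕ → ℝ) (A : ℕ → Set (Eu (d + 1))), (∀ k, 0 < τ k) ∧ Tendsto τ atTop (𝓝 0) ∧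
      (∀ k, τ k * ρ ≤ 1) ∧ (∀ k, MeasurableSet (A k)) ∧ (∀ k, Avoids (A k) (τ k • P)) ∧
      ∀ k, s ≤ (sphMeas d).real (A k) := by
  rw [Filter.not_eventually] at h
  have h1 : ∀ k : ℕ, ∃ t : ℝ, 0 < t ∧ t < 1 / ((k : ℝ) + 1) ∧ t < 1 / ρ ∧ s < mSph d (t • P) := by
    intro k
    have h2 : ∀ᶠ t : ℝ in 𝓝[>] 0, t < 1 / ((k : ℝ) + 1) :=
      mem_nhdsWithin_of_mem_nhds (Iio_mem_nhds (by positivity))
    have h3 : ∀ᶠ t : ℝ in 𝓝[>] 0, t < 1 / ρ :=
      mem_nhdsWithin_of_mem_nhds (Iio_mem_nhds (by positivity))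
    have h4 : ∀ᶠ t : ℝ in 𝓝[>] 0, 0 < t := self_mem_nhdsWithin
    obtain ⟨t, ht1, ht2, ht3, ht4⟩ := (h.and_eventually (h2.and (h3.and h4))).exists
    exact ⟨t, ht4, ht2, ht3, not_le.1 ht1⟩
  choose τ hτ0 hτ1 hτ2 hτ3 using h1
  have h2 : ∀ k, ∃ A : Set (Eu (d + 1)), MeasurableSet A ∧ Avoids A (τ k • P) ∧
      s ≤ (sphMeas d).real A := by
    intro k
    have hne : {q : ℝ | ∃ A : Set (Eu (d + 1)), A ⊆ sphere (0 : Eu (d + 1)) 1 ∧
        MeasurableSet A ∧ Avoids A (τ k • P) ∧ q = sphProb d A}.Nonempty := by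
      by_contra hcon
      rw [Set.not_nonempty_iff_eq_empty] at hcon
      have h5 := hτ3 k
      unfold mSph at h5
      rw [hcon, Real.sSup_empty] at h5
      linarith
    obtain ⟨q, ⟨A, -, hAm, hAv, rfl⟩, hq⟩ := exists_lt_of_lt_csSup hne (hτ3 k)
    exact ⟨A, hAm, hAv, by rw [← sphProb_eq_real hAm]; exact hq.le⟩
  choose A hAm hAv hAs using h2
  refine ⟨τ, A, hτ0, ?_, ?_, hAm, hAv, hAs⟩
  · refine squeeze_zero (fun k => (hτ0 k).le) (fun k => (hτ1 k).le)
      tendsto_one_div_add_atTop_nhds_zero_nat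
  · intro k
    have := hτ2 k
    rw [lt_div_iff₀ hρ] at this
    exact this.le

/-- Circumscribed sphere of a finite affinely independent family. -/
lemma exists_center {ι : Type*} [Fintype ι] (hι : 2 ≤ Fintype.card ι) {p : ι → Eu d}
    (hp : AffineIndependent ℝ p) : ∃ (c : Eu d) (ρ : ℝ), 0 < ρ ∧ ∀ l, ‖p l - c‖ = ρ := by
  have hne : Nonempty ι := Fintype.card_pos_iff.1 (by omega)
  have hnt : Nontrivial ι := Fintype.one_lt_card_iff_nontrivial.1 (by omega)
  obtain ⟨cs, ⟨-, hcs⟩, -⟩ := hp.existsUnique_dist_eq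
  have h1 : ∀ l, ‖p l - cs.center‖ = cs.radius := by
    intro l
    rw [← dist_eq_norm]
    exact EuclideanGeometry.mem_sphere.1 (hcs ⟨l, rfl⟩)
  refine ⟨cs.center, cs.radius, ?_, h1⟩
  obtain ⟨i, j, hij⟩ := exists_pair_ne ι
  have h0 : 0 ≤ cs.radius := by
    rw [← h1 i]
    exact norm_nonneg _
  rcases h0.eq_or_lt with h0 | h0
  · exfalso
    have hi := h1 i
    have hj := h1 j
    rw [← h0, norm_eq_zero, sub_eq_zero] at hi hj
    exact hij (hp.injective (hi.trans hj.symm))
  · exact h0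

lemma affineIndependent_sub {ι : Type*} {p : ι → Eu d} (hp : AffineIndependent ℝ p) (c : Eu d) :
    AffineIndependent ℝ (fun l => p l - c) := by
  have e : (fun l => p l - c) = (AffineEquiv.constVAdd ℝ (Eu d) (-c)) ∘ p := by
    ext1 l
    simp only [Function.comp_apply, AffineEquiv.constVAdd_apply, vadd_eq_add]
    abel
  rw [e]
  exact (AffineEquiv.affineIndependent_iff _).2 hp

/-- From the weak limit to a set without copies. -/
lemma exists_set_of_fun {f : Eu d → ℝ} (hfm : Measurable f) (hf : ∀ y, 0 ≤ f y ∧ f y ≤ 1)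
    {R : ℝ} (hR : 0 ≤ R) : ∃ K : Set (Eu d), MeasurableSet K ∧ K ⊆ cube d R ∧
      (∀ y ∈ K, LebPt f y ∧ 0 < f y) ∧ ∫ y in cube d R, f y ≤ (volume K).toReal := by
  have h1 : volume {y | ¬ LebPt f y} = 0 := ae_iff.1 (ae_LebPt hfm hf)
  obtain ⟨N, hN, hNm, hN0⟩ := exists_measurable_superset_of_null h1
  set K : Set (Eu d) := (cube d R ∩ {y | 0 < f y}) \ N with hK
  have hcm := cube_measurable d R
  have hpm : MeasurableSet {y | 0 < f y} := measurableSet_lt measurable_const hfm
  have hcpm : MeasurableSet (cube d R ∩ {y | 0 < f y}) := MeasurableSet.inter hcm hpm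
  have hKm : MeasurableSet K := MeasurableSet.diff hcpm hNm
  refine ⟨K, hKm, fun y hy => hy.1.1, ?_, ?_⟩
  · intro y hy
    refine ⟨?_, hy.1.2⟩
    by_contra hcon
    exact hy.2 (hN hcon)
  · have hfin : volume (cube d R) ≠ ∞ := by
      rw [volume_cube d hR]
      exact ENNReal.pow_ne_top ENNReal.ofReal_ne_top
    have hKfin : volume K ≠ ∞ := ne_top_of_le_ne_top hfin (measure_mono fun y hy => hy.1.1)
    have h2 : ∫ y in cube d R, f y ≤ ∫ y in cube d R, K.indicator 1 y := by
      have : IsFiniteMeasure ((volume : Measure (Eu d)).restrict (cube d R)) :=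
        ⟨by rw [Measure.restrict_apply_univ]; exact hfin.lt_top⟩
      apply integral_mono_of_nonneg
      · exact Eventually.of_forall fun y => (hf y).1
      · exact (integrable_const (1 : ℝ)).indicator hKm
      · have h3 : ∀ᵐ y ∂(volume : Measure (Eu d)), y ∉ N := measure_eq_zero_iff_ae_notMem.1 hN0
        filter_upwards [ae_restrict_of_ae h3, ae_restrict_mem hcm] with y hyN hyc
        by_cases hy : 0 < f y
        · rw [Set.indicator_of_mem (show y ∈ K from ⟨⟨hyc, hy⟩, hyN⟩)]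
          exact (hf y).2
        · have : f y = 0 := le_antisymm (not_lt.1 hy) (hf y).1
          rw [this]
          exact (ind01 _ _).1
    refine h2.trans (le_of_eq ?_)
    have hKc : K ∩ cube d R = K := Set.inter_eq_left.2 fun y (hy : y ∈ K) => hy.1.1
    rw [integral_indicator_one hKm, measureReal_restrict_apply hKm, hKc]
    rfl

/-- Density ratio for large cubes. -/
lemma tendsto_ratio (d : ℕ) (D : ℝ) : Tendsto (fun R : ℝ => (2 * R) ^ d / (2 * R + 2 * D) ^ d)
    atTop (𝓝 1) := by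
  have h2 : Tendsto (fun T : ℝ => 2 * T / (2 * T + 2 * D)) atTop (𝓝 1) := by
    have h3 : Tendsto (fun T : ℝ => 1 - 2 * D / (2 * T + 2 * D)) atTop (𝓝 (1 - 0)) := by
      refine tendsto_const_nhds.sub ?_
      refine tendsto_const_nhds.div_atTop ?_
      exact tendsto_atTop_add_const_right _ _ (tendsto_id.const_mul_atTop (by norm_num))
    rw [sub_zero] at h3
    refine h3.congr' ?_
    filter_upwards [eventually_gt_atTop (-D)] with T hT
    have h4 : 2 * T + 2 * D ≠ 0 := by
      have : 0 < 2 * T + 2 * D := by linarith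
      exact this.ne'
    rw [eq_div_iff h4, sub_mul, div_mul_cancel₀ _ h4]
    ring
  have h3 := h2.pow d
  rw [one_pow] at h3
  refine h3.congr fun R => ?_
  rw [div_pow]

end SphLim
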