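import Pool.Agent.SphLim.Upper2

/-!
# The upper half for affinely independent configurations of at most `d` points: conclusion
-/

open MeasureTheory Filter Topology Metric
open scoped ENNReal Pointwise RealInnerProductSpace Real

namespace SphLim

variable {d : ℕ}

/-- The coefficients of the monomial of all variables. -/
noncomputable def aTop {ι : Type*} [Fintype ι] [DecidableEq ι] (J : Finset ι) : ℝ :=
  if J = Finset.univ then 1 else 0

lemma Th_aTop {ι : Type*} [Fintype ι] [DecidableEq ι] (X : ι → ℝ) :
    Th (aTop (ι := ι)) X = ∏ l, X l := by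
  unfold Th aTop
  rw [Finset.sum_eq_single (Finset.univ : Finset ι)]
  · simp
  · intro J _ hJ
    rw [if_neg hJ, zero_mul]
  · intro h
    exact absurd (Finset.mem_univ _) h

/-- A set avoiding a scaled copy contains no family with the scaled distances. -/
lemma exists_notMem_of_avoids {ι : Type*} [Fintype ι] {p' : ι → Eu (d + 1)} {p : ι → Eu d}
    (hpp : ∀ i j, dist (p' i) (p' j) = dist (p i) (p j)) {t : ℝ} (ht : 0 < t)
    {A : Set (Eu (d + 1))} (hA : Avoids A (t • Set.range p')) {w : ι → Eu (d + 1)}
    (hw : ∀ l m, dist (w l) (w m) = t * dist (p l) (p m)) : ∃ l, w l ∉ A := by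
  by_contra hcon
  push Not at hcon
  refine not_avoids_of_dist_eq (fun l => t • p' l) w (P := t • Set.range p') ?_ ?_ hcon hA
  · rw [← Set.range_smul]
  · intro i j
    rw [dist_smul₀, Real.norm_of_nonneg ht.le, hpp, hw]

theorem upper_bound_prod (hd : 2 ≤ d) {ι : Type} [Fintype ι] (hι : 2 ≤ Fintype.card ι)
    (hcard : Fintype.card ι ≤ d ∨ 3 ≤ d) {p : ι → Eu d} (hp : AffineIndependent ℝ p)
    {p' : ι → Eu (d + 1)} (hpp : ∀ i j, dist (p' i) (p' j) = dist (p i) (p j)) {ε : ℝ}
    (hε : 0 < ε) :
    ∀ᶠ t : ℝ in 𝓝[>] 0, mSph d (t • Set.range p') ≤ mEuc d (Set.range p) + ε := by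
  classical
  by_contra hcon
  obtain ⟨c, ρ, hρ, hcρ⟩ := exists_center hι hp
  set x : ι → Eu d := fun l => p l - c with hx
  have hxaff : AffineIndependent ℝ x := affineIndependent_sub hp c
  have hxd : ∀ l m, dist (x l) (x m) = dist (p l) (p m) := by
    intro l m
    rw [hx]
    simp only
    rw [dist_sub_right]
  have hm0 : 0 ≤ mEuc d (Set.range p) := mEuc_nonneg _
  obtain ⟨τ, A, hτ0, hτ, hτρ, hAm, hAv, hAs⟩ := exists_seq_of_not_eventually
    (s := mEuc d (Set.range p) + ε) (ρ := ρ) (by linarith) hρ hcon
  set S' : ℝ := mEuc d (Set.range p) + ε with hS'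
  have hdiam : ∀ i j, dist (p i) (p j) < 2 * (ρ + 1) := by
    intro i j
    rw [← hxd, dist_eq_norm]
    have := norm_sub_le (x i) (x j)
    rw [hcρ i, hcρ j] at this
    linarith
  have hR : ∀ R : ℝ, 0 < R → S' * ((2 * R) ^ d / (2 * R + 2 * (ρ + 1)) ^ d) ≤
      mEuc d (Set.range p) := by
    intro R hR
    obtain ⟨f, hfm, hf01, hfS, hfT⟩ := upper_core hd hι hxaff hρ hcρ
      (Q := Unit) (fun _ => aTop) (by
        intro q J hJ
        unfold aTop at hJ
        by_cases hJu : J = Finset.univ
        · rw [hJu, Finset.card_univ]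
          exact hcard
        · rw [if_neg hJu] at hJ
          exact absurd rfl hJ) hτ0 hτ hτρ hAm hAs (by
        intro q k w hw hwd
        rw [Th_aTop]
        obtain ⟨l, hl⟩ := exists_notMem_of_avoids hpp (hτ0 k) (hAv k) (w := w) (by
          intro l m
          rw [hwd, hxd])
        rw [Finset.prod_eq_zero (Finset.mem_univ l)]
        rw [Set.indicator_of_notMem hl]) hR
    obtain ⟨K, hKm, hKc, hKf, hKv⟩ := exists_set_of_fun hfm hf01 hR.le
    have h1 := mEuc_ge p hR (D := ρ + 1) (by positivity) hdiam hKm hKc (by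
      intro q hq
      by_contra hcon2
      push Not at hcon2
      have h2 := hfT () q (by
        intro l m
        rw [← hq, hxd]) (fun l => hKc (hcon2 l)) (fun l => (hKf _ (hcon2 l)).1)
      rw [Th_aTop] at h2
      have h3 : 0 < ∏ l, f (q l) := Finset.prod_pos fun l _ => (hKf _ (hcon2 l)).2
      linarith)
    refine le_trans ?_ h1
    rw [← mul_div_assoc]
    have hpos : 0 < (2 * R + 2 * (ρ + 1)) ^ d := by positivity
    exact div_le_div_of_nonneg_right (hfS.trans hKv) hpos.le
  have hlim := (tendsto_ratio d (ρ + 1)).const_mul S'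
  rw [mul_one] at hlim
  have h9 : S' ≤ mEuc d (Set.range p) := by
    refine le_of_tendsto hlim ?_
    filter_upwards [eventually_gt_atTop (0 : ℝ)] with R hR0
    exact hR R hR0
  linarith

lemma mSph_nonneg' (P : Set (Eu (d + 1))) : 0 ≤ mSph d P := mSph_nonneg P

/-- Configurations of at most one point have spherical density zero. -/
lemma mSph_eq_zero {P : Set (Eu (d + 1))} (hP : P.Subsingleton) : mSph d P = 0 := by
  apply le_antisymm _ (mSph_nonneg P)
  apply Real.sSup_nonpos
  rintro s ⟨A, -, hAm, hA, rfl⟩
  have hemp : A = ∅ := by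
    by_contra hne
    obtain ⟨a0, ha0⟩ := Set.nonempty_iff_ne_empty.2 hne
    have hS : Subsingleton P := Set.subsingleton_coe P |>.2 hP
    have hF : Finite P := inferInstance
    have hFt : Fintype P := Fintype.ofFinite P
    refine not_avoids_of_dist_eq (fun i : P => (i : Eu (d + 1))) (fun _ => a0) (P := P) ?_ ?_
      (fun _ => ha0) hA
    · simp
    · intro i j
      rw [Subsingleton.elim i j, dist_self, dist_self]
  rw [hemp]
  unfold sphProb
  simp

theorem tendsto_prod (hd : 2 ≤ d) {P : Set (Eu (d + 1))} (hfin : P.Finite)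
    (hcard : P.ncard ≤ d ∨ 3 ≤ d) (haff : AffineIndependent ℝ ((↑) : P → Eu (d + 1)))
    {P' : Set (Eu d)} {f : Eu d → Eu (d + 1)} (hf : Isometry f) (hfP : f '' P' = P) :
    Tendsto (fun t : ℝ => mSph d (t • P)) (𝓝[>] 0) (𝓝 (mEuc d P')) := by
  have hfin' : P'.Finite := by
    refine Set.Finite.of_finite_image ?_ hf.injective.injOn
    rw [hfP]
    exact hfin
  have hF : Finite P' := hfin'
  have hFt : Fintype P' := Fintype.ofFinite P'
  set p : P' → Eu d := fun i => (i : Eu d) with hp
  have hrange : Set.range p = P' := by simp [hp]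
  have hrange' : Set.range (fun i => f (p i)) = P := by
    have h1 : Set.range (fun i => f (p i)) = f '' Set.range p := by
      rw [← Set.range_comp]
      rfl
    rw [h1, hrange, hfP]
  -- lower half
  have hlow : ∀ ε > 0, ∀ᶠ t : ℝ in 𝓝[>] 0, mEuc d P' - ε ≤ mSph d (t • P) := by
    intro ε hε
    have h := lower_bound p (fun i => f (p i)) (fun i j => hf.dist_eq _ _) hε
    rw [hrange, hrange'] at h
    exact h
  have hcard2 : Fintype.card P' = P.ncard := by
    rw [← hfP, Set.ncard_image_of_injective _ hf.injective, Set.ncard_eq_toFinset_card' P']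
    rw [Set.toFinset_card]
  -- upper half
  have hup : ∀ ε > 0, ∀ᶠ t : ℝ in 𝓝[>] 0, mSph d (t • P) ≤ mEuc d P' + ε := by
    intro ε hε
    by_cases h2 : 2 ≤ Fintype.card P'
    · have hpaff : AffineIndependent ℝ p := by
        have h3 : AffineIndependent ℝ (fun i : P' => f (p i)) := by
          have hinj : Function.Injective (fun i : P' => (⟨f (p i), by
              rw [← hfP]; exact ⟨_, i.2, rfl⟩⟩ : P)) := by
            intro i j hij
            have := congrArg (fun q : P => (q : Eu (d + 1))) hij
            exact Subtype.ext (hf.injective this)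
          exact haff.comp_embedding ⟨_, hinj⟩
        have e : (fun i : P' => f (p i)) =
            hf.affineIsometryOfStrictConvexSpace.toAffineMap ∘ p := rfl
        rw [e] at h3
        exact AffineIndependent.of_comp _ h3
      have h := upper_bound_prod hd h2 (by rw [hcard2]; exact hcard) hpaff
        (p' := fun i => f (p i)) (fun i j => hf.dist_eq _ _) hε
      rw [hrange, hrange'] at h
      exact h
    · have hsub : P.Subsingleton := by
        have h3 : P.ncard ≤ 1 := by rw [← hcard2]; omega
        have hfP2 : Finite P := hfin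
        exact Set.ncard_le_one_iff_subsingleton.1 h3
      filter_upwards with t
      have hsub2 : (t • P).Subsingleton := hsub.image _
      rw [mSph_eq_zero hsub2]
      have := mEuc_nonneg P'
      linarith
  rw [Metric.tendsto_nhds]
  intro ε hε
  filter_upwards [hlow (ε / 2) (by positivity), hup (ε / 2) (by positivity)] with t h1 h2
  rw [Real.dist_eq, abs_lt]
  constructor <;> linarith

end SphLim
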