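import Mathlib

/-!
# Words of rotations: algebra, derivatives and the divergence theorem
-/

open MeasureTheory Set

namespace SphLim

variable {A : Type*} [NormedRing A] [NormedAlgebra ℝ A]

/-- The exponential of `θ X` when `X ^ 3 = - X`. -/
noncomputable def EE (X : A) (θ : ℝ) : A :=
  1 + Real.sin θ • X + (1 - Real.cos θ) • (X * X)

lemma EE_zero (X : A) : EE X 0 = 1 := by simp [EE]

lemma EE_mul_add {X : A} (hX : X * X * X = -X) (θ θ' : ℝ) : EE X θ * EE X θ' = EE X (θ + θ') := by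
  have h4 : X * X * (X * X) = -(X * X) := by rw [← mul_assoc, hX, neg_mul]
  have h3 : X * (X * X) = -X := by rw [← mul_assoc, hX]
  unfold EE
  rw [Real.sin_add, Real.cos_add]
  simp only [mul_add, add_mul, one_mul, mul_one, smul_mul_assoc, mul_smul_comm, hX, h3, h4,
    smul_neg, smul_smul]
  module

lemma EE_mul_neg {X : A} (hX : X * X * X = -X) (θ : ℝ) : EE X θ * EE X (-θ) = 1 := by
  rw [EE_mul_add hX, add_neg_cancel, EE_zero]

lemma EE_neg_mul {X : A} (hX : X * X * X = -X) (θ : ℝ) : EE X (-θ) * EE X θ = 1 := by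
  rw [EE_mul_add hX, neg_add_cancel, EE_zero]

lemma EE_comm (X : A) (θ : ℝ) : EE X θ * X = X * EE X θ := by
  unfold EE
  simp only [mul_add, add_mul, one_mul, mul_one, smul_mul_assoc, mul_smul_comm, mul_assoc]

lemma EE_hasDerivAt {X : A} (hX : X * X * X = -X) (θ : ℝ) :
    HasDerivAt (EE X) (X * EE X θ) θ := by
  have h1 : HasDerivAt (fun θ : ℝ => (1 : A) + Real.sin θ • X + (1 - Real.cos θ) • (X * X))
      (Real.cos θ • X + Real.sin θ • (X * X)) θ := by
    have a := ((Real.hasDerivAt_sin θ).smul_const X).const_add (1 : A)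
    have b := ((Real.hasDerivAt_cos θ).const_sub (1 : ℝ)).smul_const (X * X)
    rw [neg_neg] at b
    exact a.add b
  have h2 : X * EE X θ = Real.cos θ • X + Real.sin θ • (X * X) := by
    have h3 : X * (X * X) = -X := by rw [← mul_assoc, hX]
    unfold EE
    simp only [mul_add, mul_one, mul_smul_comm, h3, smul_neg]
    module
  rw [h2]
  exact h1

lemma EE_congr (X : A) {θ θ' : ℝ} (hs : Real.sin θ = Real.sin θ') (hc : Real.cos θ = Real.cos θ') :
    EE X θ = EE X θ' := by
  unfold EE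
  rw [hs, hc]

/-- Ordered product of the rotations `EE (X k) (z k)`. -/
noncomputable def WW : (n : ℕ) → (ℕ → A) → (Fin n → ℝ) → A
  | 0, _, _ => 1
  | n + 1, X, z => EE (X 0) (z 0) * WW n (fun k => X (k + 1)) (Fin.tail z)

/-- The inverse of `WW`. -/
noncomputable def VV : (n : ℕ) → (ℕ → A) → (Fin n → ℝ) → A
  | 0, _, _ => 1
  | n + 1, X, z => VV n (fun k => X (k + 1)) (Fin.tail z) * EE (X 0) (-z 0)

/-- The logarithmic derivatives of `WW`. -/
noncomputable def AJ : (n : ℕ) → (ℕ → A) → (Fin n → ℝ) → Fin n → A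
  | 0, _, _ => Fin.elim0
  | n + 1, X, z => Fin.cons (X 0) (fun j => EE (X 0) (z 0) *
      AJ n (fun k => X (k + 1)) (Fin.tail z) j * EE (X 0) (-z 0))

lemma WW_succ (n : ℕ) (X : ℕ → A) (z : Fin (n + 1) → ℝ) :
    WW (n + 1) X z = EE (X 0) (z 0) * WW n (fun k => X (k + 1)) (Fin.tail z) := rfl

lemma AJ_zero (n : ℕ) (X : ℕ → A) (z : Fin (n + 1) → ℝ) : AJ (n + 1) X z 0 = X 0 := by
  simp [AJ]

lemma AJ_succ (n : ℕ) (X : ℕ → A) (z : Fin (n + 1) → ℝ) (j : Fin n) :
    AJ (n + 1) X z j.succ = EE (X 0) (z 0) *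
      AJ n (fun k => X (k + 1)) (Fin.tail z) j * EE (X 0) (-z 0) := by
  simp [AJ]

lemma WW_mul_VV : ∀ (n : ℕ) (X : ℕ → A), (∀ k, X k * X k * X k = - X k) → ∀ z : Fin n → ℝ,
    WW n X z * VV n X z = 1
  | 0, _, _, _ => by simp [WW, VV]
  | n + 1, X, hX, z => by
    simp only [WW, VV]
    rw [mul_assoc, ← mul_assoc (WW n _ _), WW_mul_VV n _ (fun k => hX (k + 1)), one_mul,
      EE_mul_neg (hX 0)]

lemma VV_mul_WW : ∀ (n : ℕ) (X : ℕ → A), (∀ k, X k * X k * X k = - X k) → ∀ z : Fin n → ℝ,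
    VV n X z * WW n X z = 1
  | 0, _, _, _ => by simp [WW, VV]
  | n + 1, X, hX, z => by
    simp only [WW, VV]
    rw [mul_assoc, ← mul_assoc (EE (X 0) (-z 0)), EE_neg_mul (hX 0), one_mul,
      VV_mul_WW n _ (fun k => hX (k + 1))]

lemma WW_congr : ∀ (n : ℕ) (X : ℕ → A) (z z' : Fin n → ℝ),
    (∀ k, Real.sin (z k) = Real.sin (z' k)) → (∀ k, Real.cos (z k) = Real.cos (z' k)) →
    WW n X z = WW n X z'
  | 0, _, _, _, _, _ => by simp [WW]
  | n + 1, X, z, z', hs, hc => by
    simp only [WW]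
    rw [EE_congr (X 0) (hs 0) (hc 0), WW_congr n _ (Fin.tail z) (Fin.tail z')
      (fun k => hs k.succ) (fun k => hc k.succ)]

lemma AJ_congr : ∀ (n : ℕ) (X : ℕ → A) (z z' : Fin n → ℝ),
    (∀ k, Real.sin (z k) = Real.sin (z' k)) → (∀ k, Real.cos (z k) = Real.cos (z' k)) →
    AJ n X z = AJ n X z'
  | 0, _, _, _, _, _ => by simp [AJ]
  | n + 1, X, z, z', hs, hc => by
    simp only [AJ]
    rw [EE_congr (X 0) (hs 0) (hc 0), AJ_congr n _ (Fin.tail z) (Fin.tail z')
      (fun k => hs k.succ) (fun k => hc k.succ),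
      EE_congr (X 0) (θ := -z 0) (θ' := -z' 0) (by rw [Real.sin_neg, Real.sin_neg, hs 0])
        (by rw [Real.cos_neg, Real.cos_neg, hc 0])]

/-- Projection to the tail as a continuous linear map. -/
noncomputable def tailL (n : ℕ) : (Fin (n + 1) → ℝ) →L[ℝ] (Fin n → ℝ) :=
  ContinuousLinearMap.pi fun j => ContinuousLinearMap.proj j.succ

lemma tailL_apply (n : ℕ) (z : Fin (n + 1) → ℝ) : tailL n z = Fin.tail z := by
  ext j; simp [tailL, Fin.tail]

theorem WW_hasFDerivAt : ∀ (n : ℕ) (X : ℕ → A), (∀ k, X k * X k * X k = - X k) →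
    ∀ z : Fin n → ℝ, HasFDerivAt (WW n X)
      (∑ j, (ContinuousLinearMap.proj (R := ℝ) (φ := fun _ : Fin n => ℝ) j).smulRight
        (AJ n X z j * WW n X z)) z
  | 0, X, _, z => by
    have : WW 0 X = fun _ => (1 : A) := by funext z; simp [WW]
    rw [this]
    simp only [Finset.univ_eq_empty, Finset.sum_empty]
    exact hasFDerivAt_const _ _
  | n + 1, X, hX, z => by
    have ih := WW_hasFDerivAt n (fun k => X (k + 1)) (fun k => hX (k + 1)) (Fin.tail z)
    have h1 : HasFDerivAt (fun z : Fin (n + 1) → ℝ => WW n (fun k => X (k + 1)) (Fin.tail z))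
        ((∑ j, (ContinuousLinearMap.proj (R := ℝ) (φ := fun _ : Fin n => ℝ) j).smulRight
        (AJ n (fun k => X (k + 1)) (Fin.tail z) j * WW n (fun k => X (k + 1)) (Fin.tail z))).comp
          (tailL n)) z := by
      have h2 : HasFDerivAt (fun z : Fin (n + 1) → ℝ => Fin.tail z) (tailL n) z := by
        have : (fun z : Fin (n + 1) → ℝ => Fin.tail z) = tailL n := by
          funext z; rw [tailL_apply]
        rw [this]
        exact (tailL n).hasFDerivAt
      exact ih.comp z h2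
    have h3 : HasFDerivAt (fun z : Fin (n + 1) → ℝ => EE (X 0) (z 0))
        ((ContinuousLinearMap.proj (R := ℝ) (φ := fun _ : Fin (n + 1) => ℝ) 0).smulRight
          (X 0 * EE (X 0) (z 0))) z := by
      have h4 := (EE_hasDerivAt (hX 0) (z 0)).hasFDerivAt
      have h5 : HasFDerivAt (fun z : Fin (n + 1) → ℝ => z 0)
        (ContinuousLinearMap.proj (R := ℝ) (φ := fun _ : Fin (n + 1) => ℝ) 0) z :=
        (ContinuousLinearMap.proj (R := ℝ) (φ := fun _ : Fin (n + 1) => ℝ) 0).hasFDerivAt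
      have h6 := h4.comp z h5
      have h6' : HasFDerivAt (fun z : Fin (n + 1) → ℝ => EE (X 0) (z 0))
        (ContinuousLinearMap.toSpanSingleton ℝ (X 0 * EE (X 0) (z 0)) ∘SL
          ContinuousLinearMap.proj (R := ℝ) (φ := fun _ : Fin (n + 1) => ℝ) 0) z := h6
      refine h6'.congr_fderiv ?_
      ext v
      simp
    have h7 := h3.mul' h1
    have h8 : WW (n + 1) X = fun z : Fin (n + 1) → ℝ =>
        EE (X 0) (z 0) * WW n (fun k => X (k + 1)) (Fin.tail z) := by
      funext z; rfl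
    rw [h8]
    refine h7.congr_fderiv ?_
    ext v
    have hone : ∀ c : A, EE (X 0) (-z 0) * (EE (X 0) (z 0) * c) = c := fun c => by
      rw [← mul_assoc, EE_neg_mul (hX 0), one_mul]
    simp only [add_apply, smul_apply,
      ContinuousLinearMap.comp_apply, sum_apply,
      ContinuousLinearMap.smulRight_apply, ContinuousLinearMap.proj_apply, tailL_apply,
      Fin.sum_univ_succ, AJ_zero, AJ_succ, smul_eq_mul, Finset.mul_sum, mul_smul_comm, Fin.tail,
      MulOpposite.smul_eq_mul_unop, MulOpposite.unop_op, smul_mul_assoc, mul_assoc, hone]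
    rw [add_comm]

end SphLim
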