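import Pool.Agent.SphLim.Word9

/-!
# Left invariance of long words for a tetrahedron, uniformly at small scales
-/

open MeasureTheory Filter Topology Metric
open scoped ENNReal Pointwise RealInnerProductSpace Real

namespace SphLim

lemma contDiff_pat {E : Type*} [NormedAddCommGroup E] [NormedSpace ℝ E] {f g : E → A4}
    (hf : ContDiff ℝ ⊤ f) (hg : ContDiff ℝ ⊤ g) : ∀ k : ℕ, ContDiff ℝ ⊤ fun p => pat (f p) (g p) k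
  | 0 => hg
  | 1 => hf
  | 2 => hf
  | 3 => hg
  | k + 4 => contDiff_pat hf hg k

lemma inner_exp3 {m1 m2 b : Eu 3} (h1 : ‖m1‖ = 1) (h2 : ‖m2‖ = 1) (hb : ‖b‖ = 1)
    (h12 : ⟪m1, m2⟫ = 0) (h1b : ⟪m1, b⟫ = 0) (h2b : ⟪m2, b⟫ = 0) (v w : Eu 3) :
    ⟪v, w⟫ = ⟪m1, v⟫ * ⟪m1, w⟫ + ⟪m2, v⟫ * ⟪m2, w⟫ + ⟪b, v⟫ * ⟪b, w⟫ := by
  conv_lhs => rw [exp3 h1 h2 hb h12 h1b h2b w]
  rw [inner_add_right, inner_add_right, inner_smul_right, inner_smul_right, inner_smul_right,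
    real_inner_comm m1 v, real_inner_comm m2 v, real_inner_comm b v]
  ring

theorem Tet.gen {a b c e : Eu 3} (h : Tet a b c e) {m1 m2 n1 n2 : Eu 3} (hm1 : ‖m1‖ = 1)
    (hm2 : ‖m2‖ = 1) (hm12 : ⟪m1, m2⟫ = 0) (hma : ⟪m1, a⟫ = 0) (hmb : ⟪m1, b⟫ = 0)
    (hmab : ⟪m2, a⟫ = ⟪m2, b⟫) (hn1 : ‖n1‖ = 1) (hn2 : ‖n2‖ = 1) (hn12 : ⟪n1, n2⟫ = 0)
    (hnc : ⟪n1, c⟫ = 0) (hne : ⟪n1, e⟫ = 0) (hnce : ⟪n2, c⟫ = ⟪n2, e⟫) :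
    ∃ N0 : ℕ, ∀ N, N0 ≤ N → ∃ z, DD ph (4 * N)
      (pat (XL n1 n2 (0, ⟪n2, c⟫, 1)) (XL m1 m2 (0, ⟪m2, a⟫, 1))) z ≠ 0 := by
  obtain ⟨bb, hbb, hm1b, hm2b⟩ := third_vec m1 m2
  have hγ := h.gamma_ne hm1 hm2 hbb hm12 hm1b hm2b hma hmb hmab hn1 hn2 hn12 hnc hne hnce
  have e1 := exp3 hm1 hm2 hbb hm12 hm1b hm2b n1
  have e2 := exp3 hm1 hm2 hbb hm12 hm1b hm2b n2
  have f11 := inner_exp3 hm1 hm2 hbb hm12 hm1b hm2b n1 n1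
  have f22 := inner_exp3 hm1 hm2 hbb hm12 hm1b hm2b n2 n2
  have f12 := inner_exp3 hm1 hm2 hbb hm12 hm1b hm2b n1 n2
  rw [inner_one hn1] at f11
  rw [inner_one hn2] at f22
  rw [hn12] at f12
  refine exists_word (XL_cube hn1 hn2 hn12 (by norm_num)) (XL_cube hm1 hm2 hm12 (by norm_num)) ?_
  intro S hY hX hYX
  exact flat_span (α1 := ⟪m1, n1⟫) (β1 := ⟪m2, n1⟫) (κ1 := ⟪bb, n1⟫) (α2 := ⟪m1, n2⟫)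
    (β2 := ⟪m2, n2⟫) (κ2 := ⟪bb, n2⟫) hm1 hm2 hbb hm12 hm1b hm2b (by linarith) (by linarith)
    (by linarith) (μX := ⟪n2, c⟫) (μY := ⟪m2, a⟫) hγ (by rw [← e1, ← e2]) rfl hY hX hYX

theorem Tet.inv {a b c e : Eu 3} (h : Tet a b c e) (ρ : ℝ) {m1 m2 n1 n2 q1 q2 : Eu 3}
    (hm1 : ‖m1‖ = 1)
    (hm2 : ‖m2‖ = 1) (hm12 : ⟪m1, m2⟫ = 0) (hma : ⟪m1, a⟫ = 0) (hmb : ⟪m1, b⟫ = 0)
    (hmab : ⟪m2, a⟫ = ⟪m2, b⟫) (hn1 : ‖n1‖ = 1) (hn2 : ‖n2‖ = 1) (hn12 : ⟪n1, n2⟫ = 0)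
    (hnc : ⟪n1, c⟫ = 0) (hne : ⟪n1, e⟫ = 0) (hnce : ⟪n2, c⟫ = ⟪n2, e⟫) (hq1 : ‖q1‖ = 1)
    (hq2 : ‖q2‖ = 1) (hq12 : ⟪q1, q2⟫ = 0) :
    ∃ N0 : ℕ, ∀ N, N0 ≤ N → ∀ ε > 0, ∃ s0 > 0, ∃ t0 > 0, ∀ t : ℝ, 0 < t → t < t0 →
      ∀ F : A4 → ℝ, Differentiable ℝ F →
      (∀ s z, |F (EE (XL q1 q2 (pv ρ q2 b t)) s *
        WW (4 * N) (pat (XL n1 n2 (pv ρ n2 c t)) (XL m1 m2 (pv ρ m2 a t))) z)| ≤ 1) →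
      ∀ s1, 0 ≤ s1 → s1 ≤ s0 → |∫ z in Bx (4 * N), (F (EE (XL q1 q2 (pv ρ q2 b t)) s1 *
        WW (4 * N) (pat (XL n1 n2 (pv ρ n2 c t)) (XL m1 m2 (pv ρ m2 a t))) z) -
        F (WW (4 * N) (pat (XL n1 n2 (pv ρ n2 c t)) (XL m1 m2 (pv ρ m2 a t))) z))| ≤ ε := by
  obtain ⟨N0, hN0⟩ := h.gen hm1 hm2 hm12 hma hmb hmab hn1 hn2 hn12 hnc hne hnce
  refine ⟨N0, fun N hN ε hε => ?_⟩
  set X : (ℝ × ℝ × ℝ) × (ℝ × ℝ × ℝ) × (ℝ × ℝ × ℝ) → ℕ → A4 :=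
    fun p k => pat (XL n1 n2 p.1) (XL m1 m2 p.2.1) k with hX
  set Z : (ℝ × ℝ × ℝ) × (ℝ × ℝ × ℝ) × (ℝ × ℝ × ℝ) → A4 := fun p => XL q1 q2 p.2.2 with hZ
  have hXc : ∀ k, ContDiff ℝ ⊤ fun p => X p k := fun k =>
    contDiff_pat (contDiff_XL n1 n2 contDiff_fst) (contDiff_XL m1 m2 (contDiff_fst.comp
      contDiff_snd)) k
  have hZc : ContDiff ℝ ⊤ Z := contDiff_XL q1 q2 (contDiff_snd.comp contDiff_snd)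
  obtain ⟨s0, hs0, hev⟩ := word_inv (A := A4) ph (4 * N) hXc hZc
    (p0 := (((0 : ℝ), ⟪n2, c⟫, (1 : ℝ)), ((0 : ℝ), ⟪m2, a⟫, (1 : ℝ)), ((0 : ℝ), ⟪q2, b⟫, (1 : ℝ))))
    (hN0 N hN) hε
  refine ⟨s0, hs0, ?_⟩
  have hT : Tendsto (fun t => (pv ρ n2 c t, pv ρ m2 a t, pv ρ q2 b t)) (𝓝[>] 0)
      (𝓝 (((0 : ℝ), ⟪n2, c⟫, (1 : ℝ)), ((0 : ℝ), ⟪m2, a⟫, (1 : ℝ)), ((0 : ℝ), ⟪q2, b⟫, (1 : ℝ)))) :=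
    ((tendsto_pv ρ n2 c).prodMk_nhds ((tendsto_pv ρ m2 a).prodMk_nhds (tendsto_pv ρ q2 b))).mono_left
      nhdsWithin_le_nhds
  have h2 := hT.eventually hev
  rw [Filter.Eventually, mem_nhdsGT_iff_exists_Ioo_subset] at h2
  obtain ⟨t0, ht0, hsub⟩ := h2
  refine ⟨t0, ht0, fun t ht htt F hF hFb s1 hs1 hs2 => ?_⟩
  have h3 := hsub (show t ∈ Set.Ioo 0 t0 from ⟨ht, htt⟩)
  rw [Set.mem_ofPred_eq] at h3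
  have hX3 := XL_cube hn1 hn2 hn12 (pv_rel ρ n2 c t)
  have hY3 := XL_cube hm1 hm2 hm12 (pv_rel ρ m2 a t)
  have hZ3 := XL_cube hq1 hq2 hq12 (pv_rel ρ q2 b t)
  have hXg : XL n1 n2 (pv ρ n2 c t) ∈ gg (t ^ 2) := XL_mem_gg _ _ _
  have hYg : XL m1 m2 (pv ρ m2 a t) ∈ gg (t ^ 2) := XL_mem_gg _ _ _
  have hZg : XL q1 q2 (pv ρ q2 b t) ∈ gg (t ^ 2) := XL_mem_gg _ _ _
  have hpg : ∀ k, pat (XL n1 n2 (pv ρ n2 c t)) (XL m1 m2 (pv ρ m2 a t)) k ∈ gg (t ^ 2) :=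
    pat_prop (p := fun A => A ∈ gg (t ^ 2)) hXg hYg
  exact h3 (pat_prop (p := fun A => A * A * A = -A) hX3 hY3) hZ3 (gg (t ^ 2))
    (fun z j => AJ_mem_gg (4 * N) _ hpg z j) hZg
    (fun A hA h0 => ph_injective (by positivity) hA h0) F hF hFb s1 hs1 hs2

end SphLim
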