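import Pool.Agent.SphLim.Word10

/-!
# Smooth approximation, and cap averages of products
-/

open MeasureTheory Filter Topology Metric
open scoped ENNReal Pointwise RealInnerProductSpace Real ContDiff Manifold

namespace SphLim

variable {d : ℕ}

lemma smooth_unif {n : ℕ} {g : Eu n → ℝ} (hg : Continuous g) (hb : ∀ y, |g y| ≤ 1) {η : ℝ}
    (hη : 0 < η) : ∃ f : Eu n → ℝ, Differentiable ℝ f ∧ (∀ y, |f y| ≤ 1) ∧
      ∀ y, |g y - f y| ≤ η := by
  have h1 := exists_contMDiffMap_forall_mem_convex_of_local_const (n := (1 : ℕ∞))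
    (I := 𝓘(ℝ, Eu n)) (M := Eu n) (F := ℝ)
    (t := fun x => Set.Icc (g x - η) (g x + η) ∩ Set.Icc (-1) 1)
    (fun x => (convex_Icc _ _).inter (convex_Icc _ _)) (fun x => by
      refine ⟨g x, ?_⟩
      have h2 : ∀ᶠ y in 𝓝 x, |g y - g x| < η := by
        have h3 : Tendsto (fun y => |g y - g x|) (𝓝 x) (𝓝 |g x - g x|) :=
          ((hg.tendsto x).sub_const _).abs
        rw [sub_self, abs_zero] at h3
        exact h3.eventually (gt_mem_nhds hη)
      filter_upwards [h2] with y hy
      rw [abs_lt] at hy
      exact ⟨⟨by linarith, by linarith⟩, abs_le.1 (hb x)⟩)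
  obtain ⟨f, hf⟩ := h1
  refine ⟨f, ?_, ?_, ?_⟩
  · have h2 : ContMDiff 𝓘(ℝ, Eu n) 𝓘(ℝ, ℝ) ((1 : ℕ∞) : WithTop ℕ∞) f := f.contMDiff
    exact h2.contDiff.differentiable (by simp)
  · intro y
    exact abs_le.2 (hf y).2
  · intro y
    have h2 := (hf y).1
    rw [abs_le]
    constructor <;> linarith [h2.1, h2.2]

lemma smooth_approx {n : ℕ} (μ : Measure (Eu n)) [IsFiniteMeasure μ] {h : Eu n → ℝ}
    (hm : Measurable h) (hb : ∀ y, |h y| ≤ 1) {δ : ℝ} (hδ : 0 < δ) :
    ∃ f : Eu n → ℝ, Differentiable ℝ f ∧ (∀ y, |f y| ≤ 1) ∧ ∫ y, |h y - f y| ∂μ ≤ δ := by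
  have hfi : Integrable h μ := Integrable.of_bound (C := 1) hm.aestronglyMeasurable
    (Eventually.of_forall fun y => by simpa using hb y)
  obtain ⟨g, hgs, hg, hgc, hgi⟩ := hfi.exists_hasCompactSupport_integral_sub_le (half_pos hδ)
  set g' : Eu n → ℝ := fun y => max (-1) (min 1 (g y)) with hg'
  have hg'c : Continuous g' := continuous_const.max (continuous_const.min hgc)
  have hg'b : ∀ y, |g' y| ≤ 1 := fun y => abs_le.2
    ⟨le_max_left _ _, max_le (by norm_num) (min_le_left _ _)⟩
  have hg'h : ∀ y, |h y - g' y| ≤ |h y - g y| := by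
    intro y
    have h1 := abs_le.1 (hb y)
    rw [hg']
    simp only
    rcases le_total (-1) (g y) with h2 | h2
    · rcases le_total 1 (g y) with h3 | h3
      · rw [min_eq_left h3, max_eq_right (by norm_num), abs_sub_comm (h y) 1,
          abs_sub_comm (h y) (g y), abs_of_nonneg (by linarith), abs_of_nonneg (by linarith)]
        linarith
      · rw [min_eq_right h3, max_eq_right h2]
    · rw [min_eq_right (h2.trans (by norm_num)), max_eq_left h2, abs_of_nonneg (by linarith),
        abs_of_nonneg (by linarith)]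
      linarith
  set η : ℝ := δ / (2 * (μ.real Set.univ + 1)) with hη
  have hη0 : 0 < η := by positivity
  obtain ⟨f, hfd, hfb, hfg⟩ := smooth_unif hg'c hg'b hη0
  refine ⟨f, hfd, hfb, ?_⟩
  have hi1 : Integrable (fun y => |h y - g y|) μ := (hfi.sub hgi).norm
  calc ∫ y, |h y - f y| ∂μ ≤ ∫ y, (|h y - g y| + η) ∂μ := by
        apply integral_mono_of_nonneg (Eventually.of_forall fun _ => abs_nonneg _)
        · exact hi1.add (integrable_const _)
        · refine Eventually.of_forall fun y => ?_
          have h1 := abs_sub_le (h y) (g' y) (f y)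
          have h2 := hg'h y
          have h3 := hfg y
          change |h y - f y| ≤ |h y - g y| + η
          linarith
    _ = (∫ y, |h y - g y| ∂μ) + μ.real Set.univ * η := by
        rw [integral_add hi1 (integrable_const _), integral_const, smul_eq_mul]
    _ ≤ δ / 2 + δ / 2 := by
        refine add_le_add hg ?_
        rw [hη, mul_div_assoc', div_le_div_iff₀ (by positivity) (by norm_num)]
        have : 0 ≤ μ.real Set.univ := measureReal_nonneg
        nlinarith
    _ = δ := by ring

/-- Mass of the average of a nonnegative function. -/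
lemma integral_capAvg_abs {h : Eu (d + 1) → ℝ} (hm : Measurable h) (hb : ∀ y, |h y| ≤ 1) {s : ℝ}
    (hs : 0 < s) : ∫ x, capAvg (fun y => |h y|) s x ∂(sphMeas d) ≤ ∫ y, |h y| ∂(sphMeas d) := by
  set m := (sphMeas d).real (closedBall (nP d) s) with hmdef
  have hm0 : 0 < m := ENNReal.toReal_pos (cap_pos norm_nP hs).ne' (measure_ne_top _ _)
  have hae : ∀ᵐ x ∂(sphMeas d), capAvg (fun y => |h y|) s x = m⁻¹ * capInt (fun y => |h y|) s x := by
    filter_upwards [sphMeas_ae_norm (d := d)] with x hx
    unfold capAvg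
    rw [capMeas_eq hx norm_nP]
  rw [integral_congr_ae hae, integral_const_mul]
  have hind : ∀ x, capInt (fun y => |h y|) s x =
      ∫ y, (closedBall x s).indicator (fun y => |h y|) y ∂(sphMeas d) := by
    intro x
    unfold capInt
    rw [integral_indicator isClosed_closedBall.measurableSet]
  have hjm : Measurable fun p : Eu (d + 1) × Eu (d + 1) =>
      (closedBall p.1 s).indicator (fun y => |h y|) p.2 := by
    have e : (fun p : Eu (d + 1) × Eu (d + 1) => (closedBall p.1 s).indicator
        (fun y => |h y|) p.2) =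
        {p : Eu (d + 1) × Eu (d + 1) | dist p.2 p.1 ≤ s}.indicator (fun p => |h p.2|) := by
      ext p
      rfl
    rw [e]
    apply (hm.abs.comp measurable_snd).indicator
    exact (isClosed_le (continuous_snd.dist continuous_fst) continuous_const).measurableSet
  have hjb : ∀ p : Eu (d + 1) × Eu (d + 1),
      |(closedBall p.1 s).indicator (fun y => |h y|) p.2| ≤ 1 := by
    intro p
    by_cases hp : p.2 ∈ closedBall p.1 s
    · rw [Set.indicator_of_mem hp, abs_abs]; exact hb _
    · rw [Set.indicator_of_notMem hp, abs_zero]; exact zero_le_one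
  simp_rw [hind]
  rw [integral_integral_swap (Integrable.of_bound (C := 1) hjm.aestronglyMeasurable
    (Eventually.of_forall fun p => by rw [Real.norm_eq_abs]; exact hjb p))]
  have hin : ∀ᵐ y ∂(sphMeas d), ∫ x, (closedBall x s).indicator (fun y => |h y|) y
      ∂(sphMeas d) = m * |h y| := by
    filter_upwards [sphMeas_ae_norm (d := d)] with y hy
    have e : (fun x => (closedBall x s).indicator (fun y => |h y|) y) =
        fun x => (closedBall y s).indicator (fun _ => |h y|) x := by
      ext x
      by_cases hx : y ∈ closedBall x s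
      · rw [Set.indicator_of_mem hx, Set.indicator_of_mem (mem_closedBall_comm.1 hx)]
      · rw [Set.indicator_of_notMem hx,
          Set.indicator_of_notMem (fun h' => hx (mem_closedBall_comm.1 h'))]
    rw [e, integral_indicator_const _ isClosed_closedBall.measurableSet, smul_eq_mul, hmdef,
      capMeas_eq hy norm_nP]
  rw [integral_congr_ae hin, integral_const_mul, ← mul_assoc, inv_mul_cancel₀ hm0.ne', one_mul]

/-- Cap averages of a product with a Lipschitz function. -/
lemma capAvg_mul_le {h ψ : Eu (d + 1) → ℝ} (hm : Measurable h) (hb : ∀ y, |h y| ≤ 1)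
    (hψm : Measurable ψ) (hψ : ∀ y, |ψ y| ≤ 1) {lam : ℝ} (hl : 0 < lam)
    (hψL : ∀ y z, |ψ y - ψ z| ≤ ‖y - z‖ / lam) {s : ℝ} (x : Eu (d + 1)) :
    |capAvg (fun y => h y * ψ y) s x| ≤ |capAvg h s x| + s / lam * capAvg (fun y => |h y|) s x := by
  have hint : ∀ {f : Eu (d + 1) → ℝ}, Measurable f → ∀ {C : ℝ}, (∀ y, |f y| ≤ C) →
      Integrable f ((sphMeas d).restrict (closedBall x s)) := fun hf C hC =>
    Integrable.of_bound (C := C) hf.aestronglyMeasurable
      (Eventually.of_forall fun y => by simpa using hC y)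
  have h1 : capInt (fun y => h y * ψ y) s x = ψ x * capInt h s x +
      ∫ y in closedBall x s, h y * (ψ y - ψ x) ∂(sphMeas d) := by
    unfold capInt
    rw [← integral_const_mul, ← integral_add]
    · congr 1
      ext y
      ring
    · exact (hint hm hb).const_mul _
    · refine hint (hm.mul (hψm.sub measurable_const)) (C := 1 * 2) fun y => ?_
      rw [abs_mul]
      have h2 := abs_sub (ψ y) (ψ x)
      exact mul_le_mul (hb y) (by linarith [hψ x, hψ y]) (abs_nonneg _) zero_le_one
  have h2 : |∫ y in closedBall x s, h y * (ψ y - ψ x) ∂(sphMeas d)| ≤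
      s / lam * capInt (fun y => |h y|) s x := by
    unfold capInt
    rw [← integral_const_mul, ← Real.norm_eq_abs]
    refine (norm_integral_le_integral_norm _).trans ?_
    apply integral_mono_ae
    · refine hint (hm.mul (hψm.sub measurable_const)).norm (C := 1 * 2) fun y => ?_
      rw [Real.norm_eq_abs, abs_abs, abs_mul]
      have h2 := abs_sub (ψ y) (ψ x)
      exact mul_le_mul (hb y) (by linarith [hψ x, hψ y]) (abs_nonneg _) zero_le_one
    · exact (hint hm.abs (C := 1) (fun y => by rw [abs_abs]; exact hb y)).const_mul _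
    · filter_upwards [ae_restrict_mem isClosed_closedBall.measurableSet] with y hy
      rw [mem_closedBall, dist_eq_norm] at hy
      rw [Real.norm_eq_abs, abs_mul, mul_comm]
      apply mul_le_mul_of_nonneg_right _ (abs_nonneg _)
      refine (hψL y x).trans ?_
      gcongr
  unfold capAvg
  rw [h1, abs_mul, abs_mul, abs_inv, abs_of_nonneg (measureReal_nonneg)]
  have h3 : |ψ x * capInt h s x + ∫ y in closedBall x s, h y * (ψ y - ψ x) ∂(sphMeas d)| ≤
      |capInt h s x| + s / lam * capInt (fun y => |h y|) s x := by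
    refine (abs_add_le _ _).trans (add_le_add ?_ h2)
    rw [abs_mul]
    exact mul_le_of_le_one_left (abs_nonneg _) (hψ x)
  calc ((sphMeas d).real (closedBall x s))⁻¹ *
        |ψ x * capInt h s x + ∫ y in closedBall x s, h y * (ψ y - ψ x) ∂(sphMeas d)| ≤
      ((sphMeas d).real (closedBall x s))⁻¹ *
        (|capInt h s x| + s / lam * capInt (fun y => |h y|) s x) := by
        apply mul_le_mul_of_nonneg_left h3
        exact inv_nonneg.2 measureReal_nonneg
    _ = _ := by ring

lemma integral_capAvg_mul {h ψ : Eu (d + 1) → ℝ} (hm : Measurable h) (hb : ∀ y, |h y| ≤ 1)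
    (hψm : Measurable ψ) (hψ : ∀ y, |ψ y| ≤ 1) {lam : ℝ} (hl : 0 < lam)
    (hψL : ∀ y z, |ψ y - ψ z| ≤ ‖y - z‖ / lam) {s : ℝ} (hs : 0 < s) :
    ∫ x, |capAvg (fun y => h y * ψ y) s x| ∂(sphMeas d) ≤
      (∫ x, |capAvg h s x| ∂(sphMeas d)) + s / lam * ∫ y, |h y| ∂(sphMeas d) := by
  have i1 : Integrable (fun x => |capAvg h s x|) (sphMeas d) :=
    Integrable.of_bound (C := 1) (measurable_capAvg hm s).abs.aestronglyMeasurable
      (Eventually.of_forall fun x => by
        rw [Real.norm_eq_abs, abs_abs]; exact abs_capAvg_le hb s x)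
  have i2 : Integrable (fun x => capAvg (fun y => |h y|) s x) (sphMeas d) :=
    Integrable.of_bound (C := 1) (measurable_capAvg hm.abs s).aestronglyMeasurable
      (Eventually.of_forall fun x => by
        rw [Real.norm_eq_abs]
        exact abs_capAvg_le (fun y => by rw [abs_abs]; exact hb y) s x)
  calc ∫ x, |capAvg (fun y => h y * ψ y) s x| ∂(sphMeas d) ≤
      ∫ x, (|capAvg h s x| + s / lam * capAvg (fun y => |h y|) s x) ∂(sphMeas d) := by
        apply integral_mono_of_nonneg (Eventually.of_forall fun _ => abs_nonneg _)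
        · exact i1.add (i2.const_mul _)
        · exact Eventually.of_forall fun x => capAvg_mul_le hm hb hψm hψ hl hψL x
    _ = (∫ x, |capAvg h s x| ∂(sphMeas d)) +
        s / lam * ∫ x, capAvg (fun y => |h y|) s x ∂(sphMeas d) := by
        rw [integral_add i1 (i2.const_mul _), integral_const_mul]
    _ ≤ _ := by
        have := integral_capAvg_abs hm hb hs
        gcongr

end SphLim
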