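import Pool.Agent.SphLim.Word11

/-!
# Smallness of invariant forms at all small averaging scales
-/

open MeasureTheory Filter Topology Metric
open scoped ENNReal Pointwise RealInnerProductSpace Real

namespace SphLim

variable {d : ℕ}

theorem inv_small2 (hd : 1 ≤ d) {c C1 ε1 : ℝ} (hc : 0 < c) (hC1 : 0 ≤ C1) (hε1 : 0 < ε1) :
    ∃ s1 > 0, ∃ δ1 > 0, ∀ s : ℝ, 0 < s → s ≤ s1 → ∀ t : ℝ, 0 < t →
      ∀ (h k : Eu (d + 1) → ℝ) (H : OG (d + 1) → ℝ) (x : Eu (d + 1)),
      Measurable h → (∀ y, |h y| ≤ 1) → Measurable k → (∀ y, |k y| ≤ 1) → Measurable H →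
      ‖x‖ = 1 → (∀ g, |H g| ≤ |k (act g x)|) → ∫ y, |k y| ∂(sphMeas d) ≤ C1 * t ^ d →
      ∫ y, |h y| ∂(sphMeas d) ≤ C1 * t ^ d →
      ∫ y, |capAvg h (s * t) y| ∂(sphMeas d) ≤ δ1 * t ^ d →
      ∀ (n : ℕ) (v : Fin n → Eu (d + 1)) (J : Finset (Fin n)) (i : Fin n), J.card + 1 ≤ d →
      ‖v i‖ = 1 → (∀ z ∈ Submodule.span ℝ (v '' (J : Set (Fin n))), c * t ≤ ‖v i - z‖) →
      (∀ g R : OG (d + 1), (∀ j ∈ J, act R (v j) = v j) → H (g * R) = H g) →
      |∫ g, H g * h (act g (v i)) ∂(haar (d + 1))| ≤ ε1 * t ^ d := by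
  set δ : ℝ := ε1 / (C1 + 1) with hδ
  have hδ0 : 0 < δ := by positivity
  set ε : ℝ := δ * ε1 / (2 * (C1 + 1)) with hε
  have hε0 : 0 < ε := by positivity
  have h1π : (1 : ℝ) < π := by linarith [Real.pi_gt_three]
  obtain ⟨s0, hs0, hT⟩ := tv_cos (Qeta_ac 1) (Qeta_supp h1π) hε0
  refine ⟨min c (s0 * c / 2), by positivity, δ * ε1 / 2, by positivity, ?_⟩
  intro s hspos hs
  have hsc : s / c + s ^ 2 / (2 * c ^ 2) ≤ s0 := by
    have h1 : s ≤ c := hs.trans (min_le_left _ _)
    have h2 : s ≤ s0 * c / 2 := hs.trans (min_le_right _ _)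
    have h3 : s / c ≤ 1 := (div_le_one hc).2 h1
    have h4 : s / c ≤ s0 / 2 := by
      rw [div_le_iff₀ hc]
      linarith
    have h5 : s ^ 2 / (2 * c ^ 2) = (s / c) * (s / c) / 2 := by
      field_simp
    rw [h5]
    have h6 : 0 ≤ s / c := by positivity
    nlinarith
  intro t ht h k H x hm hb hkm hkb hHm hx hHk hk1 hN1 hC n v J i hJ hvi hspan hinv
  obtain ⟨a, e, f, r, hr, hae, haf, hef, he, hf, ha, hvi2, hperp⟩ :=
    exists_circle (v := v) hJ hvi hspan
  have hct : 0 < c * t := by positivity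
  have hr0 : 0 < r := lt_of_lt_of_le hct hr
  have hsr : (s * t) / r + (s * t) ^ 2 / (2 * r ^ 2) ≤ s0 := by
    refine le_trans ?_ hsc
    have h1 : s * t / r ≤ s / c := by
      rw [div_le_div_iff₀ hr0 hc]
      nlinarith
    have h2 : (s * t) ^ 2 / (2 * r ^ 2) ≤ s ^ 2 / (2 * c ^ 2) := by
      rw [div_le_div_iff₀ (by positivity) (by positivity)]
      have h3 : (c * t) ^ 2 ≤ r ^ 2 := pow_le_pow_left₀ hct.le hr 2
      nlinarith [sq_nonneg s]
    linarith
  have hst : 0 < s * t := by positivity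
  have htts := tts hd hm hb hr0 hae haf hef he hf ha one_pos hst hsr hT
  choose R hR using fun θ => exists_rot (d := d) hr0 hef he hf θ
  have hRi : ∀ θ, act (R θ) (v i) = circ a e f θ := by
    intro θ
    rw [hR, hvi2, rot_circ hr0 hae haf hef he]
  have hRj : ∀ θ, ∀ j ∈ J, act (R θ) (v j) = v j := by
    intro θ j hj
    rw [hR, rot_fix (hperp j hj).1 (hperp j hj).2]
  set I := ∫ g, H g * h (act g (v i)) ∂(haar (d + 1)) with hI
  have hinv2 : ∀ θ, ∫ g, H g * h (act g (circ a e f θ)) ∂(haar (d + 1)) = I := by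
    intro θ
    rw [hI, ← integral_haar_mul_right (f := fun g => H g * h (act g (v i))) (R θ)]
    congr 1
    ext g
    rw [hinv g (R θ) (hRj θ), act_mul, hRi]
  have hH1 : ∀ g, |H g| ≤ 1 := fun g => (hHk g).trans (hkb _)
  have hcm : Measurable fun q : OG (d + 1) × ℝ => h (act q.1 (circ a e f q.2)) :=
    hm.comp (measurable_act.comp (measurable_fst.prodMk ((continuous_circ a e f).measurable.comp
      measurable_snd)))
  set Y : OG (d + 1) → ℝ := fun g => ∫ θ in Set.Icc 0 1, h (act g (circ a e f θ)) with hY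
  have hYm : Measurable Y := (hcm.stronglyMeasurable.integral_prod_right').measurable
  have hμθ : (volume.restrict (Set.Icc (0 : ℝ) 1)).real Set.univ = 1 := by
    rw [Measure.real, Measure.restrict_apply_univ, Real.volume_Icc, sub_zero,
      ENNReal.toReal_ofReal zero_le_one]
  have hYb : ∀ g, |Y g| ≤ 1 := by
    intro g
    have h1 := norm_integral_le_of_norm_le_const (μ := volume.restrict (Set.Icc (0 : ℝ) 1))
      (f := fun θ => h (act g (circ a e f θ))) (C := 1)
      (Eventually.of_forall fun θ => by simpa using hb _)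
    rw [hμθ, one_mul, Real.norm_eq_abs] at h1
    exact h1
  have hIY : I = ∫ g, H g * Y g ∂(haar (d + 1)) := by
    have h1 : ∫ θ in Set.Icc (0 : ℝ) 1, ∫ g, H g * h (act g (circ a e f θ)) ∂(haar (d + 1)) =
        I := by
      rw [integral_congr_ae (g := fun _ => I) (Eventually.of_forall hinv2), integral_const, hμθ,
        smul_eq_mul, one_mul]
    rw [← h1, integral_integral_swap]
    · congr 1
      ext g
      rw [hY]
      simp only
      rw [integral_const_mul]
    · refine Integrable.of_bound (C := 1) ?_ (Eventually.of_forall fun q => ?_)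
      · exact ((hHm.comp measurable_snd).mul (hcm.comp measurable_swap)).aestronglyMeasurable
      · simp only [Function.uncurry, norm_mul, Real.norm_eq_abs]
        exact mul_le_one₀ (hH1 _) (abs_nonneg _) (hb _)
  have hpt : ∀ g, |H g * Y g| ≤ δ / 2 * |k (act g x)| + Y g ^ 2 / (2 * δ) := by
    intro g
    rw [abs_mul]
    have h1 : |Y g| ≤ δ / 2 + |Y g| ^ 2 / (2 * δ) := by
      rw [← sub_nonneg]
      have h5 : δ / 2 + |Y g| ^ 2 / (2 * δ) - |Y g| = (δ - |Y g|) ^ 2 / (2 * δ) := by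
        field_simp
        ring
      rw [h5]
      positivity
    rw [← sq_abs (Y g)]
    have h2 : 0 ≤ |Y g| ^ 2 / (2 * δ) := by positivity
    calc |H g| * |Y g| ≤ |k (act g x)| * (δ / 2 + |Y g| ^ 2 / (2 * δ)) := by
          apply mul_le_mul (hHk g) h1 (abs_nonneg _) (abs_nonneg _)
      _ = δ / 2 * |k (act g x)| + |k (act g x)| * (|Y g| ^ 2 / (2 * δ)) := by ring
      _ ≤ δ / 2 * |k (act g x)| + 1 * (|Y g| ^ 2 / (2 * δ)) := by
          gcongr
          exact hkb _
      _ = _ := by ring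
  have hki : Integrable (fun g => |k (act g x)|) (haar (d + 1)) := by
    refine Integrable.of_bound (C := 1) ((hkm.abs.comp (measurable_act_left x)).aestronglyMeasurable)
      (Eventually.of_forall fun g => ?_)
    rw [Real.norm_eq_abs, abs_abs]
    exact hkb _
  have hY2 : Integrable (fun g => Y g ^ 2) (haar (d + 1)) := by
    refine Integrable.of_bound (C := 1) (hYm.pow_const 2).aestronglyMeasurable
      (Eventually.of_forall fun g => ?_)
    rw [Real.norm_eq_abs, abs_pow]
    exact pow_le_one₀ (abs_nonneg _) (hYb g)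
  have hfin : |I| ≤ δ / 2 * (C1 * t ^ d) + (ε * (C1 * t ^ d) + 1 ^ 2 * (δ * ε1 / 2 * t ^ d)) /
      (2 * δ) := by
    rw [hIY, ← Real.norm_eq_abs]
    refine (norm_integral_le_integral_norm _).trans ?_
    calc ∫ g, ‖H g * Y g‖ ∂(haar (d + 1))
        ≤ ∫ g, (δ / 2 * |k (act g x)| + Y g ^ 2 / (2 * δ)) ∂(haar (d + 1)) := by
          apply integral_mono_of_nonneg (Eventually.of_forall fun _ => norm_nonneg _)
          · exact (hki.const_mul _).add (hY2.div_const _)
          · exact Eventually.of_forall fun g => by simpa using hpt g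
      _ = δ / 2 * (∫ y, |k y| ∂(sphMeas d)) + (∫ g, Y g ^ 2 ∂(haar (d + 1))) / (2 * δ) := by
          rw [integral_add (hki.const_mul _) (hY2.div_const _), integral_const_mul, integral_div,
            integral_act hx hkm.abs]
      _ ≤ _ := by
          have h1 : ε * (∫ y, |h y| ∂(sphMeas d)) ≤ ε * (C1 * t ^ d) := by gcongr
          have h2 : ∫ g, Y g ^ 2 ∂(haar (d + 1)) ≤
              ε * (C1 * t ^ d) + 1 ^ 2 * (δ * ε1 / 2 * t ^ d) := by
            refine htts.trans ?_
            have h3 : (1 : ℝ) ^ 2 * ∫ y, |capAvg h (s * t) y| ∂(sphMeas d) ≤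
              1 ^ 2 * (δ * ε1 / 2 * t ^ d) := by gcongr
            linarith
          gcongr
  refine hfin.trans ?_
  have htd : 0 < t ^ d := by positivity
  have e1 : δ / 2 * C1 ≤ ε1 / 2 := by
    rw [hδ, div_mul_eq_mul_div, div_le_iff₀ (by norm_num), div_mul_eq_mul_div,
      div_le_iff₀ (by positivity)]
    nlinarith
  have e2 : ε * C1 / (2 * δ) ≤ ε1 / 4 := by
    rw [hε, div_le_iff₀ (by positivity), div_mul_eq_mul_div, div_le_iff₀ (by positivity)]
    have : 0 < δ * ε1 := by positivity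
    nlinarith
  have e3 : δ * ε1 / 2 / (2 * δ) = ε1 / 4 := by
    field_simp
    norm_num
  have e4 : δ / 2 * (C1 * t ^ d) + (ε * (C1 * t ^ d) + 1 ^ 2 * (δ * ε1 / 2 * t ^ d)) / (2 * δ) =
      (δ / 2 * C1 + ε * C1 / (2 * δ) + δ * ε1 / 2 / (2 * δ)) * t ^ d := by ring
  rw [e4, e3]
  apply mul_le_mul_of_nonneg_right _ htd.le
  linarith


end SphLim
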