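import Pool.Agent.SphLim.Word12

/-!
# The bound for a high moment
-/

open MeasureTheory Filter Topology Metric
open scoped ENNReal Pointwise RealInnerProductSpace Real

namespace SphLim

variable {n : ℕ}

lemma int_Bx_le (m : ℕ) {φ : (Fin m → ℝ) → ℝ} {C : ℝ} (hC : ∀ z, |φ z| ≤ C) :
    |∫ z in Bx m, φ z| ≤ (2 * π) ^ m * C := by
  have h1 := norm_integral_le_of_norm_le_const (μ := volume.restrict (Bx m))
    (f := φ) (C := C) (Eventually.of_forall fun z => by simpa using hC z)
  rw [Real.norm_eq_abs, measureReal_restrict_apply_univ, volume_Bx] at h1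
  linarith

section

variable {m : ℕ} {W : (Fin m → ℝ) → OG n} (hW : Continuous W)

include hW

lemma measurable_gXW (X : OG n) : Measurable fun q : OG n × (Fin m → ℝ) => q.1 * X * W q.2 :=
  ((continuous_fst.mul continuous_const).mul (hW.comp continuous_snd)).measurable

lemma integrable_z {f : OG n → ℝ} (hf : Measurable f) {C : ℝ} (hC : ∀ g, |f g| ≤ C) (g X : OG n) :
    Integrable (fun z => f (g * X * W z)) (volume.restrict (Bx m)) := by
  have h1 : Measurable fun z : Fin m → ℝ => g * X * W z := (continuous_const.mul hW).measurable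
  exact Integrable.of_bound (C := C) (hf.comp h1).aestronglyMeasurable
    (Eventually.of_forall fun z => by simpa using hC _)

lemma BM_phi {f : OG n → ℝ} (hf : Measurable f) {C : ℝ} (hC : ∀ g, |f g| ≤ C) (X : OG n) :
    BM fun g => ∫ z in Bx m, f (g * X * W z) :=
  ⟨((hf.comp (measurable_gXW hW X)).stronglyMeasurable.integral_prod_right').measurable,
    (2 * π) ^ m * C, fun g => int_Bx_le m fun z => hC _⟩

lemma swap_phi {f h : OG n → ℝ} (hf : Measurable f) {C : ℝ} (hC : ∀ g, |f g| ≤ C)
    (hh : Measurable h) {C' : ℝ} (hC' : ∀ g, |h g| ≤ C') (X : OG n) :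
    ∫ g, h g * (∫ z in Bx m, f (g * X * W z)) ∂(haar n) =
      ∫ z in Bx m, ∫ g, h g * f (g * X * W z) ∂(haar n) := by
  rw [← integral_integral_swap]
  · congr 1
    ext g
    rw [integral_const_mul]
  · refine Integrable.of_bound (C := C' * C) ?_ (Eventually.of_forall fun q => ?_)
    · exact ((hh.comp measurable_fst).mul (hf.comp (measurable_gXW hW X))).aestronglyMeasurable
    · rw [Real.norm_eq_abs]
      change |h q.1 * f (q.1 * X * W q.2)| ≤ C' * C
      rw [abs_mul]
      exact mul_le_mul (hC' _) (hC _) (abs_nonneg _) ((abs_nonneg _).trans (hC' q.1))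

/-- The integrated error. -/
lemma int_phi_abs {f : OG n → ℝ} (hf : Measurable f) {C : ℝ} (hC : ∀ g, |f g| ≤ C) (X : OG n) :
    ∫ g, (∫ z in Bx m, |f (g * X * W z)|) ∂(haar n) =
      (2 * π) ^ m * ∫ g, |f g| ∂(haar n) := by
  have h1 := swap_phi hW (f := fun g => |f g|) (h := fun _ => 1) hf.abs (C := C)
    (fun g => by rw [abs_abs]; exact hC g) measurable_const (C' := 1) (fun g => by simp) X
  simp only [one_mul] at h1
  rw [h1]
  have h2 : ∀ z, ∫ g, |f (g * X * W z)| ∂(haar n) = ∫ g, |f g| ∂(haar n) := by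
    intro z
    rw [← integral_haar_mul_right (f := fun g => |f g|) (X * W z)]
    simp only [mul_assoc]
  simp_rw [h2]
  rw [integral_const, smul_eq_mul, measureReal_restrict_apply_univ, volume_Bx]

theorem replace_bound {u w : OG n → ℝ} (hu : Measurable u) (hub : ∀ g, |u g| ≤ 1)
    (hw : Measurable w) (hwb : ∀ g, |w g| ≤ 1) {B η ε : ℝ} (hB : ∫ g, |u g| ∂(haar n) ≤ B)
    (hη : ∫ g, |u g - w g| ∂(haar n) ≤ η) (hε : 0 ≤ ε) (X : OG n)
    (hinv : ∀ g, |∫ z in Bx m, (w (g * X * W z) - w (g * 1 * W z))| ≤ ε) :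
    |∫ g, u g * (∫ z in Bx m, u (g * X * W z)) ∂(haar n) -
      ∫ g, u g * (∫ z in Bx m, u (g * 1 * W z)) ∂(haar n)| ≤ ε * B + 2 * (2 * π) ^ m * η := by
  have hd : Measurable fun g => u g - w g := hu.sub hw
  have hdb : ∀ g, |u g - w g| ≤ 2 := fun g => by
    have := abs_sub (u g) (w g)
    linarith [hub g, hwb g]
  have hua := BM_phi hW hu hub X
  have hu1 := BM_phi hW hu hub 1
  have hEX := BM_phi hW (f := fun g => |u g - w g|) hd.abs (C := 2)
    (fun g => by rw [abs_abs]; exact hdb g) X
  have hE1 := BM_phi hW (f := fun g => |u g - w g|) hd.abs (C := 2)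
    (fun g => by rw [abs_abs]; exact hdb g) 1
  have huB : BM u := ⟨hu, 1, hub⟩
  have hpt : ∀ g, |(∫ z in Bx m, u (g * X * W z)) - ∫ z in Bx m, u (g * 1 * W z)| ≤
      ε + ((∫ z in Bx m, |u (g * X * W z) - w (g * X * W z)|) +
        ∫ z in Bx m, |u (g * 1 * W z) - w (g * 1 * W z)|) := by
    intro g
    have e : (∫ z in Bx m, u (g * X * W z)) - ∫ z in Bx m, u (g * 1 * W z) =
        (∫ z in Bx m, (w (g * X * W z) - w (g * 1 * W z))) +
        ((∫ z in Bx m, (u (g * X * W z) - w (g * X * W z))) -
        ∫ z in Bx m, (u (g * 1 * W z) - w (g * 1 * W z))) := by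
      have i1 := integrable_z hW hu hub g X
      have i2 := integrable_z hW hu hub g 1
      have i3 := integrable_z hW hw hwb g X
      have i4 := integrable_z hW hw hwb g 1
      rw [integral_sub i3 i4, integral_sub i1 i3, integral_sub i2 i4]
      ring
    rw [e]
    refine (abs_add_le _ _).trans (add_le_add (hinv g) ?_)
    refine (abs_sub _ _).trans (add_le_add ?_ ?_)
    · rw [← Real.norm_eq_abs]
      exact norm_integral_le_integral_norm _
    · rw [← Real.norm_eq_abs]
      exact norm_integral_le_integral_norm _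
  rw [← integral_sub (huB.mul hua).integrable (huB.mul hu1).integrable, ← Real.norm_eq_abs]
  refine (norm_integral_le_integral_norm _).trans ?_
  have hua' : Integrable (fun g => ε * |u g|) (haar n) := huB.integrable.norm.const_mul _
  calc ∫ g, ‖u g * (∫ z in Bx m, u (g * X * W z)) - u g * ∫ z in Bx m, u (g * 1 * W z)‖ ∂(haar n)
      ≤ ∫ g, (ε * |u g| + ((∫ z in Bx m, |u (g * X * W z) - w (g * X * W z)|) +
        ∫ z in Bx m, |u (g * 1 * W z) - w (g * 1 * W z)|)) ∂(haar n) := by
        apply integral_mono_of_nonneg (Eventually.of_forall fun _ => norm_nonneg _)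
        · exact hua'.add (hEX.integrable.add hE1.integrable)
        · refine Eventually.of_forall fun g => ?_
          change ‖u g * (∫ z in Bx m, u (g * X * W z)) - u g * ∫ z in Bx m, u (g * 1 * W z)‖ ≤ _
          rw [← mul_sub, Real.norm_eq_abs, abs_mul]
          have h0 : 0 ≤ (∫ z in Bx m, |u (g * X * W z) - w (g * X * W z)|) +
              ∫ z in Bx m, |u (g * 1 * W z) - w (g * 1 * W z)| :=
            add_nonneg (integral_nonneg fun _ => abs_nonneg _)
              (integral_nonneg fun _ => abs_nonneg _)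
          calc _ ≤ |u g| * (ε + ((∫ z in Bx m, |u (g * X * W z) - w (g * X * W z)|) +
                ∫ z in Bx m, |u (g * 1 * W z) - w (g * 1 * W z)|)) :=
                mul_le_mul_of_nonneg_left (hpt g) (abs_nonneg _)
            _ = ε * |u g| + |u g| * ((∫ z in Bx m, |u (g * X * W z) - w (g * X * W z)|) +
                ∫ z in Bx m, |u (g * 1 * W z) - w (g * 1 * W z)|) := by ring
            _ ≤ _ := add_le_add_right (mul_le_of_le_one_left h0 (hub g)) _
    _ = ε * (∫ g, |u g| ∂(haar n)) + ((2 * π) ^ m * (∫ g, |u g - w g| ∂(haar n)) +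
        (2 * π) ^ m * ∫ g, |u g - w g| ∂(haar n)) := by
        have i5 : Integrable (fun g => (∫ z in Bx m, |u (g * X * W z) - w (g * X * W z)|) +
            ∫ z in Bx m, |u (g * 1 * W z) - w (g * 1 * W z)|) (haar n) :=
          hEX.integrable.add hE1.integrable
        rw [integral_add hua' i5,
          integral_add hEX.integrable hE1.integrable, integral_const_mul,
          int_phi_abs hW hd hdb X, int_phi_abs hW hd hdb 1]
    _ ≤ _ := by
        have h1 : ε * (∫ g, |u g| ∂(haar n)) ≤ ε * B := by gcongr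
        have h2 : (2 * π) ^ m * (∫ g, |u g - w g| ∂(haar n)) ≤ (2 * π) ^ m * η := by gcongr
        linarith

end

theorem moment_bound {K L : ℝ → OG n} (hK : Continuous K) (hL : Continuous L) {u : OG n → ℝ}
    (hu : Measurable u) (hub : ∀ g, |u g| ≤ 1) {B : ℝ} (hB : ∫ g, |u g| ∂(haar n) ≤ B) (N : ℕ)
    {J : ℕ} (hJ : 0 < J) (κ : Fin J → OG n) {ε e3 δ : ℝ} (hε : 0 ≤ ε) (he3 : 0 ≤ e3)
    (hδ : 0 < δ)
    (hinv : ∀ η > 0, ∃ w : OG n → ℝ, Measurable w ∧ (∀ g, |w g| ≤ 1) ∧
      ∫ g, |u g - w g| ∂(haar n) ≤ η ∧ ∀ g j, |∫ z in Bx (4 * N),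
        (w (g * κ j * Wd (4 * N) (pat L K) z) - w (g * 1 * Wd (4 * N) (pat L K) z))| ≤ ε)
    (hpair : ∀ j j', j ≠ j' → |∫ g, u (g * (κ j)⁻¹) * u (g * (κ j')⁻¹) ∂(haar n)| ≤ e3) :
    |mo K L u N| ≤ ε * B + (2 * π) ^ (4 * N) * ((B / J + e3) / (2 * δ) + δ * B / 2) := by
  set W : (Fin (4 * N) → ℝ) → OG n := Wd (4 * N) (pat L K) with hWdef
  have hW : Continuous W := continuous_Wd _ _ (pat_prop (p := Continuous) hL hK)
  set V : ℝ := (2 * π) ^ (4 * N) with hV
  have hV0 : 0 < V := by positivity
  have hJ0 : (0 : ℝ) < J := by exact_mod_cast hJ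
  have hB0 : 0 ≤ B := (integral_nonneg fun _ => abs_nonneg _).trans hB
  have huB : BM u := ⟨hu, 1, hub⟩
  have hmo : mo K L u N = ∫ g, u g * (∫ z in Bx (4 * N), u (g * 1 * W z)) ∂(haar n) := by
    unfold mo
    congr 1
    ext g
    rw [← IA_pat, IA_eq _ _ (pat_prop (p := Continuous) hL hK) u huB, mul_one]
  set A : Fin J → ℝ := fun j => ∫ g, u g * (∫ z in Bx (4 * N), u (g * κ j * W z)) ∂(haar n)
    with hA
  have hdiff : ∀ η > 0, ∀ j, |A j - mo K L u N| ≤ ε * B + 2 * V * η := by
    intro η hη j
    obtain ⟨w, hwm, hwb, hwη, hw⟩ := hinv η hη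
    rw [hmo]
    exact replace_bound hW hu hub hwm hwb hB hwη hε (κ j) (fun g => hw g j)
  set M : OG n → ℝ := fun g => ∑ j, u (g * (κ j)⁻¹) with hM
  have huk : ∀ X : OG n, BM fun g => u (g * X) := fun X =>
    ⟨hu.comp (continuous_mul_const X).measurable, 1, fun g => hub _⟩
  have hMm : Measurable M := Finset.measurable_sum _ fun j _ => (huk _).1
  have hMb : ∀ g, |M g| ≤ J := by
    intro g
    refine (Finset.abs_sum_le_sum_abs _ _).trans ?_
    calc ∑ j, |u (g * (κ j)⁻¹)| ≤ ∑ _j : Fin J, (1 : ℝ) := Finset.sum_le_sum fun j _ => hub _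
      _ = J := by simp
  have hAj : ∀ j, A j = ∫ z in Bx (4 * N), ∫ g, u (g * (κ j)⁻¹) * u (g * W z) ∂(haar n) := by
    intro j
    rw [hA]
    simp only
    rw [swap_phi hW hu hub hu hub (κ j)]
    congr 1
    ext z
    rw [← integral_haar_mul_right (f := fun g => u g * u (g * κ j * W z)) (κ j)⁻¹]
    congr 1
    ext g
    rw [inv_mul_cancel_right]
  have hsumA : ∑ j, A j = ∫ z in Bx (4 * N), ∫ g, M g * u (g * W z) ∂(haar n) := by
    simp_rw [hAj]
    rw [← integral_finsetSum]
    · congr 1
      ext z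
      rw [← integral_finsetSum]
      · congr 1
        ext g
        rw [hM]
        simp only
        rw [Finset.sum_mul]
      · intro j _
        exact ((huk _).mul (huk _)).integrable
    · intro j _
      have hm2 : Measurable fun q : (Fin (4 * N) → ℝ) × OG n =>
          u (q.2 * (κ j)⁻¹) * u (q.2 * W q.1) :=
        (hu.comp (continuous_snd.mul continuous_const).measurable).mul
          (hu.comp (continuous_snd.mul (hW.comp continuous_fst)).measurable)
      refine Integrable.of_bound (C := 1)
        (hm2.stronglyMeasurable.integral_prod_right').measurable.aestronglyMeasurable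
        (Eventually.of_forall fun z => ?_)
      have h1 := norm_integral_le_of_norm_le_const (μ := haar n)
        (f := fun g => u (g * (κ j)⁻¹) * u (g * W z)) (C := 1) (Eventually.of_forall fun g => by
          rw [norm_mul, Real.norm_eq_abs, Real.norm_eq_abs]
          exact mul_le_one₀ (hub _) (abs_nonneg _) (hub _))
      simpa using h1
  have hM2 : ∫ g, M g * M g ∂(haar n) ≤ J * B + J ^ 2 * e3 := by
    have h1 : ∫ g, M g * M g ∂(haar n) = ∑ j, ∑ j', ∫ g, u (g * (κ j)⁻¹) * u (g * (κ j')⁻¹)
        ∂(haar n) := by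
      have e : ∀ g, M g * M g = ∑ j, ∑ j', u (g * (κ j)⁻¹) * u (g * (κ j')⁻¹) := by
        intro g
        rw [hM]
        simp only
        rw [Finset.sum_mul_sum]
      simp_rw [e]
      rw [integral_finsetSum]
      · apply Finset.sum_congr rfl
        intro j _
        rw [integral_finsetSum]
        intro j' _
        exact ((huk _).mul (huk _)).integrable
      · intro j _
        exact integrable_finsetSum _ fun j' _ => ((huk _).mul (huk _)).integrable
    rw [h1]
    have h2 : ∀ j j', ∫ g, u (g * (κ j)⁻¹) * u (g * (κ j')⁻¹) ∂(haar n) ≤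
        (if j = j' then B else 0) + e3 := by
      intro j j'
      by_cases hjj : j = j'
      · rw [if_pos hjj, hjj]
        have h3 : ∫ g, u (g * (κ j')⁻¹) * u (g * (κ j')⁻¹) ∂(haar n) ≤
            ∫ g, |u (g * (κ j')⁻¹)| ∂(haar n) := by
          apply integral_mono ((huk _).mul (huk _)).integrable (huk _).integrable.norm
          intro g
          change u (g * (κ j')⁻¹) * u (g * (κ j')⁻¹) ≤ |u (g * (κ j')⁻¹)|
          rw [← abs_mul_abs_self]
          exact mul_le_of_le_one_left (abs_nonneg _) (hub _)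
        have h4 : ∫ g, |u (g * (κ j')⁻¹)| ∂(haar n) = ∫ g, |u g| ∂(haar n) :=
          integral_haar_mul_right (f := fun g => |u g|) (κ j')⁻¹
        linarith
      · rw [if_neg hjj, zero_add]
        exact (le_abs_self _).trans (hpair j j' hjj)
    calc ∑ j, ∑ j', ∫ g, u (g * (κ j)⁻¹) * u (g * (κ j')⁻¹) ∂(haar n) ≤
          ∑ j : Fin J, ∑ j' : Fin J, ((if j = j' then B else 0) + e3) :=
          Finset.sum_le_sum fun j _ => Finset.sum_le_sum fun j' _ => h2 j j'
      _ = J * B + J ^ 2 * e3 := by
          simp only [Finset.sum_add_distrib, Finset.sum_ite_eq, Finset.mem_univ, if_true,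
            Finset.sum_const, Finset.card_univ, Fintype.card_fin, nsmul_eq_mul]
          ring
  have hMB : BM M := ⟨hMm, J, hMb⟩
  have hsumb : |∑ j, A j| ≤ V * ((J * B + J ^ 2 * e3) / (2 * (δ * J)) + δ * J / 2 * B) := by
    rw [hsumA]
    refine int_Bx_le _ fun z => ?_
    rw [← Real.norm_eq_abs]
    refine (norm_integral_le_integral_norm _).trans ?_
    have hδJ : 0 < δ * J := by positivity
    calc ∫ g, ‖M g * u (g * W z)‖ ∂(haar n) ≤
        ∫ g, (M g * M g / (2 * (δ * J)) + δ * J / 2 * |u (g * W z)|) ∂(haar n) := by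
          apply integral_mono_of_nonneg (Eventually.of_forall fun _ => norm_nonneg _)
          · exact ((hMB.mul hMB).integrable.div_const _).add
              ((huk _).integrable.norm.const_mul _)
          · refine Eventually.of_forall fun g => ?_
            change ‖M g * u (g * W z)‖ ≤ M g * M g / (2 * (δ * J)) + δ * J / 2 * |u (g * W z)|
            rw [norm_mul, Real.norm_eq_abs, Real.norm_eq_abs]
            have h4 : |M g| * |u (g * W z)| ≤ |M g| ^ 2 / (2 * (δ * J)) +
                δ * J / 2 * |u (g * W z)| ^ 2 := by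
              rw [← sub_nonneg]
              have h5 : |M g| ^ 2 / (2 * (δ * J)) + δ * J / 2 * |u (g * W z)| ^ 2 -
                  |M g| * |u (g * W z)| = (|M g| - δ * J * |u (g * W z)|) ^ 2 / (2 * (δ * J)) := by
                field_simp
                ring
              rw [h5]
              positivity
            have h6 : |u (g * W z)| ^ 2 ≤ |u (g * W z)| := by
              have := hub (g * W z)
              nlinarith [abs_nonneg (u (g * W z))]
            have h7 : M g * M g = |M g| ^ 2 := by rw [sq_abs, sq]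
            rw [h7]
            refine h4.trans ?_
            gcongr
      _ = (∫ g, M g * M g ∂(haar n)) / (2 * (δ * J)) +
          δ * J / 2 * ∫ g, |u (g * W z)| ∂(haar n) := by
          have i6 : Integrable (fun g => δ * J / 2 * |u (g * W z)|) (haar n) :=
            (huk _).integrable.norm.const_mul _
          rw [integral_add ((hMB.mul hMB).integrable.div_const _) i6, integral_div,
            integral_const_mul]
      _ ≤ _ := by
          rw [integral_haar_mul_right (f := fun g => |u g|) (W z)]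
          gcongr
  have hkey : ∀ η > 0, |mo K L u N| ≤ (ε * B + V * ((B / J + e3) / (2 * δ) + δ * B / 2)) +
      2 * V * η := by
    intro η hη
    have h1 : (J : ℝ) * |mo K L u N| ≤ J * (ε * B + 2 * V * η) +
        V * ((J * B + J ^ 2 * e3) / (2 * (δ * J)) + δ * J / 2 * B) := by
      have e : (J : ℝ) * mo K L u N = ∑ j, A j - ∑ j, (A j - mo K L u N) := by
        rw [Finset.sum_sub_distrib, Finset.sum_const, Finset.card_univ, Fintype.card_fin,
          nsmul_eq_mul]
        ring
      calc (J : ℝ) * |mo K L u N| = |(J : ℝ) * mo K L u N| := by rw [abs_mul, abs_of_pos hJ0]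
        _ ≤ |∑ j, A j| + |∑ j, (A j - mo K L u N)| := by rw [e]; exact abs_sub _ _
        _ ≤ V * ((J * B + J ^ 2 * e3) / (2 * (δ * J)) + δ * J / 2 * B) +
            ∑ j : Fin J, (ε * B + 2 * V * η) := by
            refine add_le_add hsumb ?_
            refine (Finset.abs_sum_le_sum_abs _ _).trans ?_
            exact Finset.sum_le_sum fun j _ => hdiff η hη j
        _ = _ := by
            rw [Finset.sum_const, Finset.card_univ, Fintype.card_fin, nsmul_eq_mul]
            ring
    have h2 : (J : ℝ) * |mo K L u N| ≤ J * ((ε * B + V * ((B / J + e3) / (2 * δ) + δ * B / 2)) +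
        2 * V * η) := by
      refine h1.trans (le_of_eq ?_)
      field_simp
      ring
    exact le_of_mul_le_mul_left h2 hJ0
  refine le_of_forall_pos_le_add fun η hη => ?_
  have h3 := hkey (η / (2 * V)) (by positivity)
  have h4 : 2 * V * (η / (2 * V)) = η := by field_simp
  rw [h4] at h3
  exact h3

end SphLim
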