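import Pool.Agent.SphLim.Word13

/-!
# Cauchy-Schwarz for the pair of invariances, and the product function of a pair
-/

open MeasureTheory Filter Topology Metric
open scoped ENNReal Pointwise RealInnerProductSpace Real

namespace SphLim

variable {n : ℕ}

theorem pair_cs {K L : ℝ → OG n} (hK : Continuous K) (hL : Continuous L)
    (hK2 : ∀ θ, K (2 * π - θ) = (K θ)⁻¹) (hL2 : ∀ θ, L (2 * π - θ) = (L θ)⁻¹)
    {H u : OG n → ℝ} (hH : BM H) (hu : BM u) (hLH : ∀ g θ, H (g * L θ) = H g)
    (hKu : ∀ g θ, u (g * K θ) = u g) :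
    (∫ g, H g * u g ∂(haar n)) ^ 2 ≤ (∫ g, H g * H g ∂(haar n)) * mo K L u 1 := by
  have h2π : (1 : ℝ) ≤ (2 * π) ^ 2 := by nlinarith [Real.pi_gt_three]
  have hvol : (volume.restrict (Set.Icc (0 : ℝ) (2 * π))).real Set.univ = 2 * π := by
    rw [Measure.real, Measure.restrict_apply_univ, Real.volume_Icc, sub_zero,
      ENNReal.toReal_ofReal (by positivity)]
  have hAH : Av L H = fun g => 2 * π * H g := by
    ext g
    unfold Av
    simp_rw [hLH]
    rw [integral_const, hvol, smul_eq_mul]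
  have hAu : Av K u = fun g => 2 * π * u g := by
    ext g
    unfold Av
    simp_rw [hKu]
    rw [integral_const, hvol, smul_eq_mul]
  have hAc : Av L (fun g => 2 * π * u g) = fun g => 2 * π * Av L u g := by
    ext g
    unfold Av
    rw [integral_const_mul]
  have hLu := hu.av hL
  have e1 : ∫ g, H g * Av L u g ∂(haar n) = 2 * π * ∫ g, H g * u g ∂(haar n) := by
    rw [Av_symm hL hL2 hH hu, hAH, ← integral_const_mul]
    congr 1
    ext g
    ring
  have e2 : mo K L u 1 = (2 * π) ^ 2 * ∫ g, Av L u g * Av L u g ∂(haar n) := by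
    have h1 : BM (Av K u) := hu.av hK
    unfold mo
    rw [Function.iterate_one]
    unfold Dk
    rw [Av_symm hK hK2 hu ((h1.av hL).av hL), Av_symm hL hL2 h1 (h1.av hL), hAu, hAc,
      ← integral_const_mul]
    congr 1
    ext g
    ring
  have h1 := cs_int hH hLu
  rw [e1] at h1
  set T := ∫ g, H g * u g ∂(haar n) with hT
  set A := ∫ g, H g * H g ∂(haar n) with hA
  set Q := ∫ g, Av L u g * Av L u g ∂(haar n) with hQ
  have hA0 : 0 ≤ A := integral_nonneg fun g => mul_self_nonneg _
  have hQ0 : 0 ≤ Q := integral_nonneg fun g => mul_self_nonneg _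
  rw [e2]
  have hAQ : 0 ≤ A * Q := mul_nonneg hA0 hQ0
  calc T ^ 2 ≤ (2 * π) ^ 2 * T ^ 2 := by nlinarith [sq_nonneg T]
    _ = (2 * π * T) ^ 2 := by ring
    _ ≤ A * Q := h1
    _ ≤ (2 * π) ^ 2 * (A * Q) := by nlinarith
    _ = A * ((2 * π) ^ 2 * Q) := by ring

theorem mo_one_le {K L : ℝ → OG n} (hK : Continuous K) (hL : Continuous L)
    (hK2 : ∀ θ, K (2 * π - θ) = (K θ)⁻¹) (hL2 : ∀ θ, L (2 * π - θ) = (L θ)⁻¹)
    {u : OG n → ℝ} (hu : BM u) {B E e : ℝ} (h0 : mo K L u 0 ≤ B) (k : ℕ)
    (hE : |mo K L u (2 ^ k)| ≤ E) (he : 0 ≤ e) (hBE : B ^ (2 ^ k - 1) * E ≤ e ^ 2 ^ k) :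
    mo K L u 1 ≤ e := by
  have hB : 0 ≤ B := by
    refine le_trans ?_ h0
    exact integral_nonneg fun g => mul_self_nonneg (u g)
  have h1 := mo_pow hK hL hK2 hL2 hu h0 k
  have h2 : mo K L u 1 ^ 2 ^ k ≤ e ^ 2 ^ k := by
    refine h1.trans (le_trans ?_ hBE)
    gcongr
  have hne : 2 ^ k ≠ 0 := (Nat.two_pow_pos k).ne'
  by_contra hlt
  push Not at hlt
  exact absurd h2 (not_le.2 (pow_lt_pow_left₀ hlt he hne))

section

variable {d : ℕ}

lemma Ep_mul {h F : Eu (d + 1) → ℝ} (a y : Eu (d + 1)) (g X : OG (d + 1)) :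
    Ep h F a y (g * X) = h (act g (act X a)) * F (act g (act X y)) := by
  unfold Ep
  rw [act_mul, act_mul]

/-- Approximation of the pair function by a smooth pair function. -/
lemma Ep_approx {h F : Eu (d + 1) → ℝ} (hm : Measurable h) (hb : ∀ y, |h y| ≤ 1)
    (hFm : Measurable F) (hFb : ∀ y, |F y| ≤ 1) {a y : Eu (d + 1)} (ha : ‖a‖ = 1)
    (hy : ‖y‖ = 1) {η : ℝ} (hη : 0 < η) :
    ∃ h' F' : Eu (d + 1) → ℝ, Differentiable ℝ h' ∧ (∀ y, |h' y| ≤ 1) ∧ Differentiable ℝ F' ∧
      (∀ y, |F' y| ≤ 1) ∧ Measurable (Ep h' F' a y) ∧ (∀ g, |Ep h' F' a y g| ≤ 1) ∧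
      ∫ g, |Ep h F a y g - Ep h' F' a y g| ∂(haar (d + 1)) ≤ η := by
  obtain ⟨h', hd, hb', hh'⟩ := smooth_approx (sphMeas d) hm hb (half_pos hη)
  obtain ⟨F', hFd, hFb', hF'⟩ := smooth_approx (sphMeas d) hFm hFb (half_pos hη)
  have hm' : Measurable h' := hd.continuous.measurable
  have hFm' : Measurable F' := hFd.continuous.measurable
  have hwb : ∀ g, |Ep h' F' a y g| ≤ 1 := fun g => (abs_Ep_le hFb' a y g).trans (hb' _)
  refine ⟨h', F', hd, hb', hFd, hFb', measurable_Ep hm' hFm' a y, hwb, ?_⟩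
  have i1 : Integrable (fun g => |h (act g a) - h' (act g a)|) (haar (d + 1)) :=
    integrable_bdd ((hm.comp (measurable_act_left a)).sub (hm'.comp (measurable_act_left a))).abs
      (C := 2) (fun g => by
        rw [abs_abs]
        have := abs_sub (h (act g a)) (h' (act g a))
        linarith [hb (act g a), hb' (act g a)])
  have i2 : Integrable (fun g => |F (act g y) - F' (act g y)|) (haar (d + 1)) :=
    integrable_bdd ((hFm.comp (measurable_act_left y)).sub (hFm'.comp (measurable_act_left y))).abs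
      (C := 2) (fun g => by
        rw [abs_abs]
        have := abs_sub (F (act g y)) (F' (act g y))
        linarith [hFb (act g y), hFb' (act g y)])
  calc ∫ g, |Ep h F a y g - Ep h' F' a y g| ∂(haar (d + 1)) ≤
      ∫ g, (|h (act g a) - h' (act g a)| + |F (act g y) - F' (act g y)|) ∂(haar (d + 1)) := by
        apply integral_mono_of_nonneg (Eventually.of_forall fun _ => abs_nonneg _)
        · exact i1.add i2
        · refine Eventually.of_forall fun g => ?_
          change |h (act g a) * F (act g y) - h' (act g a) * F' (act g y)| ≤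
            |h (act g a) - h' (act g a)| + |F (act g y) - F' (act g y)|
          have e : h (act g a) * F (act g y) - h' (act g a) * F' (act g y) =
              (h (act g a) - h' (act g a)) * F (act g y) +
              h' (act g a) * (F (act g y) - F' (act g y)) := by ring
          rw [e]
          refine (abs_add_le _ _).trans (add_le_add ?_ ?_)
          · rw [abs_mul]
            exact mul_le_of_le_one_right (abs_nonneg _) (hFb _)
          · rw [abs_mul]
            exact mul_le_of_le_one_left (abs_nonneg _) (hb' _)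
    _ = (∫ x, |h x - h' x| ∂(sphMeas d)) + ∫ x, |F x - F' x| ∂(sphMeas d) := by
        rw [integral_add i1 i2, integral_act (f := fun x => |h x - h' x|) ha (hm.sub hm').abs,
          integral_act (f := fun x => |F x - F' x|) hy (hFm.sub hFm').abs]
    _ ≤ η := by linarith

end

end SphLim
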