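import Pool.Agent.SphLim.Word14

/-!
# Smallness of a high moment for a tetrahedron
-/

open MeasureTheory Filter Topology Metric
open scoped ENNReal Pointwise RealInnerProductSpace Real

namespace SphLim

lemma pat_rr {t : ℝ} (ht : t ≠ 0) {X Y : A4} (hX : X ∈ gg (t ^ 2)) (hX3 : X * X * X = -X)
    (hY : Y ∈ gg (t ^ 2)) (hY3 : Y * Y * Y = -Y) : ∀ (j : ℕ) (θ : ℝ),
    ((pat (rr ht hX hX3) (rr ht hY hY3) j θ : OG (3 + 1)) : Eu (3 + 1) →L[ℝ] Eu (3 + 1)) =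
      un t (EE (pat X Y j) θ)
  | 0, _ => rfl
  | 1, _ => rfl
  | 2, _ => rfl
  | 3, _ => rfl
  | j + 4, θ => pat_rr ht hX hX3 hY hY3 j θ

lemma word_apply {t : ℝ} (ht : t ≠ 0) {X Y Z : A4} (hX : X ∈ gg (t ^ 2)) (hX3 : X * X * X = -X)
    (hY : Y ∈ gg (t ^ 2)) (hY3 : Y * Y * Y = -Y) (hZ : Z ∈ gg (t ^ 2)) (hZ3 : Z * Z * Z = -Z)
    (m : ℕ) (σ : ℝ) (z : Fin m → ℝ) (g : OG (3 + 1)) (u : E4) :
    act (g * rr ht hZ hZ3 σ * Wd m (pat (rr ht hX hX3) (rr ht hY hY3)) z) (JJ t u) =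
      act g (JJ t ((EE Z σ * WW m (pat X Y) z) u)) := by
  rw [act_mul, act_mul, act_Wd ht m (pat X Y) _ (pat_rr ht hX hX3 hY hY3), act_rr]
  rfl

lemma word_apply_one {t : ℝ} (ht : t ≠ 0) {X Y : A4} (hX : X ∈ gg (t ^ 2))
    (hX3 : X * X * X = -X) (hY : Y ∈ gg (t ^ 2)) (hY3 : Y * Y * Y = -Y)
    (m : ℕ) (z : Fin m → ℝ) (g : OG (3 + 1)) (u : E4) :
    act (g * 1 * Wd m (pat (rr ht hX hX3) (rr ht hY hY3)) z) (JJ t u) =
      act g (JJ t ((WW m (pat X Y) z) u)) := by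
  rw [mul_one, act_mul, act_Wd ht m (pat X Y) _ (pat_rr ht hX hX3 hY hY3)]

/-- The pair of generators for two points. -/
noncomputable def rx {t : ℝ} (ρ : ℝ) (ht : t ≠ 0) {n1 n2 : Eu 3} (h1 : ‖n1‖ = 1) (h2 : ‖n2‖ = 1)
    (h12 : ⟪n1, n2⟫ = 0) (x : Eu 3) : ℝ → OG (3 + 1) :=
  rr ht (X := XL n1 n2 (pv ρ n2 x t)) (XL_mem_gg n1 n2 (pv ρ n2 x t))
    (XL_cube h1 h2 h12 (pv_rel ρ n2 x t))

theorem Tet.moment {a b c e : Eu 3} (h : Tet a b c e) {ρ : ℝ} (hρ : 0 < ρ) (ha : ‖a‖ = ρ)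
    (hb : ‖b‖ = ρ) {m1 m2 n1 n2 q1 q2 : Eu 3}
    (hm1 : ‖m1‖ = 1)
    (hm2 : ‖m2‖ = 1) (hm12 : ⟪m1, m2⟫ = 0) (hma : ⟪m1, a⟫ = 0) (hmb : ⟪m1, b⟫ = 0)
    (hmab : ⟪m2, a⟫ = ⟪m2, b⟫) (hn1 : ‖n1‖ = 1) (hn2 : ‖n2‖ = 1) (hn12 : ⟪n1, n2⟫ = 0)
    (hnc : ⟪n1, c⟫ = 0) (hne : ⟪n1, e⟫ = 0) (hnce : ⟪n2, c⟫ = ⟪n2, e⟫) (hq1 : ‖q1‖ = 1)
    (hq2 : ‖q2‖ = 1) (hq12 : ⟪q1, q2⟫ = 0) (hqb : ⟪q1, b⟫ = 0) (hqc : ⟪q1, c⟫ = 0)
    (hqbc : ⟪q2, b⟫ = ⟪q2, c⟫) :
    ∃ N0 : ℕ, ∀ N, N0 ≤ N → ∀ C1 ε4 : ℝ, 0 ≤ C1 → 0 < ε4 → ∃ s1 > 0, ∃ δ1 > 0, ∃ t0 > 0,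
      ∀ (t : ℝ) (ht : 0 < t), t < t0 → ∀ s : ℝ, 0 < s → s ≤ s1 → ∀ f F : Eu (3 + 1) → ℝ,
      Measurable f → (∀ y, |f y| ≤ 1) → Measurable F → (∀ y, |F y| ≤ 1) →
      ∫ y, |f y| ∂(sphMeas 3) ≤ C1 * t ^ 3 →
      ∫ y, |capAvg f (s * t) y| ∂(sphMeas 3) ≤ δ1 * t ^ 3 →
      |mo (rx ρ ht.ne' hm1 hm2 hm12 a) (rx ρ ht.ne' hn1 hn2 hn12 c)
        (Ep f F (bw ρ t a) (bw ρ t b)) N| ≤ ε4 * t ^ 3 := by
  obtain ⟨N0, hN0⟩ := h.inv ρ hm1 hm2 hm12 hma hmb hmab hn1 hn2 hn12 hnc hne hnce hq1 hq2 hq12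
  refine ⟨N0, fun N hN C1 ε4 hC1 hε4 => ?_⟩
  set cq : ℝ := Real.sqrt ((⟪q2, b⟫ - ⟪q2, a⟫) ^ 2 + ⟪q1, a⟫ ^ 2) with hcq
  have hmv := h.move_ne hq1 hq2 hq12 hqb hqc hqbc
  have hcq0 : 0 < cq := Real.sqrt_pos.2 hmv
  have hcq2 : cq ^ 2 ≤ (⟪q2, b⟫ - ⟪q2, a⟫) ^ 2 + ⟪q1, a⟫ ^ 2 := by
    rw [hcq, Real.sq_sqrt hmv.le]
  set C2 : ℝ := C1 + 1 with hC2
  have hC20 : 0 < C2 := by positivity
  set V : ℝ := (2 * π) ^ (4 * N) with hV
  have hV0 : 0 < V := by positivity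
  set δ : ℝ := ε4 / (2 * V * C2) with hδ
  have hδ0 : 0 < δ := by positivity
  set J : ℕ := ⌈2 * V * C2 / (δ * ε4)⌉₊ + 1 with hJ
  have hJ1 : 0 < J := Nat.succ_pos _
  have hJ0 : (0 : ℝ) < J := by exact_mod_cast hJ1
  have hJC : 2 * V * C2 / (δ * ε4) ≤ J := by
    have h1 := Nat.le_ceil (2 * V * C2 / (δ * ε4))
    rw [hJ]
    push_cast
    linarith
  set eb : ℝ := ε4 * δ / (2 * V) with heb
  have heb0 : 0 < eb := by positivity
  obtain ⟨s0, hs0, t1, ht1, hinv⟩ := hN0 N hN (ε4 / (4 * C2)) (by positivity)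
  set β : ℝ := min s0 1 with hβ
  have hβ0 : 0 < β := by positivity
  have hβ1 : β ≤ 1 := min_le_right _ _
  have hβs : β ≤ s0 := min_le_left _ _
  set c' : ℝ := β / J / 2 * (1 / 2 * cq) with hc'
  have hc'0 : 0 < c' := by positivity
  obtain ⟨s1, hs1, δ1, hδ1, hpairs⟩ := inv_small2 (d := 3) (by norm_num) hc'0 hC1 heb0
  -- the parameter is at least one half
  have hev : ∀ᶠ t in 𝓝[>] (0 : ℝ), 1 / 2 < (pv ρ q2 b t).2.2 := by
    have h1 : Tendsto (fun t => (pv ρ q2 b t).2.2) (𝓝[>] 0) (𝓝 1) :=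
      (((tendsto_pv ρ q2 b).mono_left nhdsWithin_le_nhds).snd_nhds).snd_nhds
    exact h1.eventually (lt_mem_nhds (by norm_num))
  rw [Filter.Eventually, mem_nhdsGT_iff_exists_Ioo_subset] at hev
  obtain ⟨t2, ht2, hsub⟩ := hev
  refine ⟨s1, hs1, δ1, hδ1, min t1 (min t2 (1 / (2 * (ρ + 1)))), ?_, ?_⟩
  · have : (0 : ℝ) < t2 := ht2
    positivity
  intro t ht htt s hs hss f F hfm hfb hFm hFb hN1 hC
  have htt1 : t < t1 := lt_of_lt_of_le htt (min_le_left _ _)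
  have htt2 : t < t2 := lt_of_lt_of_le htt ((min_le_right _ _).trans (min_le_left _ _))
  have htt3 : t < 1 / (2 * (ρ + 1)) := lt_of_lt_of_le htt
    ((min_le_right _ _).trans (min_le_right _ _))
  have htρ1 : t * (2 * (ρ + 1)) < 1 := by
    rwa [lt_div_iff₀ (by positivity)] at htt3
  have htρ0 : 0 < t * ρ := by positivity
  have htρ : t * ρ ≤ 1 / 2 := by nlinarith
  have hhgt : hgt ρ t ≠ 0 := by
    have := hgt_ge (ρ := ρ) (t := t) (by linarith) htρ0.le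
    have h2 : 0 < hgt ρ t := by linarith
    exact h2.ne'
  have hιq : 1 / 2 < (pv ρ q2 b t).2.2 := hsub ⟨ht, htt2⟩
  have htd : 0 < t ^ 3 := by positivity
  set va : Eu (3 + 1) := bw ρ t a with hva
  set vb : Eu (3 + 1) := bw ρ t b with hvb
  have hvan : ‖va‖ = 1 := norm_bw (by linarith) htρ0.le ha
  have hvbn : ‖vb‖ = 1 := norm_bw (by linarith) htρ0.le hb
  have hvaJ : va = JJ t (hgt ρ t, a) := rfl
  have hvbJ : vb = JJ t (hgt ρ t, b) := rfl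
  have hXg : XL n1 n2 (pv ρ n2 c t) ∈ gg (t ^ 2) := XL_mem_gg n1 n2 (pv ρ n2 c t)
  have hX3 := XL_cube hn1 hn2 hn12 (pv_rel ρ n2 c t)
  have hYg : XL m1 m2 (pv ρ m2 a t) ∈ gg (t ^ 2) := XL_mem_gg m1 m2 (pv ρ m2 a t)
  have hY3 := XL_cube hm1 hm2 hm12 (pv_rel ρ m2 a t)
  have hZg : XL q1 q2 (pv ρ q2 b t) ∈ gg (t ^ 2) := XL_mem_gg q1 q2 (pv ρ q2 b t)
  have hZ3 := XL_cube hq1 hq2 hq12 (pv_rel ρ q2 b t)
  set Z : A4 := XL q1 q2 (pv ρ q2 b t) with hZ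
  set u : OG (3 + 1) → ℝ := Ep f F va vb with hu
  have hum : Measurable u := measurable_Ep hfm hFm va vb
  have hub : ∀ g, |u g| ≤ 1 := fun g => (abs_Ep_le hFb va vb g).trans (hfb _)
  have huB : ∫ g, |u g| ∂(haar (3 + 1)) ≤ C2 * t ^ 3 := by
    calc ∫ g, |u g| ∂(haar (3 + 1)) ≤ ∫ g, |f (act g va)| ∂(haar (3 + 1)) := by
          apply integral_mono_of_nonneg (Eventually.of_forall fun _ => abs_nonneg _)
          · exact integrable_bdd (hfm.abs.comp (measurable_act_left va)) (C := 1)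
              (fun g => by rw [abs_abs]; exact hfb _)
          · exact Eventually.of_forall fun g => abs_Ep_le hFb va vb g
      _ = ∫ y, |f y| ∂(sphMeas 3) := integral_act hvan hfm.abs
      _ ≤ C1 * t ^ 3 := hN1
      _ ≤ C2 * t ^ 3 := by gcongr; linarith
  set σ : Fin J → ℝ := fun j => β * ((j : ℕ) : ℝ) / J with hσ
  have hσ0 : ∀ j, 0 ≤ σ j := fun j => by rw [hσ]; positivity
  have hσβ : ∀ j, σ j ≤ β := by
    intro j
    rw [hσ]
    simp only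
    rw [div_le_iff₀ hJ0]
    have : ((j : ℕ) : ℝ) ≤ J := by exact_mod_cast j.2.le
    gcongr
  have hZb : Z (hgt ρ t, b) = 0 := XL_kill hhgt hqb rfl
  have hfix : ∀ θ, act (rr ht.ne' hZg hZ3 θ) vb = vb := fun θ => rr_fix ht.ne' hZg hZ3 hZb θ
  have hmb := moment_bound (K := rx ρ ht.ne' hm1 hm2 hm12 a) (L := rx ρ ht.ne' hn1 hn2 hn12 c)
    (continuous_rr _ _ _) (continuous_rr _ _ _) hum hub huB N hJ1
    (fun j => rr ht.ne' hZg hZ3 (σ j)) (ε := ε4 / (4 * C2)) (e3 := eb * t ^ 3) (δ := δ)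
    (by positivity) (by positivity) hδ0 ?_ ?_
  · refine hmb.trans ?_
    rw [← hV]
    have e1 : ε4 / (4 * C2) * (C2 * t ^ 3) + V * ((C2 * t ^ 3 / J + eb * t ^ 3) / (2 * δ) +
        δ * (C2 * t ^ 3) / 2) = (ε4 / 4 + V * C2 / J / (2 * δ) + V * eb / (2 * δ) +
          V * δ * C2 / 2) * t ^ 3 := by
      field_simp
      ring
    rw [e1]
    apply mul_le_mul_of_nonneg_right _ htd.le
    have k1 : V * C2 / J / (2 * δ) ≤ ε4 / 4 := by
      rw [div_le_iff₀ (by positivity)] at hJC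
      rw [div_div, div_le_iff₀ (by positivity)]
      nlinarith
    have k2 : V * eb / (2 * δ) = ε4 / 4 := by
      rw [heb]
      field_simp
      norm_num
    have k3 : V * δ * C2 / 2 = ε4 / 4 := by
      rw [hδ]
      field_simp
      norm_num
    rw [k2, k3]
    linarith
  · intro η hη
    obtain ⟨f', F', hfd, hfb', hFd, hFb', hwm, hwb, hw⟩ := Ep_approx hfm hfb hFm hFb hvan hvbn hη
    refine ⟨Ep f' F' va vb, hwm, hwb, hw, fun g j => ?_⟩
    set G : A4 → ℝ := fun B => f' (act g (JJ t (B (hgt ρ t, a)))) *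
      F' (act g (JJ t (B (hgt ρ t, b)))) with hG
    have hlin : ∀ w : E4, Differentiable ℝ fun B : A4 => act g (JJ t (B w)) := by
      intro w
      have e2 : (fun B : A4 => act g (JJ t (B w))) =
          (((g : Eu (3 + 1) →L[ℝ] Eu (3 + 1)).comp (JJ t)).comp
            (ContinuousLinearMap.apply ℝ E4 w)) := by
        ext B : 1
        rfl
      rw [e2]
      exact ContinuousLinearMap.differentiable _
    have hGd : Differentiable ℝ G := (hfd.comp (hlin _)).mul (hFd.comp (hlin _))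
    have hGb : ∀ B, |G B| ≤ 1 := by
      intro B
      rw [hG]
      simp only
      rw [abs_mul]
      exact mul_le_one₀ (hfb' _) (abs_nonneg _) (hFb' _)
    have h5 := hinv t ht htt1 G hGd (fun s z => hGb _) (σ j) (hσ0 j) ((hσβ j).trans hβs)
    refine le_trans (le_of_eq ?_) h5
    congr 2
    ext z
    rw [hG]
    unfold Ep
    simp only
    congr 1
    · congr 1
      · congr 1
        rw [hvaJ]
        exact word_apply ht.ne' hXg hX3 hYg hY3 hZg hZ3 (4 * N) (σ j) z g _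
      · congr 1
        rw [hvbJ]
        exact word_apply ht.ne' hXg hX3 hYg hY3 hZg hZ3 (4 * N) (σ j) z g _
    · congr 1
      · congr 1
        rw [hvaJ]
        exact word_apply_one ht.ne' hXg hX3 hYg hY3 (4 * N) z g _
      · congr 1
        rw [hvbJ]
        exact word_apply_one ht.ne' hXg hX3 hYg hY3 (4 * N) z g _
  · intro j j' hjj
    set R : OG (3 + 1) := rr ht.ne' hZg hZ3 (σ j - σ j') with hR
    have e3 : ∫ g, u (g * (rr ht.ne' hZg hZ3 (σ j))⁻¹) * u (g * (rr ht.ne' hZg hZ3 (σ j'))⁻¹)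
        ∂(haar (3 + 1)) = ∫ g, (F (act g vb) * (f (act g (act R va)) * F (act g vb))) *
          f (act g va) ∂(haar (3 + 1)) := by
      rw [← integral_haar_mul_right (f := fun g => u (g * (rr ht.ne' hZg hZ3 (σ j))⁻¹) *
        u (g * (rr ht.ne' hZg hZ3 (σ j'))⁻¹)) (rr ht.ne' hZg hZ3 (σ j))]
      congr 1
      ext g
      rw [mul_inv_cancel_right, mul_assoc g, rr_inv, rr_mul]
      have e4 : σ j + -σ j' = σ j - σ j' := by ring
      rw [e4, ← hR, hu, Ep_mul]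
      have e5 : act R vb = vb := hfix _
      rw [e5]
      unfold Ep
      ring
    rw [e3]
    set v : Fin 3 → Eu (3 + 1) := ![va, vb, act R va] with hv
    have hRn : ‖act R va‖ = 1 := by rw [norm_act]; exact hvan
    have h6 := hpairs s hs hss t ht f f (fun g => F (act g vb) * (f (act g (act R va)) *
      F (act g vb))) (act R va) hfm hfb hfm hfb
      ((hFm.comp (measurable_act_left vb)).mul ((hfm.comp (measurable_act_left _)).mul
        (hFm.comp (measurable_act_left vb)))) hRn ?_ hN1 hN1 hC 3 v {1, 2} 0 (by decide) hvan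
      ?_ ?_
    · exact h6
    · intro g
      rw [abs_mul, abs_mul]
      calc |F (act g vb)| * (|f (act g (act R va))| * |F (act g vb)|) ≤
            1 * (|f (act g (act R va))| * 1) := by
            apply mul_le_mul (hFb _) _ (by positivity) zero_le_one
            exact mul_le_mul_of_nonneg_left (hFb _) (abs_nonneg _)
        _ = |f (act g (act R va))| := by ring
    · intro z hz
      obtain ⟨α, hα⟩ := exists_coeff hz
      rw [← hα]
      have e6 : ∑ l ∈ ({1, 2} : Finset (Fin 3)), α l • v l = α 1 • vb + α 2 • act R va := by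
        rw [Finset.sum_insert (by decide), Finset.sum_singleton]
        rfl
      rw [e6]
      change c' * t ≤ ‖va - (α 1 • vb + α 2 • act R va)‖
      have h7 := rr_dist ht.ne' hZg hZ3 (u := (hgt ρ t, a)) (w := (hgt ρ t, b)) hZb
        (σ j - σ j') (α 1) (α 2)
      have h8 := XL_move ht (x := b) (y := a) hhgt hq1 hq2 hq12 hcq0.le hcq2
      have h9 := fin_sub_ge hJ1 hjj hβ0
      have h10 : |σ j - σ j'| / 2 ≤ |Real.sin (σ j - σ j')| := abs_sin_ge (h9.2.trans hβ1)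
      refine le_trans ?_ h7
      calc c' * t = (β / J / 2) * (1 / 2 * cq * t) := by rw [hc']; ring
        _ ≤ |Real.sin (σ j - σ j')| * ((pv ρ q2 b t).2.2 * cq * t) := by
            have h11 : β / J / 2 ≤ |Real.sin (σ j - σ j')| := by
              refine le_trans ?_ h10
              have := h9.1
              change β / J / 2 ≤ |σ j - σ j'| / 2
              linarith
            gcongr
        _ ≤ |Real.sin (σ j - σ j')| * ‖JJ t (Z (hgt ρ t, a))‖ := by gcongr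
    · intro g Q hQ
      have hQ1 : act Q vb = vb := hQ 1 (by decide)
      have hQ2 : act Q (act R va) = act R va := hQ 2 (by decide)
      simp only [act_mul, hQ1, hQ2]

end SphLim
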