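import Pool.Agent.SphLim.Word15

/-!
# The key estimate for tetrahedra in three dimensions
-/

open MeasureTheory Filter Topology Metric
open scoped ENNReal Pointwise RealInnerProductSpace Real

namespace SphLim

variable {ι : Type*}

theorem term_full3 [Fintype ι] {x : ι → Eu 3} (hx : AffineIndependent ℝ x)
    {ρ : ℝ} (hρ : 0 < ρ) (hxρ : ∀ l, ‖x l‖ = ρ) {i m j0 j1 : ι} (him : i ≠ m) (hi0 : i ≠ j0)
    (hi1 : i ≠ j1) (hm0 : m ≠ j0) (hm1 : m ≠ j1) (h01 : j0 ≠ j1)
    (hall : ∀ l, l = i ∨ l = m ∨ l = j0 ∨ l = j1) {κ C1 ε1 : ℝ} (hκ : 0 < κ) (hC1 : 0 ≤ C1)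
    (hε1 : 0 < ε1) : ∃ s > 0, ∃ δ1 > 0, ∃ t0 > 0, ∀ t : ℝ, 0 < t → t < t0 →
      ∀ (h F : Eu (3 + 1) → ℝ) (p : ι → Eu (3 + 1)) (H : OG (3 + 1) → ℝ),
      Measurable h → (∀ y, |h y| ≤ 1) → Measurable F → (∀ y, |F y| ≤ 1) → (∀ l, ‖p l‖ = 1) →
      Measurable H → (∀ g, |H g| ≤ 1) →
      (∀ g R : OG (3 + 1), act R (bw ρ t (x j0)) = bw ρ t (x j0) →
        act R (bw ρ t (x j1)) = bw ρ t (x j1) → H (g * R) = H g) →
      ∫ y, |h y| ∂(sphMeas 3) ≤ C1 * t ^ 3 →
      ∫ y, |capAvg h (s * t) y| ∂(sphMeas 3) ≤ δ1 * t ^ 3 →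
      |∫ g, Psi (fun l => bw ρ t (x l)) p (κ * t) g * H g *
        Ep h F (bw ρ t (x i)) (bw ρ t (x m)) g ∂(haar (3 + 1))| ≤ ε1 * t ^ 3 := by
  classical
  have htet := Tet.of_affineIndependent hx him hi0 hi1 hm0 hm1 h01
  obtain ⟨m1, m2, hm1n, hm2n, hm12, hma, hmb, hmab⟩ := pair_frame (x i) (x m)
  obtain ⟨n1, n2, hn1n, hn2n, hn12, hnc, hne, hnce⟩ := pair_frame (x j0) (x j1)
  obtain ⟨q1, q2, hq1n, hq2n, hq12, hqb, hqc, hqbc⟩ := pair_frame (x m) (x j0)
  obtain ⟨N0, hN0⟩ := htet.moment hρ (hxρ i) (hxρ m) hm1n hm2n hm12 hma hmb hmab hn1n hn2n hn12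
    hnc hne hnce hq1n hq2n hq12 hqb hqc hqbc
  set N : ℕ := 2 ^ N0 with hN
  have hNN : N0 ≤ N := Nat.lt_two_pow_self.le
  have hN1 : 1 ≤ N := Nat.one_le_two_pow
  set C0 : ℝ := cc 3 * (volume : Measure (Eu 3)).real (closedBall 0 (2 * κ)) with hC0
  have hC0pos : 0 < C0 := mul_pos (cc_pos 3) (vol_cb_pos _ (by positivity))
  set C2 : ℝ := C1 + 1 with hC2
  have hC20 : 0 < C2 := by positivity
  set e' : ℝ := ε1 ^ 2 / C0 with he'
  have he'0 : 0 < e' := by positivity
  set ε4 : ℝ := e' ^ N / C2 ^ (N - 1) with hε4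
  have hε40 : 0 < ε4 := by positivity
  obtain ⟨s1, hs1, δ1, hδ1, t1, ht1, hmom⟩ := hN0 N hNN C1 ε4 hC1 hε40
  set s : ℝ := min s1 (κ * δ1 / (2 * C2)) with hs
  have hs0 : 0 < s := by positivity
  have hss1 : s ≤ s1 := min_le_left _ _
  have hsκ : s / κ * C1 ≤ δ1 / 2 := by
    have h1 : s ≤ κ * δ1 / (2 * C2) := min_le_right _ _
    have h2 : s / κ ≤ δ1 / (2 * C2) := by
      rw [div_le_iff₀ hκ]
      refine h1.trans (le_of_eq ?_)
      ring
    calc s / κ * C1 ≤ δ1 / (2 * C2) * C2 := by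
          apply mul_le_mul h2 (by linarith) hC1 (by positivity)
      _ = δ1 / 2 := by field_simp
  refine ⟨s, hs0, δ1 / 2, by positivity, min t1 (1 / (16 * (ρ + κ + 1))), by positivity, ?_⟩
  intro t ht htt h F p H hhm hhb hFm hFb hp hHm hHb hHinv hNh hC
  have htt1 : t < t1 := lt_of_lt_of_le htt (min_le_left _ _)
  have htt3 : t < 1 / (16 * (ρ + κ + 1)) := lt_of_lt_of_le htt (min_le_right _ _)
  have htρ1 : t * (16 * (ρ + κ + 1)) < 1 := by
    rwa [lt_div_iff₀ (by positivity)] at htt3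
  have htρ0 : 0 < t * ρ := by positivity
  have htκ0 : 0 < t * κ := by positivity
  have htρ : t * ρ < 1 / 16 := by nlinarith
  have htκ : κ * t < 1 := by nlinarith
  have hκt : 0 < κ * t := by positivity
  have htd : 0 < t ^ 3 := by positivity
  have hhgt : hgt ρ t ≠ 0 := by
    have := hgt_ge (ρ := ρ) (t := t) (by linarith) htρ0.le
    have h2 : 0 < hgt ρ t := by linarith
    exact h2.ne'
  set v : ι → Eu (3 + 1) := fun l => bw ρ t (x l) with hv
  have hvn : ∀ l, ‖v l‖ = 1 := fun l => norm_bw (by linarith) htρ0.le (hxρ l)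
  have hpsm : ∀ l, Measurable (psf (p l) (κ * t)) := fun l => (continuous_psf _ _).measurable
  have hpsb : ∀ l y, |psf (p l) (κ * t) y| ≤ 1 := fun l y => by
    rw [abs_of_nonneg (psf_nonneg _ _ _)]
    exact psf_le_one _ hκt _
  set f : Eu (3 + 1) → ℝ := fun y => h y * psf (p i) (κ * t) y with hf
  set F' : Eu (3 + 1) → ℝ := fun y => F y * psf (p m) (κ * t) y with hF'
  have hfm : Measurable f := hhm.mul (hpsm i)
  have hF'm : Measurable F' := hFm.mul (hpsm m)
  have hfh : ∀ y, |f y| ≤ |h y| := fun y => by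
    rw [hf]
    simp only
    rw [abs_mul]
    exact mul_le_of_le_one_right (abs_nonneg _) (hpsb _ _)
  have hfb : ∀ y, |f y| ≤ 1 := fun y => (hfh y).trans (hhb y)
  have hF'b : ∀ y, |F' y| ≤ 1 := fun y => by
    rw [hF']
    simp only
    rw [abs_mul]
    exact mul_le_one₀ (hFb y) (abs_nonneg _) (hpsb _ _)
  have hfN : ∫ y, |f y| ∂(sphMeas 3) ≤ C1 * t ^ 3 := by
    refine le_trans ?_ hNh
    apply integral_mono_of_nonneg (Eventually.of_forall fun _ => abs_nonneg _)
    · exact Integrable.of_bound (C := 1) hhm.abs.aestronglyMeasurable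
        (Eventually.of_forall fun y => by rw [Real.norm_eq_abs, abs_abs]; exact hhb y)
    · exact Eventually.of_forall hfh
  have hfC : ∫ y, |capAvg f (s * t) y| ∂(sphMeas 3) ≤ δ1 * t ^ 3 := by
    refine (integral_capAvg_mul hhm hhb (hpsm i) (hpsb i) hκt (psf_lip hκt)
      (by positivity : 0 < s * t)).trans ?_
    have e1 : s * t / (κ * t) = s / κ := by field_simp
    rw [e1]
    calc (∫ x, |capAvg h (s * t) x| ∂(sphMeas 3)) + s / κ * ∫ y, |h y| ∂(sphMeas 3) ≤
        δ1 / 2 * t ^ 3 + s / κ * (C1 * t ^ 3) := by gcongr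
      _ = (δ1 / 2 + s / κ * C1) * t ^ 3 := by ring
      _ ≤ δ1 * t ^ 3 := by
          apply mul_le_mul_of_nonneg_right _ htd.le
          linarith
  have hmomt := hmom t ht htt1 s hs0 hss1 f F' hfm hfb hF'm hF'b hfN hfC
  set K : ℝ → OG (3 + 1) := rx ρ ht.ne' hm1n hm2n hm12 (x i) with hK
  set L : ℝ → OG (3 + 1) := rx ρ ht.ne' hn1n hn2n hn12 (x j0) with hL
  have hKc : Continuous K := continuous_rr _ _ _
  have hLc : Continuous L := continuous_rr _ _ _
  have hK2 : ∀ θ, K (2 * π - θ) = (K θ)⁻¹ := fun θ => rr_reflect _ _ _ θ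
  have hL2 : ∀ θ, L (2 * π - θ) = (L θ)⁻¹ := fun θ => rr_reflect _ _ _ θ
  have hKi : ∀ θ, act (K θ) (v i) = v i := fun θ => rr_fix _ _ _ (XL_kill hhgt hma rfl) θ
  have hKm : ∀ θ, act (K θ) (v m) = v m := fun θ => rr_fix _ _ _ (XL_kill hhgt hmb hmab) θ
  have hL0 : ∀ θ, act (L θ) (v j0) = v j0 := fun θ => rr_fix _ _ _ (XL_kill hhgt hnc rfl) θ
  have hL1 : ∀ θ, act (L θ) (v j1) = v j1 := fun θ => rr_fix _ _ _ (XL_kill hhgt hne hnce) θ
  set u : OG (3 + 1) → ℝ := Ep f F' (v i) (v m) with hu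
  have hum : Measurable u := measurable_Ep hfm hF'm _ _
  have hub : ∀ g, |u g| ≤ 1 := fun g => (abs_Ep_le hF'b _ _ g).trans (hfb _)
  set H' : OG (3 + 1) → ℝ := fun g => H g * (psf (p j0) (κ * t) (act g (v j0)) *
    psf (p j1) (κ * t) (act g (v j1))) with hH'
  have hH'm : Measurable H' := hHm.mul (((hpsm j0).comp (measurable_act_left _)).mul
    ((hpsm j1).comp (measurable_act_left _)))
  have hH'b : ∀ g, |H' g| ≤ psf (p j0) (κ * t) (act g (v j0)) := by
    intro g
    rw [hH']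
    simp only
    rw [abs_mul, abs_mul, abs_of_nonneg (psf_nonneg (p j0) (κ * t) (act g (v j0)))]
    have h1 := psf_nonneg (p j0) (κ * t) (act g (v j0))
    calc |H g| * (psf (p j0) (κ * t) (act g (v j0)) * |psf (p j1) (κ * t) (act g (v j1))|) ≤
        1 * (psf (p j0) (κ * t) (act g (v j0)) * 1) := by
          apply mul_le_mul (hHb g) _ (by positivity) zero_le_one
          exact mul_le_mul_of_nonneg_left (hpsb _ _) h1
      _ = _ := by ring
  have hH'1 : ∀ g, |H' g| ≤ 1 := fun g => (hH'b g).trans (psf_le_one _ hκt _)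
  have hBMH : BM H' := ⟨hH'm, 1, hH'1⟩
  have hBMu : BM u := ⟨hum, 1, hub⟩
  have hcs := pair_cs hKc hLc hK2 hL2 hBMH hBMu (fun g θ => by
    rw [hH']
    simp only
    rw [hHinv g (L θ) (hL0 θ) (hL1 θ), act_mul, act_mul, hL0, hL1]) (fun g θ => by
    rw [hu, Ep_mul, hKi, hKm]
    rfl)
  have hT : ∫ g, Psi v p (κ * t) g * H g * Ep h F (v i) (v m) g ∂(haar (3 + 1)) =
      ∫ g, H' g * u g ∂(haar (3 + 1)) := by
    congr 1
    ext g
    have huniv : (Finset.univ : Finset ι) = {i, m, j0, j1} := by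
      ext l
      simp only [Finset.mem_univ, true_iff, Finset.mem_insert, Finset.mem_singleton]
      exact hall l
    have hP : Psi v p (κ * t) g = psf (p i) (κ * t) (act g (v i)) *
        (psf (p m) (κ * t) (act g (v m)) * (psf (p j0) (κ * t) (act g (v j0)) *
          psf (p j1) (κ * t) (act g (v j1)))) := by
      unfold Psi
      rw [huniv, Finset.prod_insert (by simp [him, hi0, hi1]),
        Finset.prod_insert (by simp [hm0, hm1]), Finset.prod_insert (by simp [h01]),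
        Finset.prod_singleton]
    rw [hP, hH', hu]
    unfold Ep
    rw [hf, hF']
    ring
  -- size of the first factor
  have hHH : ∫ g, H' g * H' g ∂(haar (3 + 1)) ≤ C0 * t ^ 3 := by
    set B : Set (OG (3 + 1)) := {g | act g (v j0) ∈ closedBall (p j0) (κ * t)} with hB
    have hBm : MeasurableSet B := (measurable_act_left (v j0)) isClosed_closedBall.measurableSet
    have hBv : (haar (3 + 1)).real B ≤ C0 * t ^ 3 := by
      have h1 : (haar (3 + 1)).real B = (sphMeas 3).real (closedBall (p j0) (κ * t)) := by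
        unfold Measure.real
        rw [hB, haar_act_mem (hvn j0) isClosed_closedBall.measurableSet]
      rw [h1]
      exact cap_le ht htκ (hp j0)
    calc ∫ g, H' g * H' g ∂(haar (3 + 1)) ≤ ∫ g, B.indicator (fun _ => (1 : ℝ)) g
          ∂(haar (3 + 1)) := by
          apply integral_mono (hBMH.mul hBMH).integrable ((integrable_const _).indicator hBm)
          intro g
          change H' g * H' g ≤ B.indicator (fun _ => (1 : ℝ)) g
          by_cases hg : g ∈ B
          · rw [Set.indicator_of_mem hg, ← abs_mul_abs_self]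
            exact mul_le_one₀ (hH'1 g) (abs_nonneg _) (hH'1 g)
          · rw [Set.indicator_of_notMem hg]
            have h2 : psf (p j0) (κ * t) (act g (v j0)) = 0 := by
              by_contra h0
              apply hg
              change act g (v j0) ∈ closedBall (p j0) (κ * t)
              rw [mem_closedBall, dist_eq_norm]
              exact psf_supp hκt h0
            have h3 : H' g = 0 := by
              have := hH'b g
              rw [h2] at this
              exact abs_nonpos_iff.1 this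
            rw [h3, mul_zero]
      _ = (haar (3 + 1)).real B := by
          rw [integral_indicator_const _ hBm, smul_eq_mul, mul_one]
      _ ≤ C0 * t ^ 3 := hBv
  have hmo0 : mo K L u 0 ≤ C2 * t ^ 3 := by
    have h1 : mo K L u 0 ≤ ∫ g, |f (act g (v i))| ∂(haar (3 + 1)) := by
      unfold mo
      apply integral_mono (hBMu.mul hBMu).integrable
      · exact integrable_bdd (hfm.abs.comp (measurable_act_left (v i))) (C := 1)
          (fun g => by rw [abs_abs]; exact hfb _)
      · intro g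
        change u g * u g ≤ |f (act g (v i))|
        rw [← abs_mul_abs_self]
        calc |u g| * |u g| ≤ |f (act g (v i))| * 1 :=
              mul_le_mul (abs_Ep_le hF'b _ _ g) (hub g) (abs_nonneg _) (abs_nonneg _)
          _ = _ := mul_one _
    refine h1.trans ?_
    rw [integral_act (f := fun y => |f y|) (hvn i) hfm.abs]
    refine hfN.trans ?_
    gcongr
    linarith
  have hmo1 : mo K L u 1 ≤ e' * t ^ 3 := by
    refine mo_one_le hKc hLc hK2 hL2 hBMu hmo0 N0 hmomt (by positivity) ?_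
    rw [← hN]
    have e1 : (C2 * t ^ 3) ^ (N - 1) * (ε4 * t ^ 3) = (C2 ^ (N - 1) * ε4) *
        ((t ^ 3) ^ (N - 1) * t ^ 3) := by
      rw [mul_pow]
      ring
    have e2 : (t ^ 3) ^ (N - 1) * t ^ 3 = (t ^ 3) ^ N := by
      rw [← pow_succ]
      congr 1
      omega
    have e3 : C2 ^ (N - 1) * ε4 = e' ^ N := by
      rw [hε4]
      field_simp
    rw [e1, e2, e3, ← mul_pow]
  rw [hT]
  apply abs_le_of_sq_le_sq _ (by positivity)
  refine hcs.trans ?_
  have hHH0 : 0 ≤ ∫ g, H' g * H' g ∂(haar (3 + 1)) := integral_nonneg fun g => mul_self_nonneg _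
  calc (∫ g, H' g * H' g ∂(haar (3 + 1))) * mo K L u 1 ≤ (C0 * t ^ 3) * (e' * t ^ 3) := by
        calc _ ≤ (∫ g, H' g * H' g ∂(haar (3 + 1))) * (e' * t ^ 3) :=
              mul_le_mul_of_nonneg_left hmo1 hHH0
          _ ≤ _ := mul_le_mul_of_nonneg_right hHH (by positivity)
    _ = (ε1 * t ^ 3) ^ 2 := by
        rw [he']
        field_simp

end SphLim
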