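import Pool.Agent.SphLim.Word1

/-!
# The divergence theorem for words of rotations: approximate left invariance
-/

open MeasureTheory Set

namespace SphLim

variable {A : Type*} [NormedRing A] [NormedAlgebra ℝ A]

/-- The letter sequence with `Z` put in front. -/
def consX (Z : A) (X : ℕ → A) : ℕ → A
  | 0 => Z
  | n + 1 => X n

lemma consX_zero (Z : A) (X : ℕ → A) : consX Z X 0 = Z := rfl

lemma consX_succ (Z : A) (X : ℕ → A) (n : ℕ) : consX Z X (n + 1) = X n := rfl

lemma WW_consX (m : ℕ) (Z : A) (X : ℕ → A) (y : Fin (m + 1) → ℝ) :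
    WW (m + 1) (consX Z X) y = EE Z (y 0) * WW m X (Fin.tail y) := rfl

lemma AJ_consX_zero (m : ℕ) (Z : A) (X : ℕ → A) (y : Fin (m + 1) → ℝ) :
    AJ (m + 1) (consX Z X) y 0 = Z := by rw [AJ_zero]; rfl

lemma AJ_consX_succ (m : ℕ) (Z : A) (X : ℕ → A) (y : Fin (m + 1) → ℝ) (j : Fin m) :
    AJ (m + 1) (consX Z X) y j.succ = EE Z (y 0) * AJ m X (Fin.tail y) j * EE Z (-y 0) := by
  rw [AJ_succ]; rfl

lemma tail_single_zero (m : ℕ) : (Fin.tail (Pi.single (0 : Fin (m + 1)) (1 : ℝ) :
    Fin (m + 1) → ℝ) : Fin m → ℝ) = 0 := by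
  ext j
  simp [Fin.tail, Pi.single_apply]

lemma tail_single_succ (m : ℕ) (j : Fin m) : (Fin.tail (Pi.single j.succ (1 : ℝ) :
    Fin (m + 1) → ℝ) : Fin m → ℝ) = Pi.single j (1 : ℝ) := by
  ext k
  simp only [Fin.tail, Pi.single_apply, Fin.succ_inj]

theorem tv_word {m : ℕ} {X : ℕ → A} (hX : ∀ k, X k * X k * X k = - X k) {Z : A}
    (hZ : Z * Z * Z = -Z) {C : Fin m → (Fin m → ℝ) → ℝ}
    {C' : Fin m → (Fin m → ℝ) → ((Fin m → ℝ) →L[ℝ] ℝ)}
    (hC : ∀ j z, HasFDerivAt (C j) (C' j z) z) (hCc : Continuous fun z => ∑ j, C' j z (Pi.single j 1))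
    {χ : (Fin m → ℝ) → ℝ} (hχ : Differentiable ℝ χ)
    (hrel : ∀ z, ∑ j, C j z • AJ m X z j = χ z • Z)
    (hper : ∀ (j : Fin m) (z z' : Fin m → ℝ), (∀ k, Real.sin (z k) = Real.sin (z' k)) →
      (∀ k, Real.cos (z k) = Real.cos (z' k)) → C j z = C j z') {K : ℝ}
    (hdiv : ∀ z ∈ Icc (0 : Fin m → ℝ) (fun _ => 2 * Real.pi),
      |∑ j, C' j z (Pi.single j 1)| ≤ K)
    {F : A → ℝ} (hF : Differentiable ℝ F) (hFb : ∀ s z, |F (EE Z s * WW m X z)| ≤ 1) {s1 : ℝ}
    (hs1 : 0 ≤ s1) :
    |∫ z in Icc (0 : Fin m → ℝ) (fun _ => 2 * Real.pi),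
      χ z * (F (EE Z s1 * WW m X z) - F (WW m X z))| ≤ s1 * (2 * Real.pi) ^ m * K := by
  have hpi := Real.pi_pos
  set W : (Fin (m + 1) → ℝ) → A := WW (m + 1) (consX Z X) with hW
  have hX' : ∀ k, consX Z X k * consX Z X k * consX Z X k = - consX Z X k := by
    intro k
    cases k with
    | zero => exact hZ
    | succ k => exact hX k
  have hWd := WW_hasFDerivAt (m + 1) (consX Z X) hX'
  set W' : (Fin (m + 1) → ℝ) → ((Fin (m + 1) → ℝ) →L[ℝ] A) := fun y =>
    ∑ j, (ContinuousLinearMap.proj (R := ℝ) (φ := fun _ : Fin (m + 1) => ℝ) j).smulRight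
        (AJ (m + 1) (consX Z X) y j * WW (m + 1) (consX Z X) y) with hW'
  have hW'e : ∀ y i, W' y (Pi.single i 1) = AJ (m + 1) (consX Z X) y i * W y := by
    intro y i
    simp only [hW', sum_apply, ContinuousLinearMap.smulRight_apply,
      ContinuousLinearMap.proj_apply, Pi.single_apply]
    rw [Finset.sum_eq_single i]
    · simp [hW]
    · intro j _ hj; simp [hj]
    · simp
  have hFd : ∀ y, HasFDerivAt (fun y => F (W y)) ((fderiv ℝ F (W y)).comp (W' y)) y := by
    intro y
    exact ((hF (W y)).hasFDerivAt).comp y (hWd y)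
  -- tail map
  have htail : ∀ y : Fin (m + 1) → ℝ, HasFDerivAt (fun y : Fin (m + 1) → ℝ => Fin.tail y)
      (tailL m) y := by
    intro y
    have : (fun z : Fin (m + 1) → ℝ => Fin.tail z) = tailL m := by
      funext z; rw [tailL_apply]
    rw [this]
    exact (tailL m).hasFDerivAt
  have hCt : ∀ j y, HasFDerivAt (fun y : Fin (m + 1) → ℝ => C j (Fin.tail y))
      ((C' j (Fin.tail y)).comp (tailL m)) y := fun j y => (hC j (Fin.tail y)).comp y (htail y)
  have hχt : ∀ y, HasFDerivAt (fun y : Fin (m + 1) → ℝ => χ (Fin.tail y))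
      ((fderiv ℝ χ (Fin.tail y)).comp (tailL m)) y := fun y =>
    ((hχ (Fin.tail y)).hasFDerivAt).comp y (htail y)
  -- the vector field
  set U : Fin (m + 1) → (Fin (m + 1) → ℝ) → ℝ := Fin.cons (fun y => -(χ (Fin.tail y) * F (W y)))
    (fun j y => C j (Fin.tail y) * F (W y)) with hU
  set U' : Fin (m + 1) → (Fin (m + 1) → ℝ) → ((Fin (m + 1) → ℝ) →L[ℝ] ℝ) := Fin.cons
    (fun y => -(χ (Fin.tail y) • ((fderiv ℝ F (W y)).comp (W' y)) + F (W y) •
      ((fderiv ℝ χ (Fin.tail y)).comp (tailL m))))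
    (fun j y => C j (Fin.tail y) • ((fderiv ℝ F (W y)).comp (W' y)) + F (W y) •
      ((C' j (Fin.tail y)).comp (tailL m))) with hU'
  have hUd : ∀ i y, HasFDerivAt (U i) (U' i y) y := by
    intro i y
    refine Fin.cases ?_ (fun j => ?_) i
    · simp only [hU, hU', Fin.cons_zero]
      exact ((hχt y).mul (hFd y)).neg
    · simp only [hU, hU', Fin.cons_succ]
      exact (hCt j y).mul (hFd y)
  have hsum : ∀ y, ∑ i, U' i y (Pi.single i 1) =
      (∑ j, C' j (Fin.tail y) (Pi.single j 1)) * F (W y) := by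
    intro y
    have hone : ∀ c : A, EE Z (-y 0) * (EE Z (y 0) * c) = c := fun c => by
      rw [← mul_assoc, EE_neg_mul hZ, one_mul]
    rw [Fin.sum_univ_succ]
    simp only [hU', Fin.cons_zero, Fin.cons_succ, neg_apply, add_apply, smul_apply,
      ContinuousLinearMap.comp_apply, tailL_apply, tail_single_zero, tail_single_succ, map_zero,
      smul_eq_mul, mul_zero, add_zero, hW'e, AJ_consX_zero, AJ_consX_succ]
    rw [Finset.sum_add_distrib, Finset.sum_mul]
    have e1 : ∑ j, C j (Fin.tail y) * (fderiv ℝ F (W y))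
        (EE Z (y 0) * AJ m X (Fin.tail y) j * EE Z (-y 0) * W y) =
        χ (Fin.tail y) * (fderiv ℝ F (W y)) (Z * W y) := by
      have e2 : ∀ j, C j (Fin.tail y) * (fderiv ℝ F (W y))
        (EE Z (y 0) * AJ m X (Fin.tail y) j * EE Z (-y 0) * W y) = (fderiv ℝ F (W y))
        (EE Z (y 0) * (C j (Fin.tail y) • AJ m X (Fin.tail y) j) * EE Z (-y 0) * W y) := by
        intro j
        rw [mul_smul_comm, smul_mul_assoc, smul_mul_assoc, map_smul, smul_eq_mul]
      rw [Finset.sum_congr rfl fun j _ => e2 j, ← map_sum, ← Finset.sum_mul, ← Finset.sum_mul,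
        ← Finset.mul_sum, hrel, mul_smul_comm, smul_mul_assoc, smul_mul_assoc, map_smul,
        smul_eq_mul, EE_comm, mul_assoc Z, EE_mul_neg hZ, mul_one]
    rw [e1]
    have e3 : ∑ i, F (W y) * (C' i (Fin.tail y)) (Pi.single i 1) =
        ∑ i, (C' i (Fin.tail y)) (Pi.single i 1) * F (W y) :=
      Finset.sum_congr rfl fun i _ => mul_comm _ _
    rw [e3]
    ring
  -- bounds and continuity
  have hWc : Continuous W := continuous_iff_continuousAt.2 fun y => (hWd y).continuousAt
  have hFc : Continuous fun y => F (W y) := hF.continuous.comp hWc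
  have htc : Continuous fun y : Fin (m + 1) → ℝ => Fin.tail y :=
    continuous_iff_continuousAt.2 fun y => (htail y).continuousAt
  set a : Fin (m + 1) → ℝ := 0 with ha
  set b : Fin (m + 1) → ℝ := Fin.cons s1 (fun _ => 2 * Real.pi) with hb
  have hab : a ≤ b := by
    intro i
    refine Fin.cases ?_ (fun j => ?_) i
    · simpa [ha, hb] using hs1
    · simp only [ha, hb, Pi.zero_apply, Fin.cons_succ]; positivity
  have hint : IntegrableOn (fun y => ∑ i, U' i y (Pi.single i 1)) (Icc a b) := by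
    have : (fun y => ∑ i, U' i y (Pi.single i 1)) = fun y =>
      (∑ j, C' j (Fin.tail y) (Pi.single j 1)) * F (W y) := funext hsum
    rw [this]
    exact ((hCc.comp htc).mul hFc).continuousOn.integrableOn_compact isCompact_Icc
  have key := integral_divergence_of_hasFDerivAt_off_countable' a b hab U U' ∅ countable_empty
    (fun i => (continuous_iff_continuousAt.2 fun y => (hUd i y).continuousAt).continuousOn)
    (fun y _ i => hUd i y) hint
  rw [setIntegral_congr_fun measurableSet_Icc (fun y _ => hsum y), Fin.sum_univ_succ] at key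
  have hface : ∑ i : Fin m, ((∫ x in Icc (a ∘ Fin.succAbove i.succ) (b ∘ Fin.succAbove i.succ),
      U i.succ (i.succ.insertNth (b i.succ) x)) -
      ∫ x in Icc (a ∘ Fin.succAbove i.succ) (b ∘ Fin.succAbove i.succ),
      U i.succ (i.succ.insertNth (a i.succ) x)) = 0 := by
    refine Finset.sum_eq_zero fun i _ => ?_
    rw [sub_eq_zero]
    refine setIntegral_congr_fun measurableSet_Icc fun x _ => ?_
    have hsin : ∀ k, Real.sin ((i.succ.insertNth (b i.succ) x : Fin (m + 1) → ℝ) k) =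
        Real.sin ((i.succ.insertNth (a i.succ) x : Fin (m + 1) → ℝ) k) := by
      intro k
      rcases Fin.eq_self_or_eq_succAbove i.succ k with rfl | ⟨l, rfl⟩
      · simp [ha, hb]
      · simp
    have hcos : ∀ k, Real.cos ((i.succ.insertNth (b i.succ) x : Fin (m + 1) → ℝ) k) =
        Real.cos ((i.succ.insertNth (a i.succ) x : Fin (m + 1) → ℝ) k) := by
      intro k
      rcases Fin.eq_self_or_eq_succAbove i.succ k with rfl | ⟨l, rfl⟩
      · simp [ha, hb]
      · simp
    simp only [hU, Fin.cons_succ]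
    have e1 : C i (Fin.tail (i.succ.insertNth (b i.succ) x : Fin (m + 1) → ℝ)) =
        C i (Fin.tail (i.succ.insertNth (a i.succ) x : Fin (m + 1) → ℝ)) :=
      hper i _ _ (fun k => hsin k.succ) (fun k => hcos k.succ)
    have e2 : W (i.succ.insertNth (b i.succ) x) = W (i.succ.insertNth (a i.succ) x) :=
      WW_congr _ _ _ _ hsin hcos
    rw [e1, e2]
  rw [hface, add_zero] at key
  have hcomp : (b ∘ Fin.succAbove 0) = (fun _ : Fin m => 2 * Real.pi) := by
    funext j
    simp [hb]
  have hcompa : (a ∘ Fin.succAbove 0) = (0 : Fin m → ℝ) := by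
    funext j
    simp [ha]
  rw [hcomp, hcompa] at key
  have hins : ∀ (c : ℝ) (x : Fin m → ℝ), (Fin.insertNth 0 c x : Fin (m + 1) → ℝ) =
      Fin.cons c x := by
    intro c x
    rw [Fin.insertNth_zero']
  have hfront : ∀ x : Fin m → ℝ, U 0 ((0 : Fin (m + 1)).insertNth (b 0) x) =
      -(χ x * F (EE Z s1 * WW m X x)) := by
    intro x
    rw [hins]
    simp only [hU, Fin.cons_zero, hW, WW_consX, Fin.tail_cons, hb]
  have hback : ∀ x : Fin m → ℝ, U 0 ((0 : Fin (m + 1)).insertNth (a 0) x) =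
      -(χ x * F (WW m X x)) := by
    intro x
    rw [hins]
    simp only [hU, Fin.cons_zero, hW, WW_consX, Fin.tail_cons, ha, Pi.zero_apply, EE_zero, one_mul]
  have hWmc : Continuous (WW m X) :=
    continuous_iff_continuousAt.2 fun y => (WW_hasFDerivAt m X hX y).continuousAt
  have hχc : Continuous χ := hχ.continuous
  have hi1 : IntegrableOn (fun x => χ x * F (EE Z s1 * WW m X x))
      (Icc (0 : Fin m → ℝ) (fun _ => 2 * Real.pi)) :=
    (hχc.mul (hF.continuous.comp (continuous_const.mul hWmc))).continuousOn.integrableOn_compact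
      isCompact_Icc
  have hi2 : IntegrableOn (fun x => χ x * F (WW m X x))
      (Icc (0 : Fin m → ℝ) (fun _ => 2 * Real.pi)) :=
    (hχc.mul (hF.continuous.comp hWmc)).continuousOn.integrableOn_compact isCompact_Icc
  simp only [hfront, hback] at key
  have hgoal : ∫ z in Icc (0 : Fin m → ℝ) (fun _ => 2 * Real.pi),
      χ z * (F (EE Z s1 * WW m X z) - F (WW m X z)) =
      -∫ y in Icc a b, (∑ j, C' j (Fin.tail y) (Pi.single j 1)) * F (W y) := by
    rw [key, integral_neg, integral_neg]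
    simp only [mul_sub]
    rw [integral_sub hi1 hi2]
    ring
  rw [hgoal, abs_neg]
  have hvol : volume (Icc a b) = ENNReal.ofReal (s1 * (2 * Real.pi) ^ m) := by
    rw [Real.volume_Icc_pi, Fin.prod_univ_succ]
    simp only [ha, hb, Pi.zero_apply, sub_zero, Fin.cons_zero, Fin.cons_succ, Finset.prod_const,
      Finset.card_univ, Fintype.card_fin]
    rw [ENNReal.ofReal_mul hs1, ENNReal.ofReal_pow (by positivity)]
  have hbd : ∀ y ∈ Icc a b, ‖(∑ j, C' j (Fin.tail y) (Pi.single j 1)) * F (W y)‖ ≤ K := by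
    intro y hy
    have hty : Fin.tail y ∈ Icc (0 : Fin m → ℝ) (fun _ => 2 * Real.pi) := by
      constructor
      · intro j
        have := hy.1 j.succ
        simpa [ha, Fin.tail] using this
      · intro j
        have := hy.2 j.succ
        simpa [hb, Fin.tail] using this
    have h1 := hdiv _ hty
    have h2 := hFb (y 0) (Fin.tail y)
    rw [norm_mul, Real.norm_eq_abs, Real.norm_eq_abs]
    have h3 : W y = EE Z (y 0) * WW m X (Fin.tail y) := rfl
    rw [h3]
    calc _ ≤ |∑ j, C' j (Fin.tail y) (Pi.single j 1)| * 1 :=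
          mul_le_mul_of_nonneg_left h2 (abs_nonneg _)
      _ ≤ K := by rw [mul_one]; exact h1
  have := norm_setIntegral_le_of_norm_le_const (μ := volume) (s := Icc a b)
    (by rw [hvol]; exact ENNReal.ofReal_lt_top) hbd
  rw [Real.norm_eq_abs] at this
  refine this.trans (le_of_eq ?_)
  rw [Measure.real, hvol, ENNReal.toReal_ofReal (by positivity)]
  ring

end SphLim
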