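import Pool.Agent.SphLim.Word2

/-!
# Smoothness of the word maps in angles and parameters; null sets of analytic functions
-/

open MeasureTheory Set Filter Topology

namespace SphLim

variable {A : Type*} [NormedRing A] [NormedAlgebra ℝ A]

lemma contDiff_EE {E : Type*} [NormedAddCommGroup E] [NormedSpace ℝ E] {n : WithTop ℕ∞}
    {X : E → A} {θ : E → ℝ} (hX : ContDiff ℝ n X) (hθ : ContDiff ℝ n θ) :
    ContDiff ℝ n fun q => EE (X q) (θ q) := by
  unfold EE
  exact (contDiff_const.add ((Real.contDiff_sin.comp hθ).smul hX)).add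
    ((contDiff_const.sub (Real.contDiff_cos.comp hθ)).smul (hX.mul hX))

lemma contDiff_AJ {P : Type*} [NormedAddCommGroup P] [NormedSpace ℝ P] {r : WithTop ℕ∞} :
    ∀ (n : ℕ) (X : P → ℕ → A), (∀ k, ContDiff ℝ r fun p => X p k) → ∀ j : Fin n,
      ContDiff ℝ r fun q : (Fin n → ℝ) × P => AJ n (X q.2) q.1 j
  | 0, _, _, j => Fin.elim0 j
  | n + 1, X, hX, j => by
    have ih := contDiff_AJ n (fun p k => X p (k + 1)) (fun k => hX (k + 1))
    refine Fin.cases ?_ (fun j => ?_) j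
    · simp only [AJ_zero]
      exact (hX 0).comp contDiff_snd
    · simp only [AJ_succ]
      have h1 : ContDiff ℝ r fun q : (Fin (n + 1) → ℝ) × P => X q.2 0 := (hX 0).comp contDiff_snd
      have h2 : ContDiff ℝ r fun q : (Fin (n + 1) → ℝ) × P => q.1 0 :=
        (contDiff_apply ℝ ℝ (0 : Fin (n + 1))).comp contDiff_fst
      have h3 : ContDiff ℝ r fun q : (Fin (n + 1) → ℝ) × P => (Fin.tail q.1, q.2) := by
        have : (fun q : (Fin (n + 1) → ℝ) × P => (Fin.tail q.1, q.2)) =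
          fun q => (tailL n q.1, q.2) := by funext q; rw [tailL_apply]
        rw [this]
        exact ((tailL n).contDiff.comp contDiff_fst).prodMk contDiff_snd
      exact ((contDiff_EE h1 h2).mul ((ih j).comp h3)).mul (contDiff_EE h1 h2.neg)

lemma contDiff_det {E : Type*} [NormedAddCommGroup E] [NormedSpace ℝ E] {r : WithTop ℕ∞} {k : ℕ}
    {S : E → Matrix (Fin k) (Fin k) ℝ} (hS : ∀ i j, ContDiff ℝ r fun q => S q i j) :
    ContDiff ℝ r fun q => (S q).det := by
  simp only [Matrix.det_apply']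
  refine ContDiff.sum fun σ _ => contDiff_const.mul (contDiff_prod fun i _ => hS _ _)

lemma contDiff_adjugate {E : Type*} [NormedAddCommGroup E] [NormedSpace ℝ E] {r : WithTop ℕ∞}
    {k : ℕ} {S : E → Matrix (Fin k) (Fin k) ℝ} (hS : ∀ i j, ContDiff ℝ r fun q => S q i j)
    (i j : Fin k) : ContDiff ℝ r fun q => (S q).adjugate i j := by
  simp only [Matrix.adjugate_apply]
  refine contDiff_det fun a b => ?_
  by_cases ha : a = j
  · subst ha
    simp only [Matrix.updateRow_self]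
    exact contDiff_const
  · simp only [Matrix.updateRow_ne ha]
    exact hS a b

/-- The matrix of the logarithmic derivatives of a word. -/
noncomputable def MM {k : ℕ} (φ : A →L[ℝ] (Fin k → ℝ)) (n : ℕ) (X : ℕ → A) (z : Fin n → ℝ) :
    Matrix (Fin k) (Fin n) ℝ := fun i j => φ (AJ n X z j) i

/-- The Gram matrix. -/
noncomputable def GG {k : ℕ} (φ : A →L[ℝ] (Fin k → ℝ)) (n : ℕ) (X : ℕ → A) (z : Fin n → ℝ) :
    Matrix (Fin k) (Fin k) ℝ := MM φ n X z * (MM φ n X z).transpose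

/-- The Gram determinant. -/
noncomputable def DD {k : ℕ} (φ : A →L[ℝ] (Fin k → ℝ)) (n : ℕ) (X : ℕ → A) (z : Fin n → ℝ) : ℝ :=
  (GG φ n X z).det

/-- The regularised solution of the linear system. -/
noncomputable def CF {k : ℕ} (φ : A →L[ℝ] (Fin k → ℝ)) (η : ℝ) (n : ℕ) (X : ℕ → A) (Z : A)
    (z : Fin n → ℝ) : Fin n → ℝ := fun j =>
  (∑ i, MM φ n X z i j * ∑ l, (GG φ n X z).adjugate i l * φ Z l) *
    (DD φ n X z / (DD φ n X z ^ 2 + η))

/-- The cutoff. -/
noncomputable def chi {k : ℕ} (φ : A →L[ℝ] (Fin k → ℝ)) (η : ℝ) (n : ℕ) (X : ℕ → A)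
    (z : Fin n → ℝ) : ℝ := DD φ n X z ^ 2 / (DD φ n X z ^ 2 + η)

lemma contDiff_MM {P : Type*} [NormedAddCommGroup P] [NormedSpace ℝ P] {r : WithTop ℕ∞} {k : ℕ}
    (φ : A →L[ℝ] (Fin k → ℝ)) (n : ℕ) {X : P → ℕ → A} (hX : ∀ k, ContDiff ℝ r fun p => X p k)
    (i : Fin k) (j : Fin n) :
    ContDiff ℝ r fun q : (Fin n → ℝ) × P => MM φ n (X q.2) q.1 i j := by
  unfold MM
  exact (contDiff_apply ℝ ℝ i).comp (φ.contDiff.comp (contDiff_AJ n X hX j))

lemma contDiff_GG {P : Type*} [NormedAddCommGroup P] [NormedSpace ℝ P] {r : WithTop ℕ∞} {k : ℕ}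
    (φ : A →L[ℝ] (Fin k → ℝ)) (n : ℕ) {X : P → ℕ → A} (hX : ∀ k, ContDiff ℝ r fun p => X p k)
    (i j : Fin k) :
    ContDiff ℝ r fun q : (Fin n → ℝ) × P => GG φ n (X q.2) q.1 i j := by
  unfold GG
  simp only [Matrix.mul_apply, Matrix.transpose_apply]
  exact ContDiff.sum fun l _ => (contDiff_MM φ n hX i l).mul (contDiff_MM φ n hX j l)

lemma contDiff_DD {P : Type*} [NormedAddCommGroup P] [NormedSpace ℝ P] {r : WithTop ℕ∞} {k : ℕ}
    (φ : A →L[ℝ] (Fin k → ℝ)) (n : ℕ) {X : P → ℕ → A} (hX : ∀ k, ContDiff ℝ r fun p => X p k) :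
    ContDiff ℝ r fun q : (Fin n → ℝ) × P => DD φ n (X q.2) q.1 :=
  contDiff_det fun i j => contDiff_GG φ n hX i j

lemma contDiff_CF {P : Type*} [NormedAddCommGroup P] [NormedSpace ℝ P] {r : WithTop ℕ∞} {k : ℕ}
    (φ : A →L[ℝ] (Fin k → ℝ)) {η : ℝ} (hη : 0 < η) (n : ℕ) {X : P → ℕ → A}
    (hX : ∀ k, ContDiff ℝ r fun p => X p k) {Z : P → A} (hZ : ContDiff ℝ r Z) (j : Fin n) :
    ContDiff ℝ r fun q : (Fin n → ℝ) × P => CF φ η n (X q.2) (Z q.2) q.1 j := by
  unfold CF
  have hD := contDiff_DD φ n hX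
  refine ContDiff.mul (ContDiff.sum fun i _ => (contDiff_MM φ n hX i j).mul
    (ContDiff.sum fun l _ => (contDiff_adjugate (fun a b => contDiff_GG φ n hX a b) i l).mul ?_)) ?_
  · exact (contDiff_apply ℝ ℝ l).comp (φ.contDiff.comp (hZ.comp contDiff_snd))
  · refine ContDiff.fun_div hD ((hD.pow 2).add contDiff_const) fun q => ?_
    positivity

lemma contDiff_chi {P : Type*} [NormedAddCommGroup P] [NormedSpace ℝ P] {r : WithTop ℕ∞} {k : ℕ}
    (φ : A →L[ℝ] (Fin k → ℝ)) {η : ℝ} (hη : 0 < η) (n : ℕ) {X : P → ℕ → A}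
    (hX : ∀ k, ContDiff ℝ r fun p => X p k) :
    ContDiff ℝ r fun q : (Fin n → ℝ) × P => chi φ η n (X q.2) q.1 := by
  unfold chi
  have hD := contDiff_DD φ n hX
  refine ContDiff.fun_div (hD.pow 2) ((hD.pow 2).add contDiff_const) fun q => ?_
  positivity

lemma CF_solves {k : ℕ} (φ : A →L[ℝ] (Fin k → ℝ)) (η : ℝ) (n : ℕ) (X : ℕ → A) (Z : A)
    (z : Fin n → ℝ) (i : Fin k) :
    ∑ j, CF φ η n X Z z j * φ (AJ n X z j) i = chi φ η n X z * φ Z i := by
  have h1 : ∑ j, (∑ a, MM φ n X z a j * ∑ l, (GG φ n X z).adjugate a l * φ Z l) *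
      MM φ n X z i j = DD φ n X z * φ Z i := by
    have h2 : (GG φ n X z * (GG φ n X z).adjugate).mulVec (φ Z) i = DD φ n X z * φ Z i := by
      rw [Matrix.mul_adjugate, Matrix.smul_mulVec, Matrix.one_mulVec]
      rfl
    rw [← h2, ← Matrix.mulVec_mulVec]
    unfold GG
    rw [← Matrix.mulVec_mulVec]
    simp only [Matrix.mulVec, dotProduct, Matrix.transpose_apply]
    refine Finset.sum_congr rfl fun j _ => ?_
    rw [mul_comm]
  unfold CF chi
  have h3 : ∀ j, (∑ a, MM φ n X z a j * ∑ l, (GG φ n X z).adjugate a l * φ Z l) *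
      (DD φ n X z / (DD φ n X z ^ 2 + η)) * φ (AJ n X z j) i =
      ((∑ a, MM φ n X z a j * ∑ l, (GG φ n X z).adjugate a l * φ Z l) *
      MM φ n X z i j) * (DD φ n X z / (DD φ n X z ^ 2 + η)) := by
    intro j
    unfold MM
    ring
  rw [Finset.sum_congr rfl fun j _ => h3 j, ← Finset.sum_mul, h1]
  ring

lemma CF_congr {k : ℕ} (φ : A →L[ℝ] (Fin k → ℝ)) (η : ℝ) (n : ℕ) (X : ℕ → A) (Z : A)
    {z z' : Fin n → ℝ} (hs : ∀ k, Real.sin (z k) = Real.sin (z' k))
    (hc : ∀ k, Real.cos (z k) = Real.cos (z' k)) : CF φ η n X Z z = CF φ η n X Z z' := by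
  have h1 : MM φ n X z = MM φ n X z' := by
    funext i j
    unfold MM
    rw [AJ_congr n X z z' hs hc]
  funext j
  unfold CF DD GG
  rw [h1]

/-- The zero set of a nonzero real analytic function on `ℝ^n` is a null set. -/
theorem ae_ne_zero_of_analytic : ∀ (n : ℕ) (f : (Fin n → ℝ) → ℝ), ContDiff ℝ ⊤ f →
    (∃ z, f z ≠ 0) → ∀ᵐ z : Fin n → ℝ, f z ≠ 0
  | 0, f, _, ⟨z0, hz0⟩ => by
    refine Eventually.of_forall fun z => ?_
    rw [Subsingleton.elim z z0]
    exact hz0
  | n + 1, f, hf, ⟨z0, hz0⟩ => by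
    have hmp := volume_preserving_piFinSuccAbove (fun _ : Fin (n + 1) => ℝ) 0
    -- one variable
    have h1 : ∀ᵐ x : ℝ, f (Fin.cons x (Fin.tail z0)) ≠ 0 := by
      have hg : ContDiff ℝ ⊤ fun x : ℝ => f (Fin.cons x (Fin.tail z0)) := by
        refine hf.comp (contDiff_pi.2 fun i => ?_)
        refine Fin.cases ?_ (fun j => ?_) i
        · simpa using (contDiff_fun_id : ContDiff ℝ ⊤ fun x : ℝ => x)
        · simpa using contDiff_const
      have hga : AnalyticOnNhd ℝ (fun x : ℝ => f (Fin.cons x (Fin.tail z0))) univ :=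
        hg.analyticOnNhd
      have hne : (fun x : ℝ => f (Fin.cons x (Fin.tail z0))) (z0 0) ≠ 0 := by
        simpa [Fin.cons_self_tail] using hz0
      have hc := hga.preimage_zero_mem_codiscrete (x := z0 0) hne
      have := ae_restrict_le_codiscreteWithin (μ := (volume : Measure ℝ)) MeasurableSet.univ hc
      rw [Measure.restrict_univ] at this
      filter_upwards [this] with x hx
      simpa using hx
    have h2 : ∀ᵐ x : ℝ, ∀ᵐ w : Fin n → ℝ, f (Fin.cons x w) ≠ 0 := by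
      filter_upwards [h1] with x hx
      refine ae_ne_zero_of_analytic n (fun w => f (Fin.cons x w)) ?_ ⟨Fin.tail z0, hx⟩
      refine hf.comp (contDiff_pi.2 fun i => ?_)
      refine Fin.cases ?_ (fun j => ?_) i
      · simpa using contDiff_const
      · simpa using contDiff_apply ℝ ℝ j
    have hmeas : MeasurableSet {q : ℝ × (Fin n → ℝ) | f (Fin.cons q.1 q.2) ≠ 0} := by
      have hc : Continuous fun q : ℝ × (Fin n → ℝ) => f (Fin.cons q.1 q.2) := by
        refine hf.continuous.comp (continuous_pi fun i => ?_)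
        refine Fin.cases ?_ (fun j => ?_) i
        · simpa using continuous_fst
        · simp only [Fin.cons_succ]
          exact (continuous_apply j).comp continuous_snd
      exact (isOpen_ne.preimage hc).measurableSet
    have h3 : ∀ᵐ q : ℝ × (Fin n → ℝ) ∂(volume.prod volume), f (Fin.cons q.1 q.2) ≠ 0 := by
      rw [Measure.ae_prod_iff_ae_ae hmeas]
      exact h2
    have h4 := hmp.quasiMeasurePreserving.tendsto_ae.eventually h3
    filter_upwards [h4] with z hz
    have : (Fin.cons ((MeasurableEquiv.piFinSuccAbove (fun _ : Fin (n + 1) => ℝ) 0) z).1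
      ((MeasurableEquiv.piFinSuccAbove (fun _ : Fin (n + 1) => ℝ) 0) z).2 : Fin (n + 1) → ℝ) = z := by
      funext i
      refine Fin.cases ?_ (fun j => ?_) i
      · simp [MeasurableEquiv.piFinSuccAbove]
      · simp [MeasurableEquiv.piFinSuccAbove, Fin.tail]
    rw [this] at hz
    exact hz

end SphLim
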