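import Pool.Agent.SphLim.Word3

/-!
# Approximate left invariance of the law of a long word, uniformly in parameters
-/

open MeasureTheory Set Filter Topology

namespace SphLim

variable {A : Type*} [NormedRing A] [NormedAlgebra ℝ A]

/-- The box of angles. -/
def Bx (m : ℕ) : Set (Fin m → ℝ) := Icc (0 : Fin m → ℝ) (fun _ => 2 * Real.pi)

lemma isCompact_Bx (m : ℕ) : IsCompact (Bx m) := isCompact_Icc

lemma measurableSet_Bx (m : ℕ) : MeasurableSet (Bx m) := measurableSet_Icc

lemma volume_Bx (m : ℕ) : (volume : Measure (Fin m → ℝ)).real (Bx m) = (2 * Real.pi) ^ m := by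
  have hpi := Real.pi_pos
  rw [Measure.real, Bx, Real.volume_Icc_pi]
  simp only [Pi.zero_apply, sub_zero, Finset.prod_const, Finset.card_univ, Fintype.card_fin]
  rw [ENNReal.toReal_pow, ENNReal.toReal_ofReal (by positivity)]

instance (m : ℕ) : IsFiniteMeasure ((volume : Measure (Fin m → ℝ)).restrict (Bx m)) :=
  ⟨by rw [Measure.restrict_apply_univ]; exact (isCompact_Bx m).measure_lt_top⟩

lemma chi_mem {k : ℕ} (φ : A →L[ℝ] (Fin k → ℝ)) {η : ℝ} (hη : 0 < η) (n : ℕ) (X : ℕ → A)
    (z : Fin n → ℝ) : 0 ≤ chi φ η n X z ∧ chi φ η n X z ≤ 1 := by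
  unfold chi
  constructor
  · positivity
  · rw [div_le_one (by positivity)]
    linarith

lemma chi_tendsto {k : ℕ} (φ : A →L[ℝ] (Fin k → ℝ)) (n : ℕ) (X : ℕ → A)
    (z : Fin n → ℝ) (h : DD φ n X z ≠ 0) :
    Tendsto (fun j : ℕ => 1 - chi φ (1 / ((j : ℝ) + 1)) n X z) atTop (𝓝 0) := by
  unfold chi
  have h1 : Tendsto (fun j : ℕ => 1 / ((j : ℝ) + 1)) atTop (𝓝 0) :=
    tendsto_one_div_add_atTop_nhds_zero_nat
  have h2 : Tendsto (fun j : ℕ => DD φ n X z ^ 2 / (DD φ n X z ^ 2 + 1 / ((j : ℝ) + 1))) atTop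
      (𝓝 (DD φ n X z ^ 2 / (DD φ n X z ^ 2 + 0))) := by
    refine Tendsto.div tendsto_const_nhds (tendsto_const_nhds.add h1) ?_
    have : 0 < DD φ n X z ^ 2 := by positivity
    rw [add_zero]; exact this.ne'
  have h3 : DD φ n X z ^ 2 / (DD φ n X z ^ 2 + 0) = 1 := by
    have : 0 < DD φ n X z ^ 2 := by positivity
    rw [add_zero, div_self this.ne']
  rw [h3] at h2
  have := (tendsto_const_nhds (x := (1:ℝ))).sub h2
  simpa using this

attribute [local irreducible] chi CF DD

theorem exists_cutoff {P : Type*} [NormedAddCommGroup P] [NormedSpace ℝ P] {k : ℕ}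
    (φ : A →L[ℝ] (Fin k → ℝ)) (m : ℕ) {X : P → ℕ → A} (hX : ∀ k, ContDiff ℝ ⊤ fun p => X p k)
    {p0 : P} (hD : ∃ z, DD φ m (X p0) z ≠ 0) {ε : ℝ} (hε : 0 < ε) :
    ∃ η > 0, ∀ᶠ p in 𝓝 p0, ∫ z in Bx m, (1 - chi φ η m (X p) z) ≤ ε := by
  have hDs := contDiff_DD φ m hX
  -- a.e. nonvanishing at `p0`
  have hDs0 : ContDiff ℝ ⊤ fun z : Fin m → ℝ => DD φ m (X p0) z :=
    hDs.comp (contDiff_id.prodMk contDiff_const)
  have hae := ae_ne_zero_of_analytic m _ hDs0 hD
  have hcont : ∀ η > 0, Continuous fun q : (Fin m → ℝ) × P => 1 - chi φ η m (X q.2) q.1 :=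
    fun η hη => continuous_const.sub (contDiff_chi φ hη m hX).continuous
  -- choice of η
  have h1 : Tendsto (fun j : ℕ => ∫ z in Bx m, (1 - chi φ (1 / ((j : ℝ) + 1)) m (X p0) z)) atTop
      (𝓝 (∫ z in Bx m, (0 : ℝ))) := by
    refine tendsto_integral_of_dominated_convergence (fun _ => (1 : ℝ)) ?_ (integrable_const _)
      ?_ ?_
    · intro j
      have : Continuous fun z : Fin m → ℝ => 1 - chi φ (1 / ((j : ℝ) + 1)) m (X p0) z :=
        (hcont _ (by positivity)).comp (continuous_id.prodMk continuous_const)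
      exact this.aestronglyMeasurable
    · intro j
      refine Eventually.of_forall fun z => ?_
      have := chi_mem φ (η := 1 / ((j : ℝ) + 1)) (by positivity) m (X p0) z
      rw [Real.norm_eq_abs, abs_le]
      constructor <;> linarith
    · refine ae_restrict_of_ae ?_
      filter_upwards [hae] with z hz
      exact chi_tendsto φ m (X p0) z hz
  rw [integral_zero] at h1
  obtain ⟨j, hj⟩ := (h1.eventually (gt_mem_nhds hε)).exists
  refine ⟨1 / ((j : ℝ) + 1), by positivity, ?_⟩
  have hη : (0 : ℝ) < 1 / ((j : ℝ) + 1) := by positivity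
  have h2 : ContinuousAt (fun p : P => ∫ z in Bx m, (1 - chi φ (1 / ((j : ℝ) + 1)) m (X p) z))
      p0 := by
    refine continuousAt_of_dominated (bound := fun _ => (1 : ℝ)) ?_ ?_ (integrable_const _) ?_
    · refine Eventually.of_forall fun p => ?_
      have : Continuous fun z : Fin m → ℝ => 1 - chi φ (1 / ((j : ℝ) + 1)) m (X p) z :=
        (hcont _ hη).comp (continuous_id.prodMk continuous_const)
      exact this.aestronglyMeasurable
    · refine Eventually.of_forall fun p => Eventually.of_forall fun z => ?_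
      have := chi_mem φ hη m (X p) z
      rw [Real.norm_eq_abs, abs_le]
      constructor <;> linarith
    · refine Eventually.of_forall fun z => ?_
      have : Continuous fun p : P => 1 - chi φ (1 / ((j : ℝ) + 1)) m (X p) z :=
        (hcont _ hη).comp (continuous_const.prodMk continuous_id)
      exact this.continuousAt
  have h3 := h2.tendsto.eventually (gt_mem_nhds hj)
  filter_upwards [h3] with p hp
  exact hp.le

theorem word_inv {P : Type*} [NormedAddCommGroup P] [NormedSpace ℝ P] [ProperSpace P] {k : ℕ}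
    (φ : A →L[ℝ] (Fin k → ℝ)) (m : ℕ) {X : P → ℕ → A} (hX : ∀ k, ContDiff ℝ ⊤ fun p => X p k)
    {Z : P → A} (hZ : ContDiff ℝ ⊤ Z)
    {p0 : P} (hD : ∃ z, DD φ m (X p0) z ≠ 0) {ε : ℝ} (hε : 0 < ε) :
    ∃ s0 > 0, ∀ᶠ p in 𝓝 p0, (∀ k, X p k * X p k * X p k = - X p k) → Z p * Z p * Z p = - Z p →
      ∀ 𝔤 : Submodule ℝ A, (∀ z j, AJ m (X p) z j ∈ 𝔤) → Z p ∈ 𝔤 → (∀ a ∈ 𝔤, φ a = 0 → a = 0) →
      ∀ F : A → ℝ, Differentiable ℝ F → (∀ s z, |F (EE (Z p) s * WW m (X p) z)| ≤ 1) →
      ∀ s1, 0 ≤ s1 → s1 ≤ s0 →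
      |∫ z in Bx m, (F (EE (Z p) s1 * WW m (X p) z) - F (WW m (X p) z))| ≤ ε := by
  have hpi := Real.pi_pos
  obtain ⟨η, hη, hcut⟩ := exists_cutoff φ m hX hD (ε := ε / 4) (by positivity)
  -- uniform bound for the divergence
  have hCs : ∀ j, ContDiff ℝ ⊤ fun q : (Fin m → ℝ) × P => CF φ η m (X q.2) (Z q.2) q.1 j :=
    fun j => contDiff_CF φ hη m hX hZ j
  set G : (Fin m → ℝ) × P → ℝ := fun q => ∑ j, fderiv ℝ
    (fun q : (Fin m → ℝ) × P => CF φ η m (X q.2) (Z q.2) q.1 j) q (Pi.single j 1, 0) with hG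
  have hGc : Continuous G := by
    refine continuous_finsetSum _ fun j _ => ?_
    exact ((hCs j).continuous_fderiv (by simp)).clm_apply continuous_const
  have hcomp : IsCompact (Bx m ×ˢ Metric.closedBall p0 1) :=
    (isCompact_Bx m).prod (isCompact_closedBall p0 1)
  obtain ⟨K, hK⟩ := hcomp.exists_bound_of_continuousOn hGc.continuousOn
  set K' := max K 0 + 1 with hK'
  have hK'0 : 0 < K' := by have := le_max_right K 0; rw [hK']; linarith
  refine ⟨ε / (2 * ((2 * Real.pi) ^ m * K')), by positivity, ?_⟩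
  filter_upwards [hcut, Metric.closedBall_mem_nhds p0 one_pos] with p hp1 hp2 hX3 hZ3 𝔤 hAJ hZg hinj
    F hF hFb s1 hs1 hs2
  -- the vector field at `p`
  set C : Fin m → (Fin m → ℝ) → ℝ := fun j z => CF φ η m (X p) (Z p) z j with hCdef
  set C' : Fin m → (Fin m → ℝ) → ((Fin m → ℝ) →L[ℝ] ℝ) := fun j z =>
    (fderiv ℝ (fun q : (Fin m → ℝ) × P => CF φ η m (X q.2) (Z q.2) q.1 j) (z, p)).comp
      (ContinuousLinearMap.inl ℝ (Fin m → ℝ) P) with hC'def
  have hC : ∀ j z, HasFDerivAt (C j) (C' j z) z := by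
    intro j z
    have h1 := ((hCs j).differentiable (by simp) (z, p)).hasFDerivAt
    have h2 : HasFDerivAt (fun z : Fin m → ℝ => (z, p))
        (ContinuousLinearMap.inl ℝ (Fin m → ℝ) P) z := by
      exact (hasFDerivAt_id z).prodMk (hasFDerivAt_const p z)
    exact h1.comp z h2
  have hdivG : ∀ z, ∑ j, C' j z (Pi.single j 1) = G (z, p) := by
    intro z
    simp only [hC'def, hG, ContinuousLinearMap.comp_apply, ContinuousLinearMap.inl_apply]
  have hCc : Continuous fun z => ∑ j, C' j z (Pi.single j 1) := by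
    have : (fun z => ∑ j, C' j z (Pi.single j 1)) = fun z => G (z, p) := funext hdivG
    rw [this]
    exact hGc.comp (continuous_id.prodMk continuous_const)
  have hchid : ContDiff ℝ ⊤ fun z : Fin m → ℝ => chi φ η m (X p) z :=
    (contDiff_chi φ hη m hX).comp (contDiff_id.prodMk contDiff_const)
  have hrel : ∀ z, ∑ j, C j z • AJ m (X p) z j = chi φ η m (X p) z • Z p := by
    intro z
    have hmem : ∑ j, C j z • AJ m (X p) z j - chi φ η m (X p) z • Z p ∈ 𝔤 :=
      𝔤.sub_mem (𝔤.sum_mem fun j _ => 𝔤.smul_mem _ (hAJ z j)) (𝔤.smul_mem _ hZg)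
    have hz := hinj _ hmem (by
      rw [map_sub, map_sum, sub_eq_zero]
      funext i
      have := CF_solves φ η m (X p) (Z p) z i
      rw [map_smul]
      simp only [Finset.sum_apply, map_smul, Pi.smul_apply, smul_eq_mul]
      exact this)
    rwa [sub_eq_zero] at hz
  have hmain := tv_word hX3 hZ3 hC hCc (χ := fun z => chi φ η m (X p) z)
    (hchid.differentiable (by simp)) hrel
    (fun j z z' hs hc => by
      simp only [hCdef]
      rw [CF_congr φ η m (X p) (Z p) hs hc]) (K := K')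
    (fun z hz => by
      rw [hdivG]
      have := hK (z, p) ⟨hz, hp2⟩
      rw [Real.norm_eq_abs] at this
      have h3 := le_max_left K 0
      rw [hK']; linarith) hF hFb hs1
  -- split
  have hWc : Continuous (WW m (X p)) :=
    continuous_iff_continuousAt.2 fun y => (WW_hasFDerivAt m (X p) hX3 y).continuousAt
  have hf1 : Continuous fun z => F (EE (Z p) s1 * WW m (X p) z) :=
    hF.continuous.comp (continuous_const.mul hWc)
  have hf2 : Continuous fun z => F (WW m (X p) z) := hF.continuous.comp hWc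
  have hchic : Continuous fun z => chi φ η m (X p) z := hchid.continuous
  have hi : ∀ {f : (Fin m → ℝ) → ℝ}, Continuous f → IntegrableOn f (Bx m) := fun hf =>
    hf.continuousOn.integrableOn_compact (isCompact_Bx m)
  have hsplit : ∫ z in Bx m, (F (EE (Z p) s1 * WW m (X p) z) - F (WW m (X p) z)) =
      (∫ z in Bx m, chi φ η m (X p) z * (F (EE (Z p) s1 * WW m (X p) z) - F (WW m (X p) z))) +
      ∫ z in Bx m, (1 - chi φ η m (X p) z) *
        (F (EE (Z p) s1 * WW m (X p) z) - F (WW m (X p) z)) := by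
    have hia := hi (f := fun z => chi φ η m (X p) z * (F (EE (Z p) s1 * WW m (X p) z) -
      F (WW m (X p) z))) (hchic.mul (hf1.sub hf2))
    have hib := hi (f := fun z => (1 - chi φ η m (X p) z) * (F (EE (Z p) s1 * WW m (X p) z) -
      F (WW m (X p) z))) ((continuous_const.sub hchic).mul (hf1.sub hf2))
    rw [← integral_add hia hib]
    refine integral_congr_ae (Eventually.of_forall fun z => ?_)
    simp only
    ring
  rw [hsplit]
  have h2 : |∫ z in Bx m, (1 - chi φ η m (X p) z) *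
        (F (EE (Z p) s1 * WW m (X p) z) - F (WW m (X p) z))| ≤ 2 * (ε / 4) := by
    calc _ ≤ ∫ z in Bx m, |(1 - chi φ η m (X p) z) *
        (F (EE (Z p) s1 * WW m (X p) z) - F (WW m (X p) z))| := by
          have := norm_integral_le_integral_norm (μ := volume.restrict (Bx m)) (fun z =>
            (1 - chi φ η m (X p) z) * (F (EE (Z p) s1 * WW m (X p) z) - F (WW m (X p) z)))
          simpa only [Real.norm_eq_abs] using this
      _ ≤ ∫ z in Bx m, 2 * (1 - chi φ η m (X p) z) := by
          refine integral_mono (hi ((continuous_const.sub hchic).mul (hf1.sub hf2)).abs)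
            (hi (continuous_const.mul (continuous_const.sub hchic))) fun z => ?_
          have hc := chi_mem φ hη m (X p) z
          have hb1 := hFb s1 z
          have hb2 := hFb 0 z
          rw [EE_zero, one_mul] at hb2
          simp only
          rw [abs_mul, abs_of_nonneg (by linarith : (0:ℝ) ≤ 1 - chi φ η m (X p) z), mul_comm]
          refine mul_le_mul_of_nonneg_right ?_ (by linarith)
          calc _ ≤ |F (EE (Z p) s1 * WW m (X p) z)| + |F (WW m (X p) z)| := abs_sub _ _
            _ ≤ 2 := by linarith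
      _ = 2 * ∫ z in Bx m, (1 - chi φ η m (X p) z) := by rw [integral_const_mul]
      _ ≤ 2 * (ε / 4) := by linarith
  have h3 : s1 * (2 * Real.pi) ^ m * K' ≤ ε / 2 := by
    calc s1 * (2 * Real.pi) ^ m * K' = s1 * ((2 * Real.pi) ^ m * K') := by ring
      _ ≤ ε / (2 * ((2 * Real.pi) ^ m * K')) * ((2 * Real.pi) ^ m * K') :=
          mul_le_mul_of_nonneg_right hs2 (by positivity)
      _ = ε / 2 := by
          have : (2 * Real.pi) ^ m * K' ≠ 0 := by positivity
          field_simp
  calc _ ≤ |∫ z in Bx m, chi φ η m (X p) z *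
        (F (EE (Z p) s1 * WW m (X p) z) - F (WW m (X p) z))| +
        |∫ z in Bx m, (1 - chi φ η m (X p) z) *
        (F (EE (Z p) s1 * WW m (X p) z) - F (WW m (X p) z))| := abs_add_le _ _
    _ ≤ s1 * (2 * Real.pi) ^ m * K' + 2 * (ε / 4) := add_le_add hmain h2
    _ ≤ ε := by linarith

end SphLim
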