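import Pool.Agent.SphLim.Word4
import Pool.Agent.SphLim.Frame

/-!
# The scaled rotation algebra of the three-sphere
-/

open MeasureTheory Set Filter Topology
open scoped RealInnerProductSpace

namespace SphLim

/-- The scaled ambient space. -/
abbrev E4 : Type := ℝ × Eu 3

/-- The algebra of its endomorphisms. -/
abbrev A4 : Type := E4 →L[ℝ] E4

noncomputable def L1 (n1 : Eu 3) : A4 :=
  ((innerSL ℝ n1).comp (ContinuousLinearMap.snd ℝ ℝ (Eu 3))).prod 0

noncomputable def L2 (n1 : Eu 3) : A4 :=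
  (0 : E4 →L[ℝ] ℝ).prod ((ContinuousLinearMap.fst ℝ ℝ (Eu 3)).smulRight n1)

noncomputable def L3 (n1 n2 : Eu 3) : A4 :=
  (0 : E4 →L[ℝ] ℝ).prod
    (((innerSL ℝ n1).comp (ContinuousLinearMap.snd ℝ ℝ (Eu 3))).smulRight n2 -
      ((innerSL ℝ n2).comp (ContinuousLinearMap.snd ℝ ℝ (Eu 3))).smulRight n1)

/-- The scaled generator of the rotations fixing two points. -/
noncomputable def XL (n1 n2 : Eu 3) (p : ℝ × ℝ × ℝ) : A4 :=
  (-(p.2.2 * p.1 * p.2.1)) • L1 n1 + (p.2.2 * p.2.1) • L2 n1 + p.2.2 • L3 n1 n2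

lemma L1_apply (n1 : Eu 3) (u : E4) : L1 n1 u = (⟪n1, u.2⟫, 0) := rfl

lemma L2_apply (n1 : Eu 3) (u : E4) : L2 n1 u = (0, u.1 • n1) := rfl

lemma L3_apply (n1 n2 : Eu 3) (u : E4) :
    L3 n1 n2 u = (0, ⟪n1, u.2⟫ • n2 - ⟪n2, u.2⟫ • n1) := rfl

lemma XL_apply (n1 n2 : Eu 3) (p : ℝ × ℝ × ℝ) (u : E4) :
    XL n1 n2 p u = (-(p.2.2 * p.1 * p.2.1) * ⟪n1, u.2⟫,
      (p.2.2 * p.2.1 * u.1 - p.2.2 * ⟪n2, u.2⟫) • n1 + (p.2.2 * ⟪n1, u.2⟫) • n2) := by
  have : XL n1 n2 p u = (-(p.2.2 * p.1 * p.2.1)) • L1 n1 u + (p.2.2 * p.2.1) • L2 n1 u +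
    p.2.2 • L3 n1 n2 u := rfl
  rw [this, L1_apply, L2_apply, L3_apply]
  refine Prod.ext ?_ ?_
  · simp
  · simp only [Prod.smul_mk, Prod.mk_add_mk, smul_zero, zero_add]
    module

lemma contDiff_XL (n1 n2 : Eu 3) {r : WithTop ℕ∞} {E : Type*} [NormedAddCommGroup E]
    [NormedSpace ℝ E] {p : E → ℝ × ℝ × ℝ} (hp : ContDiff ℝ r p) :
    ContDiff ℝ r fun q => XL n1 n2 (p q) := by
  unfold XL
  have h1 : ContDiff ℝ r fun q => (p q).1 := contDiff_fst.comp hp
  have h2 : ContDiff ℝ r fun q => (p q).2.1 := contDiff_fst.comp (contDiff_snd.comp hp)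
  have h3 : ContDiff ℝ r fun q => (p q).2.2 := contDiff_snd.comp (contDiff_snd.comp hp)
  exact ((((h3.mul h1).mul h2).neg.smul contDiff_const).add
    ((h3.mul h2).smul contDiff_const)).add (h3.smul contDiff_const)

lemma XL_cube {n1 n2 : Eu 3} (h1 : ‖n1‖ = 1) (h2 : ‖n2‖ = 1) (h12 : ⟪n1, n2⟫ = 0)
    {p : ℝ × ℝ × ℝ} (hp : p.2.2 ^ 2 * (1 + p.1 * p.2.1 ^ 2) = 1) :
    XL n1 n2 p * XL n1 n2 p * XL n1 n2 p = -XL n1 n2 p := by
  have h21 : ⟪n2, n1⟫ = 0 := by rw [real_inner_comm]; exact h12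
  have h11 : ⟪n1, n1⟫ = 1 := by rw [real_inner_self_eq_norm_sq, h1]; norm_num
  have h22 : ⟪n2, n2⟫ = 1 := by rw [real_inner_self_eq_norm_sq, h2]; norm_num
  obtain ⟨τ, μ, ι⟩ := p
  simp only at hp
  refine ContinuousLinearMap.ext fun u => ?_
  have e : (XL n1 n2 (τ, μ, ι) * XL n1 n2 (τ, μ, ι) * XL n1 n2 (τ, μ, ι)) u =
    XL n1 n2 (τ, μ, ι) (XL n1 n2 (τ, μ, ι) (XL n1 n2 (τ, μ, ι) u)) := rfl
  rw [e, neg_apply]
  simp only [XL_apply, inner_add_right, inner_smul_right, h11, h22, h12, h21]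
  set a := ⟪n1, u.2⟫
  set b := ⟪n2, u.2⟫
  refine Prod.ext ?_ ?_
  · simp only [Prod.fst_neg]
    linear_combination (ι * τ * μ * a) * hp
  · simp only [Prod.snd_neg]
    have e1 : ι * μ * (-(ι * τ * μ) * ((ι * μ * u.1 - ι * b) * 1 + ι * a * 0)) -
        ι * ((ι * μ * (-(ι * τ * μ) * a) - ι * ((ι * μ * u.1 - ι * b) * 0 + ι * a * 1)) * 0 +
          ι * ((ι * μ * u.1 - ι * b) * 1 + ι * a * 0) * 1) = -(ι * μ * u.1 - ι * b) := by
      linear_combination (-(ι * μ * u.1 - ι * b)) * hp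
    have e2 : ι * ((ι * μ * (-(ι * τ * μ) * a) - ι * ((ι * μ * u.1 - ι * b) * 0 + ι * a * 1)) * 1 +
          ι * ((ι * μ * u.1 - ι * b) * 1 + ι * a * 0) * 0) = -(ι * a) := by
      linear_combination (-(ι * a)) * hp
    rw [e1, e2]
    module

/-- The quadratic form preserved by the scaled rotations. -/
noncomputable def Qf (τ : ℝ) (u v : E4) : ℝ := u.1 * v.1 + τ * ⟪u.2, v.2⟫

lemma Qf_add_left (τ : ℝ) (u u' v : E4) : Qf τ (u + u') v = Qf τ u v + Qf τ u' v := by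
  unfold Qf
  simp only [Prod.fst_add, Prod.snd_add, inner_add_left]
  ring

lemma Qf_add_right (τ : ℝ) (u v v' : E4) : Qf τ u (v + v') = Qf τ u v + Qf τ u v' := by
  unfold Qf
  simp only [Prod.fst_add, Prod.snd_add, inner_add_right]
  ring

lemma Qf_smul_left (τ c : ℝ) (u v : E4) : Qf τ (c • u) v = c * Qf τ u v := by
  unfold Qf
  simp only [Prod.smul_fst, Prod.smul_snd, inner_smul_left, smul_eq_mul, RCLike.conj_to_real]
  ring

lemma Qf_smul_right (τ c : ℝ) (u v : E4) : Qf τ u (c • v) = c * Qf τ u v := by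
  unfold Qf
  simp only [Prod.smul_fst, Prod.smul_snd, inner_smul_right, smul_eq_mul]
  ring

/-- The scaled Lie algebra. -/
noncomputable def gg (τ : ℝ) : Submodule ℝ A4 where
  carrier := {Z | ∀ u v, Qf τ (Z u) v + Qf τ u (Z v) = 0}
  add_mem' := by
    intro a b ha hb u v
    have h1 := ha u v
    have h2 := hb u v
    rw [add_apply, add_apply, Qf_add_left, Qf_add_right]
    linarith
  zero_mem' := by
    intro u v
    simp [Qf]
  smul_mem' := by
    intro c a ha u v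
    have h1 := ha u v
    rw [smul_apply, smul_apply, Qf_smul_left, Qf_smul_right, ← mul_add, h1, mul_zero]

lemma mem_gg {τ : ℝ} {Z : A4} : Z ∈ gg τ ↔ ∀ u v, Qf τ (Z u) v + Qf τ u (Z v) = 0 := Iff.rfl

lemma XL_mem_gg (n1 n2 : Eu 3) (p : ℝ × ℝ × ℝ) : XL n1 n2 p ∈ gg p.1 := by
  intro u v
  rw [XL_apply, XL_apply]
  unfold Qf
  simp only [inner_add_left, inner_add_right, inner_smul_left, inner_smul_right,
    RCLike.conj_to_real]
  rw [real_inner_comm n1 u.2, real_inner_comm n2 u.2]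
  ring

lemma EE_adjoint {τ : ℝ} {X : A4} (hX : X ∈ gg τ) (θ : ℝ) (u v : E4) :
    Qf τ (EE X θ u) v = Qf τ u (EE X (-θ) v) := by
  have h : ∀ u v, Qf τ (X u) v = - Qf τ u (X v) := fun u v => by
    have := hX u v
    linarith
  have e1 : EE X θ u = u + Real.sin θ • X u + (1 - Real.cos θ) • X (X u) := rfl
  have e2 : EE X (-θ) v = v + Real.sin (-θ) • X v + (1 - Real.cos (-θ)) • X (X v) := rfl
  rw [e1, e2]
  simp only [Qf_add_left, Qf_add_right, Qf_smul_left, Qf_smul_right, h, Real.sin_neg,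
    Real.cos_neg]
  ring

lemma conj_mem_gg {τ : ℝ} {X B : A4} (hX : X ∈ gg τ) (hB : B ∈ gg τ) (θ : ℝ) :
    EE X θ * B * EE X (-θ) ∈ gg τ := by
  intro u v
  have e : ∀ u, (EE X θ * B * EE X (-θ)) u = EE X θ (B (EE X (-θ) u)) := fun u => rfl
  rw [e, e, EE_adjoint hX]
  have h2 : Qf τ u (EE X θ (B (EE X (-θ) v))) = Qf τ (EE X (-θ) u) (B (EE X (-θ) v)) := by
    have := EE_adjoint hX (-θ) u (B (EE X (-θ) v))
    rw [neg_neg] at this
    exact this.symm
  rw [h2]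
  exact hB _ _

lemma AJ_mem_gg {τ : ℝ} : ∀ (n : ℕ) (X : ℕ → A4), (∀ k, X k ∈ gg τ) → ∀ (z : Fin n → ℝ)
    (j : Fin n), AJ n X z j ∈ gg τ
  | 0, _, _, _, j => Fin.elim0 j
  | n + 1, X, hX, z, j => by
    refine Fin.cases ?_ (fun j => ?_) j
    · rw [AJ_zero]; exact hX 0
    · rw [AJ_succ]
      exact conj_mem_gg (hX 0) (AJ_mem_gg n _ (fun k => hX (k + 1)) _ _) _

/-- The standard basis of `ℝ^3`. -/
noncomputable def e3 (i : Fin 3) : Eu 3 := EuclideanSpace.single i 1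

lemma inner_e3 (i : Fin 3) (v : Eu 3) : ⟪v, e3 i⟫ = v i := by
  simp [e3, EuclideanSpace.inner_single_right]

/-- The entries of the constant part. -/
noncomputable def evc (i : Fin 3) : A4 →L[ℝ] ℝ :=
  (EuclideanSpace.proj i : Eu 3 →L[ℝ] ℝ).comp ((ContinuousLinearMap.snd ℝ ℝ (Eu 3)).comp
    (ContinuousLinearMap.apply ℝ E4 ((1, 0) : E4)))

/-- The entries of the linear part. -/
noncomputable def evr (i j : Fin 3) : A4 →L[ℝ] ℝ :=
  (EuclideanSpace.proj i : Eu 3 →L[ℝ] ℝ).comp ((ContinuousLinearMap.snd ℝ ℝ (Eu 3)).comp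
    (ContinuousLinearMap.apply ℝ E4 ((0, e3 j) : E4)))

lemma evc_apply (i : Fin 3) (Z : A4) : evc i Z = (Z (1, 0)).2 i := rfl

lemma evr_apply (i j : Fin 3) (Z : A4) : evr i j Z = (Z (0, e3 j)).2 i := rfl

/-- Coordinates on the scaled Lie algebra. -/
noncomputable def ph : A4 →L[ℝ] (Fin 6 → ℝ) :=
  ContinuousLinearMap.pi ![evc 0, evc 1, evc 2, evr 0 1, evr 0 2, evr 1 2]

lemma ph_apply (Z : A4) : ph Z = ![(Z (1, 0)).2 0, (Z (1, 0)).2 1, (Z (1, 0)).2 2,
    (Z (0, e3 1)).2 0, (Z (0, e3 2)).2 0, (Z (0, e3 2)).2 1] := by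
  funext i
  unfold ph
  fin_cases i <;> rfl

lemma ext_e3 {v w : Eu 3} (h : ∀ i, v i = w i) : v = w := by
  ext i; exact h i

lemma ph_injective {τ : ℝ} (hτ : 0 < τ) {Z : A4} (hZ : Z ∈ gg τ) (h0 : ph Z = 0) : Z = 0 := by
  rw [ph_apply] at h0
  have a0 : (Z (1, 0)).2 0 = 0 := by simpa using congrFun h0 0
  have a1 : (Z (1, 0)).2 1 = 0 := by simpa using congrFun h0 1
  have a2 : (Z (1, 0)).2 2 = 0 := by simpa using congrFun h0 2
  have b0 : (Z (0, e3 1)).2 0 = 0 := by simpa using congrFun h0 3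
  have b1 : (Z (0, e3 2)).2 0 = 0 := by simpa using congrFun h0 4
  have b2 : (Z (0, e3 2)).2 1 = 0 := by simpa using congrFun h0 5
  have hc : (Z (1, 0)).2 = 0 := by
    apply ext_e3
    intro i
    fin_cases i
    · exact a0
    · exact a1
    · exact a2
  have hc0 : (Z (1, 0)).1 = 0 := by
    have := hZ (1, 0) (1, 0)
    unfold Qf at this
    simp only [inner_zero_left, inner_zero_right, mul_zero, add_zero, mul_one, one_mul] at this
    linarith
  have hlin0 : ∀ y : Eu 3, (Z (0, y)).1 = 0 := by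
    intro y
    have := hZ (1, 0) (0, y)
    unfold Qf at this
    rw [hc] at this
    simp only [inner_zero_left, mul_zero, add_zero, one_mul, zero_add] at this
    exact this
  have hskew : ∀ i j, (Z (0, e3 j)).2 i = -(Z (0, e3 i)).2 j := by
    intro i j
    have := hZ (0, e3 j) (0, e3 i)
    unfold Qf at this
    simp only [mul_zero, zero_mul, zero_add] at this
    rw [inner_e3, real_inner_comm, inner_e3] at this
    have h2 : τ * ((Z (0, e3 j)).2 i + (Z (0, e3 i)).2 j) = 0 := by linarith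
    rcases mul_eq_zero.1 h2 with h | h
    · exact absurd h hτ.ne'
    · linarith
  have hall : ∀ i j, (Z (0, e3 j)).2 i = 0 := by
    intro i j
    have d : ∀ k, (Z (0, e3 k)).2 k = 0 := fun k => by have := hskew k k; linarith
    fin_cases i <;> fin_cases j
    · exact d 0
    · exact b0
    · exact b1
    · have := hskew 1 0; simp only [Fin.mk_zero, Fin.mk_one] at *; rw [this, b0, neg_zero]
    · exact d 1
    · exact b2
    · have := hskew 2 0; simp only [Fin.mk_zero, Fin.reduceFinMk] at *; rw [this, b1, neg_zero]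
    · have := hskew 2 1; simp only [Fin.mk_one, Fin.reduceFinMk] at *; rw [this, b2, neg_zero]
    · exact d 2
  have hbase : ∀ j, Z (0, e3 j) = 0 := fun j => Prod.ext (hlin0 _) (ext_e3 fun i => hall i j)
  have hy : ∀ y : Eu 3, Z (0, y) = 0 := by
    intro y
    have hy' : y = ∑ j, y j • e3 j := by
      apply ext_e3
      intro i
      simp [e3, Finset.sum_apply, Pi.single_apply]
    have h2 : ((0 : ℝ), y) = ∑ j, y j • ((0 : ℝ), e3 j) := by
      refine Prod.ext ?_ ?_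
      · simp [Prod.fst_sum]
      · rw [Prod.snd_sum]
        simpa using hy'
    rw [h2, map_sum]
    refine Finset.sum_eq_zero fun j _ => ?_
    rw [map_smul, hbase, smul_zero]
  refine ContinuousLinearMap.ext fun u => ?_
  have hu : u = u.1 • ((1 : ℝ), (0 : Eu 3)) + (0, u.2) := by
    refine Prod.ext ?_ ?_
    · simp
    · simp
  rw [hu, map_add, map_smul, hy]
  have : Z (1, 0) = 0 := Prod.ext hc0 hc
  rw [this]
  simp

end SphLim
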