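import Pool.Agent.SphLim.Word5

/-!
# The flat Lie algebra is generated by two skew rotations
-/

open MeasureTheory Set Filter Topology
open scoped RealInnerProductSpace

namespace SphLim

lemma inner_one {n : ℕ} {v : Eu n} (h : ‖v‖ = 1) : ⟪v, v⟫ = 1 := by
  rw [real_inner_self_eq_norm_sq, h]; norm_num

lemma exp3 {m1 m2 b : Eu 3} (h1 : ‖m1‖ = 1) (h2 : ‖m2‖ = 1) (hb : ‖b‖ = 1) (h12 : ⟪m1, m2⟫ = 0)
    (h1b : ⟪m1, b⟫ = 0) (h2b : ⟪m2, b⟫ = 0) (v : Eu 3) :
    v = ⟪m1, v⟫ • m1 + ⟪m2, v⟫ • m2 + ⟪b, v⟫ • b := by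
  have h21 : ⟪m2, m1⟫ = 0 := by rw [real_inner_comm]; exact h12
  have hb1 : ⟪b, m1⟫ = 0 := by rw [real_inner_comm]; exact h1b
  have hb2 : ⟪b, m2⟫ = 0 := by rw [real_inner_comm]; exact h2b
  have ho : Orthonormal ℝ ![m1, m2, b] := by
    constructor
    · intro i; fin_cases i <;> simp [h1, h2, hb]
    · intro i j hij
      fin_cases i <;> fin_cases j <;> simp_all
  have hli := ho.linearIndependent
  have hspan : Submodule.span ℝ (Set.range ![m1, m2, b]) = ⊤ :=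
    hli.span_eq_top_of_card_eq_finrank (by simp)
  set w := v - (⟪m1, v⟫ • m1 + ⟪m2, v⟫ • m2 + ⟪b, v⟫ • b) with hw
  have hw1 : ⟪m1, w⟫ = 0 := by
    rw [hw]
    simp only [inner_sub_right, inner_add_right, inner_smul_right, inner_one h1, h12, h1b]
    ring
  have hw2 : ⟪m2, w⟫ = 0 := by
    rw [hw]
    simp only [inner_sub_right, inner_add_right, inner_smul_right, inner_one h2, h21, h2b]
    ring
  have hwb : ⟪b, w⟫ = 0 := by
    rw [hw]
    simp only [inner_sub_right, inner_add_right, inner_smul_right, inner_one hb, hb1, hb2]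
    ring
  have hall : ∀ z : Eu 3, ⟪z, w⟫ = 0 := by
    intro z
    have hz : z ∈ Submodule.span ℝ (Set.range ![m1, m2, b]) := by rw [hspan]; trivial
    refine Submodule.span_induction (p := fun z _ => ⟪z, w⟫ = 0) ?_ ?_ ?_ ?_ hz
    · rintro _ ⟨i, rfl⟩
      fin_cases i
      · exact hw1
      · exact hw2
      · exact hwb
    · simp
    · intro x y _ _ hx hy
      rw [inner_add_left, hx, hy, add_zero]
    · intro c x _ hx
      rw [inner_smul_left, hx, mul_zero]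
  have hw0 : w = 0 := by
    have := hall w
    exact inner_self_eq_zero.1 this
  rw [hw, sub_eq_zero] at hw0
  exact hw0

lemma conj_lin {A : Type*} [NormedRing A] [NormedAlgebra ℝ A] (E E' X L : A) (r s : ℝ) :
    E * (r • X + s • L) * E' = r • (E * X * E') + s • (E * L * E') := by
  rw [mul_add, add_mul, mul_smul_comm, smul_mul_assoc, mul_smul_comm, smul_mul_assoc]

lemma L2_add (c c' : Eu 3) : L2 (c + c') = L2 c + L2 c' := by
  refine ContinuousLinearMap.ext fun u => ?_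
  rw [add_apply, L2_apply, L2_apply, L2_apply]
  refine Prod.ext (by simp) ?_
  simp

lemma L2_smul (r : ℝ) (c : Eu 3) : L2 (r • c) = r • L2 c := by
  refine ContinuousLinearMap.ext fun u => ?_
  rw [smul_apply, L2_apply, L2_apply]
  refine Prod.ext (by simp) ?_
  simp only [Prod.smul_snd]
  module

lemma flat_apply (n1 n2 : Eu 3) (μ : ℝ) (u : E4) :
    XL n1 n2 (0, μ, 1) u = (0, (μ * u.1 - ⟪n2, u.2⟫) • n1 + ⟪n1, u.2⟫ • n2) := by
  rw [XL_apply]
  refine Prod.ext (by simp) ?_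
  simp

lemma flat_eq (n1 n2 : Eu 3) (μ : ℝ) : XL n1 n2 (0, μ, 1) = μ • L2 n1 + L3 n1 n2 := by
  refine ContinuousLinearMap.ext fun u => ?_
  rw [flat_apply, add_apply, smul_apply, L2_apply, L3_apply]
  refine Prod.ext (by simp) ?_
  simp only [Prod.smul_mk, Prod.mk_add_mk]
  module

section frame

variable {m1 m2 b : Eu 3} (h1 : ‖m1‖ = 1) (h2 : ‖m2‖ = 1) (hb : ‖b‖ = 1) (h12 : ⟪m1, m2⟫ = 0)
    (h1b : ⟪m1, b⟫ = 0) (h2b : ⟪m2, b⟫ = 0)

include h1 h2 h12

lemma EE_flat_apply (μ θ : ℝ) (u : E4) : EE (XL m1 m2 (0, μ, 1)) θ u = (u.1, u.2 +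
    (Real.sin θ * (μ * u.1 - ⟪m2, u.2⟫) - (1 - Real.cos θ) * ⟪m1, u.2⟫) • m1 +
    (Real.sin θ * ⟪m1, u.2⟫ + (1 - Real.cos θ) * (μ * u.1 - ⟪m2, u.2⟫)) • m2) := by
  have h21 : ⟪m2, m1⟫ = 0 := by rw [real_inner_comm]; exact h12
  have e : EE (XL m1 m2 (0, μ, 1)) θ u = u + Real.sin θ • XL m1 m2 (0, μ, 1) u +
    (1 - Real.cos θ) • XL m1 m2 (0, μ, 1) (XL m1 m2 (0, μ, 1) u) := rfl
  rw [e]
  simp only [flat_apply, inner_add_right, inner_smul_right, inner_one h1, inner_one h2, h12, h21]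
  refine Prod.ext (by simp) ?_
  simp only [Prod.snd_add, Prod.smul_snd]
  module

include hb h1b h2b

theorem pi_id (μX μY α1 β1 κ1 α2 β2 κ2 : ℝ) :
    XL (α1 • m1 + β1 • m2 + κ1 • b) (α2 • m1 + β2 • m2 + κ2 • b) (0, μX, 1) +
      EE (XL m1 m2 (0, μY, 1)) Real.pi *
        XL (α1 • m1 + β1 • m2 + κ1 • b) (α2 • m1 + β2 • m2 + κ2 • b) (0, μX, 1) *
        EE (XL m1 m2 (0, μY, 1)) (-Real.pi) =
      (2 * (α1 * β2 - β1 * α2)) • XL m1 m2 (0, μY, 1) +
      (2 * (μX * κ1 + μY * (β1 * κ2 - β2 * κ1))) • L2 b := by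
  have h21 : ⟪m2, m1⟫ = 0 := by rw [real_inner_comm]; exact h12
  have hb1 : ⟪b, m1⟫ = 0 := by rw [real_inner_comm]; exact h1b
  have hb2 : ⟪b, m2⟫ = 0 := by rw [real_inner_comm]; exact h2b
  refine ContinuousLinearMap.ext fun u => ?_
  have e : ∀ (P Q R S : A4), (P + Q * R * S) u = P u + Q (R (S u)) := fun P Q R S => rfl
  rw [e, add_apply, smul_apply, smul_apply, L2_apply]
  simp only [EE_flat_apply h1 h2 h12, flat_apply, Real.sin_neg, Real.cos_neg, Real.sin_pi,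
    Real.cos_pi, inner_add_left, inner_add_right, inner_smul_left, inner_smul_right,
    RCLike.conj_to_real, inner_one h1, inner_one h2, inner_one hb, h12, h21, h1b, h2b, hb1, hb2]
  refine Prod.ext (by simp) ?_
  simp only [Prod.snd_add, Prod.smul_snd]
  module

theorem half_L2 (μY a1 a2 a3 : ℝ) :
    EE (XL m1 m2 (0, μY, 1)) (Real.pi / 2) * L2 (a1 • m1 + a2 • m2 + a3 • b) *
        EE (XL m1 m2 (0, μY, 1)) (-(Real.pi / 2)) =
      L2 (a1 • m2 + (-a2) • m1 + a3 • b) := by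
  have h21 : ⟪m2, m1⟫ = 0 := by rw [real_inner_comm]; exact h12
  have hb1 : ⟪b, m1⟫ = 0 := by rw [real_inner_comm]; exact h1b
  have hb2 : ⟪b, m2⟫ = 0 := by rw [real_inner_comm]; exact h2b
  refine ContinuousLinearMap.ext fun u => ?_
  have e : ∀ (Q R S : A4), (Q * R * S) u = Q (R (S u)) := fun Q R S => rfl
  rw [e]
  simp only [L2_apply, EE_flat_apply h1 h2 h12, Real.sin_neg, Real.cos_neg, Real.sin_pi_div_two,
    Real.cos_pi_div_two, inner_add_right, inner_smul_right,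
    inner_one h1, inner_one h2, h12, h21, h1b, h2b]
  refine Prod.ext (by simp) ?_
  simp only
  module

theorem half_X (μX μY α1 β1 κ1 α2 β2 κ2 : ℝ) : ∃ c : Eu 3,
    EE (XL m1 m2 (0, μY, 1)) (Real.pi / 2) *
        XL (α1 • m1 + β1 • m2 + κ1 • b) (α2 • m1 + β2 • m2 + κ2 • b) (0, μX, 1) *
        EE (XL m1 m2 (0, μY, 1)) (-(Real.pi / 2)) =
      L2 c + L3 (α1 • m2 + (-β1) • m1 + κ1 • b) (α2 • m2 + (-β2) • m1 + κ2 • b) := by
  have h21 : ⟪m2, m1⟫ = 0 := by rw [real_inner_comm]; exact h12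
  have hb1 : ⟪b, m1⟫ = 0 := by rw [real_inner_comm]; exact h1b
  have hb2 : ⟪b, m2⟫ = 0 := by rw [real_inner_comm]; exact h2b
  refine ⟨((EE (XL m1 m2 (0, μY, 1)) (Real.pi / 2) *
        XL (α1 • m1 + β1 • m2 + κ1 • b) (α2 • m1 + β2 • m2 + κ2 • b) (0, μX, 1) *
        EE (XL m1 m2 (0, μY, 1)) (-(Real.pi / 2))) ((1 : ℝ), (0 : Eu 3))).2, ?_⟩
  refine ContinuousLinearMap.ext fun u => ?_
  have e : ∀ (Q R S : A4) (u : E4), (Q * R * S) u = Q (R (S u)) := fun Q R S u => rfl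
  rw [e, e, add_apply, L2_apply, L3_apply]
  simp only [EE_flat_apply h1 h2 h12, flat_apply, Real.sin_neg, Real.cos_neg, Real.sin_pi_div_two,
    Real.cos_pi_div_two, inner_add_left, inner_add_right, inner_smul_left, inner_smul_right,
    RCLike.conj_to_real, inner_one h1, inner_one h2, inner_one hb, h12, h21, h1b, h2b, hb1, hb2,
    inner_zero_right]
  refine Prod.ext (by simp) ?_
  simp only [Prod.mk_add_mk]
  module

end frame

lemma L3_bilin (m1 m2 b : Eu 3) (α1 β1 κ1 α2 β2 κ2 : ℝ) :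
    L3 (α1 • m1 + β1 • m2 + κ1 • b) (α2 • m1 + β2 • m2 + κ2 • b) =
      (α1 * β2 - β1 * α2) • L3 m1 m2 + (α1 * κ2 - κ1 * α2) • L3 m1 b +
        (β1 * κ2 - κ1 * β2) • L3 m2 b := by
  refine ContinuousLinearMap.ext fun u => ?_
  simp only [add_apply, smul_apply, L3_apply, inner_add_left, inner_smul_left,
    RCLike.conj_to_real]
  refine Prod.ext (by simp) ?_
  simp only [Prod.snd_add, Prod.smul_snd]
  module

/-- Two rotations with skew axes generate the Lie algebra of rigid motions. -/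
theorem flat_span {m1 m2 b : Eu 3} (h1 : ‖m1‖ = 1) (h2 : ‖m2‖ = 1) (hb : ‖b‖ = 1)
    (h12 : ⟪m1, m2⟫ = 0) (h1b : ⟪m1, b⟫ = 0) (h2b : ⟪m2, b⟫ = 0) {μX μY α1 β1 κ1 α2 β2 κ2 : ℝ}
    (hn1 : α1 ^ 2 + β1 ^ 2 + κ1 ^ 2 = 1) (hn2 : α2 ^ 2 + β2 ^ 2 + κ2 ^ 2 = 1)
    (hn12 : α1 * α2 + β1 * β2 + κ1 * κ2 = 0)
    (hγ : μX * κ1 + μY * (β1 * κ2 - β2 * κ1) ≠ 0) {X Y : A4}
    (hX : X = XL (α1 • m1 + β1 • m2 + κ1 • b) (α2 • m1 + β2 • m2 + κ2 • b) (0, μX, 1))
    (hY : Y = XL m1 m2 (0, μY, 1)) {S : Submodule ℝ A4} (hYS : Y ∈ S)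
    (hXS : ∀ a, EE Y a * X * EE Y (-a) ∈ S)
    (hYX : ∀ a c, EE Y a * (EE X c * Y * EE X (-c)) * EE Y (-a) ∈ S) :
    (∀ c, L2 c ∈ S) ∧ ∀ n n', L3 n n' ∈ S := by
  have h21 : ⟪m2, m1⟫ = 0 := by rw [real_inner_comm]; exact h12
  have hb1 : ⟪b, m1⟫ = 0 := by rw [real_inner_comm]; exact h1b
  have hb2 : ⟪b, m2⟫ = 0 := by rw [real_inner_comm]; exact h2b
  have hYcube : Y * Y * Y = -Y := by rw [hY]; exact XL_cube h1 h2 h12 (by norm_num)
  set n1 : Eu 3 := α1 • m1 + β1 • m2 + κ1 • b with hn1def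
  set n2 : Eu 3 := α2 • m1 + β2 • m2 + κ2 • b with hn2def
  set P := α1 * κ2 - α2 * κ1 with hP
  set Q := β1 * κ2 - β2 * κ1 with hQ
  set δ := α1 * β2 - β1 * α2 with hδ
  have hN1 : ‖n1‖ = 1 := by
    have : ‖n1‖ ^ 2 = 1 := by
      rw [← real_inner_self_eq_norm_sq, hn1def]
      simp only [inner_add_left, inner_add_right, inner_smul_left, inner_smul_right,
        RCLike.conj_to_real, inner_one h1, inner_one h2, inner_one hb, h12, h21, h1b, h2b, hb1, hb2]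
      linear_combination hn1
    nlinarith [norm_nonneg n1]
  have hN2 : ‖n2‖ = 1 := by
    have : ‖n2‖ ^ 2 = 1 := by
      rw [← real_inner_self_eq_norm_sq, hn2def]
      simp only [inner_add_left, inner_add_right, inner_smul_left, inner_smul_right,
        RCLike.conj_to_real, inner_one h1, inner_one h2, inner_one hb, h12, h21, h1b, h2b, hb1, hb2]
      linear_combination hn2
    nlinarith [norm_nonneg n2]
  have hN12 : ⟪n1, n2⟫ = 0 := by
    rw [hn1def, hn2def]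
    simp only [inner_add_left, inner_add_right, inner_smul_left, inner_smul_right,
        RCLike.conj_to_real, inner_one h1, inner_one h2, inner_one hb, h12, h21, h1b, h2b, hb1, hb2]
    linear_combination hn12
  have hLag : Q ^ 2 + P ^ 2 + δ ^ 2 = 1 := by
    have : Q ^ 2 + P ^ 2 + δ ^ 2 = (α1 ^ 2 + β1 ^ 2 + κ1 ^ 2) * (α2 ^ 2 + β2 ^ 2 + κ2 ^ 2) -
        (α1 * α2 + β1 * β2 + κ1 * κ2) ^ 2 := by
      rw [hP, hQ, hδ]; ring
    rw [this, hn1, hn2, hn12]; norm_num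
  set a : Eu 3 := Q • m1 + (-P) • m2 + δ • b with ha
  have hA : ‖a‖ = 1 := by
    have : ‖a‖ ^ 2 = 1 := by
      rw [← real_inner_self_eq_norm_sq, ha]
      simp only [inner_add_left, inner_add_right, inner_smul_left, inner_smul_right,
        RCLike.conj_to_real, inner_one h1, inner_one h2, inner_one hb, h12, h21, h1b, h2b, hb1, hb2]
      linear_combination hLag
    nlinarith [norm_nonneg a]
  have hN1a : ⟪n1, a⟫ = 0 := by
    rw [hn1def, ha]
    simp only [inner_add_left, inner_add_right, inner_smul_left, inner_smul_right,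
        RCLike.conj_to_real, inner_one h1, inner_one h2, inner_one hb, h12, h21, h1b, h2b, hb1, hb2]
    rw [hP, hQ, hδ]; ring
  have hN2a : ⟪n2, a⟫ = 0 := by
    rw [hn2def, ha]
    simp only [inner_add_left, inner_add_right, inner_smul_left, inner_smul_right,
        RCLike.conj_to_real, inner_one h1, inner_one h2, inner_one hb, h12, h21, h1b, h2b, hb1, hb2]
    rw [hP, hQ, hδ]; ring
  -- expansions of `m1`, `m2` in the frame of `X`
  have em1 : m1 = α1 • n1 + α2 • n2 + Q • a := by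
    have := exp3 hN1 hN2 hA hN12 hN1a hN2a m1
    have c1 : ⟪n1, m1⟫ = α1 := by
      rw [hn1def]
      simp only [inner_add_left, inner_smul_left, RCLike.conj_to_real, inner_one h1, h21, hb1]
      ring
    have c2 : ⟪n2, m1⟫ = α2 := by
      rw [hn2def]
      simp only [inner_add_left, inner_smul_left, RCLike.conj_to_real, inner_one h1, h21, hb1]
      ring
    have c3 : ⟪a, m1⟫ = Q := by
      rw [ha]
      simp only [inner_add_left, inner_smul_left, RCLike.conj_to_real, inner_one h1, h21, hb1]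
      ring
    rw [c1, c2, c3] at this
    exact this
  have em2 : m2 = β1 • n1 + β2 • n2 + (-P) • a := by
    have := exp3 hN1 hN2 hA hN12 hN1a hN2a m2
    have c1 : ⟪n1, m2⟫ = β1 := by
      rw [hn1def]
      simp only [inner_add_left, inner_smul_left, RCLike.conj_to_real, inner_one h2, h12, hb2]
      ring
    have c2 : ⟪n2, m2⟫ = β2 := by
      rw [hn2def]
      simp only [inner_add_left, inner_smul_left, RCLike.conj_to_real, inner_one h2, h12, hb2]
      ring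
    have c3 : ⟪a, m2⟫ = -P := by
      rw [ha]
      simp only [inner_add_left, inner_smul_left, RCLike.conj_to_real, inner_one h2, h12, hb2]
      ring
    rw [c1, c2, c3] at this
    exact this
  have hPQ : P ^ 2 + Q ^ 2 ≠ 0 := by
    intro h
    have hP0 : P = 0 := by nlinarith [sq_nonneg P, sq_nonneg Q]
    have hQ0 : Q = 0 := by nlinarith [sq_nonneg P, sq_nonneg Q]
    have hδ1 : δ ^ 2 = 1 := by rw [hP0, hQ0] at hLag; linarith
    -- κ1 = 0
    have hk1 : κ1 * δ = 0 := by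
      have : κ1 * δ = α1 * (-Q) + β1 * P := by rw [hP, hQ, hδ]; ring
      rw [this, hP0, hQ0]; ring
    have hk : κ1 = 0 := by
      rcases mul_eq_zero.1 hk1 with h' | h'
      · exact h'
      · rw [h'] at hδ1; norm_num at hδ1
    apply hγ
    rw [hk, hQ0]; ring
  have hX0 : X ∈ S := by
    have := hXS 0
    rwa [neg_zero, EE_zero, one_mul, mul_one] at this
  -- constants along b
  have hLb : L2 b ∈ S := by
    have e := pi_id h1 h2 hb h12 h1b h2b μX μY α1 β1 κ1 α2 β2 κ2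
    rw [← hn1def, ← hn2def, ← hX, ← hY] at e
    have e2 : (2 * (μX * κ1 + μY * (β1 * κ2 - β2 * κ1))) • L2 b ∈ S := by
      have : (2 * (μX * κ1 + μY * (β1 * κ2 - β2 * κ1))) • L2 b =
          (X + EE Y Real.pi * X * EE Y (-Real.pi)) - (2 * (α1 * β2 - β1 * α2)) • Y := by
        rw [e]; abel
      rw [this]
      exact S.sub_mem (S.add_mem hX0 (hXS _)) (S.smul_mem _ hYS)
    have h3 : (2 * (μX * κ1 + μY * (β1 * κ2 - β2 * κ1))) ≠ 0 := mul_ne_zero two_ne_zero hγ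
    have := S.smul_mem (2 * (μX * κ1 + μY * (β1 * κ2 - β2 * κ1)))⁻¹ e2
    rwa [smul_smul, inv_mul_cancel₀ h3, one_smul] at this
  -- constants along a and its rotation
  have hLa : ∀ θ, EE Y θ * L2 a * EE Y (-θ) ∈ S := by
    intro θ
    have e := pi_id hN1 hN2 hA hN12 hN1a hN2a μY μX α1 α2 Q β1 β2 (-P)
    rw [← em1, ← em2] at e
    have hγ' : μY * Q + μX * (α2 * (-P) - β2 * Q) = μX * κ1 + μY * (β1 * κ2 - β2 * κ1) := by
      have : α2 * (-P) - β2 * Q = κ1 := by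
        have : α2 * (-P) - β2 * Q = -κ2 * (α1 * α2 + β1 * β2 + κ1 * κ2) +
          κ1 * (α2 ^ 2 + β2 ^ 2 + κ2 ^ 2) := by rw [hP, hQ]; ring
        rw [this, hn12, hn2]; ring
      rw [this, hQ]; ring
    rw [hγ', ← hX, ← hY] at e
    have h3 : (2 * (μX * κ1 + μY * (β1 * κ2 - β2 * κ1))) ≠ 0 := mul_ne_zero two_ne_zero hγ
    generalize (2 * (μX * κ1 + μY * (β1 * κ2 - β2 * κ1))) = gc at e h3
    generalize (2 * (α1 * β2 - α2 * β1)) = gd at e
    have e3 : gc • (EE Y θ * L2 a * EE Y (-θ)) ∈ S := by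
      have hYY : EE Y θ * Y * EE Y (-θ) = Y := by
        rw [EE_comm, mul_assoc, EE_mul_neg hYcube, mul_one]
      have : gc • (EE Y θ * L2 a * EE Y (-θ)) =
          EE Y θ * Y * EE Y (-θ) + EE Y θ * (EE X Real.pi * Y * EE X (-Real.pi)) * EE Y (-θ) -
          gd • (EE Y θ * X * EE Y (-θ)) := by
        have h5 : EE Y θ * Y * EE Y (-θ) + EE Y θ * (EE X Real.pi * Y * EE X (-Real.pi)) * EE Y (-θ)
            = EE Y θ * (Y + EE X Real.pi * Y * EE X (-Real.pi)) * EE Y (-θ) := by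
          rw [mul_add, add_mul]
        have h6 : EE Y θ * (gd • X + gc • L2 a) * EE Y (-θ) = gd • (EE Y θ * X * EE Y (-θ)) +
          gc • (EE Y θ * L2 a * EE Y (-θ)) := conj_lin (EE Y θ) (EE Y (-θ)) X (L2 a) gd gc
        rw [h5, e, h6]
        abel
      rw [this, hYY]
      exact S.sub_mem (S.add_mem hYS (hYX θ Real.pi)) (S.smul_mem _ (hXS θ))
    have := S.smul_mem gc⁻¹ e3
    rwa [smul_smul, inv_mul_cancel₀ h3, one_smul] at this
  have hLa0 : L2 a ∈ S := by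
    have := hLa 0
    rwa [neg_zero, EE_zero, one_mul, mul_one] at this
  have hLa1 : L2 (Q • m2 + (-(-P)) • m1 + δ • b) ∈ S := by
    have := hLa (Real.pi / 2)
    rw [ha, hY, half_L2 h1 h2 hb h12 h1b h2b] at this
    exact this
  have hL2expand : ∀ x y z : ℝ, L2 (x • m1 + y • m2 + z • b) = x • L2 m1 + y • L2 m2 + z • L2 b := by
    intro x y z
    rw [L2_add, L2_add, L2_smul, L2_smul, L2_smul]
  have hmm : ∀ x y : ℝ, x * Q + y * P = x * Q + y * P := fun _ _ => rfl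
  have hLm1 : L2 m1 ∈ S := by
    have e4 : (P ^ 2 + Q ^ 2) • L2 m1 = Q • (L2 a - δ • L2 b) +
        P • (L2 (Q • m2 + (-(-P)) • m1 + δ • b) - δ • L2 b) := by
      rw [ha]
      simp only [L2_add, L2_smul]
      module
    have e5 : (P ^ 2 + Q ^ 2) • L2 m1 ∈ S := by
      rw [e4]
      exact S.add_mem (S.smul_mem _ (S.sub_mem hLa0 (S.smul_mem _ hLb)))
        (S.smul_mem _ (S.sub_mem hLa1 (S.smul_mem _ hLb)))
    have := S.smul_mem (P ^ 2 + Q ^ 2)⁻¹ e5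
    rwa [smul_smul, inv_mul_cancel₀ hPQ, one_smul] at this
  have hLm2 : L2 m2 ∈ S := by
    have e4 : (P ^ 2 + Q ^ 2) • L2 m2 = (-P) • (L2 a - δ • L2 b) +
        Q • (L2 (Q • m2 + (-(-P)) • m1 + δ • b) - δ • L2 b) := by
      rw [ha]
      simp only [L2_add, L2_smul]
      module
    have e5 : (P ^ 2 + Q ^ 2) • L2 m2 ∈ S := by
      rw [e4]
      exact S.add_mem (S.smul_mem _ (S.sub_mem hLa0 (S.smul_mem _ hLb)))
        (S.smul_mem _ (S.sub_mem hLa1 (S.smul_mem _ hLb)))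
    have := S.smul_mem (P ^ 2 + Q ^ 2)⁻¹ e5
    rwa [smul_smul, inv_mul_cancel₀ hPQ, one_smul] at this
  have hL2 : ∀ c, L2 c ∈ S := by
    intro c
    rw [exp3 h1 h2 hb h12 h1b h2b c, hL2expand]
    exact S.add_mem (S.add_mem (S.smul_mem _ hLm1) (S.smul_mem _ hLm2)) (S.smul_mem _ hLb)
  refine ⟨hL2, ?_⟩
  have hR12 : L3 m1 m2 ∈ S := by
    have : L3 m1 m2 = Y - μY • L2 m1 := by rw [hY, flat_eq]; abel
    rw [this]; exact S.sub_mem hYS (S.smul_mem _ (hL2 _))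
  have hRn : L3 n1 n2 ∈ S := by
    have : L3 n1 n2 = X - μX • L2 n1 := by rw [hX, flat_eq]; abel
    rw [this]; exact S.sub_mem hX0 (S.smul_mem _ (hL2 _))
  have hRr : L3 (α1 • m2 + (-β1) • m1 + κ1 • b) (α2 • m2 + (-β2) • m1 + κ2 • b) ∈ S := by
    obtain ⟨c, hc⟩ := half_X h1 h2 hb h12 h1b h2b μX μY α1 β1 κ1 α2 β2 κ2
    rw [← hn1def, ← hn2def, ← hX, ← hY] at hc
    have : L3 (α1 • m2 + (-β1) • m1 + κ1 • b) (α2 • m2 + (-β2) • m1 + κ2 • b) =
      EE Y (Real.pi / 2) * X * EE Y (-(Real.pi / 2)) - L2 c := by rw [hc]; abel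
    rw [this]
    exact S.sub_mem (hXS _) (hL2 _)
  -- expand
  have x1 : L3 n1 n2 = δ • L3 m1 m2 + P • L3 m1 b + Q • L3 m2 b := by
    rw [hn1def, hn2def, L3_bilin, hP, hQ, hδ]
    module
  have x2 : L3 (α1 • m2 + (-β1) • m1 + κ1 • b) (α2 • m2 + (-β2) • m1 + κ2 • b) =
      δ • L3 m1 m2 + (-Q) • L3 m1 b + P • L3 m2 b := by
    have e1 : α1 • m2 + (-β1) • m1 + κ1 • b = (-β1) • m1 + α1 • m2 + κ1 • b := by abel
    have e2 : α2 • m2 + (-β2) • m1 + κ2 • b = (-β2) • m1 + α2 • m2 + κ2 • b := by abel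
    rw [e1, e2, L3_bilin, hP, hQ, hδ]
    module
  have hR1b : L3 m1 b ∈ S := by
    have e4 : (P ^ 2 + Q ^ 2) • L3 m1 b = P • (L3 n1 n2 - δ • L3 m1 m2) - Q •
        (L3 (α1 • m2 + (-β1) • m1 + κ1 • b) (α2 • m2 + (-β2) • m1 + κ2 • b) -
          δ • L3 m1 m2) := by
      rw [x1, x2]; module
    have e5 : (P ^ 2 + Q ^ 2) • L3 m1 b ∈ S := by
      rw [e4]
      exact S.sub_mem (S.smul_mem _ (S.sub_mem hRn (S.smul_mem _ hR12)))
        (S.smul_mem _ (S.sub_mem hRr (S.smul_mem _ hR12)))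
    have := S.smul_mem (P ^ 2 + Q ^ 2)⁻¹ e5
    rwa [smul_smul, inv_mul_cancel₀ hPQ, one_smul] at this
  have hR2b : L3 m2 b ∈ S := by
    have e4 : (P ^ 2 + Q ^ 2) • L3 m2 b = Q • (L3 n1 n2 - δ • L3 m1 m2) + P •
        (L3 (α1 • m2 + (-β1) • m1 + κ1 • b) (α2 • m2 + (-β2) • m1 + κ2 • b) -
          δ • L3 m1 m2) := by
      rw [x1, x2]; module
    have e5 : (P ^ 2 + Q ^ 2) • L3 m2 b ∈ S := by
      rw [e4]
      exact S.add_mem (S.smul_mem _ (S.sub_mem hRn (S.smul_mem _ hR12)))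
        (S.smul_mem _ (S.sub_mem hRr (S.smul_mem _ hR12)))
    have := S.smul_mem (P ^ 2 + Q ^ 2)⁻¹ e5
    rwa [smul_smul, inv_mul_cancel₀ hPQ, one_smul] at this
  intro n n'
  rw [exp3 h1 h2 hb h12 h1b h2b n, exp3 h1 h2 hb h12 h1b h2b n', L3_bilin]
  exact S.add_mem (S.add_mem (S.smul_mem _ hR12) (S.smul_mem _ hR1b)) (S.smul_mem _ hR2b)

end SphLim
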