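import Pool.Agent.SphLim.Oper
import Pool.Agent.SphLim.TermFull

/-!
# The rotations attached to the scaled generators
-/

open MeasureTheory Filter Topology Metric
open scoped ENNReal Pointwise RealInnerProductSpace Real

namespace SphLim

/-- The scaled embedding. -/
noncomputable def JJ (t : ℝ) : E4 →L[ℝ] Eu (3 + 1) :=
  LinearMap.toContinuousLinearMap
    { toFun := fun u => emb u.1 (t • u.2)
      map_add' := fun u v => by
        rw [← emb_add]
        congr 1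
        simp
      map_smul' := fun c u => by
        rw [RingHom.id_apply, ← emb_smul]
        congr 1
        simp only [Prod.smul_snd]
        rw [smul_comm] }

lemma JJ_apply (t : ℝ) (u : E4) : JJ t u = emb u.1 (t • u.2) := rfl

/-- Its inverse. -/
noncomputable def JI (t : ℝ) : Eu (3 + 1) →L[ℝ] E4 :=
  LinearMap.toContinuousLinearMap
    { toFun := fun x => (x 0, t⁻¹ • hor x)
      map_add' := fun u v => by
        refine Prod.ext ?_ ?_
        · simp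
        · ext i
          simp [hor_apply]
          ring
      map_smul' := fun c u => by
        refine Prod.ext ?_ ?_
        · simp
        · ext i
          simp [hor_apply]
          ring }

lemma JI_apply (t : ℝ) (x : Eu (3 + 1)) : JI t x = (x 0, t⁻¹ • hor x) := rfl

lemma JJ_JI {t : ℝ} (ht : t ≠ 0) (x : Eu (3 + 1)) : JJ t (JI t x) = x := by
  rw [JJ_apply, JI_apply]
  simp only
  rw [smul_smul, mul_inv_cancel₀ ht, one_smul, emb_hor]

lemma JI_JJ {t : ℝ} (ht : t ≠ 0) (u : E4) : JI t (JJ t u) = u := by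
  rw [JI_apply, JJ_apply, hor_emb, smul_smul, inv_mul_cancel₀ ht, one_smul]
  rfl

lemma inner_JJ (t : ℝ) (u v : E4) : ⟪JJ t u, JJ t v⟫ = Qf (t ^ 2) u v := by
  rw [JJ_apply, JJ_apply, inner_emb, inner_smul_left, inner_smul_right]
  unfold Qf
  simp only [conj_trivial]
  ring

lemma bw_eq_JJ (ρ t : ℝ) (x : Eu 3) : bw ρ t x = JJ t (hgt ρ t, x) := rfl

/-- The unscaled endomorphism. -/
noncomputable def un (t : ℝ) (X : A4) : Eu (3 + 1) →L[ℝ] Eu (3 + 1) :=
  (JJ t).comp (X.comp (JI t))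

lemma un_apply (t : ℝ) (X : A4) (x : Eu (3 + 1)) : un t X x = JJ t (X (JI t x)) := rfl

lemma un_JJ {t : ℝ} (ht : t ≠ 0) (X : A4) (u : E4) : un t X (JJ t u) = JJ t (X u) := by
  rw [un_apply, JI_JJ ht]

lemma un_mul {t : ℝ} (ht : t ≠ 0) (X Y : A4) : un t (X * Y) = un t X * un t Y := by
  refine ContinuousLinearMap.ext fun x => ?_
  have : (un t X * un t Y) x = un t X (un t Y x) := rfl
  rw [this, un_apply, un_apply, un_apply, JI_JJ ht]
  rfl

lemma un_one {t : ℝ} (ht : t ≠ 0) : un t 1 = 1 := by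
  refine ContinuousLinearMap.ext fun x => ?_
  rw [un_apply]
  exact JJ_JI ht x

lemma star_un {t : ℝ} (ht : t ≠ 0) {X : A4} (hX : X ∈ gg (t ^ 2)) (θ : ℝ) :
    star (un t (EE X θ)) = un t (EE X (-θ)) := by
  rw [ContinuousLinearMap.star_eq_adjoint]
  symm
  rw [ContinuousLinearMap.eq_adjoint_iff]
  intro x y
  rw [← JJ_JI ht x, ← JJ_JI ht y, un_JJ ht, un_JJ ht, inner_JJ, inner_JJ, EE_adjoint hX, neg_neg]

lemma un_mem {t : ℝ} (ht : t ≠ 0) {X : A4} (hX : X ∈ gg (t ^ 2)) (hX3 : X * X * X = -X) (θ : ℝ) :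
    un t (EE X θ) ∈ unitary (Eu (3 + 1) →L[ℝ] Eu (3 + 1)) := by
  rw [Unitary.mem_iff, star_un ht hX, ← un_mul ht, ← un_mul ht, EE_neg_mul hX3, EE_mul_neg hX3,
    un_one ht]
  exact ⟨rfl, rfl⟩

/-- The rotation attached to a scaled generator. -/
noncomputable def rr {t : ℝ} (ht : t ≠ 0) {X : A4} (hX : X ∈ gg (t ^ 2))
    (hX3 : X * X * X = -X) (θ : ℝ) : OG (3 + 1) := ⟨un t (EE X θ), un_mem ht hX hX3 θ⟩

section rr

variable {t : ℝ} (ht : t ≠ 0) {X : A4} (hX : X ∈ gg (t ^ 2)) (hX3 : X * X * X = -X)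

lemma rr_coe (θ : ℝ) : (rr ht hX hX3 θ : Eu (3 + 1) →L[ℝ] Eu (3 + 1)) = un t (EE X θ) := rfl

lemma act_rr (θ : ℝ) (u : E4) : act (rr ht hX hX3 θ) (JJ t u) = JJ t (EE X θ u) := by
  change un t (EE X θ) (JJ t u) = _
  rw [un_JJ ht]

lemma rr_mul (θ θ' : ℝ) : rr ht hX hX3 θ * rr ht hX hX3 θ' = rr ht hX hX3 (θ + θ') := by
  apply Subtype.ext
  change un t (EE X θ) * un t (EE X θ') = un t (EE X (θ + θ'))
  rw [← un_mul ht, EE_mul_add hX3]

lemma rr_zero : rr ht hX hX3 0 = 1 := by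
  apply Subtype.ext
  change un t (EE X 0) = 1
  rw [EE_zero, un_one ht]

lemma rr_inv (θ : ℝ) : (rr ht hX hX3 θ)⁻¹ = rr ht hX hX3 (-θ) := by
  rw [inv_eq_iff_mul_eq_one, rr_mul, add_neg_cancel, rr_zero]

lemma rr_reflect (θ : ℝ) : rr ht hX hX3 (2 * π - θ) = (rr ht hX hX3 θ)⁻¹ := by
  rw [rr_inv]
  apply Subtype.ext
  change un t (EE X (2 * π - θ)) = un t (EE X (-θ))
  rw [EE_congr X (θ := 2 * π - θ) (θ' := -θ) (by rw [Real.sin_two_pi_sub, Real.sin_neg])
    (by rw [Real.cos_two_pi_sub, Real.cos_neg])]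

lemma continuous_rr : Continuous (rr ht hX hX3) := by
  unfold rr
  refine Continuous.subtype_mk ?_ _
  have h1 : Continuous (EE X) := by
    unfold EE
    fun_prop
  unfold un
  exact continuous_const.clm_comp (h1.clm_comp continuous_const)

lemma rr_fix {u : E4} (hu : X u = 0) (θ : ℝ) : act (rr ht hX hX3 θ) (JJ t u) = JJ t u := by
  rw [act_rr]
  congr 1
  have : EE X θ u = u + Real.sin θ • X u + (1 - Real.cos θ) • X (X u) := rfl
  rw [this, hu, map_zero, smul_zero, smul_zero, add_zero, add_zero]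

end rr

lemma act_Wd {t : ℝ} (ht : t ≠ 0) : ∀ (m : ℕ) (X : ℕ → A4) (k : ℕ → ℝ → OG (3 + 1)),
    (∀ j θ, (k j θ : Eu (3 + 1) →L[ℝ] Eu (3 + 1)) = un t (EE (X j) θ)) → ∀ (z : Fin m → ℝ) (u : E4),
    act (Wd m k z) (JJ t u) = JJ t (WW m X z u)
  | 0, _, _, _, _, u => by
    simp only [Wd, WW, act_one]
    rfl
  | m + 1, X, k, hk, z, u => by
    rw [Wd_succ, WW_succ, act_mul, act_Wd ht m (fun j => X (j + 1)) (fun j => k (j + 1))
      (fun j θ => hk (j + 1) θ)]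
    change (k 0 (z 0) : Eu (3 + 1) →L[ℝ] Eu (3 + 1)) _ = _
    rw [hk 0, un_JJ ht]
    rfl

/-- The distance bound for a doubled point. -/
theorem rr_dist {t : ℝ} (ht : t ≠ 0) {X : A4} (hX : X ∈ gg (t ^ 2)) (hX3 : X * X * X = -X)
    {u w : E4} (hw : X w = 0) (σ c1 c2 : ℝ) :
    |Real.sin σ| * ‖JJ t (X u)‖ ≤
      ‖JJ t u - (c1 • JJ t w + c2 • act (rr ht hX hX3 σ) (JJ t u))‖ := by
  have hs : ∀ a b : E4, Qf (t ^ 2) (X a) b = - Qf (t ^ 2) a (X b) := fun a b => by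
    have := hX a b
    linarith
  have hq : ∀ a b : E4, Qf (t ^ 2) a b = Qf (t ^ 2) b a := fun a b => by
    rw [← inner_JJ, ← inner_JJ, real_inner_comm]
  set U : Eu (3 + 1) := act (rr ht hX hX3 σ) (JJ t (X u)) with hU
  have hUn : ‖U‖ = ‖JJ t (X u)‖ := norm_act _ _
  have hXuu : Qf (t ^ 2) (X u) u = 0 := by
    have h1 := hs u u
    rw [hq u (X u)] at h1
    linarith
  have hXX : Qf (t ^ 2) (X u) (X (X u)) = 0 := by
    have h1 := hs (X u) (X u)
    rw [hq (X (X u)) (X u)] at h1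
    linarith
  have h1 : ⟪U, act (rr ht hX hX3 σ) (JJ t u)⟫ = 0 := by
    rw [hU, inner_act, inner_JJ, hXuu]
  have h2 : ⟪U, JJ t w⟫ = 0 := by
    rw [← rr_fix ht hX hX3 hw σ, hU, inner_act, inner_JJ, hs, hw]
    simp [Qf]
  have h3 : ⟪U, JJ t u⟫ = - Real.sin σ * ‖JJ t (X u)‖ ^ 2 := by
    have e1 : JJ t u = act (rr ht hX hX3 σ) (act (rr ht hX hX3 (-σ)) (JJ t u)) := by
      rw [← act_mul, rr_mul, add_neg_cancel, rr_zero, act_one]
    rw [e1, hU, inner_act, act_rr, inner_JJ]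
    have e2 : EE X (-σ) u = u + Real.sin (-σ) • X u + (1 - Real.cos (-σ)) • X (X u) := rfl
    rw [e2, Qf_add_right, Qf_add_right, Qf_smul_right, Qf_smul_right, hXuu, hXX, ← inner_JJ,
      real_inner_self_eq_norm_sq, Real.sin_neg]
    ring
  have h4 : ⟪U, JJ t u - (c1 • JJ t w + c2 • act (rr ht hX hX3 σ) (JJ t u))⟫ =
      - Real.sin σ * ‖JJ t (X u)‖ ^ 2 := by
    rw [inner_sub_right, inner_add_right, inner_smul_right, inner_smul_right, h1, h2, h3]
    ring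
  have h5 := abs_real_inner_le_norm U
    (JJ t u - (c1 • JJ t w + c2 • act (rr ht hX hX3 σ) (JJ t u)))
  rw [h4, hUn, abs_mul, abs_neg, abs_of_nonneg (sq_nonneg ‖JJ t (X u)‖)] at h5
  rcases (norm_nonneg (JJ t (X u))).eq_or_lt with h0 | h0
  · rw [← h0, mul_zero]
    exact norm_nonneg _
  · have h6 : ‖JJ t (X u)‖ * (|Real.sin σ| * ‖JJ t (X u)‖) ≤ ‖JJ t (X u)‖ *
        ‖JJ t u - (c1 • JJ t w + c2 • act (rr ht hX hX3 σ) (JJ t u))‖ := by
      refine le_trans (le_of_eq ?_) h5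
      ring
    exact le_of_mul_le_mul_left h6 h0

end SphLim
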