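import Pool.Agent.SphLim.Word8

/-!
# Frames attached to pairs of vertices of a tetrahedron and non-degeneracy
-/

open MeasureTheory Filter Topology Metric
open scoped ENNReal Pointwise RealInnerProductSpace Real

namespace SphLim

/-- The frame of a pair of points. -/
lemma pair_frame (x y : Eu 3) : ∃ n1 n2 : Eu 3, ‖n1‖ = 1 ∧ ‖n2‖ = 1 ∧ ⟪n1, n2⟫ = 0 ∧
    ⟪n1, x⟫ = 0 ∧ ⟪n1, y⟫ = 0 ∧ ⟪n2, x⟫ = ⟪n2, y⟫ := by
  classical
  obtain ⟨n1, hn1, h1⟩ := exists_unit_orth (d := 2) (T := {x, y}) Finset.card_le_two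
  obtain ⟨n2, hn2, h2⟩ := exists_unit_orth (d := 2) (T := {n1, x - y}) Finset.card_le_two
  refine ⟨n1, n2, hn1, hn2, ?_, h1 x (by simp), h1 y (by simp), ?_⟩
  · rw [real_inner_comm]; exact h2 n1 (by simp)
  · have := h2 (x - y) (by simp)
    rw [inner_sub_right] at this
    linarith

/-- Complete a pair of orthonormal vectors. -/
lemma third_vec (n1 n2 : Eu 3) : ∃ b : Eu 3, ‖b‖ = 1 ∧ ⟪n1, b⟫ = 0 ∧ ⟪n2, b⟫ = 0 := by
  classical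
  obtain ⟨b, hb, h1⟩ := exists_unit_orth (d := 2) (T := {n1, n2}) Finset.card_le_two
  exact ⟨b, hb, by rw [real_inner_comm]; exact h1 n1 (by simp),
    by rw [real_inner_comm]; exact h1 n2 (by simp)⟩

/-- Two vectors orthogonal to an orthonormal pair are parallel. -/
lemma parallel_of_orth {n1 n2 : Eu 3} (h1 : ‖n1‖ = 1) (h2 : ‖n2‖ = 1) (h12 : ⟪n1, n2⟫ = 0)
    {p q : Eu 3} (hp1 : ⟪n1, p⟫ = 0) (hp2 : ⟪n2, p⟫ = 0) (hq1 : ⟪n1, q⟫ = 0)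
    (hq2 : ⟪n2, q⟫ = 0) : ∃ α β : ℝ, ¬(α = 0 ∧ β = 0) ∧ α • p + β • q = 0 := by
  obtain ⟨b, hb, h1b, h2b⟩ := third_vec n1 n2
  have hp := exp3 h1 h2 hb h12 h1b h2b p
  have hq := exp3 h1 h2 hb h12 h1b h2b q
  rw [hp1, hp2, zero_smul, zero_smul, zero_add, zero_add] at hp
  rw [hq1, hq2, zero_smul, zero_smul, zero_add, zero_add] at hq
  by_cases hp0 : ⟪b, p⟫ = 0
  · refine ⟨1, 0, by simp, ?_⟩
    rw [hp0, zero_smul] at hp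
    rw [hp]
    simp
  · refine ⟨⟪b, q⟫, -⟪b, p⟫, fun h => hp0 (by linarith [h.2]), ?_⟩
    have e : ⟪b, q⟫ • p + -⟪b, p⟫ • q = ⟪b, q⟫ • (⟪b, p⟫ • b) + -⟪b, p⟫ • (⟪b, q⟫ • b) := by
      rw [← hp, ← hq]
    rw [e]
    module

/-- The difference vectors of a tetrahedron are independent and span the space. -/
structure Tet (a b c e : Eu 3) : Prop where
  li : ∀ α β γ : ℝ, α • (a - c) + β • (b - c) + γ • (e - c) = 0 → α = 0 ∧ β = 0 ∧ γ = 0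
  span : ∀ w : Eu 3, ⟪w, a - c⟫ = 0 → ⟪w, b - c⟫ = 0 → ⟪w, e - c⟫ = 0 → w = 0

theorem Tet.of_affineIndependent {ι : Type*} {x : ι → Eu 3} (hx : AffineIndependent ℝ x)
    {i m j0 j1 : ι} (him : i ≠ m) (hi0 : i ≠ j0) (hi1 : i ≠ j1) (hm0 : m ≠ j0) (hm1 : m ≠ j1)
    (h01 : j0 ≠ j1) : Tet (x i) (x m) (x j0) (x j1) := by
  classical
  have hli : ∀ α β γ : ℝ, α • (x i - x j0) + β • (x m - x j0) + γ • (x j1 - x j0) = 0 →
      α = 0 ∧ β = 0 ∧ γ = 0 := by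
    intro α β γ h
    rw [affineIndependent_iff] at hx
    obtain ⟨w, hw⟩ : ∃ w : ι → ℝ, w = fun l => if l = i then α else if l = m then β else
      if l = j1 then γ else -(α + β + γ) := ⟨_, rfl⟩
    have wi : w i = α := by simp [hw]
    have wm : w m = β := by simp [hw, him.symm]
    have w1 : w j1 = γ := by simp [hw, hi1.symm, hm1.symm]
    have w0 : w j0 = -(α + β + γ) := by simp [hw, hi0.symm, hm0.symm, h01]
    have hs := hx {i, m, j0, j1} w (by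
      rw [Finset.sum_insert (by simp [him, hi0, hi1]), Finset.sum_insert (by simp [hm0, hm1]),
        Finset.sum_insert (by simp [h01]), Finset.sum_singleton, wi, wm, w0, w1]
      ring) (by
      rw [Finset.sum_insert (by simp [him, hi0, hi1]), Finset.sum_insert (by simp [hm0, hm1]),
        Finset.sum_insert (by simp [h01]), Finset.sum_singleton, wi, wm, w0, w1, ← h]
      module)
    refine ⟨?_, ?_, ?_⟩
    · rw [← wi]; exact hs i (by simp)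
    · rw [← wm]; exact hs m (by simp)
    · rw [← w1]; exact hs j1 (by simp)
  refine ⟨hli, ?_⟩
  intro w ha hb he
  have hl : LinearIndependent ℝ ![x i - x j0, x m - x j0, x j1 - x j0] := by
    rw [Fintype.linearIndependent_iff]
    intro g hg
    rw [Fin.sum_univ_three] at hg
    have h3 := hli (g 0) (g 1) (g 2) (by simpa using hg)
    intro k
    fin_cases k
    · exact h3.1
    · exact h3.2.1
    · exact h3.2.2
  have hspan : Submodule.span ℝ (Set.range ![x i - x j0, x m - x j0, x j1 - x j0]) = ⊤ :=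
    hl.span_eq_top_of_card_eq_finrank (by simp)
  have hall : ∀ z : Eu 3, ⟪w, z⟫ = 0 := by
    intro z
    have hz : z ∈ Submodule.span ℝ (Set.range ![x i - x j0, x m - x j0, x j1 - x j0]) := by
      rw [hspan]; trivial
    refine Submodule.span_induction (p := fun z _ => ⟪w, z⟫ = 0) ?_ ?_ ?_ ?_ hz
    · rintro _ ⟨k, rfl⟩
      fin_cases k
      · exact ha
      · exact hb
      · exact he
    · simp
    · intro y z _ _ hy hz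
      rw [inner_add_right, hy, hz, add_zero]
    · intro c y _ hy
      rw [inner_smul_right, hy, mul_zero]
  exact inner_self_eq_zero.1 (hall w)

/-- The two rotation axes are skew. -/
theorem Tet.gamma_ne {a b c e : Eu 3} (h : Tet a b c e) {m1 m2 bb n1 n2 : Eu 3} (hm1 : ‖m1‖ = 1)
    (hm2 : ‖m2‖ = 1) (hbb : ‖bb‖ = 1) (hm12 : ⟪m1, m2⟫ = 0) (hm1b : ⟪m1, bb⟫ = 0)
    (hm2b : ⟪m2, bb⟫ = 0) (hma : ⟪m1, a⟫ = 0) (hmb : ⟪m1, b⟫ = 0) (hmab : ⟪m2, a⟫ = ⟪m2, b⟫)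
    (hn1 : ‖n1‖ = 1) (hn2 : ‖n2‖ = 1) (hn12 : ⟪n1, n2⟫ = 0) (hnc : ⟪n1, c⟫ = 0)
    (hne : ⟪n1, e⟫ = 0) (hnce : ⟪n2, c⟫ = ⟪n2, e⟫) :
    ⟪n2, c⟫ * ⟪bb, n1⟫ + ⟪m2, a⟫ * (⟪m2, n1⟫ * ⟪bb, n2⟫ - ⟪m2, n2⟫ * ⟪bb, n1⟫) ≠ 0 := by
  intro hγ
  have hn21 : ⟪n2, n1⟫ = 0 := by rw [real_inner_comm]; exact hn12
  set w : Eu 3 := ⟪n1, a - c⟫ • n2 - ⟪n2, a - c⟫ • n1 with hw
  have hwz : ∀ z, ⟪w, z⟫ = ⟪n1, a - c⟫ * ⟪n2, z⟫ - ⟪n2, a - c⟫ * ⟪n1, z⟫ := by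
    intro z
    rw [hw, inner_sub_left, inner_smul_left, inner_smul_left]
    simp
  have ha := exp3 hm1 hm2 hbb hm12 hm1b hm2b a
  rw [hma, zero_smul, zero_add] at ha
  have hn1a : ⟪n1, a⟫ = ⟪m2, a⟫ * ⟪m2, n1⟫ + ⟪bb, a⟫ * ⟪bb, n1⟫ := by
    conv_lhs => rw [ha]
    rw [inner_add_right, inner_smul_right, inner_smul_right, real_inner_comm m2 n1,
      real_inner_comm bb n1]
  have hn2a : ⟪n2, a⟫ = ⟪m2, a⟫ * ⟪m2, n2⟫ + ⟪bb, a⟫ * ⟪bb, n2⟫ := by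
    conv_lhs => rw [ha]
    rw [inner_add_right, inner_smul_right, inner_smul_right, real_inner_comm m2 n2,
      real_inner_comm bb n2]
  have hwbb : ⟪w, bb⟫ = 0 := by
    rw [hwz, inner_sub_right, inner_sub_right, hn1a, hn2a, hnc, real_inner_comm bb n1,
      real_inner_comm bb n2]
    linear_combination hγ
  have hab : a - b = ⟪bb, a - b⟫ • bb := by
    have h2 := exp3 hm1 hm2 hbb hm12 hm1b hm2b (a - b)
    rw [inner_sub_right m1, inner_sub_right m2, hma, hmb, hmab, sub_zero, sub_self, zero_smul,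
      zero_smul, zero_add, zero_add] at h2
    exact h2
  have hwab : ⟪w, a - b⟫ = 0 := by rw [hab, inner_smul_right, hwbb, mul_zero]
  have hwac : ⟪w, a - c⟫ = 0 := by rw [hwz]; ring
  have hwec : ⟪w, e - c⟫ = 0 := by
    rw [hwz, inner_sub_right n2 e, inner_sub_right n1 e, hnce, hnc, hne]
    ring
  have hwbc : ⟪w, b - c⟫ = 0 := by
    have e1 : b - c = (a - c) - (a - b) := by abel
    rw [e1, inner_sub_right, hwac, hwab, sub_zero]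
  have hw0 := h.span w hwac hwbc hwec
  have k1 : ⟪n1, a - c⟫ = 0 := by
    have h2 := hwz n2
    rw [hw0, inner_zero_left, inner_one hn2, hn12] at h2
    linarith
  have k2 : ⟪n2, a - c⟫ = 0 := by
    have h2 := hwz n1
    rw [hw0, inner_zero_left, inner_one hn1, hn21] at h2
    linarith
  obtain ⟨α, β, hne', hz⟩ := parallel_of_orth hn1 hn2 hn12 k1 k2 (q := e - c)
    (by rw [inner_sub_right, hne, hnc, sub_zero]) (by rw [inner_sub_right, hnce, sub_self])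
  have h3 := h.li α 0 β (by rw [zero_smul, add_zero]; exact hz)
  exact hne' ⟨h3.1, h3.2.2⟩

/-- The third rotation moves the first vertex. -/
theorem Tet.move_ne {a b c e : Eu 3} (h : Tet a b c e) {q1 q2 : Eu 3} (hq1 : ‖q1‖ = 1)
    (hq2 : ‖q2‖ = 1) (hq12 : ⟪q1, q2⟫ = 0) (hqb : ⟪q1, b⟫ = 0) (hqc : ⟪q1, c⟫ = 0)
    (hqbc : ⟪q2, b⟫ = ⟪q2, c⟫) : 0 < (⟪q2, b⟫ - ⟪q2, a⟫) ^ 2 + ⟪q1, a⟫ ^ 2 := by
  by_contra hcon
  have h1 : (⟪q2, b⟫ - ⟪q2, a⟫) ^ 2 + ⟪q1, a⟫ ^ 2 = 0 :=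
    le_antisymm (not_lt.1 hcon) (by positivity)
  have h2 : ⟪q2, b⟫ - ⟪q2, a⟫ = 0 := by
    have : (⟪q2, b⟫ - ⟪q2, a⟫) ^ 2 = 0 := by
      nlinarith [sq_nonneg ⟪q1, a⟫, sq_nonneg (⟪q2, b⟫ - ⟪q2, a⟫)]
    exact pow_eq_zero_iff two_ne_zero |>.1 this
  have h3 : ⟪q1, a⟫ = 0 := by
    have : ⟪q1, a⟫ ^ 2 = 0 := by
      nlinarith [sq_nonneg ⟪q1, a⟫, sq_nonneg (⟪q2, b⟫ - ⟪q2, a⟫)]
    exact pow_eq_zero_iff two_ne_zero |>.1 this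
  obtain ⟨α, β, hne', hz⟩ := parallel_of_orth hq1 hq2 hq12 (p := a - c) (q := b - c)
    (by rw [inner_sub_right, h3, hqc, sub_zero]) (by rw [inner_sub_right, ← hqbc]; linarith)
    (by rw [inner_sub_right, hqb, hqc, sub_zero]) (by rw [inner_sub_right, hqbc, sub_self])
  have h4 := h.li α β 0 (by rw [zero_smul, add_zero]; exact hz)
  exact hne' ⟨h4.1, h4.2.1⟩

/-- The parameters of the scaled generator. -/
noncomputable def pv (ρ : ℝ) (n2 x : Eu 3) (t : ℝ) : ℝ × ℝ × ℝ :=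
  (t ^ 2, ⟪n2, x⟫ / hgt ρ t, (Real.sqrt (1 + t ^ 2 * (⟪n2, x⟫ / hgt ρ t) ^ 2))⁻¹)

lemma pv_rel (ρ : ℝ) (n2 x : Eu 3) (t : ℝ) :
    (pv ρ n2 x t).2.2 ^ 2 * (1 + (pv ρ n2 x t).1 * (pv ρ n2 x t).2.1 ^ 2) = 1 := by
  unfold pv
  simp only
  have h1 : 0 < 1 + t ^ 2 * (⟪n2, x⟫ / hgt ρ t) ^ 2 := by positivity
  rw [inv_pow, Real.sq_sqrt h1.le, inv_mul_cancel₀ h1.ne']

lemma pv_pos (ρ : ℝ) (n2 x : Eu 3) (t : ℝ) : 0 < (pv ρ n2 x t).2.2 := by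
  unfold pv
  simp only
  have h1 : 0 < 1 + t ^ 2 * (⟪n2, x⟫ / hgt ρ t) ^ 2 := by positivity
  positivity

lemma hgt_zero (ρ : ℝ) : hgt ρ 0 = 1 := by
  unfold hgt
  norm_num

lemma continuous_hgt (ρ : ℝ) : Continuous (hgt ρ) := by
  unfold hgt
  fun_prop

lemma tendsto_pv (ρ : ℝ) (n2 x : Eu 3) :
    Tendsto (pv ρ n2 x) (𝓝 0) (𝓝 ((0 : ℝ), ⟪n2, x⟫, (1 : ℝ))) := by
  have hc : ContinuousAt (pv ρ n2 x) 0 := by
    have h1 : ContinuousAt (fun t => ⟪n2, x⟫ / hgt ρ t) 0 :=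
      continuousAt_const.div (continuous_hgt ρ).continuousAt (by rw [hgt_zero]; norm_num)
    have h2 : ContinuousAt (fun t : ℝ => t ^ 2) 0 := by fun_prop
    have h3 : ContinuousAt (fun t : ℝ =>
        Real.sqrt (1 + t ^ 2 * (⟪n2, x⟫ / hgt ρ t) ^ 2)) 0 :=
      (continuousAt_const.add (h2.mul (h1.pow 2))).sqrt
    refine h2.prodMk (h1.prodMk (h3.inv₀ ?_))
    have : 0 < 1 + (0 : ℝ) ^ 2 * (⟪n2, x⟫ / hgt ρ 0) ^ 2 := by positivity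
    positivity
  have h4 : pv ρ n2 x 0 = ((0 : ℝ), ⟪n2, x⟫, (1 : ℝ)) := by
    unfold pv
    rw [hgt_zero]
    norm_num
  rw [← h4]
  exact hc

/-- The generator annihilates the two vertices. -/
lemma XL_kill {ρ t : ℝ} {n1 n2 x y : Eu 3} (hh : hgt ρ t ≠ 0) (h1 : ⟪n1, y⟫ = 0)
    (h2 : ⟪n2, x⟫ = ⟪n2, y⟫) : XL n1 n2 (pv ρ n2 x t) (hgt ρ t, y) = 0 := by
  rw [XL_apply]
  simp only [h1, mul_zero, zero_smul, add_zero]
  have h3 : (pv ρ n2 x t).2.1 * hgt ρ t = ⟪n2, y⟫ := by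
    unfold pv
    simp only
    rw [div_mul_cancel₀ _ hh, h2]
  have h4 : (pv ρ n2 x t).2.2 * (pv ρ n2 x t).2.1 * hgt ρ t - (pv ρ n2 x t).2.2 * ⟪n2, y⟫ = 0 := by
    rw [mul_assoc, h3, sub_self]
  rw [h4, zero_smul]
  rfl

/-- Lower bound for the displacement. -/
lemma XL_move {ρ t : ℝ} (ht : 0 < t) {n1 n2 x y : Eu 3} (hh : hgt ρ t ≠ 0) (hn1 : ‖n1‖ = 1)
    (hn2 : ‖n2‖ = 1) (h12 : ⟪n1, n2⟫ = 0) {cq : ℝ} (hcq : 0 ≤ cq)
    (hc : cq ^ 2 ≤ (⟪n2, x⟫ - ⟪n2, y⟫) ^ 2 + ⟪n1, y⟫ ^ 2) :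
    (pv ρ n2 x t).2.2 * cq * t ≤ ‖JJ t (XL n1 n2 (pv ρ n2 x t) (hgt ρ t, y))‖ := by
  have h21 : ⟪n2, n1⟫ = 0 := by rw [real_inner_comm]; exact h12
  have hp := pv_pos ρ n2 x t
  have h3 : (pv ρ n2 x t).2.1 * hgt ρ t = ⟪n2, x⟫ := by
    unfold pv
    simp only
    rw [div_mul_cancel₀ _ hh]
  have h4 : ‖JJ t (XL n1 n2 (pv ρ n2 x t) (hgt ρ t, y))‖ ^ 2 =
      (-((pv ρ n2 x t).2.2 * (pv ρ n2 x t).1 * (pv ρ n2 x t).2.1) * ⟪n1, y⟫) ^ 2 +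
      t ^ 2 * ((pv ρ n2 x t).2.2 ^ 2 * ((⟪n2, x⟫ - ⟪n2, y⟫) ^ 2 + ⟪n1, y⟫ ^ 2)) := by
    rw [← real_inner_self_eq_norm_sq, inner_JJ, XL_apply]
    unfold Qf
    simp only [inner_add_left, inner_add_right, inner_smul_left, inner_smul_right, inner_one hn1,
      inner_one hn2, h12, h21, conj_trivial, mul_zero, add_zero, zero_add, mul_one]
    rw [mul_assoc (pv ρ n2 x t).2.2 (pv ρ n2 x t).2.1, h3]
    ring
  refine le_of_sq_le_sq ?_ (norm_nonneg _)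
  rw [h4]
  have h5 : ((pv ρ n2 x t).2.2 * cq * t) ^ 2 = t ^ 2 * ((pv ρ n2 x t).2.2 ^ 2 * cq ^ 2) := by ring
  rw [h5]
  have h6 : t ^ 2 * ((pv ρ n2 x t).2.2 ^ 2 * cq ^ 2) ≤
      t ^ 2 * ((pv ρ n2 x t).2.2 ^ 2 * ((⟪n2, x⟫ - ⟪n2, y⟫) ^ 2 + ⟪n1, y⟫ ^ 2)) := by gcongr
  nlinarith [sq_nonneg (-((pv ρ n2 x t).2.2 * (pv ρ n2 x t).1 * (pv ρ n2 x t).2.1) * ⟪n1, y⟫)]

end SphLim
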